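import Pool.Agent.Lib.MP_dd244f_an.Even.Defs

/-!
Full operator, even `p = 2 (k + 1)`, `n → ∞`: the statements of the modules (nothing is proved
here).
-/

set_option autoImplicit false

namespace Pool.Agent.Lib.MP_dd244f_an.Even

open MeasureTheory Filter Topology Finset
open Pool.Agent.Lib.MP_dd244f_an.Joint (st ct Mst ratio)
open Pool.Agent.Lib.MP_dd244f_an.Four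
open scoped SchwartzMap ENNReal NNReal

/-! ### Group A: Littlewood-Paley theory in `L^{2 (k + 1)}` -/

/-- (HL) the maximal theorem -/
def StmtHL : Prop := ∀ p : ℝ, 1 < p → ∃ C : ℝ≥0, ∀ φ : ℂ → ℝ≥0∞, Measurable φ →
  ∫⁻ x, (⨆ a : ℤ, ∫⁻ y, ENNReal.ofReal (KK ((2 : ℝ) ^ (-a)) (x - y)) * φ y) ^ p
    ≤ C * ∫⁻ x, φ x ^ p

/-- (DDK) the dual Doob inequality -/
def StmtDDK : Prop := ∀ K : ℕ, 1 ≤ K → ∃ C : ℝ≥0, ∀ (A : Finset ℤ) (φ : ℤ → ℂ → ℝ≥0∞),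
  (∀ a, Measurable (φ a)) →
  ∫⁻ x, (∑ a ∈ A, ∫⁻ y, ENNReal.ofReal (KK ((2 : ℝ) ^ (-a)) (x - y)) * φ a y) ^ K
    ≤ C * ∫⁻ x, (∑ a ∈ A, φ a x) ^ K

/-- (MaxK) -/
def StmtMaxK : Prop := ∀ k : ℕ, 1 ≤ k → ∃ C, 0 < C ∧ ∀ g, CC g → ∃ M, Dom g M ∧
  Integrable (fun x => M x ^ (k + 1)) ∧ ∫ x, M x ^ (k + 1) ≤ C * NK (k + 1) g

/-- (DomF) consequences of the domination -/
def StmtDomF : Prop := ∃ C, 0 < C ∧ ∀ (g : ℂ → ℂ) (M : ℂ → ℝ), CC g → Dom g M → ∀ x,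
  ‖iF g x‖ ^ 2 ≤ C * M x ∧ (∀ a, ‖iF (cut (lo a) g) x‖ ^ 2 ≤ C * M x) ∧
  (∀ a b, ‖iF (cut (bd a b) g) x‖ ^ 2 ≤ C * M x) ∧
  ∀ σ : ℝ, 0 < σ → ∫ y, KK σ (x - y) * ‖iF g y‖ ^ 2 ≤ C * M x ∧
    (∀ a, ∫ y, KK σ (x - y) * ‖iF (cut (lo a) g) y‖ ^ 2 ≤ C * M x) ∧
    (∀ a b, ∫ y, KK σ (x - y) * ‖iF (cut (bd a b) g) y‖ ^ 2 ≤ C * M x)

/-- (LPm) -/
def StmtLPm : Prop := ∀ m : ℕ, 2 ≤ m → ∃ C, 0 < C ∧ ∀ (a : ℤ) (g : ℂ → ℂ), CC g → ∀ x,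
  ‖iF (cut (sh a) g) x‖ ^ 2 ≤
    C * ∫ y, KKm m ((2 : ℝ) ^ (-a)) (x - y) * ‖iF (cut (sh a) g) y‖ ^ 2

/-- (SqK) the square function inequality -/
def StmtSqK : Prop := ∀ k : ℕ, 1 ≤ k → ∃ C, 0 < C ∧ ∀ (A : Finset ℤ) (g : ℂ → ℂ), CC g →
  Integrable (fun x => (∑ a ∈ A, qa a g x) ^ (k + 1)) ∧
  ∫ x, (∑ a ∈ A, qa a g x) ^ (k + 1) ≤ C * NK (k + 1) g

/-- (ShK) -/
def StmtShK : Prop := ∀ k : ℕ, 1 ≤ k → ∃ C, 0 < C ∧ ∀ (A : Finset ℤ) (g : ℂ → ℂ), CC g →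
  Integrable (fun x => (∑ a ∈ A, ‖iF (cut (sh a) g) x‖ ^ 2) ^ (k + 1)) ∧
  ∫ x, (∑ a ∈ A, ‖iF (cut (sh a) g) x‖ ^ 2) ^ (k + 1) ≤ C * NK (k + 1) g ∧
  ∑ a ∈ A, NK (k + 1) (cut (sh a) g) ≤ C * NK (k + 1) g

/-- (KKP) averages are bounded -/
def StmtKKP : Prop := ∀ (k : ℕ) (N : ℝ) (g : ℂ → ℂ), 0 < N → CC g →
  Integrable (fun x => (∫ y, KK N (x - y) * ‖iF g y‖ ^ 2) ^ (k + 1)) ∧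
  ∫ x, (∫ y, KK N (x - y) * ‖iF g y‖ ^ 2) ^ (k + 1) ≤ Real.pi ^ (k + 1) * NK (k + 1) g

/-! ### Group B: decoupling of the scales -/

/-- (AprK) a priori bound -/
def StmtAprK : Prop := ∀ k : ℕ, 1 ≤ k → ∃ (B : ℝ) (n₀ : ℕ), 1 ≤ B ∧ 1 ≤ n₀ ∧ ∀ n ≥ n₀, ∀ g,
  CC g → Z0 g → NK (k + 1) (mg n g) ≤ B * n ^ (2 * k) * NK (k + 1) g

/-- (Dec2) bilinear decay at `p = 4` -/
def StmtDec2 : Prop := ∃ (C : ℝ) (n₀ : ℕ), 0 < C ∧ 1 ≤ n₀ ∧ ∀ n ≥ n₀, ∀ g h, CC g → Z0 g →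
  CC h → Z0 h → ∀ (A : Finset ℤ) (a₀ : ℤ) (d : ℕ), (∀ a ∈ A, a₀ ≤ a - d) →
  ∑ a ∈ A, N22 (cut (sh a) (mg n g)) (cut (bd a₀ (a - d)) (mg n h)) ≤
    C * n ^ 2 * ((2 : ℝ) ^ (-(d : ℤ)) + 1 / n) * (Real.sqrt (N4 g) * Real.sqrt (N4 h))

/-- (RT) bilinear interpolation with values in a finite dimensional Hilbert space -/
def StmtRT : Prop := ∀ (I : Finset ℤ) (u v : ℤ → ℂ → ℂ) (p₀ p₁ p M₀ M₁ τ : ℝ),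
  (∀ a ∈ I, Continuous (u a) ∧ Integrable (u a) ∧ (∃ B, ∀ x, ‖u a x‖ ≤ B) ∧
    Continuous (v a) ∧ Integrable (v a) ∧ (∃ B, ∀ x, ‖v a x‖ ≤ B)) →
  4 ≤ p₀ → p₀ ≤ p₁ → 0 < M₀ → 0 < M₁ → 0 ≤ τ → τ ≤ 1 → 1 / p = (1 - τ) / p₀ + τ / p₁ →
  (∀ f h, CC f → CC h →
    ∫ x, (∑ a ∈ I, ‖∫ y, u a (x - y) * f y‖ ^ 2 * ‖∫ y, v a (x - y) * h y‖ ^ 2) ^ (p₀ / 4)
      ≤ M₀ ^ (p₀ / 2) * ((∫ x, ‖f x‖ ^ p₀) ^ (1 / 2 : ℝ) * (∫ x, ‖h x‖ ^ p₀) ^ (1 / 2 : ℝ))) →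
  (∀ f h, CC f → CC h →
    ∫ x, (∑ a ∈ I, ‖∫ y, u a (x - y) * f y‖ ^ 2 * ‖∫ y, v a (x - y) * h y‖ ^ 2) ^ (p₁ / 4)
      ≤ M₁ ^ (p₁ / 2) * ((∫ x, ‖f x‖ ^ p₁) ^ (1 / 2 : ℝ) * (∫ x, ‖h x‖ ^ p₁) ^ (1 / 2 : ℝ))) →
  ∀ f h, CC f → CC h →
    Integrable (fun x =>
      (∑ a ∈ I, ‖∫ y, u a (x - y) * f y‖ ^ 2 * ‖∫ y, v a (x - y) * h y‖ ^ 2) ^ (p / 4)) ∧
    ∫ x, (∑ a ∈ I, ‖∫ y, u a (x - y) * f y‖ ^ 2 * ‖∫ y, v a (x - y) * h y‖ ^ 2) ^ (p / 4)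
      ≤ (M₀ ^ (1 - τ) * M₁ ^ τ) ^ (p / 2) *
        ((∫ x, ‖f x‖ ^ p) ^ (1 / 2 : ℝ) * (∫ x, ‖h x‖ ^ p) ^ (1 / 2 : ℝ))

/-- forward Fourier transform -/
noncomputable def fF (f : ℂ → ℂ) (ζ : ℂ) : ℂ := ∫ x, ch (-x) ζ * f x

/-- (Dens) band-limited approximation and kernels -/
def StmtDens : Prop :=
  (∀ (f : ℂ → ℂ), CC f → Continuous (fF f) ∧ ∀ k : ℕ, 1 ≤ k →
    (∀ R : ℕ, CC (cut (bd (-(R : ℤ)) R) (fF f))) ∧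
    Tendsto (fun R : ℕ => NK (k + 1) (cut (bd (-(R : ℤ)) R) (fF f))) atTop
      (𝓝 (∫ x, ‖f x‖ ^ (2 * (k + 1))))) ∧
  (∀ (n : ℕ) (a b : ℤ), Continuous (iF (fun ζ => (bd a b ζ : ℂ) * mm n ζ)) ∧
    Integrable (iF (fun ζ => (bd a b ζ : ℂ) * mm n ζ)) ∧
    (∃ B, ∀ x, ‖iF (fun ζ => (bd a b ζ : ℂ) * mm n ζ) x‖ ≤ B) ∧
    (∀ f, CC f → ∀ x, iF (cut (bd a b) (mg n (fF f))) x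
      = ∫ y, iF (fun ζ => (bd a b ζ : ℂ) * mm n ζ) (x - y) * f y) ∧
    (∀ g, CC g → ∀ x, iF (cut (bd a b) (mg n g)) x
      = ∫ y, iF (fun ζ => (bd a b ζ : ℂ) * mm n ζ) (x - y) * iF g y))

/-- (QEnd) the endpoint bound for the pairs of scales -/
def StmtQEnd : Prop := ∀ k : ℕ, 1 ≤ k → ∃ (C : ℝ) (n₀ : ℕ), 0 < C ∧ 1 ≤ n₀ ∧ ∀ n ≥ n₀, ∀ g h,
  CC g → Z0 g → CC h → Z0 h → ∀ (A : Finset ℤ) (a₀ : ℤ) (d : ℕ),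
  ∫ x, (∑ a ∈ A, ‖iF (cut (sh a) (mg n g)) x‖ ^ 2 *
      ‖iF (cut (bd a₀ (a - d)) (mg n h)) x‖ ^ 2) ^ (((k : ℝ) + 1) / 2)
    ≤ C * n ^ (2 * k) * (Real.sqrt (NK (k + 1) g) * Real.sqrt (NK (k + 1) h))

/-- (QInt) decay of the pairs of scales in `L^{2 (k + 1)}` -/
def StmtQInt : Prop := ∀ k : ℕ, 1 ≤ k → ∃ (C c : ℝ) (n₀ : ℕ), 0 < C ∧ 0 < c ∧ 1 ≤ n₀ ∧
  ∀ n ≥ n₀, ∀ g, CC g → Z0 g → ∀ (A : Finset ℤ) (a₀ : ℤ) (d : ℕ), (∀ a ∈ A, a₀ ≤ a - d) →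
  Integrable (fun x => (∑ a ∈ A, ‖iF (cut (sh a) (mg n g)) x‖ ^ 2 *
      ‖iF (cut (bd a₀ (a - d)) (mg n g)) x‖ ^ 2) ^ (((k : ℝ) + 1) / 2)) ∧
  ∫ x, (∑ a ∈ A, ‖iF (cut (sh a) (mg n g)) x‖ ^ 2 *
      ‖iF (cut (bd a₀ (a - d)) (mg n g)) x‖ ^ 2) ^ (((k : ℝ) + 1) / 2)
    ≤ C * n ^ (2 * k) * ((2 : ℝ) ^ (-(d : ℤ)) + 1 / n) ^ c * NK (k + 1) g

/-- (Poly) first and second differences of `u ^ p conj u ^ q` -/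
def StmtPoly : Prop := ∀ p q : ℕ, ∃ C, 0 < C ∧ ∀ (u a b : ℂ) (Z : ℝ), ‖u‖ ≤ Z → ‖a‖ ≤ Z →
  ‖b‖ ≤ Z →
  ‖(u + a) ^ p * starRingEnd ℂ (u + a) ^ q - u ^ p * starRingEnd ℂ u ^ q‖
      ≤ C * ‖a‖ * Z ^ (p + q - 1) ∧
  (2 ≤ p + q → ‖((u + a + b) ^ p * starRingEnd ℂ (u + a + b) ^ q
      - (u + a) ^ p * starRingEnd ℂ (u + a) ^ q)
      - ((u + b) ^ p * starRingEnd ℂ (u + b) ^ q - u ^ p * starRingEnd ℂ u ^ q)‖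
      ≤ C * ‖a‖ * ‖b‖ * Z ^ (p + q - 2)) ∧
  (3 ≤ p + q → ‖(((u + a + b) ^ p * starRingEnd ℂ (u + a + b) ^ q
      - (u + a) ^ p * starRingEnd ℂ (u + a) ^ q)
      - ((u + b) ^ p * starRingEnd ℂ (u + b) ^ q - u ^ p * starRingEnd ℂ u ^ q))
      - (p * (b * ((u + a) ^ (p - 1) * starRingEnd ℂ (u + a) ^ q
          - u ^ (p - 1) * starRingEnd ℂ u ^ q))
        + q * (starRingEnd ℂ b * ((u + a) ^ p * starRingEnd ℂ (u + a) ^ (q - 1)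
          - u ^ p * starRingEnd ℂ u ^ (q - 1))))‖ ≤ C * ‖a‖ * ‖b‖ ^ 2 * Z ^ (p + q - 3))

/-- (TopK) -/
def StmtTopK : Prop := ∀ k : ℕ, 1 ≤ k → ∃ (C : ℝ) (c₀ : ℕ), 0 < C ∧ ∀ (a : ℤ) (d : ℕ)
  (G : ℂ → ℂ) (M : ℂ → ℝ), CC G → Dom G M → Integrable (fun x => M x ^ (k + 1)) →
  |DK k a d G| ≤ C * ∑ i ∈ Finset.Icc (a - c₀) a,
      ∫ x, ‖iF (cut (sh a) G) x‖ * ‖iF (cut (sh i) G) x‖ * M x ^ k ∧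
  (c₀ ≤ d → |DK k a d G| ≤ C * ∑ i ∈ Finset.Icc (a - c₀) a,
      ∫ x, ‖iF (cut (sh a) G) x‖ * ‖iF (cut (lo (a - d)) G) x‖ * ‖iF (cut (sh i) G) x‖ *
        Real.sqrt (M x) ^ (2 * k - 1))

/-- (AvgK) averaging over the position of the blocks -/
def StmtAvgK : Prop := ∀ k : ℕ, 1 ≤ k → ∃ (C c : ℝ) (n₀ : ℕ), 0 < C ∧ 0 < c ∧ 1 ≤ n₀ ∧
  ∀ n ≥ n₀, ∀ (R L : ℕ) (g : ℂ → ℂ), 1 ≤ L → CC g → Sup R g →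
  ∑ t ∈ Finset.range L, (NK (k + 1) (mg n g) - ∑ b ∈ Finset.Icc (-((R : ℤ) + 4)) (R + 4),
      NK (k + 1) (cut (bd (b * L - t) ((b + 1) * L - t)) (mg n g)))
    ≤ C * (1 + L * (1 / n : ℝ) ^ c) * n ^ (2 * k) * NK (k + 1) g

/-- (BdryK) the boundary of a block -/
def StmtBdryK : Prop := ∀ (k : ℕ) (ε : ℝ), 0 < ε → ∃ C : ℝ, 0 < C ∧ ∀ (m L : ℕ) (s : ℤ)
  (G : ℂ → ℂ), 2 * m < L → CC G →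
  NK (k + 1) (cut (bd s (s + L)) G) ≤ (1 + ε) * NK (k + 1) (cut (bd (s + m) (s + L - m)) G)
    + C * (m : ℝ) ^ (2 * k + 1) * ∑ i ∈ Finset.range m,
        (NK (k + 1) (cut (sh (s + i)) G) + NK (k + 1) (cut (sh (s + L - 1 - i)) G))

/-! ### Group C: the sharp inequality for one focus -/

/-- (HLPK) the sharp Hardy-Littlewood-Paley inequality for even exponents -/
def StmtHLPK : Prop := ∀ k : ℕ, 1 ≤ k → ∀ h : ℂ → ℂ, Integrable h →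
  ∫⁻ x, ‖iF h x‖ₑ ^ (2 * k + 2) ≤
    ENNReal.ofReal (CH k) * ∫⁻ ξ, ‖h ξ‖ₑ ^ (2 * k + 2) * ‖ξ‖ₑ ^ (4 * k)

/-- (CV) calculus of multiple convolutions -/
def StmtCV : Prop := ∀ (k : ℕ),
  (∀ u : ℕ → ℂ → ℂ, (∀ j ≤ k, CC (u j)) → CC (cv k u) ∧
    (∀ x, iF (cv k u) x = ∏ j ∈ Finset.range (k + 1), iF (u j) x) ∧
    ∫ θ, ‖cv k u θ‖ ^ 2 = ∫ x, ∏ j ∈ Finset.range (k + 1), ‖iF (u j) x‖ ^ 2) ∧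
  (∀ (u v : ℕ → ℂ → ℂ) (c d θ : ℂ),
    (∀ ζ : ℕ → ℂ, ∑ j ∈ Finset.range (k + 1), ζ j = θ →
      c * ∏ j ∈ Finset.range (k + 1), u j (ζ j) = d * ∏ j ∈ Finset.range (k + 1), v j (ζ j)) →
    c * cv k u θ = d * cv k v θ) ∧
  (∀ (u : ℕ → ℂ → ℂ) (θ : ℂ), cv k u θ ≠ 0 → ∃ ζ : ℕ → ℂ,
    ∑ j ∈ Finset.range (k + 1), ζ j = θ ∧ ∀ j ≤ k, u j (ζ j) ≠ 0) ∧
  (∀ u v : ℕ → ℂ → ℂ, (∀ j ≤ k, CC (u j)) → (∀ j ≤ k, CC (v j)) → ∀ θ,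
    cv k u θ - cv k v θ = ∑ j ∈ Finset.range (k + 1),
      cv k (fun i ζ => if i < j then v i ζ else if i = j then u i ζ - v i ζ else u i ζ) θ) ∧
  (∀ (u v w : ℕ → ℂ → ℂ) (j : ℕ), j ≤ k → (∀ i ≤ k, CC (u i)) → (∀ i ≤ k, CC (v i)) →
    (∀ i, i ≠ j → v i = u i) → (∀ i, i ≠ j → w i = u i) → (∀ ζ, w j ζ = u j ζ + v j ζ) → ∀ θ,
    cv k w θ = cv k u θ + cv k v θ) ∧
  (∀ u : ℕ → ℂ → ℂ, (∀ j ≤ k, CC (u j)) → ∀ θ,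
    ‖cv k u θ‖ ≤ ‖cv k (fun j ζ => ((‖u j ζ‖ : ℝ) : ℂ)) θ‖)

/-- (CV2) regularity in `θ` of the multilinear forms and relation with Gaussians -/
def StmtCV2 : Prop := ∀ (k : ℕ),
  (∀ (σ : ℝ) (ξ : ℂ) (g : ℕ → ℂ → ℂ) (θ : ℂ),
    cv k (fun j => gs σ ξ (g j)) θ =
      (Real.exp (-(Real.pi * σ ^ 2 * (k + 1) * ‖θ / (k + 1) - ξ‖ ^ 2)) : ℂ) * AK k σ g θ) ∧
  (∀ (σ : ℝ) (g : ℕ → ℂ → ℂ), (∀ j ≤ k, CC (g j)) → CC (AK k σ g)) ∧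
  (∀ (g : ℕ → ℂ → ℂ) (a : ℕ → ℂ × ℂ → ℂ), (∀ j ≤ k, CC (g j)) →
    (∀ j ≤ k, Continuous (a j)) →
    Continuous (fun z : ℂ × ℂ => cv k (fun j ζ => a j (z.2, ζ - z.1 / (k + 1)) * g j ζ) z.1))

/-- (PSK) phase space identity -/
def StmtPSK : Prop := ∀ (k : ℕ) (σ : ℝ) (g : ℕ → ℂ → ℂ) (ξ : ℂ), (∀ j ≤ k, CC (g j)) →
  ∫ z, ∏ j ∈ Finset.range (k + 1), ‖iF (gs σ ξ (g j)) z‖ ^ 2 = ∫ θ, wk k σ ξ θ * ‖AK k σ g θ‖ ^ 2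

/-- (SynK) windowed form of the sharp inequality -/
def StmtSynK : Prop := ∀ (k : ℕ) (ε : ℝ), 1 ≤ k → 0 < ε → ∃ C, 0 ≤ C ∧ ∀ (r : ℝ) (g : ℂ → ℂ),
  0 < r → CC g → NK (k + 1) g ≤ CH k *
    ∫ θ, ((1 + ε) * (r * ‖θ‖ / (k + 1)) ^ (4 * k) + C) * ‖AK k r (fun _ => g) θ‖ ^ 2

/-- (HoldK) -/
def StmtHoldK : Prop := ∀ (k : ℕ) (σ : ℝ) (g : ℂ → ℂ) (y : ℕ → ℂ) (ξ : ℂ), CC g →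
  ∫ θ, wk k σ ξ θ * ‖AK k σ (fun j ζ => ch (y j) ζ * g ζ) θ‖ ^ 2
    ≤ ∫ θ, wk k σ ξ θ * ‖AK k σ (fun _ => g) θ‖ ^ 2

/-- (CGK) chirped Gaussians on the hyperplane `∑ δ_j = 0` as superpositions of characters -/
def StmtCGK : Prop := ∀ (k : ℕ) (a β : ℝ) (u : ℂ), 0 < a → ‖u‖ = 1 →
  ∃ (K : (Fin k → ℂ) → ℂ) (O : ℕ → Fin k → ℝ), Integrable K ∧
  ∫ v, ‖K v‖ = Real.sqrt (1 + β ^ 2 / a ^ 2) ^ k ∧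
  ∀ δ : ℕ → ℂ, ∑ j ∈ Finset.range (k + 1), δ j = 0 →
    ∏ j ∈ Finset.range (k + 1), Complex.exp ((-(a * ‖δ j‖ ^ 2) : ℝ)
        + Complex.I * (β * (δ j ^ 2 * u ^ 2).im : ℝ))
      = ∫ v, K v * ∏ j ∈ Finset.range (k + 1), ch (∑ i, (O j i : ℂ) * v i) (δ j)

/-- (ChirpK) -/
def StmtChirpK : Prop := ∀ (k : ℕ) (σ r β : ℝ) (u ξ : ℂ) (g : ℂ → ℂ), 0 < σ → σ < r → ‖u‖ = 1 →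
  CC g →
  ∫ θ, wk k σ ξ θ * ‖MF k (fun _ δ => Complex.exp ((-(Real.pi * r ^ 2 * ‖δ‖ ^ 2) : ℝ)
        + Complex.I * (β * (δ ^ 2 * u ^ 2).im : ℝ))) (fun _ => g) θ‖ ^ 2
    ≤ (1 + β ^ 2 / (Real.pi * (r ^ 2 - σ ^ 2)) ^ 2) ^ k *
      ∫ θ, wk k σ ξ θ * ‖AK k σ (fun _ => g) θ‖ ^ 2

/-- (EIK) the multiscale energy inequality -/
def StmtEIK : Prop := ∀ (k J : ℕ) (K σ : ℕ → ℝ) (g : ℂ → ℂ), 1 ≤ k → CC g →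
  (∀ j, 0 < K j) → (∀ j, 0 < σ j) → (∀ j, K j ≤ K (j + 1)) → (∀ j, σ (j + 1) ≤ σ j) →
  (∀ j, (k : ℝ) + 1 < (K j * σ j) ^ 2) →
  (∀ j, ∫ θ, ‖AK k (σ j) (fun _ => g) θ‖ ^ 2 ≤ NK (k + 1) g) ∧
  ∑ j ∈ Finset.range J, ∫ θ, (Real.exp (-(Real.pi * ‖θ‖ ^ 2 / K (j + 1) ^ 2))
      - Real.exp (-(Real.pi * ‖θ‖ ^ 2 / K j ^ 2))) * ‖AK k (σ j) (fun _ => g) θ‖ ^ 2
    ≤ NK (k + 1) g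

/-- (EIJK) -/
def StmtEIJK : Prop := ∀ (k : ℕ) (ε : ℝ), 1 ≤ k → 0 < ε → ∃ m₀ : ℕ, ∀ m ≥ m₀, ∀ L : ℕ,
  2 * m < L → ∀ Q : ℝ, 1 ≤ Q → ∃ n₀ : ℕ, ∀ n ≥ n₀, ∀ g, CC g → ∀ (c : ℤ) (Bs : Finset ℤ),
  ∑ b ∈ Bs, ∫ θ in JK k (c + b * L) L m,
    ‖AK k (win n Q (c + b * L) L) (fun _ => g) θ‖ ^ 2 ≤ (1 + ε) * NK (k + 1) g

/-! ### Group D: blocks -/

/-- (MPt) the pointwise multilinear estimate -/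
def StmtMPt : Prop := ∀ (k : ℕ) (N : ℝ) (g : ℕ → ℂ → ℂ), 0 < N → (∀ j ≤ k, CC (g j)) →
  ∃ Om : ℂ → ℝ, (∀ θ, 0 ≤ Om θ) ∧ Integrable Om ∧
    ∫ θ, Om θ ≤ N ^ (2 * (k + 1)) * ∫ x, ∏ j ∈ Finset.range (k + 1),
      ∫ y, KK N (x - y) * ‖iF (g j) y‖ ^ 2 ∧
    ∀ (θ : ℂ) (a : ℕ → ℂ → ℂ), (∀ j ≤ k, ContDiff ℝ 2 (a j) ∧ HasCompactSupport (a j)) →
      ‖MF k a g θ‖ ^ 2 ≤ (∏ j ∈ Finset.range (k + 1),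
        ∫ δ, ‖a j δ - lap (a j) δ / (4 * Real.pi ^ 2 * N ^ 2 : ℝ)‖ ^ 2) * Om θ

/-- (GTK) Gaussian averages of separated frequencies -/
def StmtGTK : Prop := ∀ k : ℕ, ∃ C c, 0 < C ∧ 0 < c ∧ ∀ (σ : ℝ) (g : ℕ → ℂ → ℂ), 0 < σ →
  (∀ j ≤ k, CC (g j)) → ∃ Om : ℂ → ℝ, (∀ θ, 0 ≤ Om θ) ∧ Integrable Om ∧
    ∫ θ, Om θ ≤ C * ∫ x, ∏ j ∈ Finset.range (k + 1), ∫ y, KK σ (x - y) * ‖iF (g j) y‖ ^ 2 ∧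
    ∀ (θ : ℂ) (ρ : ℝ) (j₀ : ℕ), j₀ ≤ k → 1 ≤ σ * ρ →
      (∀ δ, g j₀ (θ / (k + 1) + δ) ≠ 0 → ρ ≤ ‖δ‖) →
      ‖AK k σ g θ‖ ^ 2 ≤ Real.exp (-(c * (σ ^ 2 * ρ ^ 2))) * Om θ

/-- (OneSh) one factor in a shell, the others dominated -/
def StmtOneSh : Prop := ∀ k : ℕ, 1 ≤ k → ∃ C c, 0 < C ∧ 0 < c ∧ ∀ (σ : ℝ) (g : ℂ → ℂ)
  (M : ℂ → ℝ) (i : ℤ) (u : ℕ → ℂ → ℂ) (j₁ : ℕ), 0 < σ → 1 ≤ σ * (2 : ℝ) ^ i → CC g → Dom g M →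
  Integrable (fun x => M x ^ (k + 1)) → j₁ ≤ k → u j₁ = cut (sh i) g →
  (∀ j ≤ k, j ≠ j₁ → u j = g ∨ (∃ a, u j = cut (lo a) g) ∨ (∃ a b, u j = cut (bd a b) g)) →
  ∀ (ρ : ℝ) (j₀ : ℕ) (S : Set ℂ), MeasurableSet S → j₀ ≤ k → 1 ≤ σ * ρ →
  (∀ θ ∈ S, ∀ δ, u j₀ (θ / (k + 1) + δ) ≠ 0 → ρ ≤ ‖δ‖) →
  ∫ θ in S, ‖AK k σ u θ‖ ^ 2 ≤
    C * Real.exp (-(c * (σ ^ 2 * ρ ^ 2))) * (σ * (2 : ℝ) ^ i) ^ 2 * ∫ x, qa i g x * M x ^ k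

/-- (TailHK) -/
def StmtTailHK : Prop := ∀ (k : ℕ) (Q : ℝ) (L m : ℕ) (ε : ℝ), 1 ≤ k → 1 ≤ Q →
  16 * (k + 1) ≤ 2 ^ m → 2 * m < L → 0 < ε →
  ∃ n₀ : ℕ, ∀ n ≥ n₀, ∀ g, CC g → ∀ (c : ℤ) (Bs : Finset ℤ),
  ∑ b ∈ Bs, ∫ θ in JK k (c + b * L) L m, ‖AK k (win n Q (c + b * L) L) (fun _ => g) θ
      - AK k (win n Q (c + b * L) L) (fun _ => cut (lo (c + b * L + L)) g) θ‖ ^ 2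
    ≤ ε * NK (k + 1) g

/-- (TailLK) -/
def StmtTailLK : Prop := ∀ (k : ℕ) (Q : ℝ) (L m : ℕ) (ε : ℝ), 1 ≤ k → 1 ≤ Q →
  16 * (k + 1) ≤ 2 ^ m → 2 * m < L → 0 < ε →
  ∃ n₀ : ℕ, ∀ n ≥ n₀, ∀ g, CC g → ∀ (c : ℤ) (Bs : Finset ℤ),
  ∑ b ∈ Bs, ∫ θ in JK k (c + b * L) L m,
      ‖AK k (win n Q (c + b * L) L) (fun _ => cut (lo (c + b * L + L)) g) θ
      - AK k (win n Q (c + b * L) L) (fun _ => cut (bd (c + b * L) (c + b * L + L)) g) θ‖ ^ 2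
    ≤ ε * NK (k + 1) g

/-- (TailK) only the frequencies of the block matter -/
def StmtTailK : Prop := ∀ (k : ℕ) (Q : ℝ) (L m : ℕ) (ε : ℝ), 1 ≤ k → 1 ≤ Q →
  16 * (k + 1) ≤ 2 ^ m → 2 * m < L → 0 < ε →
  ∃ n₀ : ℕ, ∀ n ≥ n₀, ∀ g, CC g → ∀ (c : ℤ) (Bs : Finset ℤ),
  ∑ b ∈ Bs, ∫ θ in JK k (c + b * L) L m, ‖AK k (win n Q (c + b * L) L) (fun _ => g) θ
      - AK k (win n Q (c + b * L) L) (fun _ => cut (bd (c + b * L) (c + b * L + L)) g) θ‖ ^ 2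
    ≤ ε * NK (k + 1) g

/-- (ErrK) the one-variable symbols -/
def StmtErrK : Prop := ∀ (k : ℕ) (M : ℝ) (L m : ℕ), 1 ≤ k → 1 ≤ M → 16 * (k + 1) ≤ 2 ^ m →
  2 * m < L → ∃ C, 0 < C ∧ ∀ ε : ℝ, 0 < ε →
  ∃ (η : ℝ) (n₀ : ℕ), 0 < η ∧ η < 1 ∧ η ≤ ε ∧ 1 ≤ n₀ ∧ ∀ n ≥ n₀, ∀ (s : ℤ) (θ q : ℂ),
  θ ∈ JK k s L m → ‖q - θ‖ ≤ η * (2 : ℝ) ^ s →
  SyB (win n M s L) C (smK k n (win n M s L) s L m θ) ∧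
  SyB (win n M s L) C (scK k n (win n M s L) s L m θ q) ∧
  SyB (win n M s L) ε (fun δ => smK k n (win n M s L) s L m θ δ
    - scK k n (win n M s L) s L m θ q δ)

/-- (ErrLK) -/
def StmtErrLK : Prop := ∀ (k : ℕ) (M : ℝ) (L m : ℕ) (ε : ℝ), 1 ≤ k → 1 ≤ M →
  16 * (k + 1) ≤ 2 ^ m → 2 * m < L → 0 < ε →
  ∃ n₀ : ℕ, 1 ≤ n₀ ∧ ∀ n ≥ n₀, ∀ (s : ℤ) (θ : ℂ), ‖θ‖ < (2 : ℝ) ^ (s + m) →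
  SyB (win n M s L) ε (slK k n (win n M s L) s L m θ)

/-- (Blk1K) pointwise comparison with the chirped Gaussian -/
def StmtBlk1K : Prop := ∀ (k : ℕ) (M : ℝ) (L m : ℕ) (ε : ℝ), 1 ≤ k → 1 ≤ M →
  16 * (k + 1) ≤ 2 ^ m → 2 * m < L → 0 < ε →
  ∃ (η : ℝ) (n₀ : ℕ), 0 < η ∧ η < 1 ∧ η ≤ ε ∧ 1 ≤ n₀ ∧ ∀ n ≥ n₀, ∀ (s : ℤ) (g : ℂ → ℂ), CC g →
  ∃ E : ℂ → ℝ, (∀ θ, 0 ≤ E θ) ∧ Integrable E ∧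
    ∫ θ, E θ ≤ ε * NK (k + 1) (cut (bd s (s + L)) g) ∧
  (∀ θ ∈ JK k s L m, ∀ q : ℂ, ‖q - θ‖ ≤ η * (2 : ℝ) ^ s →
    ‖AK k (win n M s L) (fun _ => cut (bd (s + m) (s + L - m)) (mg n g)) θ‖ ^ 2 ≤
      (1 + ε) * (bd (s + m) (s + L - m) (q / (k + 1)) ^ (2 * (k + 1)) *
        ‖MF k (fun _ => csK k n (win n M s L) q) (fun _ => cut (bd s (s + L)) g) θ‖ ^ 2) + E θ) ∧
  (∀ θ, ‖θ‖ < (2 : ℝ) ^ (s + m) →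
    ‖AK k (win n M s L) (fun _ => cut (bd (s + m) (s + L - m)) (mg n g)) θ‖ ^ 2 ≤ E θ) ∧
  (∀ θ, (k + 1) * (2 : ℝ) ^ (s + L - m + 1) < ‖θ‖ →
    AK k (win n M s L) (fun _ => cut (bd (s + m) (s + L - m)) (mg n g)) θ = 0)

/-- (BlkAvgK) average over discs -/
def StmtBlkAvgK : Prop := ∀ (k : ℕ) (ε C₁ : ℝ), 1 ≤ k → 0 < ε → 0 ≤ C₁ → ∃ (M M₂ : ℝ), 1 ≤ M ∧
  1 < M₂ ∧ ∀ (m L : ℕ), 16 * (k + 1) ≤ 2 ^ m → 2 * m < L → ∀ (η ε₂ : ℝ), 0 < η → η < 1 →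
  0 < ε₂ → ∃ n₀ : ℕ, 1 ≤ n₀ ∧ ∀ n ≥ n₀, ∀ (s : ℤ) (g : ℂ → ℂ), CC g →
  IntegrableOn (fun z : ℂ × ℂ => bd (s + m) (s + L - m) (z.2 / (k + 1)) ^ (2 * (k + 1)) *
      ((win n M s L * ‖z.2‖ / (k + 1)) ^ (4 * k) + C₁) *
      ‖MF k (fun _ => csK k n (win n M s L) z.2) (fun _ => g) z.1‖ ^ 2)
    {z | z.1 ∈ JK k s L m ∧ ‖z.2 - z.1‖ ≤ η * (2 : ℝ) ^ s} ∧
  (∫ z in {z : ℂ × ℂ | z.1 ∈ JK k s L m ∧ ‖z.2 - z.1‖ ≤ η * (2 : ℝ) ^ s},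
      bd (s + m) (s + L - m) (z.2 / (k + 1)) ^ (2 * (k + 1)) *
      ((win n M s L * ‖z.2‖ / (k + 1)) ^ (4 * k) + C₁) *
      ‖MF k (fun _ => csK k n (win n M s L) z.2) (fun _ => g) z.1‖ ^ 2)
        / (Real.pi * (η * (2 : ℝ) ^ s) ^ 2)
    ≤ (1 + ε) * (n / Real.pi) ^ (2 * k) *
        (∫ θ in JK k s L m, ‖AK k (win n (M * M₂) s L) (fun _ => g) θ‖ ^ 2)
      + ε₂ * n ^ (2 * k) * NK (k + 1) g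

/-- (BlockK) the sharp inequality for one block -/
def StmtBlockK : Prop := ∀ (k : ℕ) (ε : ℝ), 1 ≤ k → 0 < ε → ∃ (Q : ℝ) (m₀ : ℕ), 1 ≤ Q ∧
  16 * (k + 1) ≤ 2 ^ m₀ ∧ ∀ m ≥ m₀, ∀ L : ℕ, 2 * m < L → ∀ ε₂ : ℝ, 0 < ε₂ → ∃ n₀ : ℕ,
  1 ≤ n₀ ∧ ∀ n ≥ n₀, ∀ (s : ℤ) (g : ℂ → ℂ), CC g →
  NK (k + 1) (cut (bd (s + m) (s + L - m)) (mg n g)) ≤
    (1 + ε) * gamK k ^ (2 * k + 2) * n ^ (2 * k) *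
      (∫ θ in JK k s L m, ‖AK k (win n Q s L) (fun _ => cut (bd s (s + L)) g) θ‖ ^ 2)
    + ε₂ * n ^ (2 * k) * NK (k + 1) (cut (bd s (s + L)) g)

/-! ### Group E: conclusion -/

/-- (MainK) -/
def StmtMainK : Prop := ∀ (k : ℕ) (ε : ℝ), 1 ≤ k → 0 < ε → ∃ n₀ : ℕ, ∀ n ≥ n₀, ∀ g, CC g →
  Z0 g → NK (k + 1) (mg n g) ≤ (1 + ε) * gamK k ^ (2 * k + 2) * n ^ (2 * k) * NK (k + 1) g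

/-- (RatioK) -/
def StmtRatioK : Prop := ∀ k : ℕ, 1 ≤ k →
  Tendsto (fun n : ℕ => ratio n (2 * (k + 1)) ^ (2 * k + 2) / (n : ℝ) ^ (2 * k)) atTop
    (𝓝 (gamK k ^ (2 * k + 2)))

/-- (FinalK) -/
def StmtFinalK : Prop := ∀ (k : ℕ) (ε : ℝ), 1 ≤ k → 0 < ε → ∃ n₀ : ℕ, ∀ n ≥ n₀,
  ∀ f : 𝓢(ℂ, ℂ), eLpNorm (Tn n f) (ENNReal.ofReal (2 * (k + 1))) volume ≤
    ENNReal.ofReal ((1 + ε) * ratio n (2 * (k + 1))) *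
      eLpNorm f (ENNReal.ofReal (2 * (k + 1))) volume

/-- (FinalE) all even exponents at once -/
def StmtFinalE : Prop := ∀ ε : ℝ, 0 < ε → ∃ n₀ : ℕ, ∀ n ≥ n₀, ∀ k : ℕ, 1 ≤ k →
  ∀ f : 𝓢(ℂ, ℂ), eLpNorm (Tn n f) (ENNReal.ofReal (2 * k)) volume ≤
    ENNReal.ofReal ((1 + ε) * ratio n (2 * k)) * eLpNorm f (ENNReal.ofReal (2 * k)) volume

end Pool.Agent.Lib.MP_dd244f_an.Even
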