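import Pool.Agent.Lib.MP_dd244f_an.Four.Apr
import Pool.Agent.Lib.MP_dd244f_an.Even.Stmts

/-!
Full operator, even `p = 2 (k + 1)`: the a priori bound.
-/

set_option autoImplicit false

namespace Pool.Agent.Lib.MP_dd244f_an.Even

open MeasureTheory Filter Topology FourierTransform Metric
open scoped SchwartzMap ContDiff ENNReal NNReal
open Pool.Agent.Lib.MP_dd244f_an.Joint (ratio)
open Pool.Agent.Lib.MP_dd244f_an.Four

namespace AprKm

/-- the bound for smooth functions -/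
theorem apr_smooth {n : ℕ} {C p : ℝ≥0∞} (h : ∀ f : 𝓢(ℂ, ℂ), eLpNorm (Tn n f) p volume ≤
    C * eLpNorm f p volume) {G : ℂ → ℂ} (hG : CC G) (hGs : ContDiff ℝ ∞ G) :
    eLpNorm (iF (mg n G)) p volume ≤ C * eLpNorm (iF G) p volume := by
  set S : 𝓢(ℂ, ℂ) := hG.2.toSchwartzMap hGs with hS
  have hSG : (S : ℂ → ℂ) = G := rfl
  have h1 := h (𝓕⁻ S)
  have e1 : ((𝓕⁻ S : 𝓢(ℂ, ℂ)) : ℂ → ℂ) = iF G := by
    ext x
    rw [SchwartzMap.fourierInv_coe, hSG, iF_eq_inv]
  have e2 : Tn n ((𝓕⁻ S : 𝓢(ℂ, ℂ)) : ℂ → ℂ) = iF (mg n G) := by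
    have e3 : (fun ξ : ℂ => (starRingEnd ℂ ξ / ξ) ^ n * 𝓕 ((𝓕⁻ S : 𝓢(ℂ, ℂ)) : ℂ → ℂ) ξ)
        = mg n G := by
      funext ξ
      rw [← SchwartzMap.fourier_coe]
      simp only [FourierTransform.fourier_fourierInv_eq]
      rfl
    ext x
    rw [Tn_eq, iF_eq_inv, e3]
  rw [e2, e1] at h1
  exact h1

theorem apr_cc {n : ℕ} {C p : ℝ≥0∞} (h : ∀ f : 𝓢(ℂ, ℂ), eLpNorm (Tn n f) p volume ≤
    C * eLpNorm f p volume) {g : ℂ → ℂ} (hg : CC g) :
    eLpNorm (iF (mg n g)) p volume ≤ C * eLpNorm (iF g) p volume := by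
  have hb : ∀ j, eLpNorm (iF (mg n (moll j g))) p volume ≤ C * eLpNorm (iF g) p volume := by
    intro j
    refine (apr_smooth h (moll_cc j hg) (moll_contDiff j hg)).trans ?_
    gcongr
    exact eLpNorm_mono fun x => norm_iF_moll_le j hg x
  have hmeas : ∀ j, AEStronglyMeasurable (iF (mg n (moll j g))) volume := by
    intro j
    refine (iF_continuous ?_).aestronglyMeasurable
    exact (moll_cc j hg).integrable.bdd_mul (mm_measurable n).aestronglyMeasurable (c := 1)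
      (Eventually.of_forall (norm_mm_le n))
  refine (Lp.eLpNorm_lim_le_liminf_eLpNorm hmeas _
    (Eventually.of_forall (tendsto_iF_mg_moll n hg))).trans ?_
  refine (liminf_le_liminf (Eventually.of_forall hb)).trans ?_
  simp

theorem iF_pow_integrable {g : ℂ → ℂ} (hg : CC g) (k : ℕ) :
    Integrable (fun x => ‖iF g x‖ ^ (2 * (k + 1))) := by
  set B := ∫ ζ, ‖g ζ‖ with hB
  refine ((iF_sq_integrable hg).const_mul (B ^ (2 * k))).mono' ?_ ?_
  · exact ((iF_continuous hg.integrable).norm.pow _).aestronglyMeasurable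
  · refine Eventually.of_forall fun x => ?_
    rw [Real.norm_of_nonneg (by positivity)]
    have h1 := norm_iF_le g x
    have h2 : ‖iF g x‖ ^ (2 * k) ≤ B ^ (2 * k) := pow_le_pow_left₀ (norm_nonneg _) h1 _
    rw [mul_add, pow_add, mul_one]
    gcongr

theorem nk_eq {g : ℂ → ℂ} (hg : CC g) (k : ℕ) : ENNReal.ofReal (NK (k + 1) g)
    = eLpNorm (iF g) (ENNReal.ofReal (2 * ((k : ℝ) + 1))) volume ^ (2 * k + 2) := by
  have hE : ENNReal.ofReal (2 * ((k : ℝ) + 1)) = ((2 * (k + 1) : ℕ) : ℝ≥0) := by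
    rw [show (2 : ℝ) * ((k : ℝ) + 1) = ((2 * (k + 1) : ℕ) : ℝ) by push_cast; ring,
      ENNReal.ofReal_natCast]
    simp
  have h1 := eLpNorm_nnreal_pow_eq_lintegral (f := iF g) (μ := (volume : Measure ℂ))
    (p := ((2 * (k + 1) : ℕ) : ℝ≥0)) (by positivity)
  have e2 : (((2 * (k + 1) : ℕ) : ℝ≥0) : ℝ) = ((2 * k + 2 : ℕ) : ℝ) := by
    push_cast; ring
  rw [e2, ENNReal.rpow_natCast] at h1
  rw [hE, h1]
  unfold NK
  rw [ofReal_integral_eq_lintegral_ofReal (iF_pow_integrable hg k)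
    (Eventually.of_forall fun x => by positivity)]
  congr 1
  ext x
  rw [ENNReal.rpow_natCast, ENNReal.ofReal_pow (norm_nonneg _), ofReal_norm]
  congr 1

theorem nk_nonneg (K : ℕ) (g : ℂ → ℂ) : 0 ≤ NK K g := integral_nonneg fun _ => by positivity

end AprKm

open AprKm in
/-- the a priori bound -/
theorem aprK (hR : StmtRatioK) (hF : Four.StmtFac) : StmtAprK := by
  intro k hk
  obtain ⟨n₀, hn₀⟩ := Joint.all_final2
  have hgam : ∀ᶠ n : ℕ in atTop, ratio n (2 * (k + 1)) ^ (2 * k + 2) / (n : ℝ) ^ (2 * k)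
      ≤ gamK k ^ (2 * k + 2) + 1 :=
    (hR k hk).eventually_le_const (by linarith)
  obtain ⟨n₁, hn₁⟩ := eventually_atTop.1 hgam
  refine ⟨max 1 ((6 / 5 : ℝ) ^ (2 * k + 2) * (gamK k ^ (2 * k + 2) + 1)), max (max n₀ n₁) 1,
    le_max_left _ _, le_max_right _ _, fun n hn g hg hg0 => ?_⟩
  have hn0 : n₀ ≤ n := (le_max_left _ _).trans ((le_max_left _ _).trans hn)
  have hn1 : n₁ ≤ n := (le_max_right _ _).trans ((le_max_left _ _).trans hn)
  have hn2 : 1 ≤ n := (le_max_right _ _).trans hn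
  have hnpos : (0 : ℝ) < n := by exact_mod_cast hn2
  have hev : ∀ x : ℝ, 0 ≤ x ^ (2 * k + 2) := fun x => by
    rw [show 2 * k + 2 = 2 * (k + 1) by ring, pow_mul]
    positivity
  have hr : ratio n (2 * (k + 1)) ^ (2 * k + 2)
      ≤ (gamK k ^ (2 * k + 2) + 1) * (n : ℝ) ^ (2 * k) := by
    have h1 := hn₁ n hn1
    rwa [div_le_iff₀ (by positivity)] at h1
  have hk0 : (2 : ℝ) ≤ 2 * (k + 1) := by
    have : (0 : ℝ) ≤ k := Nat.cast_nonneg k
    linarith
  have h4 : ∀ f : 𝓢(ℂ, ℂ), eLpNorm (Tn n f) (ENNReal.ofReal (2 * (k + 1))) volume ≤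
      ENNReal.ofReal (6 / 5 * ratio n (2 * (k + 1))) *
        eLpNorm f (ENNReal.ofReal (2 * (k + 1))) volume :=
    fun f => hn₀ n hn0 _ hk0 f
  have hmg : CC (mg n g) := (hF.2.2.2.2.2.1 g n hn2 hg hg0).1
  have h5 := apr_cc h4 hg
  have hN0 : 0 ≤ NK (k + 1) g := nk_nonneg _ g
  have h6 : ENNReal.ofReal (NK (k + 1) (mg n g)) ≤ ENNReal.ofReal
      ((6 / 5 : ℝ) ^ (2 * k + 2) * (gamK k ^ (2 * k + 2) + 1) * n ^ (2 * k) * NK (k + 1) g) := by
    rw [nk_eq hmg, ENNReal.ofReal_mul (mul_nonneg (mul_nonneg (by positivity)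
      (by linarith [hev (gamK k)])) (by positivity)), nk_eq hg]
    calc eLpNorm (iF (mg n g)) (ENNReal.ofReal (2 * (k + 1))) volume ^ (2 * k + 2)
        ≤ (ENNReal.ofReal (6 / 5 * ratio n (2 * (k + 1))) *
            eLpNorm (iF g) (ENNReal.ofReal (2 * (k + 1))) volume) ^ (2 * k + 2) := by gcongr
      _ ≤ _ := by
          rw [mul_pow]
          gcongr
          have h7 : ENNReal.ofReal (6 / 5 * ratio n (2 * (k + 1))) ^ (2 * k + 2)
              ≤ ENNReal.ofReal ((6 / 5 * ratio n (2 * (k + 1))) ^ (2 * k + 2)) := by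
            rcases le_or_gt 0 (6 / 5 * ratio n (2 * (k + 1))) with h8 | h8
            · rw [ENNReal.ofReal_pow h8]
            · rw [ENNReal.ofReal_of_nonpos h8.le, zero_pow (by omega)]
              exact bot_le
          refine h7.trans (ENNReal.ofReal_le_ofReal ?_)
          rw [mul_pow, mul_assoc]
          gcongr
  have h7 := (ENNReal.ofReal_le_ofReal_iff (mul_nonneg (mul_nonneg (mul_nonneg (by positivity)
      (by linarith [hev (gamK k)])) (by positivity)) hN0)).1 h6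
  refine h7.trans ?_
  gcongr
  exact le_max_right _ _

end Pool.Agent.Lib.MP_dd244f_an.Even
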