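import Pool.Agent.Lib.MP_dd244f_an.Even.Stmts
import Pool.Agent.Lib.MP_dd244f_an.Four.Avg

/-!
Full operator, even `p`: averaging over the position of the blocks.
-/

set_option autoImplicit false

namespace Pool.Agent.Lib.MP_dd244f_an.Even

open MeasureTheory Filter Topology Finset
open Pool.Agent.Lib.MP_dd244f_an.Four

namespace AvgX

lemma nk_nonneg (K : ℕ) (g : ℂ → ℂ) : 0 ≤ NK K g := integral_nonneg fun _ => by positivity

lemma nk_zero (k : ℕ) : NK (k + 1) (fun _ => 0) = 0 := by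
  unfold NK iF
  simp

lemma nk_bd_self (k : ℕ) (s : ℤ) (G : ℂ → ℂ) : NK (k + 1) (cut (bd s s) G) = 0 := by
  have : cut (bd s s) G = fun _ => 0 := by
    ext ζ
    simp [cut, bd_self]
  rw [this, nk_zero]

lemma sum_DK (k : ℕ) (s : ℤ) (L : ℕ) (G : ℂ → ℂ) :
    ∑ j ∈ Finset.range L, DK k (s + j) j G =
      NK (k + 1) (cut (lo (s + L)) G) - NK (k + 1) (cut (lo s) G)
        - NK (k + 1) (cut (bd s (s + L)) G) := by
  have h1 := Finset.sum_range_sub (fun j : ℕ => NK (k + 1) (cut (lo (s + j)) G)) L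
  have h2 := Finset.sum_range_sub (fun j : ℕ => NK (k + 1) (cut (bd s (s + j)) G)) L
  have h3 : ∀ j : ℕ, DK k (s + j) j G =
      (NK (k + 1) (cut (lo (s + ((j + 1 : ℕ) : ℤ))) G) - NK (k + 1) (cut (lo (s + j)) G)) -
        (NK (k + 1) (cut (bd s (s + ((j + 1 : ℕ) : ℤ))) G)
          - NK (k + 1) (cut (bd s (s + j)) G)) := by
    intro j
    unfold DK
    have e1 : s + (j : ℤ) - (j : ℤ) = s := by ring
    have e2 : s + (j : ℤ) + 1 = s + ((j + 1 : ℕ) : ℤ) := by push_cast; ring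
    rw [e1, e2]
  simp only [h3]
  rw [Finset.sum_sub_distrib, h1, h2]
  simp only [Nat.cast_zero, add_zero, nk_bd_self, sub_zero]

lemma tel (k L : ℕ) (t : ℤ) (N : ℕ) (G : ℂ → ℂ)
    (hlow : cut (lo (-(N : ℤ) * L - t)) G = fun _ => 0)
    (hhigh : cut (lo (((N : ℤ) + 1) * L - t)) G = G) :
    NK (k + 1) G - ∑ b ∈ Finset.Icc (-(N : ℤ)) N,
        NK (k + 1) (cut (bd (b * L - t) ((b + 1) * L - t)) G) =
      ∑ b ∈ Finset.Icc (-(N : ℤ)) N, ∑ j ∈ Finset.range L, DK k (b * L - t + j) j G := by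
  have h1 : ∀ b : ℤ, ∑ j ∈ Finset.range L, DK k (b * L - t + j) j G =
      (NK (k + 1) (cut (lo ((b + 1) * L - t)) G) - NK (k + 1) (cut (lo (b * L - t)) G)) -
        NK (k + 1) (cut (bd (b * L - t) ((b + 1) * L - t)) G) := by
    intro b
    rw [sum_DK]
    have e : b * L - t + L = (b + 1) * L - t := by ring
    rw [e]
  simp only [h1]
  rw [Finset.sum_sub_distrib]
  have h2 := AvgM.sum_Icc_tel (fun b => NK (k + 1) (cut (lo (b * L - t)) G)) (-(N : ℤ)) (2 * N)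
  have e1 : -(N : ℤ) + ((2 * N : ℕ) : ℤ) = N := by push_cast; ring
  rw [e1, hlow, hhigh, nk_zero, sub_zero] at h2
  rw [h2]

/-! ### Sums of integrals -/

lemma sum_int_le {ι : Type*} (A : Finset ι) (f : ι → ℂ → ℝ) (g : ℂ → ℝ)
    (h0 : ∀ a x, 0 ≤ f a x) (hg : Integrable g) (h : ∀ x, ∑ a ∈ A, f a x ≤ g x) :
    ∑ a ∈ A, ∫ x, f a x ≤ ∫ x, g x := by
  classical
  set A' := A.filter (fun a => Integrable (f a)) with hA'
  have h1 : ∑ a ∈ A, ∫ x, f a x = ∑ a ∈ A', ∫ x, f a x := by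
    symm
    apply Finset.sum_subset (Finset.filter_subset _ _)
    intro a ha hna
    rw [Finset.mem_filter, not_and] at hna
    exact integral_undef (hna ha)
  have hi : ∀ a ∈ A', Integrable (f a) := fun a ha => (Finset.mem_filter.1 ha).2
  rw [h1, ← integral_finsetSum _ hi]
  refine integral_mono (integrable_finsetSum _ hi) hg fun x => ?_
  exact (Finset.sum_le_sum_of_subset_of_nonneg (Finset.filter_subset _ _)
    (fun a _ _ => h0 a x)).trans (h x)

lemma mul_pow_le {s m : ℝ} (hs : 0 ≤ s) (hm : 0 ≤ m) (k : ℕ) :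
    s * m ^ k ≤ s ^ (k + 1) + m ^ (k + 1) := by
  rcases le_total s m with h | h
  · have h1 : s * m ^ k ≤ m * m ^ k := by gcongr
    have h2 : 0 ≤ s ^ (k + 1) := by positivity
    rw [← pow_succ'] at h1
    linarith
  · have h1 : s * m ^ k ≤ s * s ^ k := by gcongr
    have h2 : 0 ≤ m ^ (k + 1) := by positivity
    rw [← pow_succ'] at h1
    linarith

lemma young {q z ν : ℝ} (hq : 0 ≤ q) (hz : 0 ≤ z) (hν : 0 < ν) (k : ℕ) :
    q * z ^ k ≤ ν * z ^ (k + 1) + (ν ^ k)⁻¹ * q ^ (k + 1) := by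
  rcases le_total q (ν * z) with h | h
  · have h1 : q * z ^ k ≤ (ν * z) * z ^ k := by gcongr
    have h2 : 0 ≤ (ν ^ k)⁻¹ * q ^ (k + 1) := by positivity
    calc q * z ^ k ≤ (ν * z) * z ^ k := h1
      _ = ν * z ^ (k + 1) := by ring
      _ ≤ _ := by linarith
  · have h1 : z ≤ q / ν := by
      rw [le_div_iff₀ hν]; linarith
    have h2 : 0 ≤ ν * z ^ (k + 1) := by positivity
    calc q * z ^ k ≤ q * (q / ν) ^ k := by gcongr
      _ = (ν ^ k)⁻¹ * q ^ (k + 1) := by rw [div_pow]; field_simp; ring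
      _ ≤ _ := by linarith

lemma pt1 (A : Finset ℤ) (u v : ℤ → ℝ) {m : ℝ} (hm : 0 ≤ m) (k : ℕ) :
    ∑ a ∈ A, u a * v a * m ^ k ≤
      (∑ a ∈ A, u a ^ 2) ^ (k + 1) + (∑ a ∈ A, v a ^ 2) ^ (k + 1) + m ^ (k + 1) := by
  set S := ∑ a ∈ A, u a ^ 2 with hS
  set S' := ∑ a ∈ A, v a ^ 2 with hS'
  have hS0 : 0 ≤ S := Finset.sum_nonneg fun a _ => sq_nonneg _
  have hS0' : 0 ≤ S' := Finset.sum_nonneg fun a _ => sq_nonneg _
  have h1 : ∑ a ∈ A, u a * v a ≤ (S + S') / 2 := by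
    rw [hS, hS', ← Finset.sum_add_distrib, Finset.sum_div]
    exact Finset.sum_le_sum fun a _ => by nlinarith [sq_nonneg (u a - v a)]
  rw [← Finset.sum_mul]
  have h2 : 0 ≤ m ^ k := by positivity
  have h3 := mul_pow_le hS0 hm k
  have h4 := mul_pow_le hS0' hm k
  have h5 : 0 ≤ S ^ (k + 1) := by positivity
  have h6 : 0 ≤ S' ^ (k + 1) := by positivity
  calc (∑ a ∈ A, u a * v a) * m ^ k ≤ ((S + S') / 2) * m ^ k := by gcongr
    _ = (S * m ^ k + S' * m ^ k) / 2 := by ring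
    _ ≤ _ := by linarith

lemma pt2 (A : Finset ℤ) (u w v : ℤ → ℝ) {m ν : ℝ} (hm : 0 ≤ m) (hν : 0 < ν) (k : ℕ)
    (hk : 1 ≤ k) :
    ∑ a ∈ A, u a * w a * v a * Real.sqrt m ^ (2 * k - 1) ≤
      ν * ((∑ a ∈ A, v a ^ 2) ^ (k + 1) + m ^ (k + 1)) +
        (ν ^ k)⁻¹ * (∑ a ∈ A, u a ^ 2 * w a ^ 2) ^ (((k : ℝ) + 1) / 2) := by
  set Q := ∑ a ∈ A, u a ^ 2 * w a ^ 2 with hQ
  set S := ∑ a ∈ A, v a ^ 2 with hS
  have hQ0 : 0 ≤ Q := Finset.sum_nonneg fun a _ => by positivity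
  have hS0 : 0 ≤ S := Finset.sum_nonneg fun a _ => sq_nonneg _
  have h1 : ∑ a ∈ A, u a * w a * v a ≤ Real.sqrt Q * Real.sqrt S := by
    have := Real.sum_mul_le_sqrt_mul_sqrt A (fun a => u a * w a) v
    simp only [mul_pow] at this
    exact this
  set Z := max S m with hZ
  have hZ0 : 0 ≤ Z := hS0.trans (le_max_left _ _)
  have h2 : Real.sqrt S * Real.sqrt m ^ (2 * k - 1) ≤ Z ^ k := by
    have h3 : Real.sqrt S ≤ Real.sqrt Z := Real.sqrt_le_sqrt (le_max_left _ _)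
    have h4 : Real.sqrt m ≤ Real.sqrt Z := Real.sqrt_le_sqrt (le_max_right _ _)
    calc Real.sqrt S * Real.sqrt m ^ (2 * k - 1) ≤ Real.sqrt Z * Real.sqrt Z ^ (2 * k - 1) := by
          gcongr
      _ = Real.sqrt Z ^ (2 * k) := by
          rw [← pow_succ']
          congr 1
          omega
      _ = Z ^ k := by rw [pow_mul, Real.sq_sqrt hZ0]
  have h3 : Z ^ (k + 1) ≤ S ^ (k + 1) + m ^ (k + 1) := by
    have h5 : 0 ≤ S ^ (k + 1) := by positivity
    have h6 : 0 ≤ m ^ (k + 1) := by positivity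
    rcases le_total S m with h | h
    · rw [hZ, max_eq_right h]; linarith
    · rw [hZ, max_eq_left h]; linarith
  have h4 : Real.sqrt Q ^ (k + 1) = Q ^ (((k : ℝ) + 1) / 2) := by
    rw [Real.sqrt_eq_rpow, ← Real.rpow_natCast, ← Real.rpow_mul hQ0]
    congr 1
    push_cast
    ring
  rw [← Finset.sum_mul]
  calc (∑ a ∈ A, u a * w a * v a) * Real.sqrt m ^ (2 * k - 1)
      ≤ (Real.sqrt Q * Real.sqrt S) * Real.sqrt m ^ (2 * k - 1) := by gcongr
    _ = Real.sqrt Q * (Real.sqrt S * Real.sqrt m ^ (2 * k - 1)) := by ring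
    _ ≤ Real.sqrt Q * Z ^ k := by gcongr
    _ ≤ ν * Z ^ (k + 1) + (ν ^ k)⁻¹ * Real.sqrt Q ^ (k + 1) :=
        young (Real.sqrt_nonneg _) hZ0 hν k
    _ ≤ _ := by
        rw [h4]
        gcongr

lemma sum_Icc_sub (a : ℤ) (c₀ : ℕ) (f : ℤ → ℝ) :
    ∑ i ∈ Finset.Icc (a - c₀) a, f i = ∑ l ∈ Finset.range (c₀ + 1), f (a - l) := by
  classical
  have e : Finset.Icc (a - (c₀ : ℤ)) a = (Finset.range (c₀ + 1)).image (fun l : ℕ => a - l) := by
    ext i
    simp only [Finset.mem_Icc, Finset.mem_image, Finset.mem_range]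
    constructor
    · rintro ⟨h1, h2⟩
      exact ⟨(a - i).toNat, by omega, by omega⟩
    · rintro ⟨l, h1, rfl⟩
      omega
  rw [e, Finset.sum_image]
  intro l _ l' _ h
  simp only at h
  omega

lemma sum_geo {c : ℝ} (hc : 0 < c) (L : ℕ) :
    ∑ j ∈ Finset.range L, ((2 : ℝ) ^ (-(j : ℤ))) ^ c ≤ (1 - (2 : ℝ) ^ (-c))⁻¹ := by
  have h1 : (2 : ℝ) ^ (-c) < 1 := Real.rpow_lt_one_of_one_lt_of_neg (by norm_num) (by linarith)
  have h0 : (0 : ℝ) ≤ (2 : ℝ) ^ (-c) := by positivity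
  have h2 : ∀ j : ℕ, ((2 : ℝ) ^ (-(j : ℤ))) ^ c = ((2 : ℝ) ^ (-c)) ^ j := by
    intro j
    rw [← Real.rpow_intCast, ← Real.rpow_natCast ((2 : ℝ) ^ (-c)), ← Real.rpow_mul (by norm_num),
      ← Real.rpow_mul (by norm_num)]
    congr 1
    push_cast
    ring
  simp only [h2]
  rw [← tsum_geometric_of_lt_one h0 h1]
  exact (summable_geometric_of_lt_one h0 h1).sum_le_tsum _ fun j _ => by positivity

end AvgX

open AvgX in
theorem avgK (hT : StmtTopK) (hQ : StmtQInt) (hS : StmtShK) (hM : StmtMaxK) (hA : StmtAprK)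
    (hF : Four.StmtFac) : StmtAvgK := by
  classical
  intro k hk
  obtain ⟨CT, c₀, hCT, hT⟩ := hT k hk
  obtain ⟨CQ, c, nQ, hCQ, hc, hnQ, hQ⟩ := hQ k hk
  obtain ⟨CS, hCS, hS⟩ := hS k hk
  obtain ⟨CM, hCM, hM⟩ := hM k hk
  obtain ⟨B, nB, hB, hnB, hA⟩ := hA k hk
  have hk0 : (0 : ℝ) < k := by exact_mod_cast hk
  set c' : ℝ := c / (2 * k) with hc'
  have hc'0 : 0 < c' := by positivity
  set D1 : ℝ := CT * ((c₀ + 1 : ℕ) * (2 * CS + CM)) with hD1
  set D2 : ℝ := CT * ((c₀ + 1 : ℕ) * ((CS + CM) * B + CQ * (2 : ℝ) ^ (c / 2))) with hD2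
  set g0 : ℝ := (1 - (2 : ℝ) ^ (-c'))⁻¹ with hg0
  have hg00 : 0 < g0 := by
    have h1 : (2 : ℝ) ^ (-c') < 1 :=
      Real.rpow_lt_one_of_one_lt_of_neg (by norm_num) (by linarith)
    rw [hg0]
    apply inv_pos.2
    linarith
  have hD10 : 0 < D1 := by positivity
  have hD20 : 0 < D2 := by positivity
  refine ⟨c₀ * (D1 * B) + D2 * ((2 : ℝ) ^ c' * (g0 + 1)), c', max nQ nB, by positivity, hc'0,
    hnQ.trans (le_max_left _ _), ?_⟩
  intro n hn R L g hL hg hSup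
  have hnQ' : nQ ≤ n := (le_max_left _ _).trans hn
  have hnB' : nB ≤ n := (le_max_right _ _).trans hn
  have hn1 : 1 ≤ n := hnQ.trans hnQ'
  have hn' : (1 : ℝ) ≤ n := by exact_mod_cast hn1
  -- `g` vanishes near `0`
  have hZ : Z0 g := by
    have h1 : ∀ᶠ ζ in 𝓝 (0 : ℂ), ‖ζ‖ < (2 : ℝ) ^ (-(R : ℤ)) := by
      have := continuous_norm.continuousAt (x := (0 : ℂ))
      refine (this.eventually (gt_mem_nhds ?_))
      show ‖(0 : ℂ)‖ < _
      rw [norm_zero]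
      positivity
    filter_upwards [h1] with ζ h2
    by_contra h3
    exact absurd (hSup ζ h3).1 (not_le.2 h2)
  set G := mg n g with hGdef
  have hGC : CC G := (hF.2.2.2.2.2.1 g n hn1 hg hZ).1
  have hGsup : ∀ ζ, G ζ ≠ 0 → (2 : ℝ) ^ (-(R : ℤ)) ≤ ‖ζ‖ ∧ ‖ζ‖ ≤ (2 : ℝ) ^ (R : ℤ) := by
    intro ζ h1
    apply hSup
    intro h2
    apply h1
    rw [hGdef]
    unfold mg
    rw [h2, mul_zero]
  -- high and low cutoffs
  have hlow0 : ∀ a : ℤ, a ≤ -(R : ℤ) - 1 → ∀ ζ, G ζ ≠ 0 → lo a ζ = 0 := by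
    intro a ha ζ hz
    have h1 := (hGsup ζ hz).1
    apply hF.2.2.1
    have h3 : (2 : ℝ) ^ a ≤ (2 : ℝ) ^ (-(R : ℤ)) / 2 := by
      have h4 : (2 : ℝ) ^ a ≤ (2 : ℝ) ^ (-(R : ℤ) - 1) := zpow_le_zpow_right₀ (by norm_num) ha
      rwa [zpow_sub_one₀ (by norm_num : (2 : ℝ) ≠ 0), ← div_eq_mul_inv] at h4
    have h5 : (0 : ℝ) < (2 : ℝ) ^ a := by positivity
    have h6 : (0 : ℝ) < (2 : ℝ) ^ (-(R : ℤ)) := by positivity
    have h7 : 2 * (2 : ℝ) ^ a ≤ ‖ζ‖ := by linarith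
    nlinarith
  have hlow : ∀ a : ℤ, a ≤ -(R : ℤ) - 1 → cut (lo a) G = fun _ => 0 := by
    intro a ha
    ext ζ
    by_cases hz : G ζ = 0
    · simp [cut, hz]
    · simp [cut, hlow0 a ha ζ hz]
  have hhigh : ∀ a : ℤ, (R : ℤ) ≤ a → cut (lo a) G = G := by
    intro a ha
    ext ζ
    by_cases hz : G ζ = 0
    · simp [cut, hz]
    · have h1 := (hGsup ζ hz).2
      have h2 : lo a ζ = 1 := by
        apply hF.2.1
        exact h1.trans (zpow_le_zpow_right₀ (by norm_num) ha)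
      simp [cut, h2]
  have hbd : ∀ a b : ℤ, a ≤ -(R : ℤ) - 1 → cut (bd a b) G = cut (lo b) G := by
    intro a b ha
    ext ζ
    by_cases hz : G ζ = 0
    · simp [cut, hz]
    · simp [cut, bd, hlow0 a ha ζ hz]
  -- telescoping
  have htel : ∀ t ∈ Finset.range L, NK (k + 1) G - ∑ b ∈ Finset.Icc (-((R : ℤ) + 4)) (R + 4),
      NK (k + 1) (cut (bd (b * L - t) ((b + 1) * L - t)) G) =
      ∑ b ∈ Finset.Icc (-((R : ℤ) + 4)) (R + 4), ∑ j ∈ Finset.range L,
        DK k (b * L - t + j) j G := by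
    intro t ht
    rw [Finset.mem_range] at ht
    have hLz : (1 : ℤ) ≤ L := by exact_mod_cast hL
    have htz : (t : ℤ) < L := by exact_mod_cast ht
    have ht0 : (0 : ℤ) ≤ t := Int.natCast_nonneg _
    have hR0 : (0 : ℤ) ≤ R := Int.natCast_nonneg _
    have h := tel k L t (R + 4) G (hlow _ (by push_cast; nlinarith))
      (hhigh _ (by push_cast; nlinarith))
    push_cast at h
    exact h
  rw [Finset.sum_congr rfl htel]
  -- rearrangement
  have hre : ∑ t ∈ Finset.range L, ∑ b ∈ Finset.Icc (-((R : ℤ) + 4)) (R + 4),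
      ∑ j ∈ Finset.range L, DK k (b * L - t + j) j G ≤
      ∑ j ∈ Finset.range L, ∑ t ∈ Finset.range L, ∑ b ∈ Finset.Icc (-((R : ℤ) + 4)) (R + 4),
        |DK k (b * L - t + j) j G| := by
    calc ∑ t ∈ Finset.range L, ∑ b ∈ Finset.Icc (-((R : ℤ) + 4)) (R + 4),
          ∑ j ∈ Finset.range L, DK k (b * L - t + j) j G
        ≤ ∑ t ∈ Finset.range L, ∑ b ∈ Finset.Icc (-((R : ℤ) + 4)) (R + 4),
          ∑ j ∈ Finset.range L, |DK k (b * L - t + j) j G| :=
        Finset.sum_le_sum fun t _ => Finset.sum_le_sum fun b _ => Finset.sum_le_sum fun j _ =>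
          le_abs_self _
      _ = ∑ t ∈ Finset.range L, ∑ j ∈ Finset.range L,
          ∑ b ∈ Finset.Icc (-((R : ℤ) + 4)) (R + 4), |DK k (b * L - t + j) j G| :=
        Finset.sum_congr rfl fun t _ => Finset.sum_comm
      _ = _ := Finset.sum_comm
  refine hre.trans ?_
  set X := NK (k + 1) g with hX
  set Y := NK (k + 1) G with hY
  have hX0 : 0 ≤ X := nk_nonneg _ _
  have hY0 : 0 ≤ Y := nk_nonneg _ _
  have hYX : Y ≤ B * n ^ (2 * k) * X := hA n hnB' g hg hZ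
  obtain ⟨M, hDom, hMi, hMb⟩ := hM G hGC
  have hM0 := hDom.2.1
  have hSl : ∀ (A : Finset ℤ) (l : ℕ),
      Integrable (fun x => (∑ a ∈ A, ‖iF (cut (sh (a - l)) G) x‖ ^ 2) ^ (k + 1)) ∧
      ∫ x, (∑ a ∈ A, ‖iF (cut (sh (a - l)) G) x‖ ^ 2) ^ (k + 1) ≤ CS * Y := by
    intro A l
    obtain ⟨h1, h2, -⟩ := hS (A.image (fun a : ℤ => a - (l : ℤ))) G hGC
    have hinj : Set.InjOn (fun a : ℤ => a - (l : ℤ)) A := by
      intro a _ b _ h
      simp only at h
      omega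
    simp only [Finset.sum_image hinj] at h1 h2
    exact ⟨h1, h2⟩
  have hj : ∀ j ∈ Finset.range L, ∑ t ∈ Finset.range L,
      ∑ b ∈ Finset.Icc (-((R : ℤ) + 4)) (R + 4), |DK k (b * L - t + j) j G| ≤
      (if j < c₀ then D1 * Y else 0) +
        D2 * (n ^ (2 * k) * X) * ((2 : ℝ) ^ (-(j : ℤ)) + 1 / n) ^ c' := by
    intro j _
    obtain ⟨A, hAre⟩ := AvgM.rearrange L (R + 4) (fun a => |DK k a j G|) j
    push_cast at hAre
    rw [hAre]
    set e : ℝ := (2 : ℝ) ^ (-(j : ℤ)) + 1 / n with he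
    have he0 : 0 < e := by positivity
    have hpos : 0 ≤ D2 * (n ^ (2 * k) * X) * e ^ c' := by positivity
    by_cases hjc : j < c₀
    · rw [if_pos hjc]
      have h1 : ∑ a ∈ A, |DK k a j G| ≤ CT * ∑ l ∈ Finset.range (c₀ + 1), ∑ a ∈ A,
          ∫ x, ‖iF (cut (sh a) G) x‖ * ‖iF (cut (sh (a - l)) G) x‖ * M x ^ k := by
        calc ∑ a ∈ A, |DK k a j G| ≤ ∑ a ∈ A, CT * ∑ l ∈ Finset.range (c₀ + 1),
              ∫ x, ‖iF (cut (sh a) G) x‖ * ‖iF (cut (sh (a - l)) G) x‖ * M x ^ k := by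
              refine Finset.sum_le_sum fun a _ => ?_
              have h2 := (hT a j G M hGC hDom hMi).1
              rwa [sum_Icc_sub] at h2
          _ = _ := by rw [← Finset.mul_sum, Finset.sum_comm]
      have h2 : ∀ l ∈ Finset.range (c₀ + 1), ∑ a ∈ A,
          ∫ x, ‖iF (cut (sh a) G) x‖ * ‖iF (cut (sh (a - l)) G) x‖ * M x ^ k ≤
            (2 * CS + CM) * Y := by
        intro l _
        obtain ⟨i1, b1⟩ := hSl A 0
        obtain ⟨i2, b2⟩ := hSl A l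
        simp only [Nat.cast_zero, sub_zero] at i1 b1
        have h3 := sum_int_le A
          (fun a x => ‖iF (cut (sh a) G) x‖ * ‖iF (cut (sh (a - l)) G) x‖ * M x ^ k) _
          (fun a x => by have := hM0 x; positivity) ((i1.add i2).add hMi)
          (fun x => pt1 A (fun a => ‖iF (cut (sh a) G) x‖)
            (fun a => ‖iF (cut (sh (a - l)) G) x‖) (hM0 x) k)
        refine h3.trans ?_
        have h4 : ∫ x, (((fun x => (∑ a ∈ A, ‖iF (cut (sh a) G) x‖ ^ 2) ^ (k + 1)) +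
            (fun x => (∑ a ∈ A, ‖iF (cut (sh (a - l)) G) x‖ ^ 2) ^ (k + 1))) +
            (fun x => M x ^ (k + 1))) x =
            (∫ x, (∑ a ∈ A, ‖iF (cut (sh a) G) x‖ ^ 2) ^ (k + 1)) +
            (∫ x, (∑ a ∈ A, ‖iF (cut (sh (a - l)) G) x‖ ^ 2) ^ (k + 1)) +
            ∫ x, M x ^ (k + 1) := by
          rw [integral_add' (i1.add i2) hMi, integral_add' i1 i2]
        rw [h4]
        linarith
      have h3 := Finset.sum_le_sum h2
      rw [Finset.sum_const, Finset.card_range, nsmul_eq_mul] at h3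
      calc ∑ a ∈ A, |DK k a j G| ≤ CT * ((c₀ + 1 : ℕ) * ((2 * CS + CM) * Y)) :=
            h1.trans (mul_le_mul_of_nonneg_left h3 hCT.le)
        _ = D1 * Y := by rw [hD1]; ring
        _ ≤ _ := by linarith
    · rw [if_neg hjc, zero_add]
      push Not at hjc
      obtain ⟨a₁, ha₁⟩ : ∃ a₁ : ℤ, ∀ i ∈ insert (-(R : ℤ) - 1 + j) A, a₁ ≤ i :=
        ⟨(insert (-(R : ℤ) - 1 + j) A).min' (Finset.insert_nonempty _ _),
          fun i hi => Finset.min'_le _ i hi⟩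
      set a₀ : ℤ := a₁ - j with ha₀
      have ha₀R : a₀ ≤ -(R : ℤ) - 1 := by
        have := ha₁ _ (Finset.mem_insert_self _ _)
        rw [ha₀]; linarith
      have ha₀A : ∀ a ∈ A, a₀ ≤ a - j := by
        intro a ha
        have := ha₁ _ (Finset.mem_insert_of_mem ha)
        rw [ha₀]; linarith
      obtain ⟨iQ, bQ⟩ := hQ n hnQ' g hg hZ A a₀ j ha₀A
      rw [← hGdef] at iQ bQ
      simp only [hbd a₀ _ ha₀R] at iQ bQ
      rw [← he, ← hX] at bQ
      have h1 : ∑ a ∈ A, |DK k a j G| ≤ CT * ∑ l ∈ Finset.range (c₀ + 1), ∑ a ∈ A,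
          ∫ x, ‖iF (cut (sh a) G) x‖ * ‖iF (cut (lo (a - j)) G) x‖ *
            ‖iF (cut (sh (a - l)) G) x‖ * Real.sqrt (M x) ^ (2 * k - 1) := by
        calc ∑ a ∈ A, |DK k a j G| ≤ ∑ a ∈ A, CT * ∑ l ∈ Finset.range (c₀ + 1),
              ∫ x, ‖iF (cut (sh a) G) x‖ * ‖iF (cut (lo (a - j)) G) x‖ *
                ‖iF (cut (sh (a - l)) G) x‖ * Real.sqrt (M x) ^ (2 * k - 1) := by
              refine Finset.sum_le_sum fun a _ => ?_
              have h2 := (hT a j G M hGC hDom hMi).2 hjc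
              rwa [sum_Icc_sub] at h2
          _ = _ := by rw [← Finset.mul_sum, Finset.sum_comm]
      set ν : ℝ := e ^ c' with hν
      have hν0 : 0 < ν := Real.rpow_pos_of_pos he0 _
      have hνk : (ν ^ k)⁻¹ * e ^ c = e ^ (c / 2) := by
        rw [hν, ← Real.rpow_natCast, ← Real.rpow_mul he0.le, ← Real.rpow_neg he0.le,
          ← Real.rpow_add he0]
        congr 1
        rw [hc']
        field_simp
        ring
      have he2 : e ≤ 2 := by
        have h3 : (2 : ℝ) ^ (-(j : ℤ)) ≤ 1 := by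
          rw [zpow_neg, zpow_natCast]
          exact inv_le_one_of_one_le₀ (one_le_pow₀ (by norm_num))
        have h4 : 1 / (n : ℝ) ≤ 1 := by
          rw [div_le_one (by linarith)]; exact hn'
        linarith
      have hec : e ^ (c / 2) ≤ (2 : ℝ) ^ (c / 2) * e ^ c' := by
        have h3 : e ^ (c / 2) = e ^ (c / 2 - c') * e ^ c' := by
          rw [← Real.rpow_add he0]; ring_nf
        have h4 : 0 ≤ c / 2 - c' := by
          rw [hc', sub_nonneg]
          apply div_le_div_of_nonneg_left hc.le (by norm_num)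
          have : (1 : ℝ) ≤ k := by exact_mod_cast hk
          linarith
        have h5 : e ^ (c / 2 - c') ≤ (2 : ℝ) ^ (c / 2 - c') := Real.rpow_le_rpow he0.le he2 h4
        have h6 : (2 : ℝ) ^ (c / 2 - c') ≤ (2 : ℝ) ^ (c / 2) :=
          Real.rpow_le_rpow_of_exponent_le (by norm_num) (by linarith)
        rw [h3]
        gcongr
        exact h5.trans h6
      have h2 : ∀ l ∈ Finset.range (c₀ + 1), ∑ a ∈ A,
          ∫ x, ‖iF (cut (sh a) G) x‖ * ‖iF (cut (lo (a - j)) G) x‖ *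
            ‖iF (cut (sh (a - l)) G) x‖ * Real.sqrt (M x) ^ (2 * k - 1) ≤
            ((CS + CM) * B + CQ * (2 : ℝ) ^ (c / 2)) * (n ^ (2 * k) * X) * e ^ c' := by
        intro l _
        obtain ⟨i2, b2⟩ := hSl A l
        have h3 := sum_int_le A
          (fun a x => ‖iF (cut (sh a) G) x‖ * ‖iF (cut (lo (a - j)) G) x‖ *
            ‖iF (cut (sh (a - l)) G) x‖ * Real.sqrt (M x) ^ (2 * k - 1)) _
          (fun a x => by positivity) (((i2.add hMi).const_mul ν).add (iQ.const_mul (ν ^ k)⁻¹))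
          (fun x => pt2 A (fun a => ‖iF (cut (sh a) G) x‖) (fun a => ‖iF (cut (lo (a - j)) G) x‖)
            (fun a => ‖iF (cut (sh (a - l)) G) x‖) (hM0 x) hν0 k hk)
        refine h3.trans ?_
        have h4 : ∫ x, ((fun x => ν * ((fun x => (∑ a ∈ A,
              ‖iF (cut (sh (a - l)) G) x‖ ^ 2) ^ (k + 1)) + (fun x => M x ^ (k + 1))) x) +
            (fun x => (ν ^ k)⁻¹ * (∑ a ∈ A, ‖iF (cut (sh a) G) x‖ ^ 2 *
              ‖iF (cut (lo (a - j)) G) x‖ ^ 2) ^ (((k : ℝ) + 1) / 2))) x =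
            ν * ((∫ x, (∑ a ∈ A, ‖iF (cut (sh (a - l)) G) x‖ ^ 2) ^ (k + 1)) +
              ∫ x, M x ^ (k + 1)) + (ν ^ k)⁻¹ * ∫ x, (∑ a ∈ A, ‖iF (cut (sh a) G) x‖ ^ 2 *
              ‖iF (cut (lo (a - j)) G) x‖ ^ 2) ^ (((k : ℝ) + 1) / 2) := by
          rw [integral_add' ((i2.add hMi).const_mul ν) (iQ.const_mul (ν ^ k)⁻¹),
            integral_const_mul, integral_const_mul, integral_add' i2 hMi]
        rw [h4]
        have hW : 0 ≤ (n : ℝ) ^ (2 * k) * X := by positivity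
        calc ν * ((∫ x, (∑ a ∈ A, ‖iF (cut (sh (a - l)) G) x‖ ^ 2) ^ (k + 1)) +
              ∫ x, M x ^ (k + 1)) + (ν ^ k)⁻¹ * ∫ x, (∑ a ∈ A, ‖iF (cut (sh a) G) x‖ ^ 2 *
              ‖iF (cut (lo (a - j)) G) x‖ ^ 2) ^ (((k : ℝ) + 1) / 2)
            ≤ ν * (CS * Y + CM * Y) + (ν ^ k)⁻¹ * (CQ * n ^ (2 * k) * e ^ c * X) := by
              gcongr
          _ = (CS + CM) * ν * Y + CQ * ((ν ^ k)⁻¹ * e ^ c) * (n ^ (2 * k) * X) := by ring
          _ ≤ (CS + CM) * ν * (B * n ^ (2 * k) * X) +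
              CQ * ((2 : ℝ) ^ (c / 2) * e ^ c') * (n ^ (2 * k) * X) := by
              rw [hνk]
              gcongr
          _ = _ := by rw [hν]; ring
      have h3 := Finset.sum_le_sum h2
      rw [Finset.sum_const, Finset.card_range, nsmul_eq_mul] at h3
      calc ∑ a ∈ A, |DK k a j G| ≤ CT * ((c₀ + 1 : ℕ) *
            (((CS + CM) * B + CQ * (2 : ℝ) ^ (c / 2)) * (n ^ (2 * k) * X) * e ^ c')) :=
            h1.trans (mul_le_mul_of_nonneg_left h3 hCT.le)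
        _ = _ := by rw [hD2]; ring
  refine (Finset.sum_le_sum hj).trans ?_
  rw [Finset.sum_add_distrib, ← Finset.mul_sum]
  have hfirst : ∑ j ∈ Finset.range L, (if j < c₀ then D1 * Y else 0) ≤ c₀ * (D1 * Y) := by
    rw [← Finset.sum_filter, Finset.sum_const, nsmul_eq_mul]
    have hcard : ((Finset.range L).filter (fun j => j < c₀)).card ≤ c₀ := by
      calc _ ≤ (Finset.range c₀).card := Finset.card_le_card (by
            intro j hj
            rw [Finset.mem_filter] at hj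
            exact Finset.mem_range.2 hj.2)
        _ = c₀ := Finset.card_range c₀
    have hcard' : (((Finset.range L).filter (fun j => j < c₀)).card : ℝ) ≤ c₀ := by
      exact_mod_cast hcard
    gcongr
  have hsum : ∑ j ∈ Finset.range L, ((2 : ℝ) ^ (-(j : ℤ)) + 1 / n) ^ c' ≤
      (2 : ℝ) ^ c' * (g0 + L * (1 / n : ℝ) ^ c') := by
    have h1 : ∀ j ∈ Finset.range L, ((2 : ℝ) ^ (-(j : ℤ)) + 1 / n) ^ c' ≤
        (2 : ℝ) ^ c' * (((2 : ℝ) ^ (-(j : ℤ))) ^ c' + (1 / n : ℝ) ^ c') := by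
      intro j _
      set x : ℝ := (2 : ℝ) ^ (-(j : ℤ)) with hx
      set y : ℝ := 1 / n with hy
      have hx0 : 0 < x := by positivity
      have hy0 : 0 < y := by positivity
      have h2 : x + y ≤ 2 * max x y := by
        have := le_max_left x y
        have := le_max_right x y
        linarith
      have h3 : (max x y) ^ c' ≤ x ^ c' + y ^ c' := by
        have h5 : 0 ≤ x ^ c' := by positivity
        have h6 : 0 ≤ y ^ c' := by positivity
        rcases le_total x y with h | h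
        · rw [max_eq_right h]; linarith
        · rw [max_eq_left h]; linarith
      calc (x + y) ^ c' ≤ (2 * max x y) ^ c' := Real.rpow_le_rpow (by positivity) h2 hc'0.le
        _ = (2 : ℝ) ^ c' * (max x y) ^ c' := Real.mul_rpow (by norm_num) (by positivity)
        _ ≤ _ := by gcongr
    refine (Finset.sum_le_sum h1).trans ?_
    rw [← Finset.mul_sum, Finset.sum_add_distrib, Finset.sum_const, Finset.card_range,
      nsmul_eq_mul]
    have h2 := sum_geo hc'0 L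
    gcongr
  have hW : 0 ≤ (n : ℝ) ^ (2 * k) * X := by positivity
  have hq : 0 ≤ (L : ℝ) * (1 / n : ℝ) ^ c' := by positivity
  calc _ ≤ c₀ * (D1 * Y) + D2 * (n ^ (2 * k) * X) *
        ((2 : ℝ) ^ c' * (g0 + L * (1 / n : ℝ) ^ c')) := by
        refine add_le_add hfirst ?_
        gcongr
    _ ≤ c₀ * (D1 * (B * n ^ (2 * k) * X)) + D2 * (n ^ (2 * k) * X) *
        ((2 : ℝ) ^ c' * (g0 + L * (1 / n : ℝ) ^ c')) := by gcongr
    _ = (c₀ * (D1 * B)) * 1 * (n ^ (2 * k) * X) +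
        D2 * (2 : ℝ) ^ c' * (g0 * 1 + 1 * (L * (1 / n : ℝ) ^ c')) * (n ^ (2 * k) * X) := by ring
    _ ≤ (c₀ * (D1 * B)) * (1 + L * (1 / n : ℝ) ^ c') * (n ^ (2 * k) * X) +
        D2 * (2 : ℝ) ^ c' * (g0 * (1 + L * (1 / n : ℝ) ^ c') +
          1 * (1 + L * (1 / n : ℝ) ^ c')) * (n ^ (2 * k) * X) := by
        gcongr <;> linarith
    _ = _ := by ring

end Pool.Agent.Lib.MP_dd244f_an.Even
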