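import Pool.Agent.Lib.MP_dd244f_an.Even.Stmts

/-!
Module EV-BdryK: the boundary shells of a block, power `2 (k + 1)`.
-/

set_option autoImplicit false

namespace Pool.Agent.Lib.MP_dd244f_an.Even

open MeasureTheory Filter Topology Finset
open Pool.Agent.Lib.MP_dd244f_an.Four

private theorem step_iF (hB : StmtBase) (hF : StmtFac) {G : ℂ → ℂ} (hG : CC G) (a b : ℤ) (x : ℂ) :
    iF (cut (bd a b) G) x = iF (cut (bd (a + 1) (b - 1)) G) x
      + (iF (cut (sh a) G) x + iF (cut (sh (b - 1)) G) x) := by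
  have hadd := hB.2.2.2.2.1
  have hcc := hF.2.2.2.2.1 G
  have h1 : CC (cut (sh a) G) := (hcc a a hG).2.2
  have h2 : CC (cut (sh (b - 1)) G) := (hcc (b - 1) a hG).2.2
  have h3 : CC (cut (bd (a + 1) (b - 1)) G) := (hcc (a + 1) (b - 1) hG).2.1
  have h4 : CC (fun ζ => cut (sh a) G ζ + cut (sh (b - 1)) G ζ) := by
    refine ⟨h1.1.add h2.1, ?_⟩
    exact h1.2.add h2.2
  rw [← hadd _ _ h1 h2 x, ← hadd _ _ h3 h4 x]
  congr 1
  ext ζ
  unfold cut sh bd
  have e : b - 1 + 1 = b := by ring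
  rw [e]
  push_cast
  ring

private theorem sum_iF (hB : StmtBase) (hF : StmtFac) {G : ℂ → ℂ} (hG : CC G) (s t : ℤ) (x : ℂ)
    (m : ℕ) :
    iF (cut (bd s t) G) x = iF (cut (bd (s + m) (t - m)) G) x
      + ∑ i ∈ Finset.range m, (iF (cut (sh (s + i)) G) x + iF (cut (sh (t - 1 - i)) G) x) := by
  induction m with
  | zero => simp
  | succ m ih =>
    rw [ih, Finset.sum_range_succ, step_iF hB hF hG (s + m) (t - m) x]
    have e1 : s + (m : ℤ) + 1 = s + ((m + 1 : ℕ) : ℤ) := by push_cast; ring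
    have e2 : t - (m : ℤ) - 1 = t - ((m + 1 : ℕ) : ℤ) := by push_cast; ring
    have e3 : t - (m : ℤ) - 1 = t - 1 - (m : ℤ) := by ring
    rw [e1, e2, ← e2, e3]
    ring

private theorem pow_ineq (N : ℕ) {ε : ℝ} (hε : 0 < ε) : ∃ C : ℝ, 0 < C ∧ ∀ a b : ℝ, 0 ≤ a →
    0 ≤ b → (a + b) ^ N ≤ (1 + ε) * a ^ N + C * b ^ N := by
  obtain ⟨δ, hδ, hδN⟩ : ∃ δ : ℝ, 0 < δ ∧ (1 + δ) ^ N ≤ 1 + ε := by
    have hc : ContinuousAt (fun δ : ℝ => (1 + δ) ^ N) 0 := by fun_prop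
    have h0 : (fun δ : ℝ => (1 + δ) ^ N) 0 < 1 + ε := by simp [hε]
    have hev := hc.eventually_lt_const h0
    rw [Metric.eventually_nhds_iff] at hev
    obtain ⟨r, hr, h⟩ := hev
    refine ⟨r / 2, by positivity, (h ?_).le⟩
    rw [Real.dist_eq, sub_zero, abs_of_pos (by positivity)]
    linarith
  refine ⟨(1 / δ + 1) ^ N, by positivity, fun a b ha hb => ?_⟩
  rcases le_or_gt b (δ * a) with h | h
  · have h1 : (a + b) ^ N ≤ (1 + δ) ^ N * a ^ N := by
      rw [← mul_pow]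
      refine pow_le_pow_left₀ (by linarith) ?_ N
      linarith
    have h2 : (1 + δ) ^ N * a ^ N ≤ (1 + ε) * a ^ N := mul_le_mul_of_nonneg_right hδN (by positivity)
    have h3 : 0 ≤ (1 / δ + 1) ^ N * b ^ N := by positivity
    linarith
  · have h1 : a ≤ 1 / δ * b := by
      rw [one_div, inv_mul_eq_div, le_div_iff₀ hδ]
      linarith
    have h2 : (a + b) ^ N ≤ (1 / δ + 1) ^ N * b ^ N := by
      rw [← mul_pow]
      refine pow_le_pow_left₀ (by linarith) ?_ N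
      linarith
    have h3 : 0 ≤ (1 + ε) * a ^ N := by positivity
    linarith

private theorem sum_pow (k m : ℕ) (u v : ℕ → ℝ) (hu : ∀ i, 0 ≤ u i) (hv : ∀ i, 0 ≤ v i) :
    (∑ i ∈ Finset.range m, (u i + v i)) ^ (2 * k + 2) ≤
      (2 : ℝ) ^ (2 * k + 1) * (m : ℝ) ^ (2 * k + 1) *
        ∑ i ∈ Finset.range m, (u i ^ (2 * k + 2) + v i ^ (2 * k + 2)) := by
  rcases Nat.eq_zero_or_pos m with rfl | hm
  · simp
  have hm0 : (0 : ℝ) < m := by exact_mod_cast hm
  have h1 := pow_sum_div_card_le_sum_pow (s := Finset.range m) (f := fun i => u i + v i)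
    (fun i _ => add_nonneg (hu i) (hv i)) (2 * k + 1)
  rw [Finset.card_range, div_le_iff₀ (by positivity)] at h1
  have h2 : ∑ i ∈ Finset.range m, (u i + v i) ^ (2 * k + 1 + 1) ≤
      ∑ i ∈ Finset.range m, (2 : ℝ) ^ (2 * k + 1) * (u i ^ (2 * k + 2) + v i ^ (2 * k + 2)) := by
    refine Finset.sum_le_sum fun i _ => ?_
    exact add_pow_le (hu i) (hv i) (2 * k + 2)
  rw [← Finset.mul_sum] at h2
  calc (∑ i ∈ Finset.range m, (u i + v i)) ^ (2 * k + 2) ≤ _ := h1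
    _ ≤ _ := mul_le_mul_of_nonneg_right h2 (by positivity)
    _ = _ := by ring

private theorem int_pow (hB : StmtBase) (k : ℕ) {g : ℂ → ℂ} (hg : CC g) :
    Integrable (fun x => ‖iF g x‖ ^ (2 * (k + 1))) := by
  obtain ⟨hc, ⟨B, hBd⟩, h2, _⟩ := hB.1 g hg
  have h := h2.mul_bdd (g := fun x => ‖iF g x‖ ^ (2 * k)) (c := B ^ (2 * k))
    (hc.norm.pow _).aestronglyMeasurable
    (Filter.Eventually.of_forall fun x => by
      rw [norm_pow, norm_norm]
      exact pow_le_pow_left₀ (norm_nonneg _) (hBd x) _)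
  refine h.congr (Filter.Eventually.of_forall fun x => ?_)
  show ‖iF g x‖ ^ 2 * ‖iF g x‖ ^ (2 * k) = ‖iF g x‖ ^ (2 * (k + 1))
  ring

theorem bdryK (hB : StmtBase) (hF : StmtFac) : StmtBdryK := by
  intro k ε hε
  have hK : 2 * (k + 1) = 2 * k + 2 := by ring
  obtain ⟨C, hC, hCN⟩ := pow_ineq (2 * (k + 1)) hε
  refine ⟨(2 : ℝ) ^ (2 * k + 1) * C, by positivity, fun m L s G hmL hG => ?_⟩
  have hcc := hF.2.2.2.2.1 G
  have hint : ∀ a b : ℤ, Integrable (fun x => ‖iF (cut (bd a b) G) x‖ ^ (2 * (k + 1))) :=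
    fun a b => int_pow hB k (hcc a b hG).2.1
  have hints : ∀ a : ℤ, Integrable (fun x => ‖iF (cut (sh a) G) x‖ ^ (2 * (k + 1))) := fun a =>
    int_pow hB k (hcc a a hG).2.2
  have hpt : ∀ x, ‖iF (cut (bd s (s + L)) G) x‖ ^ (2 * (k + 1)) ≤
      (1 + ε) * ‖iF (cut (bd (s + m) (s + L - m)) G) x‖ ^ (2 * (k + 1))
        + (2 : ℝ) ^ (2 * k + 1) * C * (m : ℝ) ^ (2 * k + 1) * ∑ i ∈ Finset.range m,
          (‖iF (cut (sh (s + i)) G) x‖ ^ (2 * (k + 1))
            + ‖iF (cut (sh (s + L - 1 - i)) G) x‖ ^ (2 * (k + 1))) := by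
    intro x
    rw [sum_iF hB hF hG s (s + L) x m]
    have h1 : ‖∑ i ∈ Finset.range m, (iF (cut (sh (s + i)) G) x + iF (cut (sh (s + L - 1 - i)) G) x)‖
        ≤ ∑ i ∈ Finset.range m, (‖iF (cut (sh (s + i)) G) x‖ + ‖iF (cut (sh (s + L - 1 - i)) G) x‖) := by
      refine (norm_sum_le _ _).trans ?_
      exact Finset.sum_le_sum fun i _ => norm_add_le _ _
    set X := iF (cut (bd (s + m) (s + L - m)) G) x
    set Y := ∑ i ∈ Finset.range m, (iF (cut (sh (s + i)) G) x + iF (cut (sh (s + L - 1 - i)) G) x)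
    calc ‖X + Y‖ ^ (2 * (k + 1)) ≤ (‖X‖ + ‖Y‖) ^ (2 * (k + 1)) :=
          pow_le_pow_left₀ (norm_nonneg _) (norm_add_le _ _) _
      _ ≤ (1 + ε) * ‖X‖ ^ (2 * (k + 1)) + C * ‖Y‖ ^ (2 * (k + 1)) :=
          hCN _ _ (norm_nonneg _) (norm_nonneg _)
      _ ≤ (1 + ε) * ‖X‖ ^ (2 * (k + 1)) + C * ((2 : ℝ) ^ (2 * k + 1) * (m : ℝ) ^ (2 * k + 1) *
          ∑ i ∈ Finset.range m, (‖iF (cut (sh (s + i)) G) x‖ ^ (2 * (k + 1))
            + ‖iF (cut (sh (s + L - 1 - i)) G) x‖ ^ (2 * (k + 1)))) := by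
          have h2 := sum_pow k m (fun i => ‖iF (cut (sh (s + i)) G) x‖)
              (fun i => ‖iF (cut (sh (s + L - 1 - i)) G) x‖) (fun i => norm_nonneg _)
              (fun i => norm_nonneg _)
          rw [← hK] at h2
          have h3 := (pow_le_pow_left₀ (norm_nonneg _) h1 (2 * (k + 1))).trans h2
          have := mul_le_mul_of_nonneg_left h3 hC.le
          linarith
      _ = _ := by ring
  have hsum : Integrable (fun x => ∑ i ∈ Finset.range m,
      (‖iF (cut (sh (s + i)) G) x‖ ^ (2 * (k + 1))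
        + ‖iF (cut (sh (s + L - 1 - i)) G) x‖ ^ (2 * (k + 1)))) :=
    integrable_finsetSum _ fun i _ => (hints _).add (hints _)
  unfold NK
  calc ∫ x, ‖iF (cut (bd s (s + L)) G) x‖ ^ (2 * (k + 1))
      ≤ ∫ x, ((1 + ε) * ‖iF (cut (bd (s + m) (s + L - m)) G) x‖ ^ (2 * (k + 1))
        + (2 : ℝ) ^ (2 * k + 1) * C * (m : ℝ) ^ (2 * k + 1) * ∑ i ∈ Finset.range m,
          (‖iF (cut (sh (s + i)) G) x‖ ^ (2 * (k + 1))
            + ‖iF (cut (sh (s + L - 1 - i)) G) x‖ ^ (2 * (k + 1)))) := by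
        refine integral_mono (hint _ _) ?_ hpt
        exact ((hint _ _).const_mul _).add (hsum.const_mul _)
    _ = _ := by
        have hadd : ∀ i ∈ Finset.range m, Integrable (fun x =>
            ‖iF (cut (sh (s + i)) G) x‖ ^ (2 * (k + 1))
            + ‖iF (cut (sh (s + L - 1 - i)) G) x‖ ^ (2 * (k + 1))) :=
          fun i _ => (hints _).add (hints _)
        rw [integral_add ((hint _ _).const_mul _) (hsum.const_mul _), integral_const_mul,
          integral_const_mul, integral_finsetSum _ hadd]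
        congr 2
        refine Finset.sum_congr rfl fun i _ => ?_
        rw [integral_add (hints _) (hints _)]

end Pool.Agent.Lib.MP_dd244f_an.Even
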