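import Pool.Agent.Lib.MP_dd244f_an.Even.Stmts
import Pool.Agent.Lib.MP_dd244f_an.Four.Blk1

/-!
Full operator, even `p`: pointwise comparison of a block with the chirped Gaussian.
-/

set_option autoImplicit false

namespace Pool.Agent.Lib.MP_dd244f_an.Even

open MeasureTheory Filter Topology Finset
open Pool.Agent.Lib.MP_dd244f_an.Four

namespace Blk1KAux

theorem prod_one (k j : ℕ) (hj : j ∈ range (k + 1)) (x y : ℝ) :
    ∏ i ∈ range (k + 1), (if i = j then x else y) = x * y ^ k := by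
  rw [← Finset.mul_prod_erase _ _ hj, if_pos rfl]
  congr 1
  have h : ∏ i ∈ (range (k + 1)).erase j, (if i = j then x else y) =
      ∏ i ∈ (range (k + 1)).erase j, y := by
    refine Finset.prod_congr rfl fun i hi => ?_
    rw [if_neg (Finset.ne_of_mem_erase hi)]
  rw [h, Finset.prod_const, Finset.card_erase_of_mem hj, Finset.card_range]
  simp

theorem MF_le {k : ℕ} {r : ℝ} {g : ℂ → ℂ} {Om : ℂ → ℝ} (hr : 0 < r) (hOm0 : ∀ θ, 0 ≤ Om θ)
    (hOm : ∀ (θ : ℂ) (a : ℕ → ℂ → ℂ), (∀ j ≤ k, ContDiff ℝ 2 (a j) ∧ HasCompactSupport (a j)) →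
      ‖MF k a (fun _ => g) θ‖ ^ 2 ≤ (∏ j ∈ Finset.range (k + 1),
        ∫ δ, ‖a j δ - lap (a j) δ / (4 * Real.pi ^ 2 * r ^ 2 : ℝ)‖ ^ 2) * Om θ)
    (a : ℕ → ℂ → ℂ) (B : ℕ → ℝ) (hB : ∀ j ≤ k, 0 ≤ B j) (ha : ∀ j ≤ k, SyB r (B j) (a j))
    (θ : ℂ) : ‖MF k a (fun _ => g) θ‖ ^ 2 ≤
      (∏ j ∈ range (k + 1), (2 * Real.pi * B j ^ 2 / r ^ 2)) * Om θ := by
  refine (hOm θ a fun j hj => ⟨(ha j hj).1, (ha j hj).2.1⟩).trans
    (mul_le_mul_of_nonneg_right ?_ (hOm0 θ))
  refine Finset.prod_le_prod (fun j _ => integral_nonneg fun δ => by positivity) fun j hj => ?_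
  have hj' : j ≤ k := Nat.lt_succ_iff.1 (Finset.mem_range.1 hj)
  exact Blk1Aux.energy_le hr (hB j hj') (ha j hj').2.2

theorem norm_kp (k : ℕ) : ‖((k : ℂ) + 1)‖ = (k : ℝ) + 1 := by
  have : ((k : ℂ) + 1) = (((k : ℝ) + 1 : ℝ) : ℂ) := by push_cast; ring
  rw [this, Complex.norm_real, Real.norm_eq_abs, abs_of_nonneg (by positivity)]

theorem kp_ne (k : ℕ) : ((k : ℂ) + 1) ≠ 0 := by
  have h := norm_kp k
  intro h0
  rw [h0, norm_zero] at h
  have : (0 : ℝ) < (k : ℝ) + 1 := by positivity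
  linarith

theorem sum_sub {k : ℕ} {θ : ℂ} {ζ : ℕ → ℂ} (h : ∑ j ∈ range (k + 1), ζ j = θ) :
    ∑ j ∈ range (k + 1), (ζ j - θ / (k + 1)) = 0 := by
  rw [Finset.sum_sub_distrib, h, Finset.sum_const, Finset.card_range, nsmul_eq_mul]
  have := kp_ne k
  push_cast
  field_simp
  ring

theorem phase {k n : ℕ} {θ : ℂ} {ζ : ℕ → ℂ} (h : ∑ j ∈ range (k + 1), ζ j = θ) :
    ∏ j ∈ range (k + 1), Complex.exp (Complex.I *
      (2 * n * ((k + 1) * (ζ j - θ / (k + 1)) / θ).im : ℝ)) = 1 := by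
  rw [← Complex.exp_sum, ← Finset.mul_sum, ← Complex.ofReal_sum, ← Finset.mul_sum,
    ← Complex.im_sum]
  have h1 : ∑ j ∈ range (k + 1), ((k : ℂ) + 1) * (ζ j - θ / (k + 1)) / θ = 0 := by
    rw [← Finset.sum_div, ← Finset.mul_sum, sum_sub h]
    simp
  rw [h1]
  simp

theorem CC_mul {a g : ℂ → ℂ} {τ : ℂ} (ha : Continuous a) (hg : CC g) :
    CC (fun ζ => a (ζ - τ) * g ζ) :=
  ⟨(ha.comp (continuous_id.sub continuous_const)).mul hg.1,
    hg.2.mul_left (f := fun ζ => a (ζ - τ))⟩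

end Blk1KAux

open Blk1KAux

theorem blk1K (hE : StmtErrK) (hEL : StmtErrLK) (hM : StmtMPt) (hKP : StmtKKP) (hC : StmtCV)
    (_ : StmtCV2) (hF : Four.StmtFac) (_ : Four.StmtBase) : StmtBlk1K := by
  intro k M L m ε hk hM1 hm hmL hε
  have hm4 : 4 ≤ m := by
    by_contra hcon
    have h1 : 2 ^ m ≤ 2 ^ 3 := Nat.pow_le_pow_right (by norm_num) (by omega)
    omega
  have hpi := Real.pi_gt_three
  obtain ⟨C, hC0, hEr⟩ := hE k M L m hk hM1 hm hmL
  set P : ℝ := (2 * Real.pi) ^ (k + 1) with hP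
  have hPpos : 0 < P := by positivity
  set ε1 : ℝ := ε / Real.pi ^ (k + 1) with hε1
  have hε1pos : 0 < ε1 := by positivity
  set Q : ℝ := (1 + 1 / ε) * ((k : ℝ) + 1) ^ 2 * P * C ^ (2 * k) with hQ
  have hQpos : 0 < Q := by positivity
  set e : ℝ := min ε (Real.sqrt (ε1 / Q)) with he
  have he0 : 0 < e := lt_min hε (Real.sqrt_pos.2 (by positivity))
  have heε : e ≤ ε := min_le_left _ _
  have heQ : Q * e ^ 2 ≤ ε1 := by
    have h1 : e ^ 2 ≤ ε1 / Q := by
      have h2 : e ≤ Real.sqrt (ε1 / Q) := min_le_right _ _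
      have h3 := pow_le_pow_left₀ he0.le h2 2
      rwa [Real.sq_sqrt (by positivity)] at h3
    rw [le_div_iff₀ hQpos] at h1
    linarith
  set f : ℝ := min 1 (Real.sqrt (ε1 / P)) with hf
  have hf0 : 0 < f := lt_min one_pos (Real.sqrt_pos.2 (by positivity))
  have hf1 : f ≤ 1 := min_le_left _ _
  have hfP : P * f ^ (2 * (k + 1)) ≤ ε1 := by
    have h1 : f ^ 2 ≤ ε1 / P := by
      have h2 : f ≤ Real.sqrt (ε1 / P) := min_le_right _ _
      have h3 := pow_le_pow_left₀ hf0.le h2 2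
      rwa [Real.sq_sqrt (by positivity)] at h3
    rw [le_div_iff₀ hPpos] at h1
    have h4 : f ^ (2 * (k + 1)) ≤ f ^ 2 := pow_le_pow_of_le_one hf0.le hf1 (by omega)
    nlinarith
  obtain ⟨η, n₁, hη0, hη1, hηe, hn₁, hErr⟩ := hEr e he0
  obtain ⟨n₂, hn₂, hLo⟩ := hEL k M L m f hk hM1 hm hmL hf0
  refine ⟨η, max n₁ n₂, hη0, hη1, hηe.trans heε, hn₁.trans (le_max_left _ _),
    fun n hn s g hg => ?_⟩
  have hn1 : n₁ ≤ n := (le_max_left _ _).trans hn
  have hn2 : n₂ ≤ n := (le_max_right _ _).trans hn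
  have hnpos : (0 : ℝ) < n := by
    have : 1 ≤ n := hn₁.trans hn1
    exact_mod_cast this
  set r : ℝ := win n M s L with hr
  have hrpos : 0 < r := by
    rw [hr]; unfold win
    have : 0 < Real.sqrt n := Real.sqrt_pos.2 hnpos
    positivity
  set gb : ℂ → ℂ := cut (bd s (s + L)) g with hgb
  have hgbc : CC gb := (hF.2.2.2.2.1 g s (s + L) hg).2.1
  set κ : ℂ → ℝ := bd (s + m) (s + L - m) with hκd
  set G : ℂ → ℂ := cut κ (mg n g) with hG
  have hκ : ∀ ζ, G ζ = (κ ζ : ℂ) * (mm n ζ * gb ζ) :=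
    fun ζ => Blk1Aux.cut_eq hF n s hm4 hmL g ζ
  obtain ⟨Om, hOm0, hOmi, hOml, hOmb⟩ := hM k r (fun _ => gb) hrpos (fun _ _ => hgbc)
  obtain ⟨hKi, hKl⟩ := hKP k r gb hrpos hgbc
  have hrK : 0 < r ^ (2 * (k + 1)) := by positivity
  -- the error term
  refine ⟨fun θ => ε1 / r ^ (2 * (k + 1)) * Om θ, fun θ => mul_nonneg (by positivity) (hOm0 θ),
    hOmi.const_mul _, ?_, ?_, ?_, ?_⟩
  · rw [integral_const_mul]
    have h1 : ∫ x, ∏ j ∈ range (k + 1), ∫ y, KK r (x - y) * ‖iF gb y‖ ^ 2 =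
        ∫ x, (∫ y, KK r (x - y) * ‖iF gb y‖ ^ 2) ^ (k + 1) := by
      congr 1
      ext x
      rw [Finset.prod_const, Finset.card_range]
    have h2 : ∫ θ, Om θ ≤ r ^ (2 * (k + 1)) * (Real.pi ^ (k + 1) * NK (k + 1) gb) := by
      refine hOml.trans (mul_le_mul_of_nonneg_left ?_ hrK.le)
      rw [h1]
      exact hKl
    calc ε1 / r ^ (2 * (k + 1)) * ∫ θ, Om θ
        ≤ ε1 / r ^ (2 * (k + 1)) * (r ^ (2 * (k + 1)) * (Real.pi ^ (k + 1) * NK (k + 1) gb)) :=
          mul_le_mul_of_nonneg_left h2 (by positivity)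
      _ = ε * NK (k + 1) gb := by
          rw [hε1]
          field_simp
  · intro θ hθ q hq
    obtain ⟨hSm, hSc, hSd⟩ := hErr n hn1 s θ q hθ hq
    have hθ0 : θ ≠ 0 := by
      intro h1
      have h2 := hθ.1
      rw [h1, norm_zero] at h2
      have : (0 : ℝ) < (2 : ℝ) ^ (s + m : ℤ) := by positivity
      linarith
    set τ : ℂ := θ / (k + 1) with hτ
    have hτ0 : τ ≠ 0 := div_ne_zero hθ0 (kp_ne k)
    have hmm : mm n τ ≠ 0 := Blk1Aux.mm_ne n hτ0
    set v : ℕ → ℂ → ℂ := fun _ ζ => smK k n r s L m θ (ζ - τ) * gb ζ with hv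
    set w : ℕ → ℂ → ℂ := fun _ ζ => scK k n r s L m θ q (ζ - τ) * gb ζ with hw
    obtain ⟨-, hcv2, -, hcv4, -, -⟩ := hC k
    -- first identity
    have hid1 : AK k r (fun _ => G) θ = mm n τ ^ (k + 1) * cv k v θ := by
      have h1 := hcv2 (fun _ ζ => ga r (ζ - τ) * G ζ) v 1 (mm n τ ^ (k + 1)) θ (by
        intro ζ hζ
        have h2 : mm n τ ^ (k + 1) * ∏ j ∈ range (k + 1), v j (ζ j) =
            ∏ j ∈ range (k + 1), ((ga r (ζ j - τ) * G (ζ j)) * Complex.exp (Complex.I *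
              (2 * n * ((k + 1) * (ζ j - τ) / θ).im : ℝ))) := by
          have h3 : mm n τ ^ (k + 1) = ∏ j ∈ range (k + 1), mm n τ := by
            rw [Finset.prod_const, Finset.card_range]
          rw [h3, ← Finset.prod_mul_distrib]
          refine Finset.prod_congr rfl fun j _ => ?_
          have h4 : τ + (ζ j - τ) = ζ j := by ring
          show mm n τ * (smK k n r s L m θ (ζ j - τ) * gb (ζ j)) = _
          unfold smK ga
          rw [← hτ, h4, hκ, ← hκd]
          push_cast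
          field_simp
        have h5 : ∏ j ∈ range (k + 1), Complex.exp (Complex.I *
            (2 * n * ((k + 1) * (ζ j - τ) / θ).im : ℝ)) = 1 := phase hζ
        have h6 := Finset.prod_mul_distrib (s := range (k + 1))
          (f := fun j => ga r (ζ j - τ) * G (ζ j)) (g := fun j => Complex.exp (Complex.I *
            (2 * n * ((k + 1) * (ζ j - τ) / θ).im : ℝ)))
        rw [one_mul, h2, h6, h5, mul_one])
      rw [one_mul] at h1
      exact h1
    -- second identity
    have hid2 : cv k w θ = (κ (q / (k + 1)) : ℂ) ^ (k + 1) *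
        MF k (fun _ => csK k n r q) (fun _ => gb) θ := by
      have h1 := hcv2 w (fun _ ζ => csK k n r q (ζ - τ) * gb ζ) 1
        ((κ (q / (k + 1)) : ℂ) ^ (k + 1)) θ (by
        intro ζ _
        have h3 : (κ (q / (k + 1)) : ℂ) ^ (k + 1) =
            ∏ j ∈ range (k + 1), (κ (q / (k + 1)) : ℂ) := by
          rw [Finset.prod_const, Finset.card_range]
        rw [one_mul, h3, ← Finset.prod_mul_distrib]
        refine Finset.prod_congr rfl fun j _ => ?_
        have h4 : τ + (ζ j - τ) = ζ j := by ring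
        show scK k n r s L m θ q (ζ j - τ) * gb (ζ j) = _
        by_cases h5 : gb (ζ j) = 0
        · rw [h5]; simp
        · have h6 := Blk1Aux.chi_one hF s L (g := g) h5
          unfold scK
          rw [← hτ, h4, h6, ← hκd]
          push_cast
          ring)
      rw [one_mul] at h1
      exact h1
    -- telescoping
    have hvc : ∀ j ≤ k, CC (v j) := fun j _ => CC_mul hSm.1.continuous hgbc
    have hwc : ∀ j ≤ k, CC (w j) := fun j _ => CC_mul hSc.1.continuous hgbc
    have htel := hcv4 v w hvc hwc θ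
    have hterm : ∀ j ∈ range (k + 1), ‖cv k (fun i ζ => if i < j then w i ζ else if i = j then
        v i ζ - w i ζ else v i ζ) θ‖ ^ 2 ≤
        (2 * Real.pi * e ^ 2 / r ^ 2) * (2 * Real.pi * C ^ 2 / r ^ 2) ^ k * Om θ := by
      intro j hj
      have h1 : (fun (i : ℕ) (ζ : ℂ) => if i < j then w i ζ else if i = j then
          v i ζ - w i ζ else v i ζ) = fun (i : ℕ) (ζ : ℂ) =>
          (fun (i : ℕ) (δ : ℂ) => if i < j then scK k n r s L m θ q δ else if i = j then
            smK k n r s L m θ δ - scK k n r s L m θ q δ else smK k n r s L m θ δ) i (ζ - τ) *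
            (fun _ => gb) i ζ := by
        ext i ζ
        simp only [hv, hw]
        split_ifs <;> ring
      rw [h1]
      have h2 := MF_le (k := k) hrpos hOm0 hOmb
        (fun (i : ℕ) (δ : ℂ) => if i < j then scK k n r s L m θ q δ else if i = j then
            smK k n r s L m θ δ - scK k n r s L m θ q δ else smK k n r s L m θ δ)
        (fun i => if i = j then e else C) (by
          intro i _
          show 0 ≤ if i = j then e else C
          split_ifs
          · exact he0.le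
          · exact hC0.le) (by
          intro i _
          rcases lt_trichotomy i j with h3 | h3 | h3
          · simp only [if_pos h3, if_neg h3.ne]
            exact hSc
          · subst h3
            simp only [lt_irrefl, if_false, if_true]
            exact hSd
          · simp only [if_neg (not_lt.2 h3.le), if_neg h3.ne']
            exact hSm) θ
      have h3 : ∏ i ∈ range (k + 1), (2 * Real.pi * (if i = j then e else C) ^ 2 / r ^ 2) =
          ∏ i ∈ range (k + 1), (if i = j then (2 * Real.pi * e ^ 2 / r ^ 2) else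
            (2 * Real.pi * C ^ 2 / r ^ 2)) := by
        refine Finset.prod_congr rfl fun i _ => ?_
        split_ifs <;> rfl
      rw [h3, prod_one k j hj] at h2
      exact h2
    have hD : ‖cv k v θ - cv k w θ‖ ^ 2 ≤ ((k : ℝ) + 1) ^ 2 *
        ((2 * Real.pi * e ^ 2 / r ^ 2) * (2 * Real.pi * C ^ 2 / r ^ 2) ^ k * Om θ) := by
      rw [htel]
      set b := (2 * Real.pi * e ^ 2 / r ^ 2) * (2 * Real.pi * C ^ 2 / r ^ 2) ^ k * Om θ with hb
      have h1 := norm_sum_le (range (k + 1)) (fun j => cv k (fun i ζ => if i < j then w i ζ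
        else if i = j then v i ζ - w i ζ else v i ζ) θ)
      have h2 := pow_le_pow_left₀ (norm_nonneg _) h1 2
      have h3 := sq_sum_le_card_mul_sum_sq (s := range (k + 1)) (f := fun j => ‖cv k (fun i ζ =>
        if i < j then w i ζ else if i = j then v i ζ - w i ζ else v i ζ) θ‖)
      rw [Finset.card_range] at h3
      have h4 : ∑ j ∈ range (k + 1), ‖cv k (fun i ζ => if i < j then w i ζ else if i = j then
          v i ζ - w i ζ else v i ζ) θ‖ ^ 2 ≤ ((k : ℝ) + 1) * b := by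
        refine (Finset.sum_le_sum hterm).trans (le_of_eq ?_)
        rw [Finset.sum_const, Finset.card_range, nsmul_eq_mul]
        push_cast
        ring
      have h5 : ((k + 1 : ℕ) : ℝ) * ∑ j ∈ range (k + 1), ‖cv k (fun i ζ => if i < j then w i ζ
          else if i = j then v i ζ - w i ζ else v i ζ) θ‖ ^ 2 ≤ ((k : ℝ) + 1) ^ 2 * b := by
        have h6 := mul_le_mul_of_nonneg_left h4 (by positivity : (0 : ℝ) ≤ (k : ℝ) + 1)
        push_cast
        nlinarith
      exact h2.trans (h3.trans h5)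
    -- conclusion
    rw [hid1, norm_mul, mul_pow]
    have h8 : ‖mm n τ ^ (k + 1)‖ ^ 2 ≤ 1 := by
      rw [norm_pow]
      have := Blk1Aux.norm_mm_le n τ
      exact pow_le_one₀ (by positivity) (pow_le_one₀ (norm_nonneg _) this)
    have h9 := Blk1Aux.split_sq hε (x := cv k w θ) (y := cv k v θ - cv k w θ)
    have h9' : cv k w θ + (cv k v θ - cv k w θ) = cv k v θ := by ring
    rw [h9'] at h9
    have h10 : ‖cv k w θ‖ ^ 2 = κ (q / (k + 1)) ^ (2 * (k + 1)) *
        ‖MF k (fun _ => csK k n r q) (fun _ => gb) θ‖ ^ 2 := by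
      rw [hid2, norm_mul, mul_pow, norm_pow, Complex.norm_real, Real.norm_eq_abs, ← pow_mul,
        mul_comm (k + 1) 2, pow_mul, sq_abs, ← pow_mul]
    rw [h10] at h9
    have h11 : (1 + 1 / ε) * ‖cv k v θ - cv k w θ‖ ^ 2 ≤ ε1 / r ^ (2 * (k + 1)) * Om θ := by
      have h12 := mul_le_mul_of_nonneg_left hD (by positivity : (0 : ℝ) ≤ 1 + 1 / ε)
      refine h12.trans ?_
      have h13 : (1 + 1 / ε) * (((k : ℝ) + 1) ^ 2 *
          ((2 * Real.pi * e ^ 2 / r ^ 2) * (2 * Real.pi * C ^ 2 / r ^ 2) ^ k * Om θ)) =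
          (Q * e ^ 2) / r ^ (2 * (k + 1)) * Om θ := by
        rw [hQ, hP, div_pow, mul_pow (2 * Real.pi) (C ^ 2) k, pow_succ (2 * Real.pi) k,
          pow_mul C 2 k, show r ^ (2 * (k + 1)) = (r ^ 2) ^ k * r ^ 2 by
            rw [← pow_succ, ← pow_mul]]
        field_simp
      rw [h13]
      refine mul_le_mul_of_nonneg_right ?_ (hOm0 θ)
      exact div_le_div_of_nonneg_right heQ hrK.le
    have h14 : ‖mm n τ ^ (k + 1)‖ ^ 2 * ‖cv k v θ‖ ^ 2 ≤ 1 * ‖cv k v θ‖ ^ 2 :=
      mul_le_mul_of_nonneg_right h8 (by positivity)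
    rw [one_mul] at h14
    exact h14.trans (h9.trans (by linarith))
  · intro θ hθ
    have hSl := hLo n hn2 s θ hθ
    have hid : AK k r (fun _ => G) θ =
        MF k (fun _ => slK k n r s L m θ) (fun _ => gb) θ := by
      unfold AK MF
      congr 1
      ext j ζ
      have h4 : θ / (k + 1) + (ζ - θ / (k + 1)) = ζ := by ring
      show ga r (ζ - θ / (k + 1)) * G ζ = slK k n r s L m θ (ζ - θ / (k + 1)) * gb ζ
      unfold slK ga
      rw [h4, hκ, ← hκd]
      push_cast
      ring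
    rw [hid]
    have h2 := MF_le (k := k) hrpos hOm0 hOmb (fun _ => slK k n r s L m θ) (fun _ => f)
      (fun _ _ => hf0.le) (fun _ _ => hSl) θ
    refine h2.trans (mul_le_mul_of_nonneg_right ?_ (hOm0 θ))
    rw [Finset.prod_const, Finset.card_range, div_pow, mul_pow, ← pow_mul, ← pow_mul]
    exact div_le_div_of_nonneg_right hfP hrK.le
  · intro θ hθ
    by_contra hne
    obtain ⟨-, -, hcv3, -, -, -⟩ := hC k
    obtain ⟨ζ, hsum, hnz⟩ := hcv3 _ θ hne
    have hab : s + (m : ℤ) ≤ s + L - m := by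
      have : (2 * m : ℤ) < L := by exact_mod_cast hmL
      linarith
    have hb : ∀ j ∈ range (k + 1), ‖ζ j‖ ≤ (2 : ℝ) ^ (s + L - m + 1) := by
      intro j hj
      have hj' : j ≤ k := Nat.lt_succ_iff.1 (Finset.mem_range.1 hj)
      have h1 := hnz j hj'
      have h2 : κ (ζ j) ≠ 0 := by
        intro h3
        apply h1
        show ga r (ζ j - θ / (k + 1)) * G (ζ j) = 0
        rw [hκ, h3]
        simp
      have h3 := (Blk1Aux.bd_ne hF hab h2).2
      have e1 : (2 : ℝ) ^ (s + L - m + 1) = 2 * (2 : ℝ) ^ (s + L - m) := by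
        rw [zpow_add₀ (by norm_num : (2 : ℝ) ≠ 0) (s + L - m) 1]; simp; ring
      rw [e1]
      have e2 : 0 < (2 : ℝ) ^ (s + L - m) := by positivity
      have e3 : ‖ζ j‖ ^ 2 ≤ (2 * (2 : ℝ) ^ (s + L - m)) ^ 2 := by nlinarith
      exact abs_le_of_sq_le_sq' e3 (by positivity) |>.2
    have h1 : ‖θ‖ ≤ ((k : ℝ) + 1) * (2 : ℝ) ^ (s + L - m + 1) := by
      rw [← hsum]
      refine (norm_sum_le _ _).trans ((Finset.sum_le_sum hb).trans (le_of_eq ?_))
      rw [Finset.sum_const, Finset.card_range, nsmul_eq_mul]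
      push_cast
      ring
    linarith

end Pool.Agent.Lib.MP_dd244f_an.Even
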