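import Pool.Agent.Lib.MP_dd244f_an.Even.Stmts
import Pool.Agent.Lib.MP_dd244f_an.Four.BlkAvg

/-!
Full operator, even `p = 2 (k + 1)`: averaging the chirp inequality over discs (`StmtBlkAvgK`).
-/

set_option autoImplicit false

namespace Pool.Agent.Lib.MP_dd244f_an.Even

open MeasureTheory Filter Topology
open scoped ENNReal
open Pool.Agent.Lib.MP_dd244f_an.Four Pool.Agent.Lib.MP_dd244f_an.Four.BlkP

namespace BlkK

/-! ### measurability and bounds of the multilinear forms -/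

theorem meas_cv {α : Type*} [MeasurableSpace α] (k : ℕ) {u : ℕ → α → ℂ → ℂ}
    (hu : ∀ j, Measurable (fun w : α × ℂ => u j w.1 w.2)) :
    Measurable (fun w : α × ℂ => cv k (fun j => u j w.1) w.2) := by
  induction k with
  | zero => exact hu 0
  | succ k ih =>
    have h1 : Measurable (fun w : (α × ℂ) × ℂ => (1 : ℂ) * (u (k + 1) w.1.1 (w.1.2 / 2 + w.2) *
        cv k (fun j => u j w.1.1) (w.1.2 / 2 - w.2))) := by
      have a1 := (hu (k + 1)).comp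
        (by fun_prop : Measurable fun w : (α × ℂ) × ℂ => (w.1.1, w.1.2 / 2 + w.2))
      have a2 := ih.comp
        (by fun_prop : Measurable fun w : (α × ℂ) × ℂ => (w.1.1, w.1.2 / 2 - w.2))
      exact measurable_const.mul (a1.mul a2)
    exact (h1.stronglyMeasurable.integral_prod_right' (ν := (volume : Measure ℂ))).measurable

theorem meas_MF (k : ℕ) {a : ℂ → ℂ → ℂ} (ha : Measurable (fun w : ℂ × ℂ => a w.1 w.2)) {g : ℂ → ℂ}
    (hg : CC g) : Measurable (fun z : ℂ × ℂ => MF k (fun _ => a z.2) (fun _ => g) z.1) := by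
  have hgm : Measurable g := hg.1.measurable
  have h1 := meas_cv (α := ℂ × ℂ) k (u := fun _ z ζ => a z.2 (ζ - z.1 / (k + 1)) * g ζ) (by
    intro j
    have a1 := ha.comp
      (by fun_prop : Measurable fun w : (ℂ × ℂ) × ℂ => (w.1.2, w.2 - w.1.1 / ((k : ℂ) + 1)))
    exact a1.mul (hgm.comp measurable_snd))
  exact h1.comp (by fun_prop : Measurable fun z : ℂ × ℂ => (z, z.1))

theorem cc_bound {g : ℂ → ℂ} (hg : CC g) : ∃ S : ℝ, 0 ≤ S ∧ ∀ ζ, ‖g ζ‖ ≤ S := by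
  obtain ⟨S, hS⟩ := hg.1.bounded_above_of_compact_support hg.2
  exact ⟨S, (norm_nonneg _).trans (hS 0), hS⟩

theorem norm_cv_le {g : ℂ → ℂ} (hg : CC g) {S : ℝ} (hS : ∀ ζ, ‖g ζ‖ ≤ S) (k : ℕ) {u : ℕ → ℂ → ℂ}
    (hu : ∀ j ζ, ‖u j ζ‖ ≤ ‖g ζ‖) (θ : ℂ) : ‖cv k u θ‖ ≤ S * (∫ ζ, ‖g ζ‖) ^ k := by
  induction k generalizing θ with
  | zero =>
    rw [pow_zero, mul_one]
    exact (hu 0 θ).trans (hS θ)
  | succ k ih =>
    have hgi : Integrable (fun ζ => ‖g ζ‖) := (hg.1.integrable_of_hasCompactSupport hg.2).norm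
    have hb : Integrable (fun δ => ‖g (θ / 2 + δ)‖ * (S * (∫ ζ, ‖g ζ‖) ^ k)) :=
      (hgi.comp_add_left (θ / 2)).mul_const _
    show ‖bil (fun _ => 1) (u (k + 1)) (cv k u) θ‖ ≤ _
    unfold bil
    refine (norm_integral_le_of_norm_le hb (Eventually.of_forall fun δ => ?_)).trans ?_
    · show ‖(1 : ℂ) * (u (k + 1) (θ / 2 + δ) * cv k u (θ / 2 - δ))‖ ≤ _
      rw [one_mul, norm_mul]
      exact mul_le_mul (hu _ _) (ih _) (norm_nonneg _) (norm_nonneg _)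
    · rw [integral_mul_const, integral_add_left_eq_self (fun ζ => ‖g ζ‖) (θ / 2), pow_succ]
      apply le_of_eq
      ring

theorem norm_MF_le {g : ℂ → ℂ} (hg : CC g) {S : ℝ} (hS : ∀ ζ, ‖g ζ‖ ≤ S) (k : ℕ) {a : ℂ → ℂ}
    (ha : ∀ δ, ‖a δ‖ ≤ 1) (θ : ℂ) :
    ‖MF k (fun _ => a) (fun _ => g) θ‖ ≤ S * (∫ ζ, ‖g ζ‖) ^ k := by
  refine norm_cv_le hg hS k (fun j ζ => ?_) θ
  show ‖a (ζ - θ / (k + 1)) * g ζ‖ ≤ ‖g ζ‖
  rw [norm_mul]
  calc _ ≤ 1 * ‖g ζ‖ := mul_le_mul_of_nonneg_right (ha _) (norm_nonneg _)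
    _ = _ := one_mul _

theorem norm_ga_le (σ : ℝ) (δ : ℂ) : ‖ga σ δ‖ ≤ 1 := by
  unfold ga
  rw [Complex.norm_real, Real.norm_eq_abs, abs_of_pos (Real.exp_pos _)]
  apply Real.exp_le_one_iff.2
  have := Real.pi_pos
  have : 0 ≤ Real.pi * σ ^ 2 * ‖δ‖ ^ 2 := by positivity
  linarith

theorem norm_csK_le (k n : ℕ) (r : ℝ) (q δ : ℂ) : ‖csK k n r q δ‖ ≤ 1 := by
  unfold csK
  rw [Complex.norm_exp]
  have e : (((-(Real.pi * r ^ 2 * ‖δ‖ ^ 2) : ℝ) : ℂ)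
      + Complex.I * (n * ((k : ℝ) + 1) ^ 2 / ‖q‖ ^ 2 * (δ ^ 2 * (‖q‖ / q) ^ 2).im : ℝ)).re =
      -(Real.pi * r ^ 2 * ‖δ‖ ^ 2) := by
    rw [Complex.add_re, Complex.ofReal_re, Complex.mul_re, Complex.I_re, Complex.I_im,
      Complex.ofReal_im]
    ring
  rw [e]
  apply Real.exp_le_one_iff.2
  have := Real.pi_pos
  have : 0 ≤ Real.pi * r ^ 2 * ‖δ‖ ^ 2 := by positivity
  linarith

theorem meas_csK (k n : ℕ) (r : ℝ) : Measurable (fun w : ℂ × ℂ => csK k n r w.1 w.2) := by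
  unfold csK
  fun_prop

theorem meas_AK (k : ℕ) (σ : ℝ) {g : ℂ → ℂ} (hg : CC g) :
    Measurable (fun θ : ℂ => AK k σ (fun _ => g) θ) := by
  have h1 : Measurable (fun w : ℂ × ℂ => (fun _ : ℂ => ga σ) w.1 w.2) := by
    unfold ga
    fun_prop
  have h2 := (meas_MF k (a := fun _ => ga σ) h1 hg).comp
    (by fun_prop : Measurable fun θ : ℂ => (θ, (0 : ℂ)))
  exact h2

theorem meas_MFc (k n : ℕ) (r : ℝ) {g : ℂ → ℂ} (hg : CC g) (q : ℂ) :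
    Measurable (fun θ : ℂ => MF k (fun _ => csK k n r q) (fun _ => g) θ) := by
  have h2 := (meas_MF k (meas_csK k n r) hg).comp (by fun_prop : Measurable fun θ : ℂ => (θ, q))
  exact h2

theorem norm_AK_le {g : ℂ → ℂ} (hg : CC g) {S : ℝ} (hS : ∀ ζ, ‖g ζ‖ ≤ S) (k : ℕ) (σ : ℝ) (θ : ℂ) :
    ‖AK k σ (fun _ => g) θ‖ ≤ S * (∫ ζ, ‖g ζ‖) ^ k :=
  norm_MF_le hg hS k (norm_ga_le σ) θ

theorem csK_eq (k n : ℕ) (r : ℝ) (q : ℂ) : csK k n r q = fun δ =>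
    Complex.exp ((-(Real.pi * r ^ 2 * ‖δ‖ ^ 2) : ℝ)
      + Complex.I * (n * ((k : ℝ) + 1) ^ 2 / ‖q‖ ^ 2 * (δ ^ 2 * (‖q‖ / q) ^ 2).im : ℝ)) := rfl

attribute [local irreducible] csK MF AK

/-! ### the chirp inequality -/

/-- the constant of the chirp inequality -/
noncomputable def Lam (k n : ℕ) (σ r : ℝ) (q : ℂ) : ℝ :=
  (1 + (n * ((k : ℝ) + 1) ^ 2 / ‖q‖ ^ 2) ^ 2 / (Real.pi * (r ^ 2 - σ ^ 2)) ^ 2) ^ k

theorem wk_eq (k : ℕ) {σ τ : ℝ} (hτ : τ ^ 2 = 2 * σ ^ 2 / (k + 1)) (θ ξ : ℂ) :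
    wk k σ (ξ / (k + 1)) θ = Real.exp (-(Real.pi * τ ^ 2 * ‖θ - ξ‖ ^ 2)) := by
  unfold wk
  congr 1
  have hk : (0 : ℝ) < (k : ℝ) + 1 := by positivity
  have e1 : θ / ((k : ℂ) + 1) - ξ / (k + 1) = (θ - ξ) / (((k : ℝ) + 1 : ℝ) : ℂ) := by
    push_cast
    ring
  rw [e1, norm_div, Complex.norm_real, Real.norm_eq_abs, abs_of_pos hk, hτ]
  field_simp

theorem chirp_l (hC : StmtChirpK) {k : ℕ} {σ τ r : ℝ} (hσ : 0 < σ)
    (hτ0 : 0 < τ) (hτ : τ ^ 2 = 2 * σ ^ 2 / (k + 1)) (hr : σ < r) (n : ℕ) {q : ℂ} (hq : q ≠ 0)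
    {g : ℂ → ℂ} (hg : CC g) (ξ : ℂ) :
    ∫⁻ θ, kk τ θ ξ *
        ENNReal.ofReal (‖MF k (fun _ => csK k n r q) (fun _ => g) θ‖ ^ 2) ≤
      ENNReal.ofReal (Lam k n σ r q) *
        ∫⁻ θ, kk τ θ ξ * ENNReal.ofReal (‖AK k σ (fun _ => g) θ‖ ^ 2) := by
  obtain ⟨S, hS0, hS⟩ := cc_bound hg
  set B0 := S * (∫ ζ, ‖g ζ‖) ^ k with hB0
  have hint : Integrable (fun θ : ℂ => Real.exp (-(Real.pi * τ ^ 2 * ‖θ - ξ‖ ^ 2))) :=
    (int_gauss (b := Real.pi * τ ^ 2) (by have := Real.pi_pos; positivity)).1.comp_sub_right ξ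
  have key : ∀ F : ℂ → ℂ, Measurable F → (∀ θ, ‖F θ‖ ≤ B0) →
      ∫⁻ θ, kk τ θ ξ * ENNReal.ofReal (‖F θ‖ ^ 2) = ENNReal.ofReal (τ ^ 2) *
        ENNReal.ofReal (∫ θ, wk k σ (ξ / (k + 1)) θ * ‖F θ‖ ^ 2) := by
    intro F hF hFb
    have h1 : Integrable (fun θ => Real.exp (-(Real.pi * τ ^ 2 * ‖θ - ξ‖ ^ 2)) * ‖F θ‖ ^ 2) := by
      refine (hint.mul_const (B0 ^ 2)).mono' (by fun_prop) (Eventually.of_forall fun θ => ?_)
      rw [Real.norm_eq_abs, abs_of_nonneg (by positivity)]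
      apply mul_le_mul_of_nonneg_left _ (Real.exp_pos _).le
      exact pow_le_pow_left₀ (norm_nonneg _) (hFb θ) 2
    simp only [wk_eq k hτ]
    rw [ofReal_integral_eq_lintegral_ofReal h1 (Eventually.of_forall fun θ => by positivity),
      ← lintegral_const_mul' _ _ ENNReal.ofReal_ne_top]
    refine lintegral_congr fun θ => ?_
    unfold kk
    rw [← ENNReal.ofReal_mul (by positivity), ← ENNReal.ofReal_mul (by positivity)]
    ring_nf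
  rw [key _ (meas_MFc k n r hg q) (fun θ => norm_MF_le hg hS k (norm_csK_le k n r q) θ),
    key _ (meas_AK k σ hg) (fun θ => norm_AK_le hg hS k σ θ)]
  have hu : ‖((‖q‖ : ℂ) / q)‖ = 1 := by
    rw [norm_div, Complex.norm_real, norm_norm, div_self (norm_ne_zero_iff.2 hq)]
  have h := hC k σ r (n * ((k : ℝ) + 1) ^ 2 / ‖q‖ ^ 2) ((‖q‖ : ℂ) / q) (ξ / (k + 1)) g hσ hr hu hg
  rw [← csK_eq] at h
  rw [mul_left_comm (ENNReal.ofReal (Lam k n σ r q))]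
  refine mul_le_mul' le_rfl ?_
  rw [← ENNReal.ofReal_mul (by unfold Lam; positivity)]
  exact ENNReal.ofReal_le_ofReal h

/-! ### averaging over discs, general form -/

section general

variable {τ ℓ μ : ℝ} {G : ℂ → ℝ≥0∞} {B : ℂ × ℂ → ℝ≥0∞}

/-- the inequality for one centre `q` -/
theorem inner_le (hτ : 0 < τ) (hℓ : 0 < ℓ) (hμ : 0 < μ)
    (hbig : 2 * Real.exp (-(Real.pi * τ ^ 2 / 2 * (μ * ℓ) ^ 2)) ≤ μ / (1 + μ)) {q : ℂ}
    (hG : Measurable G) (hB : Measurable (fun θ => B (θ, q))) {Λ : ℝ}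
    (hchirp : ∀ ξ, ∫⁻ θ, kk τ θ ξ * B (θ, q) ≤ ENNReal.ofReal Λ * ∫⁻ θ, kk τ θ ξ * G θ) :
    ∫⁻ θ, ww ℓ q θ * B (θ, q) ≤
      ENNReal.ofReal ((1 + μ) * Λ) * ∫⁻ θ, GG τ ((1 + μ) * ℓ) q θ * G θ := by
  have h1 : ∀ θ, ww ℓ q θ ≤ ENNReal.ofReal (1 + μ) * GG τ ((1 + μ) * ℓ) q θ := by
    intro θ
    by_cases h : ‖q - θ‖ ≤ ℓ
    · rw [ww_of_le h]
      exact GG_ge hτ hℓ hμ hμ hbig h
    · rw [ww_of_lt (not_le.1 h)]
      exact zero_le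
  calc ∫⁻ θ, ww ℓ q θ * B (θ, q)
      ≤ ∫⁻ θ, ENNReal.ofReal (1 + μ) * (GG τ ((1 + μ) * ℓ) q θ * B (θ, q)) := by
        refine lintegral_mono fun θ => ?_
        rw [← mul_assoc]
        exact mul_le_mul' (h1 θ) le_rfl
    _ = ENNReal.ofReal (1 + μ) *
          ∫⁻ ξ, ww ((1 + μ) * ℓ) q ξ * ∫⁻ θ, kk τ θ ξ * B (θ, q) := by
        rw [lintegral_const_mul' _ _ ENNReal.ofReal_ne_top,
          swapG τ ((1 + μ) * ℓ) q (b := fun θ => B (θ, q)) hB]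
    _ ≤ ENNReal.ofReal (1 + μ) * ∫⁻ ξ, ENNReal.ofReal Λ *
            (ww ((1 + μ) * ℓ) q ξ * ∫⁻ θ, kk τ θ ξ * G θ) := by
        refine mul_le_mul' le_rfl (lintegral_mono fun ξ => ?_)
        rw [mul_left_comm]
        exact mul_le_mul' le_rfl (hchirp ξ)
    _ = _ := by
        rw [lintegral_const_mul' _ _ ENNReal.ofReal_ne_top, ← swapG _ _ _ hG, ← mul_assoc,
          ← ENNReal.ofReal_mul (by positivity)]

/-- the main estimate, for the lower Lebesgue integral -/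
theorem main_l {R A : ℝ} (hτ : 0 < τ) (hℓ : 0 < ℓ) (hμ : 0 < μ) (hR : 0 ≤ R) (hA : 0 ≤ A)
    (hbig : 2 * Real.exp (-(Real.pi * τ ^ 2 / 2 * (μ * ℓ) ^ 2)) ≤ μ / (1 + μ))
    (hG : Measurable G) (hB : Measurable B) {c W Λ : ℂ → ℝ} (hcm : Measurable c)
    (hWm : Measurable W)
    (hc0 : ∀ q, 0 ≤ c q) (hc1 : ∀ q, c q ≤ 1) {J : Set ℂ} (hJ : MeasurableSet J)
    (hfar : ∀ θ ∉ J, ∀ q, c q ≠ 0 → ∀ ξ, ‖q - ξ‖ ≤ (1 + μ) * ℓ → R ≤ ‖θ - ξ‖)
    (hchirp : ∀ q, c q ≠ 0 → ∀ ξ,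
      ∫⁻ θ, kk τ θ ξ * B (θ, q) ≤ ENNReal.ofReal (Λ q) * ∫⁻ θ, kk τ θ ξ * G θ)
    (hnum : ∀ q, c q ≠ 0 → 0 ≤ W q ∧ W q * ((1 + μ) * Λ q) ≤ A) :
    ∫⁻ z in {z : ℂ × ℂ | z.1 ∈ J ∧ ‖z.2 - z.1‖ ≤ ℓ}, ENNReal.ofReal (c z.2 * W z.2) * B z ≤
      ENNReal.ofReal A * (ENNReal.ofReal (Real.pi * ((1 + μ) * ℓ) ^ 2) * (∫⁻ θ in J, G θ) +
        ENNReal.ofReal (Real.pi * ((1 + μ) * ℓ) ^ 2 * (2 * Real.exp (-(Real.pi * τ ^ 2 / 2 * R ^ 2)))) *
          ∫⁻ θ, G θ) := by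
  have hD : 0 ≤ (1 + μ) * ℓ := by positivity
  have hS : MeasurableSet {z : ℂ × ℂ | z.1 ∈ J ∧ ‖z.2 - z.1‖ ≤ ℓ} :=
    (measurable_fst hJ).inter (measurableSet_le (f := fun z : ℂ × ℂ => ‖z.2 - z.1‖) (g := fun _ => ℓ)
      (by fun_prop) measurable_const)
  have hFm : Measurable (fun z : ℂ × ℂ => ENNReal.ofReal (c z.2 * W z.2) * B z) := by fun_prop
  rw [← lintegral_indicator hS, Measure.volume_eq_prod, lintegral_prod_symm _
    (hFm.indicator hS).aemeasurable]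
  -- the inner integral
  have hin : ∀ q : ℂ, ∫⁻ θ, ({z : ℂ × ℂ | z.1 ∈ J ∧ ‖z.2 - z.1‖ ≤ ℓ}).indicator (fun z : ℂ × ℂ =>
      ENNReal.ofReal (c z.2 * W z.2) * B z) (θ, q) ≤
      ENNReal.ofReal A * ∫⁻ θ, ENNReal.ofReal (c q) * GG τ ((1 + μ) * ℓ) q θ * G θ := by
    intro q
    by_cases hq : c q = 0
    · have e : ∀ θ : ℂ, ({z : ℂ × ℂ | z.1 ∈ J ∧ ‖z.2 - z.1‖ ≤ ℓ}).indicator (fun z : ℂ × ℂ =>
          ENNReal.ofReal (c z.2 * W z.2) * B z) (θ, q) = 0 := by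
        intro θ
        apply Set.indicator_apply_eq_zero.2
        intro _
        show ENNReal.ofReal (c q * W q) * B (θ, q) = 0
        rw [hq]; simp
      simp only [e, lintegral_zero]
      exact zero_le
    · obtain ⟨hW0, hWA⟩ := hnum q hq
      have h1 : ∀ θ : ℂ, ({z : ℂ × ℂ | z.1 ∈ J ∧ ‖z.2 - z.1‖ ≤ ℓ}).indicator (fun z : ℂ × ℂ =>
          ENNReal.ofReal (c z.2 * W z.2) * B z) (θ, q) ≤
          ENNReal.ofReal (c q * W q) * (ww ℓ q θ * B (θ, q)) := by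
        intro θ
        by_cases hz : ((θ, q) : ℂ × ℂ) ∈ {z : ℂ × ℂ | z.1 ∈ J ∧ ‖z.2 - z.1‖ ≤ ℓ}
        · have hz2 : ‖q - θ‖ ≤ ℓ := hz.2
          rw [Set.indicator_of_mem hz, ww_of_le hz2, one_mul]
        · rw [Set.indicator_of_notMem hz]
          exact zero_le
      calc _ ≤ ∫⁻ θ, ENNReal.ofReal (c q * W q) * (ww ℓ q θ * B (θ, q)) := lintegral_mono h1
        _ = ENNReal.ofReal (c q * W q) * ∫⁻ θ, ww ℓ q θ * B (θ, q) :=
            lintegral_const_mul' _ _ ENNReal.ofReal_ne_top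
        _ ≤ ENNReal.ofReal (c q * W q) * (ENNReal.ofReal ((1 + μ) * Λ q) *
            ∫⁻ θ, GG τ ((1 + μ) * ℓ) q θ * G θ) :=
            mul_le_mul' le_rfl (inner_le hτ hℓ hμ hbig hG
              (hB.comp (by fun_prop : Measurable fun θ : ℂ => (θ, q))) (hchirp q hq))
        _ ≤ ENNReal.ofReal (A * c q) * ∫⁻ θ, GG τ ((1 + μ) * ℓ) q θ * G θ := by
            rw [← mul_assoc, ← ENNReal.ofReal_mul (mul_nonneg (hc0 q) hW0)]
            refine mul_le_mul' (ENNReal.ofReal_le_ofReal ?_) le_rfl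
            calc _ = c q * (W q * ((1 + μ) * Λ q)) := by ring
              _ ≤ c q * A := mul_le_mul_of_nonneg_left hWA (hc0 q)
              _ = _ := mul_comm _ _
        _ = _ := by
            rw [ENNReal.ofReal_mul hA, mul_assoc, ← lintegral_const_mul' _ _ ENNReal.ofReal_ne_top]
            simp only [mul_assoc]
  calc _ ≤ ∫⁻ q, ENNReal.ofReal A * ∫⁻ θ, ENNReal.ofReal (c q) * GG τ ((1 + μ) * ℓ) q θ * G θ :=
        lintegral_mono hin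
    _ = ENNReal.ofReal A * ∫⁻ θ, (∫⁻ q, ENNReal.ofReal (c q) * GG τ ((1 + μ) * ℓ) q θ) * G θ := by
        rw [lintegral_const_mul' _ _ ENNReal.ofReal_ne_top, lintegral_lintegral_swap]
        · congr 1
          refine lintegral_congr fun θ => ?_
          rw [lintegral_mul_const]
          fun_prop
        · exact Measurable.aemeasurable (by fun_prop)
    _ ≤ _ := by
        refine mul_le_mul' le_rfl ?_
        rw [← lintegral_add_compl _ hJ]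
        refine add_le_add ?_ ?_
        · rw [← lintegral_const_mul' _ _ ENNReal.ofReal_ne_top]
          exact lintegral_mono fun θ => mul_le_mul' (H_le hτ hD hc1 θ) le_rfl
        · calc _ ≤ ∫⁻ θ in Jᶜ, ENNReal.ofReal (Real.pi * ((1 + μ) * ℓ) ^ 2 *
                (2 * Real.exp (-(Real.pi * τ ^ 2 / 2 * R ^ 2)))) * G θ := by
                refine setLIntegral_mono (by fun_prop) fun θ hθ => ?_
                exact mul_le_mul' (H_le' hτ hD hR hc1 θ (hfar θ hθ)) le_rfl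
            _ = _ := lintegral_const_mul' _ _ ENNReal.ofReal_ne_top
            _ ≤ _ := mul_le_mul' le_rfl (setLIntegral_le_lintegral _ _)

end general

/-- conversion of the estimate for the lower Lebesgue integral -/
theorem conv_l {A a b N : ℝ} (hA : 0 ≤ A) (ha : 0 ≤ a) (hb : 0 ≤ b) {G : ℂ → ℝ}
    (hG0 : ∀ θ, 0 ≤ G θ) (hi : Integrable G) (hI : ∫ θ, G θ ≤ N) {J : Set ℂ}
    {S : Set (ℂ × ℂ)} {F : ℂ × ℂ → ℝ} (hFm : Measurable F) (hF0 : ∀ z, 0 ≤ F z)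
    (h : ∫⁻ z in S, ENNReal.ofReal (F z) ≤ ENNReal.ofReal A * (ENNReal.ofReal a *
          (∫⁻ θ in J, ENNReal.ofReal (G θ)) +
        ENNReal.ofReal b * ∫⁻ θ, ENNReal.ofReal (G θ))) :
    IntegrableOn F S ∧ ∫ z in S, F z ≤ A * (a * (∫ θ in J, G θ) + b * N) := by
  have hI0 : 0 ≤ ∫ θ, G θ := integral_nonneg hG0
  have hJ0 : 0 ≤ ∫ θ in J, G θ := integral_nonneg hG0
  have hX : ∫⁻ z in S, ENNReal.ofReal (F z) ≤
      ENNReal.ofReal (A * (a * (∫ θ in J, G θ) + b * N)) := by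
    refine h.trans ?_
    rw [← ofReal_integral_eq_lintegral_ofReal hi (Eventually.of_forall hG0),
      ← ofReal_integral_eq_lintegral_ofReal hi.integrableOn (Eventually.of_forall hG0),
      ← ENNReal.ofReal_mul ha, ← ENNReal.ofReal_mul hb, ← ENNReal.ofReal_add (by positivity) (by positivity),
      ← ENNReal.ofReal_mul hA]
    apply ENNReal.ofReal_le_ofReal
    apply mul_le_mul_of_nonneg_left _ hA
    have := mul_le_mul_of_nonneg_left hI hb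
    linarith
  have hN0 : 0 ≤ N := hI0.trans hI
  have hY0 : 0 ≤ A * (a * (∫ θ in J, G θ) + b * N) := by positivity
  refine ⟨⟨hFm.aestronglyMeasurable, ?_⟩, ?_⟩
  · rw [hasFiniteIntegral_iff_ofReal (Eventually.of_forall hF0)]
    exact lt_of_le_of_lt hX ENNReal.ofReal_lt_top
  · rw [integral_eq_lintegral_of_nonneg_ae (Eventually.of_forall hF0) hFm.aestronglyMeasurable]
    exact ENNReal.toReal_le_of_le_ofReal hY0 hX

/-! ### numerical inequalities -/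

theorem exists_consts (k : ℕ) (hk : 1 ≤ k) {e : ℝ} (he : 0 < e) : ∃ M M₂ : ℝ, 1 ≤ M ∧ 2 ≤ M₂ ∧
    (Real.pi ^ 2 / M ^ 4 + 1 / (1 - (1 / M₂) ^ 2) ^ 2) ^ k ≤ 1 + e := by
  have h1 : 1 < (1 + e) ^ ((k : ℝ)⁻¹) := Real.one_lt_rpow (by linarith) (by positivity)
  obtain ⟨δ, hδ⟩ : ∃ δ : ℝ, δ = (1 + e) ^ ((k : ℝ)⁻¹) - 1 := ⟨_, rfl⟩
  have hδ0 : 0 < δ := by linarith
  have h2 : (1 + δ) ^ k = 1 + e := by
    rw [hδ, add_sub_cancel, Real.rpow_inv_natCast_pow (by linarith) (by omega)]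
  refine ⟨1 + 20 / δ, 2 + 8 / δ, ?_, ?_, ?_⟩
  · have : 0 ≤ 20 / δ := by positivity
    linarith
  · have : 0 ≤ 8 / δ := by positivity
    linarith
  rw [← h2]
  have hx2 : 1 / (2 + 8 / δ) ≤ 1 / 2 := by
    apply div_le_div_of_nonneg_left (by norm_num) (by norm_num)
    have : 0 ≤ 8 / δ := by positivity
    linarith
  have hx3 : 1 / (2 + 8 / δ) ≤ δ / 8 := by
    rw [div_le_div_iff₀ (by positivity) (by norm_num)]
    have : δ * (2 + 8 / δ) = 2 * δ + 8 := by field_simp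
    linarith
  have hx0 : 0 < 1 / (2 + 8 / δ) := by positivity
  obtain ⟨x, hx⟩ : ∃ x : ℝ, x = (1 / (2 + 8 / δ)) ^ 2 := ⟨_, rfl⟩
  have hx4 : 0 ≤ x := by rw [hx]; positivity
  have hx5 : x ≤ 1 / 4 := by rw [hx]; nlinarith
  have hx6 : 4 * x ≤ δ / 2 := by rw [hx]; nlinarith
  rw [← hx]
  have hpi := Real.pi_gt_three
  have hpi2 := Real.pi_lt_d2
  have hM : Real.pi ^ 2 / (1 + 20 / δ) ^ 4 ≤ δ / 2 := by
    have h3 : 1 ≤ 1 + 20 / δ := by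
      have : 0 ≤ 20 / δ := by positivity
      linarith
    have h4 : 1 + 20 / δ ≤ (1 + 20 / δ) ^ 4 := le_self_pow₀ h3 (by norm_num)
    rw [div_le_iff₀ (by positivity)]
    have h5 : δ / 2 * (20 / δ) = 10 := by field_simp; norm_num
    have h6 : Real.pi ^ 2 ≤ 10 := by nlinarith
    calc Real.pi ^ 2 ≤ δ / 2 * (20 / δ) := by rw [h5]; exact h6
      _ ≤ δ / 2 * (1 + 20 / δ) ^ 4 := by
          apply mul_le_mul_of_nonneg_left _ (by positivity)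
          linarith
  have hy : 1 / (1 - x) ^ 2 ≤ 1 + δ / 2 := by
    have h1 : 0 < (1 - x) ^ 2 := by nlinarith
    rw [div_le_iff₀ h1]
    have h2 : 1 ≤ (1 + 4 * x) * (1 - x) ^ 2 := by
      have h3 : (1 + 4 * x) * (1 - x) ^ 2 - 1 = x * (2 - 7 * x + 4 * x ^ 2) := by ring
      have h4 : 0 ≤ x * (2 - 7 * x + 4 * x ^ 2) := by
        apply mul_nonneg hx4
        nlinarith
      linarith
    have h3 : (1 + 4 * x) * (1 - x) ^ 2 ≤ (1 + δ / 2) * (1 - x) ^ 2 :=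
      mul_le_mul_of_nonneg_right (by linarith) h1.le
    linarith
  refine pow_le_pow_left₀ (by positivity) ?_ k
  linarith

/-- the numerical inequality -/
theorem num_ineq {k : ℕ} {n X D M x e C₁ : ℝ} (hn : 0 < n) (hX : 0 < X)
    (hX1 : X ≤ n / M ^ 2) (hX2 : n / D ≤ X) (hD : 0 < D) (hM : 0 < M) (he : 0 ≤ e) (hC₁ : 0 ≤ C₁)
    (hx : 0 < 1 - x) (hMx : (Real.pi ^ 2 / M ^ 4 + 1 / (1 - x) ^ 2) ^ k ≤ 1 + e / 16)
    (hC : C₁ * (1 + D ^ 2 / (Real.pi ^ 2 * (1 - x) ^ 2)) ^ k ≤ e / 16 * (n / Real.pi) ^ (2 * k)) :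
    (X ^ (2 * k) + C₁) * ((1 + e / 16) * (1 + n ^ 2 / (Real.pi ^ 2 * X ^ 2 * (1 - x) ^ 2)) ^ k) ≤
      (1 + e / 16) * (1 + e / 8) * (n / Real.pi) ^ (2 * k) := by
  have hpi := Real.pi_pos
  have h1 : X ^ (2 * k) * (1 + n ^ 2 / (Real.pi ^ 2 * X ^ 2 * (1 - x) ^ 2)) ^ k ≤
      (1 + e / 16) * (n / Real.pi) ^ (2 * k) := by
    have e1 : X ^ (2 * k) * (1 + n ^ 2 / (Real.pi ^ 2 * X ^ 2 * (1 - x) ^ 2)) ^ k =
        (X ^ 2 + n ^ 2 / (Real.pi ^ 2 * (1 - x) ^ 2)) ^ k := by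
      rw [pow_mul, ← mul_pow]
      congr 1
      field_simp
    have h2 : X ^ 2 ≤ (n / Real.pi) ^ 2 * (Real.pi ^ 2 / M ^ 4) := by
      calc X ^ 2 ≤ (n / M ^ 2) ^ 2 := pow_le_pow_left₀ hX.le hX1 2
        _ = _ := by field_simp
    have h3 : X ^ 2 + n ^ 2 / (Real.pi ^ 2 * (1 - x) ^ 2) ≤
        (n / Real.pi) ^ 2 * (Real.pi ^ 2 / M ^ 4 + 1 / (1 - x) ^ 2) := by
      have e2 : (n / Real.pi) ^ 2 * (Real.pi ^ 2 / M ^ 4 + 1 / (1 - x) ^ 2) =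
          (n / Real.pi) ^ 2 * (Real.pi ^ 2 / M ^ 4) + n ^ 2 / (Real.pi ^ 2 * (1 - x) ^ 2) := by
        rw [mul_add]
        congr 1
        field_simp
      rw [e2]
      linarith
    rw [e1]
    calc _ ≤ ((n / Real.pi) ^ 2 * (Real.pi ^ 2 / M ^ 4 + 1 / (1 - x) ^ 2)) ^ k :=
          pow_le_pow_left₀ (by positivity) h3 k
      _ = (n / Real.pi) ^ (2 * k) * (Real.pi ^ 2 / M ^ 4 + 1 / (1 - x) ^ 2) ^ k := by
          rw [mul_pow, pow_mul]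
      _ ≤ (n / Real.pi) ^ (2 * k) * (1 + e / 16) := mul_le_mul_of_nonneg_left hMx (by positivity)
      _ = _ := mul_comm _ _
  have h2 : C₁ * (1 + n ^ 2 / (Real.pi ^ 2 * X ^ 2 * (1 - x) ^ 2)) ^ k ≤
      e / 16 * (n / Real.pi) ^ (2 * k) := by
    refine le_trans ?_ hC
    apply mul_le_mul_of_nonneg_left _ hC₁
    refine pow_le_pow_left₀ (by positivity) ?_ k
    have h3 : n ^ 2 ≤ D ^ 2 * X ^ 2 := by
      rw [← mul_pow]
      apply pow_le_pow_left₀ hn.le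
      rw [div_le_iff₀ hD] at hX2
      linarith
    have h4 : n ^ 2 / (Real.pi ^ 2 * X ^ 2 * (1 - x) ^ 2) ≤ D ^ 2 / (Real.pi ^ 2 * (1 - x) ^ 2) := by
      rw [div_le_div_iff₀ (by positivity) (by positivity)]
      calc n ^ 2 * (Real.pi ^ 2 * (1 - x) ^ 2) ≤ (D ^ 2 * X ^ 2) * (Real.pi ^ 2 * (1 - x) ^ 2) :=
            mul_le_mul_of_nonneg_right h3 (by positivity)
        _ = _ := by ring
    linarith
  calc _ = (1 + e / 16) * (X ^ (2 * k) * (1 + n ^ 2 / (Real.pi ^ 2 * X ^ 2 * (1 - x) ^ 2)) ^ k +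
        C₁ * (1 + n ^ 2 / (Real.pi ^ 2 * X ^ 2 * (1 - x) ^ 2)) ^ k) := by ring
    _ ≤ (1 + e / 16) * ((1 + e / 16) * (n / Real.pi) ^ (2 * k) + e / 16 * (n / Real.pi) ^ (2 * k)) :=
        mul_le_mul_of_nonneg_left (add_le_add h1 h2) (by positivity)
    _ = _ := by ring

theorem fin_ineq {e ε ε₂ E F t IJ N : ℝ} (he0 : 0 < e) (he1 : e ≤ 1) (heε : e ≤ ε) (ht0 : 0 ≤ t)
    (hE0 : 0 ≤ E) (hEF : E ≤ F) (ht1 : t ≤ ε₂ / 4) (hIJ0 : 0 ≤ IJ) (hN0 : 0 ≤ N) :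
    ((1 + e / 16) * (1 + e / 8) * E) * (1 + e / 16) ^ 2 * IJ +
      ((1 + e / 16) * (1 + e / 8) * E) * (1 + e / 16) ^ 2 * (2 * t) * N ≤
      (1 + ε) * E * IJ + ε₂ * F * N := by
  have h0 : (1 + e / 16) * (1 + e / 8) * (1 + e / 16) ^ 2 ≤ 1 + e := by
    refine le_trans ?_ (const_ineq he0 he1)
    have h1 : (1 + e / 16) ≤ (1 + e / 16) ^ 2 := le_self_pow₀ (by linarith) (by norm_num)
    apply mul_le_mul_of_nonneg_right _ (by positivity)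
    exact mul_le_mul_of_nonneg_right h1 (by positivity)
  have hAμ : ((1 + e / 16) * (1 + e / 8) * E) * (1 + e / 16) ^ 2 ≤ (1 + e) * E := by
    calc _ = ((1 + e / 16) * (1 + e / 8) * (1 + e / 16) ^ 2) * E := by ring
      _ ≤ _ := mul_le_mul_of_nonneg_right h0 hE0
  have h6 : (1 + e) * E ≤ (1 + ε) * E := mul_le_mul_of_nonneg_right (by linarith) hE0
  have h7 := mul_le_mul_of_nonneg_right (hAμ.trans h6) hIJ0
  have hF0 : 0 ≤ F := hE0.trans hEF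
  have h8 : ((1 + e / 16) * (1 + e / 8) * E) * (1 + e / 16) ^ 2 * (2 * t) * N ≤ ε₂ * F * N := by
    apply mul_le_mul_of_nonneg_right _ hN0
    calc _ ≤ (2 * F) * (2 * (ε₂ / 4)) := by
          apply mul_le_mul _ (by linarith) (by positivity) (by positivity)
          refine hAμ.trans ?_
          exact mul_le_mul (by linarith) hEF hE0 (by norm_num)
      _ = _ := by ring
  linarith

theorem far_ineq {K P b μ η ℓ tm : ℝ} {θ q ξ : ℂ} (hK : 2 ≤ K) (hP0 : 0 < P) (hη : 0 < η)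
    (hη1 : η < 1) (hμ1 : μ ≤ 1)
    (hℓ : ℓ = η * P) (h2m : 16 ≤ tm) (hab : 2 * (P * tm) ≤ b) (h5 : K * (P * tm) < ‖q‖)
    (h6 : ‖q‖ ^ 2 < 2 * (K * b) ^ 2) (h12 : ‖θ‖ < P * tm ∨ K * (2 * b) < ‖θ‖)
    (hξ : ‖q - ξ‖ ≤ (1 + μ) * ℓ) : P ≤ ‖θ - ξ‖ := by
  have hPt : 0 < P * tm := by positivity
  have hb0 : 0 < b := by linarith
  have hKb : 0 < K * b := by positivity
  have h7 : ‖q‖ < 3 / 2 * (K * b) := by
    by_contra hcon
    push Not at hcon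
    have h8 : (3 / 2 * (K * b)) ^ 2 ≤ ‖q‖ ^ 2 := pow_le_pow_left₀ (by positivity) hcon 2
    have h9 : 0 < (K * b) ^ 2 := by positivity
    have h10 : (3 / 2 * (K * b)) ^ 2 = 9 / 4 * (K * b) ^ 2 := by ring
    linarith
  have h8 : (1 + μ) * ℓ ≤ 2 * P := by
    rw [hℓ]
    have h9 : η * P ≤ P := by
      have := mul_le_mul_of_nonneg_right hη1.le hP0.le
      linarith
    exact mul_le_mul (by linarith) h9 (by positivity) (by norm_num)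
  have h9 : 16 * P ≤ P * tm := by
    have := mul_le_mul_of_nonneg_left h2m hP0.le
    linarith
  have h10 : ‖θ - q‖ ≤ ‖θ - ξ‖ + ‖q - ξ‖ := by
    have : θ - q = (θ - ξ) - (q - ξ) := by ring
    rw [this]
    exact norm_sub_le _ _
  have h11 : P * tm ≤ ‖θ - q‖ := by
    rcases h12 with h12 | h12
    · have h13 := norm_sub_norm_le q θ
      rw [norm_sub_rev] at h13
      have h14 : 2 * (P * tm) ≤ K * (P * tm) := mul_le_mul_of_nonneg_right hK hPt.le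
      linarith
    · have h13 := norm_sub_norm_le θ q
      have h14 : 2 * b ≤ K * b := mul_le_mul_of_nonneg_right hK hb0.le
      linarith
  linarith

theorem jk_meas (k : ℕ) (s : ℤ) (L m : ℕ) : MeasurableSet (JK k s L m) :=
  (measurableSet_le measurable_const measurable_norm).inter
    (measurableSet_le measurable_norm measurable_const)

theorem int_AK_le (hE : StmtEIK) (hC2 : StmtCV2) {k : ℕ} (hk : 1 ≤ k) {σ : ℝ} (hσ : 0 < σ)
    {g : ℂ → ℂ} (hg : CC g) :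
    Integrable (fun θ => ‖AK k σ (fun _ => g) θ‖ ^ 2) ∧
      ∫ θ, ‖AK k σ (fun _ => g) θ‖ ^ 2 ≤ NK (k + 1) g := by
  refine ⟨cc_sq_int ((hC2 k).2.1 σ (fun _ => g) (fun _ _ => hg)), ?_⟩
  have h := hE k 0 (fun _ => (k + 2) / σ) (fun _ => σ) g hk hg (fun _ => by positivity)
    (fun _ => hσ) (fun _ => le_rfl) (fun _ => le_rfl) (fun _ => by
      rw [div_mul_cancel₀ _ hσ.ne']
      have : (0 : ℝ) ≤ k := by positivity
      nlinarith)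
  exact h.1 0

end BlkK

open BlkK in
attribute [local irreducible] csK MF AK in
/-- average over discs -/
theorem blkAvgK (hCh : StmtChirpK) (hE : StmtEIK) (_hC : StmtCV) (hC2 : StmtCV2)
    (hF : Four.StmtFac) (_hB : Four.StmtBase) : StmtBlkAvgK := by
  intro k ε C₁ hk hε hC₁
  obtain ⟨e, he0, he1, heε⟩ : ∃ e : ℝ, 0 < e ∧ e ≤ 1 ∧ e ≤ ε :=
    ⟨min ε 1, lt_min hε one_pos, min_le_right _ _, min_le_left _ _⟩
  obtain ⟨M, M₂, hM1, hM2, hMM⟩ := exists_consts k hk (e := e / 16) (by positivity)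
  refine ⟨M, M₂, hM1, by linarith, ?_⟩
  intro m L hm hL η ε₂ hη hη1 hε₂
  have hpi := Real.pi_pos
  have hM0 : 0 < M := by linarith
  have hM20 : 0 < M₂ := by linarith
  have hK0 : (0 : ℝ) < (k : ℝ) + 1 := by positivity
  have hK2 : (2 : ℝ) ≤ (k : ℝ) + 1 := by
    have : (1 : ℝ) ≤ k := by exact_mod_cast hk
    linarith
  obtain ⟨x, hx⟩ : ∃ x : ℝ, x = (1 / M₂) ^ 2 := ⟨_, rfl⟩
  have hx1 : 0 < 1 - x := by
    have h1 : 1 / M₂ ≤ 1 / 2 := div_le_div_of_nonneg_left (by norm_num) (by norm_num) hM2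
    have h2 : 0 < 1 / M₂ := by positivity
    rw [hx]; nlinarith
  rw [← hx] at hMM
  obtain ⟨Q, hQ⟩ : ∃ Q : ℝ, Q = M * M₂ * (2:ℝ) ^ L := ⟨_, rfl⟩
  have hQ0 : 0 < Q := by rw [hQ]; positivity
  obtain ⟨D, hD⟩ : ∃ D : ℝ, D = M ^ 2 * (2 ^ L) ^ 2 := ⟨_, rfl⟩
  have hD0 : 0 < D := by rw [hD]; positivity
  obtain ⟨μ, hμ⟩ : ∃ μ : ℝ, μ = e / 16 := ⟨_, rfl⟩
  have hμ0 : 0 < μ := by rw [hμ]; positivity
  have hμ1 : μ ≤ 1 := by rw [hμ]; linarith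
  obtain ⟨κ, hκ⟩ : ∃ κ : ℝ, κ = 2 / ((k : ℝ) + 1) / Q ^ 2 := ⟨_, rfl⟩
  have hκ0 : 0 < κ := by rw [hκ]; positivity
  have ev1 : ∀ᶠ n : ℕ in atTop, 1 ≤ n := eventually_ge_atTop 1
  have ev2 : ∀ᶠ n : ℕ in atTop, C₁ * (1 + D ^ 2 / (Real.pi ^ 2 * (1 - x) ^ 2)) ^ k ≤
      e / 16 * ((n : ℝ) / Real.pi) ^ (2 * k) := by
    have h1 : Tendsto (fun n : ℕ => e / 16 * ((n : ℝ) / Real.pi) ^ (2 * k)) atTop atTop := by
      apply Tendsto.const_mul_atTop (by positivity)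
      exact (tendsto_pow_atTop (by omega)).comp
        (tendsto_natCast_atTop_atTop.atTop_div_const hpi)
    exact h1.eventually_ge_atTop _
  have ev3 : ∀ᶠ n : ℕ in atTop, Real.exp (-(Real.pi / 2 * (μ * η) ^ 2 * κ * n)) ≤
      μ / (1 + μ) / 2 :=
    (tendsto_exp_nat (by positivity)).eventually (ge_mem_nhds (by positivity))
  have ev4 : ∀ᶠ n : ℕ in atTop, Real.exp (-(Real.pi / 2 * κ * n)) ≤ ε₂ / 4 :=
    (tendsto_exp_nat (by positivity)).eventually (ge_mem_nhds (by positivity))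
  obtain ⟨n₀, hn₀⟩ := eventually_atTop.1 (ev1.and (ev2.and (ev3.and ev4)))
  refine ⟨max n₀ 1, le_max_right _ _, fun n hn s g hg => ?_⟩
  obtain ⟨h1, h2, h3, h4⟩ := hn₀ n ((le_max_left _ _).trans hn)
  clear ev1 ev2 ev3 ev4 hn₀
  have hn1 : (1 : ℝ) ≤ n := by exact_mod_cast h1
  have hn0 : (0 : ℝ) < n := by linarith
  -- powers of two
  obtain ⟨P, hP⟩ : ∃ P : ℝ, P = (2 : ℝ) ^ s := ⟨_, rfl⟩
  have hP0 : 0 < P := by rw [hP]; positivity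
  have hzL : (2 : ℝ) ^ (s + (L : ℤ)) = P * 2 ^ L := by rw [zpow_add₀ two_ne_zero, zpow_natCast, hP]
  have hza : (2 : ℝ) ^ (s + (m : ℤ)) = P * 2 ^ m := by rw [zpow_add₀ two_ne_zero, zpow_natCast, hP]
  obtain ⟨b, hb⟩ : ∃ b : ℝ, b = (2 : ℝ) ^ (s + (L : ℤ) - (m : ℤ)) := ⟨_, rfl⟩
  have hb0 : 0 < b := by rw [hb]; positivity
  have hbm : b * 2 ^ m = P * 2 ^ L := by
    rw [hb, ← hzL, ← zpow_natCast, ← zpow_add₀ two_ne_zero]
    congr 1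
    ring
  have h2m : (16 : ℝ) ≤ 2 ^ m := by
    have h5 : ((16 * (k + 1) : ℕ) : ℝ) ≤ ((2 ^ m : ℕ) : ℝ) := by exact_mod_cast hm
    push_cast at h5
    linarith
  have hab : 2 * (P * 2 ^ m) ≤ b := by
    rw [hb, ← hza]
    calc 2 * (2 : ℝ) ^ (s + (m : ℤ)) = (2 : ℝ) ^ (s + (m : ℤ) + 1) := by
          rw [zpow_add_one₀ two_ne_zero, mul_comm]
      _ ≤ (2 : ℝ) ^ (s + (L : ℤ) - (m : ℤ)) := zpow_le_zpow_right₀ (by norm_num) (by omega)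
  have hz1 : (2 : ℝ) ^ (s + (L : ℤ) - (m : ℤ) + 1) = 2 * b := by
    rw [zpow_add_one₀ two_ne_zero, ← hb, mul_comm]
  -- windows
  obtain ⟨r, hr⟩ : ∃ r : ℝ, r = win n M s L := ⟨_, rfl⟩
  obtain ⟨σ, hσ⟩ : ∃ σ : ℝ, σ = win n (M * M₂) s L := ⟨_, rfl⟩
  have hsn : 0 < Real.sqrt n := Real.sqrt_pos.2 (by linarith)
  have hsn2 : Real.sqrt n ^ 2 = n := Real.sq_sqrt (by linarith)
  have hσe : σ = Real.sqrt n / (Q * P) := by
    rw [hσ, hQ]; unfold win; rw [hzL]; ring_nf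
  have hre : r = Real.sqrt n / (M * (P * 2 ^ L)) := by
    rw [hr]; unfold win; rw [hzL]
  have hσ0 : 0 < σ := by rw [hσe]; positivity
  have hr0 : 0 < r := by rw [hre]; positivity
  have hrσ : σ = r * (1 / M₂) := by
    rw [hσe, hre, hQ]; field_simp
  have hlt : σ < r := by
    rw [hrσ]
    have : 1 / M₂ < 1 := by
      rw [div_lt_one hM20]; linarith
    calc r * (1 / M₂) < r * 1 := mul_lt_mul_of_pos_left this hr0
      _ = r := mul_one r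
  have hσP : σ ^ 2 * P ^ 2 = n / Q ^ 2 := by
    rw [hσe, div_pow, hsn2]; field_simp
  have hrP : r ^ 2 * (P * 2 ^ L) ^ 2 = n / M ^ 2 := by
    rw [hre, div_pow, hsn2]; field_simp
  obtain ⟨τ, hτ⟩ : ∃ τ : ℝ, τ = σ * Real.sqrt (2 / ((k : ℝ) + 1)) := ⟨_, rfl⟩
  have hτ0 : 0 < τ := by rw [hτ]; positivity
  have hτ2 : τ ^ 2 = 2 * σ ^ 2 / (k + 1) := by
    rw [hτ, mul_pow, Real.sq_sqrt (by positivity)]; ring
  have hτP : τ ^ 2 * P ^ 2 = κ * n := by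
    have : τ ^ 2 * P ^ 2 = 2 / ((k : ℝ) + 1) * (σ ^ 2 * P ^ 2) := by rw [hτ2]; ring
    rw [this, hσP, hκ]; ring
  rw [← hr, ← hσ, ← hP]
  obtain ⟨ℓ, hℓ⟩ : ∃ ℓ : ℝ, ℓ = η * P := ⟨_, rfl⟩
  have hℓ0 : 0 < ℓ := by rw [hℓ]; positivity
  rw [← hℓ]
  obtain ⟨A, hA⟩ : ∃ A : ℝ, A = (1 + e / 16) * (1 + e / 8) * ((n : ℝ) / Real.pi) ^ (2 * k) :=
    ⟨_, rfl⟩
  have hA0 : 0 ≤ A := by rw [hA]; positivity
  have hlom : ∀ a : ℤ, Measurable (lo a) := fun a => (hF.2.2.2.1 a 0).continuous.measurable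
  have hbdm : ∀ a b : ℤ, Measurable (bd a b) := fun a b => by
    have h1 := hlom a
    have h2 := hlom b
    unfold bd
    fun_prop
  have hcm : Measurable (fun q : ℂ => bd (s + m) (s + L - m) (q / (k + 1)) ^ (2 * (k + 1))) := by
    have := hbdm (s + m) (s + L - m)
    fun_prop
  have hWm : Measurable (fun q : ℂ => (r * ‖q‖ / ((k : ℝ) + 1)) ^ (4 * k) + C₁) := by
    fun_prop
  have hle : s + (m : ℤ) ≤ s + (L : ℤ) - (m : ℤ) := by omega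
  have hW0 : ∀ q : ℂ, 0 ≤ (r * ‖q‖ / ((k : ℝ) + 1)) ^ (4 * k) + C₁ := fun q => by positivity
  have hc0 : ∀ q : ℂ, 0 ≤ bd (s + m) (s + L - m) (q / (k + 1)) ^ (2 * (k + 1)) := fun q => by
    rw [pow_mul]; positivity
  have hnk : ‖((k : ℂ) + 1)‖ = (k : ℝ) + 1 := by
    have : ((k : ℂ) + 1) = (((k : ℝ) + 1 : ℝ) : ℂ) := by push_cast; ring
    rw [this, Complex.norm_real, Real.norm_eq_abs, abs_of_pos hK0]
  have hq : ∀ q : ℂ, bd (s + m) (s + L - m) (q / (k + 1)) ^ (2 * (k + 1)) ≠ 0 →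
      ((k : ℝ) + 1) * (P * 2 ^ m) < ‖q‖ ∧ ‖q‖ ^ 2 < 2 * (((k : ℝ) + 1) * b) ^ 2 := by
    intro q hq
    have h5 : bd (s + m) (s + L - m) (q / (k + 1)) ≠ 0 := fun h => hq (by rw [h]; simp)
    obtain ⟨h6, h7⟩ := bd_ne hF hle h5
    rw [norm_div, hnk] at h6 h7
    rw [hza] at h6
    rw [← hb] at h7
    constructor
    · rw [lt_div_iff₀ hK0] at h6
      linarith
    · rw [div_pow, div_lt_iff₀ (by positivity)] at h7
      calc ‖q‖ ^ 2 < 2 * b ^ 2 * ((k : ℝ) + 1) ^ 2 := h7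
        _ = _ := by ring
  obtain ⟨hAi, hAI⟩ := int_AK_le hE hC2 hk hσ0 hg
  have hGm : Measurable (fun θ : ℂ => ENNReal.ofReal (‖AK k σ (fun _ => g) θ‖ ^ 2)) :=
    ((meas_AK k σ hg).norm.pow_const 2).ennreal_ofReal
  have hBr : Measurable (fun z : ℂ × ℂ => ‖MF k (fun _ => csK k n r z.2) (fun _ => g) z.1‖ ^ 2) :=
    (meas_MF k (meas_csK k n r) hg).norm.pow_const 2
  have hmain := main_l (G := fun θ => ENNReal.ofReal (‖AK k σ (fun _ => g) θ‖ ^ 2))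
    (B := fun z => ENNReal.ofReal (‖MF k (fun _ => csK k n r z.2) (fun _ => g) z.1‖ ^ 2))
    (R := P) (A := A) hτ0 hℓ0 hμ0 hP0.le hA0 ?_ hGm hBr.ennreal_ofReal hcm hWm
    hc0 ?_ (jk_meas k s L m) ?_ (Λ := Lam k n σ r) ?_ ?_
  · obtain ⟨t, ht⟩ : ∃ t : ℝ, t = Real.exp (-(Real.pi * τ ^ 2 / 2 * P ^ 2)) := ⟨_, rfl⟩
    have ht0 : 0 < t := by rw [ht]; exact Real.exp_pos _
    have ht1 : t ≤ ε₂ / 4 := by
      have e1 : Real.pi * τ ^ 2 / 2 * P ^ 2 = Real.pi / 2 * κ * n := by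
        have : Real.pi * τ ^ 2 / 2 * P ^ 2 = Real.pi / 2 * (τ ^ 2 * P ^ 2) := by ring
        rw [this, hτP]; ring
      rw [ht, e1]; exact h4
    rw [← ht] at hmain
    have hFm : Measurable (fun z : ℂ × ℂ => bd (s + m) (s + L - m) (z.2 / (k + 1)) ^ (2 * (k + 1)) *
        ((r * ‖z.2‖ / ((k : ℝ) + 1)) ^ (4 * k) + C₁) *
        ‖MF k (fun _ => csK k n r z.2) (fun _ => g) z.1‖ ^ 2) :=
      ((hcm.comp measurable_snd).mul (hWm.comp measurable_snd)).mul hBr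
    have hmain' : ∫⁻ z in {z : ℂ × ℂ | z.1 ∈ JK k s L m ∧ ‖z.2 - z.1‖ ≤ ℓ},
        ENNReal.ofReal (bd (s + m) (s + L - m) (z.2 / (k + 1)) ^ (2 * (k + 1)) *
        ((r * ‖z.2‖ / ((k : ℝ) + 1)) ^ (4 * k) + C₁) *
        ‖MF k (fun _ => csK k n r z.2) (fun _ => g) z.1‖ ^ 2) ≤
        ENNReal.ofReal A * (ENNReal.ofReal (Real.pi * ((1 + μ) * ℓ) ^ 2) *
          (∫⁻ θ in JK k s L m, ENNReal.ofReal (‖AK k σ (fun _ => g) θ‖ ^ 2)) +
        ENNReal.ofReal (Real.pi * ((1 + μ) * ℓ) ^ 2 * (2 * t)) *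
          ∫⁻ θ, ENNReal.ofReal (‖AK k σ (fun _ => g) θ‖ ^ 2)) := by
      refine le_trans (le_of_eq ?_) hmain
      refine lintegral_congr fun z => ?_
      exact ENNReal.ofReal_mul (mul_nonneg (hc0 _) (hW0 _))
    obtain ⟨hi, hI⟩ := conv_l hA0 (by positivity) (by positivity) (fun θ => by positivity) hAi hAI
      hFm (fun z => mul_nonneg (mul_nonneg (hc0 _) (hW0 _)) (by positivity)) hmain'
    refine ⟨hi, ?_⟩
    have hπℓ : 0 < Real.pi * ℓ ^ 2 := by positivity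
    rw [div_le_iff₀ hπℓ]
    refine hI.trans ?_
    obtain ⟨IJ, hIJ⟩ : ∃ IJ : ℝ, IJ = ∫ θ in JK k s L m, ‖AK k σ (fun _ => g) θ‖ ^ 2 := ⟨_, rfl⟩
    have hIJ0 : 0 ≤ IJ := by rw [hIJ]; exact integral_nonneg fun _ => by positivity
    rw [← hIJ]
    have hN0 : 0 ≤ NK (k + 1) g := (integral_nonneg fun _ => by positivity).trans hAI
    have e2 : A * (Real.pi * ((1 + μ) * ℓ) ^ 2 * IJ +
        Real.pi * ((1 + μ) * ℓ) ^ 2 * (2 * t) * NK (k + 1) g) =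
        (A * (1 + μ) ^ 2 * IJ + A * (1 + μ) ^ 2 * (2 * t) * NK (k + 1) g) * (Real.pi * ℓ ^ 2) := by
      ring
    rw [e2]
    refine mul_le_mul_of_nonneg_right ?_ hπℓ.le
    rw [hA, hμ]
    refine fin_ineq he0 he1 heε ht0.le (by positivity) ?_ ht1 hIJ0 hN0
    apply pow_le_pow_left₀ (by positivity)
    rw [div_le_iff₀ hpi]
    have := Real.pi_gt_three
    nlinarith
  · -- the window sees the whole disc
    have e1 : Real.pi * τ ^ 2 / 2 * (μ * ℓ) ^ 2 = Real.pi / 2 * (μ * η) ^ 2 * κ * n := by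
      have : Real.pi * τ ^ 2 / 2 * (μ * ℓ) ^ 2 = Real.pi / 2 * (μ * η) ^ 2 * (τ ^ 2 * P ^ 2) := by
        rw [hℓ]; ring
      rw [this, hτP]; ring
    rw [e1]
    linarith
  · intro q
    have h5 := bd_abs hF (s + m) (s + L - m) (q / (k + 1))
    calc bd (s + m) (s + L - m) (q / (k + 1)) ^ (2 * (k + 1)) =
          |bd (s + m) (s + L - m) (q / (k + 1))| ^ (2 * (k + 1)) := by
          rw [← abs_pow, abs_of_nonneg (hc0 q)]
      _ ≤ 1 := pow_le_one₀ (abs_nonneg _) h5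
  · -- far frequencies
    intro θ hθ q hcq ξ hξ
    obtain ⟨h5, h6⟩ := hq q hcq
    have h12 : ‖θ‖ < P * 2 ^ m ∨ ((k : ℝ) + 1) * (2 * b) < ‖θ‖ := by
      by_contra hcon
      push Not at hcon
      apply hθ
      show (2 : ℝ) ^ (s + (m : ℤ)) ≤ ‖θ‖ ∧
        ‖θ‖ ≤ ((k : ℝ) + 1) * (2 : ℝ) ^ (s + (L : ℤ) - (m : ℤ) + 1)
      rw [hza, hz1]
      exact hcon
    exact far_ineq hK2 hP0 hη hη1 hμ1 hℓ h2m hab h5 h6 h12 hξ
  · -- the chirp inequality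
    intro q hcq ξ
    obtain ⟨h5, h6⟩ := hq q hcq
    have hq0 : q ≠ 0 := by
      intro h
      rw [h, norm_zero] at h5
      have : 0 < ((k : ℝ) + 1) * (P * 2 ^ m) := by positivity
      linarith
    exact chirp_l hCh hσ0 hτ0 hτ2 hlt n hq0 hg ξ
  · -- the numerical inequality
    intro q hcq
    refine ⟨hW0 q, ?_⟩
    obtain ⟨h5, h6⟩ := hq q hcq
    have hq0 : 0 < ‖q‖ := lt_trans (by positivity) h5
    obtain ⟨X, hX⟩ : ∃ X : ℝ, X = (r * ‖q‖ / ((k : ℝ) + 1)) ^ 2 := ⟨_, rfl⟩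
    have hX0 : 0 < X := by rw [hX]; positivity
    have hXlo : (n : ℝ) / D ≤ X := by
      have h7 : P ≤ ‖q‖ / ((k : ℝ) + 1) := by
        rw [le_div_iff₀ hK0]
        have h8 : P * 1 ≤ P * 2 ^ m := mul_le_mul_of_nonneg_left (by linarith) hP0.le
        have h9 : ((k : ℝ) + 1) * (P * 1) ≤ ((k : ℝ) + 1) * (P * 2 ^ m) :=
          mul_le_mul_of_nonneg_left h8 hK0.le
        linarith
      have h8 : r ^ 2 * P ^ 2 = n / D := by
        have : (n : ℝ) / D = n / M ^ 2 / (2 ^ L) ^ 2 := by rw [hD]; field_simp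
        rw [this, ← hrP]; field_simp
      rw [← h8, hX, ← mul_pow, mul_div_assoc]
      exact pow_le_pow_left₀ (by positivity) (mul_le_mul_of_nonneg_left h7 hr0.le) 2
    have hXhi : X ≤ n / M ^ 2 := by
      rw [← hrP, hX, mul_div_assoc, mul_pow]
      apply mul_le_mul_of_nonneg_left _ (by positivity)
      rw [← hbm, div_pow, div_le_iff₀ (by positivity)]
      have h7 : (16 : ℝ) ^ 2 ≤ (2 ^ m) ^ 2 := pow_le_pow_left₀ (by norm_num) h2m 2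
      have h8 : 0 ≤ (((k : ℝ) + 1) * b) ^ 2 := by positivity
      have h9 := mul_le_mul_of_nonneg_left h7 h8
      calc ‖q‖ ^ 2 ≤ 2 * (((k : ℝ) + 1) * b) ^ 2 := h6.le
        _ ≤ (((k : ℝ) + 1) * b) ^ 2 * (2 ^ m) ^ 2 := by linarith
        _ = _ := by ring
    have e1 : (r * ‖q‖ / ((k : ℝ) + 1)) ^ (4 * k) = X ^ (2 * k) := by
      rw [hX, ← pow_mul]; ring_nf
    have e2 : Lam k n σ r q =
        (1 + (n : ℝ) ^ 2 / (Real.pi ^ 2 * X ^ 2 * (1 - x) ^ 2)) ^ k := by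
      unfold Lam
      have h7 : r ^ 2 - σ ^ 2 = r ^ 2 * (1 - x) := by rw [hrσ, hx]; ring
      rw [h7, hX]
      congr 2
      field_simp
    rw [e1, e2, hA, hμ]
    exact num_ineq hn0 hX0 hXhi hXlo hD0 hM0 he0.le hC₁ hx1 hMM h2

end Pool.Agent.Lib.MP_dd244f_an.Even
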