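import Pool.Agent.Lib.MP_dd244f_an.Four.Strip
import Pool.Agent.Lib.MP_dd244f_an.Even.Stmts

/-!
Full operator, even `p`: the sharp inequality for one block.
-/

set_option autoImplicit false

namespace Pool.Agent.Lib.MP_dd244f_an.Even

open MeasureTheory Filter Topology Finset
open Pool.Agent.Lib.MP_dd244f_an.Joint (st ct Mst ratio)
open Pool.Agent.Lib.MP_dd244f_an.Four

theorem jk_closed (k : ℕ) (s : ℤ) (L m : ℕ) : IsClosed (JK k s L m) := by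
  unfold JK
  apply IsClosed.inter
  · exact isClosed_le continuous_const continuous_norm
  · exact isClosed_le continuous_norm continuous_const

theorem nK_nonneg (K : ℕ) (g : ℂ → ℂ) : 0 ≤ NK K g := integral_nonneg fun _ => by positivity

theorem gamK_pos (k : ℕ) : 0 < gamK k := by
  unfold gamK
  have hk : (0 : ℝ) ≤ k := Nat.cast_nonneg k
  apply div_pos
  · apply Real.Gamma_pos_of_pos; positivity
  · apply Real.Gamma_pos_of_pos
    rw [sub_pos, div_lt_one (by positivity)]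
    linarith

theorem cH_pos (k : ℕ) : 0 < CH k := by
  unfold CH
  have := gamK_pos k
  have := Real.pi_pos
  positivity

/-- the weight -/
noncomputable def Uw (k : ℕ) (C r : ℝ) (θ : ℂ) : ℝ := (r * ‖θ‖ / (k + 1)) ^ (4 * k) + C

theorem uw_nonneg {k : ℕ} {C r : ℝ} (hC : 0 ≤ C) (hr : 0 ≤ r) (θ : ℂ) : 0 ≤ Uw k C r θ := by
  unfold Uw; positivity

theorem uw_scale {k : ℕ} {C r c : ℝ} (hC : 0 ≤ C) (hr : 0 ≤ r) {θ q : ℂ} (hc : 1 ≤ c)
    (h : ‖θ‖ ≤ c * ‖q‖) : Uw k C r θ ≤ c ^ (4 * k) * Uw k C r q := by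
  unfold Uw
  have h1 : r * ‖θ‖ / (k + 1) ≤ c * (r * ‖q‖ / (k + 1)) := by
    have : r * ‖θ‖ ≤ c * (r * ‖q‖) := by
      calc r * ‖θ‖ ≤ r * (c * ‖q‖) := mul_le_mul_of_nonneg_left h hr
        _ = _ := by ring
    rw [← mul_div_assoc]
    exact div_le_div_of_nonneg_right this (by positivity)
  have h2 : (r * ‖θ‖ / (k + 1)) ^ (4 * k) ≤ c ^ (4 * k) * (r * ‖q‖ / (k + 1)) ^ (4 * k) := by
    rw [← mul_pow]
    exact pow_le_pow_left₀ (by positivity) h1 _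
  have h3 : C ≤ c ^ (4 * k) * C := le_mul_of_one_le_left hC (one_le_pow₀ hc)
  calc _ ≤ c ^ (4 * k) * (r * ‖q‖ / (k + 1)) ^ (4 * k) + c ^ (4 * k) * C := add_le_add h2 h3
    _ = _ := by ring

theorem uw_le {k n : ℕ} (hn : 1 ≤ n) {M C : ℝ} (hM : 1 ≤ M) (hC : 0 ≤ C) {s : ℤ} {L m : ℕ}
    (hm : 1 ≤ m) {θ : ℂ} (hθ : ‖θ‖ ≤ (k + 1) * (2 : ℝ) ^ (s + L - m + 1)) :
    Uw k C (win n M s L) θ ≤ (1 + C) * (n : ℝ) ^ (2 * k) := by
  have hn' : (1 : ℝ) ≤ n := by exact_mod_cast hn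
  have hsq : Real.sqrt n ^ 2 = n := Real.sq_sqrt (by positivity)
  have h2 : (0 : ℝ) < (2 : ℝ) ^ (s + L) := by positivity
  have hr0 : 0 ≤ win n M s L := by unfold win; positivity
  have hk0 : (0 : ℝ) < k + 1 := by positivity
  have hx : win n M s L * ‖θ‖ / (k + 1) ≤ Real.sqrt n := by
    have e1 : ‖θ‖ / (k + 1) ≤ (2 : ℝ) ^ (s + L) := by
      rw [div_le_iff₀ hk0]
      refine hθ.trans ?_
      rw [mul_comm]
      apply mul_le_mul_of_nonneg_right _ hk0.le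
      apply zpow_le_zpow_right₀ (by norm_num)
      have : (1 : ℤ) ≤ m := by exact_mod_cast hm
      linarith
    calc win n M s L * ‖θ‖ / (k + 1) = win n M s L * (‖θ‖ / (k + 1)) := by ring
      _ ≤ win n M s L * ((2 : ℝ) ^ (s + L)) := mul_le_mul_of_nonneg_left e1 hr0
      _ = Real.sqrt n / M := by
          unfold win
          field_simp
      _ ≤ Real.sqrt n := div_le_self (Real.sqrt_nonneg _) hM
  have hx4 : (win n M s L * ‖θ‖ / (k + 1)) ^ (4 * k) ≤ (n : ℝ) ^ (2 * k) := by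
    calc _ ≤ Real.sqrt n ^ (4 * k) := pow_le_pow_left₀ (by positivity) hx _
      _ = (Real.sqrt n ^ 2) ^ (2 * k) := by rw [← pow_mul]; ring_nf
      _ = _ := by rw [hsq]
  have h5 : C ≤ C * (n : ℝ) ^ (2 * k) := le_mul_of_one_le_right hC (one_le_pow₀ hn')
  unfold Uw
  linarith

private theorem aux1 {a b : ℝ} (ha : 1 ≤ a) (hb : 1 < b) : 1 ≤ a * b := by nlinarith

private theorem aux2 {l e t x : ℝ} (h : l ≤ e * t) (ht : 16 * t ≤ x) (he : 0 < e) :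
    l ≤ e / 16 * x := by nlinarith

private theorem aux7 {x e : ℝ} (hx : 0 < x) (hx1 : x ≤ 1 / 8) (hxe : x ≤ e / 8) :
    (1 + x) ^ 3 ≤ 1 + e := by nlinarith [mul_pos hx hx, mul_pos (mul_pos hx hx) hx]

/-- choice of `ε₃` -/
theorem exists_e3 (k : ℕ) {ε₁ : ℝ} (hε : 0 < ε₁) : ∃ x₀ : ℝ, 0 < x₀ ∧ x₀ ≤ 1 ∧ ∀ x : ℝ, 0 < x →
    x ≤ x₀ → (1 + x) * (1 / (1 - x / 16)) ^ (4 * k) ≤ 1 + ε₁ := by
  have hc : ContinuousAt (fun x : ℝ => (1 + x) * (1 / (1 - x / 16)) ^ (4 * k)) 0 := by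
    apply ContinuousAt.mul (by fun_prop)
    apply ContinuousAt.pow
    apply ContinuousAt.div (by fun_prop) (by fun_prop) (by norm_num)
  have h0 : (fun x : ℝ => (1 + x) * (1 / (1 - x / 16)) ^ (4 * k)) 0 = 1 := by simp
  have h1 : ∀ᶠ x in 𝓝 (0 : ℝ), (1 + x) * (1 / (1 - x / 16)) ^ (4 * k) < 1 + ε₁ := by
    apply hc.eventually_lt continuousAt_const
    rw [show (1 + (0:ℝ)) * (1 / (1 - (0:ℝ) / 16)) ^ (4 * k) = 1 by simp]
    linarith
  obtain ⟨r, hr, hr2⟩ := Metric.eventually_nhds_iff_ball.1 h1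
  refine ⟨min (r / 2) 1, by positivity, min_le_right _ _, fun x hx hx1 => ?_⟩
  apply le_of_lt
  apply hr2
  rw [mem_ball_zero_iff, Real.norm_of_nonneg hx.le]
  have := min_le_left (r / 2) 1
  linarith

theorem blockK (hSyn : StmtSynK) (hB1 : StmtBlk1K) (hBA : StmtBlkAvgK) (hC2 : StmtCV2)
    (hF : StmtFac) : StmtBlockK := by
  intro k ε hk hε
  have hpi := Real.pi_pos
  set ε₁ : ℝ := min ε 1 / 8 with hε₁
  have hε₁0 : 0 < ε₁ := by positivity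
  have hε₁1 : ε₁ ≤ 1 / 8 := by
    have := min_le_right ε 1; linarith
  have hε₁ε : ε₁ ≤ ε / 8 := by
    have := min_le_left ε 1; linarith
  obtain ⟨C, hC, hSyn⟩ := hSyn k ε₁ hk hε₁0
  obtain ⟨M, M₂, hM, hM₂, hBA⟩ := hBA k ε₁ C hk hε₁0 hC
  obtain ⟨m₀, hm₀⟩ : ∃ m₀ : ℕ, 16 * (k + 1) ≤ 2 ^ m₀ := ⟨16 * (k + 1), Nat.lt_two_pow_self.le⟩
  refine ⟨M * M₂, m₀, aux1 hM hM₂, hm₀, ?_⟩
  intro m hm L hL ε₂ hε₂
  have hmk : 16 * (k + 1) ≤ 2 ^ m := hm₀.trans (Nat.pow_le_pow_right (by norm_num) hm)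
  have hCH := cH_pos k
  set C₀ : ℝ := CH k with hC₀
  -- choice of ε₃
  obtain ⟨x₀, hx₀, hx₀1, hx₀2⟩ := exists_e3 k hε₁0
  set ε₃ : ℝ := min x₀ (ε₂ / (8 * C₀ * (1 + C))) with hε₃
  have hε₃0 : 0 < ε₃ := by positivity
  have hε₃a : ε₃ ≤ x₀ := min_le_left _ _
  have hε₃b : ε₃ * (8 * C₀ * (1 + C)) ≤ ε₂ := by
    have := min_le_right x₀ (ε₂ / (8 * C₀ * (1 + C)))
    rw [← hε₃] at this
    rwa [le_div_iff₀ (by positivity)] at this
  have hε₃1 : ε₃ ≤ 1 := hε₃a.trans hx₀1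
  obtain ⟨η, n₁, hη0, hη1, hηε, hn₁, hB1⟩ := hB1 k M L m ε₃ hk hM hmk hL hε₃0
  set ε₄ : ℝ := ε₂ / (8 * C₀) with hε₄
  have hε₄0 : 0 < ε₄ := by positivity
  obtain ⟨n₂, hn₂, hBA⟩ := hBA m L hmk hL η ε₄ hη0 hη1 hε₄0
  refine ⟨max n₁ n₂, hn₁.trans (le_max_left _ _), ?_⟩
  intro n hn s g hg
  have hnn1 : n ≥ n₁ := (le_max_left _ _).trans hn
  have hnn2 : n ≥ n₂ := (le_max_right _ _).trans hn
  have hn1 : 1 ≤ n := hn₁.trans hnn1
  have hn' : (1 : ℝ) ≤ n := by exact_mod_cast hn1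
  have hgb : CC (cut (bd s (s + L)) g) := (hF.2.2.2.2.1 g _ _ hg).2.1
  have hG : CC (cut (bd (s + m) (s + L - m)) (mg n g)) := hF.2.2.2.2.2.2 g n _ _ hg
  obtain ⟨E, hE0, hEi, hEle, hJ1, hlow, hhigh⟩ := hB1 n hnn1 s g hg
  obtain ⟨hInt, hAvg⟩ := hBA n hnn2 s _ hgb
  set gb := cut (bd s (s + L)) g with hgbdef
  set G := cut (bd (s + m) (s + L - m)) (mg n g) with hGdef
  set r := win n M s L with hr
  have hr0 : 0 < r := by
    rw [hr]; unfold win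
    have : (0:ℝ) < n := by linarith
    positivity
  have hsyn := hSyn r G hr0 hG
  have hAcc : CC (AK k r (fun _ => G)) := (hC2 k).2.1 r (fun _ => G) (fun _ _ => hG)
  have hUcont : Continuous (Uw k C r) := by unfold Uw; fun_prop
  have hUA : Integrable (fun θ => Uw k C r θ * ‖AK k r (fun _ => G) θ‖ ^ 2) := by
    apply Continuous.integrable_of_hasCompactSupport
    · have := hAcc.1; fun_prop
    · apply HasCompactSupport.mul_left
      exact hAcc.2.comp_left (g := fun z => ‖z‖ ^ 2) (by simp)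
  set J := JK k s L m with hJdef
  have hJm : MeasurableSet J := (jk_closed k s L m).measurableSet
  set l : ℝ := η * (2 : ℝ) ^ s with hl
  have hl0 : 0 < l := by positivity
  have hm5 : 5 ≤ m := by
    by_contra hcon
    have h4 : m ≤ 4 := by omega
    have h5 : 2 ^ m ≤ 2 ^ 4 := Nat.pow_le_pow_right (by norm_num) h4
    omega
  have h2m : (16 : ℝ) * (2 : ℝ) ^ s ≤ (2 : ℝ) ^ (s + m) := by
    have : (16 : ℝ) * (2 : ℝ) ^ s = (2 : ℝ) ^ (s + 4) := by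
      rw [zpow_add₀ (by norm_num)]; norm_num; ring
    rw [this]
    apply zpow_le_zpow_right₀ (by norm_num)
    have : (5 : ℤ) ≤ m := by exact_mod_cast hm5
    linarith
  have hkr : (1 : ℝ) ≤ k + 1 := by
    have : (0 : ℝ) ≤ k := Nat.cast_nonneg k
    linarith
  have hmL : (2 : ℝ) ^ (s + m) ≤ (k + 1) * (2 : ℝ) ^ (s + L - m + 1) := by
    have h6 : (2 : ℝ) ^ (s + m) ≤ (2 : ℝ) ^ (s + L - m + 1) := by
      apply zpow_le_zpow_right₀ (by norm_num)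
      have : (2 : ℤ) * m < L := by exact_mod_cast hL
      linarith
    exact h6.trans (le_mul_of_one_le_left (by positivity) hkr)
  have hm1 : 1 ≤ m := by omega
  -- step 1 : split
  have hp1 : ∀ θ, Uw k C r θ * ‖AK k r (fun _ => G) θ‖ ^ 2 ≤
      J.indicator (fun θ => Uw k C r θ * ‖AK k r (fun _ => G) θ‖ ^ 2) θ
        + ((1 + C) * (n : ℝ) ^ (2 * k)) * E θ := by
    intro θ
    have hE' := hE0 θ
    have h3 : 0 ≤ ((1 + C) * (n : ℝ) ^ (2 * k)) * E θ := by positivity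
    by_cases h1 : θ ∈ J
    · rw [Set.indicator_of_mem h1]; linarith
    · rw [Set.indicator_of_notMem h1, zero_add]
      by_cases h2 : ‖θ‖ < (2 : ℝ) ^ (s + m)
      · have hW : Uw k C r θ ≤ (1 + C) * (n : ℝ) ^ (2 * k) := uw_le hn1 hM hC hm1 (h2.le.trans hmL)
        exact mul_le_mul hW (hlow θ h2) (by positivity) (by positivity)
      · have h4 : (k + 1) * (2 : ℝ) ^ (s + L - m + 1) < ‖θ‖ := by
          by_contra h5
          exact h1 ⟨not_lt.mp h2, not_lt.mp h5⟩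
        rw [hhigh θ h4]
        simpa using h3
  have hi1 : ∫ θ, Uw k C r θ * ‖AK k r (fun _ => G) θ‖ ^ 2 ≤
      (∫ θ in J, Uw k C r θ * ‖AK k r (fun _ => G) θ‖ ^ 2)
        + ((1 + C) * (n : ℝ) ^ (2 * k)) * ∫ θ, E θ := by
    rw [← integral_indicator hJm, ← integral_const_mul, ← integral_add
      (hUA.indicator hJm) (hEi.const_mul _)]
    exact integral_mono hUA ((hUA.indicator hJm).add (hEi.const_mul _)) hp1
  -- step 2 : strip
  obtain ⟨hs1, hs2⟩ := strip_int J hJm l hl0 _ hUA.integrableOn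
  obtain ⟨hs3, hs4⟩ := strip_int J hJm l hl0 _ hEi.integrableOn
  set S : Set (ℂ × ℂ) := {z | z.1 ∈ J ∧ ‖z.2 - z.1‖ ≤ l} with hS
  have hSm : MeasurableSet S := strip_meas J hJm l
  set Kf : ℂ × ℂ → ℝ := fun z => bd (s + m) (s + L - m) (z.2 / (k + 1)) ^ (2 * (k + 1)) *
      ((r * ‖z.2‖ / (k + 1)) ^ (4 * k) + C) *
      ‖MF k (fun _ => csK k n r z.2) (fun _ => gb) z.1‖ ^ 2 with hKf
  set c : ℝ := 1 / (1 - ε₃ / 16) with hc
  have hc1 : 1 ≤ c := by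
    rw [hc, le_div_iff₀ (by linarith)]; linarith
  have hp2 : ∀ z ∈ S, Uw k C r z.1 * ‖AK k r (fun _ => G) z.1‖ ^ 2 ≤
      (1 + ε₃) * c ^ (4 * k) * Kf z + ((1 + C) * (n : ℝ) ^ (2 * k)) * E z.1 := by
    intro z hz
    obtain ⟨h1, h2⟩ := hz
    have hb := hJ1 z.1 h1 z.2 h2
    have hW0 : 0 ≤ Uw k C r z.1 := uw_nonneg hC hr0.le _
    have hW : Uw k C r z.1 ≤ (1 + C) * (n : ℝ) ^ (2 * k) := uw_le hn1 hM hC hm1 h1.2
    have hθq : ‖z.1‖ ≤ c * ‖z.2‖ := by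
      have e1 : ‖z.1‖ ≤ ‖z.2‖ + l := by
        have := norm_sub_norm_le z.1 z.2
        rw [norm_sub_rev] at this
        linarith
      have e2 : l ≤ ε₃ / 16 * ‖z.1‖ := by
        have : (16 : ℝ) * (2 : ℝ) ^ s ≤ ‖z.1‖ := h2m.trans h1.1
        have h5 : l ≤ ε₃ * (2 : ℝ) ^ s := mul_le_mul_of_nonneg_right hηε (by positivity)
        exact aux2 h5 this hε₃0
      rw [hc, one_div, ← div_eq_inv_mul, le_div_iff₀ (by linarith)]
      linarith
    have hW' : Uw k C r z.1 ≤ c ^ (4 * k) * Uw k C r z.2 := uw_scale hC hr0.le hc1 hθq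
    have hbd0 : 0 ≤ bd (s + m) (s + L - m) (z.2 / (k + 1)) ^ (2 * (k + 1)) := by
      rw [pow_mul]; positivity
    have h3 : 0 ≤ bd (s + m) (s + L - m) (z.2 / (k + 1)) ^ (2 * (k + 1)) *
        ‖MF k (fun _ => csK k n r z.2) (fun _ => gb) z.1‖ ^ 2 := by
      positivity
    have h4 : 0 ≤ E z.1 := hE0 _
    calc Uw k C r z.1 * ‖AK k r (fun _ => G) z.1‖ ^ 2
        ≤ Uw k C r z.1 * ((1 + ε₃) * (bd (s + m) (s + L - m) (z.2 / (k + 1)) ^ (2 * (k + 1)) *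
            ‖MF k (fun _ => csK k n r z.2) (fun _ => gb) z.1‖ ^ 2) + E z.1) :=
          mul_le_mul_of_nonneg_left hb hW0
      _ = Uw k C r z.1 * ((1 + ε₃) * (bd (s + m) (s + L - m) (z.2 / (k + 1)) ^ (2 * (k + 1)) *
            ‖MF k (fun _ => csK k n r z.2) (fun _ => gb) z.1‖ ^ 2)) + Uw k C r z.1 * E z.1 := by
          ring
      _ ≤ (c ^ (4 * k) * Uw k C r z.2) * ((1 + ε₃) *
            (bd (s + m) (s + L - m) (z.2 / (k + 1)) ^ (2 * (k + 1)) *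
            ‖MF k (fun _ => csK k n r z.2) (fun _ => gb) z.1‖ ^ 2))
            + ((1 + C) * (n : ℝ) ^ (2 * k)) * E z.1 := by
          apply add_le_add
          · exact mul_le_mul_of_nonneg_right hW' (by positivity)
          · exact mul_le_mul_of_nonneg_right hW h4
      _ = _ := by rw [hKf]; simp only [Uw]; ring
  have hi2 : (∫ z in S, Uw k C r z.1 * ‖AK k r (fun _ => G) z.1‖ ^ 2) ≤
      (1 + ε₃) * c ^ (4 * k) * (∫ z in S, Kf z)
        + ((1 + C) * (n : ℝ) ^ (2 * k)) * ∫ z in S, E z.1 := by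
    rw [← integral_const_mul, ← integral_const_mul, ← integral_add
      (hInt.const_mul _) (hs3.const_mul _)]
    exact setIntegral_mono_on hs1 ((hInt.const_mul _).add (hs3.const_mul _)) hSm hp2
  have hpl : 0 < Real.pi * l ^ 2 := by positivity
  have hi3 : (∫ θ in J, Uw k C r θ * ‖AK k r (fun _ => G) θ‖ ^ 2) ≤
      (1 + ε₃) * c ^ (4 * k) * ((∫ z in S, Kf z) / (Real.pi * l ^ 2))
        + ((1 + C) * (n : ℝ) ^ (2 * k)) * ∫ θ in J, E θ := by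
    rw [hs2, hs4] at hi2
    have : Real.pi * l ^ 2 * (∫ θ in J, Uw k C r θ * ‖AK k r (fun _ => G) θ‖ ^ 2) ≤
        Real.pi * l ^ 2 * ((1 + ε₃) * c ^ (4 * k) * ((∫ z in S, Kf z) / (Real.pi * l ^ 2))
        + ((1 + C) * (n : ℝ) ^ (2 * k)) * ∫ θ in J, E θ) := by
      refine hi2.trans (le_of_eq ?_)
      field_simp
    exact le_of_mul_le_mul_left this hpl
  have hEJ : ∫ θ in J, E θ ≤ ∫ θ, E θ := setIntegral_le_integral hEi (Eventually.of_forall hE0)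
  have hN : 0 ≤ NK (k + 1) gb := nK_nonneg _ _
  set P : ℝ := (n : ℝ) ^ (2 * k) with hP
  have hP0 : 0 < P := by
    have : (0:ℝ) < n := by linarith
    positivity
  have herr : ((1 + C) * P) * (∫ θ, E θ) ≤ (1 + C) * P * (ε₃ * NK (k + 1) gb) :=
    mul_le_mul_of_nonneg_left hEle (by positivity)
  have herrJ : ((1 + C) * P) * (∫ θ in J, E θ) ≤ (1 + C) * P * (ε₃ * NK (k + 1) gb) :=
    (mul_le_mul_of_nonneg_left hEJ (by positivity)).trans herr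
  set X : ℝ := ∫ θ in J, ‖AK k (win n (M * M₂) s L) (fun _ => gb) θ‖ ^ 2 with hX
  have hX0 : 0 ≤ X := integral_nonneg fun _ => by positivity
  have hAvg' : (∫ z in S, Kf z) / (Real.pi * l ^ 2) ≤
      (1 + ε₁) * (n / Real.pi) ^ (2 * k) * X + ε₄ * P * NK (k + 1) gb := hAvg
  have hc4 : (1 + ε₃) * c ^ (4 * k) ≤ 1 + ε₁ := hx₀2 ε₃ hε₃0 hε₃a
  have hc40 : 0 ≤ (1 + ε₃) * c ^ (4 * k) := by positivity
  -- total
  have htot : ∫ θ, Uw k C r θ * ‖AK k r (fun _ => G) θ‖ ^ 2 ≤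
      (1 + ε₁) * ((1 + ε₁) * (n / Real.pi) ^ (2 * k) * X + ε₄ * P * NK (k + 1) gb)
        + 2 * ((1 + C) * P * (ε₃ * NK (k + 1) gb)) := by
    have h2 : (1 + ε₃) * c ^ (4 * k) * ((∫ z in S, Kf z) / (Real.pi * l ^ 2)) ≤
        (1 + ε₁) * ((1 + ε₁) * (n / Real.pi) ^ (2 * k) * X + ε₄ * P * NK (k + 1) gb) := by
      refine (mul_le_mul_of_nonneg_left hAvg' hc40).trans ?_
      exact mul_le_mul_of_nonneg_right hc4 (by positivity)
    linarith
  have hVU : ∫ θ, ((1 + ε₁) * (r * ‖θ‖ / (k + 1)) ^ (4 * k) + C) * ‖AK k r (fun _ => G) θ‖ ^ 2 ≤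
      (1 + ε₁) * ∫ θ, Uw k C r θ * ‖AK k r (fun _ => G) θ‖ ^ 2 := by
    rw [← integral_const_mul]
    apply integral_mono_of_nonneg
    · exact Eventually.of_forall fun θ => by positivity
    · exact hUA.const_mul _
    · refine Eventually.of_forall fun θ => ?_
      simp only
      rw [← mul_assoc]
      apply mul_le_mul_of_nonneg_right _ (by positivity)
      unfold Uw
      have : C ≤ (1 + ε₁) * C := le_mul_of_one_le_left hC (by linarith)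
      linarith
  have hfin : NK (k + 1) G ≤ C₀ * ((1 + ε₁) * ((1 + ε₁) * ((1 + ε₁) * (n / Real.pi) ^ (2 * k) * X
      + ε₄ * P * NK (k + 1) gb) + 2 * ((1 + C) * P * (ε₃ * NK (k + 1) gb)))) := by
    refine hsyn.trans ?_
    refine mul_le_mul_of_nonneg_left ?_ hCH.le
    exact hVU.trans (mul_le_mul_of_nonneg_left htot (by positivity))
  refine hfin.trans ?_
  have hmain : C₀ * (n / Real.pi) ^ (2 * k) = gamK k ^ (2 * k + 2) * P := by
    rw [hC₀, hP]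
    unfold CH
    rw [div_pow]
    field_simp
  have hg0 := gamK_pos k
  have hA0 : 0 ≤ gamK k ^ (2 * k + 2) * P * X := by positivity
  have hB0 : 0 ≤ P * NK (k + 1) gb := by positivity
  have hcoef : (1 + ε₁) ^ 3 ≤ 1 + ε := aux7 hε₁0 hε₁1 hε₁ε
  have hcoef2 : (1 + ε₁) ^ 2 * (C₀ * ε₄) + (1 + ε₁) * (2 * (C₀ * (1 + C) * ε₃)) ≤ ε₂ := by
    have e1 : C₀ * ε₄ = ε₂ / 8 := by rw [hε₄]; field_simp
    have e2 : C₀ * (1 + C) * ε₃ ≤ ε₂ / 8 := by
      have : C₀ * (1 + C) * ε₃ = ε₃ * (8 * C₀ * (1 + C)) / 8 := by ring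
      rw [this]
      exact div_le_div_of_nonneg_right hε₃b (by norm_num)
    have e3 : (1 + ε₁) ^ 2 ≤ 2 := by
      have : (1 + ε₁) ^ 2 ≤ (1 + 1 / 8) ^ 2 := pow_le_pow_left₀ (by linarith) (by linarith) 2
      refine this.trans (by norm_num)
    have e4 : 1 + ε₁ ≤ 2 := by linarith
    have e5 : (1 + ε₁) ^ 2 * (C₀ * ε₄) ≤ 2 * (ε₂ / 8) := by
      rw [e1]
      exact mul_le_mul_of_nonneg_right e3 (by positivity)
    have e6 : (1 + ε₁) * (2 * (C₀ * (1 + C) * ε₃)) ≤ 2 * (2 * (ε₂ / 8)) := by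
      apply mul_le_mul e4 _ (by positivity) (by norm_num)
      linarith
    linarith
  calc C₀ * ((1 + ε₁) * ((1 + ε₁) * ((1 + ε₁) * (n / Real.pi) ^ (2 * k) * X
      + ε₄ * P * NK (k + 1) gb) + 2 * ((1 + C) * P * (ε₃ * NK (k + 1) gb))))
      = (1 + ε₁) ^ 3 * (C₀ * (n / Real.pi) ^ (2 * k) * X)
        + ((1 + ε₁) ^ 2 * (C₀ * ε₄) + (1 + ε₁) * (2 * (C₀ * (1 + C) * ε₃)))
          * (P * NK (k + 1) gb) := by ring
    _ ≤ (1 + ε) * (gamK k ^ (2 * k + 2) * P * X) + ε₂ * (P * NK (k + 1) gb) := by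
        apply add_le_add
        · rw [hmain]
          exact mul_le_mul_of_nonneg_right hcoef hA0
        · exact mul_le_mul_of_nonneg_right hcoef2 hB0
    _ = _ := by ring

end Pool.Agent.Lib.MP_dd244f_an.Even
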