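import Pool.Agent.Lib.MP_dd244f_an.Even.Stmts
import Pool.Agent.Lib.MP_dd244f_an.Four.CG

/-!
(CGK) chirped Gaussians on the hyperplane `∑ δ_j = 0` as superpositions of characters.
-/

set_option autoImplicit false

namespace Pool.Agent.Lib.MP_dd244f_an.Even

open MeasureTheory Filter Topology Finset
open Pool.Agent.Lib.MP_dd244f_an.Four
open scoped RealInnerProductSpace

namespace CGKAux

/-- coordinates in an orthonormal basis of the hyperplane of vectors with sum zero -/
theorem exists_O (k : ℕ) : ∃ O : ℕ → Fin k → ℝ, ∀ x y : ℕ → ℝ,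
    ∑ j ∈ Finset.range (k + 1), x j = 0 →
    ∑ i, (∑ j ∈ Finset.range (k + 1), O j i * x j) * (∑ j ∈ Finset.range (k + 1), O j i * y j)
      = ∑ j ∈ Finset.range (k + 1), x j * y j := by
  have hk : (0 : ℝ) < (k : ℝ) + 1 := by positivity
  let v : Fin (k + 1) → EuclideanSpace ℝ (Fin (k + 1)) :=
    fun _ => WithLp.toLp 2 (fun _ => (Real.sqrt ((k : ℝ) + 1))⁻¹)
  have hv : Orthonormal ℝ ((({0} : Set (Fin (k + 1)))).domRestrict v) := by
    constructor
    · rintro ⟨i, hi⟩
      simp only [Set.domRestrict_apply, v]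
      rw [EuclideanSpace.norm_eq]
      simp only [Real.norm_eq_abs, sq_abs, Finset.sum_const, Finset.card_univ, Fintype.card_fin,
        nsmul_eq_mul, inv_pow, Real.sq_sqrt hk.le]
      push_cast
      rw [mul_inv_cancel₀ hk.ne', Real.sqrt_one]
    · rintro ⟨i, hi⟩ ⟨j, hj⟩ hij
      rw [Set.mem_singleton_iff] at hi hj
      subst hi
      subst hj
      exact absurd rfl hij
  obtain ⟨b, hb⟩ := hv.exists_orthonormalBasis_extension_of_card_eq (by simp)
  have hb0 : b 0 = v 0 := hb 0 rfl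
  refine ⟨fun j i => if h : j < k + 1 then b i.succ ⟨j, h⟩ else 0, fun x y hx => ?_⟩
  have e1 : ∀ (i : Fin k) (z : ℕ → ℝ),
      ∑ j ∈ Finset.range (k + 1), (if h : j < k + 1 then b i.succ ⟨j, h⟩ else 0) * z j =
        ∑ j : Fin (k + 1), b i.succ j * z j := by
    intro i z
    rw [Finset.sum_range]
    refine Finset.sum_congr rfl fun j _ => ?_
    rw [dif_pos j.2]
  let X : EuclideanSpace ℝ (Fin (k + 1)) := WithLp.toLp 2 (fun j => x j)
  let Y : EuclideanSpace ℝ (Fin (k + 1)) := WithLp.toLp 2 (fun j => y j)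
  have h1 := b.sum_inner_mul_inner X Y
  rw [Fin.sum_univ_succ] at h1
  have h0 : ⟪X, b 0⟫ = 0 := by
    rw [hb0, PiLp.inner_apply]
    simp only [v, X, RCLike.inner_apply, conj_trivial]
    rw [← Finset.mul_sum, ← Finset.sum_range (fun j => x j), hx, mul_zero]
  rw [h0, zero_mul, zero_add] at h1
  simp only [e1]
  rw [Finset.sum_range]
  have e2 : ∀ i : Fin k, ⟪X, b i.succ⟫ = ∑ j : Fin (k + 1), b i.succ j * x j := by
    intro i
    rw [PiLp.inner_apply]
    simp [X]
  have e3 : ∀ i : Fin k, ⟪b i.succ, Y⟫ = ∑ j : Fin (k + 1), b i.succ j * y j := by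
    intro i
    rw [PiLp.inner_apply]
    simp [Y, mul_comm]
  have e4 : ⟪X, Y⟫ = ∑ j : Fin (k + 1), x j * y j := by
    rw [PiLp.inner_apply]
    simp [X, Y, mul_comm]
  rw [← e4, ← h1]
  refine Finset.sum_congr rfl fun i _ => ?_
  rw [e2, e3]

theorem ch_sum_right {ι : Type*} (s : Finset ι) (x : ℂ) (f : ι → ℂ) :
    ch x (∑ j ∈ s, f j) = ∏ j ∈ s, ch x (f j) := by
  classical
  induction s using Finset.induction_on with
  | empty => simp [ch_zero_right]
  | insert a s ha ih => rw [Finset.sum_insert ha, Finset.prod_insert ha, ch_add_right, ih]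

theorem ch_sum_left {ι : Type*} (s : Finset ι) (f : ι → ℂ) (ζ : ℂ) :
    ch (∑ j ∈ s, f j) ζ = ∏ j ∈ s, ch (f j) ζ := by
  rw [ch_comm, ch_sum_right]
  refine Finset.prod_congr rfl fun j _ => ch_comm _ _

theorem ch_real_mul (c : ℝ) (x ζ : ℂ) : ch x ((c : ℂ) * ζ) = ch ((c : ℂ) * x) ζ := by
  unfold ch
  congr 3
  simp only [Complex.mul_re, Complex.mul_im, Complex.ofReal_re, Complex.ofReal_im]
  ring

end CGKAux

open CGKAux

theorem cgK : StmtCGK := by
  intro k a β u ha hu
  obtain ⟨K₁, hK₁, hnorm, hrep⟩ := Four.cg a β u ha hu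
  obtain ⟨O, hO⟩ := exists_O k
  refine ⟨fun v => ∏ i, K₁ (v i), O, Integrable.fintype_prod fun _ => hK₁, ?_, ?_⟩
  · have h1 : (fun v : Fin k → ℂ => ‖∏ i, K₁ (v i)‖) = fun v => ∏ i, ‖K₁ (v i)‖ := by
      ext v
      rw [norm_prod]
    rw [h1, integral_fintype_prod_volume_eq_pow (fun z => ‖K₁ z‖), hnorm, Fintype.card_fin]
  · intro δ hδ
    set η : Fin k → ℂ := fun i => ∑ j ∈ Finset.range (k + 1), (O j i : ℂ) * δ j with hη
    have hre : ∀ i, (η i).re = ∑ j ∈ Finset.range (k + 1), O j i * (δ j).re := by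
      intro i
      rw [hη]
      simp [Complex.re_sum]
    have him : ∀ i, (η i).im = ∑ j ∈ Finset.range (k + 1), O j i * (δ j).im := by
      intro i
      rw [hη]
      simp [Complex.im_sum]
    have hxr : ∑ j ∈ Finset.range (k + 1), (δ j).re = 0 := by
      rw [← Complex.re_sum, hδ, Complex.zero_re]
    have hxi : ∑ j ∈ Finset.range (k + 1), (δ j).im = 0 := by
      rw [← Complex.im_sum, hδ, Complex.zero_im]
    have hrr := hO (fun j => (δ j).re) (fun j => (δ j).re) hxr
    have hii := hO (fun j => (δ j).im) (fun j => (δ j).im) hxi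
    have hri := hO (fun j => (δ j).re) (fun j => (δ j).im) hxr
    simp only [← hre, ← him] at hrr hii hri
    have hnsq : ∑ j ∈ Finset.range (k + 1), ‖δ j‖ ^ 2 = ∑ i, ‖η i‖ ^ 2 := by
      simp only [← Complex.normSq_eq_norm_sq, Complex.normSq_apply, Finset.sum_add_distrib]
      rw [hrr, hii]
    have hsq : ∑ j ∈ Finset.range (k + 1), δ j ^ 2 = ∑ i, η i ^ 2 := by
      apply Complex.ext
      · simp only [Complex.re_sum, sq, Complex.mul_re, Finset.sum_sub_distrib]
        rw [hrr, hii]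
      · simp only [Complex.im_sum, sq, Complex.mul_im, Finset.sum_add_distrib]
        rw [hri]
        have : ∀ z : ℂ, z.im * z.re = z.re * z.im := fun z => mul_comm _ _
        simp only [this]
        rw [hri]
    have hleft : ∏ j ∈ Finset.range (k + 1), Complex.exp ((-(a * ‖δ j‖ ^ 2) : ℝ)
        + Complex.I * (β * (δ j ^ 2 * u ^ 2).im : ℝ)) =
        ∏ i, Complex.exp ((-(a * ‖η i‖ ^ 2) : ℝ) + Complex.I * (β * (η i ^ 2 * u ^ 2).im : ℝ)) := by
      rw [← Complex.exp_sum, ← Complex.exp_sum]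
      congr 1
      rw [Finset.sum_add_distrib, Finset.sum_add_distrib, ← Finset.mul_sum, ← Finset.mul_sum,
        ← Complex.ofReal_sum, ← Complex.ofReal_sum, ← Complex.ofReal_sum, ← Complex.ofReal_sum,
        Finset.sum_neg_distrib, Finset.sum_neg_distrib, ← Finset.mul_sum, ← Finset.mul_sum,
        ← Finset.mul_sum, ← Finset.mul_sum, hnsq, ← Complex.im_sum, ← Complex.im_sum,
        ← Finset.sum_mul, ← Finset.sum_mul, hsq]
    rw [hleft, Finset.prod_congr rfl fun i _ => hrep (η i),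
      ← integral_fintype_prod_volume_eq_prod (fun i (z : ℂ) => K₁ z * ch z (η i))]
    congr 1
    ext v
    rw [Finset.prod_mul_distrib]
    congr 1
    have h1 : ∀ i, ch (v i) (η i) = ∏ j ∈ Finset.range (k + 1), ch ((O j i : ℂ) * v i) (δ j) := by
      intro i
      rw [hη]
      simp only
      rw [ch_sum_right]
      exact Finset.prod_congr rfl fun j _ => ch_real_mul _ _ _
    rw [Finset.prod_congr rfl fun i _ => h1 i, Finset.prod_comm]
    refine Finset.prod_congr rfl fun j _ => ?_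
    rw [ch_sum_left]

end Pool.Agent.Lib.MP_dd244f_an.Even
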