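import Pool.Agent.Lib.MP_dd244f_an.Even.Stmts

/-!
Full operator, even `p`: calculus of multiple convolutions (module CV).
-/

set_option autoImplicit false

namespace Pool.Agent.Lib.MP_dd244f_an.Even

open MeasureTheory Filter Topology Finset
open Pool.Agent.Lib.MP_dd244f_an.Four

namespace CVaux

theorem cv_zero (u : ℕ → ℂ → ℂ) : cv 0 u = u 0 := rfl

theorem cv_succ (k : ℕ) (u : ℕ → ℂ → ℂ) : cv (k + 1) u = bil (fun _ => 1) (u (k + 1)) (cv k u) :=
  rfl

theorem cv_succ_apply (k : ℕ) (u : ℕ → ℂ → ℂ) (θ : ℂ) :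
    cv (k + 1) u θ = ∫ δ, u (k + 1) (θ / 2 + δ) * cv k u (θ / 2 - δ) := by
  rw [cv_succ]
  unfold bil
  simp only [one_mul]

theorem cv_congr {k : ℕ} {u v : ℕ → ℂ → ℂ} (h : ∀ i ≤ k, u i = v i) : cv k u = cv k v := by
  induction k with
  | zero => exact h 0 le_rfl
  | succ k ih => rw [cv_succ, cv_succ, h (k + 1) le_rfl, ih fun i hi => h i (by omega)]

theorem cc_mul_integrable {g h : ℂ → ℂ} (hg : CC g) (hh : CC h) (θ : ℂ) :
    Integrable (fun δ => g (θ / 2 + δ) * h (θ / 2 - δ)) := by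
  refine Continuous.integrable_of_hasCompactSupport ?_ ?_
  · have h1 := hg.1
    have h2 := hh.1
    fun_prop
  · refine HasCompactSupport.mul_right ?_
    exact hg.2.comp_homeomorph (Homeomorph.addLeft (θ / 2))

theorem cc_norm {g : ℂ → ℂ} (hg : CC g) : CC (fun ζ => ((‖g ζ‖ : ℝ) : ℂ)) := by
  refine ⟨?_, ?_⟩
  · have := hg.1
    fun_prop
  · exact hg.2.comp_left (g := fun z : ℂ => ((‖z‖ : ℝ) : ℂ)) (by simp)

theorem cc_add {g h : ℂ → ℂ} (hg : CC g) (hh : CC h) : CC (fun ζ => g ζ + h ζ) :=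
  ⟨hg.1.add hh.1, hg.2.add hh.2⟩

theorem cc_sub {g h : ℂ → ℂ} (hg : CC g) (hh : CC h) : CC (fun ζ => g ζ - h ζ) :=
  ⟨hg.1.sub hh.1, hg.2.sub hh.2⟩

/-- the first part -/
theorem part1 (hB : StmtBase) (k : ℕ) (u : ℕ → ℂ → ℂ) (hu : ∀ j ≤ k, CC (u j)) :
    CC (cv k u) ∧ ∀ x, iF (cv k u) x = ∏ j ∈ Finset.range (k + 1), iF (u j) x := by
  induction k with
  | zero =>
    refine ⟨hu 0 le_rfl, ?_⟩
    intro x
    rw [Finset.prod_range_one]
    rfl
  | succ k ih =>
    obtain ⟨h1, h2⟩ := ih fun j hj => hu j (by omega)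
    obtain ⟨h3, h4, _⟩ := hB.2.1 (u (k + 1)) (cv k u) (hu _ le_rfl) h1
    refine ⟨h3, ?_⟩
    intro x
    rw [cv_succ, ← h4 x, h2 x, Finset.prod_range_succ _ (k + 1), mul_comm]

theorem part1b (hB : StmtBase) (k : ℕ) (u : ℕ → ℂ → ℂ) (hu : ∀ j ≤ k, CC (u j)) :
    ∫ θ, ‖cv k u θ‖ ^ 2 = ∫ x, ∏ j ∈ Finset.range (k + 1), ‖iF (u j) x‖ ^ 2 := by
  obtain ⟨h1, h2⟩ := part1 hB k u hu
  rw [← (hB.1 _ h1).2.2.2.2]
  congr 1
  ext x
  rw [h2 x, norm_prod, Finset.prod_pow]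

/-- the update of `ζ` at `k + 1` -/
theorem upd_sum (k : ℕ) (ζ : ℕ → ℂ) (t θ : ℂ) (h : ∑ j ∈ Finset.range (k + 1), ζ j = θ) :
    ∑ j ∈ Finset.range (k + 1 + 1), Function.update ζ (k + 1) t j = θ + t := by
  rw [Finset.sum_range_succ, Function.update_self]
  congr 1
  rw [← h]
  refine Finset.sum_congr rfl fun j hj => ?_
  rw [Function.update_of_ne]
  have := Finset.mem_range.mp hj
  omega

theorem upd_prod (k : ℕ) (ζ : ℕ → ℂ) (t : ℂ) (u : ℕ → ℂ → ℂ) :
    ∏ j ∈ Finset.range (k + 1 + 1), u j (Function.update ζ (k + 1) t j)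
      = (∏ j ∈ Finset.range (k + 1), u j (ζ j)) * u (k + 1) t := by
  rw [Finset.prod_range_succ, Function.update_self]
  congr 1
  refine Finset.prod_congr rfl fun j hj => ?_
  rw [Function.update_of_ne]
  have := Finset.mem_range.mp hj
  omega

theorem part2 (k : ℕ) : ∀ (u v : ℕ → ℂ → ℂ) (c d θ : ℂ),
    (∀ ζ : ℕ → ℂ, ∑ j ∈ Finset.range (k + 1), ζ j = θ →
      c * ∏ j ∈ Finset.range (k + 1), u j (ζ j) = d * ∏ j ∈ Finset.range (k + 1), v j (ζ j)) →
    c * cv k u θ = d * cv k v θ := by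
  induction k with
  | zero =>
    intro u v c d θ h
    have := h (fun _ => θ) (by simp)
    simpa [cv_zero] using this
  | succ k ih =>
    intro u v c d θ h
    rw [cv_succ_apply, cv_succ_apply, ← integral_const_mul, ← integral_const_mul]
    congr 1
    ext δ
    rw [← mul_assoc, ← mul_assoc]
    refine ih u v _ _ _ ?_
    intro ζ hζ
    have h1 := h (Function.update ζ (k + 1) (θ / 2 + δ)) (by
      rw [upd_sum k ζ _ _ hζ]; ring)
    rw [upd_prod, upd_prod] at h1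
    linear_combination h1

theorem part3 (k : ℕ) : ∀ (u : ℕ → ℂ → ℂ) (θ : ℂ), cv k u θ ≠ 0 → ∃ ζ : ℕ → ℂ,
    ∑ j ∈ Finset.range (k + 1), ζ j = θ ∧ ∀ j ≤ k, u j (ζ j) ≠ 0 := by
  induction k with
  | zero =>
    intro u θ h
    refine ⟨fun _ => θ, by simp, ?_⟩
    intro j hj
    obtain rfl : j = 0 := by omega
    exact h
  | succ k ih =>
    intro u θ h
    rw [cv_succ_apply] at h
    have h1 : ∃ δ, u (k + 1) (θ / 2 + δ) * cv k u (θ / 2 - δ) ≠ 0 := by
      by_contra hcon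
      push Not at hcon
      apply h
      simp only [hcon, integral_zero]
    obtain ⟨δ, hδ⟩ := h1
    obtain ⟨ζ, hζ, hz⟩ := ih u _ (right_ne_zero_of_mul hδ)
    refine ⟨Function.update ζ (k + 1) (θ / 2 + δ), ?_, ?_⟩
    · rw [upd_sum k ζ _ _ hζ]; ring
    · intro j hj
      by_cases hjk : j = k + 1
      · subst hjk
        rw [Function.update_self]
        exact left_ne_zero_of_mul hδ
      · rw [Function.update_of_ne hjk]
        exact hz j (by omega)

theorem part5 (hB : StmtBase) (k : ℕ) : ∀ (u v w : ℕ → ℂ → ℂ) (j : ℕ), j ≤ k →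
    (∀ i ≤ k, CC (u i)) → (∀ i ≤ k, CC (v i)) →
    (∀ i, i ≠ j → v i = u i) → (∀ i, i ≠ j → w i = u i) → (∀ ζ, w j ζ = u j ζ + v j ζ) → ∀ θ,
    cv k w θ = cv k u θ + cv k v θ := by
  induction k with
  | zero =>
    intro u v w j hj _ _ _ _ h θ
    obtain rfl : j = 0 := by omega
    exact h θ
  | succ k ih =>
    intro u v w j hj hu hv hvu hwu h θ
    have hcu := (part1 hB k u fun i hi => hu i (by omega)).1
    have hcv := (part1 hB k v fun i hi => hv i (by omega)).1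
    rw [cv_succ_apply, cv_succ_apply, cv_succ_apply,
      ← integral_add (cc_mul_integrable (hu _ le_rfl) hcu θ)
        (cc_mul_integrable (hv _ le_rfl) hcv θ)]
    congr 1
    ext δ
    by_cases hjk : j = k + 1
    · subst hjk
      have e1 : cv k w = cv k u := cv_congr fun i hi => hwu i (by omega)
      have e2 : cv k v = cv k u := cv_congr fun i hi => hvu i (by omega)
      rw [h, e1, e2]
      ring
    · rw [hwu (k + 1) (Ne.symm hjk), hvu (k + 1) (Ne.symm hjk),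
        ih u v w j (by omega) (fun i hi => hu i (by omega)) (fun i hi => hv i (by omega))
          hvu hwu h]
      ring

theorem part4 (hB : StmtBase) (k : ℕ) (u v : ℕ → ℂ → ℂ) (hu : ∀ j ≤ k, CC (u j))
    (hv : ∀ j ≤ k, CC (v j)) (θ : ℂ) :
    cv k u θ - cv k v θ = ∑ j ∈ Finset.range (k + 1),
      cv k (fun i ζ => if i < j then v i ζ else if i = j then u i ζ - v i ζ else u i ζ) θ := by
  set H : ℕ → ℕ → ℂ → ℂ := fun j i => if i < j then v i else u i with hH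
  have hHcc : ∀ j, ∀ i ≤ k, CC (H j i) := by
    intro j i hi
    simp only [hH]
    split_ifs
    · exact hv i hi
    · exact hu i hi
  have e0 : cv k (H 0) = cv k u := cv_congr fun i _ => by simp [hH]
  have e1 : cv k (H (k + 1)) = cv k v := cv_congr fun i hi => by
    simp only [hH]
    rw [if_pos (by omega)]
  have hstep : ∀ j ∈ Finset.range (k + 1),
      cv k (fun i ζ => if i < j then v i ζ else if i = j then u i ζ - v i ζ else u i ζ) θ
        = cv k (H j) θ - cv k (H (j + 1)) θ := by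
    intro j hj
    have hjk : j ≤ k := by have := Finset.mem_range.mp hj; omega
    have := part5 hB k
      (fun i ζ => if i < j then v i ζ else if i = j then u i ζ - v i ζ else u i ζ) (H (j + 1))
      (H j) j hjk ?_ (hHcc (j + 1)) ?_ ?_ ?_ θ
    · rw [this]; ring
    · intro i hi
      by_cases h1 : i < j
      · simp only [if_pos h1]
        exact hv i hi
      · by_cases h2 : i = j
        · simp only [if_neg h1, if_pos h2]
          exact cc_sub (hu i hi) (hv i hi)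
        · simp only [if_neg h1, if_neg h2]
          exact hu i hi
    · intro i hi
      ext ζ
      simp only [hH]
      by_cases h1 : i < j
      · rw [if_pos (by omega), if_pos h1]
      · rw [if_neg (by omega), if_neg h1, if_neg hi]
    · intro i hi
      ext ζ
      simp only [hH]
      by_cases h1 : i < j
      · rw [if_pos h1, if_pos h1]
      · rw [if_neg h1, if_neg h1, if_neg hi]
    · intro ζ
      simp only [hH]
      rw [if_neg (lt_irrefl j), if_neg (lt_irrefl j), if_pos (Nat.lt_succ_self j)]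
      simp
  rw [Finset.sum_congr rfl hstep, Finset.sum_range_sub' (fun j => cv k (H j) θ), e0, e1]

theorem part6a (k : ℕ) (u : ℕ → ℂ → ℂ) : ∀ θ,
    cv k (fun j ζ => ((‖u j ζ‖ : ℝ) : ℂ)) θ
      = ((‖cv k (fun j ζ => ((‖u j ζ‖ : ℝ) : ℂ)) θ‖ : ℝ) : ℂ) := by
  induction k with
  | zero =>
    intro θ
    simp [cv_zero]
  | succ k ih =>
    intro θ
    rw [cv_succ_apply]
    have h1 : ∀ δ, ((‖u (k + 1) (θ / 2 + δ)‖ : ℝ) : ℂ)
        * cv k (fun j ζ => ((‖u j ζ‖ : ℝ) : ℂ)) (θ / 2 - δ)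
        = ((‖u (k + 1) (θ / 2 + δ)‖ *
          ‖cv k (fun j ζ => ((‖u j ζ‖ : ℝ) : ℂ)) (θ / 2 - δ)‖ : ℝ) : ℂ) := by
      intro δ
      rw [Complex.ofReal_mul, ← ih]
    simp only [h1]
    rw [integral_complex_ofReal, Complex.norm_real, Real.norm_of_nonneg]
    exact integral_nonneg fun δ => by positivity

theorem part6 (hB : StmtBase) (k : ℕ) (u : ℕ → ℂ → ℂ) (hu : ∀ j ≤ k, CC (u j)) : ∀ θ,
    ‖cv k u θ‖ ≤ ‖cv k (fun j ζ => ((‖u j ζ‖ : ℝ) : ℂ)) θ‖ := by
  induction k with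
  | zero =>
    intro θ
    simp [cv_zero]
  | succ k ih =>
    intro θ
    have hc := (part1 hB k (fun j ζ => ((‖u j ζ‖ : ℝ) : ℂ))
      fun j hj => cc_norm (hu j (by omega))).1
    have hint := (cc_mul_integrable (cc_norm (hu (k + 1) le_rfl)) hc θ).norm
    have h2 : ‖cv (k + 1) u θ‖ ≤ ∫ δ, ‖((‖u (k + 1) (θ / 2 + δ)‖ : ℝ) : ℂ)
        * cv k (fun j ζ => ((‖u j ζ‖ : ℝ) : ℂ)) (θ / 2 - δ)‖ := by
      rw [cv_succ_apply]
      refine norm_integral_le_of_norm_le hint (Eventually.of_forall fun δ => ?_)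
      rw [norm_mul, norm_mul, Complex.norm_real, norm_norm]
      exact mul_le_mul_of_nonneg_left (ih (fun j hj => hu j (by omega)) _) (norm_nonneg _)
    refine h2.trans (le_of_eq ?_)
    rw [cv_succ_apply]
    have h1 : ∀ δ, ((‖u (k + 1) (θ / 2 + δ)‖ : ℝ) : ℂ)
        * cv k (fun j ζ => ((‖u j ζ‖ : ℝ) : ℂ)) (θ / 2 - δ)
        = ((‖((‖u (k + 1) (θ / 2 + δ)‖ : ℝ) : ℂ)
        * cv k (fun j ζ => ((‖u j ζ‖ : ℝ) : ℂ)) (θ / 2 - δ)‖ : ℝ) : ℂ) := by
      intro δ
      rw [norm_mul, Complex.norm_real, norm_norm, Complex.ofReal_mul, ← part6a]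
    conv_rhs =>
      rw [show (fun δ => ((‖u (k + 1) (θ / 2 + δ)‖ : ℝ) : ℂ)
        * cv k (fun j ζ => ((‖u j ζ‖ : ℝ) : ℂ)) (θ / 2 - δ)) = fun δ =>
        ((‖((‖u (k + 1) (θ / 2 + δ)‖ : ℝ) : ℂ)
        * cv k (fun j ζ => ((‖u j ζ‖ : ℝ) : ℂ)) (θ / 2 - δ)‖ : ℝ) : ℂ) from funext h1]
    rw [integral_complex_ofReal, Complex.norm_real, Real.norm_of_nonneg]
    exact integral_nonneg fun δ => norm_nonneg _

end CVaux

theorem cvc (hB : StmtBase) : StmtCV := by
  intro k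
  refine ⟨?_, CVaux.part2 k, CVaux.part3 k, ?_, CVaux.part5 hB k, ?_⟩
  · intro u hu
    obtain ⟨h1, h2⟩ := CVaux.part1 hB k u hu
    exact ⟨h1, h2, CVaux.part1b hB k u hu⟩
  · intro u v hu hv θ
    exact CVaux.part4 hB k u v hu hv θ
  · intro u hu θ
    exact CVaux.part6 hB k u hu θ

end Pool.Agent.Lib.MP_dd244f_an.Even
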