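import Pool.Agent.Lib.MP_dd244f_an.Even.Stmts

/-!
(CV2) regularity in `θ` of the multilinear forms and relation with Gaussians.
-/

set_option autoImplicit false

namespace Pool.Agent.Lib.MP_dd244f_an.Even

open MeasureTheory Filter Topology Finset
open Pool.Agent.Lib.MP_dd244f_an.Four

namespace CV2Aux

/-- the two-fold convolution as an integral -/
theorem bil_one (u w : ℂ → ℂ) (θ : ℂ) :
    bil (fun _ => 1) u w θ = ∫ ζ, u ζ * w (θ - ζ) := by
  unfold bil
  rw [← integral_add_left_eq_self (fun ζ => u ζ * w (θ - ζ)) (θ / 2)]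
  congr 1
  ext δ
  have : θ - (θ / 2 + δ) = θ / 2 - δ := by ring
  rw [this, one_mul]

theorem cv_cont {Z : Type*} [TopologicalSpace Z] [FirstCountableTopology Z]
    [LocallyCompactSpace Z] (k : ℕ) (U : ℕ → Z → ℂ → ℂ)
    (hc : ∀ j ≤ k, Continuous (fun p : Z × ℂ => U j p.1 p.2))
    (hs : ∀ j ≤ k, ∃ S : Set ℂ, IsCompact S ∧ ∀ z, ∀ ζ, ζ ∉ S → U j z ζ = 0) :
    Continuous (fun p : Z × ℂ => cv k (fun j => U j p.1) p.2) := by
  induction k with
  | zero => exact hc 0 le_rfl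
  | succ k ih =>
    have h1 := ih (fun j hj => hc j (by omega)) (fun j hj => hs j (by omega))
    obtain ⟨S, hS, hS0⟩ := hs (k + 1) le_rfl
    have h2 : (fun p : Z × ℂ => cv (k + 1) (fun j => U j p.1) p.2) =
        fun p : Z × ℂ => ∫ ζ in S, U (k + 1) p.1 ζ * cv k (fun j => U j p.1) (p.2 - ζ) := by
      ext p
      rw [cv, bil_one, setIntegral_eq_integral_of_forall_compl_eq_zero]
      intro ζ hζ
      rw [hS0 p.1 ζ hζ, zero_mul]
    rw [h2]
    refine continuous_parametric_integral_of_continuous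
      (f := fun (p : Z × ℂ) ζ => U (k + 1) p.1 ζ * cv k (fun j => U j p.1) (p.2 - ζ)) ?_ hS
    have h3 : Continuous (fun q : (Z × ℂ) × ℂ => U (k + 1) q.1.1 q.2) :=
      (hc (k + 1) le_rfl).comp (by fun_prop : Continuous fun q : (Z × ℂ) × ℂ => (q.1.1, q.2))
    have h4 : Continuous (fun q : (Z × ℂ) × ℂ => cv k (fun j => U j q.1.1) (q.1.2 - q.2)) :=
      h1.comp (by fun_prop : Continuous fun q : (Z × ℂ) × ℂ => (q.1.1, q.1.2 - q.2))
    exact h3.mul h4

/-- the parallel axis identity -/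
theorem sum_sq (k : ℕ) (ζ : ℕ → ℂ) (θ ξ : ℂ) (h : ∑ j ∈ Finset.range (k + 1), ζ j = θ) :
    ∑ j ∈ Finset.range (k + 1), ‖ζ j - ξ‖ ^ 2 =
      ∑ j ∈ Finset.range (k + 1), ‖ζ j - θ / (k + 1)‖ ^ 2
        + (k + 1) * ‖θ / (k + 1) - ξ‖ ^ 2 := by
  have hk : ((k : ℝ) + 1) ≠ 0 := by positivity
  have hkc : ((k : ℂ) + 1) ≠ 0 := by
    have : ((k : ℂ) + 1) = (((k : ℝ) + 1 : ℝ) : ℂ) := by push_cast; ring
    rw [this]
    exact_mod_cast hk
  set t := θ / ((k : ℂ) + 1) with ht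
  have hre : ∑ j ∈ Finset.range (k + 1), (ζ j).re = (k + 1) * t.re := by
    have h1 : θ = ((k : ℂ) + 1) * t := by rw [ht]; field_simp
    have h2 : θ.re = ((k : ℝ) + 1) * t.re := by rw [h1]; simp
    rw [← h2, ← h, Complex.re_sum]
  have him : ∑ j ∈ Finset.range (k + 1), (ζ j).im = (k + 1) * t.im := by
    have h1 : θ = ((k : ℂ) + 1) * t := by rw [ht]; field_simp
    have h2 : θ.im = ((k : ℝ) + 1) * t.im := by rw [h1]; simp
    rw [← h2, ← h, Complex.im_sum]
  have e : ∀ j, ‖ζ j - ξ‖ ^ 2 = ‖ζ j - t‖ ^ 2 + (‖t - ξ‖ ^ 2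
      + 2 * ((t.re - ξ.re) * ((ζ j).re - t.re) + (t.im - ξ.im) * ((ζ j).im - t.im))) := by
    intro j
    simp only [← Complex.normSq_eq_norm_sq, Complex.normSq_apply, Complex.sub_re, Complex.sub_im]
    ring
  rw [Finset.sum_congr rfl fun j _ => e j, Finset.sum_add_distrib, Finset.sum_add_distrib,
    ← Finset.mul_sum, Finset.sum_add_distrib, ← Finset.mul_sum, ← Finset.mul_sum,
    Finset.sum_sub_distrib, Finset.sum_sub_distrib, hre, him]
  simp only [Finset.sum_const, Finset.card_range, nsmul_eq_mul, Nat.cast_add, Nat.cast_one]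
  ring

end CV2Aux

open CV2Aux

theorem cv2 (hC : StmtCV) (_hB : Four.StmtBase) : StmtCV2 := by
  intro k
  have h1 : ∀ (σ : ℝ) (ξ : ℂ) (g : ℕ → ℂ → ℂ) (θ : ℂ),
      cv k (fun j => gs σ ξ (g j)) θ =
        (Real.exp (-(Real.pi * σ ^ 2 * (k + 1) * ‖θ / (k + 1) - ξ‖ ^ 2)) : ℂ) * AK k σ g θ := by
    intro σ ξ g θ
    have h := (hC k).2.1 (fun j => gs σ ξ (g j))
      (fun j ζ => ga σ (ζ - θ / (k + 1)) * g j ζ) 1
      (Real.exp (-(Real.pi * σ ^ 2 * (k + 1) * ‖θ / (k + 1) - ξ‖ ^ 2)) : ℂ) θ (by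
        intro ζ hζ
        have hs := sum_sq k ζ θ ξ hζ
        simp only [gs, ga]
        rw [Finset.prod_mul_distrib, Finset.prod_mul_distrib, one_mul, ← mul_assoc]
        congr 1
        rw [← Complex.ofReal_prod, ← Complex.ofReal_prod, ← Real.exp_sum, ← Real.exp_sum,
          ← Complex.ofReal_mul, ← Real.exp_add]
        congr 2
        rw [Finset.sum_neg_distrib, Finset.sum_neg_distrib, ← Finset.mul_sum, ← Finset.mul_sum, hs]
        ring)
    rw [one_mul] at h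
    exact h
  refine ⟨h1, ?_, ?_⟩
  · intro σ g hg
    have h2 : AK k σ g = fun θ : ℂ =>
        (Real.exp (Real.pi * σ ^ 2 * (k + 1) * ‖θ / (k + 1)‖ ^ 2) : ℂ)
          * cv k (fun j => gs σ 0 (g j)) θ := by
      ext θ
      rw [h1, ← mul_assoc, ← Complex.ofReal_mul, ← Real.exp_add, sub_zero]
      simp
    have h3 := ((hC k).1 (fun j => gs σ 0 (g j)) fun j hj => gs_cc (hg j hj)).1
    rw [h2]
    refine ⟨?_, h3.2.mul_left⟩
    have := h3.1
    fun_prop
  · intro g a hg ha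
    have h2 := cv_cont (Z := ℂ × ℂ) k (fun j z ζ => a j (z.2, ζ - z.1 / (k + 1)) * g j ζ)
      (fun j hj => by
        have e1 : Continuous (fun p : (ℂ × ℂ) × ℂ => a j (p.1.2, p.2 - p.1.1 / (k + 1))) :=
          (ha j hj).comp (by fun_prop :
            Continuous fun p : (ℂ × ℂ) × ℂ => (p.1.2, p.2 - p.1.1 / ((k : ℂ) + 1)))
        have e2 : Continuous (fun p : (ℂ × ℂ) × ℂ => g j p.2) := (hg j hj).1.comp continuous_snd
        exact e1.mul e2)
      (fun j hj => ⟨tsupport (g j), (hg j hj).2, fun z ζ hζ => by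
        rw [image_eq_zero_of_notMem_tsupport hζ, mul_zero]⟩)
    exact h2.comp (by fun_prop : Continuous fun z : ℂ × ℂ => (z, z.1))

end Pool.Agent.Lib.MP_dd244f_an.Even
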