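import Pool.Agent.Lib.MP_dd244f_an.Even.Stmts
import Pool.Agent.Lib.MP_dd244f_an.Four.Chirp

/-!
The chirped multilinear Gaussian average is controlled by the multilinear Gaussian average.
-/

set_option autoImplicit false

namespace Pool.Agent.Lib.MP_dd244f_an.Even

open MeasureTheory Filter Topology Finset
open Pool.Agent.Lib.MP_dd244f_an.Four

namespace ChirpKAux

/-- Cauchy-Schwarz against a nonnegative weight -/
theorem cs_gen {V : Type*} [MeasurableSpace V] {μ : Measure V} {k X : V → ℝ} (hk : Integrable k μ)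
    (hk0 : ∀ v, 0 ≤ k v) (h1 : Integrable (fun v => k v * X v) μ)
    (h2 : Integrable (fun v => k v * X v ^ 2) μ) (hL : 0 < ∫ v, k v ∂μ) :
    (∫ v, k v * X v ∂μ) ^ 2 ≤ (∫ v, k v ∂μ) * ∫ v, k v * X v ^ 2 ∂μ := by
  set L := ∫ v, k v ∂μ with hLd
  set m := ∫ v, k v * X v ∂μ with hm
  have h3 : 0 ≤ ∫ v, k v * (L * X v - m) ^ 2 ∂μ :=
    integral_nonneg fun v => mul_nonneg (hk0 v) (sq_nonneg _)
  have h4 : ∫ v, k v * (L * X v - m) ^ 2 ∂μ =
      L ^ 2 * (∫ v, k v * X v ^ 2 ∂μ) - 2 * L * m * m + m ^ 2 * L := by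
    have e : ∀ v, k v * (L * X v - m) ^ 2 =
        L ^ 2 * (k v * X v ^ 2) - 2 * L * m * (k v * X v) + m ^ 2 * k v := fun v => by ring
    simp_rw [e]
    have i1 : Integrable (fun v => L ^ 2 * (k v * X v ^ 2)) μ := h2.const_mul _
    have i2 : Integrable (fun v => 2 * L * m * (k v * X v)) μ := h1.const_mul _
    have i3 : Integrable (fun v => m ^ 2 * k v) μ := hk.const_mul _
    have i4 : Integrable (fun v => L ^ 2 * (k v * X v ^ 2) - 2 * L * m * (k v * X v)) μ :=
      i1.sub i2
    rw [integral_add i4 i3, integral_sub i1 i2, integral_const_mul, integral_const_mul,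
      integral_const_mul]
  rw [h4] at h3
  have h5 : 0 ≤ L * (L * (∫ v, k v * X v ^ 2 ∂μ) - m ^ 2) := by nlinarith
  have h6 := nonneg_of_mul_nonneg_right h5 hL
  linarith

/-- measurability of `cv` in parameters -/
theorem cv_sm {X : Type*} [MeasurableSpace X] (k : ℕ) (U : ℕ → X → ℂ → ℂ)
    (hU : ∀ j, StronglyMeasurable (fun z : X × ℂ => U j z.1 z.2)) :
    StronglyMeasurable (fun z : X × ℂ => cv k (fun j => U j z.1) z.2) := by
  induction k with
  | zero => exact hU 0
  | succ k ih =>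
    have h1 : StronglyMeasurable (fun z : (X × ℂ) × ℂ =>
        U (k + 1) z.1.1 (z.1.2 / 2 + z.2) * cv k (fun j => U j z.1.1) (z.1.2 / 2 - z.2)) := by
      refine StronglyMeasurable.mul ?_ ?_
      · exact (hU (k + 1)).comp_measurable
          (g := fun z : (X × ℂ) × ℂ => (z.1.1, z.1.2 / 2 + z.2)) (by fun_prop)
      · exact ih.comp_measurable
          (g := fun z : (X × ℂ) × ℂ => (z.1.1, z.1.2 / 2 - z.2)) (by fun_prop)
    have h2 := h1.integral_prod_right' (ν := (volume : Measure ℂ))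
    simpa only [cv, bil, one_mul] using h2

/-- uniform bound for `cv` -/
theorem cv_bound {X : Type*} (k : ℕ) (U : ℕ → X → ℂ → ℂ) (W : ℂ → ℝ) (B : ℝ)
    (hW : Integrable W) (hW0 : ∀ ζ, 0 ≤ W ζ) (hWB : ∀ ζ, W ζ ≤ B)
    (hUW : ∀ j x ζ, ‖U j x ζ‖ ≤ W ζ) :
    ∃ D, 0 ≤ D ∧ ∀ x θ, ‖cv k (fun j => U j x) θ‖ ≤ D := by
  induction k with
  | zero => exact ⟨B, (hW0 0).trans (hWB 0), fun x θ => (hUW 0 x θ).trans (hWB θ)⟩
  | succ k ih =>
    obtain ⟨D, hD0, hD⟩ := ih
    refine ⟨(∫ ζ, W ζ) * D, mul_nonneg (integral_nonneg hW0) hD0, fun x θ => ?_⟩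
    have hi : Integrable fun δ => W (θ / 2 + δ) * D := (hW.comp_add_left (θ / 2)).mul_const D
    have : ‖cv (k + 1) (fun j => U j x) θ‖ ≤ ∫ δ, W (θ / 2 + δ) * D := by
      refine norm_integral_le_of_norm_le hi (Eventually.of_forall fun δ => ?_)
      simp only [one_mul, norm_mul]
      exact mul_le_mul (hUW _ _ _) (hD _ _) (norm_nonneg _) (hW0 _)
    refine this.trans (le_of_eq ?_)
    rw [integral_mul_const, integral_add_left_eq_self W]

/-- superposition -/
theorem cv_super {V : Type*} [MeasurableSpace V] (μ : Measure V) [SigmaFinite μ]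
    (u : ℕ → ℂ → ℂ) (U : ℕ → V → ℂ → ℂ)
    (hU : ∀ j, StronglyMeasurable (fun z : V × ℂ => U j z.1 z.2)) (W : ℂ → ℝ) (B : ℝ)
    (hW : Integrable W) (hW0 : ∀ ζ, 0 ≤ W ζ) (hWB : ∀ ζ, W ζ ≤ B)
    (hUW : ∀ j x ζ, ‖U j x ζ‖ ≤ W ζ) (k : ℕ) :
    ∀ (c θ : ℂ) (K : V → ℂ), Integrable K μ →
      (∀ ζ : ℕ → ℂ, ∑ j ∈ range (k + 1), ζ j = θ →
        c * ∏ j ∈ range (k + 1), u j (ζ j) =
          ∫ v, K v * ∏ j ∈ range (k + 1), U j v (ζ j) ∂μ) →
      c * cv k u θ = ∫ v, K v * cv k (fun j => U j v) θ ∂μ := by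
  induction k with
  | zero =>
    intro c θ K _ h
    have := h (fun _ => θ) (by simp)
    simpa only [zero_add, prod_range_one, cv] using this
  | succ k ih =>
    intro c θ K hK h
    obtain ⟨D, hD0, hD⟩ := cv_bound k U W B hW hW0 hWB hUW
    have hsm := cv_sm k U hU
    have hUv : ∀ ζ, StronglyMeasurable fun v => U (k + 1) v ζ := fun ζ =>
      (hU (k + 1)).comp_measurable (g := fun v : V => (v, ζ)) (by fun_prop)
    have hstep : ∀ δ : ℂ, c * (1 * (u (k + 1) (θ / 2 + δ) * cv k u (θ / 2 - δ))) =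
        ∫ v, K v * (U (k + 1) v (θ / 2 + δ) * cv k (fun j => U j v) (θ / 2 - δ)) ∂μ := by
      intro δ
      have hi : Integrable (fun v => K v * U (k + 1) v (θ / 2 + δ)) μ := by
        have : Integrable (fun v => U (k + 1) v (θ / 2 + δ) * K v) μ :=
          Integrable.bdd_mul (c := B) hK (hUv _).aestronglyMeasurable
            (Eventually.of_forall fun v => (hUW _ _ _).trans (hWB _))
        refine this.congr (Eventually.of_forall fun v => by simp only; ring)
      have h1 := ih (c * u (k + 1) (θ / 2 + δ)) (θ / 2 - δ)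
        (fun v => K v * U (k + 1) v (θ / 2 + δ)) hi (by
          intro ζ hζ
          have h2 := h (fun j => if j = k + 1 then θ / 2 + δ else ζ j) (by
            rw [sum_range_succ]
            simp only [if_true]
            have : ∑ j ∈ range (k + 1), (if j = k + 1 then θ / 2 + δ else ζ j) =
                ∑ j ∈ range (k + 1), ζ j := by
              refine sum_congr rfl fun j hj => ?_
              rw [if_neg]
              have := mem_range.1 hj
              omega
            rw [this, hζ]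
            ring)
          have e1 : ∀ F : ℕ → ℂ → ℂ, ∏ j ∈ range (k + 1 + 1),
              F j (if j = k + 1 then θ / 2 + δ else ζ j) =
              (∏ j ∈ range (k + 1), F j (ζ j)) * F (k + 1) (θ / 2 + δ) := by
            intro F
            rw [prod_range_succ]
            simp only [if_true]
            congr 1
            refine prod_congr rfl fun j hj => ?_
            rw [if_neg]
            have := mem_range.1 hj
            omega
          rw [e1] at h2
          have e2 : ∀ v, ∏ j ∈ range (k + 1 + 1),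
              U j v (if j = k + 1 then θ / 2 + δ else ζ j) =
              (∏ j ∈ range (k + 1), U j v (ζ j)) * U (k + 1) v (θ / 2 + δ) :=
            fun v => e1 (fun j => U j v)
          simp only [e2] at h2
          calc c * u (k + 1) (θ / 2 + δ) * ∏ j ∈ range (k + 1), u j (ζ j)
              = c * ((∏ j ∈ range (k + 1), u j (ζ j)) * u (k + 1) (θ / 2 + δ)) := by ring
            _ = _ := h2
            _ = _ := by
              congr 1
              ext v
              ring)
      calc c * (1 * (u (k + 1) (θ / 2 + δ) * cv k u (θ / 2 - δ)))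
          = c * u (k + 1) (θ / 2 + δ) * cv k u (θ / 2 - δ) := by ring
        _ = _ := h1
        _ = _ := by
          congr 1
          ext v
          ring
    have hprod : Integrable (fun z : ℂ × V =>
        K z.2 * (U (k + 1) z.2 (θ / 2 + z.1) * cv k (fun j => U j z.2) (θ / 2 - z.1)))
        (volume.prod μ) := by
      have hb : Integrable (fun z : ℂ × V => (W (θ / 2 + z.1) * D) * ‖K z.2‖)
          (volume.prod μ) :=
        ((hW.comp_add_left (θ / 2)).mul_const D).mul_prod hK.norm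
      refine hb.mono' ?_ (Eventually.of_forall fun z => ?_)
      · refine AEStronglyMeasurable.mul hK.1.comp_snd ?_
        refine StronglyMeasurable.aestronglyMeasurable ?_
        refine StronglyMeasurable.mul ?_ ?_
        · exact (hU (k + 1)).comp_measurable
            (g := fun z : ℂ × V => (z.2, θ / 2 + z.1)) (by fun_prop)
        · exact hsm.comp_measurable
            (g := fun z : ℂ × V => (z.2, θ / 2 - z.1)) (by fun_prop)
      · rw [norm_mul, norm_mul, mul_comm]
        exact mul_le_mul_of_nonneg_right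
          (mul_le_mul (hUW _ _ _) (hD _ _) (norm_nonneg _) (hW0 _)) (norm_nonneg _)
    calc c * cv (k + 1) u θ
        = ∫ δ, c * (1 * (u (k + 1) (θ / 2 + δ) * cv k u (θ / 2 - δ))) := by
          rw [integral_const_mul]
          rfl
      _ = ∫ δ, ∫ v, K v * (U (k + 1) v (θ / 2 + δ) * cv k (fun j => U j v) (θ / 2 - δ)) ∂μ := by
          congr 1
          ext δ
          exact hstep δ
      _ = ∫ v, (∫ δ, K v * (U (k + 1) v (θ / 2 + δ) * cv k (fun j => U j v) (θ / 2 - δ))) ∂μ :=
          integral_integral_swap hprod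
      _ = _ := by
          congr 1
          ext v
          rw [integral_const_mul]
          congr 1
          simp only [cv, bil, one_mul]

theorem continuous_ga (σ : ℝ) : Continuous (ga σ) := by
  unfold ga
  fun_prop

theorem norm_ga_le (σ : ℝ) (δ : ℂ) : ‖ga σ δ‖ ≤ 1 := by
  unfold ga
  rw [Complex.norm_real, Real.norm_eq_abs, Real.abs_exp]
  apply Real.exp_le_one_iff.2
  have := Real.pi_pos
  have : 0 ≤ Real.pi * σ ^ 2 * ‖δ‖ ^ 2 := by positivity
  linarith

/-- the weight is integrable -/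
theorem wk_int (k : ℕ) {σ : ℝ} (hσ : 0 < σ) (ξ : ℂ) : Integrable (wk k σ ξ) := by
  have hpi := Real.pi_pos
  have hk : (0 : ℝ) < k + 1 := by positivity
  set b : ℝ := 2 * Real.pi * σ ^ 2 / (k + 1) with hb
  have hb0 : 0 < b := by positivity
  have h0 : Integrable (fun θ : ℂ => Real.exp (-b * ‖θ‖ ^ 2)) :=
    GaussianFourier.integrable_cexp_neg_mul_sq_norm_add (V := ℂ) (b := ((b : ℝ) : ℂ))
      (by rw [Complex.ofReal_re]; exact hb0) 0 0 |>.norm.congr
      (Eventually.of_forall fun θ => by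
        simp only [Complex.norm_exp]
        congr 1
        have : (-((b : ℝ) : ℂ) * (‖θ‖ : ℂ) ^ 2 + 0 * ((inner ℝ (0 : ℂ) θ : ℝ) : ℂ)) =
          ((-b * ‖θ‖ ^ 2 : ℝ) : ℂ) := by push_cast; ring
        rw [this, Complex.ofReal_re])
  have h1 := h0.comp_sub_right ((k + 1) * ξ)
  refine h1.congr (Eventually.of_forall fun θ => ?_)
  simp only [wk]
  congr 1
  have hk' : ((k : ℂ) + 1) ≠ 0 := by exact_mod_cast hk.ne'
  have e1 : θ / (k + 1) - ξ = (θ - (k + 1) * ξ) / (k + 1) := by field_simp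
  have e2 : ‖((k : ℂ) + 1)‖ = (k : ℝ) + 1 := by
    have : ((k : ℂ) + 1) = (((k : ℝ) + 1 : ℝ) : ℂ) := by push_cast; rfl
    rw [this, Complex.norm_real, Real.norm_eq_abs, abs_of_pos hk]
  rw [e1, norm_div, e2, hb]
  field_simp

end ChirpKAux

open ChirpKAux in
theorem chirpK (hG : StmtCGK) (hH : StmtHoldK) (hC : StmtCV) (_hC2 : StmtCV2) : StmtChirpK := by
  intro k σ r β u ξ g hσ hr hu hg
  have hpi := Real.pi_pos
  have ha : 0 < Real.pi * (r ^ 2 - σ ^ 2) := by
    have : σ ^ 2 < r ^ 2 := by gcongr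
    have : 0 < r ^ 2 - σ ^ 2 := by linarith
    positivity
  obtain ⟨K, O, hK, hKn, hKe⟩ := hG k (Real.pi * (r ^ 2 - σ ^ 2)) β u ha hu
  set a := Real.pi * (r ^ 2 - σ ^ 2) with had
  set L := ∫ v, ‖K v‖ with hL
  have hL0 : 0 < L := by rw [hKn]; positivity
  have hL2 : L ^ 2 = (1 + β ^ 2 / a ^ 2) ^ k := by
    rw [hKn, ← pow_mul, mul_comm, pow_mul, Real.sq_sqrt (by positivity)]
  -- the frequencies
  set y : (Fin k → ℂ) → ℕ → ℂ := fun v j => ∑ i, (O j i : ℂ) * v i with hy
  have hyc : ∀ j, Continuous fun v => y v j := by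
    intro j
    simp only [hy]
    fun_prop
  -- the functions
  set U : ℕ → (Fin k → ℂ) × ℂ → ℂ → ℂ := fun j x ζ =>
    ch (y x.1 j) (ζ - x.2 / (k + 1)) * (ga σ (ζ - x.2 / (k + 1)) * g ζ) with hU
  have hUc : ∀ j, Continuous fun z : ((Fin k → ℂ) × ℂ) × ℂ => U j z.1 z.2 := by
    intro j
    have h1 := hyc j
    have h2 := hg.1
    have h3 := continuous_ga σ
    simp only [hU]
    refine Continuous.mul ?_ (by fun_prop)
    exact continuous_ch2.comp (by fun_prop :
      Continuous fun z : ((Fin k → ℂ) × ℂ) × ℂ => (y z.1.1 j, z.2 - z.1.2 / (k + 1)))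
  have hUs : ∀ j, StronglyMeasurable fun z : ((Fin k → ℂ) × ℂ) × ℂ => U j z.1 z.2 := fun j =>
    (hUc j).stronglyMeasurable
  obtain ⟨B, hB0, hB⟩ := ChirpAux.exists_bound hg
  have hUW : ∀ j x ζ, ‖U j x ζ‖ ≤ ‖g ζ‖ := by
    intro j x ζ
    simp only [hU, norm_mul, norm_ch, one_mul]
    exact mul_le_of_le_one_left (norm_nonneg _) (norm_ga_le _ _)
  have hgi : Integrable fun ζ => ‖g ζ‖ := (ChirpAux.int_g hg).norm
  obtain ⟨D, hD0, hD⟩ := cv_bound k U (fun ζ => ‖g ζ‖) B hgi (fun _ => norm_nonneg _) hB hUW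
  set X : (Fin k → ℂ) × ℂ → ℂ := fun p => cv k (fun j => U j p) p.2 with hX
  have hXm : StronglyMeasurable X :=
    (cv_sm k U hUs).comp_measurable
      (g := fun p : (Fin k → ℂ) × ℂ => (p, p.2)) (by fun_prop)
  -- superposition
  have key : ∀ θ, MF k (fun _ δ => Complex.exp ((-(Real.pi * r ^ 2 * ‖δ‖ ^ 2) : ℝ)
        + Complex.I * (β * (δ ^ 2 * u ^ 2).im : ℝ))) (fun _ => g) θ = ∫ v, K v * X (v, θ) := by
    intro θ
    have hUs' : ∀ j, StronglyMeasurable fun z : (Fin k → ℂ) × ℂ => U j (z.1, θ) z.2 := fun j =>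
      (hUs j).comp_measurable
        (g := fun z : (Fin k → ℂ) × ℂ => ((z.1, θ), z.2)) (by fun_prop)
    have h1 := cv_super (volume : Measure (Fin k → ℂ))
      (fun _ ζ => Complex.exp ((-(Real.pi * r ^ 2 * ‖ζ - θ / (k + 1)‖ ^ 2) : ℝ)
        + Complex.I * (β * ((ζ - θ / (k + 1)) ^ 2 * u ^ 2).im : ℝ)) * g ζ)
      (fun j v => U j (v, θ)) hUs' (fun ζ => ‖g ζ‖) B hgi (fun _ => norm_nonneg _) hB
      (fun j v ζ => hUW j (v, θ) ζ) k 1 θ K hK (by
        intro ζ hζ
        have hk' : ((k : ℂ) + 1) ≠ 0 := by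
          have : ((k : ℝ) + 1) ≠ 0 := by positivity
          exact_mod_cast this
        have hs : ∑ j ∈ range (k + 1), (ζ j - θ / (k + 1)) = 0 := by
          rw [sum_sub_distrib, hζ]
          simp only [sum_const, card_range, nsmul_eq_mul]
          push_cast
          field_simp
          ring
        have h2 := hKe (fun j => ζ j - θ / (k + 1)) hs
        have e1 : ∀ δ : ℂ, Complex.exp ((-(Real.pi * r ^ 2 * ‖δ‖ ^ 2) : ℝ)
            + Complex.I * (β * (δ ^ 2 * u ^ 2).im : ℝ)) =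
            Complex.exp ((-(a * ‖δ‖ ^ 2) : ℝ) + Complex.I * (β * (δ ^ 2 * u ^ 2).im : ℝ)) *
              ga σ δ := by
          intro δ
          unfold ga
          rw [Complex.ofReal_exp, ← Complex.exp_add]
          congr 1
          rw [had]
          push_cast
          ring
        have e2 : ∏ j ∈ range (k + 1), Complex.exp ((-(Real.pi * r ^ 2 *
              ‖ζ j - θ / (k + 1)‖ ^ 2) : ℝ)
            + Complex.I * (β * ((ζ j - θ / (k + 1)) ^ 2 * u ^ 2).im : ℝ)) * g (ζ j) =
            (∏ j ∈ range (k + 1), Complex.exp ((-(a * ‖ζ j - θ / (k + 1)‖ ^ 2) : ℝ)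
              + Complex.I * (β * ((ζ j - θ / (k + 1)) ^ 2 * u ^ 2).im : ℝ))) *
            ∏ j ∈ range (k + 1), ga σ (ζ j - θ / (k + 1)) * g (ζ j) := by
          rw [← prod_mul_distrib]
          refine prod_congr rfl fun j _ => ?_
          rw [e1]
          ring
        rw [one_mul, e2, h2, ← integral_mul_const]
        congr 1
        ext v
        have e3 : ∏ j ∈ range (k + 1), U j (v, θ) (ζ j) =
            (∏ j ∈ range (k + 1), ch (∑ i, (O j i : ℂ) * v i) (ζ j - θ / (k + 1))) *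
              ∏ j ∈ range (k + 1), ga σ (ζ j - θ / (k + 1)) * g (ζ j) := by
          rw [← prod_mul_distrib]
        rw [e3, mul_assoc])
    rw [one_mul] at h1
    exact h1
  -- comparison with the Gaussian averages
  have hnorm : ∀ v θ, ‖X (v, θ)‖ = ‖AK k σ (fun j ζ => ch (y v j) ζ * g ζ) θ‖ := by
    intro v θ
    have h1 := (hC k).2.1 (fun j => U j (v, θ))
      (fun j ζ => ga σ (ζ - θ / (k + 1)) * (ch (y v j) ζ * g ζ)) 1
      (∏ j ∈ range (k + 1), ch (y v j) (-(θ / (k + 1)))) θ (by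
        intro ζ _
        rw [one_mul, ← prod_mul_distrib]
        refine prod_congr rfl fun j _ => ?_
        simp only [hU, sub_eq_add_neg, ch_add_right]
        ring)
    rw [one_mul] at h1
    simp only [hX]
    rw [h1, norm_mul, norm_prod]
    simp only [norm_ch, prod_const_one, one_mul]
    rfl
  have hw0 : ∀ θ, 0 ≤ wk k σ ξ θ := fun θ => (Real.exp_pos _).le
  have hwi := wk_int k hσ ξ
  set w : ℂ → ℝ := wk k σ ξ with hw
  set E := ∫ θ, w θ * ‖AK k σ (fun _ => g) θ‖ ^ 2 with hE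
  have hHold : ∀ v, ∫ θ, w θ * ‖X (v, θ)‖ ^ 2 ≤ E := by
    intro v
    have := hH k σ g (y v) ξ hg
    simp only [hnorm]
    exact this
  have hF : Integrable (fun z : (Fin k → ℂ) × ℂ => ‖X z‖ ^ 2 * (‖K z.1‖ * w z.2))
      (volume.prod volume) := by
    refine Integrable.bdd_mul (c := D ^ 2) (hK.norm.mul_prod hwi)
      (hXm.norm.pow 2).aestronglyMeasurable (Eventually.of_forall fun z => ?_)
    rw [Real.norm_eq_abs, abs_of_nonneg (by positivity)]
    exact pow_le_pow_left₀ (norm_nonneg _) (hD z z.2) 2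
  have hXv : ∀ θ, StronglyMeasurable fun v => X (v, θ) := fun θ =>
    hXm.comp_measurable (g := fun v : Fin k → ℂ => (v, θ)) (by fun_prop)
  have pt : ∀ θ, ‖∫ v, K v * X (v, θ)‖ ^ 2 ≤ L * ∫ v, ‖K v‖ * ‖X (v, θ)‖ ^ 2 := by
    intro θ
    have i1 : Integrable fun v => ‖K v‖ * ‖X (v, θ)‖ := by
      have : Integrable fun v => ‖X (v, θ)‖ * ‖K v‖ :=
        Integrable.bdd_mul (c := D) hK.norm (hXv θ).norm.aestronglyMeasurable
          (Eventually.of_forall fun v => by rw [norm_norm]; exact hD _ _)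
      refine this.congr (Eventually.of_forall fun v => by simp only; ring)
    have i2 : Integrable fun v => ‖K v‖ * ‖X (v, θ)‖ ^ 2 := by
      have : Integrable fun v => ‖X (v, θ)‖ ^ 2 * ‖K v‖ :=
        Integrable.bdd_mul (c := D ^ 2) hK.norm ((hXv θ).norm.pow 2).aestronglyMeasurable
          (Eventually.of_forall fun v => by
            rw [Real.norm_eq_abs, abs_of_nonneg (by positivity)]
            exact pow_le_pow_left₀ (norm_nonneg _) (hD _ _) 2)
      refine this.congr (Eventually.of_forall fun v => by simp only; ring)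
    refine le_trans ?_ (cs_gen hK.norm (fun v => norm_nonneg _) i1 i2 hL0)
    refine pow_le_pow_left₀ (norm_nonneg _) ?_ 2
    refine (norm_integral_le_integral_norm _).trans (le_of_eq ?_)
    congr 1
    ext v
    rw [norm_mul]
  have hswap : ∫ θ, ∫ v, ‖X (v, θ)‖ ^ 2 * (‖K v‖ * w θ) =
      ∫ v, ∫ θ, ‖X (v, θ)‖ ^ 2 * (‖K v‖ * w θ) := (integral_integral_swap hF).symm
  calc ∫ θ, w θ * ‖MF k (fun _ δ => Complex.exp ((-(Real.pi * r ^ 2 * ‖δ‖ ^ 2) : ℝ)
        + Complex.I * (β * (δ ^ 2 * u ^ 2).im : ℝ))) (fun _ => g) θ‖ ^ 2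
      ≤ ∫ θ, L * ∫ v, ‖X (v, θ)‖ ^ 2 * (‖K v‖ * w θ) := by
        refine integral_mono_of_nonneg
          (Eventually.of_forall fun θ => mul_nonneg (hw0 θ) (by positivity))
          ((hF.integral_prod_right).const_mul L) (Eventually.of_forall fun θ => ?_)
        simp only
        rw [key θ]
        have e : ∫ v, ‖X (v, θ)‖ ^ 2 * (‖K v‖ * w θ) =
            w θ * ∫ v, ‖K v‖ * ‖X (v, θ)‖ ^ 2 := by
          rw [← integral_const_mul]
          congr 1
          ext v
          ring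
        rw [e]
        calc _ ≤ w θ * (L * ∫ v, ‖K v‖ * ‖X (v, θ)‖ ^ 2) :=
              mul_le_mul_of_nonneg_left (pt θ) (hw0 θ)
          _ = _ := by ring
    _ = L * ∫ v, ∫ θ, ‖X (v, θ)‖ ^ 2 * (‖K v‖ * w θ) := by
        rw [integral_const_mul, hswap]
    _ ≤ L * ∫ v, ‖K v‖ * E := by
        refine mul_le_mul_of_nonneg_left ?_ hL0.le
        refine integral_mono (hF.integral_prod_left) (hK.norm.mul_const E) fun v => ?_
        simp only
        have e : ∫ θ, ‖X (v, θ)‖ ^ 2 * (‖K v‖ * w θ) =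
            ‖K v‖ * ∫ θ, w θ * ‖X (v, θ)‖ ^ 2 := by
          rw [← integral_const_mul]
          congr 1
          ext θ
          ring
        rw [e]
        exact mul_le_mul_of_nonneg_left (hHold v) (norm_nonneg _)
    _ = (1 + β ^ 2 / a ^ 2) ^ k * E := by
        rw [integral_mul_const, ← hL, ← hL2]
        ring

end Pool.Agent.Lib.MP_dd244f_an.Even
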