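import Pool.Agent.Lib.MP_dd244f_an.Four.Dec
import Pool.Agent.Lib.MP_dd244f_an.Even.Stmts

/-!
Full operator, even `p`: module (Dec2), bilinear decay of the interaction of separated scales
at `p = 4`.
-/

set_option autoImplicit false

namespace Pool.Agent.Lib.MP_dd244f_an.Even

open MeasureTheory Filter Topology Finset
open Pool.Agent.Lib.MP_dd244f_an.Four

namespace Dec2

open Four.Dec (csSet tele geo schur hb hb_cc iF_hb iF_sub int22 ra ra_eq hb_zero lo_supp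
  sh_supp Rr cc_facts cc_sub)
open Four.R (rf rf_cc z1 z3 z4 bd_zero_small bd_zero_large)

/-- the transform of `|H_{[a₀, c+1)}| ^ 2 - |H_{[a₀, c)}| ^ 2` -/
noncomputable def kb (a₀ c : ℤ) (H : ℂ → ℂ) (θ : ℂ) : ℂ :=
  hb (cut (bd a₀ (c + 1)) H) θ - hb (cut (bd a₀ c) H) θ

/-- `|H_{[a₀, c+1)}| ^ 2 - |H_{[a₀, c)}| ^ 2` -/
noncomputable def Db (a₀ c : ℤ) (H : ℂ → ℂ) (x : ℂ) : ℝ :=
  ‖iF (cut (bd a₀ (c + 1)) H) x‖ ^ 2 - ‖iF (cut (bd a₀ c) H) x‖ ^ 2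

theorem cut_bd_supp (hF : StmtFac) {a₀ c : ℤ} (h0 : a₀ ≤ c) (H : ℂ → ℂ) (ζ : ℂ)
    (h : cut (bd a₀ c) H ζ ≠ 0) : ‖ζ‖ ≤ 2 * 2 ^ c := by
  by_contra hc
  push Not at hc
  have h1 : (2 : ℝ) ^ a₀ ≤ 2 ^ c := zpow_le_zpow_right₀ (by norm_num) h0
  have h2 : lo c ζ = 0 := by
    by_contra h3
    exact absurd (lo_supp hF c ζ h3) (by linarith)
  have h3 : lo a₀ ζ = 0 := by
    by_contra h3
    exact absurd (lo_supp hF a₀ ζ h3) (by linarith)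
  apply h
  unfold cut bd
  rw [h2, h3]
  simp

theorem kb_zero (hF : StmtFac) {a₀ c : ℤ} (h0 : a₀ ≤ c) (H : ℂ → ℂ) {θ : ℂ}
    (h : (2 : ℝ) ^ (c + 3) < ‖θ‖) : kb a₀ c H θ = 0 := by
  have hk : (0 : ℝ) < 2 ^ c := by positivity
  rw [z4] at h
  unfold kb
  rw [hb_zero (cut_bd_supp hF (c := c + 1) (by omega) H) (by
    rw [zpow_add_one₀ (by norm_num)]; linarith),
    hb_zero (cut_bd_supp hF h0 H) (by linarith)]
  ring

theorem bd_split (hB : StmtBase) (hF : StmtFac) {H : ℂ → ℂ} (hH : CC H) (a b : ℤ) (x : ℂ) :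
    ‖iF (cut (bd a b) H) x‖ ^ 2 ≤
      2 * ‖iF (cut (lo b) H) x‖ ^ 2 + 2 * ‖iF (cut (lo a) H) x‖ ^ 2 := by
  have e : cut (bd a b) H = fun ζ => cut (lo b) H ζ - cut (lo a) H ζ := by
    ext ζ
    unfold cut bd
    push_cast
    ring
  rw [e, iF_sub hB (hF.2.2.2.2.1 H b b hH).1 (hF.2.2.2.2.1 H a a hH).1]
  set P := iF (cut (lo b) H) x
  set Q := iF (cut (lo a) H) x
  have h1 := norm_sub_le P Q
  have h2 := norm_nonneg (P - Q)
  nlinarith [sq_nonneg (‖P‖ - ‖Q‖), norm_nonneg P, norm_nonneg Q]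

section
variable (hB : StmtBase) (hF : StmtFac) {CR : ℝ} (hCR : 0 < CR)
  (hR : ∀ (n : ℕ) (a : ℤ) (ρ : ℝ) (g : ℂ → ℂ), 1 ≤ n → 0 < ρ → CC g →
  (∀ ζ, g ζ ≠ 0 → (2 : ℝ) ^ a ≤ ‖ζ‖ ∧ ‖ζ‖ ≤ (2 : ℝ) ^ (a + 2)) →
  ∫ θ in Metric.closedBall (0 : ℂ) ρ,
    ‖∫ δ, (E1 n θ δ - 1) * (g (δ + θ / 2) * starRingEnd ℂ (g (δ - θ / 2)))‖ ^ 2
      ≤ CR * (n * ρ / (2 : ℝ) ^ a) ^ 2 * N4 g)

include hB hF in
theorem kb_facts {H : ℂ → ℂ} (hH : CC H) (a₀ c : ℤ) :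
    CC (cut (bd a₀ c) H) ∧ CC (cut (sh c) H) ∧ CC (cut (lo c) H) ∧ CC (kb a₀ c H) ∧
    (∀ x, iF (kb a₀ c H) x = (Db a₀ c H x : ℂ)) := by
  have h1 := (hF.2.2.2.2.1 H a₀ (c + 1) hH).2.1
  have h2 := (hF.2.2.2.2.1 H a₀ c hH).2.1
  have h3 := (hF.2.2.2.2.1 H c c hH).2.2
  have h4 := (hF.2.2.2.2.1 H c c hH).1
  refine ⟨h2, h3, h4, cc_sub (hb_cc hB h1) (hb_cc hB h2), fun x => ?_⟩
  have : kb a₀ c H = fun θ => hb (cut (bd a₀ (c + 1)) H) θ - hb (cut (bd a₀ c) H) θ := rfl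
  rw [this, iF_sub hB (hb_cc hB h1) (hb_cc hB h2), iF_hb hB h1, iF_hb hB h2, Db]
  push_cast
  ring

include hB hF in
theorem int_RD {n : ℕ} (hn : 1 ≤ n) {g H : ℂ → ℂ} (hg : CC g) (hg0 : Z0 g) (hH : CC H)
    (a a₀ c : ℤ) :
    Integrable (fun x => Rr n a g x * Db a₀ c H x) ∧
    ((∫ x, Rr n a g x * Db a₀ c H x : ℝ) : ℂ)
      = ∫ θ, ra n a g θ * starRingEnd ℂ (kb a₀ c H θ) := by
  obtain ⟨-, -, -, h4, -, h6, -⟩ := cc_facts hB hF hn hg hg0 a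
  obtain ⟨-, -, -, k5, k7⟩ := kb_facts hB hF hH a₀ c
  obtain ⟨p1, p2⟩ := hB.2.2.2.2.2 (ra n a g) (kb a₀ c H) h4 k5
  have e : (fun x => iF (ra n a g) x * starRingEnd ℂ (iF (kb a₀ c H) x))
      = fun x => ((Rr n a g x * Db a₀ c H x : ℝ) : ℂ) := by
    ext x
    rw [h6, k7, Complex.conj_ofReal]
    push_cast
    ring
  rw [e] at p1 p2
  refine ⟨?_, ?_⟩
  · have := p1.re
    exact this
  · rw [← p2]
    exact integral_complex_ofReal.symm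

include hB hF in
theorem int_Dsq {H : ℂ → ℂ} (hH : CC H) (a₀ c : ℤ) :
    ∫ θ, ‖kb a₀ c H θ‖ ^ 2 = ∫ x, Db a₀ c H x ^ 2 := by
  obtain ⟨-, -, -, k5, k7⟩ := kb_facts hB hF hH a₀ c
  rw [← (hB.1 _ k5).2.2.2.2]
  congr 1
  ext x
  rw [k7, Complex.norm_real, Real.norm_eq_abs, sq_abs]

include hB hF hCR hR in
theorem inter {n : ℕ} (hn : 1 ≤ n) {g H : ℂ → ℂ} (hg : CC g) (hg0 : Z0 g) (hH : CC H)
    (a : ℤ) {a₀ c : ℤ} (hc : a₀ ≤ c) :
    ∫ x, Rr n a g x * Db a₀ c H x ≤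
      8 * Real.sqrt CR * n * (2 ^ (c - a) * Real.sqrt (N4 (cut (sh a) g))
        * Real.sqrt (∫ x, Db a₀ c H x ^ 2)) := by
  obtain ⟨h1, h2, -, h4, -, h6, -⟩ := cc_facts hB hF hn hg hg0 a
  obtain ⟨-, -, -, k5, k7⟩ := kb_facts hB hF hH a₀ c
  obtain ⟨p1, p2⟩ := int_RD hB hF hn hg hg0 hH a a₀ c
  set S := Metric.closedBall (0 : ℂ) (2 ^ (c + 3)) with hS
  have e1 : ∫ x, Rr n a g x * Db a₀ c H x ≤
      ∫ θ, ‖ra n a g θ‖ * ‖kb a₀ c H θ‖ := by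
    calc ∫ x, Rr n a g x * Db a₀ c H x ≤ |∫ x, Rr n a g x * Db a₀ c H x| := le_abs_self _
      _ = ‖((∫ x, Rr n a g x * Db a₀ c H x : ℝ) : ℂ)‖ := by
          rw [Complex.norm_real, Real.norm_eq_abs]
      _ = ‖∫ θ, ra n a g θ * starRingEnd ℂ (kb a₀ c H θ)‖ := by rw [p2]
      _ ≤ ∫ θ, ‖ra n a g θ * starRingEnd ℂ (kb a₀ c H θ)‖ := norm_integral_le_integral_norm _
      _ = _ := by
          congr 1
          ext θ
          rw [norm_mul, RCLike.norm_conj]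
  have e2 : ∫ θ, ‖ra n a g θ‖ * ‖kb a₀ c H θ‖ = ∫ θ in S, ‖ra n a g θ‖ * ‖kb a₀ c H θ‖ := by
    symm
    apply setIntegral_eq_integral_of_forall_compl_eq_zero
    intro θ hθ
    have : (2 : ℝ) ^ (c + 3) < ‖θ‖ := by
      by_contra hc
      exact hθ (by rw [hS, mem_closedBall_zero_iff]; exact not_lt.mp hc)
    rw [kb_zero hF hc _ this]
    simp
  have isq : ∀ u : ℂ → ℂ, CC u → Integrable (fun θ => ‖u θ‖ ^ 2) := by
    intro u hu
    refine Continuous.integrable_of_hasCompactSupport (by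
      have := hu.1
      fun_prop) ?_
    have := hu.2.norm
    exact this.comp_left (g := fun t : ℝ => t ^ 2) (by simp)
  have e3 := csSet S (f := fun θ => ‖ra n a g θ‖) (g := fun θ => ‖kb a₀ c H θ‖)
    (fun _ => norm_nonneg _) (fun _ => norm_nonneg _) h4.1.norm k5.1.norm (isq _ h4) (isq _ k5)
  have e4 := hR n a (2 ^ (c + 3)) (cut (sh a) g) hn (by positivity) h2 (sh_supp hF a g)
  have e5 : ∫ θ in S, ‖ra n a g θ‖ ^ 2 ≤ CR * (n * 2 ^ (c + 3) / (2 : ℝ) ^ a) ^ 2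
      * N4 (cut (sh a) g) := by
    refine le_trans (le_of_eq ?_) e4
    congr 1
    ext θ
    rw [ra_eq h1 h2]
  rw [int_Dsq hB hF hH] at e3
  refine e1.trans (e2.le.trans (e3.trans ?_))
  have e6 : Real.sqrt (CR * (n * 2 ^ (c + 3) / (2 : ℝ) ^ a) ^ 2 * N4 (cut (sh a) g))
      = 8 * Real.sqrt CR * n * (2 ^ (c - a) * Real.sqrt (N4 (cut (sh a) g))) := by
    rw [Real.sqrt_mul (by positivity), Real.sqrt_mul hCR.le, Real.sqrt_sq (by positivity), z4,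
      zpow_sub₀ (by norm_num)]
    ring
  calc Real.sqrt (∫ θ in S, ‖ra n a g θ‖ ^ 2) * Real.sqrt (∫ x, Db a₀ c H x ^ 2)
      ≤ Real.sqrt (CR * (n * 2 ^ (c + 3) / (2 : ℝ) ^ a) ^ 2 * N4 (cut (sh a) g))
        * Real.sqrt (∫ x, Db a₀ c H x ^ 2) := by gcongr
    _ = _ := by rw [e6]; ring

include hB hF in
theorem Dsq_le {H : ℂ → ℂ} (hH : CC H) (a₀ c : ℤ) :
    ∫ x, Db a₀ c H x ^ 2 ≤ 2 * N4 (cut (sh c) H)
      + 16 * N22 (cut (sh c) H) (cut (lo c) H) + 16 * N22 (cut (sh c) H) (cut (lo a₀) H) := by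
  obtain ⟨h0, h1, h3, -, -⟩ := kb_facts hB hF hH a₀ c
  have h5 := (hF.2.2.2.2.1 H a₀ a₀ hH).1
  have hi1 := (hB.1 _ h1).2.2.2.1
  have hi2 := int22 hB h1 h3
  have hi3 := int22 hB h1 h5
  have hi4 : Integrable (fun x => 2 * ‖iF (cut (sh c) H) x‖ ^ 4
      + 16 * (‖iF (cut (sh c) H) x‖ ^ 2 * ‖iF (cut (lo c) H) x‖ ^ 2)) :=
    (hi1.const_mul 2).add (hi2.const_mul 16)
  unfold N4 N22
  rw [← integral_const_mul, ← integral_const_mul, ← integral_const_mul,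
    ← integral_add (hi1.const_mul _) (hi2.const_mul _), ← integral_add hi4 (hi3.const_mul _)]
  refine integral_mono_of_nonneg (Eventually.of_forall fun x => by positivity)
    (hi4.add (hi3.const_mul _)) (Eventually.of_forall fun x => ?_)
  simp only [Db]
  have e : cut (bd a₀ (c + 1)) H = fun ζ => cut (sh c) H ζ + cut (bd a₀ c) H ζ := by
    ext ζ
    unfold cut sh bd
    push_cast
    ring
  have hsp := bd_split hB hF hH a₀ c x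
  rw [e, hB.2.2.2.2.1 _ _ h1 h0]
  set P := iF (cut (sh c) H) x
  set Q := iF (cut (bd a₀ c) H) x
  have t1 : ‖P + Q‖ ≤ ‖P‖ + ‖Q‖ := norm_add_le _ _
  have t2 : ‖Q‖ ≤ ‖P + Q‖ + ‖P‖ := by
    have := norm_sub_le (P + Q) P
    rwa [add_sub_cancel_left] at this
  have p0 := norm_nonneg P
  have q0 := norm_nonneg Q
  have r0 := norm_nonneg (P + Q)
  have t3 : |‖P + Q‖ ^ 2 - ‖Q‖ ^ 2| ≤ ‖P‖ ^ 2 + 2 * ‖Q‖ * ‖P‖ := by
    rw [abs_le]
    constructor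
    · rcases le_total ‖P‖ ‖Q‖ with h | h
      · have : (‖Q‖ - ‖P‖) ^ 2 ≤ ‖P + Q‖ ^ 2 := by
          apply pow_le_pow_left₀ <;> linarith
        nlinarith
      · nlinarith [sq_nonneg ‖P + Q‖]
    · have : ‖P + Q‖ ^ 2 ≤ (‖P‖ + ‖Q‖) ^ 2 := by gcongr
      nlinarith
  have t4 : (‖P + Q‖ ^ 2 - ‖Q‖ ^ 2) ^ 2 ≤ (‖P‖ ^ 2 + 2 * ‖Q‖ * ‖P‖) ^ 2 := by
    rw [← sq_abs]
    gcongr
  have t5 : (‖P‖ ^ 2 + 2 * ‖Q‖ * ‖P‖) ^ 2 ≤ 2 * ‖P‖ ^ 4 + 8 * (‖P‖ ^ 2 * ‖Q‖ ^ 2) := by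
    nlinarith [sq_nonneg (‖P‖ ^ 2 - 2 * ‖Q‖ * ‖P‖)]
  have t6 : ‖P‖ ^ 2 * ‖Q‖ ^ 2 ≤ ‖P‖ ^ 2 *
      (2 * ‖iF (cut (lo c) H) x‖ ^ 2 + 2 * ‖iF (cut (lo a₀) H) x‖ ^ 2) := by gcongr
  linarith

end

end Dec2

open Dec2 in
open Four.Dec (tele schur int22 Rr cc_facts) in
theorem dec2 (hR : Four.StmtR) (hP : Four.StmtPP) (hA : Four.StmtApr) (_hM : Four.StmtMax)
    (hB : Four.StmtBase) (hF : Four.StmtFac) : StmtDec2 := by
  obtain ⟨CR, hCR, hR⟩ := hR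
  obtain ⟨CP, hCP, hP⟩ := hP
  obtain ⟨B, n₀, hB1, hn₀, hA⟩ := hA
  set C1 : ℝ := 4 * CP + 8 * Real.sqrt CR * (Real.sqrt CP * Real.sqrt (34 * CP)) with hC1
  have hC1p : 0 < C1 := by positivity
  refine ⟨C1 * Real.sqrt B, n₀, by positivity, hn₀, ?_⟩
  intro n hn g h hg hg0 hh hh0 A a₀ d hAd
  have hn1 : 1 ≤ n := hn₀.trans hn
  have hH := (hF.2.2.2.2.2.1 h n hn1 hh hh0).1
  have hApr := hA n hn h hh hh0
  set H := mg n h with hHdef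
  have hn4g : 0 ≤ N4 g := n4_nonneg g
  have hn4H : 0 ≤ N4 H := n4_nonneg H
  have hn4h : 0 ≤ N4 h := n4_nonneg h
  -- the sum of squares of `y`
  have hY : ∀ S : Finset ℤ, ∑ c ∈ S, Real.sqrt (∫ x, Db a₀ c H x ^ 2) ^ 2 ≤ 34 * CP * N4 H := by
    intro S
    obtain ⟨-, -, q3, q4⟩ := hP S (fun c => c) H H hH hH
    obtain ⟨-, -, r3, -⟩ := hP S (fun _ => a₀) H H hH hH
    rw [Real.mul_self_sqrt hn4H] at q3 r3
    have : ∀ c ∈ S, Real.sqrt (∫ x, Db a₀ c H x ^ 2) ^ 2 ≤ 2 * N4 (cut (sh c) H)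
        + 16 * N22 (cut (sh c) H) (cut (lo c) H) + 16 * N22 (cut (sh c) H) (cut (lo a₀) H) := by
      intro c _
      rw [Real.sq_sqrt (integral_nonneg fun _ => by positivity)]
      exact Dec2.Dsq_le hB hF hH a₀ c
    refine (Finset.sum_le_sum this).trans ?_
    rw [Finset.sum_add_distrib, Finset.sum_add_distrib, ← Finset.mul_sum, ← Finset.mul_sum,
      ← Finset.mul_sum]
    linarith
  have hX : ∑ a ∈ A, Real.sqrt (N4 (cut (sh a) g)) ^ 2 ≤ CP * N4 g := by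
    obtain ⟨-, -, -, q4⟩ := hP A (fun c => c) g g hg hg
    refine le_trans (le_of_eq (Finset.sum_congr rfl fun a _ => ?_)) q4
    exact Real.sq_sqrt (n4_nonneg _)
  have hsch := schur A d a₀ (fun a => Real.sqrt (N4 (cut (sh a) g)))
    (fun c => Real.sqrt (∫ x, Db a₀ c H x ^ 2)) (CP * N4 g) (34 * CP * N4 H) hX hY
  -- one scale
  have hone : ∀ a ∈ A, N22 (cut (sh a) (mg n g)) (cut (bd a₀ (a - d)) H) ≤
      (2 * N22 (cut (sh a) g) (cut (lo (a - d)) H) + 2 * N22 (cut (sh a) g) (cut (lo a₀) H))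
      + 8 * Real.sqrt CR * n *
        ∑ c ∈ Finset.Ico a₀ (a - d), (2 ^ (c - a) * Real.sqrt (N4 (cut (sh a) g))
        * Real.sqrt (∫ x, Db a₀ c H x ^ 2)) := by
    intro a ha
    obtain ⟨h1, h2, -, -, -, -, -⟩ := cc_facts hB hF hn1 hg hg0 a
    obtain ⟨h3, -, -, -, -⟩ := kb_facts hB hF hH a₀ (a - d)
    have i1 := int22 hB h1 h3
    have i2 := int22 hB h2 h3
    have e1 : N22 (cut (sh a) (mg n g)) (cut (bd a₀ (a - d)) H) =
      N22 (cut (sh a) g) (cut (bd a₀ (a - d)) H)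
        + ∫ x, Rr n a g x * ‖iF (cut (bd a₀ (a - d)) H) x‖ ^ 2 := by
      have : ∫ x, Rr n a g x * ‖iF (cut (bd a₀ (a - d)) H) x‖ ^ 2
          = N22 (cut (sh a) (mg n g)) (cut (bd a₀ (a - d)) H)
            - N22 (cut (sh a) g) (cut (bd a₀ (a - d)) H) := by
        unfold N22
        rw [← integral_sub i1 i2]
        congr 1
        ext x
        unfold Rr
        ring
      rw [this]
      ring
    rw [e1]
    have e0 : N22 (cut (sh a) g) (cut (bd a₀ (a - d)) H) ≤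
        2 * N22 (cut (sh a) g) (cut (lo (a - d)) H) + 2 * N22 (cut (sh a) g) (cut (lo a₀) H) := by
      have j1 := int22 hB h2 (hF.2.2.2.2.1 H (a - d) (a - d) hH).1
      have j2 := int22 hB h2 (hF.2.2.2.2.1 H a₀ a₀ hH).1
      unfold N22
      rw [← integral_const_mul, ← integral_const_mul,
        ← integral_add (j1.const_mul _) (j2.const_mul _)]
      refine integral_mono i2 ((j1.const_mul _).add (j2.const_mul _)) fun x => ?_
      have hsp := bd_split hB hF hH a₀ (a - d) x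
      have := mul_le_mul_of_nonneg_left hsp (sq_nonneg ‖iF (cut (sh a) g) x‖)
      simp only
      linarith
    have hzero : ∀ x, ‖iF (cut (bd a₀ a₀) H) x‖ ^ 2 = 0 := by
      intro x
      have : cut (bd a₀ a₀) H = fun _ => 0 := by
        ext ζ; unfold cut bd; simp
      rw [this]
      unfold iF
      simp
    have e2 : ∀ x, ‖iF (cut (bd a₀ (a - d)) H) x‖ ^ 2
        = ∑ c ∈ Finset.Ico a₀ (a - d), Db a₀ c H x := by
      intro x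
      have := tele (fun c => ‖iF (cut (bd a₀ c) H) x‖ ^ 2) a₀ (a - d) (hAd a ha)
      simp only [hzero x, sub_zero] at this
      rw [← this]
      rfl
    have e3 : ∫ x, Rr n a g x * ‖iF (cut (bd a₀ (a - d)) H) x‖ ^ 2
        = ∑ c ∈ Finset.Ico a₀ (a - d), ∫ x, Rr n a g x * Db a₀ c H x := by
      rw [← integral_finsetSum _ fun c _ => (Dec2.int_RD hB hF hn1 hg hg0 hH a a₀ c).1]
      congr 1
      ext x
      rw [e2, Finset.mul_sum]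
    rw [e3, Finset.mul_sum]
    refine add_le_add e0 (Finset.sum_le_sum fun c hc => ?_)
    exact Dec2.inter hB hF hCR hR hn1 hg hg0 hH a (Finset.mem_Ico.mp hc).1
  obtain ⟨-, -, q3, -⟩ := hP A (fun a => a - d) g H hg hH
  obtain ⟨-, -, r3, -⟩ := hP A (fun _ => a₀) g H hg hH
  have e4 : Real.sqrt (CP * N4 g) * Real.sqrt (34 * CP * N4 H)
      = (Real.sqrt CP * Real.sqrt (34 * CP)) * (Real.sqrt (N4 g) * Real.sqrt (N4 H)) := by
    rw [Real.sqrt_mul hCP.le, Real.sqrt_mul (by positivity)]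
    ring
  rw [e4] at hsch
  have hW : 0 ≤ Real.sqrt (N4 g) * Real.sqrt (N4 H) := by positivity
  have hWle : Real.sqrt (N4 g) * Real.sqrt (N4 H) ≤
      Real.sqrt B * n * (Real.sqrt (N4 g) * Real.sqrt (N4 h)) := by
    have : Real.sqrt (N4 H) ≤ Real.sqrt B * n * Real.sqrt (N4 h) := by
      refine (Real.sqrt_le_sqrt hApr).trans (le_of_eq ?_)
      rw [Real.sqrt_mul (by positivity), Real.sqrt_mul (by positivity),
        Real.sqrt_sq (by positivity)]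
    calc _ ≤ Real.sqrt (N4 g) * (Real.sqrt B * n * Real.sqrt (N4 h)) := by gcongr
      _ = _ := by ring
  set W := Real.sqrt (N4 g) * Real.sqrt (N4 H) with hWdef
  have e5 : 8 * Real.sqrt CR * n * ∑ a ∈ A, ∑ c ∈ Finset.Ico a₀ (a - d),
      (2 ^ (c - a) * Real.sqrt (N4 (cut (sh a) g)) * Real.sqrt (∫ x, Db a₀ c H x ^ 2))
      ≤ 8 * Real.sqrt CR * n * (2 ^ (-(d : ℤ)) * (Real.sqrt CP * Real.sqrt (34 * CP) * W)) := by
    gcongr
  have hd : (0 : ℝ) < 2 ^ (-(d : ℤ)) := by positivity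
  have hmain : ∑ a ∈ A, N22 (cut (sh a) (mg n g)) (cut (bd a₀ (a - d)) H) ≤
      C1 * (1 + n * 2 ^ (-(d : ℤ))) * W := by
    refine (Finset.sum_le_sum hone).trans ?_
    rw [Finset.sum_add_distrib, Finset.sum_add_distrib, ← Finset.mul_sum, ← Finset.mul_sum,
      ← Finset.mul_sum]
    have k1 : 0 ≤ CP * (n * 2 ^ (-(d : ℤ))) * W := by positivity
    have k2 : 0 ≤ 8 * Real.sqrt CR * (Real.sqrt CP * Real.sqrt (34 * CP)) * W := by positivity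
    calc _ ≤ (2 * (CP * W) + 2 * (CP * W)) + 8 * Real.sqrt CR * n * (2 ^ (-(d : ℤ)) *
        (Real.sqrt CP * Real.sqrt (34 * CP) * W)) := by linarith
      _ ≤ _ := by rw [hC1]; nlinarith
  refine hmain.trans ?_
  have hnpos : (0 : ℝ) < n := by exact_mod_cast hn1
  calc C1 * (1 + n * 2 ^ (-(d : ℤ))) * W
      ≤ C1 * (1 + n * 2 ^ (-(d : ℤ))) *
        (Real.sqrt B * n * (Real.sqrt (N4 g) * Real.sqrt (N4 h))) := by gcongr
    _ = _ := by field_simp; ring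

end Pool.Agent.Lib.MP_dd244f_an.Even
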