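import Pool.Agent.Lib.MP_dd244f_an.Even.Stmts
import Pool.Agent.Lib.MP_dd244f_an.Four.Ker

/-!
Full operator, even `p`: module Dens (band-limited approximation and convolution kernels).
-/

set_option autoImplicit false

namespace Pool.Agent.Lib.MP_dd244f_an.Even

open MeasureTheory Filter Topology
open Pool.Agent.Lib.MP_dd244f_an.Joint (st ct Mst ratio)
open Pool.Agent.Lib.MP_dd244f_an.Four
open Pool.Agent.Lib.MP_dd244f_an.Four.FacAux
open scoped ContDiff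

namespace DensAux

theorem fF_eq (f : ℂ → ℂ) (ζ : ℂ) : fF f ζ = iF f (-ζ) := by
  unfold fF iF
  congr 1
  ext x
  rw [ch_neg_left, ch_comm]

theorem bd_smooth (a b : ℤ) : ContDiff ℝ ∞ (fun ζ => ((bd a b ζ : ℝ) : ℂ)) := by
  have : (fun ζ => ((bd a b ζ : ℝ) : ℂ)) = fun ζ => ((lo b ζ : ℝ) : ℂ) - ((lo a ζ : ℝ) : ℂ) := by
    ext ζ
    unfold bd
    push_cast
    rfl
  rw [this]
  exact (lo_smooth b).sub (lo_smooth a)

theorem bd_supp (a b : ℤ) : HasCompactSupport (fun ζ => ((bd a b ζ : ℝ) : ℂ)) := by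
  have : (fun ζ => ((bd a b ζ : ℝ) : ℂ)) = fun ζ => ((lo b ζ : ℝ) : ℂ) - ((lo a ζ : ℝ) : ℂ) := by
    ext ζ
    unfold bd
    push_cast
    rfl
  rw [this]
  exact (lo_supp b).sub (lo_supp a)

theorem sym_smooth (n : ℕ) (a b : ℤ) : ContDiff ℝ ∞ (fun ζ => (bd a b ζ : ℂ) * mm n ζ) := by
  rw [contDiff_iff_contDiffAt]
  intro ζ
  by_cases h : ζ = 0
  · subst h
    have : (fun ζ => (bd a b ζ : ℂ) * mm n ζ) =ᶠ[𝓝 0] fun _ => 0 := by
      filter_upwards [bd_near_zero a b] with ζ hζ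
      rw [hζ]
      simp
    exact contDiffAt_const.congr_of_eventuallyEq this
  · refine (bd_smooth a b).contDiffAt.mul ?_
    have : mm n = fun w => (starRingEnd ℂ w * w⁻¹) ^ n := by
      ext w
      rw [mm, div_eq_mul_inv]
    rw [this]
    have h1 : ContDiffAt ℝ ∞ (fun w : ℂ => starRingEnd ℂ w) ζ :=
      (Complex.conjCLE : ℂ →L[ℝ] ℂ).contDiff.contDiffAt
    have h2 : ContDiffAt ℝ ∞ (fun w : ℂ => w⁻¹) ζ := contDiffAt_id.inv h
    exact (h1.mul h2).pow n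

theorem sym_supp (n : ℕ) (a b : ℤ) : HasCompactSupport (fun ζ => (bd a b ζ : ℂ) * mm n ζ) :=
  (bd_supp a b).mul_right

theorem ker_int {φ : ℂ → ℂ} (h1 : ContDiff ℝ ∞ φ) (h2 : HasCompactSupport φ) :
    Integrable (iF φ) := by
  obtain ⟨K, hK⟩ := ker_schwartz h1 h2
  have h3 : Integrable (fun x => K x) := K.integrable
  exact h3.congr (Eventually.of_forall hK)

/-- convolution formula on the side of the functions -/
theorem conv_f {φ f : ℂ → ℂ} (h1 : Integrable φ) (hf : Integrable f) (x : ℂ) :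
    iF (fun ζ => φ ζ * fF f ζ) x = ∫ y, iF φ (x - y) * f y := by
  have hprod : Integrable (fun p : ℂ × ℂ => ch (x - p.2) p.1 * (φ p.1 * f p.2))
      ((volume : Measure ℂ).prod volume) := by
    refine (h1.mul_prod hf).bdd_mul (c := 1) ?_ ?_
    · have : Continuous (fun p : ℂ × ℂ => ch (x - p.2) p.1) :=
        continuous_ch2.comp ((continuous_const.sub continuous_snd).prodMk continuous_fst)
      exact this.aestronglyMeasurable
    · exact Eventually.of_forall fun p => (norm_ch _ _).le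
  calc iF (fun ζ => φ ζ * fF f ζ) x = ∫ ζ, ch x ζ * (φ ζ * fF f ζ) := rfl
    _ = ∫ ζ, ∫ y, ch (x - y) ζ * (φ ζ * f y) := by
        congr 1
        ext ζ
        unfold fF
        rw [← integral_const_mul, ← integral_const_mul]
        congr 1
        ext y
        rw [sub_eq_add_neg x y, ch_add]
        ring
    _ = ∫ y, ∫ ζ, ch (x - y) ζ * (φ ζ * f y) := integral_integral_swap hprod
    _ = ∫ y, iF φ (x - y) * f y := by
        congr 1
        ext y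
        unfold iF
        rw [← integral_mul_const]
        congr 1
        ext ζ
        ring

theorem conj_fF (f : ℂ → ℂ) (ζ : ℂ) :
    starRingEnd ℂ (fF f ζ) = ∫ x, ch x ζ * starRingEnd ℂ (f x) := by
  unfold fF
  rw [← integral_conj]
  congr 1
  ext x
  rw [map_mul, conj_ch, neg_neg]

theorem ip {G f : ℂ → ℂ} (hG : Integrable G) (hf : Integrable f) :
    ∫ x, iF G x * starRingEnd ℂ (f x) = ∫ ζ, G ζ * starRingEnd ℂ (fF f ζ) := by
  have hf' : Integrable (fun x => starRingEnd ℂ (f x)) := by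
    have := (Complex.conjCLE : ℂ →L[ℝ] ℂ).integrable_comp hf
    exact this
  have hprod : Integrable (fun p : ℂ × ℂ => ch p.1 p.2 * (starRingEnd ℂ (f p.1) * G p.2))
      ((volume : Measure ℂ).prod volume) := by
    refine (hf'.mul_prod hG).bdd_mul (c := 1) continuous_ch2.aestronglyMeasurable ?_
    exact Eventually.of_forall fun p => (norm_ch _ _).le
  calc ∫ x, iF G x * starRingEnd ℂ (f x)
      = ∫ x, ∫ ζ, ch x ζ * (starRingEnd ℂ (f x) * G ζ) := by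
        congr 1
        ext x
        unfold iF
        rw [← integral_mul_const]
        congr 1
        ext ζ
        ring
    _ = ∫ ζ, ∫ x, ch x ζ * (starRingEnd ℂ (f x) * G ζ) := integral_integral_swap hprod
    _ = ∫ ζ, G ζ * starRingEnd ℂ (fF f ζ) := by
        congr 1
        ext ζ
        rw [conj_fF, ← integral_const_mul]
        congr 1
        ext x
        ring

theorem sq_sub (u v : ℂ) : ‖u - v‖ ^ 2 = ‖u‖ ^ 2 - 2 * (u * starRingEnd ℂ v).re + ‖v‖ ^ 2 := by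
  simp only [← Complex.normSq_eq_norm_sq, Complex.normSq_sub]
  ring

theorem int_sq_sub {u v : ℂ → ℂ} (hu : Integrable fun x => ‖u x‖ ^ 2)
    (hv : Integrable fun x => ‖v x‖ ^ 2) (huv : Integrable fun x => u x * starRingEnd ℂ (v x)) :
    Integrable (fun x => ‖u x - v x‖ ^ 2) ∧
    ∫ x, ‖u x - v x‖ ^ 2 = (∫ x, ‖u x‖ ^ 2) - 2 * (∫ x, u x * starRingEnd ℂ (v x)).re
      + ∫ x, ‖v x‖ ^ 2 := by
  have h1 : (fun x => ‖u x - v x‖ ^ 2) =
      fun x => ‖u x‖ ^ 2 - 2 * (u x * starRingEnd ℂ (v x)).re + ‖v x‖ ^ 2 := by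
    ext x
    exact sq_sub _ _
  have h2 : Integrable (fun x => (u x * starRingEnd ℂ (v x)).re) := huv.re
  have h3 : ∫ x, (u x * starRingEnd ℂ (v x)).re = (∫ x, u x * starRingEnd ℂ (v x)).re :=
    integral_re huv
  rw [h1]
  refine ⟨(hu.sub (h2.const_mul 2)).add hv, ?_⟩
  have h4 : Integrable (fun x => ‖u x‖ ^ 2 - 2 * (u x * starRingEnd ℂ (v x)).re) :=
    hu.sub (h2.const_mul 2)
  rw [integral_add h4 hv, integral_sub hu (h2.const_mul 2), integral_const_mul, h3]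

/-- the `L^1` norm of the kernels does not depend on the scale -/
theorem lo_l1 (a : ℤ) : ∫ z, ‖iF (fun ζ => ((lo a ζ : ℝ) : ℂ)) z‖ =
    ∫ z, ‖iF (fun ζ => ((lo 0 ζ : ℝ) : ℂ)) z‖ := by
  have h : (0 : ℝ) < (2 : ℝ) ^ a := two_zpow_pos a
  have e1 : (fun ζ => ((lo a ζ : ℝ) : ℂ)) =
      fun ζ => ((lo 0 (((2 : ℝ) ^ a)⁻¹ • ζ) : ℝ) : ℂ) := by
    ext ζ
    rw [lo_scale a ζ]
  have e2 : ∀ z, ‖iF (fun ζ => ((lo a ζ : ℝ) : ℂ)) z‖ =
      ((2 : ℝ) ^ a) ^ 2 * ‖iF (fun ζ => ((lo 0 ζ : ℝ) : ℂ)) (((2 : ℝ) ^ a) • z)‖ := by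
    intro z
    rw [e1]
    have := ker_scale (fun ζ => ((lo 0 ζ : ℝ) : ℂ)) h z
    rw [this, norm_mul, Complex.norm_real, Real.norm_of_nonneg (by positivity),
      ← Complex.real_smul]
  simp_rw [e2]
  rw [integral_const_mul]
  have h1 := Measure.integral_comp_smul (volume : Measure ℂ)
    (fun z => ‖iF (fun ζ => ((lo 0 ζ : ℝ) : ℂ)) z‖) ((2 : ℝ) ^ a)
  rw [h1, Complex.finrank_real_complex, abs_of_pos (by positivity), smul_eq_mul,
    ← mul_assoc, mul_inv_cancel₀ (by positivity), one_mul]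

theorem lo_bound {f : ℂ → ℂ} (hf : Integrable f) {S : ℝ} (hS : ∀ y, ‖f y‖ ≤ S) (a : ℤ) (x : ℂ) :
    ‖iF (cut (lo a) (fF f)) x‖ ≤ S * ∫ z, ‖iF (fun ζ => ((lo 0 ζ : ℝ) : ℂ)) z‖ := by
  have hi : Integrable (iF (fun ζ => ((lo a ζ : ℝ) : ℂ))) := ker_int (lo_smooth a) (lo_supp a)
  have h1 : iF (cut (lo a) (fF f)) x = ∫ y, iF (fun ζ => ((lo a ζ : ℝ) : ℂ)) (x - y) * f y :=
    conv_f ((lo_smooth a).continuous.integrable_of_hasCompactSupport (lo_supp a)) hf x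
  rw [h1, ← lo_l1 a]
  have h2 : ∫ z, ‖iF (fun ζ => ((lo a ζ : ℝ) : ℂ)) z‖ =
      ∫ y, ‖iF (fun ζ => ((lo a ζ : ℝ) : ℂ)) (x - y)‖ :=
    (integral_sub_left_eq_self (μ := (volume : Measure ℂ))
      (fun z => ‖iF (fun ζ => ((lo a ζ : ℝ) : ℂ)) z‖) x).symm
  rw [h2, ← integral_const_mul]
  refine norm_integral_le_of_norm_le ((hi.comp_sub_left x).norm.const_mul S) ?_
  refine Eventually.of_forall fun y => ?_
  rw [norm_mul, mul_comm]
  exact mul_le_mul_of_nonneg_right (hS y) (norm_nonneg _)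

end DensAux

open DensAux

theorem dens_ker (n : ℕ) (a b : ℤ) : Continuous (iF (fun ζ => (bd a b ζ : ℂ) * mm n ζ)) ∧
    Integrable (iF (fun ζ => (bd a b ζ : ℂ) * mm n ζ)) ∧
    (∃ B, ∀ x, ‖iF (fun ζ => (bd a b ζ : ℂ) * mm n ζ) x‖ ≤ B) ∧
    (∀ f, CC f → ∀ x, iF (cut (bd a b) (mg n (fF f))) x
      = ∫ y, iF (fun ζ => (bd a b ζ : ℂ) * mm n ζ) (x - y) * f y) ∧
    (∀ g, CC g → ∀ x, iF (cut (bd a b) (mg n g)) x
      = ∫ y, iF (fun ζ => (bd a b ζ : ℂ) * mm n ζ) (x - y) * iF g y) := by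
  have hint := (sym_smooth n a b).continuous.integrable_of_hasCompactSupport
    (μ := (volume : Measure ℂ)) (sym_supp n a b)
  have hmg : ∀ g : ℂ → ℂ, cut (bd a b) (mg n g) = fun ζ => ((bd a b ζ : ℂ) * mm n ζ) * g ζ := by
    intro g
    ext ζ
    unfold cut mg
    ring
  refine ⟨iF_continuous hint, ker_int (sym_smooth n a b) (sym_supp n a b), ⟨_, norm_iF_le _⟩,
    fun f hf x => ?_, fun g hg x => ?_⟩
  · rw [hmg]
    exact conv_f hint hf.integrable x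
  · rw [hmg]
    exact ker_conv (sym_smooth n a b) (sym_supp n a b) hg x

namespace DensAux

/-- convergence in `L^2` -/
theorem l2_conv (hL : StmtL2) {f : ℂ → ℂ} (hf : CC f) :
    Tendsto (fun R : ℕ => ∫ ζ, ‖cut (bd (-(R : ℤ)) R) (fF f) ζ - fF f ζ‖ ^ 2) atTop (𝓝 0) := by
  have hfi : Integrable (fun ζ => ‖fF f ζ‖ ^ 2) := by
    have h1 := (hL f hf.integrable hf.memLp).1
    have h2 : Integrable (fun ζ => ‖iF f ζ‖ ^ 2) :=
      (memLp_two_iff_integrable_sq_norm h1.1).1 h1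
    have h3 := h2.comp_neg
    refine h3.congr (Eventually.of_forall fun ζ => ?_)
    simp only [fF_eq]
  have hcont : Continuous (fF f) := by
    have : fF f = fun ζ => iF f (-ζ) := by
      ext ζ
      exact fF_eq f ζ
    rw [this]
    exact (iF_continuous hf.integrable).comp continuous_neg
  have h0 : ∫ ζ : ℂ, (0 : ℝ) = 0 := by simp
  rw [← h0]
  refine tendsto_integral_of_dominated_convergence (fun ζ => 4 * ‖fF f ζ‖ ^ 2) ?_
    (hfi.const_mul 4) ?_ ?_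
  · intro R
    have : Continuous fun ζ => ‖cut (bd (-(R : ℤ)) R) (fF f) ζ - fF f ζ‖ ^ 2 := by
      have h1 : Continuous (cut (bd (-(R : ℤ)) R) (fF f)) :=
        (Complex.continuous_ofReal.comp (bd_cont _ _)).mul hcont
      exact ((h1.sub hcont).norm).pow 2
    exact this.aestronglyMeasurable
  · intro R
    refine Eventually.of_forall fun ζ => ?_
    have h1 := lo_mem (R : ℤ) ζ
    have h2 := lo_mem (-(R : ℤ)) ζ
    have h3 : cut (bd (-(R : ℤ)) R) (fF f) ζ - fF f ζ =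
        ((bd (-(R : ℤ)) R ζ - 1 : ℝ) : ℂ) * fF f ζ := by
      unfold cut
      push_cast
      ring
    rw [h3, norm_mul, Complex.norm_real, mul_pow, Real.norm_of_nonneg (by positivity),
      Real.norm_eq_abs, sq_abs]
    refine mul_le_mul_of_nonneg_right ?_ (sq_nonneg _)
    unfold bd
    nlinarith [h1.1, h1.2, h2.1, h2.2]
  · have hae : ∀ᵐ ζ : ℂ, ζ ≠ 0 := by
      rw [ae_iff]
      simp
    filter_upwards [hae] with ζ hζ
    have hpos : 0 < ‖ζ‖ := norm_pos_iff.2 hζ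
    have hev : ∀ᶠ R : ℕ in atTop, bd (-(R : ℤ)) R ζ = 1 := by
      have h1 : ∀ᶠ R : ℕ in atTop, ‖ζ‖ ≤ (2 : ℝ) ^ R :=
        (tendsto_pow_atTop_atTop_of_one_lt (by norm_num : (1 : ℝ) < 2)).eventually
          (eventually_ge_atTop _)
      have h2 : ∀ᶠ R : ℕ in atTop, 2 / ‖ζ‖ ≤ (2 : ℝ) ^ R :=
        (tendsto_pow_atTop_atTop_of_one_lt (by norm_num : (1 : ℝ) < 2)).eventually
          (eventually_ge_atTop _)
      filter_upwards [h1, h2] with R hR1 hR2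
      have e1 : lo (R : ℤ) ζ = 1 := lo_one (by rw [zpow_natCast]; exact hR1)
      have e2 : lo (-(R : ℤ)) ζ = 0 := by
        apply lo_zero
        have hp : (0 : ℝ) < (2 : ℝ) ^ R := by positivity
        rw [zpow_neg, zpow_natCast, inv_pow]
        rw [div_le_iff₀ hpos] at hR2
        have h5 : 2 ^ 2 ≤ ((2 : ℝ) ^ R * ‖ζ‖) ^ 2 := pow_le_pow_left₀ (by norm_num) hR2 2
        rw [← div_eq_mul_inv, div_le_iff₀ (by positivity)]
        nlinarith
      unfold bd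
      rw [e1, e2, sub_zero]
    refine tendsto_const_nhds.congr' ?_
    filter_upwards [hev] with R hR
    unfold cut
    rw [hR]
    simp

end DensAux

theorem dens (hB : StmtBase) (hL : StmtL2) (_hF : StmtFac) : StmtDens := by
  refine ⟨fun f hf => ?_, dens_ker⟩
  have hcont : Continuous (fF f) := by
    have : fF f = fun ζ => iF f (-ζ) := by
      ext ζ
      exact fF_eq f ζ
    rw [this]
    exact (iF_continuous hf.integrable).comp continuous_neg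
  refine ⟨hcont, fun k hk => ?_⟩
  have hGcc : ∀ R : ℕ, CC (cut (bd (-(R : ℤ)) R) (fF f)) := fun R =>
    ⟨(Complex.continuous_ofReal.comp (bd_cont _ _)).mul hcont, (bd_supp _ _).mul_right⟩
  refine ⟨hGcc, ?_⟩
  have hfi : Integrable (fun ζ => ‖fF f ζ‖ ^ 2) := by
    have h1 := (hL f hf.integrable hf.memLp).1
    have h2 : Integrable (fun ζ => ‖iF f ζ‖ ^ 2) :=
      (memLp_two_iff_integrable_sq_norm h1.1).1 h1
    have h3 := h2.comp_neg
    refine h3.congr (Eventually.of_forall fun ζ => ?_)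
    simp only [fF_eq]
  have hfsq : Integrable (fun x => ‖f x‖ ^ 2) :=
    (memLp_two_iff_integrable_sq_norm hf.memLp.1).1 hf.memLp
  have hPl : ∫ ζ, ‖fF f ζ‖ ^ 2 = ∫ x, ‖f x‖ ^ 2 := by
    rw [← (hL f hf.integrable hf.memLp).2,
      ← integral_neg_eq_self (fun x => ‖iF f x‖ ^ 2)]
    simp only [fF_eq]
  -- the supremum of `f`
  obtain ⟨S, hS⟩ := hf.1.bounded_above_of_compact_support hf.2
  have hS0 : 0 ≤ S := (norm_nonneg _).trans (hS 0)
  set Λ : ℝ := ∫ z, ‖iF (fun ζ => ((lo 0 ζ : ℝ) : ℂ)) z‖ with hΛ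
  have hΛ0 : 0 ≤ Λ := integral_nonneg fun _ => norm_nonneg _
  set B : ℝ := S + 2 * (S * Λ) with hBdef
  have hB0 : 0 ≤ B := by positivity
  have hub : ∀ R : ℕ, ∀ x, ‖iF (cut (bd (-(R : ℤ)) R) (fF f)) x‖ ≤ B := by
    intro R x
    have h1 : iF (cut (bd (-(R : ℤ)) R) (fF f)) x =
        iF (cut (lo R) (fF f)) x - iF (cut (lo (-(R : ℤ))) (fF f)) x := by
      have hc1 : CC (cut (lo (R : ℤ)) (fF f)) :=
        ⟨(Complex.continuous_ofReal.comp (lo_cont _)).mul hcont, (lo_supp _).mul_right⟩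
      have hc2 : CC (cut (lo (-(R : ℤ))) (fF f)) :=
        ⟨(Complex.continuous_ofReal.comp (lo_cont _)).mul hcont, (lo_supp _).mul_right⟩
      unfold iF
      rw [← integral_sub (hc1.integrable_ch x) (hc2.integrable_ch x)]
      congr 1
      ext ζ
      unfold cut bd
      push_cast
      ring
    rw [h1]
    refine (norm_sub_le _ _).trans ?_
    have h2 := lo_bound hf.integrable hS (R : ℤ) x
    have h3 := lo_bound hf.integrable hS (-(R : ℤ)) x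
    rw [← hΛ] at h2 h3
    linarith
  have hfB : ∀ x, ‖f x‖ ≤ B := fun x => (hS x).trans (by
    rw [hBdef]
    have : 0 ≤ S * Λ := mul_nonneg hS0 hΛ0
    linarith)
  -- `L^2` distance
  have hcross : ∀ R : ℕ, Integrable
      (fun x => iF (cut (bd (-(R : ℤ)) R) (fF f)) x * starRingEnd ℂ (f x)) := by
    intro R
    have hc : Continuous
        (fun x => iF (cut (bd (-(R : ℤ)) R) (fF f)) x * starRingEnd ℂ (f x)) :=
      (iF_continuous (hGcc R).integrable).mul (Complex.continuous_conj.comp hf.1)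
    refine hc.integrable_of_hasCompactSupport ?_
    exact (hf.2.comp_left (g := starRingEnd ℂ) (map_zero _)).mul_left
  have hcross2 : ∀ R : ℕ, Integrable
      (fun ζ => cut (bd (-(R : ℤ)) R) (fF f) ζ * starRingEnd ℂ (fF f ζ)) := by
    intro R
    have hc : Continuous
        (fun ζ => cut (bd (-(R : ℤ)) R) (fF f) ζ * starRingEnd ℂ (fF f ζ)) :=
      (hGcc R).1.mul (Complex.continuous_conj.comp hcont)
    exact hc.integrable_of_hasCompactSupport ((hGcc R).2.mul_right)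
  have hGsq : ∀ R : ℕ, Integrable (fun ζ => ‖cut (bd (-(R : ℤ)) R) (fF f) ζ‖ ^ 2) := fun R =>
    (memLp_two_iff_integrable_sq_norm (hGcc R).memLp.1).1 (hGcc R).memLp
  have hd : ∀ R : ℕ, Integrable (fun x => ‖iF (cut (bd (-(R : ℤ)) R) (fF f)) x - f x‖ ^ 2) ∧
      ∫ x, ‖iF (cut (bd (-(R : ℤ)) R) (fF f)) x - f x‖ ^ 2 =
        ∫ ζ, ‖cut (bd (-(R : ℤ)) R) (fF f) ζ - fF f ζ‖ ^ 2 := by
    intro R
    have hb := hB.1 _ (hGcc R)
    obtain ⟨h1, h2⟩ := int_sq_sub hb.2.2.1 hfsq (hcross R)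
    obtain ⟨-, h3⟩ := int_sq_sub (hGsq R) hfi (hcross2 R)
    refine ⟨h1, ?_⟩
    rw [h2, h3, hb.2.2.2.2, ip (hGcc R).integrable hf.integrable, hPl]
  -- `L^2` norm of the approximation
  have hnorm : ∀ R : ℕ, ∫ x, ‖iF (cut (bd (-(R : ℤ)) R) (fF f)) x‖ ^ 2 ≤ ∫ x, ‖f x‖ ^ 2 := by
    intro R
    rw [(hB.1 _ (hGcc R)).2.2.2.2, ← hPl]
    refine integral_mono (hGsq R) hfi fun ζ => ?_
    have h1 := lo_mem (R : ℤ) ζ
    have h2 := lo_mem (-(R : ℤ)) ζ
    simp only [cut]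
    rw [norm_mul, Complex.norm_real, mul_pow, Real.norm_eq_abs, sq_abs]
    refine mul_le_of_le_one_left (sq_nonneg _) ?_
    unfold bd
    nlinarith [h1.1, h1.2, h2.1, h2.2]
  have hlim := l2_conv hL hf
  -- conclusion
  set D : ℝ := 4 * ∫ x, ‖f x‖ ^ 2 with hD
  have hD0 : 0 ≤ D := mul_nonneg (by norm_num) (integral_nonneg fun _ => by positivity)
  set C : ℝ := ((k : ℝ) + 1) * (B ^ 2) ^ k with hC
  have hC0 : 0 ≤ C := by positivity
  have hpt : ∀ (R : ℕ) (δ : ℝ), 0 < δ → ∀ x,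
      |‖iF (cut (bd (-(R : ℤ)) R) (fF f)) x‖ ^ (2 * (k + 1)) - ‖f x‖ ^ (2 * (k + 1))| ≤
        C * (‖iF (cut (bd (-(R : ℤ)) R) (fF f)) x - f x‖ ^ 2 / δ
          + δ * (2 * ‖iF (cut (bd (-(R : ℤ)) R) (fF f)) x‖ ^ 2 + 2 * ‖f x‖ ^ 2)) := by
    intro R δ hδ x
    set u := iF (cut (bd (-(R : ℤ)) R) (fF f)) x with hu
    have hu1 : ‖u‖ ≤ B := hub R x
    have hf1 := hfB x
    have e1 : |(‖u‖ ^ 2) ^ (k + 1) - (‖f x‖ ^ 2) ^ (k + 1)| ≤
        |‖u‖ ^ 2 - ‖f x‖ ^ 2| * (k + 1 : ℕ) * max |‖u‖ ^ 2| |‖f x‖ ^ 2| ^ (k + 1 - 1) :=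
      abs_pow_sub_pow_le _ _ _
    have e2 : max |‖u‖ ^ 2| |‖f x‖ ^ 2| ≤ B ^ 2 := by
      rw [abs_of_nonneg (sq_nonneg _), abs_of_nonneg (sq_nonneg _)]
      exact max_le (pow_le_pow_left₀ (norm_nonneg _) hu1 2)
        (pow_le_pow_left₀ (norm_nonneg _) hf1 2)
    have e3 : max |‖u‖ ^ 2| |‖f x‖ ^ 2| ^ (k + 1 - 1) ≤ (B ^ 2) ^ k := by
      rw [Nat.add_sub_cancel]
      exact pow_le_pow_left₀ (le_max_of_le_left (abs_nonneg _)) e2 k
    have e4 : |‖u‖ ^ 2 - ‖f x‖ ^ 2| ≤ ‖u - f x‖ * (‖u‖ + ‖f x‖) := by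
      have : ‖u‖ ^ 2 - ‖f x‖ ^ 2 = (‖u‖ - ‖f x‖) * (‖u‖ + ‖f x‖) := by ring
      rw [this, abs_mul, abs_of_nonneg (by positivity : 0 ≤ ‖u‖ + ‖f x‖)]
      exact mul_le_mul_of_nonneg_right (abs_norm_sub_norm_le _ _) (by positivity)
    have e5 : ‖u - f x‖ * (‖u‖ + ‖f x‖) ≤
        ‖u - f x‖ ^ 2 / δ + δ * (2 * ‖u‖ ^ 2 + 2 * ‖f x‖ ^ 2) := by
      have h1 : (‖u‖ + ‖f x‖) ^ 2 ≤ 2 * ‖u‖ ^ 2 + 2 * ‖f x‖ ^ 2 := by
        nlinarith [sq_nonneg (‖u‖ - ‖f x‖)]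
      have h2 : ‖u - f x‖ * (‖u‖ + ‖f x‖) ≤
          ‖u - f x‖ ^ 2 / δ + δ * (‖u‖ + ‖f x‖) ^ 2 := by
        have h3 : ‖u - f x‖ ^ 2 / δ + δ * (‖u‖ + ‖f x‖) ^ 2 - ‖u - f x‖ * (‖u‖ + ‖f x‖) =
            ((‖u - f x‖ - δ * (‖u‖ + ‖f x‖) / 2) ^ 2 + 3 / 4 * (δ * (‖u‖ + ‖f x‖)) ^ 2) / δ := by
          field_simp
          ring
        have h4 : 0 ≤ ((‖u - f x‖ - δ * (‖u‖ + ‖f x‖) / 2) ^ 2
            + 3 / 4 * (δ * (‖u‖ + ‖f x‖)) ^ 2) / δ := by positivity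
        linarith
      have h5 := mul_le_mul_of_nonneg_left h1 hδ.le
      linarith
    rw [pow_mul, pow_mul]
    calc |(‖u‖ ^ 2) ^ (k + 1) - (‖f x‖ ^ 2) ^ (k + 1)|
        ≤ |‖u‖ ^ 2 - ‖f x‖ ^ 2| * (k + 1 : ℕ) * max |‖u‖ ^ 2| |‖f x‖ ^ 2| ^ (k + 1 - 1) := e1
      _ ≤ |‖u‖ ^ 2 - ‖f x‖ ^ 2| * (k + 1 : ℕ) * (B ^ 2) ^ k :=
          mul_le_mul_of_nonneg_left e3 (by positivity)
      _ = C * |‖u‖ ^ 2 - ‖f x‖ ^ 2| := by
          rw [hC]
          push_cast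
          ring
      _ ≤ _ := mul_le_mul_of_nonneg_left (e4.trans e5) hC0
  have hint : ∀ (R : ℕ) (δ : ℝ), 0 < δ →
      |NK (k + 1) (cut (bd (-(R : ℤ)) R) (fF f)) - ∫ x, ‖f x‖ ^ (2 * (k + 1))| ≤
        C * ((∫ ζ, ‖cut (bd (-(R : ℤ)) R) (fF f) ζ - fF f ζ‖ ^ 2) / δ + δ * D) := by
    intro R δ hδ
    have hb := hB.1 _ (hGcc R)
    have hi1 : Integrable (fun x => ‖iF (cut (bd (-(R : ℤ)) R) (fF f)) x‖ ^ (2 * (k + 1))) := by
      have h1 := hb.2.2.1.const_mul ((B ^ 2) ^ k)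
      refine h1.mono' (hb.1.norm.pow _).aestronglyMeasurable
        (Eventually.of_forall fun x => ?_)
      rw [Real.norm_of_nonneg (by positivity), pow_mul, pow_succ]
      exact mul_le_mul_of_nonneg_right
        (pow_le_pow_left₀ (by positivity) (pow_le_pow_left₀ (norm_nonneg _) (hub R x) 2) k)
        (by positivity)
    have hi2 : Integrable (fun x => ‖f x‖ ^ (2 * (k + 1))) :=
      (hf.1.norm.pow _).integrable_of_hasCompactSupport
        (hf.2.comp_left (g := fun z : ℂ => ‖z‖ ^ (2 * (k + 1))) (by simp))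
    unfold NK
    rw [← integral_sub hi1 hi2]
    have hi3 : Integrable (fun x => C * (‖iF (cut (bd (-(R : ℤ)) R) (fF f)) x - f x‖ ^ 2 / δ
          + δ * (2 * ‖iF (cut (bd (-(R : ℤ)) R) (fF f)) x‖ ^ 2 + 2 * ‖f x‖ ^ 2))) :=
      ((((hd R).1.div_const δ)).add
        (((hb.2.2.1.const_mul 2).add (hfsq.const_mul 2)).const_mul δ)).const_mul C
    have h1 : |∫ x, (‖iF (cut (bd (-(R : ℤ)) R) (fF f)) x‖ ^ (2 * (k + 1))
        - ‖f x‖ ^ (2 * (k + 1)))| ≤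
        ∫ x, C * (‖iF (cut (bd (-(R : ℤ)) R) (fF f)) x - f x‖ ^ 2 / δ
          + δ * (2 * ‖iF (cut (bd (-(R : ℤ)) R) (fF f)) x‖ ^ 2 + 2 * ‖f x‖ ^ 2)) := by
      have := norm_integral_le_of_norm_le (f := fun x =>
        ‖iF (cut (bd (-(R : ℤ)) R) (fF f)) x‖ ^ (2 * (k + 1)) - ‖f x‖ ^ (2 * (k + 1))) hi3
        (Eventually.of_forall fun x => by
          rw [Real.norm_eq_abs]
          exact hpt R δ hδ x)
      rw [Real.norm_eq_abs] at this
      exact this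
    refine h1.trans ?_
    rw [integral_const_mul]
    refine mul_le_mul_of_nonneg_left ?_ hC0
    have hj1 : Integrable (fun x => ‖iF (cut (bd (-(R : ℤ)) R) (fF f)) x - f x‖ ^ 2 / δ) :=
      (hd R).1.div_const δ
    have hj2 : Integrable (fun x =>
        δ * (2 * ‖iF (cut (bd (-(R : ℤ)) R) (fF f)) x‖ ^ 2 + 2 * ‖f x‖ ^ 2)) :=
      ((hb.2.2.1.const_mul 2).add (hfsq.const_mul 2)).const_mul δ
    rw [integral_add hj1 hj2, integral_div, (hd R).2, integral_const_mul,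
      integral_add (hb.2.2.1.const_mul 2) (hfsq.const_mul 2), integral_const_mul,
      integral_const_mul]
    have h2 := hnorm R
    have h3 : 2 * (∫ x, ‖iF (cut (bd (-(R : ℤ)) R) (fF f)) x‖ ^ 2) + 2 * (∫ x, ‖f x‖ ^ 2) ≤ D := by
      rw [hD]
      linarith
    have h4 := mul_le_mul_of_nonneg_left h3 hδ.le
    linarith
  rw [Metric.tendsto_atTop]
  intro ε hε
  set δ : ℝ := ε / (2 * (C * D + 1)) with hδdef
  have hCD : 0 ≤ C * D := mul_nonneg hC0 hD0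
  have hδ : 0 < δ := by positivity
  have hev := (Metric.tendsto_atTop.1 hlim) (ε * δ / (2 * (C + 1))) (by positivity)
  obtain ⟨N, hN⟩ := hev
  refine ⟨N, fun R hR => ?_⟩
  have h1 := hN R hR
  rw [Real.dist_eq, sub_zero, abs_of_nonneg (integral_nonneg fun _ => by positivity)] at h1
  rw [Real.dist_eq]
  refine (hint R δ hδ).trans_lt ?_
  set a := ∫ ζ, ‖cut (bd (-(R : ℤ)) R) (fF f) ζ - fF f ζ‖ ^ 2 with ha
  have h2 : C * (a / δ) ≤ ε / 2 * (C / (C + 1)) := by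
    have h3 : a / δ ≤ ε / (2 * (C + 1)) := by
      rw [div_le_iff₀ hδ]
      refine h1.le.trans (le_of_eq ?_)
      ring
    refine (mul_le_mul_of_nonneg_left h3 hC0).trans (le_of_eq ?_)
    field_simp
  have h4 : ε / 2 * (C / (C + 1)) < ε / 2 := by
    have h5 : C / (C + 1) < 1 := by
      rw [div_lt_one (by positivity)]
      linarith
    nlinarith
  have h6 : C * (δ * D) ≤ ε / 2 := by
    have h7 : C * (δ * D) = ε / 2 * (C * D / (C * D + 1)) := by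
      rw [hδdef]
      field_simp
    rw [h7]
    have h8 : C * D / (C * D + 1) ≤ 1 := by
      rw [div_le_one (by positivity)]
      linarith
    nlinarith
  rw [mul_add]
  linarith

end Pool.Agent.Lib.MP_dd244f_an.Even
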