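import Pool.Agent.Lib.MP_dd244f_an.Even.AvAux

/-!
Full operator, even `p`: module DomF (consequences of the domination by dyadic averages).
-/

set_option autoImplicit false

namespace Pool.Agent.Lib.MP_dd244f_an.Even

open MeasureTheory Filter Topology
open Pool.Agent.Lib.MP_dd244f_an.Four
open scoped ENNReal NNReal

namespace DomFAux

open AvAux

/-- there is a dyadic scale near every scale -/
theorem dyadic {σ : ℝ} (hσ : 0 < σ) : ∃ a : ℤ, σ ≤ (2 : ℝ) ^ (-a) ∧ (2 : ℝ) ^ (-a) ≤ 2 * σ := by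
  obtain ⟨n, h1, h2⟩ := exists_mem_Ioc_zpow hσ (one_lt_two (α := ℝ))
  refine ⟨-(n + 1), ?_, ?_⟩
  · rw [neg_neg]; exact h2
  · rw [neg_neg, zpow_add_one₀ two_ne_zero]
    linarith

theorem kk_comp {σ ρ : ℝ} (hσ : 0 < σ) (h1 : σ ≤ ρ) (h2 : ρ ≤ 2 * σ) (x : ℂ) :
    KK σ x ≤ 16 * KK ρ x := by
  unfold KK
  have hρ : 0 < ρ := hσ.trans_le h1
  rw [← mul_div_assoc, div_le_div_iff₀ (by positivity) (by positivity)]
  have e1 : ρ ^ 2 + ‖x‖ ^ 2 ≤ 4 * (σ ^ 2 + ‖x‖ ^ 2) := by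
    nlinarith [norm_nonneg x, sq_nonneg ‖x‖]
  have e2 : (ρ ^ 2 + ‖x‖ ^ 2) ^ 2 ≤ (4 * (σ ^ 2 + ‖x‖ ^ 2)) ^ 2 :=
    pow_le_pow_left₀ (by positivity) e1 2
  have e3 : σ ^ 2 ≤ ρ ^ 2 := pow_le_pow_left₀ hσ.le h1 2
  calc σ ^ 2 * (ρ ^ 2 + ‖x‖ ^ 2) ^ 2 ≤ ρ ^ 2 * (4 * (σ ^ 2 + ‖x‖ ^ 2)) ^ 2 :=
        mul_le_mul e3 e2 (by positivity) (by positivity)
    _ = 16 * ρ ^ 2 * (σ ^ 2 + ‖x‖ ^ 2) ^ 2 := by ring

/-- all averages are dominated -/
theorem av_le (hK : StmtKK) {φ : ℂ → ℝ} (hi : Integrable φ) (h0 : ∀ y, 0 ≤ φ y) {M : ℂ → ℝ}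
    (hM : ∀ (a : ℤ) (x : ℂ), av a φ x ≤ M x) {σ : ℝ} (hσ : 0 < σ) (x : ℂ) :
    ∫ y, KK σ (x - y) * φ y ≤ 16 * M x := by
  obtain ⟨a, h1, h2⟩ := dyadic hσ
  have hr : (0 : ℝ) < (2 : ℝ) ^ (-a) := by positivity
  calc ∫ y, KK σ (x - y) * φ y ≤ ∫ y, 16 * (KK ((2 : ℝ) ^ (-a)) (x - y) * φ y) := by
        refine integral_mono (kk_mul_int hK hσ hi x) ((kk_mul_int hK hr hi x).const_mul 16)
          fun y => ?_
        simp only
        rw [← mul_assoc]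
        exact mul_le_mul_of_nonneg_right (kk_comp hσ h1 h2 _) (h0 y)
    _ = 16 * av a φ x := by rw [integral_const_mul]; rfl
    _ ≤ 16 * M x := by have := hM a x; linarith

/-- two averages in a row -/
theorem conv_le (hK : StmtKK) : ∃ C, 0 < C ∧ ∀ (σ ρ : ℝ), 0 < σ → 0 < ρ → ∀ x z : ℂ,
    ∫⁻ y, ENNReal.ofReal (KK σ (x - y)) * ENNReal.ofReal (KK ρ (y - z)) ≤
      ENNReal.ofReal (C * KK (max σ ρ) (x - z)) := by
  obtain ⟨C, hC, hc⟩ := hK.2.1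
  refine ⟨C, hC, ?_⟩
  have key : ∀ (τ ρ : ℝ), 0 < τ → τ ≤ ρ → ∀ x : ℂ,
      ∫⁻ y, ENNReal.ofReal (KK τ y) * ENNReal.ofReal (KK ρ (x - y)) ≤
        ENNReal.ofReal (C * KK ρ x) := by
    intro τ ρ hτ hτρ x
    have hρ : 0 < ρ := hτ.trans_le hτρ
    have hi : Integrable (fun y => KK τ y * KK ρ (x - y)) := by
      refine (kk_mul_int hK hρ (hK.1 τ hτ).1 x).congr (Eventually.of_forall fun y => ?_)
      simp only
      ring
    have e : ∫⁻ y, ENNReal.ofReal (KK τ y) * ENNReal.ofReal (KK ρ (x - y))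
        = ENNReal.ofReal (∫ y, KK τ y * KK ρ (x - y)) := by
      rw [ofReal_integral_eq_lintegral_ofReal hi
        (Eventually.of_forall fun y => mul_nonneg (kk_nonneg _ _) (kk_nonneg _ _))]
      exact lintegral_congr fun y => (ENNReal.ofReal_mul (kk_nonneg _ _)).symm
    rw [e]
    exact ENNReal.ofReal_le_ofReal (hc τ ρ hτ hτρ x)
  intro σ ρ hσ hρ x z
  rcases le_total σ ρ with h | h
  · rw [max_eq_right h]
    have h1 := key σ ρ hσ h (x - z)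
    rw [← lintegral_sub_left_eq_self (fun y => ENNReal.ofReal (KK σ y) *
      ENNReal.ofReal (KK ρ (x - z - y))) x] at h1
    refine le_trans (le_of_eq ?_) h1
    refine lintegral_congr fun y => ?_
    congr 3
    ring
  · rw [max_eq_left h]
    have h1 := key ρ σ hρ h (x - z)
    rw [← lintegral_sub_right_eq_self (fun y => ENNReal.ofReal (KK ρ y) *
      ENNReal.ofReal (KK σ (x - z - y))) z] at h1
    refine le_trans (le_of_eq ?_) h1
    refine lintegral_congr fun y => ?_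
    rw [mul_comm]
    congr 3
    ring

/-- averages of functions dominated by averages -/
theorem av_dom (hK : StmtKK) {C₁ C₂ : ℝ} (hC₁ : 0 ≤ C₁) (hC₂ : 0 ≤ C₂)
    (hc : ∀ (σ ρ : ℝ), 0 < σ → 0 < ρ → ∀ x z : ℂ,
      ∫⁻ y, ENNReal.ofReal (KK σ (x - y)) * ENNReal.ofReal (KK ρ (y - z)) ≤
        ENNReal.ofReal (C₂ * KK (max σ ρ) (x - z)))
    {φ ψ : ℂ → ℝ} (hφ : Continuous φ) (hi : Integrable φ) (h0 : ∀ y, 0 ≤ φ y)
    (hψi : Integrable ψ) (hψ0 : ∀ y, 0 ≤ ψ y) {ρ : ℝ} (hρ : 0 < ρ)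
    (hd : ∀ y, ψ y ≤ C₁ * ∫ z, KK ρ (y - z) * φ z) {M : ℂ → ℝ}
    (hM : ∀ (a : ℤ) (x : ℂ), av a φ x ≤ M x) {σ : ℝ} (hσ : 0 < σ) (x : ℂ) :
    ∫ y, KK σ (x - y) * ψ y ≤ C₁ * C₂ * 16 * M x := by
  have hm : 0 < max σ ρ := lt_max_of_lt_left hσ
  have hφm : Measurable fun z => ENNReal.ofReal (φ z) :=
    (ENNReal.continuous_ofReal.comp hφ).measurable
  have hAv0 : 0 ≤ ∫ y, KK (max σ ρ) (x - y) * φ y :=
    integral_nonneg fun y => mul_nonneg (kk_nonneg _ _) (h0 y)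
  have h1 : ENNReal.ofReal (∫ y, KK σ (x - y) * ψ y) ≤
      ENNReal.ofReal (C₁ * C₂ * ∫ y, KK (max σ ρ) (x - y) * φ y) := by
    rw [of_av hK hσ hψi hψ0 x]
    calc ∫⁻ y, ENNReal.ofReal (KK σ (x - y)) * ENNReal.ofReal (ψ y)
        ≤ ∫⁻ y, ENNReal.ofReal C₁ * ∫⁻ z, ENNReal.ofReal (KK σ (x - y)) *
            (ENNReal.ofReal (KK ρ (y - z)) * ENNReal.ofReal (φ z)) := by
          refine lintegral_mono fun y => ?_
          rw [lintegral_const_mul' _ _ ENNReal.ofReal_ne_top, mul_left_comm]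
          refine mul_le_mul_right ?_ _
          rw [← of_av hK hρ hi h0 y, ← ENNReal.ofReal_mul hC₁]
          exact ENNReal.ofReal_le_ofReal (hd y)
      _ = ENNReal.ofReal C₁ * ∫⁻ z, (∫⁻ y, ENNReal.ofReal (KK σ (x - y)) *
            ENNReal.ofReal (KK ρ (y - z))) * ENNReal.ofReal (φ z) := by
          rw [lintegral_const_mul' _ _ ENNReal.ofReal_ne_top, lintegral_lintegral_swap]
          · congr 1
            refine lintegral_congr fun z => ?_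
            rw [← lintegral_mul_const' _ _ ENNReal.ofReal_ne_top]
            refine lintegral_congr fun y => ?_
            rw [mul_assoc]
          · refine Measurable.aemeasurable ?_
            refine Measurable.mul ?_ (Measurable.mul (kk_meas2 hρ) (hφm.comp measurable_snd))
            exact (kk_meas hσ x).comp measurable_fst
      _ ≤ ENNReal.ofReal C₁ * ∫⁻ z, ENNReal.ofReal (C₂ * KK (max σ ρ) (x - z)) *
            ENNReal.ofReal (φ z) := by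
          refine mul_le_mul_right (lintegral_mono fun z => ?_) _
          exact mul_le_mul_left (hc σ ρ hσ hρ x z) _
      _ = ENNReal.ofReal (C₁ * C₂ * ∫ y, KK (max σ ρ) (x - y) * φ y) := by
          rw [mul_assoc C₁, ENNReal.ofReal_mul hC₁, ENNReal.ofReal_mul hC₂, of_av hK hm hi h0 x]
          congr 1
          rw [← lintegral_const_mul' _ _ ENNReal.ofReal_ne_top]
          refine lintegral_congr fun z => ?_
          rw [ENNReal.ofReal_mul hC₂, mul_assoc]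
  have h2 : ∫ y, KK σ (x - y) * ψ y ≤ C₁ * C₂ * ∫ y, KK (max σ ρ) (x - y) * φ y :=
    (ENNReal.ofReal_le_ofReal_iff (by positivity)).mp h1
  have h3 := av_le hK hi h0 hM hm x
  calc _ ≤ _ := h2
    _ ≤ C₁ * C₂ * (16 * M x) := mul_le_mul_of_nonneg_left h3 (by positivity)
    _ = _ := by ring

/-- the difference of two low passes -/
theorem iF_bd (hB : StmtBase) (hF : StmtFac) {g : ℂ → ℂ} (hg : CC g) (a b : ℤ) (x : ℂ) :
    iF (cut (bd a b) g) x = iF (cut (lo b) g) x - iF (cut (lo a) g) x := by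
  have h := hB.2.2.2.2.1 (cut (bd a b) g) (cut (lo a) g) (hF.2.2.2.2.1 g a b hg).2.1
    (hF.2.2.2.2.1 g a b hg).1 x
  have e : (fun ζ => cut (bd a b) g ζ + cut (lo a) g ζ) = cut (lo b) g := by
    ext ζ
    unfold cut bd
    push_cast
    ring
  rw [e] at h
  rw [h]
  ring

theorem sq_sub_le (u v : ℂ) : ‖u - v‖ ^ 2 ≤ 2 * ‖u‖ ^ 2 + 2 * ‖v‖ ^ 2 := by
  have h := norm_sub_le u v
  nlinarith [norm_nonneg (u - v), norm_nonneg u, norm_nonneg v, sq_nonneg (‖u‖ - ‖v‖)]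

/-- a low pass at high frequency is the identity -/
theorem cut_lo_eq (hF : StmtFac) {g : ℂ → ℂ} (hg : CC g) : ∃ a : ℤ, cut (lo a) g = g := by
  obtain ⟨R, hR⟩ := hg.2.isCompact.isBounded.subset_closedBall (0 : ℂ)
  obtain ⟨n, hn⟩ := pow_unbounded_of_one_lt R (one_lt_two (α := ℝ))
  refine ⟨(n : ℤ), ?_⟩
  ext ζ
  by_cases hζ : g ζ = 0
  · unfold cut; rw [hζ, mul_zero]
  · have h1 : ζ ∈ Metric.closedBall (0 : ℂ) R := hR (subset_tsupport _ hζ)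
    have h2 : ‖ζ‖ ≤ (2 : ℝ) ^ (n : ℤ) := by
      rw [zpow_natCast]
      have : ‖ζ‖ ≤ R := by simpa using h1
      linarith
    unfold cut
    rw [hF.2.1 (n : ℤ) ζ h2]
    simp

end DomFAux

open AvAux DomFAux in
theorem domF (hK : StmtKK) (hP : StmtLPK) (hB : StmtBase) (hF : StmtFac) : StmtDomF := by
  obtain ⟨C₁, hC₁, hP⟩ := hP
  obtain ⟨C₂, hC₂, hc⟩ := conv_le hK
  have hbig : ∃ C : ℝ, 0 < C ∧ C₁ ≤ C ∧ 4 * C₁ ≤ C ∧ 16 ≤ C ∧ C₁ * C₂ * 16 ≤ C ∧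
      4 * (C₁ * C₂ * 16) ≤ C := by
    refine ⟨4 * C₁ + 16 + 4 * (C₁ * C₂ * 16), by positivity, ?_, ?_, ?_, ?_, ?_⟩ <;>
      nlinarith [mul_pos hC₁ hC₂]
  obtain ⟨C, hC, k1, k2, k3, k4, k5⟩ := hbig
  refine ⟨C, hC, ?_⟩
  intro g M hg hD x
  obtain ⟨hMm, hM0, hM⟩ := hD
  have hφc : Continuous (fun y => ‖iF g y‖ ^ 2) := ((hB.1 g hg).1.norm.pow 2)
  have hφi := sq_int hB hg
  have hφ0 : ∀ y, 0 ≤ ‖iF g y‖ ^ 2 := fun y => by positivity
  have hlo : ∀ (a : ℤ) (y : ℂ), ‖iF (cut (lo a) g) y‖ ^ 2 ≤ C₁ * M y := by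
    intro a y
    exact ((hP a g hg y).1).trans (mul_le_mul_of_nonneg_left (hM a y) hC₁.le)
  have hx0 := hM0 x
  have hbd : ∀ (a b : ℤ) (y : ℂ), ‖iF (cut (bd a b) g) y‖ ^ 2 ≤
      2 * ‖iF (cut (lo b) g) y‖ ^ 2 + 2 * ‖iF (cut (lo a) g) y‖ ^ 2 := by
    intro a b y
    rw [iF_bd hB hF hg a b y]
    exact sq_sub_le _ _
  have hav : ∀ (σ : ℝ), 0 < σ → ∀ a : ℤ,
      ∫ y, KK σ (x - y) * ‖iF (cut (lo a) g) y‖ ^ 2 ≤ C₁ * C₂ * 16 * M x := by
    intro σ hσ a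
    exact av_dom hK hC₁.le hC₂.le hc hφc hφi hφ0
      (sq_int hB (hF.2.2.2.2.1 g a a hg).1) (fun y => by positivity)
      (by positivity : (0 : ℝ) < (2 : ℝ) ^ (-a)) (fun y => (hP a g hg y).1) hM hσ x
  refine ⟨?_, fun a => ?_, fun a b => ?_, fun σ hσ => ⟨?_, fun a => ?_, fun a b => ?_⟩⟩
  · obtain ⟨a, ha⟩ := cut_lo_eq hF hg
    have := hlo a x
    rw [ha] at this
    exact this.trans (mul_le_mul_of_nonneg_right k1 hx0)
  · exact (hlo a x).trans (mul_le_mul_of_nonneg_right k1 hx0)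
  · have h1 := hlo a x
    have h2 := hlo b x
    have h3 := hbd a b x
    have h4 := mul_le_mul_of_nonneg_right k2 hx0
    linarith
  · exact (av_le hK hφi hφ0 hM hσ x).trans (mul_le_mul_of_nonneg_right k3 hx0)
  · exact (hav σ hσ a).trans (mul_le_mul_of_nonneg_right k4 hx0)
  · have h1 := hav σ hσ a
    have h2 := hav σ hσ b
    have ia := kk_mul_int hK hσ (sq_int hB (hF.2.2.2.2.1 g a a hg).1) x
    have ib := kk_mul_int hK hσ (sq_int hB (hF.2.2.2.2.1 g b b hg).1) x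
    have iab := kk_mul_int hK hσ (sq_int hB (hF.2.2.2.2.1 g a b hg).2.1) x
    have h3 : ∫ y, KK σ (x - y) * ‖iF (cut (bd a b) g) y‖ ^ 2 ≤
        2 * (∫ y, KK σ (x - y) * ‖iF (cut (lo b) g) y‖ ^ 2) +
          2 * (∫ y, KK σ (x - y) * ‖iF (cut (lo a) g) y‖ ^ 2) := by
      rw [← integral_const_mul, ← integral_const_mul,
        ← integral_add (ib.const_mul 2) (ia.const_mul 2)]
      refine integral_mono iab ((ib.const_mul 2).add (ia.const_mul 2)) fun y => ?_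
      have := mul_le_mul_of_nonneg_left (hbd a b y) (kk_nonneg σ (x - y))
      simp only
      linarith
    have h4 := mul_le_mul_of_nonneg_right k5 hx0
    linarith

end Pool.Agent.Lib.MP_dd244f_an.Even
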