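import Pool.Agent.Lib.MP_dd244f_an.Even.Stmts
import Pool.Agent.Lib.MP_dd244f_an.Four.EIJ

/-!
Full operator, even `p`: module EIJK (choice of the scales in the energy inequality).
-/

set_option autoImplicit false

namespace Pool.Agent.Lib.MP_dd244f_an.Even

open MeasureTheory Filter Topology Finset
open Pool.Agent.Lib.MP_dd244f_an.Four

theorem eijk_m0 (k : ℕ) (ε : ℝ) (hε : 0 < ε) : ∃ m₀ : ℕ, ∀ m ≥ m₀,
    1 ≤ (1 + ε) * (Real.exp (-(Real.pi * (4 * ((k : ℝ) + 1) ^ 2 * (1 / 4 : ℝ) ^ m)))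
      - Real.exp (-(Real.pi * (4 : ℝ) ^ m))) := by
  have h1 : Tendsto (fun m : ℕ => (1 / 4 : ℝ) ^ m) atTop (𝓝 0) :=
    tendsto_pow_atTop_nhds_zero_of_lt_one (by norm_num) (by norm_num)
  have h2 : Tendsto (fun m : ℕ => Real.exp (-(Real.pi * (4 * ((k : ℝ) + 1) ^ 2 *
      (1 / 4 : ℝ) ^ m)))) atTop (𝓝 (Real.exp (-(Real.pi * (4 * ((k : ℝ) + 1) ^ 2 * 0))))) :=
    (Real.continuous_exp.tendsto _).comp
      (((h1.const_mul _).const_mul Real.pi).neg)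
  have h3 : Tendsto (fun m : ℕ => Real.exp (-(Real.pi * (4 : ℝ) ^ m))) atTop (𝓝 0) := by
    have h4 : Tendsto (fun m : ℕ => Real.pi * (4 : ℝ) ^ m) atTop atTop :=
      (tendsto_pow_atTop_atTop_of_one_lt (by norm_num)).const_mul_atTop Real.pi_pos
    exact Real.tendsto_exp_neg_atTop_nhds_zero.comp h4
  have h5 : Tendsto (fun m : ℕ => (1 + ε) * (Real.exp (-(Real.pi * (4 * ((k : ℝ) + 1) ^ 2 *
      (1 / 4 : ℝ) ^ m))) - Real.exp (-(Real.pi * (4 : ℝ) ^ m)))) atTop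
      (𝓝 ((1 + ε) * (Real.exp (-(Real.pi * (4 * ((k : ℝ) + 1) ^ 2 * 0))) - 0))) :=
    (h2.sub h3).const_mul _
  have h6 : (1 : ℝ) < (1 + ε) * (Real.exp (-(Real.pi * (4 * ((k : ℝ) + 1) ^ 2 * 0))) - 0) := by
    simp
    exact hε
  have h7 := h5.eventually (lt_mem_nhds h6)
  obtain ⟨m₀, hm⟩ := eventually_atTop.1 h7
  exact ⟨m₀, fun m hm' => (hm m hm').le⟩

theorem measurableSet_JK (k : ℕ) (s : ℤ) (L m : ℕ) : MeasurableSet (JK k s L m) := by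
  unfold JK
  exact (measurableSet_le measurable_const measurable_norm).inter
    (measurableSet_le measurable_norm measurable_const)

/-- the multiplier is at least `1 / (1 + ε)` on the interior of the block -/
theorem eijk_lower {k : ℕ} {s : ℤ} {L m : ℕ} {θ : ℂ} (hθ : θ ∈ JK k s L m) :
    Real.exp (-(Real.pi * (4 * ((k : ℝ) + 1) ^ 2 * (1 / 4 : ℝ) ^ m)))
        - Real.exp (-(Real.pi * (4 : ℝ) ^ m)) ≤
      Real.exp (-(Real.pi * ‖θ‖ ^ 2 / ((2 : ℝ) ^ (s + L)) ^ 2))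
        - Real.exp (-(Real.pi * ‖θ‖ ^ 2 / ((2 : ℝ) ^ s) ^ 2)) := by
  obtain ⟨h1, h2⟩ := hθ
  have hs : (0 : ℝ) < (2 : ℝ) ^ s := zpow_pos (by norm_num) _
  have hsL : (0 : ℝ) < (2 : ℝ) ^ (s + L) := zpow_pos (by norm_num) _
  have e1 : (2 : ℝ) ^ (s + m) = (2 : ℝ) ^ s * (2 : ℝ) ^ m := by
    rw [zpow_add₀ (by norm_num), zpow_natCast]
  have e2 : (2 : ℝ) ^ (s + L - m + 1) = (2 : ℝ) ^ (s + L) * ((1 / 2 : ℝ) ^ m * 2) := by
    have : s + (L : ℤ) - m + 1 = (s + L) + (-(m : ℤ) + 1) := by ring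
    rw [this, zpow_add₀ (by norm_num) (s + (L : ℤ)) (-(m : ℤ) + 1),
      zpow_add₀ (by norm_num) (-(m : ℤ)) 1, zpow_neg, zpow_natCast]
    have h' : ((2 : ℝ) ^ m)⁻¹ = (1 / 2 : ℝ) ^ m := by
      rw [one_div, inv_pow]
    rw [h', zpow_one]
  have h3 : ((2 : ℝ) ^ s * (2 : ℝ) ^ m) ^ 2 ≤ ‖θ‖ ^ 2 := by
    rw [← e1]
    exact pow_le_pow_left₀ (zpow_pos (by norm_num) _).le h1 2
  have h4 : ‖θ‖ ^ 2 ≤ (((k : ℝ) + 1) * ((2 : ℝ) ^ (s + L) * ((1 / 2 : ℝ) ^ m * 2))) ^ 2 := by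
    rw [← e2]
    exact pow_le_pow_left₀ (norm_nonneg _) h2 2
  have e3 : ((2 : ℝ) ^ m) ^ 2 = (4 : ℝ) ^ m := by
    rw [← pow_mul, mul_comm, pow_mul]; norm_num
  have e4 : (((k : ℝ) + 1) * ((1 / 2 : ℝ) ^ m * 2)) ^ 2 =
      4 * ((k : ℝ) + 1) ^ 2 * (1 / 4 : ℝ) ^ m := by
    rw [mul_pow, mul_pow, ← pow_mul, mul_comm m 2, pow_mul]; norm_num; ring
  have h5 : ‖θ‖ ^ 2 / ((2 : ℝ) ^ (s + L)) ^ 2 ≤ 4 * ((k : ℝ) + 1) ^ 2 * (1 / 4 : ℝ) ^ m := by
    rw [div_le_iff₀ (pow_pos hsL 2), ← e4]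
    refine h4.trans (le_of_eq ?_)
    ring
  have h6 : (4 : ℝ) ^ m ≤ ‖θ‖ ^ 2 / ((2 : ℝ) ^ s) ^ 2 := by
    rw [le_div_iff₀ (pow_pos hs 2), ← e3]
    refine (le_of_eq ?_).trans h3
    ring
  have h7 : Real.exp (-(Real.pi * (4 * ((k : ℝ) + 1) ^ 2 * (1 / 4 : ℝ) ^ m))) ≤
      Real.exp (-(Real.pi * ‖θ‖ ^ 2 / ((2 : ℝ) ^ (s + L)) ^ 2)) := by
    apply Real.exp_le_exp.2
    rw [mul_div_assoc]
    have := mul_le_mul_of_nonneg_left h5 Real.pi_pos.le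
    linarith
  have h8 : Real.exp (-(Real.pi * ‖θ‖ ^ 2 / ((2 : ℝ) ^ s) ^ 2)) ≤
      Real.exp (-(Real.pi * (4 : ℝ) ^ m)) := by
    apply Real.exp_le_exp.2
    rw [mul_div_assoc]
    have := mul_le_mul_of_nonneg_left h6 Real.pi_pos.le
    linarith
  linarith

theorem eijK (hE : StmtEIK) (hC2 : StmtCV2) : StmtEIJK := by
  intro k ε hk hε
  obtain ⟨m₀, hm₀⟩ := eijk_m0 k ε hε
  refine ⟨m₀, fun m hm L hL Q hQ => ?_⟩
  obtain ⟨n₀, hn₀⟩ := exists_nat_gt (((k : ℝ) + 1) * (Q ^ 2 * (4 : ℝ) ^ L))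
  refine ⟨n₀, fun n hn g hg c Bs => ?_⟩
  have hQ0 : 0 < Q := lt_of_lt_of_le one_pos hQ
  have hk0 : (0 : ℝ) < (k : ℝ) + 1 := by positivity
  have hnQ : ((k : ℝ) + 1) * (Q ^ 2 * (4 : ℝ) ^ L) < n := hn₀.trans_le (by exact_mod_cast hn)
  have hnpos : (0 : ℝ) < n := lt_trans (by positivity) hnQ
  have hn0 : 0 < Real.sqrt n := Real.sqrt_pos.2 hnpos
  obtain ⟨b0, hb0⟩ := Bs.bddBelow
  obtain ⟨b1, hb1⟩ := Bs.bddAbove
  set J : ℕ := (b1 - b0 + 1).toNat with hJ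
  set st' : ℕ → ℤ := fun j => c + (b0 + j) * L with hst
  have hstL : ∀ j, st' (j + 1) = st' j + L := by
    intro j
    simp only [hst]
    push_cast
    ring
  have hK : ∀ j, (0 : ℝ) < (2 : ℝ) ^ (st' j) := fun j => zpow_pos (by norm_num) _
  have h1 := (hE k J (fun j => (2 : ℝ) ^ (st' j)) (fun j => win n Q (st' j) L) g hk hg hK
    (fun j => by
      unfold win
      exact div_pos hn0 (mul_pos hQ0 (zpow_pos (by norm_num) _)))
    (fun j => by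
      rw [hstL]
      exact zpow_le_zpow_right₀ (by norm_num) (by omega))
    (fun j => by
      unfold win
      apply div_le_div_of_nonneg_left hn0.le (mul_pos hQ0 (zpow_pos (by norm_num) _))
      apply mul_le_mul_of_nonneg_left _ hQ0.le
      rw [hstL]
      exact zpow_le_zpow_right₀ (by norm_num) (by omega))
    (fun j => by
      have hp : (0 : ℝ) < (2 : ℝ) ^ (st' j) := hK j
      have hL2 : ((2 : ℝ) ^ L) ^ 2 = (4 : ℝ) ^ L := by
        rw [← pow_mul, mul_comm, pow_mul]; norm_num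
      have e1 : (2 : ℝ) ^ st' j * win n Q (st' j) L = Real.sqrt n / (Q * (2 : ℝ) ^ L) := by
        unfold win
        rw [zpow_add₀ (by norm_num : (2 : ℝ) ≠ 0) (st' j) (L : ℤ), zpow_natCast]
        have hne := hp.ne'
        field_simp
      rw [e1, div_pow, Real.sq_sqrt hnpos.le, lt_div_iff₀ (by positivity), mul_pow, hL2]
      exact hnQ)).2
  have hkey : ∀ s : ℤ, ∫ θ in JK k s L m, ‖AK k (win n Q s L) (fun _ => g) θ‖ ^ 2 ≤
      (1 + ε) * ∫ θ, (Real.exp (-(Real.pi * ‖θ‖ ^ 2 / ((2 : ℝ) ^ (s + L)) ^ 2))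
        - Real.exp (-(Real.pi * ‖θ‖ ^ 2 / ((2 : ℝ) ^ s) ^ 2))) *
          ‖AK k (win n Q s L) (fun _ => g) θ‖ ^ 2 := by
    intro s
    have hcc : CC (AK k (win n Q s L) (fun _ => g)) :=
      (hC2 k).2.1 (win n Q s L) (fun _ => g) (fun _ _ => hg)
    have hc1 : Continuous fun θ => ‖AK k (win n Q s L) (fun _ => g) θ‖ ^ 2 := hcc.1.norm.pow 2
    have hs1 : HasCompactSupport fun θ => ‖AK k (win n Q s L) (fun _ => g) θ‖ ^ 2 :=
      hcc.2.comp_left (g := fun z : ℂ => ‖z‖ ^ 2) (by simp)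
    have hi1 : Integrable fun θ => ‖AK k (win n Q s L) (fun _ => g) θ‖ ^ 2 :=
      hc1.integrable_of_hasCompactSupport hs1
    have hc2 : Continuous fun θ : ℂ =>
        (Real.exp (-(Real.pi * ‖θ‖ ^ 2 / ((2 : ℝ) ^ (s + L)) ^ 2))
        - Real.exp (-(Real.pi * ‖θ‖ ^ 2 / ((2 : ℝ) ^ s) ^ 2))) *
          ‖AK k (win n Q s L) (fun _ => g) θ‖ ^ 2 := by
      refine Continuous.mul ?_ hc1
      fun_prop
    have hi2 := hc2.integrable_of_hasCompactSupport (μ := (volume : Measure ℂ)) hs1.mul_left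
    rw [← integral_const_mul]
    refine (setIntegral_mono_on hi1.integrableOn (hi2.const_mul (1 + ε)).integrableOn
      (measurableSet_JK k s L m) fun θ hθ => ?_).trans
      (setIntegral_le_integral (hi2.const_mul (1 + ε)) (Eventually.of_forall fun θ => ?_))
    · have h2 := mul_le_mul_of_nonneg_left (eijk_lower (L := L) hθ) (by linarith : 0 ≤ 1 + ε)
      have h3 := (hm₀ m hm).trans h2
      have h4 := mul_le_mul_of_nonneg_right h3 (sq_nonneg ‖AK k (win n Q s L) (fun _ => g) θ‖)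
      rw [one_mul] at h4
      rw [← mul_assoc]
      exact h4
    · have h2 := eij_nonneg s L θ
      have : 0 ≤ 1 + ε := by linarith
      positivity
  have hsub : Bs ⊆ (Finset.range J).image (fun j : ℕ => b0 + (j : ℤ)) := by
    intro b hb
    rw [Finset.mem_image]
    have h2 := hb0 hb
    have h3 := hb1 hb
    refine ⟨(b - b0).toNat, ?_, ?_⟩
    · rw [Finset.mem_range, hJ]
      omega
    · have : 0 ≤ b - b0 := by linarith
      rw [Int.toNat_of_nonneg this]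
      ring
  calc ∑ b ∈ Bs, ∫ θ in JK k (c + b * L) L m,
        ‖AK k (win n Q (c + b * L) L) (fun _ => g) θ‖ ^ 2
      ≤ ∑ b ∈ (Finset.range J).image (fun j : ℕ => b0 + (j : ℤ)),
          ∫ θ in JK k (c + b * L) L m, ‖AK k (win n Q (c + b * L) L) (fun _ => g) θ‖ ^ 2 :=
        Finset.sum_le_sum_of_subset_of_nonneg hsub
          (fun b _ _ => integral_nonneg fun θ => by positivity)
    _ = ∑ j ∈ Finset.range J,
          ∫ θ in JK k (st' j) L m, ‖AK k (win n Q (st' j) L) (fun _ => g) θ‖ ^ 2 := by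
        rw [Finset.sum_image]
        intro x _ y _ hxy
        simpa using hxy
    _ ≤ ∑ j ∈ Finset.range J, (1 + ε) *
          ∫ θ, (Real.exp (-(Real.pi * ‖θ‖ ^ 2 / ((2 : ℝ) ^ (st' (j + 1))) ^ 2))
        - Real.exp (-(Real.pi * ‖θ‖ ^ 2 / ((2 : ℝ) ^ st' j) ^ 2))) *
          ‖AK k (win n Q (st' j) L) (fun _ => g) θ‖ ^ 2 := by
        refine Finset.sum_le_sum fun j _ => ?_
        rw [hstL]
        exact hkey (st' j)
    _ = (1 + ε) * ∑ j ∈ Finset.range J,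
          ∫ θ, (Real.exp (-(Real.pi * ‖θ‖ ^ 2 / ((2 : ℝ) ^ (st' (j + 1))) ^ 2))
        - Real.exp (-(Real.pi * ‖θ‖ ^ 2 / ((2 : ℝ) ^ st' j) ^ 2))) *
          ‖AK k (win n Q (st' j) L) (fun _ => g) θ‖ ^ 2 := by rw [Finset.mul_sum]
    _ ≤ (1 + ε) * NK (k + 1) g := mul_le_mul_of_nonneg_left h1 (by linarith)

end Pool.Agent.Lib.MP_dd244f_an.Even
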