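import Pool.Agent.Lib.MP_dd244f_an.Even.Stmts
import Pool.Agent.Lib.MP_dd244f_an.Four.EI

/-!
(EIK): the multiscale energy inequality, even exponents.
-/

set_option autoImplicit false

namespace Pool.Agent.Lib.MP_dd244f_an.Even

open MeasureTheory Filter Topology Finset
open Pool.Agent.Lib.MP_dd244f_an.Four

namespace EIKAux

theorem cont_wk (k : ℕ) (σ : ℝ) (ξ : ℂ) : Continuous (fun θ => wk k σ ξ θ) := by
  unfold wk
  fun_prop

theorem wk_pos (k : ℕ) (σ : ℝ) (ξ θ : ℂ) : 0 < wk k σ ξ θ := Real.exp_pos _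

theorem wk_le_one (k : ℕ) (σ : ℝ) (ξ θ : ℂ) : wk k σ ξ θ ≤ 1 := by
  unfold wk
  apply Real.exp_le_one_iff.2
  have : 0 ≤ 2 * Real.pi * σ ^ 2 * ((k : ℝ) + 1) * ‖θ / (k + 1) - ξ‖ ^ 2 := by positivity
  linarith

/-- integrability of a continuous weight times the square -/
theorem int_w (hC2 : StmtCV2) (k : ℕ) (σ : ℝ) {g : ℂ → ℂ} (hg : CC g) {w : ℂ → ℝ}
    (hw : Continuous w) : Integrable (fun θ => w θ * ‖AK k σ (fun _ => g) θ‖ ^ 2) := by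
  obtain ⟨h1, h2⟩ := (hC2 k).2.1 σ (fun _ => g) (fun _ _ => hg)
  apply Continuous.integrable_of_hasCompactSupport
  · fun_prop
  · apply HasCompactSupport.mul_left
    have h3 : HasCompactSupport (fun θ => ‖AK k σ (fun _ => g) θ‖) := h2.norm
    have : (fun θ => ‖AK k σ (fun _ => g) θ‖ ^ 2) =
        (fun x : ℝ => x ^ 2) ∘ (fun θ => ‖AK k σ (fun _ => g) θ‖) := rfl
    rw [this]
    exact h3.comp_left (by simp)

theorem int_1 (hC2 : StmtCV2) (k : ℕ) (σ : ℝ) {g : ℂ → ℂ} (hg : CC g) :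
    Integrable (fun θ => ‖AK k σ (fun _ => g) θ‖ ^ 2) := by
  simpa using int_w hC2 k σ hg (w := fun _ => 1) continuous_const

theorem chirp0 (hC : StmtChirpK) (k : ℕ) {σ r : ℝ} (hσ : 0 < σ) (hr : σ < r) (ξ : ℂ) {g : ℂ → ℂ}
    (hg : CC g) :
    ∫ θ, wk k σ ξ θ * ‖AK k r (fun _ => g) θ‖ ^ 2
      ≤ ∫ θ, wk k σ ξ θ * ‖AK k σ (fun _ => g) θ‖ ^ 2 := by
  have h1 := hC k σ r 0 1 ξ g hσ hr (by simp) hg
  have h2 : (fun (_ : ℕ) (δ : ℂ) => Complex.exp ((-(Real.pi * r ^ 2 * ‖δ‖ ^ 2) : ℝ)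
        + Complex.I * (0 * (δ ^ 2 * 1 ^ 2).im : ℝ))) = fun _ => ga r := by
    funext _ δ
    rw [zero_mul, Complex.ofReal_zero, mul_zero, add_zero, ← Complex.ofReal_exp]
    rfl
  rw [h2] at h1
  have h3 : (1 + (0 : ℝ) ^ 2 / (Real.pi * (r ^ 2 - σ ^ 2)) ^ 2) ^ k = 1 := by simp
  rw [h3, one_mul] at h1
  exact h1

theorem wk_eq (k : ℕ) (σ : ℝ) (ξ θ : ℂ) : wk k σ (ξ / (k + 1)) θ =
    Real.exp (-(Real.pi * (σ * Real.sqrt (2 / (k + 1))) ^ 2 * ‖θ - ξ‖ ^ 2)) := by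
  unfold wk
  congr 2
  have h1 : θ / ((k : ℂ) + 1) - ξ / (k + 1) = (θ - ξ) / (k + 1) := by ring
  have h2 : ‖(k : ℂ) + 1‖ = k + 1 := by
    have : ((k : ℂ) + 1) = ((k + 1 : ℕ) : ℂ) := by push_cast; rfl
    rw [this, Complex.norm_natCast]
    push_cast
    rfl
  rw [h1, norm_div, h2, mul_pow, Real.sq_sqrt (by positivity)]
  field_simp

theorem mono (hC : StmtChirpK) (hC2 : StmtCV2) (k : ℕ) {K σ r : ℝ} (hK : 0 < K) (hσ : 0 < σ)
    (hr : σ ≤ r) (hKσ : (k : ℝ) + 1 < (K * σ) ^ 2) {g : ℂ → ℂ} (hg : CC g) :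
    ∫ θ, Real.exp (-(Real.pi * ‖θ‖ ^ 2 / K ^ 2)) * ‖AK k r (fun _ => g) θ‖ ^ 2
      ≤ ∫ θ, Real.exp (-(Real.pi * ‖θ‖ ^ 2 / K ^ 2)) * ‖AK k σ (fun _ => g) θ‖ ^ 2 := by
  rcases hr.eq_or_lt with rfl | hr
  · exact le_rfl
  have hk0 : (0 : ℝ) < (k : ℝ) + 1 := by positivity
  set τ : ℝ := σ * Real.sqrt (2 / (k + 1)) with hτ
  have hτ0 : 0 < τ := by positivity
  have hKτ : 1 < K * τ := by
    have h1 : (K * τ) ^ 2 = 2 * (K * σ) ^ 2 / (k + 1) := by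
      rw [hτ, ← mul_assoc, mul_pow, Real.sq_sqrt (by positivity)]
      ring
    have h2 : 1 < (K * τ) ^ 2 := by
      rw [h1, lt_div_iff₀ hk0]
      nlinarith
    exact (one_lt_sq_iff₀ (by positivity)).1 h2
  obtain ⟨A, B, hA, hB', hAB⟩ := EI.conv K τ hK hτ0 hKτ
  have key : ∀ ρ : ℝ, Integrable (fun ξ : ℂ => A * Real.exp (-(B * ‖ξ‖ ^ 2)) *
      ∫ θ, Real.exp (-(Real.pi * τ ^ 2 * ‖θ - ξ‖ ^ 2)) * ‖AK k ρ (fun _ => g) θ‖ ^ 2) ∧
      ∫ θ, Real.exp (-(Real.pi * ‖θ‖ ^ 2 / K ^ 2)) * ‖AK k ρ (fun _ => g) θ‖ ^ 2 =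
      ∫ ξ : ℂ, A * Real.exp (-(B * ‖ξ‖ ^ 2)) *
      ∫ θ, Real.exp (-(Real.pi * τ ^ 2 * ‖θ - ξ‖ ^ 2)) * ‖AK k ρ (fun _ => g) θ‖ ^ 2 := by
    intro ρ
    have h0 : Continuous (fun θ => ‖AK k ρ (fun _ => g) θ‖ ^ 2) := by
      have := ((hC2 k).2.1 ρ (fun _ => g) (fun _ _ => hg)).1
      fun_prop
    have h2 := EI.swap (A := A) hB' (show 0 ≤ Real.pi * τ ^ 2 by positivity) h0
      (int_1 hC2 k ρ hg)
    refine ⟨h2.1, ?_⟩
    rw [← h2.2]
    congr 1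
    funext θ
    rw [(hAB θ).2]
  rw [(key r).2, (key σ).2]
  apply integral_mono (key r).1 (key σ).1
  intro ξ
  have h4 := chirp0 hC k hσ hr (ξ / (k + 1)) hg
  simp only [wk_eq] at h4
  dsimp only
  have h3 : 0 ≤ A * Real.exp (-(B * ‖ξ‖ ^ 2)) := by positivity
  exact mul_le_mul_of_nonneg_left h4 h3

/-- the family of Gaussian averages including the case without Gaussian -/
noncomputable def HH (k : ℕ) (g : ℂ → ℂ) (z : ℂ × ℂ) : ℂ :=
  cv k (fun _ ζ => ((Real.exp (-(Real.pi * ‖z.2‖ ^ 2 * ‖ζ - z.1 / (k + 1)‖ ^ 2)) : ℝ) : ℂ) *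
    g ζ) z.1

theorem cont_HH (hC2 : StmtCV2) (k : ℕ) {g : ℂ → ℂ} (hg : CC g) : Continuous (HH k g) := by
  have h := (hC2 k).2.2 (fun _ => g)
    (fun _ p => ((Real.exp (-(Real.pi * ‖p.1‖ ^ 2 * ‖p.2‖ ^ 2)) : ℝ) : ℂ)) (fun _ _ => hg)
    (fun _ _ => by fun_prop)
  exact h

theorem HH_real (k : ℕ) (g : ℂ → ℂ) (θ : ℂ) (s : ℝ) :
    HH k g (θ, (s : ℂ)) = AK k s (fun _ => g) θ := by
  unfold HH AK MF
  congr 1
  funext _ ζ
  dsimp only
  unfold ga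
  rw [Complex.norm_real, Real.norm_eq_abs, sq_abs]

theorem HH_zero (k : ℕ) (g : ℂ → ℂ) (θ : ℂ) : HH k g (θ, 0) = cv k (fun _ => g) θ := by
  unfold HH
  congr 1
  funext _ ζ
  simp

theorem HH_supp (hCV : StmtCV) (k : ℕ) {g : ℂ → ℂ} {R : ℝ} (hR : ∀ ζ, g ζ ≠ 0 → ‖ζ‖ ≤ R)
    (z : ℂ × ℂ) (hz : (k + 1) * R < ‖z.1‖) : HH k g z = 0 := by
  by_contra hne
  obtain ⟨ζ, h1, h2⟩ := (hCV k).2.2.1 _ _ hne
  have h3 : ∀ j ∈ range (k + 1), ‖ζ j‖ ≤ R := by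
    intro j hj
    exact hR _ (right_ne_zero_of_mul (h2 j (by rw [Finset.mem_range] at hj; omega)))
  have h4 : ‖z.1‖ ≤ (k + 1) * R := by
    rw [← h1]
    refine (norm_sum_le _ _).trans ?_
    refine (Finset.sum_le_card_nsmul _ _ R h3).trans (le_of_eq ?_)
    rw [Finset.card_range, nsmul_eq_mul]
    push_cast
    ring
  linarith

theorem top (hC : StmtChirpK) (hCV : StmtCV) (hC2 : StmtCV2) (k : ℕ) {r : ℝ} (hr : 0 < r)
    {g : ℂ → ℂ} (hg : CC g) :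
    ∫ θ, ‖AK k r (fun _ => g) θ‖ ^ 2 ≤ NK (k + 1) g := by
  have hN : NK (k + 1) g = ∫ θ, ‖HH k g (θ, 0)‖ ^ 2 := by
    simp only [HH_zero]
    rw [((hCV k).1 (fun _ => g) (fun _ _ => hg)).2.2]
    unfold NK
    congr 1
    funext x
    rw [Finset.prod_const, Finset.card_range, ← pow_mul]
  rw [hN]
  obtain ⟨R, hR⟩ : ∃ R : ℝ, ∀ ζ, g ζ ≠ 0 → ‖ζ‖ ≤ R := by
    obtain ⟨R, hR⟩ := (hg.2 : IsCompact (tsupport g)).isBounded.exists_norm_le
    exact ⟨R, fun ζ hζ => hR ζ (subset_tsupport g hζ)⟩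
  have hcH := cont_HH hC2 k hg
  obtain ⟨B, hB⟩ : ∃ B : ℝ, ∀ z ∈ Metric.closedBall (0 : ℂ) ((k + 1) * R) ×ˢ
      Metric.closedBall (0 : ℂ) r, ‖HH k g z‖ ≤ B :=
    ((isCompact_closedBall _ _).prod (isCompact_closedBall _ _)).exists_bound_of_continuousOn
      hcH.continuousOn
  have hB1 : ∀ (θ : ℂ) (s : ℝ), 0 ≤ s → s ≤ r → ‖AK k s (fun _ => g) θ‖ ^ 2 ≤
      (Metric.closedBall (0 : ℂ) ((k + 1) * R)).indicator (fun _ => B ^ 2) θ := by
    intro θ s hs hsr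
    rw [← HH_real]
    by_cases hθ : θ ∈ Metric.closedBall (0 : ℂ) ((k + 1) * R)
    · rw [Set.indicator_of_mem hθ]
      refine pow_le_pow_left₀ (norm_nonneg _) (hB _ ⟨hθ, ?_⟩) 2
      rw [mem_closedBall_zero_iff, Complex.norm_real, Real.norm_eq_abs, abs_of_nonneg hs]
      exact hsr
    · rw [Set.indicator_of_notMem hθ, HH_supp hCV k hR _ (by simpa using hθ)]
      simp
  set s : ℕ → ℝ := fun i => r / ((i : ℝ) + 2) with hs
  have hs0 : ∀ i, 0 < s i := fun i => by simp only [hs]; positivity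
  have hs1 : ∀ i, s i < r := fun i => by
    simp only [hs]
    rw [div_lt_iff₀ (by positivity)]
    nlinarith [(Nat.cast_nonneg i : (0 : ℝ) ≤ i)]
  have hst : Tendsto s atTop (𝓝 0) := by
    have h1 : Tendsto (fun i : ℕ => ((i : ℝ) + 2)) atTop atTop :=
      tendsto_atTop_add_const_right _ _ tendsto_natCast_atTop_atTop
    exact h1.const_div_atTop r
  have hexp : ∀ θ : ℂ, Tendsto (fun i => wk k (s i) 0 θ) atTop (𝓝 1) := by
    intro θ
    have h1 : Tendsto (fun i => -(2 * Real.pi * s i ^ 2 * ((k : ℝ) + 1) *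
        ‖θ / (k + 1) - 0‖ ^ 2)) atTop
        (𝓝 (-(2 * Real.pi * 0 ^ 2 * ((k : ℝ) + 1) * ‖θ / (k + 1) - 0‖ ^ 2))) :=
      ((((hst.pow 2).const_mul _).mul_const _).mul_const _).neg
    have h2 := (Real.continuous_exp.tendsto _).comp h1
    simpa [Function.comp_def, wk] using h2
  have hcr := ((hC2 k).2.1 r (fun _ => g) (fun _ _ => hg)).1
  have hir := int_1 hC2 k r hg
  have hL : Tendsto (fun i => ∫ θ, wk k (s i) 0 θ * ‖AK k r (fun _ => g) θ‖ ^ 2) atTop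
      (𝓝 (∫ θ, ‖AK k r (fun _ => g) θ‖ ^ 2)) := by
    apply tendsto_integral_of_dominated_convergence (fun θ => ‖AK k r (fun _ => g) θ‖ ^ 2)
    · intro i
      exact (int_w hC2 k r hg (cont_wk k (s i) 0)).1
    · exact hir
    · intro i
      refine Filter.Eventually.of_forall fun θ => ?_
      rw [norm_mul, norm_pow, norm_norm, Real.norm_eq_abs, abs_of_pos (wk_pos _ _ _ _)]
      calc _ ≤ 1 * ‖AK k r (fun _ => g) θ‖ ^ 2 := by gcongr; exact wk_le_one _ _ _ _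
        _ = _ := one_mul _
    · refine Filter.Eventually.of_forall fun θ => ?_
      simpa using (hexp θ).mul_const (‖AK k r (fun _ => g) θ‖ ^ 2)
  have hR2 : Tendsto (fun i => ∫ θ, wk k (s i) 0 θ * ‖AK k (s i) (fun _ => g) θ‖ ^ 2) atTop
      (𝓝 (∫ θ, ‖HH k g (θ, 0)‖ ^ 2)) := by
    apply tendsto_integral_of_dominated_convergence
      ((Metric.closedBall (0 : ℂ) ((k + 1) * R)).indicator (fun _ => B ^ 2))
    · intro i
      exact (int_w hC2 k (s i) hg (cont_wk k (s i) 0)).1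
    · refine (integrable_indicator_iff measurableSet_closedBall).2 ?_
      exact integrableOn_const (isCompact_closedBall _ _).measure_lt_top.ne
    · intro i
      refine Filter.Eventually.of_forall fun θ => ?_
      rw [norm_mul, norm_pow, norm_norm, Real.norm_eq_abs, abs_of_pos (wk_pos _ _ _ _)]
      calc _ ≤ 1 * ‖AK k (s i) (fun _ => g) θ‖ ^ 2 := by gcongr; exact wk_le_one _ _ _ _
        _ = ‖AK k (s i) (fun _ => g) θ‖ ^ 2 := one_mul _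
        _ ≤ _ := hB1 θ (s i) (hs0 i).le (hs1 i).le
    · refine Filter.Eventually.of_forall fun θ => ?_
      have h1 : Tendsto (fun i => AK k (s i) (fun _ => g) θ) atTop (𝓝 (HH k g (θ, 0))) := by
        simp only [← HH_real]
        have h2 : Tendsto (fun i => ((θ, ((s i : ℝ) : ℂ)) : ℂ × ℂ)) atTop (𝓝 (θ, 0)) := by
          refine Tendsto.prodMk_nhds tendsto_const_nhds ?_
          have := (Complex.continuous_ofReal.tendsto 0).comp hst
          simpa [Function.comp_def] using this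
        exact (hcH.tendsto _).comp h2
      have h2 := (hexp θ).mul ((h1.norm).pow 2)
      simpa using h2
  refine le_of_tendsto_of_tendsto' hL hR2 fun i => ?_
  exact chirp0 hC k (hs0 i) (hs1 i) 0 hg

end EIKAux

/-- (EIK) the multiscale energy inequality -/
theorem eiK (hCh : StmtChirpK) (hC : StmtCV) (hC2 : StmtCV2) (_hP : StmtPSK) (_hB : Four.StmtBase) :
    StmtEIK := by
  intro k J K σ g _ hg hK hσ hKm hσm hKσ
  refine ⟨fun j => EIKAux.top hCh hC hC2 k (hσ j) hg, ?_⟩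
  set w : ℕ → ℂ → ℝ := fun j θ => Real.exp (-(Real.pi * ‖θ‖ ^ 2 / K j ^ 2)) with hw
  have hwc : ∀ j, Continuous (w j) := fun j => by simp only [hw]; fun_prop
  set a : ℕ → ℝ := fun j => ∫ θ, w j θ * ‖AK k (σ j) (fun _ => g) θ‖ ^ 2 with ha
  have h1 : ∀ j, ∫ θ, (Real.exp (-(Real.pi * ‖θ‖ ^ 2 / K (j + 1) ^ 2))
      - Real.exp (-(Real.pi * ‖θ‖ ^ 2 / K j ^ 2))) * ‖AK k (σ j) (fun _ => g) θ‖ ^ 2
      ≤ a (j + 1) - a j := by
    intro j
    have h2 : ∫ θ, (Real.exp (-(Real.pi * ‖θ‖ ^ 2 / K (j + 1) ^ 2))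
      - Real.exp (-(Real.pi * ‖θ‖ ^ 2 / K j ^ 2))) * ‖AK k (σ j) (fun _ => g) θ‖ ^ 2 =
      (∫ θ, w (j + 1) θ * ‖AK k (σ j) (fun _ => g) θ‖ ^ 2) - a j := by
      simp only [ha]
      rw [← integral_sub (EIKAux.int_w hC2 k (σ j) hg (hwc (j + 1)))
        (EIKAux.int_w hC2 k (σ j) hg (hwc j))]
      congr 1
      funext θ
      simp only [hw]
      ring
    rw [h2]
    have h3 := EIKAux.mono hCh hC2 k (hK (j + 1)) (hσ (j + 1)) (hσm j) (hKσ (j + 1)) hg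
    simp only [ha, hw] at *
    linarith
  calc _ ≤ ∑ j ∈ Finset.range J, (a (j + 1) - a j) := Finset.sum_le_sum fun j _ => h1 j
    _ = a J - a 0 := Finset.sum_range_sub a J
    _ ≤ a J := by
        have : 0 ≤ a 0 := integral_nonneg fun θ => by
          simp only [hw]
          positivity
        linarith
    _ ≤ ∫ θ, ‖AK k (σ J) (fun _ => g) θ‖ ^ 2 := by
        apply integral_mono (EIKAux.int_w hC2 k (σ J) hg (hwc J)) (EIKAux.int_1 hC2 k (σ J) hg)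
        intro θ
        have h5 : w J θ ≤ 1 := by
          simp only [hw]
          apply Real.exp_le_one_iff.2
          have : 0 ≤ Real.pi * ‖θ‖ ^ 2 / K J ^ 2 := by positivity
          linarith
        calc w J θ * ‖AK k (σ J) (fun _ => g) θ‖ ^ 2 ≤ 1 * ‖AK k (σ J) (fun _ => g) θ‖ ^ 2 :=
              mul_le_mul_of_nonneg_right h5 (by positivity)
          _ = _ := one_mul _
    _ ≤ NK (k + 1) g := EIKAux.top hCh hC hC2 k (hσ J) hg

end Pool.Agent.Lib.MP_dd244f_an.Even
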