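import Pool.Agent.Lib.MP_dd244f_an.Even.ErrKA

/-!
(ErrK) the one-variable symbols.
-/

set_option autoImplicit false

namespace Pool.Agent.Lib.MP_dd244f_an.Even

open MeasureTheory Filter Topology
open Pool.Agent.Lib.MP_dd244f_an.Four
open Pool.Agent.Lib.MP_dd244f_an.Four.ErrM (JB bd_jet bd_abs bd_trans bd_lip bd_zero BH P0 P0_of)

namespace ErrKM

/-- the symbol, abstractly -/
noncomputable def Sm (n : ℕ) (r : ℝ) (a b : ℤ) (φ z : ℂ) : ℂ :=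
  Gs1 r z * ((bd a b (φ + z) : ℂ) * Pk n φ z)

/-- the model, abstractly -/
noncomputable def Sc (n : ℕ) (r : ℝ) (a b a' b' : ℤ) (φ ψ z : ℂ) : ℂ :=
  Gs1 r z * ((bd a' b' (φ + z) : ℂ) * ((bd a b ψ : ℂ) * Gk n ψ z))

section main

variable {Λ τ r S : ℝ} {n : ℕ}
variable (hL : StmtLap) (hF : StmtFac) {C : ℝ} (hC : 0 < C)
  (hp : P0 Λ τ r S n) (hτ1 : τ ≤ 1) {a b a' b' : ℤ} (hab : a ≤ b) (haS : S ≤ (2 : ℝ) ^ a)
  (hκ : BH a b (C * τ * r) (C * τ ^ 2 * r ^ 2))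
  (hχ : BH a' b' (2 * C * τ * r) (4 * C * τ ^ 2 * r ^ 2))

include hL hF hC hp hτ1 hχ in
lemma JB_chi (φ δ : ℂ) : JB r (fun z => (bd a' b' (φ + z) : ℂ)) δ (1 + 4 * C) := by
  obtain ⟨r0, S0, Λ0, τ0, hn, hτ⟩ := hp
  have hτ2 : τ ^ 2 ≤ 1 := by nlinarith
  have h := (bd_trans hL hF hχ.h1 hχ.h2 hχ.h3 φ δ).1
  refine J.mono h ?_ ?_ ?_
  · linarith
  · refine mul_le_mul_of_nonneg_right ?_ r0.le
    nlinarith [mul_le_mul_of_nonneg_left hτ1 hC.le]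
  · refine mul_le_mul_of_nonneg_right ?_ (sq_nonneg r)
    nlinarith [mul_le_mul_of_nonneg_left hτ2 hC.le]

include hL hF hC hp hτ1 hκ in
lemma JB_kap (φ δ : ℂ) : JB r (fun z => (bd a b (φ + z) : ℂ)) δ (1 + 4 * C) := by
  obtain ⟨r0, S0, Λ0, τ0, hn, hτ⟩ := hp
  have hτ2 : τ ^ 2 ≤ 1 := by nlinarith
  have h := (bd_trans hL hF hκ.h1 hκ.h2 hκ.h3 φ δ).1
  refine J.mono h ?_ ?_ ?_
  · linarith
  · refine mul_le_mul_of_nonneg_right ?_ r0.le
    nlinarith [mul_le_mul_of_nonneg_left hτ1 hC.le]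
  · refine mul_le_mul_of_nonneg_right ?_ (sq_nonneg r)
    nlinarith [mul_le_mul_of_nonneg_left hτ2 hC.le]

include hL hF hC hp hτ1 hab haS hκ in
lemma JB_kP {φ : ℂ} (hφ : S ≤ ‖φ‖) (δ : ℂ) :
    JB r (fun z => (bd a b (φ + z) : ℂ) * Pk n φ z) δ
    (6 * (1 + 4 * C) * (256 * (1 + Λ ^ 2) * (1 + (r * ‖δ‖) ^ 2))) := by
  have r0 := hp.r0
  by_cases c1 : ‖φ + δ‖ < (2 : ℝ) ^ a
  · have h : ∀ᶠ z in 𝓝 δ, ‖φ + z‖ < (2 : ℝ) ^ a :=
      (continuous_const.add continuous_id).norm.continuousAt.eventually_lt continuousAt_const c1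
    have h1 : (fun z => (bd a b (φ + z) : ℂ) * Pk n φ z) =ᶠ[𝓝 δ] fun _ => (0 : ℂ) := by
      filter_upwards [h] with z hz
      rw [bd_zero hF hab hz.le]
      simp
    exact J.congr (ErrM.JB.zero r0.le (by positivity)) h1
  · exact J.mulB r0.le (JB_kap hL hF hC hp hτ1 hκ φ δ)
      (JB_Pk hL hp hφ (haS.trans (not_lt.1 c1)))

include hL hF hC hp hτ1 hab haS hκ in
/-- global bound for the symbol -/
lemma far1 {φ : ℂ} (hφ : S ≤ ‖φ‖) (δ : ℂ) : JB r (Sm n r a b φ) δ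
    (6 * (256 * (1 + (r * ‖δ‖) ^ 2) * Real.exp (-(Real.pi * (r * ‖δ‖) ^ 2))) *
      (6 * (1 + 4 * C) * (256 * (1 + Λ ^ 2) * (1 + (r * ‖δ‖) ^ 2)))) :=
  J.mulB hp.r0.le (JB_G1 hL hp.r0 δ) (JB_kP hL hF hC hp hτ1 hab haS hκ hφ δ)

include hL hF hC hp hτ1 hχ in
/-- global bound for the model -/
lemma far2 {ψ : ℂ} (hψ : S ≤ ‖ψ‖) (φ δ : ℂ) : JB r (Sc n r a b a' b' φ ψ) δ
    (6 * (256 * (1 + (r * ‖δ‖) ^ 2) * Real.exp (-(Real.pi * (r * ‖δ‖) ^ 2))) *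
      (6 * (1 + 4 * C) * (256 * (1 + Λ ^ 2) * (1 + (r * ‖δ‖) ^ 2)))) :=
  J.mulB hp.r0.le (JB_G1 hL hp.r0 δ) (J.mulB hp.r0.le (JB_chi hL hF hC hp hτ1 hχ φ δ)
    (ErrM.JB.cmul hp.r0.le (JB_Gk hL hp hψ δ) (bd_abs hF a b ψ)))

include hL hF hC hp hκ in
/-- the bound near the origin -/
lemma near {φ ψ δ : ℂ} {η X0 : ℝ} (hφ : 16 * S ≤ ‖φ‖) (hη : 0 < η)
    (hη1 : η < 1) (hψ : ‖ψ - φ‖ ≤ η * S) (hX : 1 ≤ X0) (hx : r * ‖δ‖ ≤ X0) (hXτ : X0 * τ ≤ 1)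
    (hone : ∀ z : ℂ, ‖z‖ ≤ 2 * S → bd a' b' (φ + z) = 1)
    (hd1 : 32 * Λ * X0 ^ 4 * (τ + η) ≤ 1) :
    JB r (fun z => Sm n r a b φ z - Sc n r a b a' b' φ ψ z) δ
    (6 * (256 * (1 + X0 ^ 2)) *
      (6 * (C * X0 * (τ + η)) * (256 * (1 + Λ ^ 2) * (1 + X0 ^ 2)) +
        6 * (256 * (1 + Λ ^ 2) * (1 + X0 ^ 2)) * (32 * Λ * X0 ^ 4 * (τ + η)))) := by
  obtain ⟨u1, u2, u3⟩ := phase hp hφ hη hη1 hψ hX hx hXτ
  have hp' := hp
  obtain ⟨r0, S0, Λ0, τ0, hn, hτ⟩ := hp'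
  have hx0 : 0 ≤ r * ‖δ‖ := by positivity
  have hτ1 : τ ≤ 1 := by nlinarith
  have hδ : ‖δ‖ = (r * ‖δ‖) * τ * S := by
    linear_combination (-‖δ‖) * hτ
  have hδS : ‖δ‖ ≤ S := by
    have : (r * ‖δ‖) * τ ≤ 1 := (mul_le_mul_of_nonneg_right hx τ0.le).trans hXτ
    rw [hδ]
    exact mul_le_of_le_one_left S0.le this
  have hψS : 15 * S ≤ ‖ψ‖ := by
    have h1 := norm_sub_norm_le φ ψ
    rw [norm_sub_rev] at h1
    nlinarith
  have t1 : S ≤ ‖φ + δ‖ := by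
    have := norm_sub_norm_le φ (-δ)
    rw [sub_neg_eq_add, norm_neg] at this
    linarith
  have hxsq : (r * ‖δ‖) ^ 2 ≤ X0 ^ 2 := pow_le_pow_left₀ hx0 hx 2
  have hA : 256 * (1 + Λ ^ 2) * (1 + (r * ‖δ‖) ^ 2) ≤ 256 * (1 + Λ ^ 2) * (1 + X0 ^ 2) :=
    mul_le_mul_of_nonneg_left (by linarith) (by positivity)
  have jP : JB r (Pk n φ) δ (256 * (1 + Λ ^ 2) * (1 + X0 ^ 2)) :=
    ErrM.JB.mono r0.le (JB_Pk hL hp (by linarith) t1) hA
  have jG : JB r (Gk n ψ) δ (256 * (1 + Λ ^ 2) * (1 + X0 ^ 2)) :=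
    ErrM.JB.mono r0.le (JB_Gk hL hp (by linarith) δ) hA
  have jΓ : JB r (Gs1 r) δ (256 * (1 + X0 ^ 2)) := by
    refine ErrM.JB.mono r0.le (JB_G1 hL r0 δ) ?_
    have he : Real.exp (-(Real.pi * (r * ‖δ‖) ^ 2)) ≤ 1 := by
      apply Real.exp_le_one_iff.2
      have := Real.pi_pos
      have : 0 ≤ Real.pi * (r * ‖δ‖) ^ 2 := by positivity
      linarith
    calc 256 * (1 + (r * ‖δ‖) ^ 2) * Real.exp (-(Real.pi * (r * ‖δ‖) ^ 2))
        ≤ 256 * (1 + (r * ‖δ‖) ^ 2) * 1 := mul_le_mul_of_nonneg_left he (by positivity)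
      _ ≤ _ := by linarith
  obtain ⟨d, hd⟩ : ∃ d, d = 32 * Λ * X0 ^ 4 * (τ + η) := ⟨_, rfl⟩
  rw [← hd] at u2 u3 hd1 ⊢
  have hd0 : 0 ≤ d := by rw [hd]; positivity
  -- the phase factor minus one
  let D : ℂ → ℂ := fun z => H1 n φ z - n * z ^ 2 / ψ ^ 2
  have hφ0 : φ ≠ 0 := norm_pos_iff.1 (lt_of_lt_of_le (by positivity) hφ)
  have aD : AnalyticAt ℂ D δ := (an_H1 n φ u1).sub (an_H2 n ψ δ)
  have dD : deriv D δ = 2 * n * δ / (φ ^ 2 * (1 + δ / φ)) - 2 * n * δ / ψ ^ 2 :=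
    ((hasDeriv_H1 n hφ0 u1).sub (hasDeriv_H2 n ψ δ)).deriv
  have jE0 := J_exp hL aD (d := d * r) (by rw [dD]; exact u3)
  have jE : JB r (fun z => Complex.exp (Complex.I * ((D z).im : ℂ)) - 1) δ d := by
    have h1 : ‖Complex.exp (Complex.I * ((D δ).im : ℂ)) - 1‖ ≤ d := by
      refine Real.norm_exp_I_mul_ofReal_sub_one_le.trans ?_
      rw [Real.norm_eq_abs]
      exact (Complex.abs_im_le_norm _).trans u2
    refine J.mono (jE0.sub_const 1 h1) le_rfl le_rfl ?_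
    rw [mul_pow]
    refine mul_le_mul_of_nonneg_right ?_ (sq_nonneg r)
    nlinarith
  -- the cut-offs
  have jK : JB r (fun z => (bd a b (φ + z) : ℂ) - (bd a b ψ : ℂ)) δ (C * X0 * (τ + η)) := by
    have h1 := (bd_trans hL hF hκ.h1 hκ.h2 hκ.h3 φ δ).1
    have hL1 := bd_lip hκ.h1 hκ.h2
    have hv : ‖(bd a b (φ + δ) : ℂ) - (bd a b ψ : ℂ)‖ ≤ C * X0 * (τ + η) := by
      have hC0 : 0 ≤ C * τ * r := by positivity
      have e2 : ‖φ + δ - ψ‖ ≤ ‖δ‖ + η * S := by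
        have : φ + δ - ψ = δ - (ψ - φ) := by ring
        rw [this]
        exact (norm_sub_le _ _).trans (by linarith)
      have e4 := (hL1 (φ + δ) ψ).trans (mul_le_mul_of_nonneg_left e2 hC0)
      refine e4.trans ?_
      have e10 : C * τ * r * (‖δ‖ + η * S) = C * (r * ‖δ‖) * τ + C * η := by
        linear_combination C * η * hτ
      have e11 : C * (r * ‖δ‖) * τ ≤ C * X0 * τ :=
        mul_le_mul_of_nonneg_right (mul_le_mul_of_nonneg_left hx hC.le) τ0.le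
      have e12 : C * η ≤ C * X0 * η := by
        nlinarith [mul_le_mul_of_nonneg_left hX (mul_pos hC hη).le]
      rw [e10]
      linarith
    have e2 : τ ≤ X0 * (τ + η) := by nlinarith
    refine J.mono (h1.sub_const _ hv) le_rfl ?_ ?_
    · refine mul_le_mul_of_nonneg_right ?_ r0.le
      nlinarith [mul_le_mul_of_nonneg_left e2 hC.le]
    · refine mul_le_mul_of_nonneg_right ?_ (sq_nonneg r)
      have e3 : τ ^ 2 ≤ X0 * (τ + η) := by nlinarith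
      nlinarith [mul_le_mul_of_nonneg_left e3 hC.le]
  have hsum := ErrM.JB.add (J.mulB r0.le jK jP)
    (ErrM.JB.cmul r0.le (J.mulB r0.le jG jE) (bd_abs hF a b ψ))
  have hall := J.mulB r0.le jΓ hsum
  refine J.congr hall ?_
  -- the identity near `δ`
  have hev1 : ∀ᶠ z in 𝓝 δ, ‖z‖ < 2 * S :=
    continuous_norm.continuousAt.eventually_lt continuousAt_const (by linarith)
  filter_upwards [hev1] with z hz
  have hzφ : ‖z / φ‖ < 1 := by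
    rw [norm_div, div_lt_one (by positivity)]
    linarith
  have n1 : 1 + z / φ ≠ 0 := by
    intro h0
    have : z / φ = -1 := by linear_combination h0
    rw [this, norm_neg, norm_one] at hzφ
    exact lt_irrefl _ hzφ
  have hPz : Pk n φ z = Gk n ψ z * Complex.exp (Complex.I * ((D z).im : ℂ)) := by
    have e0 : mm n (φ + z) / mm n φ = mm n (1 + z / φ) := by
      rw [div_eq_iff (mm_ne n hφ0), ← mm_mul]
      congr 1
      field_simp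
    unfold Pk Gk
    rw [e0, mm_exp n n1, ← Complex.exp_add, ← Complex.exp_add, ← mul_add, ← mul_add]
    congr 2
    have e1 : (-(2 * n) * Complex.log (1 + z / φ) : ℂ).im + 2 * n * (z / φ).im =
        (n * z ^ 2 / ψ ^ 2 : ℂ).im + (D z).im := by
      rw [← Complex.add_im]
      have e2 : (2 * n * (z / φ) : ℂ).im = 2 * n * (z / φ).im := by
        have : (2 * n * (z / φ) : ℂ) = ((2 * n : ℝ) : ℂ) * (z / φ) := by push_cast; ring
        rw [this, Complex.im_ofReal_mul]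
      rw [← e2, ← Complex.add_im]
      congr 1
      show _ = _ + (H1 n φ z - _)
      unfold H1
      ring
    rw [← Complex.ofReal_add, ← Complex.ofReal_add, e1]
  unfold Sm Sc
  rw [hPz, hone z hz.le]
  push_cast
  ring

end main

/-- the constant of the far region -/
noncomputable def Kf1 (C Λ : ℝ) : ℝ := 6 * 256 * (6 * (1 + 4 * C) * (256 * (1 + Λ ^ 2)))

/-- the constant of the near region -/
noncomputable def Kn1 (C Λ X0 : ℝ) : ℝ :=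
  6 * (256 * (1 + X0 ^ 2)) * (6 * (C * X0) * (256 * (1 + Λ ^ 2) * (1 + X0 ^ 2)) +
    6 * (256 * (1 + Λ ^ 2) * (1 + X0 ^ 2)) * (32 * Λ * X0 ^ 4))

lemma Kf1_pos {C Λ : ℝ} (hC : 0 < C) : 0 < Kf1 C Λ := by
  unfold Kf1
  positivity

lemma gauss_le {y : ℝ} (hy : 0 ≤ y) : (1 + y) ^ 2 * Real.exp (-(Real.pi * y)) ≤
    Real.exp (-(0.14 * y)) * Real.exp (-y) := by
  have hpi : 3.14 ≤ Real.pi := Real.pi_gt_d2.le
  have e1 : (1 + y) ^ 2 ≤ Real.exp (2 * y) := by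
    have h1 : 1 + y ≤ Real.exp y := by
      have := Real.add_one_le_exp y
      linarith
    calc (1 + y) ^ 2 ≤ Real.exp y ^ 2 := pow_le_pow_left₀ (by linarith) h1 2
      _ = Real.exp (2 * y) := by
          rw [← Real.exp_nat_mul]
          norm_num
  have e2 : Real.exp (-(Real.pi * y)) ≤ Real.exp (-(3.14 * y)) := by
    apply Real.exp_le_exp.2
    nlinarith
  calc (1 + y) ^ 2 * Real.exp (-(Real.pi * y)) ≤ Real.exp (2 * y) * Real.exp (-(3.14 * y)) :=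
        mul_le_mul e1 e2 (Real.exp_pos _).le (Real.exp_pos _).le
    _ = Real.exp (-(0.14 * y)) * Real.exp (-y) := by
        rw [← Real.exp_add, ← Real.exp_add]
        congr 1
        ring

lemma far_le {C Λ y : ℝ} (hC : 0 < C) (hy : 0 ≤ y) :
    6 * (256 * (1 + y) * Real.exp (-(Real.pi * y))) *
      (6 * (1 + 4 * C) * (256 * (1 + Λ ^ 2) * (1 + y))) ≤
    Kf1 C Λ * (Real.exp (-(0.14 * y)) * Real.exp (-y)) := by
  have h := mul_le_mul_of_nonneg_left (gauss_le hy) (Kf1_pos (Λ := Λ) hC).le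
  refine le_trans (le_of_eq ?_) h
  unfold Kf1
  ring

lemma SyB_of {r B : ℝ} {f : ℂ → ℂ} {A : ℂ → ℝ} (hf : ∀ δ, JB r f δ (A δ))
    (hA : ∀ δ, A δ ≤ B * Real.exp (-(r ^ 2 * ‖δ‖ ^ 2))) (hc : HasCompactSupport f) :
    SyB r B f := by
  refine ⟨contDiff_iff_contDiffAt.2 fun δ => (hf δ).s, hc, fun δ => ⟨(hf δ).v.trans (hA δ),
    (hf δ).l.trans ?_⟩⟩
  calc A δ * r ^ 2 ≤ B * Real.exp (-(r ^ 2 * ‖δ‖ ^ 2)) * r ^ 2 :=
        mul_le_mul_of_nonneg_right (hA δ) (sq_nonneg r)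
    _ = _ := by ring

/-- choice of `X0` and `w` -/
lemma params {C Λ ε : ℝ} (hC : 0 < C) (hΛ : 0 < Λ) (hε : 0 < ε) : ∃ X0 w : ℝ, 1 ≤ X0 ∧
    20 * Kf1 C Λ ≤ ε * (X0 - 1) ∧ 0 < w ∧ w ≤ ε ∧ w ≤ 1 / 2 ∧ X0 * w ≤ 1 ∧
    64 * Λ * X0 ^ 4 * w ≤ 1 ∧ 2 * Kn1 C Λ X0 * w ≤ ε * Real.exp (-(X0 ^ 2)) := by
  have K0 : 0 < Kf1 C Λ := Kf1_pos hC
  obtain ⟨X0, hX0⟩ : ∃ X0 : ℝ, X0 = 1 + 20 * Kf1 C Λ / ε := ⟨_, rfl⟩
  have h0 : 0 < 20 * Kf1 C Λ / ε := by positivity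
  have hX : 1 ≤ X0 := by linarith
  have X00 : 0 < X0 := by linarith
  have K1 : 0 < Kn1 C Λ X0 := by
    unfold Kn1
    positivity
  have hexp : 0 < Real.exp (-(X0 ^ 2)) := Real.exp_pos _
  refine ⟨X0, min (min ε (1 / 2)) (min (1 / X0) (min (1 / (64 * Λ * X0 ^ 4))
    (ε * Real.exp (-(X0 ^ 2)) / (2 * Kn1 C Λ X0)))), hX, ?_, ?_, ?_, ?_, ?_, ?_, ?_⟩
  · rw [hX0]
    have : ε * (1 + 20 * Kf1 C Λ / ε - 1) = 20 * Kf1 C Λ := by field_simp; ring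
    rw [this]
  · exact lt_min (lt_min hε (by norm_num)) (lt_min (by positivity) (lt_min (by positivity)
      (by positivity)))
  · exact (min_le_left _ _).trans (min_le_left _ _)
  · exact (min_le_left _ _).trans (min_le_right _ _)
  · refine (mul_le_mul_of_nonneg_left ((min_le_right _ _).trans (min_le_left _ _))
      X00.le).trans (le_of_eq ?_)
    field_simp
  · refine (mul_le_mul_of_nonneg_left ((min_le_right _ _).trans
      ((min_le_right _ _).trans (min_le_left _ _))) (by positivity)).trans (le_of_eq ?_)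
    field_simp
  · refine (mul_le_mul_of_nonneg_left ((min_le_right _ _).trans
      ((min_le_right _ _).trans (min_le_right _ _))) (by positivity)).trans (le_of_eq ?_)
    field_simp

section core

variable {Λ τ r S : ℝ} {n : ℕ}

lemma core (hL : StmtLap) (hF : StmtFac) {C : ℝ} (hC : 0 < C) (hp : P0 Λ τ r S n)
    {a b a' b' : ℤ} (hab : a ≤ b) (haS : S ≤ (2 : ℝ) ^ a)
    (hκ : BH a b (C * τ * r) (C * τ ^ 2 * r ^ 2))
    (hχ : BH a' b' (2 * C * τ * r) (4 * C * τ ^ 2 * r ^ 2))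
    (hs1 : HasCompactSupport (fun ζ => (bd a b ζ : ℂ)))
    (hs2 : HasCompactSupport (fun ζ => (bd a' b' ζ : ℂ)))
    {φ ψ : ℂ} {ε X0 w : ℝ} (hφ : 16 * S ≤ ‖φ‖) (hε : 0 < ε) (hX : 1 ≤ X0)
    (hK : 20 * Kf1 C Λ ≤ ε * (X0 - 1)) (w0 : 0 < w) (hτw : τ ≤ w) (w2 : w ≤ 1 / 2)
    (w3 : X0 * w ≤ 1) (w4 : 64 * Λ * X0 ^ 4 * w ≤ 1)
    (w5 : 2 * Kn1 C Λ X0 * w ≤ ε * Real.exp (-(X0 ^ 2))) (hψ : ‖ψ - φ‖ ≤ w * S)
    (hone : ∀ z : ℂ, ‖z‖ ≤ 2 * S → bd a' b' (φ + z) = 1) :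
    SyB r (Kf1 C Λ) (Sm n r a b φ) ∧ SyB r (Kf1 C Λ) (Sc n r a b a' b' φ ψ) ∧
    SyB r ε (fun z => Sm n r a b φ z - Sc n r a b a' b' φ ψ z) := by
  have hp' := hp
  obtain ⟨r0, S0, Λ0, τ0, hn, hτ⟩ := hp'
  have X00 : 0 < X0 := by linarith
  have hτ1 : τ ≤ 1 := by linarith
  have hψS : S ≤ ‖ψ‖ := by
    have h1 := norm_sub_norm_le φ ψ
    rw [norm_sub_rev] at h1
    nlinarith
  have hf1 := far1 hL hF hC hp hτ1 hab haS hκ (by linarith : S ≤ ‖φ‖)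
  have hf2 := far2 hL hF hC hp hτ1 (a := a) (b := b) hχ hψS φ
  have hxe : ∀ δ : ℂ, r ^ 2 * ‖δ‖ ^ 2 = (r * ‖δ‖) ^ 2 := fun δ => by ring
  have hKf := Kf1_pos (Λ := Λ) hC
  have hA1 : ∀ δ : ℂ, 6 * (256 * (1 + (r * ‖δ‖) ^ 2) * Real.exp (-(Real.pi * (r * ‖δ‖) ^ 2))) *
      (6 * (1 + 4 * C) * (256 * (1 + Λ ^ 2) * (1 + (r * ‖δ‖) ^ 2))) ≤
      Kf1 C Λ * Real.exp (-(r ^ 2 * ‖δ‖ ^ 2)) := by
    intro δ
    rw [hxe]
    have hy0 : 0 ≤ (r * ‖δ‖) ^ 2 := sq_nonneg _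
    refine (far_le hC hy0).trans (mul_le_mul_of_nonneg_left ?_ hKf.le)
    have e1 : Real.exp (-(0.14 * (r * ‖δ‖) ^ 2)) ≤ 1 := by
      apply Real.exp_le_one_iff.2
      linarith
    exact mul_le_of_le_one_left (Real.exp_pos _).le e1
  have c1 : HasCompactSupport (Sm n r a b φ) := by
    have h1 : HasCompactSupport (fun z => (bd a b (φ + z) : ℂ)) :=
      hs1.comp_homeomorph (Homeomorph.addLeft φ)
    have h2 : HasCompactSupport (fun z => (bd a b (φ + z) : ℂ) * Pk n φ z) := h1.mul_right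
    exact h2.mul_left
  have c2 : HasCompactSupport (Sc n r a b a' b' φ ψ) := by
    have h1 : HasCompactSupport (fun z => (bd a' b' (φ + z) : ℂ)) :=
      hs2.comp_homeomorph (Homeomorph.addLeft φ)
    have h2 : HasCompactSupport (fun z => (bd a' b' (φ + z) : ℂ) *
      ((bd a b ψ : ℂ) * Gk n ψ z)) := h1.mul_right
    exact h2.mul_left
  refine ⟨SyB_of hf1 hA1 c1, SyB_of hf2 hA1 c2, ?_⟩
  -- the difference
  classical
  have hkey : ∀ δ : ℂ, ∃ A : ℝ, JB r (fun z => Sm n r a b φ z - Sc n r a b a' b' φ ψ z) δ A ∧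
      A ≤ ε * Real.exp (-(r ^ 2 * ‖δ‖ ^ 2)) := by
    intro δ
    have hx0 : 0 ≤ r * ‖δ‖ := by positivity
    by_cases hx : r * ‖δ‖ ≤ X0
    · have hXτ : X0 * τ ≤ 1 := (mul_le_mul_of_nonneg_left hτw X00.le).trans w3
      have hsum : τ + w ≤ 2 * w := by linarith
      have hd1 : 32 * Λ * X0 ^ 4 * (τ + w) ≤ 1 := by
        refine (mul_le_mul_of_nonneg_left hsum (by positivity)).trans ?_
        linarith
      refine ⟨_, near hL hF hC hp hκ hφ w0 (by linarith) hψ hX hx hXτ hone hd1, ?_⟩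
      have K'0 : 0 ≤ Kn1 C Λ X0 := by
        unfold Kn1
        positivity
      have e1 : 6 * (256 * (1 + X0 ^ 2)) *
        (6 * (C * X0 * (τ + w)) * (256 * (1 + Λ ^ 2) * (1 + X0 ^ 2)) +
        6 * (256 * (1 + Λ ^ 2) * (1 + X0 ^ 2)) * (32 * Λ * X0 ^ 4 * (τ + w))) =
          Kn1 C Λ X0 * (τ + w) := by
        unfold Kn1
        ring
      rw [e1]
      refine (mul_le_mul_of_nonneg_left hsum K'0).trans ?_
      have e2 : ε * Real.exp (-(X0 ^ 2)) ≤ ε * Real.exp (-(r ^ 2 * ‖δ‖ ^ 2)) := by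
        refine mul_le_mul_of_nonneg_left (Real.exp_le_exp.2 ?_) hε.le
        rw [hxe]
        have := pow_le_pow_left₀ hx0 hx 2
        linarith
      linarith
    · have hx' : X0 ≤ r * ‖δ‖ := (not_le.1 hx).le
      refine ⟨_, ErrM.JB.sub (hf1 δ) (hf2 δ), ?_⟩
      rw [hxe]
      have hy0 : 0 ≤ (r * ‖δ‖) ^ 2 := sq_nonneg _
      have hfar := far_le (Λ := Λ) hC hy0
      have hy1 : X0 ≤ (r * ‖δ‖) ^ 2 := by nlinarith
      generalize (r * ‖δ‖) ^ 2 = y at hfar hy0 hy1 ⊢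
      have e3 : 2 * Kf1 C Λ ≤ ε * Real.exp (0.14 * y) := by
        have h1 := Real.add_one_le_exp (0.14 * y)
        have h2 : 20 * Kf1 C Λ ≤ ε * y := hK.trans (mul_le_mul_of_nonneg_left (by linarith) hε.le)
        have h3 : ε * (0.14 * y) ≤ ε * Real.exp (0.14 * y) :=
          mul_le_mul_of_nonneg_left (by linarith) hε.le
        have h4 : 2 * Kf1 C Λ ≤ 0.14 * (20 * Kf1 C Λ) := by linarith
        linarith
      have e4 : 2 * Kf1 C Λ * (Real.exp (-(0.14 * y)) * Real.exp (-y)) ≤ ε * Real.exp (-y) := by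
        have h5 := mul_le_mul_of_nonneg_right e3
          (by positivity : 0 ≤ Real.exp (-(0.14 * y)) * Real.exp (-y))
        refine h5.trans (le_of_eq ?_)
        rw [mul_assoc, ← mul_assoc (Real.exp (0.14 * y)), ← Real.exp_add]
        simp
      linarith
  choose A hA using hkey
  exact SyB_of (fun δ => (hA δ).1) (fun δ => (hA δ).2) (c1.sub c2)

end core

end ErrKM

open ErrKM in
/-- (ErrK) -/
theorem errK (hL : StmtLap) (hM : StmtMM) (_ : StmtMM2) (hF : StmtFac) : StmtErrK := by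
  intro k M L m hk hM1 hkm hLm
  obtain ⟨C, hC, hMM⟩ := hM
  have hM0 : 0 < M := lt_of_lt_of_le one_pos hM1
  have Λ0 : 0 < M ^ 2 * ((2 : ℝ) ^ L) ^ 2 := by positivity
  refine ⟨Kf1 C (M ^ 2 * ((2 : ℝ) ^ L) ^ 2), Kf1_pos hC, ?_⟩
  intro ε hε
  obtain ⟨X0, w, hX, hK, w0, w1, w2, w3, w4, w5⟩ := params hC Λ0 hε
  refine ⟨w, ⌈(M * (2 : ℝ) ^ L / w) ^ 2⌉₊ + 1, w0, by linarith, w1, by omega, ?_⟩
  intro n hn s θ q hθ hq
  have hn1 : (M * (2 : ℝ) ^ L / w) ^ 2 ≤ n := by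
    have h1 : ⌈(M * (2 : ℝ) ^ L / w) ^ 2⌉₊ ≤ n := by omega
    exact (Nat.le_ceil _).trans (by exact_mod_cast h1)
  have hn0 : (0 : ℝ) < n := by
    have : 0 < n := by omega
    exact_mod_cast this
  have hsq : 0 < Real.sqrt n := Real.sqrt_pos.2 hn0
  have hsq3 : M * (2 : ℝ) ^ L / w ≤ Real.sqrt n := Real.le_sqrt_of_sq_le hn1
  have hp := P0_of hM0 L s hn0
  have hτw : M * (2 : ℝ) ^ L / Real.sqrt n ≤ w := by
    rw [div_le_iff₀ hsq]
    rw [div_le_iff₀ w0] at hsq3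
    linarith
  have hm1 : 1 ≤ m := by
    by_contra h0
    have : m = 0 := by omega
    subst this
    omega
  have hab : s + m < s + L - m := by
    have : (2 * m : ℤ) < L := by exact_mod_cast hLm
    linarith
  have hpow : (2 : ℝ) ^ (s + (m : ℤ)) = (2 : ℝ) ^ s * 2 ^ m := by
    rw [zpow_add₀ (by norm_num : (2 : ℝ) ≠ 0), zpow_natCast]
  have hpow' : (2 : ℝ) ^ (s - 1) = (2 : ℝ) ^ s / 2 := by
    rw [zpow_sub₀ (by norm_num : (2 : ℝ) ≠ 0), zpow_one]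
  have hk0 : (0 : ℝ) < (k : ℝ) + 1 := by positivity
  have h16 : 16 * ((k : ℝ) + 1) ≤ 2 ^ m := by exact_mod_cast hkm
  have hkn : ‖((k : ℂ) + 1)‖ = (k : ℝ) + 1 := by
    have : ((k : ℂ) + 1) = (((k : ℝ) + 1 : ℝ) : ℂ) := by push_cast; ring
    rw [this, Complex.norm_real, Real.norm_of_nonneg hk0.le]
  obtain ⟨b1, b2, b3⟩ := bd_jet hMM hab
  obtain ⟨d1, d2, d3⟩ := bd_jet hMM (show s - 1 < s + L + 1 by
    have : (0 : ℤ) ≤ L := Int.natCast_nonneg L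
    linarith)
  have S0' : 0 < (2 : ℝ) ^ s := by positivity
  -- the point `θ / (k + 1)`
  have hφ16 : 16 * (2 : ℝ) ^ s ≤ ‖θ / (k + 1)‖ := by
    rw [norm_div, hkn, le_div_iff₀ hk0]
    refine le_trans ?_ hθ.1
    rw [hpow]
    nlinarith
  have hψφ : ‖q / (k + 1) - θ / (k + 1)‖ ≤ w * (2 : ℝ) ^ s := by
    rw [← sub_div, norm_div, hkn, div_le_iff₀ hk0]
    refine hq.trans ?_
    have : 0 ≤ w * (2 : ℝ) ^ s := by positivity
    have hk1 : (0 : ℝ) ≤ k := Nat.cast_nonneg k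
    nlinarith
  have hone : ∀ z : ℂ, ‖z‖ ≤ 2 * (2 : ℝ) ^ s → bd (s - 1) (s + L + 1) (θ / (k + 1) + z) = 1 := by
    intro z hz
    have hup : ‖θ / (k + 1)‖ ≤ (2 : ℝ) ^ (s + L) := by
      rw [norm_div, hkn, div_le_iff₀ hk0]
      refine hθ.2.trans ?_
      rw [mul_comm]
      refine mul_le_mul_of_nonneg_right ?_ hk0.le
      apply zpow_le_zpow_right₀ (by norm_num)
      have : (1 : ℤ) ≤ m := by exact_mod_cast hm1
      linarith
    have h2s : 2 * (2 : ℝ) ^ s ≤ (2 : ℝ) ^ (s + L) := by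
      have : 2 * (2 : ℝ) ^ s = (2 : ℝ) ^ (s + 1) := by
        rw [zpow_add₀ (by norm_num : (2 : ℝ) ≠ 0), zpow_one, mul_comm]
      rw [this]
      apply zpow_le_zpow_right₀ (by norm_num)
      have : (2 * m : ℤ) < L := by exact_mod_cast hLm
      have : (1 : ℤ) ≤ m := by exact_mod_cast hm1
      linarith
    have hhi : lo (s + L + 1) (θ / (k + 1) + z) = 1 := by
      apply hF.2.1
      refine (norm_add_le _ _).trans ?_
      have : (2 : ℝ) ^ (s + L + 1) = (2 : ℝ) ^ (s + L) * 2 := by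
        rw [zpow_add₀ (by norm_num : (2 : ℝ) ≠ 0), zpow_one]
      rw [this]
      linarith
    have hlo : lo (s - 1) (θ / (k + 1) + z) = 0 := by
      apply hF.2.2.1
      rw [hpow']
      have h1 : 14 * (2 : ℝ) ^ s ≤ ‖θ / (k + 1) + z‖ := by
        have := norm_sub_norm_le (θ / (k + 1)) (-z)
        rw [sub_neg_eq_add, norm_neg] at this
        linarith
      nlinarith
    unfold bd
    rw [hhi, hlo, sub_zero]
  have hq0 : q ≠ 0 := by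
    rintro rfl
    rw [zero_sub, norm_neg] at hq
    have h1 := hθ.1
    rw [hpow] at h1
    have hk1 : (0 : ℝ) ≤ k := Nat.cast_nonneg k
    have h2 : (2 : ℝ) ^ s * 16 ≤ (2 : ℝ) ^ s * 2 ^ m :=
      mul_le_mul_of_nonneg_left (by nlinarith) S0'.le
    nlinarith
  have hsm : smK k n (win n M s L) s L m θ =
      Sm n (win n M s L) (s + m) (s + L - m) (θ / (k + 1)) := smK_eq k n _ s L m θ
  have hsc : scK k n (win n M s L) s L m θ q =
      Sc n (win n M s L) (s + m) (s + L - m) (s - 1) (s + L + 1) (θ / (k + 1)) (q / (k + 1)) :=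
    scK_eq k n _ s L m θ hq0
  rw [hsm, hsc]
  have haS : (2 : ℝ) ^ s ≤ (2 : ℝ) ^ (s + (m : ℤ)) := by
    apply zpow_le_zpow_right₀ (by norm_num)
    have : (0 : ℤ) ≤ m := Int.natCast_nonneg m
    linarith
  clear hsm hsc hθ hq
  generalize θ / ((k : ℂ) + 1) = φ at *
  generalize q / ((k : ℂ) + 1) = ψ at *
  generalize M ^ 2 * ((2 : ℝ) ^ L) ^ 2 = Λ at *
  generalize M * (2 : ℝ) ^ L / Real.sqrt n = τ at *
  generalize win n M s L = r at *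
  generalize (2 : ℝ) ^ s = S at *
  have S0 := hp.S0
  have r0 := hp.r0
  have hSi : 1 / S = τ * r := by
    rw [div_eq_iff S0.ne', hp.hτ]
  have hκ : BH (s + m) (s + L - m) (C * τ * r) (C * τ ^ 2 * r ^ 2) := by
    refine ⟨b1, fun ζ => (b3 ζ).1.trans ?_, fun ζ => (b3 ζ).2.trans ?_⟩
    · calc C / (2 : ℝ) ^ (s + (m : ℤ)) ≤ C / S := div_le_div_of_nonneg_left hC.le S0 haS
        _ = C * (1 / S) := by ring
        _ = C * τ * r := by rw [hSi]; ring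
    · calc C / ((2 : ℝ) ^ (s + (m : ℤ))) ^ 2 ≤ C / S ^ 2 :=
            div_le_div_of_nonneg_left hC.le (by positivity) (pow_le_pow_left₀ S0.le haS 2)
        _ = C * (1 / S) ^ 2 := by ring
        _ = C * τ ^ 2 * r ^ 2 := by rw [hSi]; ring
  have hχ : BH (s - 1) (s + L + 1) (2 * C * τ * r) (4 * C * τ ^ 2 * r ^ 2) := by
    refine ⟨d1, fun ζ => (d3 ζ).1.trans (le_of_eq ?_), fun ζ => (d3 ζ).2.trans (le_of_eq ?_)⟩
    · rw [hpow']
      calc C / (S / 2) = 2 * C * (1 / S) := by ring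
        _ = _ := by rw [hSi]; ring
    · rw [hpow']
      calc C / (S / 2) ^ 2 = 4 * C * (1 / S) ^ 2 := by ring
        _ = _ := by rw [hSi]; ring
  exact core hL hF hC hp hab.le haS hκ hχ b2 d2 hφ16 hε hX hK w0 hτw w2 w3 w4 w5 hψφ hone

end Pool.Agent.Lib.MP_dd244f_an.Even
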