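import Pool.Agent.Lib.MP_dd244f_an.Even.Stmts
import Pool.Agent.Lib.MP_dd244f_an.Four.ErrLow

/-!
Full operator, even `p`: the symbol at low total frequency is tiny.
-/

set_option autoImplicit false

namespace Pool.Agent.Lib.MP_dd244f_an.Even

open MeasureTheory Filter Topology Finset
open Pool.Agent.Lib.MP_dd244f_an.Four

namespace ErrLKAux

/-- the Gaussian -/
noncomputable def gau1 (r : ℝ) (z : ℂ) : ℂ := ((Real.exp (-(Real.pi * r ^ 2 * ‖z‖ ^ 2)) : ℝ) : ℂ)

theorem gau1_contDiff (r : ℝ) : ContDiff ℝ 2 (gau1 r) := by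
  unfold gau1
  exact Complex.ofRealCLM.contDiff.comp
    (Real.contDiff_exp.comp ((contDiff_const.mul (contDiff_norm_sq ℝ)).neg))

theorem gau1_sz (hL : StmtLap) {r : ℝ} (hr : 0 < r) (δ : ℂ) :
    Sz r (gau1 r) δ (160 * (1 + (r * ‖δ‖) ^ 2) * Real.exp (-(Real.pi * (r * ‖δ‖) ^ 2))) := by
  have h1 := hL.2.2.1 (Real.pi * r ^ 2) δ (by positivity)
  have hG : gau1 r = fun z : ℂ => ((Real.exp (-(Real.pi * r ^ 2 * ‖z‖ ^ 2)) : ℝ) : ℂ) := rfl
  have he : Real.exp (-(Real.pi * r ^ 2 * ‖δ‖ ^ 2))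
      = Real.exp (-(Real.pi * (r * ‖δ‖) ^ 2)) := by
    congr 1; ring
  rw [← hG, he] at h1
  set x := r * ‖δ‖ with hx
  have hx0 : 0 ≤ x := by positivity
  set E := Real.exp (-(Real.pi * x ^ 2)) with hE
  have hE0 : 0 < E := Real.exp_pos _
  have hpi := Real.pi_pos
  have hpi4 := Real.pi_lt_d2
  have hpi2 : Real.pi ^ 2 ≤ 10 := by nlinarith
  refine ⟨?_, ?_, ?_⟩
  · have : ‖gau1 r δ‖ = E := by
      rw [hG]
      simp only [Complex.norm_real, Real.norm_eq_abs, abs_of_pos (Real.exp_pos _)]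
      exact he
    rw [this]
    nlinarith [mul_nonneg (sq_nonneg x) hE0.le]
  · refine h1.2.trans ?_
    have e1 : 2 * (Real.pi * r ^ 2) * ‖δ‖ * E = (2 * Real.pi * x) * E * r := by
      rw [hx]; ring
    rw [e1]
    refine mul_le_mul_of_nonneg_right (mul_le_mul_of_nonneg_right ?_ hE0.le) hr.le
    nlinarith [sq_nonneg (x - 1)]
  · rw [h1.1, Complex.norm_real, Real.norm_eq_abs, abs_mul, abs_of_pos hE0]
    have e1 : |4 * (Real.pi * r ^ 2) ^ 2 * ‖δ‖ ^ 2 - 4 * (Real.pi * r ^ 2)|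
        ≤ (160 * (1 + x ^ 2)) * r ^ 2 := by
      have e2 : 4 * (Real.pi * r ^ 2) ^ 2 * ‖δ‖ ^ 2 - 4 * (Real.pi * r ^ 2)
          = (4 * Real.pi ^ 2 * x ^ 2 - 4 * Real.pi) * r ^ 2 := by
        rw [hx]; ring
      rw [e2, abs_mul, abs_of_nonneg (sq_nonneg r)]
      refine mul_le_mul_of_nonneg_right ?_ (sq_nonneg r)
      rw [abs_le]
      have e3 : 0 ≤ Real.pi ^ 2 * x ^ 2 := by positivity
      have e4 : Real.pi ^ 2 * x ^ 2 ≤ 10 * x ^ 2 := mul_le_mul_of_nonneg_right hpi2 (sq_nonneg x)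
      constructor <;> nlinarith [sq_nonneg x]
    have e5 := mul_le_mul_of_nonneg_right e1 hE0.le
    nlinarith

end ErrLKAux

open ErrLKAux

theorem errLK (hL : StmtLap) (hM : StmtMM) (hF : StmtFac) : StmtErrLK := by
  obtain ⟨C, hC, hMM⟩ := hM
  intro k M L m ε hk hM1 hm hmL hε
  have hab : ∀ s : ℤ, s + m < s + L - m := fun s => by
    have : (2 * m : ℤ) < L := by exact_mod_cast hmL
    linarith
  -- the polynomial times the exponential tends to zero
  set c0 : ℝ := ((2 : ℝ) ^ m / (2 * M * (2 : ℝ) ^ L)) ^ 2 with hc0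
  have hM0 : 0 < M := by linarith
  have hc0pos : 0 < c0 := by positivity
  set K : ℝ := (1 + C) * (M ^ 2 * (2 : ℝ) ^ (2 * L)) with hK
  have hKpos : 0 < K := by positivity
  have hlim : Tendsto (fun n : ℕ => (6 * 160 * K) * ((n : ℝ) + 1) ^ 2 *
      Real.exp (-(c0 * n))) atTop (𝓝 0) := by
    have h1 : Tendsto (fun x : ℝ => x ^ 2 * Real.exp (-x)) atTop (𝓝 0) :=
      Real.tendsto_pow_mul_exp_neg_atTop_nhds_zero 2
    have h2 : Tendsto (fun n : ℕ => c0 * ((n : ℝ) + 1)) atTop atTop :=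
      Tendsto.const_mul_atTop (by positivity)
        (tendsto_atTop_add_const_right _ _ tendsto_natCast_atTop_atTop)
    have h3 := (h1.comp h2).const_mul (6 * 160 * K * Real.exp c0 / c0 ^ 2)
    rw [mul_zero] at h3
    refine h3.congr fun n => ?_
    simp only [Function.comp_apply]
    have e1 : Real.exp (-(c0 * ((n : ℝ) + 1))) = Real.exp (-(c0 * n)) *
        (Real.exp c0)⁻¹ := by
      rw [← Real.exp_neg, ← Real.exp_add]; congr 1; ring
    rw [e1]
    have e2 : Real.exp c0 ≠ 0 := (Real.exp_pos _).ne'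
    field_simp
  obtain ⟨n₀, hn₀⟩ := eventually_atTop.1 ((hlim.eventually (gt_mem_nhds hε)).and
    (eventually_ge_atTop 1))
  refine ⟨max n₀ 1, le_max_right _ _, fun n hn s θ hθ => ?_⟩
  obtain ⟨hsmall, hn1⟩ := hn₀ n (le_of_max_le_left hn)
  set a : ℤ := s + m with ha
  set b : ℤ := s + L - m with hb
  have hab' : a < b := hab s
  obtain ⟨hc2, hcs, hder⟩ := hMM n a b hab'
  set r : ℝ := win n M s L with hr
  have hnpos : (0 : ℝ) < n := by exact_mod_cast hn1
  have hn1' : (1 : ℝ) ≤ n := by exact_mod_cast hn1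
  have hsq : 0 < Real.sqrt n := Real.sqrt_pos.2 hnpos
  have hsq1 : 1 ≤ Real.sqrt n := Real.one_le_sqrt.2 hn1'
  have hrpos : 0 < r := by
    rw [hr]; unfold win; positivity
  set τ : ℂ := θ / (k + 1) with hτ
  have h2a : (0 : ℝ) < (2 : ℝ) ^ a := by positivity
  have hτn : ‖τ‖ < (2 : ℝ) ^ a / 2 := by
    have h1 : ‖((k : ℂ) + 1)‖ = (k : ℝ) + 1 := by
      have : ((k : ℂ) + 1) = (((k : ℝ) + 1 : ℝ) : ℂ) := by push_cast; ring
      rw [this, Complex.norm_real, Real.norm_eq_abs, abs_of_nonneg (by positivity)]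
    rw [hτ, norm_div, h1]
    have hk' : (2 : ℝ) ≤ (k : ℝ) + 1 := by
      have : (1 : ℝ) ≤ (k : ℝ) := by exact_mod_cast hk
      linarith
    rw [div_lt_div_iff₀ (by linarith) (by norm_num)]
    nlinarith [norm_nonneg θ]
  have hP2 : ContDiff ℝ 2 (Pm n a b) := hc2
  have hPc : HasCompactSupport (Pm n a b) := hcs
  have hPp : ContDiff ℝ 2 (fun δ => Pm n a b (τ + δ)) := hP2.comp (contDiff_const.add contDiff_id)
  have hLs : slK k n r s L m θ = fun δ => gau1 r δ * Pm n a b (τ + δ) := by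
    ext δ
    unfold slK gau1 Pm
    push_cast
    ring
  rw [hLs]
  refine ⟨(gau1_contDiff r).mul hPp, ?_, fun δ => ?_⟩
  · have h1 : HasCompactSupport (fun δ => Pm n a b (τ + δ)) :=
      hPc.comp_homeomorph (Homeomorph.addLeft τ)
    exact h1.mul_left (f := gau1 r)
  -- pointwise bounds
  by_cases hδ : ‖δ‖ < (2 : ℝ) ^ a / 2
  · -- everything vanishes near `δ`
    have hev : (fun δ => gau1 r δ * Pm n a b (τ + δ)) =ᶠ[𝓝 δ]
        fun _ => (0 : ℂ) := by
      have hop : IsOpen {z : ℂ | ‖z‖ < (2 : ℝ) ^ a / 2} := isOpen_lt continuous_norm continuous_const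
      filter_upwards [hop.mem_nhds hδ] with z hz
      have hz' : ‖z‖ < (2 : ℝ) ^ a / 2 := hz
      have h1 : ‖τ + z‖ ≤ (2 : ℝ) ^ a := by
        refine (norm_add_le _ _).trans ?_
        linarith
      have h2 : Pm n a b (τ + z) = 0 := by
        unfold Pm
        rw [bd_zero hF hab'.le h1]
        simp
      rw [h2, mul_zero]
    have h0 : lap (fun δ => gau1 r δ * Pm n a b (τ + δ)) δ = 0 := by
      unfold lap
      have h1 : (fun z => fderiv ℝ (fun δ => gau1 r δ * Pm n a b (τ + δ)) z) =ᶠ[𝓝 δ]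
          fun _ => 0 := by
        filter_upwards [hev.eventually_nhds] with z hz
        have hz' : (fun δ => gau1 r δ * Pm n a b (τ + δ)) =ᶠ[𝓝 z] fun _ => (0 : ℂ) := hz
        rw [hz'.fderiv_eq]
        simp
      have h2 : ∀ w : ℂ, (fun z => fderiv ℝ (fun δ => gau1 r δ * Pm n a b (τ + δ)) z w) =ᶠ[𝓝 δ]
          fun _ => 0 := fun w => by
        filter_upwards [h1] with z hz
        rw [hz]
        simp
      rw [(h2 1).fderiv_eq, (h2 Complex.I).fderiv_eq]
      simp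
    constructor
    · have := hev.self_of_nhds
      simp only at this
      show ‖gau1 r δ * Pm n a b (τ + δ)‖ ≤ _
      rw [this, norm_zero]
      positivity
    · rw [h0, norm_zero]
      positivity
  · push Not at hδ
    set x := r * ‖δ‖ with hx
    have hx0 : 0 ≤ x := by positivity
    have hxsq : c0 * n ≤ x ^ 2 := by
      have h1 : r * ((2 : ℝ) ^ a / 2) ≤ x := mul_le_mul_of_nonneg_left hδ hrpos.le
      have h2 : r * ((2 : ℝ) ^ a / 2) = Real.sqrt n * ((2 : ℝ) ^ m / (2 * M * (2 : ℝ) ^ L)) := by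
        rw [hr, ha]
        unfold win
        rw [zpow_add₀ (by norm_num), zpow_add₀ (by norm_num), zpow_natCast, zpow_natCast]
        field_simp
      rw [h2] at h1
      have h3 := pow_le_pow_left₀ (by positivity) h1 2
      rw [mul_pow, Real.sq_sqrt hnpos.le] at h3
      rw [hc0]
      linarith
    -- sizes
    set A : ℝ := K * ((n : ℝ) + 1) ^ 2 with hA
    have hpw : 1 / (2 : ℝ) ^ a ≤ M * (2 : ℝ) ^ L * r := by
      have e1 : M * (2 : ℝ) ^ L * r = Real.sqrt n / (2 : ℝ) ^ s := by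
        rw [hr]; unfold win
        rw [zpow_add₀ (by norm_num), zpow_natCast]
        field_simp
      rw [e1]
      have e2 : (2 : ℝ) ^ s ≤ (2 : ℝ) ^ a := zpow_le_zpow_right₀ one_le_two (by omega)
      have e3 : (0 : ℝ) < (2 : ℝ) ^ s := by positivity
      exact div_le_div₀ (Real.sqrt_nonneg _) hsq1 e3 e2
    have hML1 : 1 ≤ M ^ 2 * (2 : ℝ) ^ (2 * L) := by
      have e1 : (1 : ℝ) ≤ (2 : ℝ) ^ (2 * L) := one_le_pow₀ one_le_two
      nlinarith [sq_nonneg M]
    have hn2 : (1 : ℝ) ≤ ((n : ℝ) + 1) ^ 2 := by nlinarith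
    have hA1 : 1 ≤ A := by
      have e1 : 1 ≤ K := by
        rw [hK]
        nlinarith
      rw [hA]
      nlinarith
    have hPs : ∀ ζ, Sz r (Pm n a b) ζ A := by
      intro ζ
      obtain ⟨hd1, hd2⟩ := hder ζ
      refine ⟨(Pm_norm_le hF n a b ζ).trans hA1, ?_, ?_⟩
      · refine hd1.trans ?_
        have e1 : C * (n + 1) / (2 : ℝ) ^ a = C * (n + 1) * (1 / (2 : ℝ) ^ a) := by ring
        rw [e1]
        have e2 : C * (n + 1) * (1 / (2 : ℝ) ^ a) ≤ C * (n + 1) * (M * (2 : ℝ) ^ L * r) :=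
          mul_le_mul_of_nonneg_left hpw (by positivity)
        refine e2.trans ?_
        have e3 : M * (2 : ℝ) ^ L ≤ M ^ 2 * (2 : ℝ) ^ (2 * L) := by
          have e4 : (1 : ℝ) ≤ M * (2 : ℝ) ^ L := by
            have : (1 : ℝ) ≤ (2 : ℝ) ^ L := one_le_pow₀ one_le_two
            nlinarith
          have e5 : M ^ 2 * (2 : ℝ) ^ (2 * L) = (M * (2 : ℝ) ^ L) * (M * (2 : ℝ) ^ L) := by
            rw [pow_mul']; ring
          rw [e5]
          nlinarith
        have e6 : (n : ℝ) + 1 ≤ ((n : ℝ) + 1) ^ 2 := by nlinarith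
        have e7 : C * (n + 1) * (M * (2 : ℝ) ^ L) ≤ A := by
          rw [hA, hK]
          have e8 : C * ((n : ℝ) + 1) ≤ (1 + C) * ((n : ℝ) + 1) ^ 2 := by nlinarith
          calc C * (n + 1) * (M * (2 : ℝ) ^ L)
              ≤ (1 + C) * ((n : ℝ) + 1) ^ 2 * (M ^ 2 * (2 : ℝ) ^ (2 * L)) :=
                mul_le_mul e8 e3 (by positivity) (by positivity)
            _ = _ := by ring
        calc C * (n + 1) * (M * (2 : ℝ) ^ L * r) = C * (n + 1) * (M * (2 : ℝ) ^ L) * r := by ring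
          _ ≤ A * r := mul_le_mul_of_nonneg_right e7 hrpos.le
      · refine hd2.trans ?_
        have e1 : C * (n + 1) ^ 2 / ((2 : ℝ) ^ a) ^ 2 = C * (n + 1) ^ 2 * (1 / (2 : ℝ) ^ a) ^ 2 := by
          rw [div_pow]; ring
        rw [e1]
        have e2 : (1 / (2 : ℝ) ^ a) ^ 2 ≤ (M * (2 : ℝ) ^ L * r) ^ 2 :=
          pow_le_pow_left₀ (by positivity) hpw 2
        have e3 : C * ((n : ℝ) + 1) ^ 2 * (1 / (2 : ℝ) ^ a) ^ 2
            ≤ (1 + C) * ((n : ℝ) + 1) ^ 2 * (M * (2 : ℝ) ^ L * r) ^ 2 := by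
          refine mul_le_mul ?_ e2 (by positivity) (by positivity)
          nlinarith
        refine e3.trans (le_of_eq ?_)
        rw [hA, hK, pow_mul']
        ring
    have hPps : Sz r (fun δ => Pm n a b (τ + δ)) δ A := by
      obtain ⟨e1, -, e3, -⟩ := hL.2.1 (Pm n a b) τ δ hP2
      have h := hPs (τ + δ)
      exact ⟨h.1, by rw [e3]; exact h.2.1, by rw [e1]; exact h.2.2⟩
    have hall := Sz.mul hL hrpos.le (gau1_contDiff r) hPp (gau1_sz hL hrpos δ) hPps
    have hfin : 6 * (160 * (1 + (r * ‖δ‖) ^ 2) * Real.exp (-(Real.pi * (r * ‖δ‖) ^ 2)) * A)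
        ≤ ε * Real.exp (-(r ^ 2 * ‖δ‖ ^ 2)) := by
      have e1 : r ^ 2 * ‖δ‖ ^ 2 = x ^ 2 := by rw [hx]; ring
      rw [e1, ← hx]
      have e2 : Real.exp (-(Real.pi * x ^ 2)) ≤ Real.exp (-(x ^ 2)) * Real.exp (-(x ^ 2)) *
          Real.exp (-(c0 * n)) := by
        rw [← Real.exp_add, ← Real.exp_add, Real.exp_le_exp]
        have := Real.pi_gt_three
        nlinarith [sq_nonneg x]
      have e3 : (1 + x ^ 2) * Real.exp (-(x ^ 2)) ≤ 1 := by
        have h1 : 1 + x ^ 2 ≤ Real.exp (x ^ 2) := by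
          have := Real.add_one_le_exp (x ^ 2)
          linarith
        rw [Real.exp_neg, ← div_eq_mul_inv]
        exact (div_le_one (Real.exp_pos _)).2 h1
      have e4 : 0 < Real.exp (-(x ^ 2)) := Real.exp_pos _
      have e5 : 0 < Real.exp (-(c0 * n)) := Real.exp_pos _
      have hA0 : 0 ≤ A := by linarith
      calc 6 * (160 * (1 + x ^ 2) * Real.exp (-(Real.pi * x ^ 2)) * A)
          = (6 * 160 * A * (1 + x ^ 2)) * Real.exp (-(Real.pi * x ^ 2)) := by ring
        _ ≤ (6 * 160 * A * (1 + x ^ 2)) * (Real.exp (-(x ^ 2)) * Real.exp (-(x ^ 2)) *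
          Real.exp (-(c0 * n))) := mul_le_mul_of_nonneg_left e2 (by positivity)
        _ = (6 * 160 * A * Real.exp (-(c0 * n))) * Real.exp (-(x ^ 2)) *
            ((1 + x ^ 2) * Real.exp (-(x ^ 2))) := by ring
        _ ≤ (6 * 160 * A * Real.exp (-(c0 * n))) * Real.exp (-(x ^ 2)) * 1 :=
            mul_le_mul_of_nonneg_left e3 (by positivity)
        _ ≤ ε * Real.exp (-(x ^ 2)) := by
            rw [mul_one]
            refine mul_le_mul_of_nonneg_right ?_ e4.le
            have e6 : 6 * 160 * A * Real.exp (-(c0 * n)) =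
                (6 * 160 * K) * ((n : ℝ) + 1) ^ 2 * Real.exp (-(c0 * n)) := by
              rw [hA]; ring
            rw [e6]
            exact hsmall.le
    refine ⟨hall.1.trans hfin, ?_⟩
    have h3 := mul_le_mul_of_nonneg_right hfin (sq_nonneg r)
    refine hall.2.2.trans (h3.trans (le_of_eq ?_))
    ring

end Pool.Agent.Lib.MP_dd244f_an.Even
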