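import Pool.Agent.Lib.MP_dd244f_an.Even.Stmts
import Pool.Agent.Lib.MP_dd244f_an.L2

/-! All even exponents at once. -/

set_option autoImplicit false

namespace Pool.Agent.Lib.MP_dd244f_an.Even

open MeasureTheory Filter Topology Finset
open Pool.Agent.Lib.MP_dd244f_an.Joint (ratio)
open scoped SchwartzMap ENNReal NNReal

theorem ratio_two (n : ℕ) : ratio n 2 = 1 := by
  unfold ratio
  rw [show (1 : ℝ) - 1 / 2 = 1 / 2 by norm_num]
  exact div_self (ascPochhammer_pos n (1 / 2) (by norm_num)).ne'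

theorem ratio_nonneg' (n : ℕ) (p : ℝ) (hp : 1 < p) : 0 ≤ ratio n p := by
  unfold ratio
  have h1 : 0 < 1 - 1 / p := by
    rw [sub_pos, div_lt_one (by linarith)]; exact hp
  exact div_nonneg (ascPochhammer_pos n _ h1).le
    (ascPochhammer_pos n _ (by positivity)).le

theorem finalE (hK : StmtFinalK) (h1 : Joint.StmtFinal1) : StmtFinalE := by
  intro ε hε
  obtain ⟨n₁, p₀, hL⟩ := h1 ε hε
  have hK' : ∀ k : ℕ, ∃ n₀ : ℕ, ∀ n ≥ n₀, 1 ≤ k →
      ∀ f : 𝓢(ℂ, ℂ), eLpNorm (Tn n f) (ENNReal.ofReal (2 * (k + 1))) volume ≤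
        ENNReal.ofReal ((1 + ε) * ratio n (2 * (k + 1))) *
          eLpNorm f (ENNReal.ofReal (2 * (k + 1))) volume := by
    intro k
    by_cases hk : 1 ≤ k
    · obtain ⟨n₀, h⟩ := hK k ε hk hε
      exact ⟨n₀, fun n hn _ f => h n hn f⟩
    · exact ⟨0, fun n _ h => absurd h hk⟩
  choose N hN using hK'
  obtain ⟨K, hKp⟩ := exists_nat_ge p₀
  refine ⟨n₁ + ∑ k ∈ Finset.range (K + 1), N k, fun n hn k hk f => ?_⟩
  rcases eq_or_lt_of_le hk with h | h
  · subst h
    have e : (2 * ((1 : ℕ) : ℝ)) = 2 := by norm_num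
    rw [e, ratio_two, mul_one]
    have h2 : ENNReal.ofReal 2 = 2 := by norm_num
    rw [h2]
    calc _ ≤ eLpNorm (⇑f) 2 volume := Tn_L2 n f
      _ = 1 * eLpNorm (⇑f) 2 volume := (one_mul _).symm
      _ ≤ _ := by
        gcongr
        rw [ENNReal.one_le_ofReal]
        linarith
  · by_cases hkK : k ≤ K
    · obtain ⟨j, rfl⟩ : ∃ j, k = j + 1 := ⟨k - 1, by omega⟩
      have hj : 1 ≤ j := by omega
      have hle : N j ≤ ∑ k ∈ Finset.range (K + 1), N k :=
        Finset.single_le_sum (f := N) (fun i _ => Nat.zero_le _) (Finset.mem_range.mpr (by omega))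
      have := hN j n (by omega) hj f
      push_cast
      exact this
    · have h2 : p₀ ≤ 2 * (k : ℝ) := by
        have : (K : ℝ) ≤ k := by exact_mod_cast (not_le.mp hkK).le
        have h3 : (0 : ℝ) ≤ k := by positivity
        linarith
      exact hL n (by omega) _ h2 f

end Pool.Agent.Lib.MP_dd244f_an.Even
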