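import Pool.Agent.Lib.MP_dd244f_an.Even.Stmts
import Pool.Agent.Lib.MP_dd244f_an.Four.Final4

/-!
Module EV-FinalK: from compactly supported Fourier transforms to all Schwartz functions,
`p = 2 (k + 1)`.
-/

set_option autoImplicit false

namespace Pool.Agent.Lib.MP_dd244f_an.Even

open MeasureTheory Filter Topology Finset
open Pool.Agent.Lib.MP_dd244f_an.Joint (st ct Mst ratio)
open Pool.Agent.Lib.MP_dd244f_an.Four
open Pool.Agent.Lib.MP_dd244f_an.Four.F4Fin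
open scoped SchwartzMap ENNReal FourierTransform

namespace EFin

theorem ratio_pos' (n : ℕ) {p : ℝ} (hp : 1 < p) : 0 < ratio n p := by
  unfold ratio
  refine div_pos (ascPochhammer_pos n _ ?_) (ascPochhammer_pos n _ (by positivity))
  have h1 : 1 / p < 1 := by
    rw [div_lt_one (by linarith)]
    exact hp
  linarith

theorem q_eq (k : ℕ) : ENNReal.ofReal (2 * ((k : ℝ) + 1)) = ((2 * (k + 1) : ℕ) : ℝ≥0∞) := by
  rw [← ENNReal.ofReal_natCast]
  congr 1
  push_cast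
  ring

theorem memLp_nat {P : ℕ} (hP : P ≠ 0) {h : ℂ → ℂ} (hm : AEStronglyMeasurable h volume)
    (hi : Integrable (fun x => ‖h x‖ ^ P)) : MemLp h (P : ℝ≥0∞) volume := by
  have h1 := (integrable_norm_rpow_iff (p := (P : ℝ≥0∞)) hm (by exact_mod_cast hP)
    (ENNReal.natCast_ne_top P)).1
  apply h1
  simp only [ENNReal.toReal_natCast, Real.rpow_natCast]
  exact hi

theorem eLp_nat {P : ℕ} (hP : P ≠ 0) {h : ℂ → ℂ} (hm : AEStronglyMeasurable h volume)
    (hi : Integrable (fun x => ‖h x‖ ^ P)) :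
    eLpNorm h (P : ℝ≥0∞) volume = ENNReal.ofReal ((∫ x, ‖h x‖ ^ P) ^ ((P : ℝ)⁻¹)) := by
  rw [(memLp_nat hP hm hi).eLpNorm_eq_integral_rpow_norm (by exact_mod_cast hP)
    (ENNReal.natCast_ne_top P)]
  simp only [ENNReal.toReal_natCast, Real.rpow_natCast]

/-- a bounded function in `L^2` is in `L^{2 + m}` -/
theorem pow_int {u : ℂ → ℂ} {B : ℝ} (hu : AEStronglyMeasurable u volume) (hB : ∀ x, ‖u x‖ ≤ B)
    (h2 : Integrable (fun x => ‖u x‖ ^ 2)) (m : ℕ) :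
    Integrable (fun x => ‖u x‖ ^ (m + 2)) ∧
      ∫ x, ‖u x‖ ^ (m + 2) ≤ B ^ m * ∫ x, ‖u x‖ ^ 2 := by
  have hpt : ∀ x, ‖u x‖ ^ (m + 2) ≤ B ^ m * ‖u x‖ ^ 2 := by
    intro x
    rw [pow_add]
    exact mul_le_mul_of_nonneg_right (pow_le_pow_left₀ (norm_nonneg _) (hB x) m) (by positivity)
  have hi : Integrable (fun x => ‖u x‖ ^ (m + 2)) := by
    refine (h2.const_mul (B ^ m)).mono' (hu.norm.pow (m + 2)) (Eventually.of_forall fun x => ?_)
    rw [Real.norm_of_nonneg (by positivity)]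
    exact hpt x
  refine ⟨hi, ?_⟩
  rw [← integral_const_mul]
  exact integral_mono hi (h2.const_mul _) hpt

/-- the `L^p` norm of the error -/
theorem errK (k : ℕ) (hk : 1 ≤ k) (hL : StmtL2) (hF : StmtFac) {g : ℂ → ℂ} (hg : Continuous g)
    (hgi : Integrable g) (hg2 : MemLp g 2 volume) :
    ∃ e : ℕ → ℝ≥0∞, Tendsto e atTop (𝓝 0) ∧
      ∀ R : ℕ, eLpNorm (iF (fun ζ => cut (bd (-(R : ℤ)) R) g ζ - g ζ))
        ((2 * (k + 1) : ℕ) : ℝ≥0∞) volume ≤ e R := by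
  set B : ℕ → ℝ := fun R => ∫ ζ, ‖cut (bd (-(R : ℤ)) R) g ζ - g ζ‖ with hB
  have hBl : Tendsto B atTop (𝓝 0) := tend_L1 hF hg hgi
  set G : ℝ := ∫ ζ, (2 * ‖g ζ‖) ^ 2 with hG
  have hP0 : 2 * (k + 1) ≠ 0 := by omega
  have hPinv : (0 : ℝ) < ((2 * (k + 1) : ℕ) : ℝ)⁻¹ := by positivity
  refine ⟨fun R => ENNReal.ofReal ((B R ^ (2 * k) * G) ^ (((2 * (k + 1) : ℕ) : ℝ)⁻¹)), ?_,
    fun R => ?_⟩
  · have h1 : Tendsto (fun R => (B R ^ (2 * k) * G) ^ (((2 * (k + 1) : ℕ) : ℝ)⁻¹)) atTop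
        (𝓝 0) := by
      have h2 : Tendsto (fun R => B R ^ (2 * k) * G) atTop (𝓝 0) := by
        have := (hBl.pow (2 * k)).mul_const G
        rwa [zero_pow (by omega), zero_mul] at this
      have h3 := h2.rpow_const (p := ((2 * (k + 1) : ℕ) : ℝ)⁻¹) (Or.inr hPinv.le)
      rwa [Real.zero_rpow hPinv.ne'] at h3
    have := ENNReal.tendsto_ofReal h1
    simpa using this
  · set φ : ℂ → ℂ := fun ζ => cut (bd (-(R : ℤ)) R) g ζ - g ζ with hφ
    have hcc := cutcc hF hg (-(R : ℤ)) R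
    have hφc : Continuous φ := hcc.1.sub hg
    have hci : Integrable (cut (bd (-(R : ℤ)) R) g) := hcc.1.integrable_of_hasCompactSupport hcc.2
    have hφi : Integrable φ := hci.sub hgi
    have hφb : ∀ ζ, ‖φ ζ‖ ≤ 2 * ‖g ζ‖ := by
      intro ζ
      rw [hφ]
      refine (norm_sub_le _ _).trans ?_
      unfold cut
      rw [norm_mul, Complex.norm_real, Real.norm_eq_abs]
      have h2 := mul_le_mul_of_nonneg_right (bd_abs hF (-(R : ℤ)) R ζ) (norm_nonneg (g ζ))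
      linarith
    have hg2i : Integrable (fun ζ => (2 * ‖g ζ‖) ^ 2) := by
      have := (memLp_two_iff_integrable_sq_norm hg.aestronglyMeasurable).1 hg2
      have h2 := this.const_mul 4
      refine h2.congr (Eventually.of_forall fun ζ => ?_)
      simp only
      ring
    have hφ2i : Integrable (fun ζ => ‖φ ζ‖ ^ 2) := by
      refine hg2i.mono' (hφc.norm.pow 2).aestronglyMeasurable (Eventually.of_forall fun ζ => ?_)
      rw [Real.norm_of_nonneg (by positivity)]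
      exact pow_le_pow_left₀ (norm_nonneg _) (hφb ζ) 2
    have hφ2 : MemLp φ 2 volume :=
      (memLp_two_iff_integrable_sq_norm hφc.aestronglyMeasurable).2 hφ2i
    obtain ⟨hd2, hdeq⟩ := hL φ hφi hφ2
    have hd2i : Integrable (fun x => ‖iF φ x‖ ^ 2) :=
      (memLp_two_iff_integrable_sq_norm hd2.aestronglyMeasurable).1 hd2
    have hb : ∀ x, ‖iF φ x‖ ≤ B R := fun x => norm_iF_le φ x
    have hB0 : 0 ≤ B R := integral_nonneg fun _ => norm_nonneg _
    obtain ⟨hi, hle⟩ := pow_int hd2.aestronglyMeasurable hb hd2i (2 * k)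
    have e1 : 2 * k + 2 = 2 * (k + 1) := by ring
    rw [e1] at hi hle
    rw [eLp_nat hP0 hd2.aestronglyMeasurable hi]
    refine ENNReal.ofReal_le_ofReal (Real.rpow_le_rpow (integral_nonneg fun _ => by positivity) ?_
      hPinv.le)
    refine hle.trans (mul_le_mul_of_nonneg_left ?_ (by positivity))
    rw [hdeq]
    exact integral_mono hφ2i hg2i fun ζ => pow_le_pow_left₀ (norm_nonneg _) (hφb ζ) 2

end EFin

open EFin in
theorem finalK (hM : StmtMainK) (hR : StmtRatioK) (hB : Four.StmtBase) (hF : Four.StmtFac)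
    (hL : Four.StmtL2) : StmtFinalK := by
  intro k ε hk hε
  obtain ⟨n₁, hn₁⟩ := hM k ε hk hε
  have hk1 : (0 : ℝ) < (k : ℝ) + 1 := by positivity
  have hgam : 0 < gamK k := by
    unfold gamK
    refine div_pos (Real.Gamma_pos_of_pos (by positivity)) (Real.Gamma_pos_of_pos ?_)
    have : 1 / (2 * ((k : ℝ) + 1)) < 1 := by
      rw [div_lt_one (by positivity)]
      have : (0 : ℝ) ≤ k := by positivity
      linarith
    linarith
  have hgp : 0 < gamK k ^ (2 * k + 2) := by positivity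
  have hpow : ∀ᶠ n : ℕ in atTop, gamK k ^ (2 * k + 2) <
      ratio n (2 * (k + 1)) ^ (2 * k + 2) / (n : ℝ) ^ (2 * k) * (1 + ε) := by
    have h1 := (hR k hk).mul_const (1 + ε)
    have h2 : gamK k ^ (2 * k + 2) < gamK k ^ (2 * k + 2) * (1 + ε) := by nlinarith
    exact Filter.Tendsto.eventually_const_lt h2 h1
  obtain ⟨n₂, hn₂⟩ := eventually_atTop.1 hpow
  refine ⟨max (max n₁ n₂) 1, fun n hn f => ?_⟩
  have hnn1 : n₁ ≤ n := (le_max_left _ _).trans ((le_max_left _ _).trans hn)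
  have hnn2 : n₂ ≤ n := (le_max_right _ _).trans ((le_max_left _ _).trans hn)
  have hnn3 : 1 ≤ n := (le_max_right _ _).trans hn
  have hp2 := hn₂ n hnn2
  have hn0 : (0 : ℝ) < n := by exact_mod_cast hnn3
  have hrat : 0 < ratio n (2 * ((k : ℝ) + 1)) := by
    apply ratio_pos'
    have : (0 : ℝ) ≤ k := by positivity
    linarith
  rw [q_eq]
  set K : ℝ := (1 + ε) * ratio n (2 * ((k : ℝ) + 1)) with hK
  have hK0 : 0 < K := by positivity
  have hKK : (1 + ε) * gamK k ^ (2 * k + 2) * n ^ (2 * k) ≤ K ^ (2 * (k + 1)) := by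
    have h2 : gamK k ^ (2 * k + 2) * (n : ℝ) ^ (2 * k) ≤
        (1 + ε) * ratio n (2 * ((k : ℝ) + 1)) ^ (2 * k + 2) := by
      have h3 := mul_le_mul_of_nonneg_right hp2.le (by positivity : (0 : ℝ) ≤ (n : ℝ) ^ (2 * k))
      refine h3.trans (le_of_eq ?_)
      have : (n : ℝ) ^ (2 * k) ≠ 0 := by positivity
      field_simp
    have h3 : (1 + ε) ^ 2 ≤ (1 + ε) ^ (2 * k + 2) := pow_le_pow_right₀ (by linarith) (by omega)
    calc (1 + ε) * gamK k ^ (2 * k + 2) * n ^ (2 * k)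
        = (1 + ε) * (gamK k ^ (2 * k + 2) * n ^ (2 * k)) := by ring
      _ ≤ (1 + ε) * ((1 + ε) * ratio n (2 * ((k : ℝ) + 1)) ^ (2 * k + 2)) :=
          mul_le_mul_of_nonneg_left h2 (by positivity)
      _ = (1 + ε) ^ 2 * ratio n (2 * ((k : ℝ) + 1)) ^ (2 * k + 2) := by ring
      _ ≤ (1 + ε) ^ (2 * k + 2) * ratio n (2 * ((k : ℝ) + 1)) ^ (2 * k + 2) :=
          mul_le_mul_of_nonneg_right h3 (by positivity)
      _ = K ^ (2 * (k + 1)) := by
          rw [hK, ← mul_pow]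
          rfl
  have hP0 : 2 * (k + 1) ≠ 0 := by omega
  have hPinv : (0 : ℝ) < ((2 * (k + 1) : ℕ) : ℝ)⁻¹ := by positivity
  have hq1 : (1 : ℝ≥0∞) ≤ ((2 * (k + 1) : ℕ) : ℝ≥0∞) := by
    exact_mod_cast (by omega : 1 ≤ 2 * (k + 1))
  -- the transform
  set g : ℂ → ℂ := 𝓕 (⇑f) with hg
  have hgS : g = ⇑(𝓕 f : 𝓢(ℂ, ℂ)) := by rw [hg, ← SchwartzMap.fourier_coe]
  have hgc : Continuous g := by rw [hgS]; exact (𝓕 f : 𝓢(ℂ, ℂ)).continuous
  have hgi : Integrable g := by rw [hgS]; exact (𝓕 f : 𝓢(ℂ, ℂ)).integrable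
  have hg2 : MemLp g 2 volume := by rw [hgS]; exact (𝓕 f : 𝓢(ℂ, ℂ)).memLp 2
  obtain ⟨e, he0, heR⟩ := errK k hk hL hF hgc hgi hg2
  have hintP : ∀ h : ℂ → ℂ, CC h → Integrable (fun x => ‖iF h x‖ ^ (2 * (k + 1))) := by
    intro h hh
    obtain ⟨b1, ⟨Bd, b2⟩, b3, -, -⟩ := hB.1 h hh
    exact (pow_int b1.aestronglyMeasurable b2 b3 (2 * k)).1
  have hle : ∀ R : ℕ, eLpNorm (iF (mg n (cut (bd (-(R : ℤ)) R) g)))
      ((2 * (k + 1) : ℕ) : ℝ≥0∞) volume ≤
      ENNReal.ofReal K * (eLpNorm f ((2 * (k + 1) : ℕ) : ℝ≥0∞) volume + e R) := by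
    intro R
    set h := cut (bd (-(R : ℤ)) R) g with hh
    have hcc : CC h := cutcc hF hgc _ _
    have hz0 : Z0 h := bd_z0 hF g R
    have hmcc : CC (mg n h) := (hF.2.2.2.2.2.1 h n hnn3 hcc hz0).1
    have hb1 := hB.1 _ hcc
    have hb2 := hB.1 _ hmcc
    have h1 : eLpNorm (iF (mg n h)) ((2 * (k + 1) : ℕ) : ℝ≥0∞) volume ≤
        ENNReal.ofReal K * eLpNorm (iF h) ((2 * (k + 1) : ℕ) : ℝ≥0∞) volume := by
      rw [eLp_nat hP0 hb1.1.aestronglyMeasurable (hintP h hcc),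
        eLp_nat hP0 hb2.1.aestronglyMeasurable (hintP _ hmcc), ← ENNReal.ofReal_mul hK0.le]
      refine ENNReal.ofReal_le_ofReal ?_
      have h2 : ∫ x, ‖iF (mg n h) x‖ ^ (2 * (k + 1)) ≤
          K ^ (2 * (k + 1)) * ∫ x, ‖iF h x‖ ^ (2 * (k + 1)) := by
        have h3 := hn₁ n hnn1 h hcc hz0
        unfold NK at h3
        exact h3.trans (mul_le_mul_of_nonneg_right hKK (integral_nonneg fun _ => by positivity))
      calc (∫ x, ‖iF (mg n h) x‖ ^ (2 * (k + 1))) ^ (((2 * (k + 1) : ℕ) : ℝ)⁻¹)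
          ≤ (K ^ (2 * (k + 1)) * ∫ x, ‖iF h x‖ ^ (2 * (k + 1))) ^ (((2 * (k + 1) : ℕ) : ℝ)⁻¹) :=
            Real.rpow_le_rpow (integral_nonneg fun _ => by positivity) h2 hPinv.le
        _ = (K ^ (2 * (k + 1))) ^ (((2 * (k + 1) : ℕ) : ℝ)⁻¹) *
              (∫ x, ‖iF h x‖ ^ (2 * (k + 1))) ^ (((2 * (k + 1) : ℕ) : ℝ)⁻¹) :=
            Real.mul_rpow (by positivity) (integral_nonneg fun _ => by positivity)
        _ = K * (∫ x, ‖iF h x‖ ^ (2 * (k + 1))) ^ (((2 * (k + 1) : ℕ) : ℝ)⁻¹) := by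
            rw [Real.pow_rpow_inv_natCast hK0.le hP0]
    have h6 : eLpNorm (iF h) ((2 * (k + 1) : ℕ) : ℝ≥0∞) volume ≤
        eLpNorm f ((2 * (k + 1) : ℕ) : ℝ≥0∞) volume + e R := by
      have h7 : iF h = (fun x => f x) + iF (fun ζ => h ζ - g ζ) := by
        ext x
        rw [Pi.add_apply, iF_sub (hcc.1.integrable_of_hasCompactSupport hcc.2) hgi, f_iF f x]
        ring
      have hm : AEStronglyMeasurable (iF (fun ζ => h ζ - g ζ)) volume := by
        have h8 : iF (fun ζ => h ζ - g ζ) = fun x => iF h x - f x := by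
          ext x
          rw [iF_sub (hcc.1.integrable_of_hasCompactSupport hcc.2) hgi, f_iF f x]
        rw [h8]
        exact (hb1.1.sub f.continuous).aestronglyMeasurable
      rw [h7]
      refine (eLpNorm_add_le f.continuous.aestronglyMeasurable hm hq1).trans ?_
      exact add_le_add le_rfl (heR R)
    exact h1.trans (mul_le_mul_right h6 _)
  have hfat : eLpNorm (Tn n f) ((2 * (k + 1) : ℕ) : ℝ≥0∞) volume ≤
      atTop.liminf fun R : ℕ => eLpNorm (iF (mg n (cut (bd (-(R : ℤ)) R) g)))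
        ((2 * (k + 1) : ℕ) : ℝ≥0∞) volume := by
    refine Lp.eLpNorm_lim_le_liminf_eLpNorm (fun R => ?_) _ (Eventually.of_forall fun x => ?_)
    · have hcc : CC (cut (bd (-(R : ℤ)) R) g) := cutcc hF hgc _ _
      have hmcc := (hF.2.2.2.2.2.1 _ n hnn3 hcc (bd_z0 hF g R)).1
      exact (hB.1 _ hmcc).1.aestronglyMeasurable
    · rw [Tn_iF]
      exact tend_iF hF n hgc hgi x
  refine hfat.trans ?_
  have hlim : Tendsto (fun R : ℕ => ENNReal.ofReal K *
      (eLpNorm f ((2 * (k + 1) : ℕ) : ℝ≥0∞) volume + e R)) atTop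
      (𝓝 (ENNReal.ofReal K * (eLpNorm f ((2 * (k + 1) : ℕ) : ℝ≥0∞) volume + 0))) := by
    refine ENNReal.Tendsto.const_mul (tendsto_const_nhds.add he0) (Or.inr ENNReal.ofReal_ne_top)
  rw [add_zero] at hlim
  rw [← hlim.liminf_eq]
  exact liminf_le_liminf (Eventually.of_forall hle)

end Pool.Agent.Lib.MP_dd244f_an.Even
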