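import Pool.Agent.Lib.MP_dd244f_an.Even.Stmts
import Pool.Agent.Lib.MP_dd244f_an.Four.GT

/-!
Full operator, even `p = 2 (k + 1)`: Gaussian averages of separated frequencies.
-/

set_option autoImplicit false

namespace Pool.Agent.Lib.MP_dd244f_an.Even

open MeasureTheory Filter Topology Finset
open Pool.Agent.Lib.MP_dd244f_an.Joint (st ct Mst)
open Pool.Agent.Lib.MP_dd244f_an.Four
open Pool.Agent.Lib.MP_dd244f_an.Four.GTAux

namespace GTKAux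

/-- the symbol after the application of `1 - Δ / (4 π² σ²)` -/
noncomputable def bb (σ : ℝ) (a : ℂ → ℂ) (δ : ℂ) : ℂ :=
  a δ - lap a δ / ((4 * Real.pi ^ 2 * σ ^ 2 : ℝ) : ℂ)

/-- pointwise bound for a Gaussian times a cutoff -/
theorem pt_bound (hL : StmtLap) {C₁ σ : ℝ} (hC₁0 : 0 ≤ C₁) (hσ : 0 < σ) {χ : ℂ → ℂ}
    (hχc : ContDiff ℝ 2 χ) (b1 : ∀ z, ‖χ z‖ ≤ 1) (b2 : ∀ z, ‖fderiv ℝ χ z‖ ≤ 4 * C₁ * σ)
    (b3 : ∀ z, ‖lap χ z‖ ≤ (4 * C₁ + 8 * C₁ ^ 2) * σ ^ 2) (δ : ℂ) :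
    ‖bb σ (fun z => Ga (Real.pi * σ ^ 2) z * χ z) δ‖ ^ 2 ≤
      (6 + (C₁ + 2 * C₁ ^ 2) + 16 * C₁) ^ 2 * Real.exp (-(4 * (σ * ‖δ‖) ^ 2)) := by
  set C₂ : ℝ := 6 + (C₁ + 2 * C₁ ^ 2) + 16 * C₁ with hC₂
  have hC₂0 : 0 < C₂ := by positivity
  have hpi := Real.pi_pos
  have hpi3 := Real.pi_gt_three
  set r : ℝ := Real.pi * σ ^ 2 with hr
  have hr0 : 0 < r := by positivity
  set a : ℂ → ℂ := fun z => Ga r z * χ z with ha
  set G := Real.exp (-(r * ‖δ‖ ^ 2)) with hG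
  have hG0 : 0 < G := Real.exp_pos _
  have hGn : ‖Ga r δ‖ = G := Ga_norm r δ
  obtain ⟨hg1, hg2⟩ := hL.2.2.1 r δ hr0
  have hg1' : ‖lap (Ga r) δ‖ ≤ (4 * r ^ 2 * ‖δ‖ ^ 2 + 4 * r) * G := by
    have : lap (Ga r) δ = (((4 * r ^ 2 * ‖δ‖ ^ 2 - 4 * r) *
      Real.exp (-(r * ‖δ‖ ^ 2)) : ℝ) : ℂ) := hg1
    rw [this, Complex.norm_real, norm_mul, Real.norm_eq_abs, Real.norm_eq_abs, Real.abs_exp]
    refine mul_le_mul_of_nonneg_right ?_ hG0.le
    rw [abs_le]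
    constructor <;> nlinarith [sq_nonneg (r * ‖δ‖)]
  have hg2' : ‖fderiv ℝ (Ga r) δ‖ ≤ 2 * r * ‖δ‖ * G := hg2
  have hprod := (hL.1 _ _ (Ga_contDiff r) hχc δ).2.2
  have hlapa : ‖lap a δ‖ ≤ G * ((4 * C₁ + 8 * C₁ ^ 2) * σ ^ 2) +
      (4 * r ^ 2 * ‖δ‖ ^ 2 + 4 * r) * G + 4 * (2 * r * ‖δ‖ * G) * (4 * C₁ * σ) := by
    refine hprod.trans ?_
    rw [hGn]
    have m1 := mul_le_mul_of_nonneg_left (b3 δ) hG0.le
    have m2 : ‖χ δ‖ * ‖lap (Ga r) δ‖ ≤ (4 * r ^ 2 * ‖δ‖ ^ 2 + 4 * r) * G := by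
      have := mul_le_mul (b1 δ) hg1' (norm_nonneg _) zero_le_one
      linarith
    have m3 : 4 * ‖fderiv ℝ (Ga r) δ‖ * ‖fderiv ℝ χ δ‖ ≤
        4 * (2 * r * ‖δ‖ * G) * (4 * C₁ * σ) := by
      have := mul_le_mul hg2' (b2 δ) (norm_nonneg _) (by positivity)
      linarith
    linarith
  set x := σ * ‖δ‖ with hx
  have hx0 : 0 ≤ x := by positivity
  have hbn : ‖bb σ a δ‖ ≤ C₂ * (1 + x ^ 2) * G := by
    have h0 : ‖bb σ a δ‖ ≤ ‖a δ‖ + ‖lap a δ‖ / (4 * Real.pi ^ 2 * σ ^ 2) := by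
      unfold bb
      refine (norm_sub_le _ _).trans (le_of_eq ?_)
      rw [norm_div, Complex.norm_real, Real.norm_of_nonneg (by positivity)]
    have h1 : ‖a δ‖ ≤ G := by
      simp only [ha]
      rw [norm_mul, hGn]
      have := mul_le_mul_of_nonneg_left (b1 δ) hG0.le
      linarith
    have hD : 0 < 4 * Real.pi ^ 2 * σ ^ 2 := by positivity
    have hlapa' : ‖lap a δ‖ ≤ (4 * Real.pi ^ 2 * σ ^ 2) *
        (((C₁ + 2 * C₁ ^ 2) + 4 * x ^ 2 + 1 + 16 * C₁ * x) * G) := by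
      refine hlapa.trans ?_
      have t1 : (4 * C₁ + 8 * C₁ ^ 2) * σ ^ 2 ≤
          (4 * Real.pi ^ 2 * σ ^ 2) * (C₁ + 2 * C₁ ^ 2) := by
        calc (4 * C₁ + 8 * C₁ ^ 2) * σ ^ 2 = (4 * σ ^ 2) * (C₁ + 2 * C₁ ^ 2) := by ring
          _ ≤ (4 * Real.pi ^ 2 * σ ^ 2) * (C₁ + 2 * C₁ ^ 2) := by
              gcongr
              nlinarith
      have t2 : 4 * r ^ 2 * ‖δ‖ ^ 2 + 4 * r ≤
          (4 * Real.pi ^ 2 * σ ^ 2) * (4 * x ^ 2 + 1) := by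
        rw [hr, hx]
        have e1 : 4 * (Real.pi * σ ^ 2) ^ 2 * ‖δ‖ ^ 2 + 4 * (Real.pi * σ ^ 2) =
            (4 * Real.pi ^ 2 * σ ^ 2) * (σ * ‖δ‖) ^ 2 + 4 * Real.pi * σ ^ 2 := by ring
        rw [e1]
        have e2 : 4 * Real.pi * σ ^ 2 ≤ 4 * Real.pi ^ 2 * σ ^ 2 := by
          have : 4 * Real.pi ≤ 4 * Real.pi ^ 2 := by nlinarith
          gcongr
        have e3 : 0 ≤ (4 * Real.pi ^ 2 * σ ^ 2) * (σ * ‖δ‖) ^ 2 := by positivity
        linarith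
      have t3 : 4 * (2 * r * ‖δ‖) * (4 * C₁ * σ) ≤
          (4 * Real.pi ^ 2 * σ ^ 2) * (16 * C₁ * x) := by
        calc 4 * (2 * r * ‖δ‖) * (4 * C₁ * σ)
            = (2 * Real.pi * σ ^ 2) * (16 * C₁ * (σ * ‖δ‖)) := by rw [hr]; ring
          _ ≤ (4 * Real.pi ^ 2 * σ ^ 2) * (16 * C₁ * (σ * ‖δ‖)) := by
              have q1 : 2 * Real.pi ≤ 4 * Real.pi ^ 2 := by nlinarith
              have q2 := mul_le_mul_of_nonneg_right q1 (sq_nonneg σ)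
              exact mul_le_mul_of_nonneg_right q2 (by positivity)
      have u1 := mul_le_mul_of_nonneg_left t1 hG0.le
      have u2 := mul_le_mul_of_nonneg_left t2 hG0.le
      have u3 := mul_le_mul_of_nonneg_left t3 hG0.le
      linarith
    have h2 : ‖lap a δ‖ / (4 * Real.pi ^ 2 * σ ^ 2) ≤
        (((C₁ + 2 * C₁ ^ 2) + 4 * x ^ 2 + 1 + 16 * C₁ * x) * G) := by
      rw [div_le_iff₀ hD]
      linarith
    have h3 : 1 + ((C₁ + 2 * C₁ ^ 2) + 4 * x ^ 2 + 1 + 16 * C₁ * x) ≤ C₂ * (1 + x ^ 2) := by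
      have hx1 : x ≤ 1 + x ^ 2 := by nlinarith [sq_nonneg (x - 1)]
      have hx2 : 0 ≤ x ^ 2 := sq_nonneg x
      have := mul_le_mul_of_nonneg_left hx1 hC₁0
      rw [hC₂]
      nlinarith [mul_nonneg hC₁0 hx2, mul_nonneg (sq_nonneg C₁) hx2]
    calc ‖bb σ a δ‖ ≤ G + ((C₁ + 2 * C₁ ^ 2) + 4 * x ^ 2 + 1 + 16 * C₁ * x) * G := by linarith
      _ = (1 + ((C₁ + 2 * C₁ ^ 2) + 4 * x ^ 2 + 1 + 16 * C₁ * x)) * G := by ring
      _ ≤ _ := by gcongr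
  have h4 : (1 + x ^ 2) ≤ Real.exp (x ^ 2) := by
    have := Real.add_one_le_exp (x ^ 2)
    linarith
  have h5 : ‖bb σ a δ‖ ≤ C₂ * (Real.exp (x ^ 2) * G) := by
    refine hbn.trans ?_
    rw [mul_assoc]
    gcongr
  have h6 : ‖bb σ a δ‖ ^ 2 ≤ C₂ ^ 2 * (Real.exp (x ^ 2) * G) ^ 2 := by
    have := pow_le_pow_left₀ (norm_nonneg _) h5 2
    rwa [mul_pow] at this
  refine h6.trans ?_
  refine mul_le_mul_of_nonneg_left ?_ (by positivity)
  rw [hG, ← Real.exp_add, ← Real.exp_nat_mul]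
  apply Real.exp_le_exp.2
  rw [hr]
  push_cast
  have h8 : Real.pi * σ ^ 2 * ‖δ‖ ^ 2 = Real.pi * x ^ 2 := by rw [hx]; ring
  have h9 : 0 ≤ x ^ 2 := sq_nonneg x
  rw [h8]
  nlinarith

theorem gauss_int (σ : ℝ) (hσ : 0 < σ) (A : ℝ) :
    Integrable (fun δ : ℂ => A * Real.exp (-(σ ^ 2) * ‖δ‖ ^ 2)) ∧
    ∫ δ : ℂ, A * Real.exp (-(σ ^ 2) * ‖δ‖ ^ 2) = A * (Real.pi / σ ^ 2) := by
  have h0 : Integrable (fun θ : ℂ => Real.exp (-(σ ^ 2) * ‖θ‖ ^ 2)) :=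
    GaussianFourier.integrable_cexp_neg_mul_sq_norm_add (V := ℂ) (b := ((σ ^ 2 : ℝ) : ℂ))
      (by rw [Complex.ofReal_re]; positivity) 0 0 |>.norm.congr
      (Eventually.of_forall fun θ => by
        simp only [Complex.norm_exp]
        congr 1
        have : (-((σ ^ 2 : ℝ) : ℂ) * (‖θ‖ : ℂ) ^ 2 + 0 * ((inner ℝ (0 : ℂ) θ : ℝ) : ℂ)) =
          ((-(σ ^ 2) * ‖θ‖ ^ 2 : ℝ) : ℂ) := by push_cast; ring
        rw [this, Complex.ofReal_re])
  refine ⟨h0.const_mul _, ?_⟩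
  rw [integral_const_mul]
  congr 1
  have := GaussianFourier.integral_rexp_neg_mul_sq_norm (V := ℂ) (b := σ ^ 2) (by positivity)
  rw [this, Complex.finrank_real_complex]
  norm_num

/-- `cv k u` depends on `u 0, …, u k` only -/
theorem cv_congr : ∀ (k : ℕ) (u v : ℕ → ℂ → ℂ), (∀ j ≤ k, u j = v j) → cv k u = cv k v := by
  intro k
  induction k with
  | zero =>
    intro u v h
    exact h 0 le_rfl
  | succ k ih =>
    intro u v h
    show bil (fun _ => 1) (u (k + 1)) (cv k u) = bil (fun _ => 1) (v (k + 1)) (cv k v)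
    rw [h (k + 1) le_rfl, ih u v fun j hj => h j (by omega)]

end GTKAux

open GTKAux in
theorem gtK (hM : StmtMPt) (hL : Four.StmtLap) : StmtGTK := by
  intro k
  obtain ⟨C₁, hC₁0, hC₁⟩ := exists_C1
  set C₂ : ℝ := 6 + (C₁ + 2 * C₁ ^ 2) + 16 * C₁ with hC₂
  have hC₂0 : 0 < C₂ := by positivity
  have hpi := Real.pi_pos
  refine ⟨(C₂ ^ 2 * Real.pi) ^ (k + 1), 1, by positivity, one_pos, ?_⟩
  intro σ g hσ hg
  obtain ⟨Om₀, hOm0, hOmi, hOmv, hpt⟩ := hM k σ g hσ hg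
  refine ⟨fun θ => (C₂ ^ 2 * (Real.pi / σ ^ 2)) ^ (k + 1) * Om₀ θ,
    fun θ => mul_nonneg (by positivity) (hOm0 θ), hOmi.const_mul _, ?_, ?_⟩
  · rw [integral_const_mul]
    refine (mul_le_mul_of_nonneg_left hOmv (by positivity)).trans (le_of_eq ?_)
    rw [← mul_assoc]
    congr 1
    rw [pow_mul, ← mul_pow]
    congr 1
    field_simp
  intro θ ρ j₀ hj₀ hσρ hsep
  have hρ : 0 < ρ := by
    by_contra hneg
    push Not at hneg
    nlinarith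
  -- radius of the supports
  have hrad : ∀ j, ∃ R₀ : ℝ, j ≤ k → ∀ ζ, g j ζ ≠ 0 → ‖ζ‖ ≤ R₀ := by
    intro j
    by_cases hj : j ≤ k
    · obtain ⟨R₀, hR₀⟩ := (hg j hj).2.isCompact.isBounded.exists_norm_le
      exact ⟨R₀, fun _ ζ hζ => hR₀ ζ (subset_tsupport (g j) hζ)⟩
    · exact ⟨0, fun h => absurd h hj⟩
  choose R₀ hR₀ using hrad
  set R₁ : ℝ := ∑ j ∈ range (k + 1), |R₀ j| with hR₁
  have hR₁' : ∀ j ≤ k, ∀ ζ, g j ζ ≠ 0 → ‖ζ‖ ≤ R₁ := by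
    intro j hj ζ hζ
    refine (hR₀ j hj ζ hζ).trans ((le_abs_self _).trans ?_)
    exact single_le_sum (f := fun j => |R₀ j|) (fun i _ => abs_nonneg _)
      (mem_range.2 (by omega))
  set R : ℝ := max (max ρ (1 / σ)) (R₁ + ‖θ‖) with hR
  have hRρ : ρ ≤ R := (le_max_left _ _).trans (le_max_left _ _)
  have hRσ : 1 / σ ≤ R := (le_max_right _ _).trans (le_max_left _ _)
  have hRpos : 0 < R := lt_of_lt_of_le hρ hRρ
  set c : ℝ := ρ / Real.sqrt 2 with hcd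
  have hs2 : 0 < Real.sqrt 2 := by positivity
  have hs2' : Real.sqrt 2 ^ 2 = 2 := Real.sq_sqrt (by norm_num)
  have hc : 0 < c := by positivity
  have hc2 : 2 * c ^ 2 = ρ ^ 2 := by
    rw [hcd, div_pow, hs2']
    ring
  have hcR : c ≤ R := by
    refine le_trans ?_ hRρ
    rw [hcd, div_le_iff₀ hs2]
    have : 1 ≤ Real.sqrt 2 := by
      rw [Real.one_le_sqrt]
      norm_num
    nlinarith
  have hcσ : 1 / c ≤ 2 * σ := by
    rw [hcd, one_div_div, div_le_iff₀ hρ]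
    have : Real.sqrt 2 ≤ 2 := by
      rw [Real.sqrt_le_left (by norm_num)]
      norm_num
    nlinarith
  have hcσ2 : 1 / c ^ 2 ≤ 2 * σ ^ 2 := by
    have : c ^ 2 = ρ ^ 2 / 2 := by linarith
    rw [this, one_div_div, div_le_iff₀ (by positivity)]
    have : 1 ≤ (σ * ρ) ^ 2 := one_le_pow₀ hσρ
    nlinarith
  have hRσ1 : 1 / R ≤ σ := by
    rw [div_le_iff₀ hRpos]
    rw [div_le_iff₀ hσ] at hRσ
    linarith
  have hRσ2 : 1 / R ^ 2 ≤ σ ^ 2 := by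
    have := pow_le_pow_left₀ (by positivity) hRσ1 2
    rwa [div_pow, one_pow] at this
  -- the cutoffs
  set χ : ℂ → ℂ := fun z => (1 - ph c z) * ph R z with hχ
  have h1c : ContDiff ℝ 2 (fun z => 1 - ph c z) := contDiff_const.sub (ph_contDiff c)
  have hχc : ContDiff ℝ 2 χ := h1c.mul (ph_contDiff R)
  set r : ℝ := Real.pi * σ ^ 2 with hr
  set a₀ : ℂ → ℂ := fun z => Ga r z * χ z with ha₀
  set a₁ : ℂ → ℂ := fun z => Ga r z * ph R z with ha₁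
  have hac0 : ContDiff ℝ 2 a₀ := (Ga_contDiff r).mul hχc
  have hac1 : ContDiff ℝ 2 a₁ := (Ga_contDiff r).mul (ph_contDiff R)
  have has0 : HasCompactSupport a₀ := (ph_cs hRpos).mul_left.mul_left
  have has1 : HasCompactSupport a₁ := (ph_cs hRpos).mul_left
  -- bounds for the cutoffs
  have e1 : ∀ z, ‖1 - ph c z‖ ≤ 1 := by
    intro z
    rw [one_sub_ph, Complex.norm_real, Real.norm_eq_abs, abs_of_nonneg]
    · exact Joint.st_le_one _
    · exact Joint.st_nonneg _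
  have e2 : ∀ z, fderiv ℝ (fun z => 1 - ph c z) z = -fderiv ℝ (ph c) z := by
    intro z
    rw [fderiv_const_sub]
  have e3 : ∀ z, lap (fun z => 1 - ph c z) z = -lap (ph c) z := by
    intro z
    unfold lap
    simp only [fderiv_const_sub, _root_.neg_apply]
    have : ∀ v : ℂ, fderiv ℝ (fun z => -(fderiv ℝ (ph c) z v)) z =
        -fderiv ℝ (fun z => fderiv ℝ (ph c) z v) z := fun v => fderiv_fun_neg
    rw [this, this]
    simp only [_root_.neg_apply]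
    ring
  have b1 : ∀ z, ‖χ z‖ ≤ 1 := by
    intro z
    simp only [hχ]
    rw [norm_mul]
    exact mul_le_one₀ (e1 z) (norm_nonneg _) (ph_norm_le R z)
  have f1 : ∀ z, ‖fderiv ℝ (ph c) z‖ ≤ 2 * C₁ * σ := by
    intro z
    refine (ph_fderiv hC₁ hc z).1.trans ?_
    calc C₁ / c = C₁ * (1 / c) := by ring
      _ ≤ C₁ * (2 * σ) := by gcongr
      _ = _ := by ring
  have f2 : ∀ z, ‖fderiv ℝ (ph R) z‖ ≤ C₁ * σ := by
    intro z
    refine (ph_fderiv hC₁ hRpos z).1.trans ?_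
    calc C₁ / R = C₁ * (1 / R) := by ring
      _ ≤ C₁ * σ := by gcongr
  have f3 : ∀ z, ‖lap (ph c) z‖ ≤ 2 * C₁ * σ ^ 2 := by
    intro z
    refine (ph_fderiv hC₁ hc z).2.trans ?_
    calc C₁ / c ^ 2 = C₁ * (1 / c ^ 2) := by ring
      _ ≤ C₁ * (2 * σ ^ 2) := by gcongr
      _ = _ := by ring
  have f4 : ∀ z, ‖lap (ph R) z‖ ≤ C₁ * σ ^ 2 := by
    intro z
    refine (ph_fderiv hC₁ hRpos z).2.trans ?_
    calc C₁ / R ^ 2 = C₁ * (1 / R ^ 2) := by ring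
      _ ≤ C₁ * σ ^ 2 := by gcongr
  have hCσ : 0 ≤ C₁ * σ := by positivity
  have hCσ2 : 0 ≤ C₁ * σ ^ 2 := by positivity
  have hCσ3 : 0 ≤ C₁ ^ 2 * σ ^ 2 := by positivity
  have b2 : ∀ z, ‖fderiv ℝ χ z‖ ≤ 4 * C₁ * σ := by
    intro z
    have h0 := (hL.1 _ _ h1c (ph_contDiff R) z).2.1
    refine h0.trans ?_
    rw [e2, norm_neg]
    have := mul_le_mul (e1 z) (f2 z) (norm_nonneg _) zero_le_one
    have := mul_le_mul (ph_norm_le R z) (f1 z) (norm_nonneg _) zero_le_one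
    linarith
  have b3 : ∀ z, ‖lap χ z‖ ≤ (4 * C₁ + 8 * C₁ ^ 2) * σ ^ 2 := by
    intro z
    have h0 := (hL.1 _ _ h1c (ph_contDiff R) z).2.2
    refine h0.trans ?_
    rw [e2, norm_neg, e3, norm_neg]
    have m1 := mul_le_mul (e1 z) (f4 z) (norm_nonneg _) zero_le_one
    have m2 := mul_le_mul (ph_norm_le R z) (f3 z) (norm_nonneg _) zero_le_one
    have m3 : 4 * ‖fderiv ℝ (ph c) z‖ * ‖fderiv ℝ (ph R) z‖ ≤ 4 * (2 * C₁ * σ) * (C₁ * σ) := by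
      have := mul_le_mul (f1 z) (f2 z) (norm_nonneg _) (by positivity)
      linarith
    have m4 : 4 * (2 * C₁ * σ) * (C₁ * σ) = 8 * C₁ ^ 2 * σ ^ 2 := by ring
    nlinarith
  have c1 : ∀ z, ‖ph R z‖ ≤ 1 := ph_norm_le R
  have c2 : ∀ z, ‖fderiv ℝ (ph R) z‖ ≤ 4 * C₁ * σ := fun z => (f2 z).trans (by linarith)
  have c3 : ∀ z, ‖lap (ph R) z‖ ≤ (4 * C₁ + 8 * C₁ ^ 2) * σ ^ 2 := fun z =>
    (f4 z).trans (by nlinarith)
  -- the integrals
  have I1 : ∫ δ, ‖bb σ a₁ δ‖ ^ 2 ≤ C₂ ^ 2 * (Real.pi / σ ^ 2) := by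
    obtain ⟨hi, hv⟩ := gauss_int σ hσ (C₂ ^ 2)
    rw [← hv]
    refine integral_mono_of_nonneg (Eventually.of_forall fun δ => by positivity) hi
      (Eventually.of_forall fun δ => ?_)
    refine (pt_bound hL hC₁0 hσ (ph_contDiff R) c1 c2 c3 δ).trans ?_
    refine mul_le_mul_of_nonneg_left (Real.exp_le_exp.2 ?_) (by positivity)
    nlinarith [sq_nonneg (σ * ‖δ‖)]
  have I0 : ∫ δ, ‖bb σ a₀ δ‖ ^ 2 ≤
      Real.exp (-(1 * (σ ^ 2 * ρ ^ 2))) * (C₂ ^ 2 * (Real.pi / σ ^ 2)) := by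
    obtain ⟨hi, hv⟩ := gauss_int σ hσ (Real.exp (-(1 * (σ ^ 2 * ρ ^ 2))) * C₂ ^ 2)
    rw [← mul_assoc, ← hv]
    refine integral_mono_of_nonneg (Eventually.of_forall fun δ => by positivity) hi
      (Eventually.of_forall fun δ => ?_)
    rcases lt_or_ge ‖δ‖ c with hδ | hδ
    · -- `a₀` vanishes near `δ`
      have hev : a₀ =ᶠ[𝓝 δ] fun _ => 0 := by
        filter_upwards [(isOpen_lt continuous_norm continuous_const).mem_nhds hδ] with z hz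
        have hz' : ct c z = 0 := ct_zero hc (le_of_lt hz)
        simp only [ha₀, hχ]
        rw [one_sub_ph, hz']
        simp
      have hl : lap a₀ δ = 0 := by
        have h2 : ∀ v : ℂ, fderiv ℝ (fun z => fderiv ℝ a₀ z v) δ = 0 := by
          intro v
          have h3 : (fun z => fderiv ℝ a₀ z v) =ᶠ[𝓝 δ] fun _ => 0 := by
            filter_upwards [hev.fderiv (𝕜 := ℝ)] with z hz
            rw [hz]
            simp
          rw [h3.fderiv_eq]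
          simp
        unfold lap
        rw [h2, h2]
        simp
      have hb0 : bb σ a₀ δ = 0 := by
        unfold bb
        rw [hev.eq_of_nhds, hl]
        simp
      show ‖bb σ a₀ δ‖ ^ 2 ≤ _
      rw [hb0, norm_zero, zero_pow two_ne_zero]
      positivity
    · refine (pt_bound hL hC₁0 hσ hχc b1 b2 b3 δ).trans ?_
      show C₂ ^ 2 * Real.exp (-(4 * (σ * ‖δ‖) ^ 2)) ≤
        Real.exp (-(1 * (σ ^ 2 * ρ ^ 2))) * C₂ ^ 2 * Real.exp (-(σ ^ 2) * ‖δ‖ ^ 2)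
      rw [mul_comm (Real.exp _) (C₂ ^ 2), mul_assoc, ← Real.exp_add]
      refine mul_le_mul_of_nonneg_left (Real.exp_le_exp.2 ?_) (by positivity)
      have h7 : σ ^ 2 * ρ ^ 2 ≤ 2 * (σ * ‖δ‖) ^ 2 := by
        rw [mul_pow, ← hc2]
        have : c ^ 2 ≤ ‖δ‖ ^ 2 := by gcongr
        nlinarith [sq_nonneg σ]
      nlinarith [sq_nonneg (σ * ‖δ‖)]
  -- the form with the compactly supported symbols
  set A : ℕ → ℂ → ℂ := fun j => if j = j₀ then a₀ else a₁ with hA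
  have hAK : AK k σ g θ = MF k A g θ := by
    unfold AK MF
    refine congrFun (cv_congr k _ _ fun j hj => ?_) θ
    funext ζ
    show ga σ (ζ - θ / (k + 1)) * g j ζ = A j (ζ - θ / (k + 1)) * g j ζ
    by_cases hz : g j ζ = 0
    · rw [hz]
      simp
    congr 1
    have hζ := hR₁' j hj ζ hz
    have k2 : ct R (ζ - θ / (k + 1)) = 0 := by
      apply ct_zero hRpos
      have h3 : ‖θ / ((k : ℂ) + 1)‖ ≤ ‖θ‖ := by
        rw [norm_div]
        have h4 : ‖(k : ℂ) + 1‖ = (k : ℝ) + 1 := by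
          have : (k : ℂ) + 1 = (((k : ℝ) + 1 : ℝ) : ℂ) := by push_cast; ring
          rw [this, Complex.norm_real, Real.norm_of_nonneg (by positivity)]
        rw [h4]
        exact div_le_self (norm_nonneg _) (by linarith [(Nat.cast_nonneg k : (0 : ℝ) ≤ k)])
      exact ((norm_sub_le _ _).trans (by linarith)).trans (le_max_right _ _)
    have hga : ga σ (ζ - θ / (k + 1)) = Ga r (ζ - θ / (k + 1)) := by
      unfold ga Ga
      rw [hr]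
    by_cases hjj : j = j₀
    · have k1 : ct c (ζ - θ / (k + 1)) = 1 := by
        apply ct_one hc
        rw [hc2]
        have hd := hsep (ζ - θ / (k + 1)) (by
          rw [← hjj]
          rwa [add_sub_cancel])
        gcongr
      simp only [hA, hjj, if_true, ha₀, hχ]
      rw [one_sub_ph, k1]
      unfold ph
      rw [k2, hga]
      simp
    · simp only [hA, hjj, if_false, ha₁]
      unfold ph
      rw [k2, hga]
      simp
  rw [hAK]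
  have hAprop : ∀ j ≤ k, ContDiff ℝ 2 (A j) ∧ HasCompactSupport (A j) := by
    intro j _
    simp only [hA]
    split_ifs
    · exact ⟨hac0, has0⟩
    · exact ⟨hac1, has1⟩
  refine (hpt θ A hAprop).trans ?_
  show (∏ j ∈ range (k + 1), ∫ δ, ‖bb σ (A j) δ‖ ^ 2) * Om₀ θ ≤ _
  rw [← mul_assoc]
  refine mul_le_mul_of_nonneg_right ?_ (hOm0 θ)
  have hmem : j₀ ∈ range (k + 1) := mem_range.2 (by omega)
  rw [← mul_prod_erase _ _ hmem]
  have h1 : ∫ δ, ‖bb σ (A j₀) δ‖ ^ 2 ≤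
      Real.exp (-(1 * (σ ^ 2 * ρ ^ 2))) * (C₂ ^ 2 * (Real.pi / σ ^ 2)) := by
    simp only [hA, if_true]
    exact I0
  have h2 : ∏ j ∈ (range (k + 1)).erase j₀, ∫ δ, ‖bb σ (A j) δ‖ ^ 2 ≤
      (C₂ ^ 2 * (Real.pi / σ ^ 2)) ^ k := by
    have h3 : ∏ j ∈ (range (k + 1)).erase j₀, ∫ δ, ‖bb σ (A j) δ‖ ^ 2 ≤
        ∏ j ∈ (range (k + 1)).erase j₀, (C₂ ^ 2 * (Real.pi / σ ^ 2)) := by
      refine prod_le_prod (fun j _ => integral_nonneg fun δ => by positivity) fun j hj => ?_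
      have hjj : j ≠ j₀ := ne_of_mem_erase hj
      simp only [hA, hjj, if_false]
      exact I1
    refine h3.trans (le_of_eq ?_)
    rw [prod_const, card_erase_of_mem hmem, card_range]
    simp
  calc (∫ δ, ‖bb σ (A j₀) δ‖ ^ 2) * ∏ j ∈ (range (k + 1)).erase j₀, ∫ δ, ‖bb σ (A j) δ‖ ^ 2
      ≤ (Real.exp (-(1 * (σ ^ 2 * ρ ^ 2))) * (C₂ ^ 2 * (Real.pi / σ ^ 2))) *
        (C₂ ^ 2 * (Real.pi / σ ^ 2)) ^ k :=
        mul_le_mul h1 h2 (prod_nonneg fun j _ => integral_nonneg fun δ => by positivity)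
          (by positivity)
    _ = _ := by rw [pow_succ]; ring

end Pool.Agent.Lib.MP_dd244f_an.Even
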