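import Pool.Agent.Lib.MP_dd244f_an.Even.Stmts

/-!
The Hardy-Littlewood maximal theorem for the dyadic averages in `L^p`, `p > 1`.
-/

set_option autoImplicit false

namespace Pool.Agent.Lib.MP_dd244f_an.Even

open MeasureTheory Filter Topology Metric Set
open Pool.Agent.Lib.MP_dd244f_an.Four
open scoped ENNReal NNReal

namespace HLAux

theorem pi_le : (NNReal.pi : ℝ≥0∞) ≤ 4 := by
  have h : NNReal.pi ≤ 4 := by
    rw [← NNReal.coe_le_coe]
    simpa using Real.pi_le_four
  exact_mod_cast h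

/-- dyadic balls control the averages -/
theorem avg_le {φ : ℂ → ℝ≥0∞} (hφ : Measurable φ) (x : ℂ) (lam : ℝ≥0∞)
    (H : ∀ n : ℤ, ∫⁻ y in closedBall x ((2 : ℝ) ^ n), φ y ≤ lam * (ENNReal.ofReal ((2 : ℝ) ^ n)) ^ 2)
    (a : ℤ) : ∫⁻ y, ENNReal.ofReal (KK ((2 : ℝ) ^ (-a)) (x - y)) * φ y ≤ 32 * lam := by
  set ρ : ℝ := (2 : ℝ) ^ (-a) with hρ
  have hρ0 : 0 < ρ := by positivity
  have hpow : ∀ j : ℕ, (2 : ℝ) ^ ((j : ℤ) - a) = 2 ^ j * ρ := by
    intro j
    rw [hρ, sub_eq_add_neg, zpow_add₀ two_ne_zero, zpow_natCast]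
  -- pointwise bound
  have hpt : ∀ y, ENNReal.ofReal (KK ρ (x - y)) ≤ ∑' j : ℕ,
      ENNReal.ofReal (16 * (1 / 16) ^ j / ρ ^ 2) *
        (closedBall x ((2 : ℝ) ^ ((j : ℤ) - a))).indicator 1 y := by
    intro y
    have hd : ‖x - y‖ = dist y x := by rw [dist_comm, dist_eq_norm]
    obtain ⟨j, hj1, hj2⟩ : ∃ j : ℕ, dist y x ≤ 2 ^ j * ρ ∧ KK ρ (x - y) ≤ 16 * (1 / 16) ^ j / ρ ^ 2 := by
      rcases le_total (‖x - y‖) ρ with h | h
      · refine ⟨0, by rw [← hd]; simpa using h, ?_⟩
        have h1 : KK ρ (x - y) ≤ ρ ^ 2 / (ρ ^ 2) ^ 2 := by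
          unfold KK
          refine div_le_div_of_nonneg_left (by positivity) (by positivity) ?_
          have : 0 ≤ ‖x - y‖ ^ 2 := by positivity
          gcongr
          linarith
        refine h1.trans ?_
        rw [pow_zero, mul_one]
        rw [div_le_div_iff₀ (by positivity) (by positivity)]
        have : 0 < ρ ^ 2 := by positivity
        nlinarith [this, mul_pos this this]
      · obtain ⟨n, hn1, hn2⟩ := exists_nat_pow_near (x := ‖x - y‖ / ρ) (y := (2 : ℝ))
          (by rwa [one_le_div hρ0]) one_lt_two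
        rw [le_div_iff₀ hρ0] at hn1
        rw [div_lt_iff₀ hρ0] at hn2
        refine ⟨n + 1, by rw [← hd]; exact hn2.le, ?_⟩
        have h1 : KK ρ (x - y) ≤ ρ ^ 2 / ((2 ^ n * ρ) ^ 2) ^ 2 := by
          unfold KK
          refine div_le_div_of_nonneg_left (by positivity) (by positivity) ?_
          have h3 : (2 ^ n * ρ) ^ 2 ≤ ‖x - y‖ ^ 2 := by gcongr
          have : 0 < ρ ^ 2 := by positivity
          have h4 : (2 ^ n * ρ) ^ 2 ≤ ρ ^ 2 + ‖x - y‖ ^ 2 := by linarith
          have h5 : 0 ≤ (2 ^ n * ρ) ^ 2 := by positivity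
          gcongr
        refine h1.trans (le_of_eq ?_)
        have h2 : ((2 : ℝ) ^ n) ^ 4 = 16 ^ n := by
          rw [← pow_mul, mul_comm, pow_mul]; norm_num
        have h3 : ((2 ^ n * ρ) ^ 2) ^ 2 = 16 ^ n * ρ ^ 4 := by rw [← h2]; ring
        rw [h3, div_pow, one_pow]
        field_simp
        ring
    refine le_trans ?_ (ENNReal.le_tsum j)
    have hmem : y ∈ closedBall x ((2 : ℝ) ^ ((j : ℤ) - a)) := by
      rw [mem_closedBall, hpow]; exact hj1
    rw [indicator_of_mem hmem, Pi.one_apply, mul_one]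
    exact ENNReal.ofReal_le_ofReal hj2
  have hmul : ∀ y, ENNReal.ofReal (KK ρ (x - y)) * φ y ≤ ∑' j : ℕ,
      ENNReal.ofReal (16 * (1 / 16) ^ j / ρ ^ 2) *
        (closedBall x ((2 : ℝ) ^ ((j : ℤ) - a))).indicator φ y := by
    intro y
    refine (mul_le_mul_left (hpt y) _).trans (le_of_eq ?_)
    rw [← ENNReal.tsum_mul_right]
    refine tsum_congr fun j => ?_
    rw [mul_assoc]
    congr 1
    by_cases hy : y ∈ closedBall x ((2 : ℝ) ^ ((j : ℤ) - a))
    · rw [indicator_of_mem hy, indicator_of_mem hy, Pi.one_apply, one_mul]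
    · rw [indicator_of_notMem hy, indicator_of_notMem hy, zero_mul]
  calc ∫⁻ y, ENNReal.ofReal (KK ρ (x - y)) * φ y
      ≤ ∫⁻ y, ∑' j : ℕ, ENNReal.ofReal (16 * (1 / 16) ^ j / ρ ^ 2) *
        (closedBall x ((2 : ℝ) ^ ((j : ℤ) - a))).indicator φ y := lintegral_mono hmul
    _ = ∑' j : ℕ, ENNReal.ofReal (16 * (1 / 16) ^ j / ρ ^ 2) *
        ∫⁻ y in closedBall x ((2 : ℝ) ^ ((j : ℤ) - a)), φ y := by
        rw [lintegral_tsum]
        · refine tsum_congr fun j => ?_
          rw [lintegral_const_mul _ (hφ.indicator measurableSet_closedBall),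
            lintegral_indicator measurableSet_closedBall]
        · exact fun j => ((hφ.indicator measurableSet_closedBall).const_mul _).aemeasurable
    _ ≤ ∑' j : ℕ, ENNReal.ofReal (16 * (1 / 4) ^ j) * lam := by
        refine ENNReal.tsum_le_tsum fun j => ?_
        refine (mul_le_mul_right (H _) _).trans (le_of_eq ?_)
        rw [mul_comm lam, ← mul_assoc, ← ENNReal.ofReal_pow (by positivity),
          ← ENNReal.ofReal_mul (by positivity), hpow]
        congr 2
        have h2 : ((2 : ℝ) ^ j) ^ 2 = 4 ^ j := by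
          rw [← pow_mul, mul_comm, pow_mul]; norm_num
        have h3 : (16 : ℝ) ^ j = 4 ^ j * 4 ^ j := by
          rw [← mul_pow]; norm_num
        rw [mul_pow, h2, div_pow, div_pow, one_pow, h3]
        field_simp
    _ = (∑' j : ℕ, ENNReal.ofReal (16 * (1 / 4) ^ j)) * lam := ENNReal.tsum_mul_right
    _ ≤ 32 * lam := by
        refine mul_le_mul_left ?_ _
        rw [← ENNReal.ofReal_tsum_of_nonneg (fun j => by positivity)
          ((summable_geometric_of_lt_one (by norm_num) (by norm_num)).mul_left _)]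
        rw [tsum_mul_left, tsum_geometric_of_lt_one (by norm_num) (by norm_num)]
        refine ENNReal.ofReal_le_of_le_toReal ?_
        norm_num

/-- weak type (1,1) for dyadic radii -/
theorem weak {ψ : ℂ → ℝ≥0∞} {lam : ℝ≥0∞} (hl0 : lam ≠ 0) (hl1 : lam ≠ ⊤) :
    volume {x : ℂ | ∃ n : ℤ, lam * (ENNReal.ofReal ((2 : ℝ) ^ n)) ^ 2 <
      ∫⁻ y in closedBall x ((2 : ℝ) ^ n), ψ y} * lam ≤ 100 * ∫⁻ y, ψ y := by
  set S := {x : ℂ | ∃ n : ℤ, lam * (ENNReal.ofReal ((2 : ℝ) ^ n)) ^ 2 <
      ∫⁻ y in closedBall x ((2 : ℝ) ^ n), ψ y} with hS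
  rcases eq_or_ne (∫⁻ y, ψ y) ⊤ with hI | hI
  · rw [hI, ENNReal.mul_top (by norm_num)]; exact le_top
  have hex : ∀ x ∈ S, ∃ n : ℤ, lam * (ENNReal.ofReal ((2 : ℝ) ^ n)) ^ 2 <
      ∫⁻ y in closedBall x ((2 : ℝ) ^ n), ψ y := fun x hx => hx
  choose! n hn using hex
  set R : ℝ := ((∫⁻ y, ψ y) / lam).toReal + 1 with hR
  have hfin : (∫⁻ y, ψ y) / lam ≠ ⊤ := ENNReal.div_ne_top hI hl0
  have hr : ∀ x ∈ S, (2 : ℝ) ^ (n x) ≤ R := by
    intro x hx
    have h1 : (ENNReal.ofReal ((2 : ℝ) ^ (n x))) ^ 2 < (∫⁻ y, ψ y) / lam := by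
      rw [ENNReal.lt_div_iff_mul_lt (Or.inl hl0) (Or.inl hl1), mul_comm]
      exact (hn x hx).trans_le (setLIntegral_le_lintegral _ _)
    rw [← ENNReal.ofReal_pow (by positivity), ENNReal.ofReal_lt_iff_lt_toReal (by positivity) hfin] at h1
    by_contra hc
    push Not at hc
    have h2 : 1 ≤ R := by rw [hR]; have := ENNReal.toReal_nonneg (a := (∫⁻ y, ψ y) / lam); linarith
    have h3 : (1 : ℝ) ≤ 2 ^ (n x) := h2.trans hc.le
    have h4 : R - 1 = ((∫⁻ y, ψ y) / lam).toReal := by rw [hR]; ring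
    rw [← h4] at h1
    nlinarith
  obtain ⟨u, hu, hdisj, hcov⟩ := Vitali.exists_disjoint_subfamily_covering_enlargement_closedBall
    S (fun x => x) (fun x => (2 : ℝ) ^ (n x)) R hr 5 (by norm_num)
  have hcount : u.Countable := by
    refine hdisj.countable_of_nonempty_interior fun y _ => ?_
    refine ⟨y, ?_⟩
    exact ball_subset_interior_closedBall (mem_ball_self (by positivity))
  have hsub : S ⊆ ⋃ y ∈ u, closedBall y (5 * (2 : ℝ) ^ (n y)) := by
    intro x hx
    obtain ⟨b, hb, hxb⟩ := hcov x hx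
    exact mem_biUnion hb (hxb (mem_closedBall_self (by positivity)))
  have h1 : volume S ≤ ∑' y : u, 100 * (ENNReal.ofReal ((2 : ℝ) ^ (n y))) ^ 2 := by
    refine (measure_mono hsub).trans ((measure_biUnion_le _ hcount _).trans ?_)
    refine ENNReal.tsum_le_tsum fun y => ?_
    rw [Complex.volume_closedBall, ENNReal.ofReal_mul (by norm_num), mul_pow]
    have h5 : (ENNReal.ofReal 5) ^ 2 = 25 := by
      rw [← ENNReal.ofReal_pow (by norm_num)]
      norm_num
    rw [h5]
    calc 25 * (ENNReal.ofReal ((2 : ℝ) ^ (n y))) ^ 2 * (NNReal.pi : ℝ≥0∞)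
        ≤ 25 * (ENNReal.ofReal ((2 : ℝ) ^ (n y))) ^ 2 * 4 := mul_le_mul_right pi_le _
      _ = 100 * (ENNReal.ofReal ((2 : ℝ) ^ (n y))) ^ 2 := by ring
  calc volume S * lam ≤ (∑' y : u, 100 * (ENNReal.ofReal ((2 : ℝ) ^ (n y))) ^ 2) * lam :=
        mul_le_mul_left h1 _
    _ = ∑' y : u, 100 * (lam * (ENNReal.ofReal ((2 : ℝ) ^ (n y))) ^ 2) := by
        rw [← ENNReal.tsum_mul_right]
        exact tsum_congr fun y => by ring
    _ ≤ ∑' y : u, 100 * ∫⁻ z in closedBall (y : ℂ) ((2 : ℝ) ^ (n y)), ψ z :=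
        ENNReal.tsum_le_tsum fun y => mul_le_mul_right (hn y (hu y.2)).le _
    _ = 100 * ∫⁻ z in ⋃ y ∈ u, closedBall y ((2 : ℝ) ^ (n y)), ψ z := by
        rw [ENNReal.tsum_mul_left, lintegral_biUnion hcount (fun y _ => measurableSet_closedBall) hdisj]
    _ ≤ 100 * ∫⁻ z, ψ z := mul_le_mul_right (setLIntegral_le_lintegral _ _) _

/-- powers of two -/
noncomputable def b (s : ℝ) : ℝ≥0∞ := (2 : ℝ≥0∞) ^ s

theorem b_ne_zero (s : ℝ) : b s ≠ 0 := by
  unfold b; exact (ENNReal.rpow_pos (by norm_num) (by norm_num)).ne'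

theorem b_ne_top (s : ℝ) : b s ≠ ⊤ := by
  unfold b; exact ENNReal.rpow_ne_top_of_ne_zero (by norm_num) (by norm_num)

theorem b_add (s t : ℝ) : b (s + t) = b s * b t := by
  unfold b; exact ENNReal.rpow_add _ _ (by norm_num) (by norm_num)

theorem b_zpow (n : ℤ) : b n = (2 : ℝ≥0∞) ^ n := by
  unfold b; exact ENNReal.rpow_intCast _ _

theorem b_mul (s t : ℝ) : b (s * t) = b s ^ t := by
  unfold b; exact ENNReal.rpow_mul _ _ _

theorem b_mono {s t : ℝ} (h : s ≤ t) : b s ≤ b t := by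
  unfold b; exact ENNReal.rpow_le_rpow_of_exponent_le (by norm_num) h

theorem b_lt {s t : ℝ} (h : b s < b t) : s < t := by
  by_contra hc
  push Not at hc
  exact absurd (b_mono hc) (not_le.mpr h)

open Classical in
/-- discrete layers, upper bound of a power -/
theorem layer_le (F : ℝ≥0∞) {p : ℝ} (hp : 1 < p) :
    F ^ p ≤ ∑' k : ℤ, if b k < F then b ((k + 1) * p) else 0 := by
  have hp0 : 0 < p := by linarith
  rcases eq_or_ne F 0 with rfl | h0
  · rw [ENNReal.zero_rpow_of_pos hp0]; exact zero_le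
  rcases eq_or_ne F ⊤ with rfl | h1
  · have hle : ∀ n : ℕ, (n : ℝ≥0∞) ≤ ∑' k : ℤ, if b k < (⊤ : ℝ≥0∞) then b ((k + 1) * p) else 0 := by
      intro n
      refine le_trans ?_ (ENNReal.le_tsum (n : ℤ))
      rw [if_pos (lt_top_iff_ne_top.mpr (b_ne_top _))]
      have h2 : b (n : ℝ) ≤ b ((((n : ℤ) : ℝ) + 1) * p) := by
        refine b_mono ?_
        push_cast
        have : (0 : ℝ) ≤ n := Nat.cast_nonneg n
        nlinarith
      refine le_trans ?_ h2
      have h3 : b (n : ℝ) = (2 : ℝ≥0∞) ^ n := by unfold b; exact ENNReal.rpow_natCast _ _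
      rw [h3]
      exact_mod_cast (Nat.lt_two_pow_self (n := n)).le
    have : (∑' k : ℤ, if b k < (⊤ : ℝ≥0∞) then b ((k + 1) * p) else 0) = ⊤ := by
      by_contra hc
      obtain ⟨n, hn⟩ := ENNReal.exists_nat_gt hc
      exact absurd (hle n) (not_le.mpr hn)
    rw [this]; exact le_top
  · obtain ⟨n, hn1, hn2⟩ := ENNReal.exists_mem_Ioc_zpow h0 h1 (y := 2) (by norm_num) (by norm_num)
    refine le_trans ?_ (ENNReal.le_tsum n)
    rw [if_pos (by rw [b_zpow]; exact hn1), b_mul]
    refine ENNReal.rpow_le_rpow ?_ hp0.le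
    have : b ((n : ℝ) + 1) = b ((n + 1 : ℤ) : ℝ) := by push_cast; rfl
    rw [this, b_zpow]
    exact hn2

open Classical in
/-- discrete layers, sum of the lower layers -/
theorem layer_sum {q : ℝ} (hq : 0 < q) : ∃ C : ℝ≥0, ∀ t : ℝ≥0∞,
    (∑' k : ℤ, if b ((k : ℝ) - 8) < t then b (k * q) else 0) ≤ C * t ^ q := by
  -- the geometric series
  have hr : b (-q) < 1 := by
    have h1 : b (-q) = (2 : ℝ≥0∞) ^ (-q) := rfl
    rw [h1]
    exact ENNReal.rpow_lt_one_of_one_lt_of_neg (by norm_num) (by linarith)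
  have hgeo : (1 - b (-q))⁻¹ ≠ ⊤ := by
    rw [ENNReal.inv_ne_top]
    exact (tsub_pos_of_lt hr).ne'
  have hCne : b (8 * q) * (1 - b (-q))⁻¹ ≠ ⊤ := ENNReal.mul_ne_top (b_ne_top _) hgeo
  refine ⟨(b (8 * q) * (1 - b (-q))⁻¹).toNNReal, fun t => ?_⟩
  rw [ENNReal.coe_toNNReal hCne]
  have hC0 : b (8 * q) * (1 - b (-q))⁻¹ ≠ 0 := by
    refine mul_ne_zero (b_ne_zero _) ?_
    rw [ENNReal.inv_ne_zero]
    exact ne_top_of_le_ne_top ENNReal.one_ne_top tsub_le_self
  rcases eq_or_ne t 0 with rfl | h0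
  · simp
  rcases eq_or_ne t ⊤ with rfl | h1
  · rw [ENNReal.top_rpow_of_pos hq, ENNReal.mul_top hC0]; exact le_top
  obtain ⟨K, hK1, hK2⟩ := ENNReal.exists_mem_Ioc_zpow h0 h1 (y := 2) (by norm_num) (by norm_num)
  have hsupp : ∀ k : ℤ, b ((k : ℝ) - 8) < t → k ≤ K + 8 := by
    intro k hk
    have h2 := hk.trans_le hK2
    rw [← b_zpow] at h2
    have h3 := b_lt h2
    push_cast at h3
    have h4 : (k : ℝ) < ((K + 9 : ℤ) : ℝ) := by push_cast; linarith
    have h5 : k < K + 9 := by exact_mod_cast h4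
    omega
  have hinj : Function.Injective (fun j : ℕ => K + 8 - (j : ℤ)) := by
    intro i j hij
    simp only at hij
    omega
  have hts := hinj.tsum_eq (f := fun k : ℤ => if b ((k : ℝ) - 8) < t then b (k * q) else 0) (by
    intro k hk
    rw [Function.mem_support] at hk
    have h2 : b ((k : ℝ) - 8) < t := by
      by_contra hc
      exact hk (if_neg hc)
    have h3 := hsupp k h2
    exact ⟨(K + 8 - k).toNat, by simp only; rw [Int.toNat_of_nonneg (by omega)]; ring⟩)
  rw [← hts]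
  calc (∑' j : ℕ, if b (((K + 8 - (j : ℤ) : ℤ) : ℝ) - 8) < t then b (((K + 8 - (j : ℤ) : ℤ) : ℝ) * q) else 0)
      ≤ ∑' j : ℕ, b (8 * q) * (b K) ^ q * (b (-q)) ^ j := by
        refine ENNReal.tsum_le_tsum fun j => ?_
        split_ifs
        · have e : (((K + 8 - (j : ℤ) : ℤ) : ℝ)) * q = 8 * q + (K * q + (-q) * j) := by
            push_cast; ring
          rw [e, b_add, b_add, b_mul (K : ℝ) q, b_mul (-q) j, ENNReal.rpow_natCast, mul_assoc]
        · exact zero_le
    _ = b (8 * q) * (b K) ^ q * (1 - b (-q))⁻¹ := by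
        rw [ENNReal.tsum_mul_left, ENNReal.tsum_geometric]
    _ ≤ b (8 * q) * t ^ q * (1 - b (-q))⁻¹ := by
        refine mul_le_mul_left (mul_le_mul_right (ENNReal.rpow_le_rpow ?_ hq.le) _) _
        rw [b_zpow]; exact hK1.le
    _ = b (8 * q) * (1 - b (-q))⁻¹ * t ^ q := by ring

end HLAux

open HLAux

open Classical in
theorem hl : StmtHL := by
  intro p hp
  have hp0 : 0 < p := by linarith
  have hq : 0 < p - 1 := by linarith
  obtain ⟨C0, hC0⟩ := layer_sum hq
  refine ⟨6400 * ((2 : ℝ≥0) ^ p) * C0, fun φ hφ => ?_⟩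
  set F : ℂ → ℝ≥0∞ := fun x => ⨆ a : ℤ, ∫⁻ y, ENNReal.ofReal (KK ((2 : ℝ) ^ (-a)) (x - y)) * φ y
    with hF
  have hFm : Measurable F := by
    refine Measurable.iSup fun a => ?_
    refine Measurable.lintegral_prod_right ?_
    refine Measurable.mul ?_ (hφ.comp measurable_snd)
    refine ENNReal.measurable_ofReal.comp ?_
    unfold KK
    have : Continuous fun z : ℂ × ℂ => ((2 : ℝ) ^ (-a)) ^ 2 / (((2 : ℝ) ^ (-a)) ^ 2 + ‖z.1 - z.2‖ ^ 2) ^ 2 := by
      refine Continuous.div (by fun_prop) (by fun_prop) fun z => ?_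
      positivity
    exact this.measurable
  -- the truncated functions
  set φk : ℤ → ℂ → ℝ≥0∞ := fun k y => if b ((k : ℝ) - 8) < φ y then φ y else 0 with hφk
  have hφkm : ∀ k, Measurable (φk k) := fun k =>
    Measurable.ite (measurableSet_lt measurable_const hφ) hφ measurable_const
  have hSk : ∀ k : ℤ, volume {x | b k < F x} * b ((k : ℝ) - 6) ≤ 100 * ∫⁻ y, φk k y := by
    intro k
    refine le_trans (mul_le_mul_left (measure_mono ?_) _) (weak (ψ := φk k) (b_ne_zero _) (b_ne_top _))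
    intro x hx
    by_contra hc
    simp only [mem_ofPred_eq, not_exists, not_lt] at hc
    have hball : ∀ n : ℤ, ∫⁻ y in closedBall x ((2 : ℝ) ^ n), φ y ≤
        b ((k : ℝ) - 5) * (ENNReal.ofReal ((2 : ℝ) ^ n)) ^ 2 := by
      intro n
      have h1 : ∀ y, φ y ≤ φk k y + b ((k : ℝ) - 8) := by
        intro y
        simp only [hφk]
        split_ifs with h
        · exact le_self_add
        · rw [zero_add]; exact not_lt.mp h
      calc ∫⁻ y in closedBall x ((2 : ℝ) ^ n), φ y
          ≤ ∫⁻ y in closedBall x ((2 : ℝ) ^ n), (φk k y + b ((k : ℝ) - 8)) := lintegral_mono h1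
        _ = (∫⁻ y in closedBall x ((2 : ℝ) ^ n), φk k y) +
            b ((k : ℝ) - 8) * volume (closedBall x ((2 : ℝ) ^ n)) := by
            rw [lintegral_add_left (hφkm k), setLIntegral_const]
        _ ≤ b ((k : ℝ) - 6) * (ENNReal.ofReal ((2 : ℝ) ^ n)) ^ 2 +
            b ((k : ℝ) - 8) * ((ENNReal.ofReal ((2 : ℝ) ^ n)) ^ 2 * 4) := by
            refine add_le_add (hc n) ?_
            rw [Complex.volume_closedBall]
            exact mul_le_mul_right (mul_le_mul_right pi_le _) _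
        _ = b ((k : ℝ) - 5) * (ENNReal.ofReal ((2 : ℝ) ^ n)) ^ 2 := by
            have e6 : b ((k : ℝ) - 6) = 4 * b ((k : ℝ) - 8) := by
              have : (k : ℝ) - 6 = 2 + ((k : ℝ) - 8) := by ring
              rw [this, b_add]
              have h4 : b 2 = 4 := by
                unfold b
                have : (2 : ℝ≥0∞) ^ (2 : ℝ) = (2 : ℝ≥0∞) ^ (2 : ℕ) := by
                  rw [← ENNReal.rpow_natCast]; norm_num
                rw [this]; norm_num
              rw [h4]
            have e5 : b ((k : ℝ) - 5) = 2 * b ((k : ℝ) - 6) := by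
              have : (k : ℝ) - 5 = 1 + ((k : ℝ) - 6) := by ring
              rw [this, b_add]
              have h4 : b 1 = 2 := by
                unfold b; exact ENNReal.rpow_one _
              rw [h4]
            rw [e5, e6]; ring
    have hle : F x ≤ b k := by
      refine iSup_le fun a => ?_
      refine (avg_le hφ x _ hball a).trans (le_of_eq ?_)
      have : (k : ℝ) = 5 + ((k : ℝ) - 5) := by ring
      conv_rhs => rw [this, b_add]
      congr 1
      unfold b
      have h5 : (2 : ℝ≥0∞) ^ (5 : ℝ) = (2 : ℝ≥0∞) ^ (5 : ℕ) := by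
        rw [← ENNReal.rpow_natCast]; norm_num
      rw [h5]; norm_num
    exact absurd hx (not_lt.mpr hle)
  calc ∫⁻ x, F x ^ p ≤ ∫⁻ x, ∑' k : ℤ, {x | b k < F x}.indicator (fun _ => b ((k + 1) * p)) x := by
        refine lintegral_mono fun x => ?_
        refine (layer_le (F x) hp).trans (le_of_eq (tsum_congr fun k => ?_))
        rw [indicator_apply]
        rfl
    _ = ∑' k : ℤ, b ((k + 1) * p) * volume {x | b k < F x} := by
        rw [lintegral_tsum]
        · refine tsum_congr fun k => ?_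
          rw [lintegral_indicator (measurableSet_lt measurable_const hFm), setLIntegral_const]
        · exact fun k => (measurable_const.indicator
            (measurableSet_lt measurable_const hFm)).aemeasurable
    _ ≤ ∑' k : ℤ, 6400 * b p * (b (k * (p - 1)) * ∫⁻ y, φk k y) := by
        refine ENNReal.tsum_le_tsum fun k => ?_
        have h1 : volume {x | b k < F x} ≤ b (6 - k) * (100 * ∫⁻ y, φk k y) := by
          have h2 : volume {x | b k < F x} = b (6 - k) * (volume {x | b k < F x} * b ((k : ℝ) - 6)) := by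
            rw [mul_comm (volume _), ← mul_assoc, ← b_add]
            have : (6 : ℝ) - k + (k - 6) = 0 := by ring
            rw [this]
            unfold b; simp
          rw [h2]
          exact mul_le_mul_right (hSk k) _
        refine (mul_le_mul_right h1 _).trans (le_of_eq ?_)
        have e : b (((k : ℝ) + 1) * p) * b (6 - k) = 64 * b p * b (k * (p - 1)) := by
          rw [← b_add]
          have : ((k : ℝ) + 1) * p + (6 - k) = 6 + (p + k * (p - 1)) := by ring
          rw [this, b_add, b_add]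
          have h6 : b 6 = 64 := by
            unfold b
            have : (2 : ℝ≥0∞) ^ (6 : ℝ) = (2 : ℝ≥0∞) ^ (6 : ℕ) := by
              rw [← ENNReal.rpow_natCast]; norm_num
            rw [this]; norm_num
          rw [h6]; ring
        rw [← mul_assoc, e]; ring
    _ = 6400 * b p * ∫⁻ y, φ y * ∑' k : ℤ, (if b ((k : ℝ) - 8) < φ y then b (k * (p - 1)) else 0) := by
        rw [ENNReal.tsum_mul_left]
        congr 1
        rw [← funext_iff.mpr fun (y : ℂ) => ENNReal.tsum_mul_left (a := φ y)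
          (f := fun k : ℤ => if b ((k : ℝ) - 8) < φ y then b (k * (p - 1)) else 0)]
        rw [lintegral_tsum]
        · refine tsum_congr fun k => ?_
          rw [← lintegral_const_mul _ (hφkm k)]
          refine lintegral_congr fun y => ?_
          simp only [hφk]
          split_ifs
          · ring
          · simp
        · refine fun k => (hφ.mul (Measurable.ite (measurableSet_lt measurable_const hφ)
            measurable_const measurable_const)).aemeasurable
    _ ≤ 6400 * b p * ∫⁻ y, φ y * (C0 * φ y ^ (p - 1)) := by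
        refine mul_le_mul_right (lintegral_mono fun y => mul_le_mul_right (hC0 (φ y)) _) _
    _ = (6400 * ((2 : ℝ≥0) ^ p) * C0 : ℝ≥0) * ∫⁻ y, φ y ^ p := by
        have e1 : ∀ y, φ y * (C0 * φ y ^ (p - 1)) = C0 * φ y ^ p := by
          intro y
          have : φ y ^ p = φ y * φ y ^ (p - 1) := by
            have h2 : p = 1 + (p - 1) := by ring
            conv_lhs => rw [h2]
            rw [ENNReal.rpow_add_of_nonneg _ _ zero_le_one hq.le, ENNReal.rpow_one]
          rw [this]; ring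
        simp only [e1]
        rw [lintegral_const_mul _ (hφ.pow_const _)]
        rw [← mul_assoc]
        congr 1
        push_cast
        have : b p = (((2 : ℝ≥0) ^ p : ℝ≥0) : ℝ≥0∞) := by
          unfold b
          rw [ENNReal.coe_rpow_of_ne_zero two_ne_zero]
          norm_num
        rw [this]

end Pool.Agent.Lib.MP_dd244f_an.Even
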