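import Pool.Agent.Lib.MP_dd244f_an.Even.Stmts
import Pool.Agent.Lib.MP_dd244f_an.Four.L2
import Pool.Agent.Lib.MP_dd244f_an.Four.HLP
import Pool.Agent.Lib.MP_dd244f_an.Four.Riesz
import Mathlib.Analysis.LConvolution

/-!
Full operator, even `p = 2 (k + 1)`: the sharp Hardy-Littlewood-Paley inequality in the plane.
-/

set_option autoImplicit false

namespace Pool.Agent.Lib.MP_dd244f_an.Even

open MeasureTheory Filter Topology
open Pool.Agent.Lib.MP_dd244f_an.Four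
open Pool.Agent.Lib.MP_dd244f_an.Four.HLPx (lint_sq ae_ne)
open scoped ENNReal Convolution

namespace HLPKx

/-! ### Iterated convolutions of nonnegative functions -/

/-- the convolution of `j + 1` copies of `f` -/
noncomputable def iter (f : ℂ → ℝ≥0∞) : ℕ → ℂ → ℝ≥0∞
  | 0 => f
  | j + 1 => f ⋆ₗ[volume] iter f j

lemma iter_succ (f : ℂ → ℝ≥0∞) (j : ℕ) : iter f (j + 1) = f ⋆ₗ[volume] iter f j := rfl

lemma iter_meas {f : ℂ → ℝ≥0∞} (hf : Measurable f) : ∀ j, Measurable (iter f j)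
  | 0 => hf
  | j + 1 => measurable_lconvolution volume hf (iter_meas hf j)

lemma iter_add {f : ℂ → ℝ≥0∞} (hf : Measurable f) (i j : ℕ) :
    iter f i ⋆ₗ[volume] iter f j = iter f (i + j + 1) := by
  induction i with
  | zero => rw [Nat.zero_add]; rfl
  | succ i ih =>
    rw [iter_succ, ← lconvolution_assoc hf (iter_meas hf i) (iter_meas hf j), ih]
    have : i + 1 + j + 1 = (i + j + 1) + 1 := by ring
    rw [this, iter_succ f (i + j + 1)]

lemma conv_mono {f f' g g' : ℂ → ℝ≥0∞} (hf : ∀ x, f x ≤ f' x) (hg : ∀ x, g x ≤ g' x) (x : ℂ) :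
    (f ⋆ₗ[volume] g) x ≤ (f' ⋆ₗ[volume] g') x := by
  rw [lconvolution_def, lconvolution_def]
  exact lintegral_mono fun y => mul_le_mul' (hf _) (hg _)

lemma conv_even {f g : ℂ → ℝ≥0∞} (hf : ∀ x, f (-x) = f x) (hg : ∀ x, g (-x) = g x) (x : ℂ) :
    (f ⋆ₗ[volume] g) (-x) = (f ⋆ₗ[volume] g) x := by
  rw [lconvolution_def, lconvolution_def, ← lintegral_neg_eq_self]
  congr 1
  ext y
  rw [hf, ← hg (- -y + -x)]
  congr 2
  ring

lemma iter_even {f : ℂ → ℝ≥0∞} (hf : ∀ x, f (-x) = f x) : ∀ j x, iter f j (-x) = iter f j x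
  | 0 => hf
  | j + 1 => conv_even hf (iter_even hf j)

lemma meas_sub (η : ℂ) : Measurable (fun ζ : ℂ => -ζ + η) := measurable_neg.add_const η

/-! ### Cauchy-Schwarz -/

lemma cs_iter {f g : ℂ → ℝ≥0∞} (hf : Measurable f) (hg : Measurable g) : ∀ j η,
    iter (fun ζ => f ζ * g ζ) j η ^ 2 ≤
      iter (fun ζ => f ζ ^ 2) j η * iter (fun ζ => g ζ ^ 2) j η := by
  intro j
  induction j with
  | zero =>
    intro η
    show (f η * g η) ^ 2 ≤ f η ^ 2 * g η ^ 2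
    rw [mul_pow]
  | succ j ih =>
    intro η
    have hA := iter_meas (hf.pow_const 2) j
    have hB := iter_meas (hg.pow_const 2) j
    set A := iter (fun ζ => f ζ ^ 2) j with hAd
    set B := iter (fun ζ => g ζ ^ 2) j with hBd
    set C := iter (fun ζ => f ζ * g ζ) j with hCd
    have e : ∀ x : ℝ≥0∞, (x ^ (2 : ℕ)) ^ (1 / 2 : ℝ) = x := by
      intro x
      rw [← ENNReal.rpow_natCast, ← ENNReal.rpow_mul]
      norm_num
    have e' : ∀ x : ℝ≥0∞, (x ^ (1 / 2 : ℝ)) ^ (2 : ℕ) = x := by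
      intro x
      rw [← ENNReal.rpow_natCast, ← ENNReal.rpow_mul]
      norm_num
    have hC : ∀ x, C x ≤ A x ^ (1 / 2 : ℝ) * B x ^ (1 / 2 : ℝ) := by
      intro x
      rw [← ENNReal.mul_rpow_of_nonneg _ _ (by norm_num : (0 : ℝ) ≤ 1 / 2), ← e (C x)]
      exact ENNReal.rpow_le_rpow (ih x) (by norm_num)
    have h1 : iter (fun ζ => f ζ * g ζ) (j + 1) η ≤
        ∫⁻ ζ, (f ζ * A (-ζ + η) ^ (1 / 2 : ℝ)) * (g ζ * B (-ζ + η) ^ (1 / 2 : ℝ)) := by
      rw [iter_succ, lconvolution_def]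
      refine lintegral_mono fun ζ => ?_
      calc f ζ * g ζ * C (-ζ + η)
          ≤ f ζ * g ζ * (A (-ζ + η) ^ (1 / 2 : ℝ) * B (-ζ + η) ^ (1 / 2 : ℝ)) :=
            mul_le_mul' le_rfl (hC _)
        _ = _ := by ring
    refine (pow_le_pow_left' h1 2).trans ((HLPx.cs ?_ ?_).trans (le_of_eq ?_))
    · exact (hf.mul ((hA.comp (meas_sub η)).pow_const _)).aemeasurable
    · exact (hg.mul ((hB.comp (meas_sub η)).pow_const _)).aemeasurable
    · rw [iter_succ, iter_succ, lconvolution_def, lconvolution_def]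
      congr 1
      · refine lintegral_congr fun ζ => ?_
        rw [mul_pow, e']
      · refine lintegral_congr fun ζ => ?_
        rw [mul_pow, e']

/-! ### Arithmetic and geometric means -/

lemma young_nn (x y : NNReal) (m : ℕ) :
    ((m : NNReal) + 1) * (x * y ^ m) ≤ x ^ (m + 1) + m * y ^ (m + 1) := by
  induction m with
  | zero => simp
  | succ m ih =>
    have h1 : y * x ^ (m + 1) + x * y ^ (m + 1) ≤ x ^ (m + 2) + y ^ (m + 2) := by
      rcases le_total x y with h | h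
      · have h2 : x ^ (m + 1) ≤ y ^ (m + 1) := pow_le_pow_left' h _
        obtain ⟨a, rfl⟩ := exists_add_of_le h
        obtain ⟨b, hb⟩ := exists_add_of_le h2
        have e1 : (x + a) ^ (m + 2) = (x + a) * (x + a) ^ (m + 1) := by ring
        rw [e1, hb]
        have e2 : x ^ (m + 2) + (x + a) * (x ^ (m + 1) + b) =
            ((x + a) * x ^ (m + 1) + x * (x ^ (m + 1) + b)) + a * b := by ring
        rw [e2]
        exact le_self_add
      · have h2 : y ^ (m + 1) ≤ x ^ (m + 1) := pow_le_pow_left' h _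
        obtain ⟨a, rfl⟩ := exists_add_of_le h
        obtain ⟨b, hb⟩ := exists_add_of_le h2
        have e1 : (y + a) ^ (m + 2) = (y + a) * (y + a) ^ (m + 1) := by ring
        rw [e1, hb]
        have e2 : (y + a) * (y ^ (m + 1) + b) + y ^ (m + 2) =
            (y * (y ^ (m + 1) + b) + (y + a) * y ^ (m + 1)) + a * b := by ring
        rw [e2]
        exact le_self_add
    have h3 : (((m + 1 : ℕ) : NNReal) + 1) * (x * y ^ (m + 1)) =
        y * (((m : NNReal) + 1) * (x * y ^ m)) + x * y ^ (m + 1) := by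
      push_cast
      ring
    rw [h3]
    calc y * (((m : NNReal) + 1) * (x * y ^ m)) + x * y ^ (m + 1)
        ≤ y * (x ^ (m + 1) + m * y ^ (m + 1)) + x * y ^ (m + 1) := by gcongr
      _ = (y * x ^ (m + 1) + x * y ^ (m + 1)) + m * y ^ (m + 2) := by ring
      _ ≤ (x ^ (m + 2) + y ^ (m + 2)) + m * y ^ (m + 2) := by gcongr
      _ = x ^ (m + 1 + 1) + ((m + 1 : ℕ) : NNReal) * y ^ (m + 1 + 1) := by
        push_cast
        ring

lemma young_en (x y : ℝ≥0∞) {m : ℕ} (hm : 1 ≤ m) :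
    ((m : ℝ≥0∞) + 1) * (x * y ^ m) ≤ x ^ (m + 1) + m * y ^ (m + 1) := by
  by_cases hx : x = ∞
  · rw [hx, ENNReal.top_pow (Nat.succ_ne_zero m), top_add]
    exact le_top
  by_cases hy : y = ∞
  · have h1 : (m : ℝ≥0∞) ≠ 0 := by
      exact_mod_cast (by omega : m ≠ 0)
    rw [hy, ENNReal.top_pow (Nat.succ_ne_zero m), ENNReal.mul_top h1, add_top]
    exact le_top
  lift x to NNReal using hx
  lift y to NNReal using hy
  exact_mod_cast young_nn x y m

lemma young {φ w : ℂ → ℝ≥0∞} (hφ : Measurable φ) (hw : Measurable w) {m : ℕ} (hm : 1 ≤ m)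
    (θ : ℂ) :
    ((fun ζ => φ ζ * w ζ) ⋆ₗ[volume] fun ζ => φ ζ ^ m * w ζ) θ ≤
      ((fun ζ => φ ζ ^ (m + 1) * w ζ) ⋆ₗ[volume] w) θ := by
  have hs := meas_sub θ
  have h0 : ((m : ℝ≥0∞) + 1) ≠ 0 := by simp
  have h1 : ((m : ℝ≥0∞) + 1) ≠ ∞ := by
    exact_mod_cast ENNReal.natCast_ne_top (m + 1)
  rw [← ENNReal.mul_le_mul_iff_right h0 h1]
  have e1 : ((fun ζ => φ ζ ^ (m + 1) * w ζ) ⋆ₗ[volume] w) θ =
      ∫⁻ ζ, φ ζ ^ (m + 1) * w ζ * w (-ζ + θ) := rfl
  have e2 : ((fun ζ => φ ζ ^ (m + 1) * w ζ) ⋆ₗ[volume] w) θ =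
      ∫⁻ ζ, w ζ * (φ (-ζ + θ) ^ (m + 1) * w (-ζ + θ)) := by
    rw [lconvolution_comm]
    rfl
  have m1 : Measurable (fun ζ => φ ζ * w ζ * (φ (-ζ + θ) ^ m * w (-ζ + θ))) :=
    (hφ.mul hw).mul (((hφ.comp hs).pow_const m).mul (hw.comp hs))
  have m2 : Measurable (fun ζ => φ ζ ^ (m + 1) * w ζ * w (-ζ + θ)) :=
    ((hφ.pow_const _).mul hw).mul (hw.comp hs)
  have m3 : Measurable (fun ζ => w ζ * (φ (-ζ + θ) ^ (m + 1) * w (-ζ + θ))) :=
    hw.mul (((hφ.comp hs).pow_const _).mul (hw.comp hs))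
  calc ((m : ℝ≥0∞) + 1) * ((fun ζ => φ ζ * w ζ) ⋆ₗ[volume] fun ζ => φ ζ ^ m * w ζ) θ
      = ∫⁻ ζ, ((m : ℝ≥0∞) + 1) * (φ ζ * w ζ * (φ (-ζ + θ) ^ m * w (-ζ + θ))) := by
        rw [lconvolution_def, lintegral_const_mul _ m1]
    _ ≤ ∫⁻ ζ, (φ ζ ^ (m + 1) * w ζ * w (-ζ + θ) +
          m * (w ζ * (φ (-ζ + θ) ^ (m + 1) * w (-ζ + θ)))) := by
        refine lintegral_mono fun ζ => ?_
        have := mul_le_mul' (young_en (φ ζ) (φ (-ζ + θ)) hm) (le_refl (w ζ * w (-ζ + θ)))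
        refine le_trans (le_of_eq ?_) (this.trans (le_of_eq ?_)) <;> ring
    _ = ((m : ℝ≥0∞) + 1) * ((fun ζ => φ ζ ^ (m + 1) * w ζ) ⋆ₗ[volume] w) θ := by
        rw [lintegral_add_left m2, lintegral_const_mul _ m3, ← e2, ← e1]
        ring

lemma iter_young {φ w : ℂ → ℝ≥0∞} (hφ : Measurable φ) (hw : Measurable w) : ∀ j η,
    iter (fun ζ => φ ζ * w ζ) (j + 1) η ≤
      ((fun ζ => φ ζ ^ (j + 2) * w ζ) ⋆ₗ[volume] iter w j) η := by
  intro j
  induction j with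
  | zero =>
    intro η
    have := young hφ hw le_rfl η
    rw [iter_succ]
    refine le_trans (le_of_eq ?_) this
    show ((fun ζ => φ ζ * w ζ) ⋆ₗ[volume] (fun ζ => φ ζ * w ζ)) η = _
    simp only [pow_one]
  | succ j ih =>
    intro η
    have hφw : Measurable (fun ζ => φ ζ * w ζ) := hφ.mul hw
    have h2 : Measurable (fun ζ => φ ζ ^ (j + 2) * w ζ) := (hφ.pow_const _).mul hw
    have h3 : Measurable (fun ζ => φ ζ ^ (j + 1 + 2) * w ζ) := (hφ.pow_const _).mul hw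
    rw [iter_succ]
    calc ((fun ζ => φ ζ * w ζ) ⋆ₗ[volume] iter (fun ζ => φ ζ * w ζ) (j + 1)) η
        ≤ ((fun ζ => φ ζ * w ζ) ⋆ₗ[volume]
            ((fun ζ => φ ζ ^ (j + 2) * w ζ) ⋆ₗ[volume] iter w j)) η :=
          conv_mono (fun _ => le_rfl) ih η
      _ = (((fun ζ => φ ζ * w ζ) ⋆ₗ[volume] (fun ζ => φ ζ ^ (j + 2) * w ζ)) ⋆ₗ[volume]
            iter w j) η := by
          rw [lconvolution_assoc hφw h2 (iter_meas hw j)]
      _ ≤ (((fun ζ => φ ζ ^ (j + 1 + 2) * w ζ) ⋆ₗ[volume] w) ⋆ₗ[volume] iter w j) η :=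
          conv_mono (fun θ => young hφ hw (by omega) θ) (fun _ => le_rfl) η
      _ = ((fun ζ => φ ζ ^ (j + 1 + 2) * w ζ) ⋆ₗ[volume] iter w (j + 1)) η := by
          rw [← lconvolution_assoc h3 hw (iter_meas hw j), iter_succ]

lemma step3 {φ w : ℂ → ℝ≥0∞} (hφ : Measurable φ) (hw : Measurable w)
    (hev : ∀ ζ, w (-ζ) = w ζ) {k : ℕ} (hk : 1 ≤ k) :
    ∫⁻ η, iter w k η * iter (fun ζ => φ ζ * w ζ) k η ≤
      ∫⁻ ζ, φ ζ ^ (k + 1) * w ζ * iter w (2 * k) ζ := by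
  obtain ⟨j, rfl⟩ : ∃ j, k = j + 1 := ⟨k - 1, by omega⟩
  set F : ℂ → ℝ≥0∞ := fun ζ => φ ζ ^ (j + 2) * w ζ with hF
  set W := iter w (j + 1) with hW
  set H := iter w j with hH
  have hFm : Measurable F := (hφ.pow_const _).mul hw
  have hWm : Measurable W := iter_meas hw _
  have hHm : Measurable H := iter_meas hw _
  have hHe : ∀ ζ, H (-ζ) = H ζ := iter_even hev j
  have hWH : W ⋆ₗ[volume] H = iter w (2 * (j + 1)) := by
    rw [hW, hH, iter_add hw]
    congr 1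
    ring
  have hadd : Measurable (fun z : ℂ × ℂ => -z.2 + z.1) := measurable_snd.neg.add measurable_fst
  have hm : Measurable (fun z : ℂ × ℂ => W z.1 * (F z.2 * H (-z.2 + z.1))) :=
    (hWm.comp measurable_fst).mul ((hFm.comp measurable_snd).mul (hHm.comp hadd))
  calc ∫⁻ η, W η * iter (fun ζ => φ ζ * w ζ) (j + 1) η
      ≤ ∫⁻ η, W η * (F ⋆ₗ[volume] H) η :=
        lintegral_mono fun η => mul_le_mul' le_rfl (iter_young hφ hw j η)
    _ = ∫⁻ η, ∫⁻ ζ, W η * (F ζ * H (-ζ + η)) := by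
        refine lintegral_congr fun η => ?_
        rw [lconvolution_def, lintegral_const_mul]
        exact hFm.mul (hHm.comp (meas_sub η))
    _ = ∫⁻ ζ, ∫⁻ η, W η * (F ζ * H (-ζ + η)) := lintegral_lintegral_swap hm.aemeasurable
    _ = ∫⁻ ζ, F ζ * (W ⋆ₗ[volume] H) ζ := by
        refine lintegral_congr fun ζ => ?_
        rw [lconvolution_def, ← lintegral_const_mul]
        · refine lintegral_congr fun η => ?_
          rw [← hHe (-ζ + η)]
          have : -(-ζ + η) = -η + ζ := by ring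
          rw [this]
          ring
        · exact hWm.mul (hHm.comp (meas_sub ζ))
    _ = _ := by rw [hWH]

/-! ### Power weights -/

/-- the weight `|ζ|^s`, with the value `1` at `0` -/
noncomputable def pq (s : ℝ) (ζ : ℂ) : ℝ≥0∞ := if ζ = 0 then 1 else ENNReal.ofReal (‖ζ‖ ^ s)

lemma pq_meas (s : ℝ) : Measurable (pq s) := by
  unfold pq
  refine Measurable.ite (measurableSet_singleton 0) measurable_const ?_
  fun_prop

lemma pq_mul (s t : ℝ) (ζ : ℂ) : pq s ζ * pq t ζ = pq (s + t) ζ := by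
  unfold pq
  split_ifs with h
  · rw [one_mul]
  · rw [← ENNReal.ofReal_mul (by positivity), ← Real.rpow_add (norm_pos_iff.2 h)]

lemma pq_zero (ζ : ℂ) : pq 0 ζ = 1 := by
  unfold pq
  split_ifs with h
  · rfl
  · rw [Real.rpow_zero, ENNReal.ofReal_one]

lemma pq_pow (s : ℝ) (n : ℕ) (ζ : ℂ) : pq s ζ ^ n = pq (n * s) ζ := by
  induction n with
  | zero => rw [pow_zero, Nat.cast_zero, zero_mul, pq_zero]
  | succ n ih =>
    rw [pow_succ, ih, pq_mul]
    congr 1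
    push_cast
    ring

lemma pq_neg (s : ℝ) (ζ : ℂ) : pq s (-ζ) = pq s ζ := by
  unfold pq
  simp

lemma pq_of_ne {s : ℝ} {ζ : ℂ} (h : ζ ≠ 0) : pq s ζ = ENNReal.ofReal (‖ζ‖ ^ s) := by
  unfold pq
  rw [if_neg h]

lemma riesz_pq {α β : ℝ} (hα : 0 < α) (hβ : 0 < β) (hα1 : α < 1) (hβ1 : β < 1)
    (hαβ : 1 < α + β) {η : ℂ} (hη : η ≠ 0) :
    ∫⁻ ζ, pq (-(2 * α)) ζ * pq (-(2 * β)) (-ζ + η) =
      ENNReal.ofReal (Real.pi * Real.Gamma (α + β - 1) * (Real.Gamma (1 - α) * Real.Gamma (1 - β))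
        / (Real.Gamma α * Real.Gamma β * Real.Gamma (2 - α - β))) *
        pq (-(2 * (α + β - 1))) η := by
  have hΓα := Real.Gamma_pos_of_pos hα
  have hΓβ := Real.Gamma_pos_of_pos hβ
  have hΓγ : 0 < Real.Gamma (2 - α - β) := Real.Gamma_pos_of_pos (by linarith)
  have hΓδ : 0 < Real.Gamma (α + β - 1) := Real.Gamma_pos_of_pos (by linarith)
  have hΓ1 : 0 < Real.Gamma (1 - α) := Real.Gamma_pos_of_pos (by linarith)
  have hΓ2 : 0 < Real.Gamma (1 - β) := Real.Gamma_pos_of_pos (by linarith)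
  have hK : 0 < Real.Gamma α * Real.Gamma β * Real.Gamma (2 - α - β) := by positivity
  have hn : 0 < ‖η‖ := norm_pos_iff.mpr hη
  have h := riesz_gen hα hβ hα1 hβ1 hαβ hη
  have e1 : ∫⁻ ζ, pq (-(2 * α)) ζ * pq (-(2 * β)) (-ζ + η) =
      ∫⁻ ζ : ℂ, ENNReal.ofReal (‖ζ‖ ^ (-(2 * α)) * ‖η - ζ‖ ^ (-(2 * β))) := by
    apply lintegral_congr_ae
    filter_upwards [ae_ne 0, ae_ne η] with ζ h1 h2
    have h3 : -ζ + η ≠ 0 := by
      intro h4
      apply h2
      linear_combination -h4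
    rw [pq_of_ne h1, pq_of_ne h3, ENNReal.ofReal_mul (by positivity)]
    congr 4
    ring
  rw [e1, pq_of_ne hη]
  have e2 : (‖η‖ ^ 2) ^ (-(α + β - 1)) = ‖η‖ ^ (-(2 * (α + β - 1))) := by
    rw [← Real.rpow_natCast, ← Real.rpow_mul hn.le]
    congr 1
    push_cast
    ring
  have h5 : Real.pi * Real.Gamma (α + β - 1) * (‖η‖ ^ 2) ^ (-(α + β - 1)) *
      (Real.Gamma (1 - α) * Real.Gamma (1 - β))
      = (Real.Gamma α * Real.Gamma β * Real.Gamma (2 - α - β)) *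
        ((Real.pi * Real.Gamma (α + β - 1) * (Real.Gamma (1 - α) * Real.Gamma (1 - β))
        / (Real.Gamma α * Real.Gamma β * Real.Gamma (2 - α - β))) *
          ‖η‖ ^ (-(2 * (α + β - 1)))) := by
    rw [e2]
    field_simp
  rw [h5, ENNReal.ofReal_mul hK.le] at h
  have h6 := (ENNReal.mul_right_inj (by simpa using hK) ENNReal.ofReal_ne_top).mp h
  rw [h6, ENNReal.ofReal_mul (by positivity)]

/-- `Γ(i/2K)/Γ(1-i/2K)` -/
noncomputable def gg (K : ℝ) (i : ℝ) : ℝ := Real.Gamma (i / (2 * K)) / Real.Gamma (1 - i / (2 * K))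

lemma iter_w {k : ℕ} (hk : 1 ≤ k) : ∀ j, j ≤ 2 * k → ∀ η : ℂ, η ≠ 0 →
    iter (pq (-(2 - 1 / ((k : ℝ) + 1)))) j η =
      ENNReal.ofReal (Real.pi ^ j * gg (k + 1) 1 ^ (j + 1) / gg (k + 1) (j + 1)) *
        pq (-(2 - ((j : ℝ) + 1) / ((k : ℝ) + 1))) η := by
  intro j
  have hk1 : (1 : ℝ) ≤ k := by exact_mod_cast hk
  have hK : (0 : ℝ) < (k : ℝ) + 1 := by positivity
  have hg : ∀ i : ℝ, 0 < i → i < 2 * ((k : ℝ) + 1) → 0 < gg (k + 1) i := by
    intro i h1 h2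
    unfold gg
    have h3 : i / (2 * ((k : ℝ) + 1)) < 1 := by
      rw [div_lt_one (by positivity)]
      exact h2
    exact div_pos (Real.Gamma_pos_of_pos (by positivity)) (Real.Gamma_pos_of_pos (by linarith))
  induction j with
  | zero =>
    intro _ η hη
    show pq (-(2 - 1 / ((k : ℝ) + 1))) η = _
    have h1 := hg 1 one_pos (by linarith)
    rw [pow_zero, zero_add, pow_one, one_mul, Nat.cast_zero, zero_add, div_self h1.ne',
      ENNReal.ofReal_one, one_mul]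
  | succ j ih =>
    intro hj η hη
    have hjr : (j : ℝ) + 1 ≤ 2 * k := by exact_mod_cast hj
    have ih := ih (by omega)
    rw [iter_succ, lconvolution_def]
    set cj : ℝ := Real.pi ^ j * gg (k + 1) 1 ^ (j + 1) / gg (k + 1) (j + 1) with hcj
    have g1 := hg 1 one_pos (by linarith)
    have g2 := hg (j + 1) (by positivity) (by linarith)
    have g3 := hg (j + 1 + 1) (by positivity) (by linarith)
    have hcj0 : 0 < cj := by positivity
    set α : ℝ := 1 - 1 / (2 * ((k : ℝ) + 1)) with hα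
    set β : ℝ := 1 - ((j : ℝ) + 1) / (2 * ((k : ℝ) + 1)) with hβ
    have q1 : 1 / (2 * ((k : ℝ) + 1)) < 1 := by
      rw [div_lt_one (by positivity)]
      linarith
    have q2 : ((j : ℝ) + 1) / (2 * ((k : ℝ) + 1)) < 1 := by
      rw [div_lt_one (by positivity)]
      linarith
    have q3 : ((j : ℝ) + 1 + 1) / (2 * ((k : ℝ) + 1)) < 1 := by
      rw [div_lt_one (by positivity)]
      linarith
    have q4 : 0 < 1 / (2 * ((k : ℝ) + 1)) := by positivity
    have q5 : 0 < ((j : ℝ) + 1) / (2 * ((k : ℝ) + 1)) := by positivity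
    have q6 : ((j : ℝ) + 1 + 1) / (2 * ((k : ℝ) + 1)) =
        ((j : ℝ) + 1) / (2 * ((k : ℝ) + 1)) + 1 / (2 * ((k : ℝ) + 1)) := by ring
    have r1 : α + β - 1 = 1 - ((j : ℝ) + 1 + 1) / (2 * ((k : ℝ) + 1)) := by
      rw [hα, hβ, q6]
      ring
    have hR := riesz_pq (α := α) (β := β) (by linarith) (by linarith) (by linarith) (by linarith)
      (by linarith) hη
    have s1 : -(2 * α) = -(2 - 1 / ((k : ℝ) + 1)) := by
      rw [hα]
      field_simp
    have s2 : -(2 * β) = -(2 - ((j : ℝ) + 1) / ((k : ℝ) + 1)) := by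
      rw [hβ]
      field_simp
    have s3 : -(2 * (α + β - 1)) = -(2 - (((j + 1 : ℕ) : ℝ) + 1) / ((k : ℝ) + 1)) := by
      rw [r1]
      push_cast
      field_simp
    rw [s1, s2, s3] at hR
    have e1 : ∫⁻ ζ, pq (-(2 - 1 / ((k : ℝ) + 1))) ζ *
        iter (pq (-(2 - 1 / ((k : ℝ) + 1)))) j (-ζ + η) =
        ENNReal.ofReal cj * ∫⁻ ζ, pq (-(2 - 1 / ((k : ℝ) + 1))) ζ *
          pq (-(2 - ((j : ℝ) + 1) / ((k : ℝ) + 1))) (-ζ + η) := by
      rw [← lintegral_const_mul]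
      · apply lintegral_congr_ae
        filter_upwards [ae_ne η] with ζ h2
        have h3 : -ζ + η ≠ 0 := by
          intro h4
          apply h2
          linear_combination -h4
        rw [ih _ h3]
        ring
      · exact (pq_meas _).mul ((pq_meas _).comp (meas_sub η))
    rw [e1, hR, ← mul_assoc, ← ENNReal.ofReal_mul hcj0.le]
    congr 2
    have t1 : 1 - α = 1 / (2 * ((k : ℝ) + 1)) := by rw [hα]; ring
    have t2 : 1 - β = ((j : ℝ) + 1) / (2 * ((k : ℝ) + 1)) := by rw [hβ]; ring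
    have t3 : 2 - α - β = ((j : ℝ) + 1 + 1) / (2 * ((k : ℝ) + 1)) := by
      rw [hα, hβ, q6]
      ring
    rw [t1, t2, t3, r1]
    have f1 : gg (k + 1) 1 = Real.Gamma (1 / (2 * ((k : ℝ) + 1))) / Real.Gamma α := rfl
    have f2 : gg (k + 1) (j + 1) =
      Real.Gamma (((j : ℝ) + 1) / (2 * ((k : ℝ) + 1))) / Real.Gamma β := rfl
    have f3 : gg (k + 1) (((j + 1 : ℕ) : ℝ) + 1) =
      Real.Gamma (((j : ℝ) + 1 + 1) / (2 * ((k : ℝ) + 1))) /
        Real.Gamma (1 - ((j : ℝ) + 1 + 1) / (2 * ((k : ℝ) + 1))) := by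
      unfold gg
      push_cast
      rfl
    have p1 : 0 < Real.Gamma (1 / (2 * ((k : ℝ) + 1))) := Real.Gamma_pos_of_pos q4
    have p2 : 0 < Real.Gamma (((j : ℝ) + 1) / (2 * ((k : ℝ) + 1))) := Real.Gamma_pos_of_pos q5
    have p3 : 0 < Real.Gamma (((j : ℝ) + 1 + 1) / (2 * ((k : ℝ) + 1))) :=
      Real.Gamma_pos_of_pos (by positivity)
    have p4 : 0 < Real.Gamma α := Real.Gamma_pos_of_pos (by linarith)
    have p5 : 0 < Real.Gamma β := Real.Gamma_pos_of_pos (by linarith)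
    have p6 : 0 < Real.Gamma (1 - ((j : ℝ) + 1 + 1) / (2 * ((k : ℝ) + 1))) :=
      Real.Gamma_pos_of_pos (by linarith)
    rw [hcj, f3, f2, pow_succ (gg (k + 1) 1) (j + 1), f1, pow_succ Real.pi j]
    field_simp

lemma iter_w_top {k : ℕ} (hk : 1 ≤ k) {η : ℂ} (hη : η ≠ 0) :
    iter (pq (-(2 - 1 / ((k : ℝ) + 1)))) (2 * k) η =
      ENNReal.ofReal (CH k) * pq (-(1 / ((k : ℝ) + 1))) η := by
  rw [iter_w hk _ le_rfl η hη]
  have hk1 : (1 : ℝ) ≤ k := by exact_mod_cast hk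
  have hK : (0 : ℝ) < (k : ℝ) + 1 := by positivity
  have q1 : 1 / (2 * ((k : ℝ) + 1)) < 1 := by
    rw [div_lt_one (by positivity)]
    linarith
  have p1 : 0 < Real.Gamma (1 / (2 * ((k : ℝ) + 1))) := Real.Gamma_pos_of_pos (by positivity)
  have p2 : 0 < Real.Gamma (1 - 1 / (2 * ((k : ℝ) + 1))) := Real.Gamma_pos_of_pos (by linarith)
  have e1 : (((2 * k : ℕ) : ℝ) + 1) / (2 * ((k : ℝ) + 1)) = 1 - 1 / (2 * ((k : ℝ) + 1)) := by
    push_cast
    field_simp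
    ring
  have e2 : gg (k + 1) (((2 * k : ℕ) : ℝ) + 1) = (gamK k)⁻¹ := by
    unfold gg gamK
    rw [e1, sub_sub_cancel, inv_div]
  have e3 : gg (k + 1) 1 = gamK k := rfl
  have e4 : -(2 - (((2 * k : ℕ) : ℝ) + 1) / ((k : ℝ) + 1)) = -(1 / ((k : ℝ) + 1)) := by
    push_cast
    field_simp
    ring
  rw [e2, e3, e4]
  congr 2
  unfold CH
  rw [div_inv_eq_mul]
  ring

/-! ### Step 1 -/

/-- the iterated convolution of a function -/
noncomputable def hc (h : ℂ → ℂ) : ℕ → ℂ → ℂ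
  | 0 => h
  | j + 1 => h ⋆[ContinuousLinearMap.mul ℂ ℂ, volume] hc h j

lemma hc_int {h : ℂ → ℂ} (hh : Integrable h) : ∀ j, Integrable (hc h j)
  | 0 => hh
  | j + 1 => hh.integrable_convolution (ContinuousLinearMap.mul ℂ ℂ) (hc_int hh j)

lemma iF_hc {h : ℂ → ℂ} (hh : Integrable h) (x : ℂ) : ∀ j, iF (hc h j) x = iF h x ^ (j + 1)
  | 0 => by rw [zero_add, pow_one]; rfl
  | j + 1 => by
    have e : iF (hc h (j + 1)) x = iF h x * iF (hc h j) x := by
      rw [iF_eq, iF_eq, iF_eq]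
      exact Real.fourier_mul_convolution_eq hh (hc_int hh j) (-x)
    rw [e, iF_hc hh x j]
    ring

lemma hc_le (h : ℂ → ℂ) : ∀ j η, ‖hc h j η‖ₑ ≤ iter (fun ζ => ‖h ζ‖ₑ) j η := by
  intro j
  induction j with
  | zero => exact fun η => le_rfl
  | succ j ih =>
    intro η
    show ‖(h ⋆[ContinuousLinearMap.mul ℂ ℂ, volume] hc h j) η‖ₑ ≤ _
    rw [convolution_def, iter_succ, lconvolution_def]
    refine (enorm_integral_le_lintegral_enorm _).trans (lintegral_mono fun t => ?_)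
    rw [ContinuousLinearMap.mul_apply', enorm_mul]
    have : -t + η = η - t := by ring
    rw [this]
    exact mul_le_mul' le_rfl (ih _)

lemma step1 (hL : StmtL2) {h : ℂ → ℂ} (hh : Integrable h) (k : ℕ) :
    ∫⁻ x, ‖iF h x‖ₑ ^ (2 * k + 2) ≤ ∫⁻ η, iter (fun ζ => ‖h ζ‖ₑ) k η ^ 2 := by
  have hki := hc_int hh k
  by_cases hfin : ∫⁻ η, iter (fun ζ => ‖h ζ‖ₑ) k η ^ 2 = ∞
  · rw [hfin]
    exact le_top
  have h1 : ∫⁻ η, ‖hc h k η‖ₑ ^ 2 ≤ ∫⁻ η, iter (fun ζ => ‖h ζ‖ₑ) k η ^ 2 := by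
    apply lintegral_mono
    intro η
    exact pow_le_pow_left' (hc_le h k η) 2
  have hk2 : MemLp (hc h k) 2 volume := by
    refine ⟨hki.1, ?_⟩
    rw [eLpNorm_lt_top_iff_lintegral_rpow_enorm_lt_top two_ne_zero ENNReal.ofNat_ne_top]
    simp only [ENNReal.toReal_ofNat, ENNReal.rpow_ofNat]
    exact h1.trans_lt (lt_top_iff_ne_top.2 hfin)
  obtain ⟨h2, h3⟩ := hL _ hki hk2
  calc ∫⁻ x, ‖iF h x‖ₑ ^ (2 * k + 2) = ∫⁻ x, ‖iF (hc h k) x‖ₑ ^ 2 := by
        congr 1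
        ext x
        rw [iF_hc hh, enorm_pow, ← pow_mul]
        congr 1
        ring
    _ = ∫⁻ η, ‖hc h k η‖ₑ ^ 2 := by rw [lint_sq h2, h3, ← lint_sq hk2]
    _ ≤ _ := h1

lemma step2 {u : ℂ → ℝ≥0∞} (hu : Measurable u) {k : ℕ} (hk : 1 ≤ k) :
    ∫⁻ η, iter u k η ^ 2 ≤
      ENNReal.ofReal (CH k) * ∫⁻ ξ, u ξ ^ (2 * k + 2) * ‖ξ‖ₑ ^ (4 * k) := by
  have hk1 : (1 : ℝ) ≤ k := by exact_mod_cast hk
  have hK : (0 : ℝ) < (k : ℝ) + 1 := by positivity
  set a : ℝ := 2 - 1 / ((k : ℝ) + 1) with ha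
  set w : ℂ → ℝ≥0∞ := pq (-a) with hw
  set φ : ℂ → ℝ≥0∞ := fun ζ => u ζ ^ 2 * pq (2 * a) ζ with hφ
  have hwm : Measurable w := pq_meas _
  have hφm : Measurable φ := (hu.pow_const 2).mul (pq_meas _)
  have e0 : u = fun ζ => pq (-a / 2) ζ * (u ζ * pq (a / 2) ζ) := by
    ext ζ
    rw [mul_left_comm, pq_mul]
    have : -a / 2 + a / 2 = 0 := by ring
    rw [this, pq_zero, mul_one]
  have e1 : (fun ζ => pq (-a / 2) ζ ^ 2) = w := by
    ext ζ
    rw [pq_pow, hw]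
    congr 1
    push_cast
    ring
  have e2 : (fun ζ => (u ζ * pq (a / 2) ζ) ^ 2) = fun ζ => φ ζ * w ζ := by
    ext ζ
    simp only [hφ, hw]
    rw [mul_pow, pq_pow, mul_assoc, pq_mul]
    congr 2
    push_cast
    ring
  have h1 : ∀ η, iter u k η ^ 2 ≤ iter w k η * iter (fun ζ => φ ζ * w ζ) k η := by
    intro η
    have hgm : Measurable (fun ζ => u ζ * pq (a / 2) ζ) := hu.mul (pq_meas (a / 2))
    have := cs_iter (pq_meas (-a / 2)) hgm k η
    rw [← e0, e1, e2] at this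
    exact this
  calc ∫⁻ η, iter u k η ^ 2 ≤ ∫⁻ η, iter w k η * iter (fun ζ => φ ζ * w ζ) k η :=
        lintegral_mono h1
    _ ≤ ∫⁻ ζ, φ ζ ^ (k + 1) * w ζ * iter w (2 * k) ζ :=
        step3 hφm hwm (fun ζ => pq_neg _ ζ) hk
    _ = ∫⁻ ξ, ENNReal.ofReal (CH k) * (u ξ ^ (2 * k + 2) * ‖ξ‖ₑ ^ (4 * k)) := by
        apply lintegral_congr_ae
        filter_upwards [ae_ne 0] with ζ hζ
        rw [hw, ha, iter_w_top hk hζ]
        simp only [hφ]
        have e3 : pq (2 * a) ζ ^ (k + 1) * pq (-a) ζ * pq (-(1 / ((k : ℝ) + 1))) ζ =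
            ‖ζ‖ₑ ^ (4 * k) := by
          rw [pq_pow, pq_mul, pq_mul, pq_of_ne hζ]
          have : ((k + 1 : ℕ) : ℝ) * (2 * a) + -a + -(1 / ((k : ℝ) + 1)) =
              ((4 * k : ℕ) : ℝ) := by
            rw [ha]
            push_cast
            field_simp
            ring
          rw [this, Real.rpow_natCast, ENNReal.ofReal_pow (norm_nonneg _), ofReal_norm]
        rw [← e3, mul_pow, ← pow_mul, ← ha]
        have : 2 * (k + 1) = 2 * k + 2 := by ring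
        rw [this]
        ring
    _ = _ := by
        rw [lintegral_const_mul]
        exact (hu.pow_const _).mul (measurable_enorm.pow_const _)

end HLPKx

open HLPKx

/-- (HLPK) -/
theorem hlpK (hL : Four.StmtL2) : StmtHLPK := by
  intro k hk h hh
  obtain ⟨h', hm, hae⟩ := hh.1
  have hh' : Integrable h' := hh.congr hae
  have e1 : ∀ x, iF h x = iF h' x := by
    intro x
    unfold iF
    apply integral_congr_ae
    filter_upwards [hae] with ζ hζ
    rw [hζ]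
  have e2 : ∫⁻ ξ, ‖h ξ‖ₑ ^ (2 * k + 2) * ‖ξ‖ₑ ^ (4 * k) =
      ∫⁻ ξ, ‖h' ξ‖ₑ ^ (2 * k + 2) * ‖ξ‖ₑ ^ (4 * k) := by
    apply lintegral_congr_ae
    filter_upwards [hae] with ζ hζ
    rw [hζ]
  simp only [e1]
  rw [e2]
  exact (step1 hL hh' k).trans (step2 hm.enorm hk)

end Pool.Agent.Lib.MP_dd244f_an.Even
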