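import Pool.Agent.Lib.MP_dd244f_an.Even.Stmts

/-!
Full operator, even `p`: module (HoldK), the energy decreases under translations of the factors.
-/

set_option autoImplicit false

namespace Pool.Agent.Lib.MP_dd244f_an.Even

open MeasureTheory Filter Topology Finset
open Pool.Agent.Lib.MP_dd244f_an.Four

namespace HoldKAux

theorem cont_ch (y : ℂ) : Continuous (fun ζ : ℂ => ch y ζ) := by
  unfold ch
  fun_prop

theorem cc_mul {g w : ℂ → ℂ} (hg : CC g) (hw : Continuous w) : CC (fun ζ => w ζ * g ζ) :=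
  ⟨hw.mul hg.1, hg.2.mul_left⟩

/-- the arithmetic-geometric mean inequality -/
theorem amgm (k : ℕ) (t : ℕ → ℝ) (ht : ∀ j, 0 ≤ t j) :
    ∏ j ∈ Finset.range (k + 1), t j ≤
      1 / ((k : ℝ) + 1) * ∑ j ∈ Finset.range (k + 1), t j ^ (k + 1) := by
  have h := Real.geom_mean_le_arith_mean_weighted (Finset.range (k + 1))
    (fun _ => ((k + 1 : ℕ) : ℝ)⁻¹) (fun j => t j ^ (k + 1)) (fun _ _ => by positivity)
    (by
      rw [Finset.sum_const, Finset.card_range, nsmul_eq_mul]
      exact mul_inv_cancel₀ (by positivity)) (fun j _ => pow_nonneg (ht j) _)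
  rw [← Finset.mul_sum] at h
  refine le_trans (le_of_eq ?_) (h.trans (le_of_eq ?_))
  · refine Finset.prod_congr rfl fun j _ => ?_
    rw [Real.pow_rpow_inv_natCast (ht j) (by omega)]
  · rw [one_div]
    push_cast
    rfl

/-- integrability of all higher powers -/
theorem int_pow (hB : StmtBase) {G : ℂ → ℂ} (hG : CC G) (k : ℕ) :
    Integrable (fun x => ‖iF G x‖ ^ (2 * (k + 1))) := by
  obtain ⟨hc, ⟨B, hB'⟩, h2, -, -⟩ := hB.1 G hG
  refine (h2.const_mul (B ^ (2 * k))).mono' (by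
    have := hc.norm
    exact (this.pow _).aestronglyMeasurable) (Eventually.of_forall fun x => ?_)
  rw [Real.norm_eq_abs, abs_of_nonneg (by positivity)]
  have e : ‖iF G x‖ ^ (2 * (k + 1)) = ‖iF G x‖ ^ (2 * k) * ‖iF G x‖ ^ 2 := by
    rw [← pow_add]; congr 1
  rw [e]
  have := hB' x
  gcongr

end HoldKAux

open HoldKAux in
theorem holdK (hP : StmtPSK) (hB : Four.StmtBase) : StmtHoldK := by
  intro k σ g y ξ hg
  rw [← hP k σ (fun j ζ => ch (y j) ζ * g ζ) ξ (fun j _ => cc_mul hg (cont_ch (y j))),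
    ← hP k σ (fun _ => g) ξ (fun _ _ => hg)]
  set G : ℂ → ℂ := gs σ ξ g with hG
  have hGc : CC G := gs_cc hg
  have h4 := int_pow hB hGc k
  have hsh : ∀ w z, iF (gs σ ξ (fun ζ => ch w ζ * g ζ)) z = iF G (z + w) := by
    intro w z
    rw [← hB.2.2.1 G z w]
    congr 1
    funext ζ
    simp only [hG, gs]
    ring
  simp only [hsh]
  have i1 : ∀ w, Integrable (fun z => ‖iF G (z + w)‖ ^ (2 * (k + 1))) :=
    fun w => h4.comp_add_right w
  have hle : ∀ z, ∏ j ∈ Finset.range (k + 1), ‖iF G (z + y j)‖ ^ 2 ≤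
      1 / ((k : ℝ) + 1) * ∑ j ∈ Finset.range (k + 1), ‖iF G (z + y j)‖ ^ (2 * (k + 1)) := by
    intro z
    have := amgm k (fun j => ‖iF G (z + y j)‖ ^ 2) (fun j => by positivity)
    simpa only [← pow_mul] using this
  calc ∫ z, ∏ j ∈ Finset.range (k + 1), ‖iF G (z + y j)‖ ^ 2
      ≤ ∫ z, 1 / ((k : ℝ) + 1) * ∑ j ∈ Finset.range (k + 1),
          ‖iF G (z + y j)‖ ^ (2 * (k + 1)) := by
        refine integral_mono_of_nonneg (Eventually.of_forall fun z => by positivity)
          ((integrable_finsetSum _ fun j _ => i1 (y j)).const_mul _) (Eventually.of_forall hle)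
    _ = 1 / ((k : ℝ) + 1) * ∑ j ∈ Finset.range (k + 1),
          ∫ z, ‖iF G (z + y j)‖ ^ (2 * (k + 1)) := by
        rw [integral_const_mul, integral_finsetSum _ fun j _ => i1 (y j)]
    _ = ∫ z, ‖iF G z‖ ^ (2 * (k + 1)) := by
        have : ∀ j ∈ Finset.range (k + 1), ∫ z, ‖iF G (z + y j)‖ ^ (2 * (k + 1))
            = ∫ z, ‖iF G z‖ ^ (2 * (k + 1)) := fun j _ =>
          integral_add_right_eq_self (fun z => ‖iF G z‖ ^ (2 * (k + 1))) (y j)
        rw [Finset.sum_congr rfl this, Finset.sum_const, Finset.card_range, nsmul_eq_mul]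
        push_cast
        field_simp
    _ = ∫ z, ∏ j ∈ Finset.range (k + 1), ‖iF G z‖ ^ 2 := by
        congr 1
        ext z
        rw [Finset.prod_const, Finset.card_range, ← pow_mul]

end Pool.Agent.Lib.MP_dd244f_an.Even
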