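import Pool.Agent.Lib.MP_dd244f_an.Even.AvAux

/-!
Full operator, even `p`: module KKP (the averages are bounded in `L^K`).
-/

set_option autoImplicit false

namespace Pool.Agent.Lib.MP_dd244f_an.Even

open MeasureTheory Filter Topology
open Pool.Agent.Lib.MP_dd244f_an.Four
open scoped ENNReal NNReal

namespace KKPAux

open AvAux

/-- Jensen's inequality for powers -/
theorem jensen {μ : Measure ℂ} (f : ℂ → ℝ≥0∞) (hf : Measurable f) (k : ℕ) :
    (∫⁻ y, f y ∂μ) ^ (k + 1) ≤ μ Set.univ ^ k * ∫⁻ y, f y ^ (k + 1) ∂μ := by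
  rcases Nat.eq_zero_or_pos k with rfl | hk
  · simp
  have hk' : (0 : ℝ) < k := by exact_mod_cast hk
  have hpq : ((k : ℝ) + 1).HolderConjugate (((k : ℝ) + 1) / k) := by
    rw [Real.holderConjugate_iff]
    refine ⟨by linarith, ?_⟩
    field_simp
    ring
  have h := ENNReal.lintegral_mul_le_Lp_mul_Lq μ hpq hf.aemeasurable
    (aemeasurable_const (b := (1 : ℝ≥0∞)))
  simp only [Pi.mul_apply, mul_one, ENNReal.one_rpow, lintegral_const, one_mul] at h
  have h2 := ENNReal.rpow_le_rpow h (by positivity : (0 : ℝ) ≤ (k : ℝ) + 1)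
  rw [ENNReal.mul_rpow_of_nonneg _ _ (by positivity : (0 : ℝ) ≤ (k : ℝ) + 1),
    ← ENNReal.rpow_mul, ← ENNReal.rpow_mul] at h2
  have e1 : 1 / ((k : ℝ) + 1) * ((k : ℝ) + 1) = 1 := by field_simp
  have e2 : 1 / (((k : ℝ) + 1) / k) * ((k : ℝ) + 1) = k := by field_simp
  rw [e1, e2, ENNReal.rpow_one, ENNReal.rpow_natCast] at h2
  have e3 : ∀ t : ℝ≥0∞, t ^ ((k : ℝ) + 1) = t ^ (k + 1) := fun t => by
    rw [← ENNReal.rpow_natCast]; push_cast; rfl
  simp only [e3] at h2
  rw [mul_comm]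
  exact h2

theorem pt (hK : StmtKK) {N : ℝ} (hN : 0 < N) {φ : ℂ → ℝ≥0∞} (hφ : Measurable φ) (k : ℕ)
    (x : ℂ) :
    (∫⁻ y, ENNReal.ofReal (KK N (x - y)) * φ y) ^ (k + 1) ≤
      ENNReal.ofReal Real.pi ^ k * ∫⁻ y, ENNReal.ofReal (KK N (x - y)) * φ y ^ (k + 1) := by
  have h := jensen (μ := volume.withDensity (fun y => ENNReal.ofReal (KK N (x - y)))) φ hφ k
  rw [lintegral_withDensity_eq_lintegral_mul _ (kk_meas hN x) hφ,
    lintegral_withDensity_eq_lintegral_mul _ (kk_meas hN x) (hφ.pow_const _),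
    withDensity_apply _ MeasurableSet.univ, Measure.restrict_univ, kk_lint hK hN] at h
  exact h

end KKPAux

open AvAux KKPAux in
theorem kkp (hK : StmtKK) (hB : StmtBase) : StmtKKP := by
  intro k N g hN hg
  set φ : ℂ → ℝ≥0∞ := fun y => ENNReal.ofReal (‖iF g y‖ ^ 2) with hφd
  have hc : Continuous (iF g) := (hB.1 g hg).1
  have hφ : Measurable φ := (ENNReal.continuous_ofReal.comp (hc.norm.pow 2)).measurable
  set A : ℂ → ℝ := fun x => ∫ y, KK N (x - y) * ‖iF g y‖ ^ 2 with hA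
  have hA0 : ∀ x, 0 ≤ A x := fun x => integral_nonneg fun y =>
    mul_nonneg (kk_nonneg _ _) (by positivity)
  have hAe : ∀ x, ENNReal.ofReal (A x) = ∫⁻ y, ENNReal.ofReal (KK N (x - y)) * φ y := fun x =>
    of_av hK hN (sq_int hB hg) (fun y => by positivity) x
  have hAm : Measurable A := by
    have h1 : Measurable (fun x => (∫⁻ y, ENNReal.ofReal (KK N (x - y)) * φ y).toReal) :=
      (av_meas hN hφ).ennreal_toReal
    have h2 : A = fun x => (∫⁻ y, ENNReal.ofReal (KK N (x - y)) * φ y).toReal := by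
      ext x; rw [← hAe, ENNReal.toReal_ofReal (hA0 x)]
    rw [h2]; exact h1
  have hle : ∫⁻ x, ENNReal.ofReal (A x ^ (k + 1)) ≤
      ENNReal.ofReal (Real.pi ^ (k + 1) * NK (k + 1) g) := by
    calc ∫⁻ x, ENNReal.ofReal (A x ^ (k + 1))
        ≤ ∫⁻ x, ENNReal.ofReal Real.pi ^ k *
            ∫⁻ y, ENNReal.ofReal (KK N (x - y)) * φ y ^ (k + 1) := by
          refine lintegral_mono fun x => ?_
          rw [ENNReal.ofReal_pow (hA0 x), hAe]
          exact pt hK hN hφ k x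
      _ = ENNReal.ofReal Real.pi ^ k * (ENNReal.ofReal Real.pi * ∫⁻ y, φ y ^ (k + 1)) := by
          rw [lintegral_const_mul _ (av_meas hN (hφ.pow_const _)),
            av_lint hK hN (hφ.pow_const _)]
      _ = ENNReal.ofReal (Real.pi ^ (k + 1) * NK (k + 1) g) := by
          rw [ENNReal.ofReal_mul (by positivity), of_NK hB hg, ← mul_assoc, ← pow_succ,
            ENNReal.ofReal_pow Real.pi_pos.le]
  have hpi : 0 ≤ Real.pi ^ (k + 1) * NK (k + 1) g :=
    mul_nonneg (by positivity) (NK_nonneg _ _)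
  refine ⟨⟨(hAm.pow_const _).aestronglyMeasurable, ?_⟩, ?_⟩
  · rw [hasFiniteIntegral_iff_ofReal (Eventually.of_forall fun x => pow_nonneg (hA0 x) _)]
    exact hle.trans_lt ENNReal.ofReal_lt_top
  · rw [integral_eq_lintegral_of_nonneg_ae (Eventually.of_forall fun x => pow_nonneg (hA0 x) _)
      (hAm.pow_const _).aestronglyMeasurable]
    exact ENNReal.toReal_le_of_le_ofReal hpi hle

end Pool.Agent.Lib.MP_dd244f_an.Even
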