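import Pool.Agent.Lib.MP_dd244f_an.Even.Stmts
import Pool.Agent.Lib.MP_dd244f_an.Four.Ker
import Pool.Agent.Lib.MP_dd244f_an.Four.KK
import Pool.Agent.Lib.MP_dd244f_an.Four.LPK

/-!
Full operator, even `p = 2 (k + 1)`: domination of the shells by averages with a kernel of
arbitrary decay.
-/

set_option autoImplicit false

namespace Pool.Agent.Lib.MP_dd244f_an.Even

open MeasureTheory Filter Topology Finset
open Pool.Agent.Lib.MP_dd244f_an.Four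
open scoped SchwartzMap ContDiff

namespace LPmAux

/-- weighted Cauchy-Schwarz -/
theorem cs_weight (w : ℂ → ℝ) (F : ℂ → ℝ) (m : ℝ) (hm : 0 < m) (hw : Integrable w)
    (hwm : ∫ y, w y ≤ m) (hw0 : ∀ y, 0 ≤ w y) (hFc : Continuous F) (B : ℝ) (hB : ∀ y, |F y| ≤ B) :
    (∫ y, w y * F y) ^ 2 ≤ m * ∫ y, w y * F y ^ 2 := by
  have hi1 : Integrable (fun y => w y * F y) := by
    refine hw.mul_bdd (c := B) hFc.aestronglyMeasurable ?_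
    exact Eventually.of_forall fun y => by simpa using hB y
  have hi2 : Integrable (fun y => w y * F y ^ 2) := by
    refine hw.mul_bdd (c := B ^ 2) (hFc.pow 2).aestronglyMeasurable ?_
    refine Eventually.of_forall fun y => ?_
    have h1 := hB y
    have h2 : |F y| ^ 2 ≤ B ^ 2 := pow_le_pow_left₀ (abs_nonneg _) h1 2
    rw [Real.norm_eq_abs, abs_pow]
    exact h2
  set t : ℝ := (∫ y, w y * F y) / m with ht
  have h0 : 0 ≤ ∫ y, w y * (F y - t) ^ 2 :=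
    integral_nonneg fun y => mul_nonneg (hw0 y) (sq_nonneg _)
  have h1 : ∫ y, w y * (F y - t) ^ 2
      = (∫ y, w y * F y ^ 2) - 2 * t * (∫ y, w y * F y) + t ^ 2 * ∫ y, w y := by
    have e : ∀ y, w y * (F y - t) ^ 2
        = (w y * F y ^ 2 - (2 * t) * (w y * F y)) + t ^ 2 * w y := fun y => by ring
    simp only [e]
    rw [integral_add, integral_sub, integral_const_mul, integral_const_mul]
    · exact hi2
    · exact hi1.const_mul _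
    · exact hi2.sub (hi1.const_mul _)
    · exact hw.const_mul _
  rw [h1] at h0
  have h3 : t ^ 2 * ∫ y, w y ≤ t ^ 2 * m := mul_le_mul_of_nonneg_left hwm (sq_nonneg _)
  have h2 : t * m = ∫ y, w y * F y := by rw [ht]; field_simp
  rw [← h2] at h0 ⊢
  nlinarith

theorem kkm_nonneg (m : ℕ) (ρ : ℝ) (hρ : 0 < ρ) (x : ℂ) : 0 ≤ KKm m ρ x := by
  unfold KKm; positivity

theorem kkm_le_kk (m : ℕ) (hm : 2 ≤ m) (ρ : ℝ) (hρ : 0 < ρ) (x : ℂ) : KKm m ρ x ≤ KK ρ x := by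
  obtain ⟨j, rfl⟩ := Nat.exists_eq_add_of_le hm
  unfold KKm KK
  have h1 : 0 < ρ ^ 2 + ‖x‖ ^ 2 := by positivity
  have e1 : 2 * (2 + j) - 2 = 2 + 2 * j := by omega
  rw [e1, div_le_div_iff₀ (by positivity) (by positivity), pow_add, pow_mul ρ 2 j, pow_add]
  have h2 : (ρ ^ 2) ^ j ≤ (ρ ^ 2 + ‖x‖ ^ 2) ^ j :=
    pow_le_pow_left₀ (by positivity) (by nlinarith [sq_nonneg ‖x‖]) j
  calc ρ ^ 2 * (ρ ^ 2) ^ j * (ρ ^ 2 + ‖x‖ ^ 2) ^ 2
      ≤ ρ ^ 2 * (ρ ^ 2 + ‖x‖ ^ 2) ^ j * (ρ ^ 2 + ‖x‖ ^ 2) ^ 2 := by gcongr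
    _ = _ := by ring

theorem kkm_cont (m : ℕ) (ρ : ℝ) (hρ : 0 < ρ) : Continuous (KKm m ρ) := by
  unfold KKm
  refine Continuous.div continuous_const (by fun_prop) fun x => ?_
  positivity

theorem kkm_quarter (m : ℕ) (ρ : ℝ) (hρ : 0 < ρ) (x : ℂ) :
    KKm m (ρ / 4) x ≤ 16 ^ m * KKm m ρ x := by
  unfold KKm
  have h1 : 0 < (ρ / 4) ^ 2 + ‖x‖ ^ 2 := by positivity
  have h2 : 0 < ρ ^ 2 + ‖x‖ ^ 2 := by positivity
  rw [← mul_div_assoc, div_le_div_iff₀ (by positivity) (by positivity)]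
  have h3 : ρ ^ 2 + ‖x‖ ^ 2 ≤ 16 * ((ρ / 4) ^ 2 + ‖x‖ ^ 2) := by nlinarith [sq_nonneg ‖x‖]
  have h4 : (ρ ^ 2 + ‖x‖ ^ 2) ^ m ≤ (16 * ((ρ / 4) ^ 2 + ‖x‖ ^ 2)) ^ m :=
    pow_le_pow_left₀ h2.le h3 m
  have h5 : (ρ / 4) ^ (2 * m - 2) ≤ ρ ^ (2 * m - 2) :=
    pow_le_pow_left₀ (by positivity) (by linarith) _
  calc (ρ / 4) ^ (2 * m - 2) * (ρ ^ 2 + ‖x‖ ^ 2) ^ m
      ≤ ρ ^ (2 * m - 2) * (16 * ((ρ / 4) ^ 2 + ‖x‖ ^ 2)) ^ m := by gcongr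
    _ = _ := by rw [mul_pow]; ring

/-- the decay of the kernel, arbitrary exponent -/
theorem ker_decay (m : ℕ) {φ : ℂ → ℂ} (h1 : ContDiff ℝ ∞ φ) (h2 : HasCompactSupport φ) :
    ∃ C : ℝ, 0 < C ∧ ∀ x, ‖iF φ x‖ ≤ C / (1 + ‖x‖ ^ 2) ^ m := by
  obtain ⟨K, hK⟩ := ker_schwartz h1 h2
  set S : ℝ := 2 ^ (2 * m) * (Finset.Iic ((2 * m, 0) : ℕ × ℕ)).sup
    (fun m => SchwartzMap.seminorm ℝ m.1 m.2) K with hS
  refine ⟨|S| + 1, by positivity, fun x => ?_⟩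
  have h3 := SchwartzMap.one_add_le_sup_seminorm_apply (𝕜 := ℝ) (m := (2 * m, 0)) (k := 2 * m)
    (n := 0) le_rfl le_rfl K x
  rw [norm_iteratedFDeriv_zero, hK] at h3
  rw [le_div_iff₀ (by positivity)]
  have h4 : (1 + ‖x‖ ^ 2) ^ m ≤ (1 + ‖x‖) ^ (2 * m) := by
    have h5 : 1 + ‖x‖ ^ 2 ≤ (1 + ‖x‖) ^ 2 := by nlinarith [norm_nonneg x]
    calc (1 + ‖x‖ ^ 2) ^ m ≤ ((1 + ‖x‖) ^ 2) ^ m := pow_le_pow_left₀ (by positivity) h5 m
      _ = _ := by rw [← pow_mul]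
  calc ‖iF φ x‖ * (1 + ‖x‖ ^ 2) ^ m ≤ ‖iF φ x‖ * (1 + ‖x‖) ^ (2 * m) :=
        mul_le_mul_of_nonneg_left h4 (norm_nonneg _)
    _ = (1 + ‖x‖) ^ (2 * m) * ‖iF φ x‖ := mul_comm _ _
    _ ≤ S := h3
    _ ≤ |S| + 1 := (le_abs_self _).trans (by linarith)

/-- kernel bound -/
theorem ker_le (m : ℕ) (hm : 2 ≤ m) (C : ℝ) (k : ℂ → ℂ)
    (hk : ∀ x, ‖k x‖ ≤ C / (1 + ‖x‖ ^ 2) ^ m) (s : ℝ) (hs : 0 < s) (z : ℂ) :
    ‖((s ^ 2 : ℝ) : ℂ) * k ((s : ℂ) * z)‖ ≤ C * KKm m s⁻¹ z := by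
  rw [norm_mul, Complex.norm_real, Real.norm_eq_abs, abs_of_nonneg (by positivity)]
  have h6 := hk ((s : ℂ) * z)
  rw [norm_mul, Complex.norm_real, Real.norm_eq_abs, abs_of_pos hs] at h6
  have h8 : C * KKm m s⁻¹ z = s ^ 2 * (C / (1 + (s * ‖z‖) ^ 2) ^ m) := by
    obtain ⟨j, rfl⟩ := Nat.exists_eq_add_of_le hm
    unfold KKm
    have e1 : 2 * (2 + j) - 2 = 2 * (1 + j) := by omega
    have h9 : s⁻¹ ^ 2 + ‖z‖ ^ 2 = (1 + (s * ‖z‖) ^ 2) / s ^ 2 := by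
      field_simp
    have h10 : 0 < 1 + (s * ‖z‖) ^ 2 := by positivity
    rw [h9, e1, div_pow, pow_mul, inv_pow, inv_pow, show 2 + j = (1 + j) + 1 by omega,
      pow_succ (s ^ 2) (1 + j)]
    have h11 : (s ^ 2) ^ (1 + j) ≠ 0 := by positivity
    have h12 : (1 + (s * ‖z‖) ^ 2) ^ (1 + j + 1) ≠ 0 := by positivity
    field_simp
  rw [h8]
  exact mul_le_mul_of_nonneg_left h6 (by positivity)

end LPmAux

open LPmAux

theorem lpm (hF : StmtFac) (hB : StmtBase) : StmtLPm := by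
  intro m hm
  obtain ⟨C, hC, hd⟩ := LPmAux.ker_decay m (lo_smooth 0) (lo_supp 0)
  have hpi := Real.pi_pos
  refine ⟨C ^ 2 * Real.pi * 16 ^ m, by positivity, fun a g hg x => ?_⟩
  have hcs : CC (cut (sh a) g) := (hF.2.2.2.2.1 g a a hg).2.2
  set G : ℂ → ℂ := cut (sh a) g with hG
  set s : ℝ := (2 : ℝ) ^ (a + 2) with hs
  have hs0 : 0 < s := by positivity
  have e : G = fun ζ => ((lo 0 (s⁻¹ • ζ) : ℝ) : ℂ) * G ζ := by
    ext ζ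
    rw [hs, ← lo_scale (a + 2) ζ]
    by_cases h : ‖ζ‖ ≤ (2 : ℝ) ^ (a + 2)
    · rw [hF.2.1 (a + 2) ζ h]
      simp
    · have h' : (2 : ℝ) ^ (a + 2) < ‖ζ‖ := not_le.mp h
      have h2 : 0 < (2 : ℝ) ^ a := by positivity
      have h3 : (2 : ℝ) ^ (a + 2) = 4 * (2 : ℝ) ^ a := by
        rw [zpow_add₀ (by norm_num)]; norm_num; ring
      have h4 : (2 : ℝ) ^ (a + 1) = 2 * (2 : ℝ) ^ a := by
        rw [zpow_add₀ (by norm_num)]; norm_num; ring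
      have h5 : sh a ζ = 0 := by
        unfold sh bd
        rw [hF.2.2.1 a ζ, hF.2.2.1 (a + 1) ζ]
        · simp
        · rw [h4]; rw [h3] at h'; nlinarith
        · rw [h3] at h'; nlinarith
      rw [hG]
      unfold cut
      rw [h5]
      simp
  have hrep : iF G x = ∫ y, ((s ^ 2 : ℝ) : ℂ) * iF (fun ζ => ((lo 0 ζ : ℝ) : ℂ))
      ((s : ℂ) * (x - y)) * iF G y := by
    have h := ker_filter (lo_smooth 0) (lo_supp 0) hs0 hcs x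
    rw [← e] at h
    exact h
  obtain ⟨hKi, hKv, -⟩ := Four.kk.1 s⁻¹ (inv_pos.mpr hs0)
  obtain ⟨hc, ⟨B, hBd⟩, -⟩ := hB.1 G hcs
  have hint : ∀ ρ : ℝ, 0 < ρ → Integrable (fun y => KKm m ρ (x - y)) := by
    intro ρ hρ
    obtain ⟨hKi', -, -⟩ := Four.kk.1 ρ hρ
    refine (hKi'.comp_sub_left x).mono'
      ((kkm_cont m ρ hρ).comp (continuous_const.sub continuous_id)).aestronglyMeasurable ?_
    refine Eventually.of_forall fun y => ?_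
    rw [Real.norm_eq_abs, abs_of_nonneg (kkm_nonneg m ρ hρ _)]
    exact kkm_le_kk m hm ρ hρ _
  have hw := hint s⁻¹ (inv_pos.mpr hs0)
  have hwm : ∫ y, KKm m s⁻¹ (x - y) ≤ Real.pi := by
    have h1 : ∫ y, KK s⁻¹ (x - y) = Real.pi := by
      rw [integral_sub_left_eq_self (fun y => KK s⁻¹ y) volume x, hKv]
    rw [← h1]
    exact integral_mono hw (hKi.comp_sub_left x) fun y => kkm_le_kk m hm _ (inv_pos.mpr hs0) _
  have h1 := LPmAux.cs_weight (fun y => KKm m s⁻¹ (x - y)) (fun y => ‖iF G y‖) Real.pi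
    Real.pi_pos hw hwm (fun y => kkm_nonneg _ _ (inv_pos.mpr hs0) _) hc.norm B
    (fun y => by simpa using hBd y)
  have hi1 : Integrable (fun y => KKm m s⁻¹ (x - y) * ‖iF G y‖) := by
    refine hw.mul_bdd (c := B) hc.norm.aestronglyMeasurable ?_
    exact Eventually.of_forall fun y => by simpa using hBd y
  have hi2 : ∀ ρ : ℝ, 0 < ρ → Integrable (fun y => KKm m ρ (x - y) * ‖iF G y‖ ^ 2) := by
    intro ρ hρ
    refine (hint ρ hρ).mul_bdd (c := B ^ 2) (hc.norm.pow 2).aestronglyMeasurable ?_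
    refine Eventually.of_forall fun y => ?_
    rw [norm_pow, norm_norm]
    exact pow_le_pow_left₀ (norm_nonneg _) (hBd y) 2
  have h2 : ‖iF G x‖ ≤ ∫ y, C * (KKm m s⁻¹ (x - y) * ‖iF G y‖) := by
    rw [hrep]
    refine norm_integral_le_of_norm_le (hi1.const_mul C) (Eventually.of_forall fun y => ?_)
    rw [norm_mul, ← mul_assoc]
    exact mul_le_mul_of_nonneg_right (LPmAux.ker_le m hm C _ hd s hs0 (x - y)) (norm_nonneg _)
  rw [integral_const_mul] at h2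
  have h3 : ∫ y, KKm m s⁻¹ (x - y) * ‖iF G y‖ ^ 2
      ≤ 16 ^ m * ∫ y, KKm m ((2 : ℝ) ^ (-a)) (x - y) * ‖iF G y‖ ^ 2 := by
    rw [← integral_const_mul]
    refine integral_mono (hi2 _ (inv_pos.mpr hs0)) ((hi2 _ (by positivity)).const_mul _)
      fun y => ?_
    have hq : s⁻¹ = (2 : ℝ) ^ (-a) / 4 := by
      rw [hs, ← zpow_neg, neg_add, zpow_add₀ (by norm_num)]; norm_num; ring
    rw [hq]
    show KKm m ((2 : ℝ) ^ (-a) / 4) (x - y) * ‖iF G y‖ ^ 2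
      ≤ 16 ^ m * (KKm m ((2 : ℝ) ^ (-a)) (x - y) * ‖iF G y‖ ^ 2)
    rw [← mul_assoc]
    exact mul_le_mul_of_nonneg_right (kkm_quarter _ _ (by positivity) _) (by positivity)
  calc ‖iF G x‖ ^ 2 ≤ (C * ∫ y, KKm m s⁻¹ (x - y) * ‖iF G y‖) ^ 2 :=
        pow_le_pow_left₀ (norm_nonneg _) h2 2
    _ = C ^ 2 * (∫ y, KKm m s⁻¹ (x - y) * ‖iF G y‖) ^ 2 := by ring
    _ ≤ C ^ 2 * (Real.pi * ∫ y, KKm m s⁻¹ (x - y) * ‖iF G y‖ ^ 2) :=
        mul_le_mul_of_nonneg_left h1 (by positivity)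
    _ ≤ C ^ 2 * (Real.pi * (16 ^ m *
          ∫ y, KKm m ((2 : ℝ) ^ (-a)) (x - y) * ‖iF G y‖ ^ 2)) := by gcongr
    _ = _ := by ring

end Pool.Agent.Lib.MP_dd244f_an.Even
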