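import Pool.Agent.Lib.MP_dd244f_an.Even.CV
import Pool.Agent.Lib.MP_dd244f_an.Four.BilPt
import Pool.Agent.Lib.MP_dd244f_an.Four.KK
import Pool.Agent.Lib.MP_dd244f_an.Four.L2

/-!
Full operator, even `p`: the pointwise multilinear estimate (module MPt).
-/

set_option autoImplicit false

namespace Pool.Agent.Lib.MP_dd244f_an.Even

open MeasureTheory Filter Topology Finset FourierTransform
open Pool.Agent.Lib.MP_dd244f_an.Four
open scoped ENNReal

namespace MPtAux

/-- multiply the slot `m` by `φ` -/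
noncomputable def sl (g : ℕ → ℂ → ℂ) (m : ℕ) (φ : ℂ → ℂ) : ℕ → ℂ → ℂ :=
  fun j ζ => if j = m then φ ζ * g j ζ else g j ζ

theorem sl_self (g : ℕ → ℂ → ℂ) (m : ℕ) (φ : ℂ → ℂ) : sl g m φ m = fun ζ => φ ζ * g m ζ := by
  funext ζ
  simp [sl]

theorem sl_ne (g : ℕ → ℂ → ℂ) {m j : ℕ} (φ : ℂ → ℂ) (h : j ≠ m) : sl g m φ j = g j := by
  funext ζ
  simp [sl, h]

theorem sl_cc {g : ℕ → ℂ → ℂ} {k : ℕ} (hg : ∀ j ≤ k, CC (g j)) (m : ℕ) {φ : ℂ → ℂ}
    (hφ : Continuous φ) : ∀ j ≤ k, CC (sl g m φ j) := by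
  intro j hj
  by_cases h : j = m
  · subst h
    rw [sl_self]
    exact ⟨hφ.mul (hg j hj).1, (hg j hj).2.mul_left⟩
  · rw [sl_ne g φ h]
    exact hg j hj

/-- the weight -/
noncomputable def w1 (N : ℝ) (v : ℂ) : ℝ := 1 / (1 + ‖v‖ ^ 2 / N ^ 2)

theorem w1_pos (N : ℝ) (v : ℂ) : 0 < w1 N v := by
  have := Four.wt_pos N v
  unfold w1
  positivity

theorem w1_cont (N : ℝ) : Continuous (w1 N) := by
  unfold w1
  refine Continuous.div continuous_const (by fun_prop) fun v => ?_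
  have := Four.wt_pos N v
  positivity

theorem w1_sq {N : ℝ} (hN : 0 < N) (v : ℂ) : w1 N v ^ 2 = N ^ 2 * KK N v := by
  have h := Four.wt_eq hN v 1
  rw [mul_one] at h
  rw [← h]
  unfold w1
  rw [div_pow, one_pow]

/-- squared weight -/
noncomputable def wt (N : ℝ) (v : ℂ) : ℝ≥0∞ := ENNReal.ofReal (w1 N v) ^ 2

theorem wt_meas (N : ℝ) : Measurable (wt N) :=
  ((w1_cont N).measurable.ennreal_ofReal).pow_const 2

theorem wt_ofReal (N : ℝ) (v : ℂ) : wt N v = ENNReal.ofReal (w1 N v ^ 2) := by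
  unfold wt
  rw [ENNReal.ofReal_pow (w1_pos N v).le]

theorem wt_fin {N : ℝ} (hN : 0 < N) : ∫⁻ v, wt N v ≠ ∞ := by
  have h1 : Integrable (fun v => N ^ 2 * KK N v) := (Four.kk.1 N hN).1.const_mul _
  have h2 := h1.lintegral_lt_top
  refine ne_of_lt (lt_of_eq_of_lt (lintegral_congr fun v => ?_) h2)
  rw [wt_ofReal, w1_sq hN]

/-- the recursive weighted square function -/
noncomputable def W (N : ℝ) (k : ℕ) : ℕ → (ℕ → ℂ → ℂ) → ℂ → ℝ≥0∞
  | 0, g, θ => ‖cv k g θ‖ₑ ^ 2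
  | m + 1, g, θ => ∫⁻ v, wt N v * W N k m (sl g m (ch v)) θ

theorem W_zero (N : ℝ) (k : ℕ) (g : ℕ → ℂ → ℂ) (θ : ℂ) : W N k 0 g θ = ‖cv k g θ‖ₑ ^ 2 := rfl

theorem W_succ (N : ℝ) (k m : ℕ) (g : ℕ → ℂ → ℂ) (θ : ℂ) :
    W N k (m + 1) g θ = ∫⁻ v, wt N v * W N k m (sl g m (ch v)) θ := rfl

/-! ### measurability -/

theorem meas_cv (k : ℕ) : ∀ (Z : Type) [MeasurableSpace Z] (G : Z → ℕ → ℂ → ℂ),
    (∀ j ≤ k, Measurable (fun p : Z × ℂ => G p.1 j p.2)) →
    Measurable (fun p : Z × ℂ => cv k (G p.1) p.2) := by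
  induction k with
  | zero =>
    intro Z _ G h
    exact h 0 le_rfl
  | succ k ih =>
    intro Z _ G h
    have h1 := ih Z G fun j hj => h j (by omega)
    have h2 := h (k + 1) le_rfl
    have h3 : Measurable (fun q : (Z × ℂ) × ℂ => G q.1.1 (k + 1) (q.1.2 / 2 + q.2)) :=
      h2.comp (g := fun p : Z × ℂ => G p.1 (k + 1) p.2)
        (f := fun q : (Z × ℂ) × ℂ => (q.1.1, q.1.2 / 2 + q.2)) (by fun_prop)
    have h4 : Measurable (fun q : (Z × ℂ) × ℂ => cv k (G q.1.1) (q.1.2 / 2 - q.2)) :=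
      h1.comp (g := fun p : Z × ℂ => cv k (G p.1) p.2)
        (f := fun q : (Z × ℂ) × ℂ => (q.1.1, q.1.2 / 2 - q.2)) (by fun_prop)
    have h5 := (h3.mul h4).stronglyMeasurable.integral_prod_right' (ν := (volume : Measure ℂ))
    have h6 : (fun p : Z × ℂ => cv (k + 1) (G p.1) p.2) = fun p : Z × ℂ =>
        ∫ δ, ((fun q : (Z × ℂ) × ℂ => G q.1.1 (k + 1) (q.1.2 / 2 + q.2)) *
          fun q : (Z × ℂ) × ℂ => cv k (G q.1.1) (q.1.2 / 2 - q.2)) (p, δ) := by
      funext p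
      rw [CVaux.cv_succ_apply]
      rfl
    rw [h6]
    exact h5.measurable

theorem meas_sl {k m : ℕ} {Z : Type} [MeasurableSpace Z] {G : Z → ℕ → ℂ → ℂ}
    (h : ∀ j ≤ k, Measurable (fun p : Z × ℂ => G p.1 j p.2)) :
    ∀ j ≤ k, Measurable (fun p : (Z × ℂ) × ℂ => sl (G p.1.1) m (ch p.1.2) j p.2) := by
  intro j hj
  have h1 : Measurable (fun p : (Z × ℂ) × ℂ => G p.1.1 j p.2) :=
    (h j hj).comp (g := fun p : Z × ℂ => G p.1 j p.2)
      (f := fun q : (Z × ℂ) × ℂ => (q.1.1, q.2)) (by fun_prop)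
  have h2 : Measurable (fun p : (Z × ℂ) × ℂ => ch p.1.2 p.2) :=
    continuous_ch2.measurable.comp (g := fun z : ℂ × ℂ => ch z.1 z.2)
      (f := fun q : (Z × ℂ) × ℂ => (q.1.2, q.2)) (by fun_prop)
  by_cases hjm : j = m
  · subst hjm
    simp only [sl_self]
    exact h2.mul h1
  · simp only [sl_ne _ _ hjm]
    exact h1

theorem meas_W (N : ℝ) (k m : ℕ) : ∀ (Z : Type) [MeasurableSpace Z] (G : Z → ℕ → ℂ → ℂ),
    (∀ j ≤ k, Measurable (fun p : Z × ℂ => G p.1 j p.2)) →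
    Measurable (fun p : Z × ℂ => W N k m (G p.1) p.2) := by
  induction m with
  | zero =>
    intro Z _ G h
    exact (meas_cv k Z G h).enorm.pow_const 2
  | succ m ih =>
    intro Z _ G h
    have h1 := ih (Z × ℂ) (fun q => sl (G q.1) m (ch q.2)) (meas_sl h)
    have h2 : Measurable (fun q : (Z × ℂ) × ℂ => W N k m (sl (G q.1.1) m (ch q.2)) q.1.2) :=
      h1.comp (g := fun p : (Z × ℂ) × ℂ => W N k m (sl (G p.1.1) m (ch p.1.2)) p.2)
        (f := fun q : (Z × ℂ) × ℂ => ((q.1.1, q.2), q.1.2)) (by fun_prop)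
    have h3 : Measurable (fun q : (Z × ℂ) × ℂ =>
        wt N q.2 * W N k m (sl (G q.1.1) m (ch q.2)) q.1.2) :=
      ((wt_meas N).comp measurable_snd).mul h2
    exact h3.lintegral_prod_right'

theorem meas_const {k : ℕ} {g : ℕ → ℂ → ℂ} (hg : ∀ j ≤ k, CC (g j)) :
    ∀ j ≤ k, Measurable (fun p : Unit × ℂ => (fun _ : Unit => g) p.1 j p.2) :=
  fun j hj => (hg j hj).1.measurable.comp measurable_snd

theorem meas_W1 {N : ℝ} {k : ℕ} (m : ℕ) {g : ℕ → ℂ → ℂ} (hg : ∀ j ≤ k, CC (g j)) :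
    Measurable (W N k m g) :=
  (meas_W N k m Unit (fun _ => g) (meas_const hg)).comp
    (f := fun θ : ℂ => ((), θ)) (by fun_prop)

theorem meas_ch {k : ℕ} {g : ℕ → ℂ → ℂ} (hg : ∀ j ≤ k, CC (g j)) (m : ℕ) :
    ∀ j ≤ k, Measurable (fun p : ℂ × ℂ => (fun v => sl g m (ch v)) p.1 j p.2) := by
  intro j hj
  have h1 := meas_sl (m := m) (G := fun _ : Unit => g) (meas_const hg) j hj
  exact h1.comp (g := fun p : (Unit × ℂ) × ℂ => sl g m (ch p.1.2) j p.2)
    (f := fun p : ℂ × ℂ => (((), p.1), p.2)) (by fun_prop)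

/-! ### the bound -/

theorem W_le (hC : StmtCV) (N : ℝ) (k m : ℕ) : ∀ g : ℕ → ℂ → ℂ, (∀ j ≤ k, CC (g j)) → ∀ θ,
    W N k m g θ ≤ (∫⁻ v, wt N v) ^ m * ‖cv k (fun j ζ => ((‖g j ζ‖ : ℝ) : ℂ)) θ‖ₑ ^ 2 := by
  induction m with
  | zero =>
    intro g hg θ
    rw [W_zero, pow_zero, one_mul]
    gcongr
    have := (hC k).2.2.2.2.2 g hg θ
    rw [← ofReal_norm, ← ofReal_norm]
    exact ENNReal.ofReal_le_ofReal this
  | succ m ih =>
    intro g hg θ
    rw [W_succ]
    have h1 : ∀ v, (fun (j : ℕ) (ζ : ℂ) => ((‖sl g m (ch v) j ζ‖ : ℝ) : ℂ))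
        = fun j ζ => ((‖g j ζ‖ : ℝ) : ℂ) := by
      intro v
      funext j ζ
      unfold sl
      split_ifs
      · rw [norm_mul, norm_ch, one_mul]
      · rfl
    calc ∫⁻ v, wt N v * W N k m (sl g m (ch v)) θ
        ≤ ∫⁻ v, wt N v * ((∫⁻ v, wt N v) ^ m *
            ‖cv k (fun j ζ => ((‖g j ζ‖ : ℝ) : ℂ)) θ‖ₑ ^ 2) := by
          refine lintegral_mono fun v => ?_
          gcongr
          refine (ih _ (sl_cc hg m (continuous_ch v)) θ).trans (le_of_eq ?_)
          rw [h1]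
      _ = _ := by
          rw [lintegral_mul_const _ (wt_meas N)]
          ring

theorem W_fin (hC : StmtCV) {N : ℝ} (hN : 0 < N) (k m : ℕ) {g : ℕ → ℂ → ℂ}
    (hg : ∀ j ≤ k, CC (g j)) (θ : ℂ) : W N k m g θ ≠ ∞ := by
  refine ne_of_lt ((W_le hC N k m g hg θ).trans_lt ?_)
  refine ENNReal.mul_lt_top (ENNReal.pow_lt_top (lt_top_iff_ne_top.2 (wt_fin hN))) ?_
  exact ENNReal.pow_lt_top enorm_lt_top

/-! ### linearity -/

theorem swap {B : ℂ → ℂ} (hB : Integrable B) {c : ℂ × ℂ → ℂ} (hc : Measurable c) {φ : ℂ → ℝ}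
    (hφ : Integrable φ) (h : ∀ δ v, ‖c (δ, v)‖ ≤ φ δ) :
    ∫ δ, ∫ v, B v * c (δ, v) = ∫ v, B v * ∫ δ, c (δ, v) := by
  have h1 : Integrable (fun z : ℂ × ℂ => B z.2 * c z) (volume.prod volume) := by
    refine (hφ.mul_prod hB.norm).mono' ?_ (Eventually.of_forall fun z => ?_)
    · exact (hB.aestronglyMeasurable.comp_quasiMeasurePreserving
        Measure.quasiMeasurePreserving_snd).mul hc.aestronglyMeasurable
    · rw [norm_mul, mul_comm]
      exact mul_le_mul_of_nonneg_right (h z.1 z.2) (norm_nonneg _)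
  rw [integral_integral_swap (f := fun δ v => B v * c (δ, v)) h1]
  congr 1
  funext v
  rw [integral_const_mul]

theorem norm_cv_sl_le (hC : StmtCV) {k : ℕ} {g : ℕ → ℂ → ℂ} (hg : ∀ j ≤ k, CC (g j)) (m : ℕ)
    (v θ : ℂ) : ‖cv k (sl g m (ch v)) θ‖ ≤ ‖cv k (fun j ζ => ((‖g j ζ‖ : ℝ) : ℂ)) θ‖ := by
  have h1 : (fun (j : ℕ) (ζ : ℂ) => ((‖sl g m (ch v) j ζ‖ : ℝ) : ℂ))
        = fun j ζ => ((‖g j ζ‖ : ℝ) : ℂ) := by
      funext j ζ
      unfold sl
      split_ifs
      · rw [norm_mul, norm_ch, one_mul]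
      · rfl
  have h2 := (hC k).2.2.2.2.2 _ (sl_cc hg m (continuous_ch v)) θ
  rwa [h1] at h2

theorem lin (hC : StmtCV) {B : ℂ → ℂ} (hB : Integrable B) (k : ℕ) : ∀ (m : ℕ) (g : ℕ → ℂ → ℂ),
    m ≤ k → (∀ j ≤ k, CC (g j)) → ∀ θ,
    cv k (sl g m (fun ζ => ∫ v, B v * ch v ζ)) θ = ∫ v, B v * cv k (sl g m (ch v)) θ := by
  induction k with
  | zero =>
    intro m g hm hg θ
    obtain rfl : m = 0 := by omega
    simp only [CVaux.cv_zero, sl_self]
    rw [← integral_mul_const]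
    congr 1
    funext v
    ring
  | succ k ih =>
    intro m g hm hg θ
    have hgk : ∀ j ≤ k, CC (g j) := fun j hj => hg j (by omega)
    rcases Nat.lt_or_ge k m with hk | hk
    · obtain rfl : m = k + 1 := by omega
      have e1 : ∀ φ : ℂ → ℂ, cv k (sl g (k + 1) φ) = cv k g := fun φ =>
        CVaux.cv_congr fun i hi => sl_ne g φ (by omega)
      have e2 : ∀ φ : ℂ → ℂ, cv (k + 1) (sl g (k + 1) φ) θ
          = ∫ δ, φ (θ / 2 + δ) * (g (k + 1) (θ / 2 + δ) * cv k g (θ / 2 - δ)) := by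
        intro φ
        rw [CVaux.cv_succ_apply, sl_self, e1]
        congr 1
        funext δ
        ring
      simp only [e2]
      have hint := CVaux.cc_mul_integrable (hg (k + 1) le_rfl) ((hC k).1 g hgk).1 θ
      have h3 := swap hB (c := fun z : ℂ × ℂ => ch z.2 (θ / 2 + z.1) *
          (g (k + 1) (θ / 2 + z.1) * cv k g (θ / 2 - z.1)))
        (φ := fun δ => ‖g (k + 1) (θ / 2 + δ) * cv k g (θ / 2 - δ)‖) ?_ hint.norm ?_
      · rw [← h3]
        congr 1
        funext δ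
        rw [← integral_mul_const]
        congr 1
        funext v
        ring
      · have h4 := (hg (k + 1) le_rfl).1
        have h5 := ((hC k).1 g hgk).1.1
        have h6 := continuous_ch2
        have h7 : Continuous (fun z : ℂ × ℂ => ch z.2 (θ / 2 + z.1)) :=
          h6.comp (g := fun z : ℂ × ℂ => ch z.1 z.2) (f := fun z : ℂ × ℂ => (z.2, θ / 2 + z.1))
            (by fun_prop)
        have h8 : Continuous (fun z : ℂ × ℂ => ch z.2 (θ / 2 + z.1) *
          (g (k + 1) (θ / 2 + z.1) * cv k g (θ / 2 - z.1))) := by fun_prop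
        exact h8.measurable
      · intro δ v
        rw [norm_mul, norm_ch, one_mul]
    · have e2 : ∀ φ : ℂ → ℂ, cv (k + 1) (sl g m φ) θ
          = ∫ δ, g (k + 1) (θ / 2 + δ) * cv k (sl g m φ) (θ / 2 - δ) := by
        intro φ
        rw [CVaux.cv_succ_apply, sl_ne g φ (by omega)]
      simp only [e2]
      have hcc : CC (cv k (fun j ζ => ((‖g j ζ‖ : ℝ) : ℂ))) :=
        ((hC k).1 _ fun j hj => CVaux.cc_norm (hgk j hj)).1
      have hint := CVaux.cc_mul_integrable (hg (k + 1) le_rfl) hcc θ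
      have h3 := swap hB (c := fun z : ℂ × ℂ => g (k + 1) (θ / 2 + z.1) *
          cv k (sl g m (ch z.2)) (θ / 2 - z.1))
        (φ := fun δ => ‖g (k + 1) (θ / 2 + δ) *
          cv k (fun j ζ => ((‖g j ζ‖ : ℝ) : ℂ)) (θ / 2 - δ)‖) ?_ hint.norm ?_
      · rw [← h3]
        congr 1
        funext δ
        rw [ih m g hk hgk, ← integral_const_mul]
        congr 1
        funext v
        ring
      · have h4 : Measurable (fun z : ℂ × ℂ => g (k + 1) (θ / 2 + z.1)) :=
          (hg (k + 1) le_rfl).1.measurable.comp (by fun_prop)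
        have h5 := meas_cv k ℂ (fun v => sl g m (ch v)) (meas_ch hgk m)
        have h6 : Measurable (fun z : ℂ × ℂ => cv k (sl g m (ch z.2)) (θ / 2 - z.1)) :=
          h5.comp (g := fun p : ℂ × ℂ => cv k (sl g m (ch p.1)) p.2)
            (f := fun z : ℂ × ℂ => (z.2, θ / 2 - z.1)) (by fun_prop)
        exact h4.mul h6
      · intro δ v
        rw [norm_mul, norm_mul]
        exact mul_le_mul_of_nonneg_left (norm_cv_sl_le hC hgk m v _) (norm_nonneg _)

/-! ### inversion -/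

theorem norm_iF_neg {N : ℝ} (hN : 0 < N) {a : ℂ → ℂ} (ha : ContDiff ℝ 2 a)
    (hs : HasCompactSupport a) (v : ℂ) : ‖iF a (-v)‖ = ‖iF (bb N a) (-v)‖ * w1 N v := by
  have h := iF_bb hN ha hs (-v)
  have h1 := Four.wt_pos N v
  rw [h, norm_mul, Complex.norm_real, norm_neg, Real.norm_of_nonneg (by linarith)]
  unfold w1
  field_simp

theorem iF_int (hB : StmtBase) {N : ℝ} (hN : 0 < N) {a : ℂ → ℂ} (ha : ContDiff ℝ 2 a)
    (hs : HasCompactSupport a) : Integrable (fun v => iF a (-v)) := by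
  have h1 : Integrable (fun v => ‖iF (bb N a) (-v)‖ ^ 2) :=
    (hB.1 _ (bb_cc N ha hs)).2.2.1.comp_neg
  have h2 : Integrable (fun v => N ^ 2 * KK N v) := (Four.kk.1 N hN).1.const_mul _
  have hc : Continuous (iF a) := (hB.1 a ⟨ha.continuous, hs⟩).1
  refine (h1.add h2).mono' (hc.comp continuous_neg).aestronglyMeasurable
    (Eventually.of_forall fun v => ?_)
  rw [norm_iF_neg hN ha hs]
  simp only [Pi.add_apply]
  rw [← w1_sq hN]
  nlinarith [sq_nonneg (‖iF (bb N a) (-v)‖ - w1 N v), norm_nonneg (iF (bb N a) (-v)),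
    w1_pos N v, mul_nonneg (norm_nonneg (iF (bb N a) (-v))) (w1_pos N v).le]

theorem inv (hB : StmtBase) {N : ℝ} (hN : 0 < N) {a : ℂ → ℂ} (ha : ContDiff ℝ 2 a)
    (hs : HasCompactSupport a) (ζ : ℂ) : a ζ = ∫ v, iF a (-v) * ch v ζ := by
  have h1 : 𝓕 a = fun v => iF a (-v) := by
    funext v
    rw [iF_eq, neg_neg]
  have h2 : Integrable (𝓕 a) := by
    rw [h1]
    exact iF_int hB hN ha hs
  have h3 : Integrable a := CC.integrable ⟨ha.continuous, hs⟩
  have h4 := congrFun (ha.continuous.fourierInv_fourier_eq h3 h2) ζ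
  rw [← iF_eq_inv] at h4
  rw [← h4]
  unfold iF
  congr 1
  funext v
  rw [← iF.eq_1, h1, ch_comm ζ v, mul_comm]

theorem cs {f g : ℂ → ℝ≥0∞} (hf : Measurable f) (hg : Measurable g) :
    (∫⁻ x, f x * g x) ^ 2 ≤ (∫⁻ x, f x ^ 2) * ∫⁻ x, g x ^ 2 := by
  have h := ENNReal.lintegral_mul_le_Lp_mul_Lq (volume : Measure ℂ)
    Real.HolderConjugate.two_two hf.aemeasurable hg.aemeasurable
  simp only [Pi.mul_apply, ENNReal.rpow_two] at h
  refine (pow_le_pow_left₀ zero_le h 2).trans (le_of_eq ?_)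
  rw [mul_pow, ← ENNReal.rpow_natCast, ← ENNReal.rpow_natCast, ← ENNReal.rpow_mul,
    ← ENNReal.rpow_mul]
  norm_num

theorem slot (hC : StmtCV) (hB : StmtBase) {N : ℝ} (hN : 0 < N) {k m : ℕ} (hm : m ≤ k)
    {g : ℕ → ℂ → ℂ} (hg : ∀ j ≤ k, CC (g j)) {a : ℂ → ℂ} (ha : ContDiff ℝ 2 a)
    (hs : HasCompactSupport a) (c θ : ℂ) :
    ‖cv k (sl g m (fun ζ => a (ζ - c))) θ‖ₑ ^ 2 ≤
      ENNReal.ofReal (∫ δ, ‖bb N a δ‖ ^ 2) * ∫⁻ v, wt N v * ‖cv k (sl g m (ch v)) θ‖ₑ ^ 2 := by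
  have h1 : (fun ζ => a (ζ - c)) = fun ζ => ∫ v, (iF a (-v) * ch v (-c)) * ch v ζ := by
    funext ζ
    rw [inv hB hN ha hs (ζ - c)]
    congr 1
    funext v
    rw [sub_eq_add_neg, ch_add_right]
    ring
  have hI : Integrable (fun v => iF a (-v) * ch v (-c)) := by
    refine (iF_int hB hN ha hs).norm.mono' ?_ (Eventually.of_forall fun v => ?_)
    · refine (iF_int hB hN ha hs).aestronglyMeasurable.mul ?_
      have h6 : Continuous (fun v : ℂ => ch v (-c)) :=
        continuous_ch2.comp (g := fun z : ℂ × ℂ => ch z.1 z.2) (f := fun v : ℂ => (v, -c))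
          (by fun_prop)
      exact h6.aestronglyMeasurable
    · rw [norm_mul, norm_ch, mul_one]
  rw [h1, lin hC hI k m g hm hg θ]
  have hm1 : Measurable (fun v => cv k (sl g m (ch v)) θ) :=
    (meas_cv k ℂ (fun v => sl g m (ch v)) (meas_ch hg m)).comp
      (g := fun p : ℂ × ℂ => cv k (sl g m (ch p.1)) p.2) (f := fun v : ℂ => (v, θ)) (by fun_prop)
  have hcb : Continuous (iF (bb N a)) := (hB.1 _ (bb_cc N ha hs)).1
  have hm2 : Measurable (fun v => ‖iF (bb N a) (-v)‖ₑ) :=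
    (hcb.comp continuous_neg).measurable.enorm
  have hm3 : Measurable (fun v => ENNReal.ofReal (w1 N v) * ‖cv k (sl g m (ch v)) θ‖ₑ) :=
    (w1_cont N).measurable.ennreal_ofReal.mul hm1.enorm
  have h2 : ‖∫ v, (iF a (-v) * ch v (-c)) * cv k (sl g m (ch v)) θ‖ₑ ≤
      ∫⁻ v, ‖iF (bb N a) (-v)‖ₑ * (ENNReal.ofReal (w1 N v) * ‖cv k (sl g m (ch v)) θ‖ₑ) := by
    refine (enorm_integral_le_lintegral_enorm _).trans (le_of_eq ?_)
    congr 1
    funext v
    rw [← mul_assoc, enorm_mul]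
    congr 1
    rw [← ofReal_norm, ← ofReal_norm, norm_mul, norm_ch, mul_one, norm_iF_neg hN ha hs,
      ENNReal.ofReal_mul (norm_nonneg _)]
  have h3 : ∫⁻ v, ‖iF (bb N a) (-v)‖ₑ ^ 2 = ENNReal.ofReal (∫ δ, ‖bb N a δ‖ ^ 2) := by
    rw [← (hB.1 _ (bb_cc N ha hs)).2.2.2.2, ← integral_neg_eq_self,
      ofReal_integral_eq_lintegral_ofReal (hB.1 _ (bb_cc N ha hs)).2.2.1.comp_neg
        (Eventually.of_forall fun v => by positivity)]
    congr 1
    funext v
    rw [ENNReal.ofReal_pow (norm_nonneg _), ofReal_norm]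
  calc _ ≤ (∫⁻ v, ‖iF (bb N a) (-v)‖ₑ *
          (ENNReal.ofReal (w1 N v) * ‖cv k (sl g m (ch v)) θ‖ₑ)) ^ 2 :=
        pow_le_pow_left₀ zero_le h2 2
    _ ≤ (∫⁻ v, ‖iF (bb N a) (-v)‖ₑ ^ 2) *
          ∫⁻ v, (ENNReal.ofReal (w1 N v) * ‖cv k (sl g m (ch v)) θ‖ₑ) ^ 2 := cs hm2 hm3
    _ = _ := by
        rw [h3]
        simp only [mul_pow]
        rfl

theorem ptw (hC : StmtCV) (hB : StmtBase) {N : ℝ} (hN : 0 < N) {k : ℕ} {a : ℕ → ℂ → ℂ}
    (ha : ∀ j ≤ k, ContDiff ℝ 2 (a j) ∧ HasCompactSupport (a j)) (c θ : ℂ) (m : ℕ) :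
    ∀ g : ℕ → ℂ → ℂ, m ≤ k + 1 → (∀ j ≤ k, CC (g j)) →
    ‖cv k (fun j ζ => if j < m then a j (ζ - c) * g j ζ else g j ζ) θ‖ₑ ^ 2 ≤
      (∏ j ∈ Finset.range m, ENNReal.ofReal (∫ δ, ‖bb N (a j) δ‖ ^ 2)) * W N k m g θ := by
  induction m with
  | zero =>
    intro g _ _
    simp only [Nat.not_lt_zero, if_false, Finset.prod_range_zero, one_mul]
    rfl
  | succ m ih =>
    intro g hm hg
    have hmk : m ≤ k := by omega
    set h : ℕ → ℂ → ℂ := fun j ζ => if j < m then a j (ζ - c) * g j ζ else g j ζ with hh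
    have e1 : (fun (j : ℕ) (ζ : ℂ) => if j < m + 1 then a j (ζ - c) * g j ζ else g j ζ)
        = sl h m (fun ζ => a m (ζ - c)) := by
      funext j ζ
      unfold sl
      simp only [hh]
      rcases lt_trichotomy j m with hj | hj | hj
      · rw [if_pos (by omega), if_neg (by omega), if_pos hj]
      · subst hj
        rw [if_pos (by omega), if_pos rfl, if_neg (lt_irrefl _)]
      · rw [if_neg (by omega), if_neg (by omega), if_neg (by omega)]
    have e2 : ∀ v, sl h m (ch v) = fun j ζ => if j < m then a j (ζ - c) * sl g m (ch v) j ζ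
        else sl g m (ch v) j ζ := by
      intro v
      funext j ζ
      unfold sl
      simp only [hh]
      rcases lt_trichotomy j m with hj | hj | hj
      · simp only [if_pos hj, if_neg hj.ne]
      · subst hj
        simp only [lt_irrefl, if_false, if_true]
      · simp only [if_neg hj.ne', if_neg (not_lt.2 hj.le)]
    have hcc : ∀ j ≤ k, CC (h j) := by
      intro j hj
      simp only [hh]
      by_cases hjm : j < m
      · simp only [if_pos hjm]
        have h1 : Continuous (fun ζ => a j (ζ - c)) :=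
          (ha j hj).1.continuous.comp (by fun_prop)
        exact ⟨h1.mul (hg j hj).1, (hg j hj).2.mul_left⟩
      · simp only [if_neg hjm]
        exact hg j hj
    rw [e1]
    refine (slot hC hB hN hmk hcc (ha m hmk).1 (ha m hmk).2 c θ).trans ?_
    have h1 := meas_W N k m ℂ (fun v => sl g m (ch v)) (meas_ch hg m)
    have h2 : Measurable (fun v => W N k m (sl g m (ch v)) θ) :=
      h1.comp (g := fun p : ℂ × ℂ => W N k m (sl g m (ch p.1)) p.2)
        (f := fun v : ℂ => (v, θ)) (by fun_prop)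
    have h3 : Measurable (fun v => wt N v * W N k m (sl g m (ch v)) θ) := (wt_meas N).mul h2
    rw [Finset.prod_range_succ, mul_comm (∏ j ∈ Finset.range m, _), mul_assoc, W_succ,
      ← lintegral_const_mul _ h3]
    refine mul_le_mul' le_rfl (lintegral_mono fun v => ?_)
    simp only [e2 v]
    calc _ ≤ wt N v * ((∏ j ∈ Finset.range m, ENNReal.ofReal (∫ δ, ‖bb N (a j) δ‖ ^ 2)) *
          W N k m (sl g m (ch v)) θ) :=
            mul_le_mul' le_rfl (ih (sl g m (ch v)) (by omega) (sl_cc hg m (continuous_ch v)))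
      _ = _ := by ring

/-! ### the integral -/

/-- averages -/
noncomputable def J (N : ℝ) (g : ℂ → ℂ) (x : ℂ) : ℝ≥0∞ := ∫⁻ v, wt N v * ‖iF g (x + v)‖ₑ ^ 2

theorem J_meas (hB : StmtBase) (N : ℝ) {g : ℂ → ℂ} (hg : CC g) : Measurable (J N g) := by
  have hc : Continuous (iF g) := (hB.1 _ hg).1
  have h1 : Measurable (fun q : ℂ × ℂ => wt N q.2 * ‖iF g (q.1 + q.2)‖ₑ ^ 2) := by
    have h2 : Continuous (fun q : ℂ × ℂ => iF g (q.1 + q.2)) := by fun_prop
    exact ((wt_meas N).comp measurable_snd).mul (h2.measurable.enorm.pow_const 2)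
  exact h1.lintegral_prod_right'

theorem int_W (hC : StmtCV) (hB : StmtBase) (N : ℝ) (k m : ℕ) :
    ∀ g : ℕ → ℂ → ℂ, m ≤ k + 1 → (∀ j ≤ k, CC (g j)) →
    ∫⁻ θ, W N k m g θ = ∫⁻ x, ∏ j ∈ Finset.range (k + 1),
      if j < m then J N (g j) x else ‖iF (g j) x‖ₑ ^ 2 := by
  induction m with
  | zero =>
    intro g _ hg
    obtain ⟨h1, h2, h3⟩ := (hC k).1 g hg
    have hi : Integrable (fun x => ‖iF (cv k g) x‖ ^ 2) := (hB.1 _ h1).2.2.1
    have hP := (hB.1 _ h1).2.2.2.2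
    have hi2 : Integrable (fun θ => ‖cv k g θ‖ ^ 2) := by
      have hcn : Continuous (fun θ => ‖cv k g θ‖ ^ 2) := h1.1.norm.pow 2
      exact hcn.integrable_of_hasCompactSupport
        (h1.2.comp_left (g := fun z : ℂ => ‖z‖ ^ 2) (by simp))
    have e1 : ∫⁻ θ, W N k 0 g θ = ENNReal.ofReal (∫ θ, ‖cv k g θ‖ ^ 2) := by
      rw [ofReal_integral_eq_lintegral_ofReal hi2 (Eventually.of_forall fun v => by positivity)]
      congr 1
      funext θ
      rw [W_zero, ENNReal.ofReal_pow (norm_nonneg _), ofReal_norm]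
    rw [e1, ← hP, ofReal_integral_eq_lintegral_ofReal hi
      (Eventually.of_forall fun v => by positivity)]
    congr 1
    funext x
    simp only [Nat.not_lt_zero, if_false]
    rw [h2 x, norm_prod, ← Finset.prod_pow,
      ENNReal.ofReal_prod_of_nonneg fun j _ => by positivity]
    refine Finset.prod_congr rfl fun j _ => ?_
    rw [ENNReal.ofReal_pow (norm_nonneg _), ofReal_norm]
  | succ m ih =>
    intro g hm hg
    have hmk : m ≤ k := by omega
    have hmr : m ∈ Finset.range (k + 1) := Finset.mem_range.2 (by omega)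
    have hWm : Measurable (fun p : ℂ × ℂ => W N k m (sl g m (ch p.2)) p.1) :=
      (meas_W N k m ℂ (fun v => sl g m (ch v)) (meas_ch hg m)).comp
        (g := fun p : ℂ × ℂ => W N k m (sl g m (ch p.1)) p.2)
        (f := fun p : ℂ × ℂ => (p.2, p.1)) (by fun_prop)
    have e1 : ∫⁻ θ, W N k (m + 1) g θ
        = ∫⁻ v, wt N v * ∫⁻ θ, W N k m (sl g m (ch v)) θ := by
      simp only [W_succ]
      rw [lintegral_lintegral_swap (f := fun θ v => wt N v * W N k m (sl g m (ch v)) θ)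
        (((wt_meas N).comp measurable_snd).mul hWm).aemeasurable]
      congr 1
      funext v
      rw [lintegral_const_mul _ (meas_W1 m (sl_cc hg m (continuous_ch v)))]
    set R : ℂ → ℝ≥0∞ := fun x => ∏ j ∈ (Finset.range (k + 1)).erase m,
      (if j < m + 1 then J N (g j) x else ‖iF (g j) x‖ₑ ^ 2) with hR
    have hRm : Measurable R := by
      refine Finset.measurable_prod _ fun j hj => ?_
      have hjk : j ≤ k := by
        have := Finset.mem_range.1 (Finset.mem_of_mem_erase hj)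
        omega
      split_ifs
      · exact J_meas hB N (hg j hjk)
      · exact (hB.1 _ (hg j hjk)).1.measurable.enorm.pow_const 2
    have e2 : ∀ v x, ∏ j ∈ Finset.range (k + 1),
        (if j < m then J N (sl g m (ch v) j) x else ‖iF (sl g m (ch v) j) x‖ₑ ^ 2)
        = ‖iF (g m) (x + v)‖ₑ ^ 2 * R x := by
      intro v x
      rw [← Finset.mul_prod_erase _ _ hmr, if_neg (lt_irrefl _), sl_self, hB.2.2.1]
      congr 1
      refine Finset.prod_congr rfl fun j hj => ?_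
      have hjm : j ≠ m := Finset.ne_of_mem_erase hj
      rw [sl_ne g _ hjm]
      by_cases h : j < m
      · rw [if_pos h, if_pos (by omega)]
      · rw [if_neg h, if_neg (by omega)]
    rw [e1]
    have e3 : ∀ v, ∫⁻ θ, W N k m (sl g m (ch v)) θ = ∫⁻ x, ‖iF (g m) (x + v)‖ₑ ^ 2 * R x := by
      intro v
      rw [ih _ (by omega) (sl_cc hg m (continuous_ch v))]
      simp only [e2]
    have hcm : Continuous (iF (g m)) := (hB.1 _ (hg m hmk)).1
    have hm2 : Measurable (fun q : ℂ × ℂ => ‖iF (g m) (q.2 + q.1)‖ₑ ^ 2) := by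
      have h2 : Continuous (fun q : ℂ × ℂ => iF (g m) (q.2 + q.1)) := by fun_prop
      exact h2.measurable.enorm.pow_const 2
    have hm3 : ∀ v, Measurable (fun x : ℂ => ‖iF (g m) (x + v)‖ₑ ^ 2 * R x) := by
      intro v
      have h2 : Continuous (fun x : ℂ => iF (g m) (x + v)) := by fun_prop
      exact (h2.measurable.enorm.pow_const 2).mul hRm
    calc ∫⁻ v, wt N v * ∫⁻ θ, W N k m (sl g m (ch v)) θ
        = ∫⁻ v, ∫⁻ x, wt N v * (‖iF (g m) (x + v)‖ₑ ^ 2 * R x) := by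
          congr 1
          funext v
          rw [e3, lintegral_const_mul _ (hm3 v)]
      _ = ∫⁻ x, ∫⁻ v, wt N v * (‖iF (g m) (x + v)‖ₑ ^ 2 * R x) := by
          refine lintegral_lintegral_swap ?_
          exact (((wt_meas N).comp measurable_fst).mul
            (hm2.mul (hRm.comp measurable_snd))).aemeasurable
      _ = _ := by
          congr 1
          funext x
          rw [← Finset.mul_prod_erase _ _ hmr, if_pos (Nat.lt_succ_self m)]
          have h2 : Continuous (fun v : ℂ => iF (g m) (x + v)) := by fun_prop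
          have h4 : Measurable (fun v : ℂ => wt N v * ‖iF (g m) (x + v)‖ₑ ^ 2) :=
            (wt_meas N).mul (h2.measurable.enorm.pow_const 2)
          simp only [← mul_assoc]
          rw [lintegral_mul_const _ h4]
          rfl

theorem J_toReal (hB : StmtBase) {N : ℝ} (hN : 0 < N) {g : ℂ → ℂ} (hg : CC g) (x : ℂ) :
    (J N g x).toReal = N ^ 2 * ∫ y, KK N (x - y) * ‖iF g y‖ ^ 2 := by
  have hc : Continuous (iF g) := (hB.1 _ hg).1
  have h1 : J N g x = ∫⁻ v, ENNReal.ofReal (w1 N v ^ 2 * ‖iF g (x + v)‖ ^ 2) := by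
    unfold J
    congr 1
    funext v
    rw [ENNReal.ofReal_mul (sq_nonneg _), wt_ofReal, ENNReal.ofReal_pow (norm_nonneg _),
      ofReal_norm]
  rw [h1, ← integral_eq_lintegral_of_nonneg_ae (Eventually.of_forall fun v => by positivity) ?_]
  · simp only [w1_sq hN, mul_assoc]
    rw [integral_const_mul]
    congr 1
    rw [← integral_add_left_eq_self (fun y => KK N (x - y) * ‖iF g y‖ ^ 2) x]
    congr 1
    funext v
    rw [sub_add_cancel_left, KK_symm]
  · have h2 := w1_cont N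
    have h3 : Continuous (fun v => w1 N v ^ 2 * ‖iF g (x + v)‖ ^ 2) := by fun_prop
    exact h3.aestronglyMeasurable

theorem J_le (hB : StmtBase) {N : ℝ} (hN : 0 < N) {g : ℂ → ℂ} (hg : CC g) :
    ∃ b : ℝ≥0∞, b ≠ ∞ ∧ ∀ x, J N g x ≤ b := by
  obtain ⟨B, hBd⟩ := (hB.1 _ hg).2.1
  refine ⟨(∫⁻ v, wt N v) * ENNReal.ofReal B ^ 2, ?_, ?_⟩
  · exact ENNReal.mul_ne_top (wt_fin hN) (ENNReal.pow_ne_top ENNReal.ofReal_ne_top)
  · intro x
    unfold J
    rw [← lintegral_mul_const _ (wt_meas N)]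
    refine lintegral_mono fun v => ?_
    gcongr
    rw [← ofReal_norm]
    exact ENNReal.ofReal_le_ofReal (hBd _)

theorem J_int (hB : StmtBase) {N : ℝ} (hN : 0 < N) {g : ℂ → ℂ} (hg : CC g) :
    ∫⁻ x, J N g x ≠ ∞ := by
  have hc : Continuous (iF g) := (hB.1 _ hg).1
  unfold J
  rw [lintegral_lintegral_swap]
  · have h1 : ∀ v, ∫⁻ x, wt N v * ‖iF g (x + v)‖ₑ ^ 2 = wt N v * ∫⁻ x, ‖iF g x‖ₑ ^ 2 := by
      intro v
      have h2 : Continuous (fun x : ℂ => iF g (x + v)) := by fun_prop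
      rw [lintegral_const_mul _ (h2.measurable.enorm.pow_const 2),
        lintegral_add_right_eq_self (fun x => ‖iF g x‖ₑ ^ 2) v]
    simp only [h1]
    rw [lintegral_mul_const _ (wt_meas N)]
    refine ENNReal.mul_ne_top (wt_fin hN) ?_
    have h3 := (hB.1 _ hg).2.2.1.lintegral_lt_top
    refine ne_of_lt (lt_of_eq_of_lt (lintegral_congr fun x => ?_) h3)
    rw [ENNReal.ofReal_pow (norm_nonneg _), ofReal_norm]
  · have h2 : Continuous (fun q : ℂ × ℂ => iF g (q.1 + q.2)) := by fun_prop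
    exact (((wt_meas N).comp measurable_snd).mul (h2.measurable.enorm.pow_const 2)).aemeasurable

theorem prod_int (hB : StmtBase) {N : ℝ} (hN : 0 < N) {k : ℕ} {g : ℕ → ℂ → ℂ}
    (hg : ∀ j ≤ k, CC (g j)) : ∫⁻ x, ∏ j ∈ Finset.range (k + 1), J N (g j) x ≠ ∞ := by
  have h1 : ∀ j, ∃ b : ℝ≥0∞, b ≠ ∞ ∧ (j ≤ k → ∀ x, J N (g j) x ≤ b) := by
    intro j
    by_cases hj : j ≤ k
    · obtain ⟨b, hb, h⟩ := J_le hB hN (hg j hj)
      exact ⟨b, hb, fun _ => h⟩
    · exact ⟨0, by simp, fun h => absurd h hj⟩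
  choose b hb hJ using h1
  have h2 : ∀ x, ∏ j ∈ Finset.range (k + 1), J N (g j) x
      ≤ (∏ j ∈ Finset.range k, b (j + 1)) * J N (g 0) x := by
    intro x
    rw [Finset.prod_range_succ']
    gcongr with j hj
    exact hJ _ (by have := Finset.mem_range.1 hj; omega) x
  refine ne_of_lt ((lintegral_mono h2).trans_lt ?_)
  rw [lintegral_const_mul _ (J_meas hB N (hg 0 (by omega)))]
  refine ENNReal.mul_lt_top ?_ (lt_top_iff_ne_top.2 (J_int hB hN (hg 0 (by omega))))
  exact ENNReal.prod_lt_top fun j _ => lt_top_iff_ne_top.2 (hb _)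

end MPtAux

open MPtAux in
/-- (MPt) the pointwise multilinear estimate -/
theorem mPt (hC : StmtCV) (_hC2 : StmtCV2) (hB : Four.StmtBase) : StmtMPt := by
  intro k N g hN hg
  have hfin : ∀ θ, W N k (k + 1) g θ ≠ ∞ := W_fin hC hN k (k + 1) hg
  have hmeas : Measurable (W N k (k + 1) g) := meas_W1 (k + 1) hg
  have hint : ∫⁻ θ, W N k (k + 1) g θ = ∫⁻ x, ∏ j ∈ Finset.range (k + 1), J N (g j) x := by
    rw [int_W hC hB N k (k + 1) g le_rfl hg]
    congr 1
    funext x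
    refine Finset.prod_congr rfl fun j hj => ?_
    rw [if_pos (Finset.mem_range.1 hj)]
  have hpf := prod_int hB hN hg
  refine ⟨fun θ => (W N k (k + 1) g θ).toReal, fun θ => ENNReal.toReal_nonneg, ?_, ?_, ?_⟩
  · exact integrable_toReal_of_lintegral_ne_top hmeas.aemeasurable (by rw [hint]; exact hpf)
  · refine le_of_eq ?_
    rw [integral_toReal hmeas.aemeasurable
      (Eventually.of_forall fun θ => lt_top_iff_ne_top.2 (hfin θ)), hint,
      ← integral_toReal]
    · rw [← integral_const_mul]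
      congr 1
      funext x
      rw [ENNReal.toReal_prod]
      rw [pow_mul, show (N ^ 2) ^ (k + 1) = ∏ _j ∈ Finset.range (k + 1), N ^ 2 by
        rw [Finset.prod_const, Finset.card_range], ← Finset.prod_mul_distrib]
      refine Finset.prod_congr rfl fun j hj => ?_
      exact J_toReal hB hN (hg j (by have := Finset.mem_range.1 hj; omega)) x
    · refine Measurable.aemeasurable (Finset.measurable_prod _ fun j hj => ?_)
      exact J_meas hB N (hg j (by have := Finset.mem_range.1 hj; omega))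
    · refine Eventually.of_forall fun x => ?_
      refine ENNReal.prod_lt_top fun j hj => ?_
      obtain ⟨b, hb, h⟩ := J_le hB hN (hg j (by have := Finset.mem_range.1 hj; omega))
      exact (h x).trans_lt (lt_top_iff_ne_top.2 hb)
  · intro θ a ha
    have h1 := ptw hC hB hN ha (θ / (k + 1)) θ (k + 1) g le_rfl hg
    have e1 : cv k (fun j ζ => if j < k + 1 then a j (ζ - θ / (k + 1)) * g j ζ else g j ζ)
        = cv k (fun j ζ => a j (ζ - θ / (k + 1)) * g j ζ) :=
      CVaux.cv_congr fun i hi => by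
        funext ζ
        rw [if_pos (by omega)]
    rw [e1] at h1
    have h2 := ENNReal.toReal_mono (ENNReal.mul_ne_top
      (ENNReal.prod_ne_top fun j _ => ENNReal.ofReal_ne_top) (hfin θ)) h1
    rw [ENNReal.toReal_mul, ENNReal.toReal_prod, ENNReal.toReal_pow, toReal_enorm] at h2
    refine h2.trans (le_of_eq ?_)
    congr 1
    refine Finset.prod_congr rfl fun j _ => ?_
    rw [ENNReal.toReal_ofReal (integral_nonneg fun _ => by positivity)]
    rfl

end Pool.Agent.Lib.MP_dd244f_an.Even
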