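import Pool.Agent.Lib.MP_dd244f_an.Even.Stmts

/-!
Full operator, even `p`: the main inequality for compactly supported Fourier transforms.
-/

set_option autoImplicit false

namespace Pool.Agent.Lib.MP_dd244f_an.Even

open MeasureTheory Filter Topology Finset
open Pool.Agent.Lib.MP_dd244f_an.Joint (st ct Mst ratio)
open Pool.Agent.Lib.MP_dd244f_an.Four

theorem mNK_nonneg (K : ℕ) (g : ℂ → ℂ) : 0 ≤ NK K g := integral_nonneg fun _ => by positivity

theorem mgamK_pos (k : ℕ) : 0 < gamK k := by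
  unfold gamK
  have hk : (0 : ℝ) ≤ k := Nat.cast_nonneg k
  apply div_pos
  · apply Real.Gamma_pos_of_pos; positivity
  · apply Real.Gamma_pos_of_pos
    rw [sub_pos, div_lt_one (by positivity)]
    linarith

theorem iF_blockK (hB : StmtBase) (hF : StmtFac) {g : ℂ → ℂ} (hg : CC g) (s : ℤ) (k : ℕ) (x : ℂ) :
    iF (cut (bd s (s + k)) g) x = ∑ i ∈ Finset.range k, iF (cut (sh (s + i)) g) x := by
  induction k with
  | zero =>
    simp only [Nat.cast_zero, add_zero, Finset.range_zero, Finset.sum_empty]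
    unfold iF cut
    simp [bd_self]
  | succ k ih =>
    rw [Finset.sum_range_succ, ← ih]
    have hadd := hB.2.2.2.2.1 _ _ (hF.2.2.2.2.1 g s (s + k) hg).2.1
      (hF.2.2.2.2.1 g (s + k) s hg).2.2 x
    rw [← hadd]
    congr 1
    ext ζ
    unfold cut sh bd
    have e : (s : ℤ) + ((k + 1 : ℕ) : ℤ) = s + k + 1 := by push_cast; ring
    rw [e]
    push_cast
    ring

theorem iF_integrable (hB : StmtBase) {g : ℂ → ℂ} (hg : CC g) (k : ℕ) :
    Integrable (fun x => ‖iF g x‖ ^ (2 * (k + 1))) := by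
  obtain ⟨hc, ⟨B, hBd⟩, h2, -, -⟩ := hB.1 g hg
  have hB0 : 0 ≤ B := (norm_nonneg _).trans (hBd 0)
  apply Integrable.mono' (h2.const_mul (B ^ (2 * k)))
  · have : Continuous fun x => ‖iF g x‖ ^ (2 * (k + 1)) := by fun_prop
    exact this.aestronglyMeasurable
  · refine Eventually.of_forall fun x => ?_
    rw [Real.norm_of_nonneg (by positivity)]
    have : ‖iF g x‖ ^ (2 * (k + 1)) = ‖iF g x‖ ^ (2 * k) * ‖iF g x‖ ^ 2 := by
      rw [← pow_add]; ring_nf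
    rw [this]
    exact mul_le_mul_of_nonneg_right (pow_le_pow_left₀ (norm_nonneg _) (hBd x) _) (by positivity)

theorem sum_pow_card (j k : ℕ) (u : ℕ → ℝ) (hu : ∀ i, 0 ≤ u i) :
    (∑ i ∈ Finset.range j, u i) ^ (2 * (k + 1)) ≤
      (j : ℝ) ^ (2 * k + 1) * ∑ i ∈ Finset.range j, u i ^ (2 * (k + 1)) := by
  rcases Nat.eq_zero_or_pos j with rfl | hj
  · simp
  · have h := pow_sum_div_card_le_sum_pow (s := Finset.range j) (f := u)
      (fun i _ => hu i) (2 * k + 1)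
    have hj' : (0 : ℝ) < j := by exact_mod_cast hj
    rw [Finset.card_range, div_le_iff₀ (by positivity)] at h
    have e : 2 * (k + 1) = 2 * k + 1 + 1 := by ring
    rw [e]
    linarith

theorem block_leK (hB : StmtBase) (hF : StmtFac) {g : ℂ → ℂ} (hg : CC g) (k : ℕ) (s : ℤ) (j : ℕ) :
    NK (k + 1) (cut (bd s (s + j)) g) ≤
      (j : ℝ) ^ (2 * k + 1) * ∑ i ∈ Finset.range j, NK (k + 1) (cut (sh (s + i)) g) := by
  have hint : ∀ i : ℤ, Integrable (fun x => ‖iF (cut (sh i) g) x‖ ^ (2 * (k + 1))) := fun i =>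
    iF_integrable hB (hF.2.2.2.2.1 g i i hg).2.2 k
  have hI := iF_integrable hB (hF.2.2.2.2.1 g s (s + j) hg).2.1 k
  unfold NK
  rw [← integral_finsetSum _ (fun i _ => hint _), ← integral_const_mul]
  refine integral_mono hI ((integrable_finsetSum _ (fun i _ => hint _)).const_mul _) fun x => ?_
  simp only
  rw [iF_blockK hB hF hg]
  refine (pow_le_pow_left₀ (norm_nonneg _) (norm_sum_le _ _) _).trans ?_
  exact sum_pow_card j k _ fun i => norm_nonneg _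

theorem inj_auxK (L : ℕ) (Bs : Finset ℤ) (c : ℤ) :
    Set.InjOn (fun p : ℤ × ℕ => c + p.1 * (L : ℤ) + p.2)
      ((Bs ×ˢ Finset.range L : Finset (ℤ × ℕ)) : Set (ℤ × ℕ)) := by
  rintro ⟨b, t⟩ h ⟨b', t'⟩ h' he
  simp only [Finset.coe_product, Set.mem_prod, Finset.mem_coe, Finset.mem_range] at h h'
  simp only at he
  have e1 : (b - b') * (L : ℤ) = (t' : ℤ) - t := by linarith
  have hb : b - b' = 0 := by
    by_contra hne
    have h3 : (1 : ℤ) ≤ |b - b'| := Int.one_le_abs hne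
    have h4 : |(b - b') * (L : ℤ)| = |b - b'| * L := by rw [abs_mul, Nat.abs_cast]
    have h5 : |(t' : ℤ) - t| < L := by
      rw [abs_lt]; constructor <;> omega
    rw [e1] at h4
    have : (L : ℤ) ≤ |b - b'| * L := by nlinarith [Int.natCast_nonneg L]
    omega
  have hbb : b = b' := by omega
  rw [hb, zero_mul] at e1
  have : t = t' := by omega
  simp [this, hbb]

theorem sum_blocks_leK (hB : StmtBase) (hF : StmtFac) {C : ℝ} (k : ℕ)
    (hP : ∀ (A : Finset ℤ) (g : ℂ → ℂ),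
      CC g → ∑ a ∈ A, NK (k + 1) (cut (sh a) g) ≤ C * NK (k + 1) g) {g : ℂ → ℂ} (hg : CC g)
    (c : ℤ) (L : ℕ) (Bs : Finset ℤ) :
    ∑ b ∈ Bs, NK (k + 1) (cut (bd (c + b * L) (c + b * L + L)) g) ≤
      (L : ℝ) ^ (2 * k + 1) * (C * NK (k + 1) g) := by
  calc ∑ b ∈ Bs, NK (k + 1) (cut (bd (c + b * L) (c + b * L + L)) g)
      ≤ ∑ b ∈ Bs, (L : ℝ) ^ (2 * k + 1) *
          ∑ i ∈ Finset.range L, NK (k + 1) (cut (sh (c + b * L + i)) g) :=
        Finset.sum_le_sum fun b _ => block_leK hB hF hg _ _ _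
    _ = (L : ℝ) ^ (2 * k + 1) *
          ∑ b ∈ Bs, ∑ i ∈ Finset.range L, NK (k + 1) (cut (sh (c + b * L + i)) g) := by
        rw [Finset.mul_sum]
    _ = (L : ℝ) ^ (2 * k + 1) *
          ∑ p ∈ Bs ×ˢ Finset.range L, NK (k + 1) (cut (sh (c + p.1 * L + p.2)) g) := by
        rw [Finset.sum_product]
    _ = (L : ℝ) ^ (2 * k + 1) * ∑ a ∈ (Bs ×ˢ Finset.range L).image
          (fun p : ℤ × ℕ => c + p.1 * (L : ℤ) + p.2), NK (k + 1) (cut (sh a) g) := by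
        rw [Finset.sum_image (inj_auxK L Bs c)]
    _ ≤ _ := mul_le_mul_of_nonneg_left (hP _ g hg) (by positivity)

theorem exists_le_of_sum_leK {L : ℕ} (hL : 1 ≤ L) (f : ℕ → ℝ) (K : ℝ)
    (h : ∑ t ∈ Finset.range L, f t ≤ L * K) : ∃ t ∈ Finset.range L, f t ≤ K := by
  by_contra hcon
  push_neg at hcon
  have : ∑ t ∈ Finset.range L, K < ∑ t ∈ Finset.range L, f t :=
    Finset.sum_lt_sum_of_nonempty ⟨0, Finset.mem_range.2 hL⟩ hcon
  rw [Finset.sum_const, Finset.card_range, nsmul_eq_mul] at this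
  linarith

theorem sq_splitK {δ : ℝ} (hδ : 0 < δ) (a b : ℂ) :
    ‖a‖ ^ 2 ≤ (1 + δ) * ‖b‖ ^ 2 + (1 + 1 / δ) * ‖b - a‖ ^ 2 := by
  have h1 : ‖a‖ ≤ ‖b‖ + ‖b - a‖ := by
    have := norm_sub_le b (b - a)
    simpa using this
  have h2 : ‖a‖ ^ 2 ≤ (‖b‖ + ‖b - a‖) ^ 2 := pow_le_pow_left₀ (norm_nonneg _) h1 2
  have h3 : 0 ≤ (δ * ‖b‖ - ‖b - a‖) ^ 2 / δ := by positivity
  have h4 : (δ * ‖b‖ - ‖b - a‖) ^ 2 / δ
      = δ * ‖b‖ ^ 2 - 2 * ‖b‖ * ‖b - a‖ + 1 / δ * ‖b - a‖ ^ 2 := by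
    field_simp
    ring
  nlinarith [h2, h3, h4]

/-- the pass from the blocks to the whole function (`c = -t`) -/
theorem inner_sumK (hBlk : StmtBlockK) (hEIJ : StmtEIJK) (hTail : StmtTailK) (hShK : StmtShK)
    (hC2 : StmtCV2) (hF : StmtFac) (hB : StmtBase) (k : ℕ) (hk : 1 ≤ k) (δ : ℝ) (hδ : 0 < δ)
    (hδ1 : δ ≤ 1) :
    ∃ m : ℕ, 4 ≤ m ∧ ∀ L : ℕ, 2 * m < L → ∃ n₀ : ℕ, ∀ n ≥ n₀, ∀ g, CC g → ∀ (c : ℤ)
      (Bs : Finset ℤ),
      ∑ b ∈ Bs, NK (k + 1) (cut (bd (c + b * L + m) (c + b * L + L - m)) (mg n g)) ≤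
        ((1 + 19 * δ) * gamK k ^ (2 * k + 2) + δ) * (n : ℝ) ^ (2 * k) * NK (k + 1) g := by
  obtain ⟨Q, m₀, hQ, hm₀, hBlk⟩ := hBlk k δ hk hδ
  obtain ⟨m₁, hEIJ⟩ := hEIJ k δ hk hδ
  obtain ⟨CP, hCP, hShK⟩ := hShK k hk
  have hP4 : ∀ (A : Finset ℤ) (g : ℂ → ℂ), CC g →
      ∑ a ∈ A, NK (k + 1) (cut (sh a) g) ≤ CP * NK (k + 1) g :=
    fun A g hg => (hShK A g hg).2.2
  have hmm : 16 * (k + 1) ≤ 2 ^ (max m₀ m₁) :=
    hm₀.trans (Nat.pow_le_pow_right (by norm_num) (le_max_left _ _))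
  have hm4 : 4 ≤ max m₀ m₁ := by
    by_contra hcon
    have h4 : max m₀ m₁ ≤ 3 := by omega
    have h5 : 2 ^ (max m₀ m₁) ≤ 2 ^ 3 := Nat.pow_le_pow_right (by norm_num) h4
    omega
  refine ⟨max m₀ m₁, hm4, ?_⟩
  set m := max m₀ m₁ with hm
  intro L hL
  have hL0 : (0 : ℝ) < L := by
    have : 0 < L := by omega
    exact_mod_cast this
  obtain ⟨n₁, hn₁1, hBlk⟩ := hBlk m (le_max_left _ _) L hL (δ / ((L : ℝ) ^ (2 * k + 1) * CP)) (by positivity)
  obtain ⟨n₂, hEIJ⟩ := hEIJ m (le_max_right _ _) L hL Q hQ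
  obtain ⟨n₃, hTail⟩ := hTail k Q L m (δ / (1 + 1 / δ)) hk hQ hmm hL (by positivity)
  refine ⟨max n₁ (max n₂ n₃), ?_⟩
  intro n hn g hg c Bs
  have hn1 : n ≥ n₁ := (le_max_left _ _).trans hn
  have hn2 : n ≥ n₂ := ((le_max_left _ _).trans (le_max_right _ _)).trans hn
  have hn3 : n ≥ n₃ := ((le_max_right _ _).trans (le_max_right _ _)).trans hn
  have hE := hEIJ n hn2 g hg c Bs
  have hT := hTail n hn3 g hg c Bs
  have hN : 0 ≤ NK (k + 1) g := mNK_nonneg _ _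
  -- each block
  have h1 : ∀ b ∈ Bs, NK (k + 1) (cut (bd (c + b * L + m) (c + b * L + L - m)) (mg n g)) ≤
      (1 + δ) * gamK k ^ (2 * k + 2) * (n : ℝ) ^ (2 * k) *
        ((1 + δ) * (∫ θ in JK k (c + b * L) L m, ‖AK k (win n Q (c + b * L) L) (fun _ => g) θ‖ ^ 2)
        + (1 + 1 / δ) * (∫ θ in JK k (c + b * L) L m, ‖AK k (win n Q (c + b * L) L) (fun _ => g) θ
          - AK k (win n Q (c + b * L) L)
              (fun _ => cut (bd (c + b * L) (c + b * L + L)) g) θ‖ ^ 2))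
      + δ / ((L : ℝ) ^ (2 * k + 1) * CP) * (n : ℝ) ^ (2 * k) * NK (k + 1) (cut (bd (c + b * L) (c + b * L + L)) g) := by
    intro b _
    have h := hBlk n hn1 (c + b * L) g hg
    refine h.trans ?_
    have hgam : 0 ≤ gamK k ^ (2 * k + 2) := by
      have := mgamK_pos k
      positivity
    set gb := cut (bd (c + b * L) (c + b * L + L)) g with hgb
    have hgbc : CC gb := (hF.2.2.2.2.1 g _ _ hg).2.1
    set σ := win n Q (c + b * L) L
    have hcc1 : CC (AK k σ (fun _ => g)) := (hC2 k).2.1 σ (fun _ => g) (fun _ _ => hg)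
    have hcc2 : CC (AK k σ (fun _ => gb)) := (hC2 k).2.1 σ (fun _ => gb) (fun _ _ => hgbc)
    have hi1 : Integrable (fun θ => ‖AK k σ (fun _ => g) θ‖ ^ 2) := by
      apply Continuous.integrable_of_hasCompactSupport
      · have := hcc1.1; fun_prop
      · exact hcc1.2.comp_left (g := fun z => ‖z‖ ^ 2) (by simp)
    have hi2 : Integrable (fun θ => ‖AK k σ (fun _ => gb) θ‖ ^ 2) := by
      apply Continuous.integrable_of_hasCompactSupport
      · have := hcc2.1; fun_prop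
      · exact hcc2.2.comp_left (g := fun z => ‖z‖ ^ 2) (by simp)
    have hi3 : Integrable (fun θ => ‖AK k σ (fun _ => g) θ - AK k σ (fun _ => gb) θ‖ ^ 2) := by
      apply Continuous.integrable_of_hasCompactSupport
      · have := hcc2.1; have := hcc1.1; fun_prop
      · have : HasCompactSupport (fun θ => AK k σ (fun _ => g) θ - AK k σ (fun _ => gb) θ) := hcc1.2.sub hcc2.2
        exact this.comp_left (g := fun z => ‖z‖ ^ 2) (by simp)
    have h2 : (∫ θ in JK k (c + b * L) L m, ‖AK k σ (fun _ => gb) θ‖ ^ 2) ≤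
        (1 + δ) * (∫ θ in JK k (c + b * L) L m, ‖AK k σ (fun _ => g) θ‖ ^ 2)
        + (1 + 1 / δ) * (∫ θ in JK k (c + b * L) L m, ‖AK k σ (fun _ => g) θ - AK k σ (fun _ => gb) θ‖ ^ 2) := by
      rw [← integral_const_mul, ← integral_const_mul, ← integral_add
        (hi1.integrableOn.const_mul _) (hi3.integrableOn.const_mul _)]
      refine setIntegral_mono hi2.integrableOn
        ((hi1.integrableOn.const_mul _).add (hi3.integrableOn.const_mul _)) fun θ => ?_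
      exact sq_splitK hδ _ _
    have h3 := mul_le_mul_of_nonneg_left h2 (show 0 ≤ (1 + δ) * gamK k ^ (2 * k + 2) * (n : ℝ) ^ (2 * k) by positivity)
    linarith
  refine (Finset.sum_le_sum h1).trans ?_
  rw [Finset.sum_add_distrib, ← Finset.mul_sum, Finset.sum_add_distrib, ← Finset.mul_sum,
    ← Finset.mul_sum, ← Finset.mul_sum]
  have hS := sum_blocks_leK hB hF k hP4 hg c L Bs
  have e1 : (1 + 1 / δ) * (δ / (1 + 1 / δ) * NK (k + 1) g) = δ * NK (k + 1) g := by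
    field_simp
  have hT' := mul_le_mul_of_nonneg_left hT (show 0 ≤ 1 + 1 / δ by positivity)
  rw [e1] at hT'
  have hE' := mul_le_mul_of_nonneg_left hE (show 0 ≤ 1 + δ by positivity)
  have hS' := mul_le_mul_of_nonneg_left hS
    (show 0 ≤ δ / ((L : ℝ) ^ (2 * k + 1) * CP) * (n : ℝ) ^ (2 * k) by positivity)
  have e2 : δ / ((L : ℝ) ^ (2 * k + 1) * CP) * (n : ℝ) ^ (2 * k) * ((L : ℝ) ^ (2 * k + 1) * (CP * NK (k + 1) g)) = δ * (n : ℝ) ^ (2 * k) * NK (k + 1) g := by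
    field_simp
  rw [e2] at hS'
  have hgam : 0 ≤ gamK k ^ (2 * k + 2) := by
      have := mgamK_pos k
      positivity
  have h4 : (1 + δ) * gamK k ^ (2 * k + 2) * (n : ℝ) ^ (2 * k) * ((1 + δ) * (∑ b ∈ Bs,
      ∫ θ in JK k (c + b * L) L m, ‖AK k (win n Q (c + b * L) L) (fun _ => g) θ‖ ^ 2)
        + (1 + 1 / δ) * (∑ b ∈ Bs, ∫ θ in JK k (c + b * L) L m,
          ‖AK k (win n Q (c + b * L) L) (fun _ => g) θ
          - AK k (win n Q (c + b * L) L)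
              (fun _ => cut (bd (c + b * L) (c + b * L + L)) g) θ‖ ^ 2))
      ≤ (1 + δ) * gamK k ^ (2 * k + 2) * (n : ℝ) ^ (2 * k) * ((1 + δ) * ((1 + δ) * NK (k + 1) g) + δ * NK (k + 1) g) :=
    mul_le_mul_of_nonneg_left (add_le_add hE' hT') (by positivity)
  have h5 : (1 + δ) * gamK k ^ (2 * k + 2) * (n : ℝ) ^ (2 * k) * ((1 + δ) * ((1 + δ) * NK (k + 1) g) + δ * NK (k + 1) g)
      ≤ (1 + 19 * δ) * gamK k ^ (2 * k + 2) * (n : ℝ) ^ (2 * k) * NK (k + 1) g := by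
    have e3 : (1 + δ) * gamK k ^ (2 * k + 2) * (n : ℝ) ^ (2 * k) * ((1 + δ) * ((1 + δ) * NK (k + 1) g) + δ * NK (k + 1) g)
      = ((1 + δ) * ((1 + δ) * (1 + δ) + δ)) * (gamK k ^ (2 * k + 2) * (n : ℝ) ^ (2 * k) * NK (k + 1) g) := by ring
    have e4 : (1 + 19 * δ) * gamK k ^ (2 * k + 2) * (n : ℝ) ^ (2 * k) * NK (k + 1) g
      = (1 + 19 * δ) * (gamK k ^ (2 * k + 2) * (n : ℝ) ^ (2 * k) * NK (k + 1) g) := by ring
    rw [e3, e4]
    apply mul_le_mul_of_nonneg_right _ (by positivity)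
    have d2 : δ ^ 2 ≤ δ := by rw [sq]; exact mul_le_of_le_one_right hδ.le hδ1
    have d3 : δ ^ 3 ≤ δ := by
      have : δ ^ 3 = δ ^ 2 * δ := by ring
      rw [this]; exact (mul_le_of_le_one_right (by positivity) hδ1).trans d2
    have : (1 + δ) * ((1 + δ) * (1 + δ) + δ) = 1 + 4 * δ + 4 * δ ^ 2 + δ ^ 3 := by ring
    rw [this]
    linarith
  calc _ ≤ (1 + 19 * δ) * gamK k ^ (2 * k + 2) * (n : ℝ) ^ (2 * k) * NK (k + 1) g + δ * (n : ℝ) ^ (2 * k) * NK (k + 1) g :=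
        add_le_add (h4.trans h5) hS'
    _ = _ := by ring

theorem mainK (hAvg : StmtAvgK) (hApr : StmtAprK) (hShK : StmtShK) (hBlk : StmtBlockK)
    (hEIJ : StmtEIJK) (hTail : StmtTailK) (hBd : StmtBdryK) (hSh : StmtShift) (hC2 : StmtCV2)
    (hF : StmtFac) (hB : StmtBase) : StmtMainK := by
  intro k ε hk hε
  have hgam : 0 < gamK k := mgamK_pos k
  set Γ : ℝ := gamK k ^ (2 * k + 2) with hΓ
  have hΓ0 : 0 < Γ := by positivity
  set δ : ℝ := min 1 (ε * Γ / (58 * Γ + 4)) with hδdef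
  have hδ : 0 < δ := lt_min one_pos (by positivity)
  have hδ1 : δ ≤ 1 := min_le_left _ _
  have hδ2 : δ * (58 * Γ + 4) ≤ ε * Γ := by
    have := min_le_right 1 (ε * Γ / (58 * Γ + 4))
    rw [← hδdef] at this
    rwa [le_div_iff₀ (by positivity)] at this
  obtain ⟨m, hm4, hin⟩ := inner_sumK hBlk hEIJ hTail hShK hC2 hF hB k hk δ hδ hδ1
  obtain ⟨CA, c, nV, hCA, hc0, hnV, hAvg⟩ := hAvg k hk
  obtain ⟨B, nA, hB1, hnA, hApr⟩ := hApr k hk
  obtain ⟨CP, hCP, hShK⟩ := hShK k hk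
  have hP4 : ∀ (A : Finset ℤ) (g : ℂ → ℂ), CC g →
      ∑ a ∈ A, NK (k + 1) (cut (sh a) g) ≤ CP * NK (k + 1) g :=
    fun A g hg => (hShK A g hg).2.2
  obtain ⟨CD, hCD, hBd⟩ := hBd k δ hδ
  have hm0 : (0 : ℝ) < m := by
    have : 0 < m := by omega
    exact_mod_cast this
  -- choice of L
  set W : ℝ := 2 * CA + CD * (m : ℝ) ^ (2 * k + 1) * (2 * m * (CP * B)) with hW
  have hB0 : 0 < B := by linarith
  have hW0 : 0 < W := by positivity
  obtain ⟨L₀, hL₀⟩ := exists_nat_gt (W / δ)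
  set L := max L₀ (2 * m + 1) with hLdef
  have hL2 : 2 * m < L := by
    have := le_max_right L₀ (2 * m + 1); omega
  have hLW : W ≤ L * δ := by
    have h1 : (L₀ : ℝ) ≤ L := by exact_mod_cast le_max_left _ _
    have h2 : W / δ ≤ L := hL₀.le.trans h1
    rwa [div_le_iff₀ hδ] at h2
  have hL1 : 1 ≤ L := by omega
  obtain ⟨n₁, hin⟩ := hin L hL2
  have hlim : Tendsto (fun n : ℕ => (L : ℝ) * (1 / n : ℝ) ^ c) atTop (𝓝 0) := by
    have h1 : Tendsto (fun n : ℕ => (1 / n : ℝ)) atTop (𝓝 0) := tendsto_one_div_atTop_nhds_zero_nat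
    have h2 := (h1.rpow_const (p := c) (Or.inr hc0.le)).const_mul (L : ℝ)
    rwa [Real.zero_rpow hc0.ne', mul_zero] at h2
  obtain ⟨nL, hnL⟩ := eventually_atTop.1 (hlim.eventually_le_const (by norm_num : (0 : ℝ) < 1))
  refine ⟨max (max nA n₁) (max nV nL), ?_⟩
  intro n hn g hg hZ
  have hnnA : n ≥ nA := ((le_max_left _ _).trans (le_max_left _ _)).trans hn
  have hnn1 : n ≥ n₁ := ((le_max_right _ _).trans (le_max_left _ _)).trans hn
  have hnnV : n ≥ nV := ((le_max_left _ _).trans (le_max_right _ _)).trans hn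
  have hnnL : n ≥ nL := ((le_max_right _ _).trans (le_max_right _ _)).trans hn
  have hn1 : 1 ≤ n := hnA.trans hnnA
  have hn0 : (0 : ℝ) < n := by
    have : 0 < n := by omega
    exact_mod_cast this
  have hLn : (L : ℝ) * (1 / n : ℝ) ^ c ≤ 1 := hnL n hnnL
  have hG : CC (mg n g) ∧ Z0 (mg n g) := hF.2.2.2.2.2.1 g n hn1 hg hZ
  have hApr' := hApr n hnnA g hg hZ
  have hN : 0 ≤ NK (k + 1) g := mNK_nonneg _ _
  -- support
  obtain ⟨R, hR⟩ : ∃ R : ℕ, Sup R g := by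
    obtain ⟨r₁, hr₁0, hr₁⟩ := Metric.eventually_nhds_iff_ball.1 hZ
    obtain ⟨r₂, hr₂⟩ := hg.2.isCompact.isBounded.subset_closedBall (0 : ℂ)
    obtain ⟨R₁, hR₁⟩ := exists_pow_lt_of_lt_one hr₁0 (by norm_num : (1 / 2 : ℝ) < 1)
    obtain ⟨R₂, hR₂⟩ := pow_unbounded_of_one_lt r₂ (by norm_num : (1 : ℝ) < 2)
    refine ⟨max R₁ R₂, fun ζ hζ => ⟨?_, ?_⟩⟩
    · have h1 : r₁ ≤ ‖ζ‖ := by
        by_contra h2
        push_neg at h2
        exact hζ (hr₁ ζ (by simpa using h2))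
      refine le_trans ?_ h1
      refine le_trans ?_ hR₁.le
      rw [zpow_neg, zpow_natCast, one_div, inv_pow]
      apply inv_anti₀ (by positivity)
      exact pow_le_pow_right₀ (by norm_num) (le_max_left _ _)
    · have h1 : ζ ∈ Metric.closedBall (0 : ℂ) r₂ := hr₂ (subset_tsupport _ hζ)
      rw [mem_closedBall_zero_iff] at h1
      rw [zpow_natCast]
      refine h1.trans (hR₂.le.trans ?_)
      exact pow_le_pow_right₀ (by norm_num) (le_max_right _ _)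
  set I : Finset ℤ := Finset.Icc (-((R : ℤ) + 4)) (R + 4) with hI
  set G := mg n g with hGdef
  have hGS : ∀ ζ, G ζ ≠ 0 → (2 : ℝ) ^ (-(R : ℤ)) ≤ ‖ζ‖ ∧ ‖ζ‖ ≤ (2 : ℝ) ^ (R : ℤ) := by
    intro ζ hζ
    apply hR
    intro h
    apply hζ
    rw [hGdef]; unfold mg; rw [h, mul_zero]
  -- averaging
  have hA := hAvg n hnnV R L g hL1 hg hR
  set x : ℤ → ℝ := fun i => NK (k + 1) (cut (sh i) G) with hx
  have hx0 : ∀ i, 0 ≤ x i := fun i => mNK_nonneg _ _
  have hcutz : ∀ i : ℤ, (∀ ζ, G ζ ≠ 0 → sh i ζ = 0) → x i = 0 := by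
    intro i hi
    have : cut (sh i) G = fun _ => 0 := by
      ext ζ
      unfold cut
      by_cases h : G ζ = 0
      · rw [h, mul_zero]
      · rw [hi ζ h]; simp
    rw [hx]
    simp only
    rw [this]
    unfold NK iF
    simp
  have hlo1 := hF.2.1
  have hlo0 := hF.2.2.1
  have hxlow : ∀ i, i < -((R + 2 : ℕ) : ℤ) → x i = 0 := by
    intro i hi
    apply hcutz
    intro ζ hζ
    have h1 := (hGS ζ hζ).1
    have h2 : ∀ j : ℤ, j ≤ i + 1 → lo j ζ = 0 := by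
      intro j hj
      apply hlo0
      have h3 : (2 : ℝ) ^ j ≤ (2 : ℝ) ^ (-(R : ℤ) - 1) := by
        apply zpow_le_zpow_right₀ (by norm_num)
        push_cast at hi
        linarith
      have h4 : (2 : ℝ) * (2 : ℝ) ^ (-(R : ℤ) - 1) = (2 : ℝ) ^ (-(R : ℤ)) := by
        rw [zpow_sub₀ (by norm_num)]; norm_num; ring
      have h5 : 0 < (2 : ℝ) ^ j := by positivity
      have h6 : 2 * (2 : ℝ) ^ j ≤ ‖ζ‖ := by linarith
      nlinarith
    unfold sh bd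
    rw [h2 _ le_rfl, h2 _ (by linarith)]
    ring
  have hxhigh : ∀ i, ((R + 2 : ℕ) : ℤ) < i → x i = 0 := by
    intro i hi
    apply hcutz
    intro ζ hζ
    have h1 := (hGS ζ hζ).2
    have h2 : ∀ j : ℤ, i ≤ j → lo j ζ = 1 := by
      intro j hj
      apply hlo1
      refine h1.trans ?_
      apply zpow_le_zpow_right₀ (by norm_num)
      push_cast at hi
      linarith
    unfold sh bd
    rw [h2 _ le_rfl, h2 _ (by linarith)]
    ring
  have hS := hSh m L (R + 2) x hL2 hx0 hxlow hxhigh I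
  have hS2 : ∑ i ∈ Finset.Icc (-((R + 2 : ℕ) : ℤ)) ((R + 2 : ℕ) : ℤ), x i ≤ CP * NK (k + 1) G :=
    hP4 _ G hG.1
  set X : ℕ → ℝ := fun t => NK (k + 1) G - ∑ b ∈ I, NK (k + 1) (cut (bd (b * L - t) ((b + 1) * L - t)) G)
    with hXdef
  set Y : ℕ → ℝ := fun t => ∑ b ∈ I, ∑ i ∈ Finset.range m,
      (x (b * L - t + i) + x ((b + 1) * L - t - 1 - i)) with hYdef
  have hsum : ∑ t ∈ Finset.range L, (X t + CD * (m : ℝ) ^ (2 * k + 1) * Y t) ≤
      L * (δ * (n : ℝ) ^ (2 * k) * NK (k + 1) g) := by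
    rw [Finset.sum_add_distrib, ← Finset.mul_sum]
    have h1 : ∑ t ∈ Finset.range L, X t ≤ 2 * CA * ((n : ℝ) ^ (2 * k) * NK (k + 1) g) := by
      refine hA.trans ?_
      have : CA * (1 + L * (1 / n : ℝ) ^ c) * (n : ℝ) ^ (2 * k) * NK (k + 1) g
        = (1 + L * (1 / n : ℝ) ^ c) * (CA * ((n : ℝ) ^ (2 * k) * NK (k + 1) g)) := by ring
      rw [this]
      have h2 : (1 + L * (1 / n : ℝ) ^ c) ≤ 2 := by linarith
      have h3 : 0 ≤ CA * ((n : ℝ) ^ (2 * k) * NK (k + 1) g) := by positivity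
      calc _ ≤ 2 * (CA * ((n : ℝ) ^ (2 * k) * NK (k + 1) g)) := mul_le_mul_of_nonneg_right h2 h3
        _ = _ := by ring
    have h2 : ∑ t ∈ Finset.range L, Y t ≤ 2 * m * (CP * B) * ((n : ℝ) ^ (2 * k) * NK (k + 1) g) := by
      refine hS.trans ?_
      have h3 : CP * NK (k + 1) G ≤ CP * (B * (n : ℝ) ^ (2 * k) * NK (k + 1) g) := mul_le_mul_of_nonneg_left hApr' hCP.le
      have h4 : (0 : ℝ) ≤ 2 * m := by positivity
      calc 2 * (m : ℝ) * ∑ i ∈ Finset.Icc (-((R + 2 : ℕ) : ℤ)) ((R + 2 : ℕ) : ℤ), x i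
          ≤ 2 * m * (CP * (B * (n : ℝ) ^ (2 * k) * NK (k + 1) g)) :=
            mul_le_mul_of_nonneg_left (hS2.trans h3) h4
        _ = _ := by ring
    have h3 := mul_le_mul_of_nonneg_left h2 (show 0 ≤ CD * (m : ℝ) ^ (2 * k + 1) by positivity)
    have h4 : 0 ≤ (n : ℝ) ^ (2 * k) * NK (k + 1) g := by positivity
    calc _ ≤ 2 * CA * ((n : ℝ) ^ (2 * k) * NK (k + 1) g)
          + CD * (m : ℝ) ^ (2 * k + 1) * (2 * m * (CP * B) * ((n : ℝ) ^ (2 * k) * NK (k + 1) g)) := add_le_add h1 h3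
      _ = W * ((n : ℝ) ^ (2 * k) * NK (k + 1) g) := by rw [hW]; ring
      _ ≤ L * δ * ((n : ℝ) ^ (2 * k) * NK (k + 1) g) := mul_le_mul_of_nonneg_right hLW h4
      _ = _ := by ring
  obtain ⟨t, -, ht⟩ := exists_le_of_sum_leK hL1 _ _ hsum
  have hin' := hin n hnn1 g hg (-(t : ℤ)) I
  -- blocks
  have hblk : ∑ b ∈ I, NK (k + 1) (cut (bd (b * L - t) ((b + 1) * L - t)) G) ≤
      (1 + δ) * (∑ b ∈ I, NK (k + 1) (cut (bd (-(t : ℤ) + b * L + m) (-(t : ℤ) + b * L + L - m)) G))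
        + CD * (m : ℝ) ^ (2 * k + 1) * Y t := by
    rw [hYdef]
    simp only
    rw [Finset.mul_sum, Finset.mul_sum, ← Finset.sum_add_distrib]
    refine Finset.sum_le_sum fun b _ => ?_
    have h := hBd m L (b * L - t) G hL2 hG.1
    have e1 : ((b : ℤ) + 1) * L - t = b * L - t + L := by ring
    have e2 : -(t : ℤ) + b * L = b * L - t := by ring
    rw [e1, e2]
    exact h
  have hfin : NK (k + 1) G = X t + ∑ b ∈ I, NK (k + 1) (cut (bd (b * L - t) ((b + 1) * L - t)) G) := by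
    rw [hXdef]; simp only; ring
  have h1 : NK (k + 1) G ≤ δ * (n : ℝ) ^ (2 * k) * NK (k + 1) g + (1 + δ) * (((1 + 19 * δ) * Γ + δ) * (n : ℝ) ^ (2 * k) * NK (k + 1) g) := by
    have h2 := mul_le_mul_of_nonneg_left hin' (show 0 ≤ 1 + δ by positivity)
    linarith
  refine h1.trans ?_
  have e1 : δ * (n : ℝ) ^ (2 * k) * NK (k + 1) g + (1 + δ) * (((1 + 19 * δ) * Γ + δ) * (n : ℝ) ^ (2 * k) * NK (k + 1) g)
      = (δ + (1 + δ) * ((1 + 19 * δ) * Γ + δ)) * ((n : ℝ) ^ (2 * k) * NK (k + 1) g) := by ring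
  have e2 : (1 + ε) * Γ * (n : ℝ) ^ (2 * k) * NK (k + 1) g = ((1 + ε) * Γ) * ((n : ℝ) ^ (2 * k) * NK (k + 1) g) := by ring
  rw [e1, e2]
  apply mul_le_mul_of_nonneg_right _ (by positivity)
  have d2 : δ ^ 2 ≤ δ := by rw [sq]; exact mul_le_of_le_one_right hδ.le hδ1
  have e3 : δ + (1 + δ) * ((1 + 19 * δ) * Γ + δ)
      = Γ + 20 * δ * Γ + 19 * (δ ^ 2 * Γ) + 2 * δ + δ ^ 2 := by ring
  rw [e3]
  have d3 : δ ^ 2 * Γ ≤ δ * Γ := mul_le_mul_of_nonneg_right d2 hΓ0.le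
  have d4 : δ * (58 * Γ + 4) = 58 * (δ * Γ) + 4 * δ := by ring
  have d5 : 0 ≤ δ * Γ := by positivity
  have d6 : (1 + ε) * Γ = Γ + ε * Γ := by ring
  rw [d6]
  have d7 : 20 * δ * Γ = 20 * (δ * Γ) := by ring
  rw [d7]
  linarith

end Pool.Agent.Lib.MP_dd244f_an.Even
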