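import Pool.Agent.Lib.MP_dd244f_an.Even.AvAux

/-!
Full operator, even `p`: module MaxK (maximal function of `|iF g| ^ 2`).
-/

set_option autoImplicit false

namespace Pool.Agent.Lib.MP_dd244f_an.Even

open MeasureTheory Filter Topology
open Pool.Agent.Lib.MP_dd244f_an.Four
open scoped ENNReal NNReal

open AvAux in
theorem maxK (h : StmtHL) (hK : StmtKK) (hB : StmtBase) : StmtMaxK := by
  intro k hk
  have hk' : (1 : ℝ) ≤ k := by exact_mod_cast hk
  obtain ⟨C, hC⟩ := h ((k : ℝ) + 1) (by linarith)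
  refine ⟨(C : ℝ) + 1, by positivity, ?_⟩
  intro g hg
  obtain ⟨hc, ⟨B, hb⟩, -, -, -⟩ := hB.1 g hg
  set φ : ℂ → ℝ≥0∞ := fun y => ENNReal.ofReal (‖iF g y‖ ^ 2) with hφd
  have hφ : Measurable φ := (ENNReal.continuous_ofReal.comp (hc.norm.pow 2)).measurable
  have hr : ∀ a : ℤ, (0 : ℝ) < (2 : ℝ) ^ (-a) := fun a => by positivity
  set S : ℂ → ℝ≥0∞ := fun x =>
    ⨆ a : ℤ, ∫⁻ y, ENNReal.ofReal (KK ((2 : ℝ) ^ (-a)) (x - y)) * φ y with hS
  have hSm : Measurable S := Measurable.iSup fun a => av_meas (hr a) hφ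
  have hSt : ∀ x, S x ≤ ENNReal.ofReal Real.pi * ENNReal.ofReal (B ^ 2) := by
    intro x
    refine iSup_le fun a => ?_
    calc ∫⁻ y, ENNReal.ofReal (KK ((2 : ℝ) ^ (-a)) (x - y)) * φ y
        ≤ ∫⁻ y, ENNReal.ofReal (KK ((2 : ℝ) ^ (-a)) (x - y)) * ENNReal.ofReal (B ^ 2) := by
          refine lintegral_mono fun y => mul_le_mul_right ?_ _
          exact ENNReal.ofReal_le_ofReal (pow_le_pow_left₀ (norm_nonneg _) (hb y) 2)
      _ = _ := by rw [lintegral_mul_const _ (kk_meas (hr a) x), kk_lint hK (hr a)]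
  have hStop : ∀ x, S x ≠ ⊤ := fun x =>
    ((hSt x).trans_lt (ENNReal.mul_lt_top ENNReal.ofReal_lt_top ENNReal.ofReal_lt_top)).ne
  have hMm : Measurable (fun x => (S x).toReal) := hSm.ennreal_toReal
  have hle : ∫⁻ x, ENNReal.ofReal ((S x).toReal ^ (k + 1)) ≤
      ENNReal.ofReal (((C : ℝ) + 1) * NK (k + 1) g) := by
    have h1 := hC φ hφ
    have e3 : ∀ t : ℝ≥0∞, t ^ ((k : ℝ) + 1) = t ^ (k + 1) := fun t => by
      rw [← ENNReal.rpow_natCast]; push_cast; rfl
    simp only [e3] at h1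
    calc ∫⁻ x, ENNReal.ofReal ((S x).toReal ^ (k + 1)) = ∫⁻ x, S x ^ (k + 1) := by
          refine lintegral_congr fun x => ?_
          rw [ENNReal.ofReal_pow ENNReal.toReal_nonneg, ENNReal.ofReal_toReal (hStop x)]
      _ ≤ C * ∫⁻ x, φ x ^ (k + 1) := h1
      _ = ENNReal.ofReal (C * NK (k + 1) g) := by
          rw [ENNReal.ofReal_mul (NNReal.coe_nonneg C), of_NK hB hg, ENNReal.ofReal_coe_nnreal]
      _ ≤ _ := by
          apply ENNReal.ofReal_le_ofReal
          have := NK_nonneg (k + 1) g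
          nlinarith
  have hpi : 0 ≤ ((C : ℝ) + 1) * NK (k + 1) g :=
    mul_nonneg (by positivity) (NK_nonneg _ _)
  refine ⟨fun x => (S x).toReal, ⟨hMm, fun x => ENNReal.toReal_nonneg, fun a x => ?_⟩,
    ⟨(hMm.pow_const _).aestronglyMeasurable, ?_⟩, ?_⟩
  · have e : av a (fun y => ‖iF g y‖ ^ 2) x =
        (∫⁻ y, ENNReal.ofReal (KK ((2 : ℝ) ^ (-a)) (x - y)) * φ y).toReal := by
      unfold av
      rw [← of_av hK (hr a) (sq_int hB hg) (fun y => by positivity) x, ENNReal.toReal_ofReal]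
      exact integral_nonneg fun y => mul_nonneg (kk_nonneg _ _) (by positivity)
    rw [e]
    exact ENNReal.toReal_mono (hStop x) (le_iSup (fun a : ℤ =>
      ∫⁻ y, ENNReal.ofReal (KK ((2 : ℝ) ^ (-a)) (x - y)) * φ y) a)
  · rw [hasFiniteIntegral_iff_ofReal
      (Eventually.of_forall fun x => pow_nonneg ENNReal.toReal_nonneg _)]
    exact hle.trans_lt ENNReal.ofReal_lt_top
  · rw [integral_eq_lintegral_of_nonneg_ae
      (Eventually.of_forall fun x => pow_nonneg ENNReal.toReal_nonneg _)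
      (hMm.pow_const _).aestronglyMeasurable]
    exact ENNReal.toReal_le_of_le_ofReal hpi hle

end Pool.Agent.Lib.MP_dd244f_an.Even
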