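import Pool.Agent.Lib.MP_dd244f_an.Even.Stmts

/-!
Full operator, even `p`: (OneSh) one factor in a shell, the others dominated.
-/

set_option autoImplicit false

namespace Pool.Agent.Lib.MP_dd244f_an.Even

open MeasureTheory Filter Topology Finset
open Pool.Agent.Lib.MP_dd244f_an.Four

namespace OneShAux

theorem KK_nonneg (ρ : ℝ) (x : ℂ) : 0 ≤ KK ρ x := by unfold KK; positivity

theorem qa_nonneg (a : ℤ) (g : ℂ → ℂ) (x : ℂ) : 0 ≤ qa a g x :=
  integral_nonneg fun y => mul_nonneg (KK_nonneg _ _) (by positivity)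

theorem qa_int (hS : StmtSqK) {k : ℕ} (hk : 1 ≤ k) (a : ℤ) {g : ℂ → ℂ} (hg : CC g) :
    Integrable (fun x => qa a g x ^ (k + 1)) ∧ AEStronglyMeasurable (qa a g) volume := by
  obtain ⟨C, _, hC⟩ := hS k hk
  have h1 := (hC {a} g hg).1
  simp only [Finset.sum_singleton] at h1
  refine ⟨h1, ?_⟩
  have h2 : AEMeasurable (fun x => (qa a g x ^ (k + 1)) ^ (((k + 1 : ℕ) : ℝ)⁻¹)) volume :=
    h1.aestronglyMeasurable.aemeasurable.pow_const _
  refine (h2.congr (Filter.Eventually.of_forall fun x => ?_)).aestronglyMeasurable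
  exact Real.pow_rpow_inv_natCast (qa_nonneg a g x) (Nat.succ_ne_zero k)

theorem mul_pow_le {a b : ℝ} (ha : 0 ≤ a) (hb : 0 ≤ b) (k : ℕ) :
    a * b ^ k ≤ a ^ (k + 1) + b ^ (k + 1) := by
  rcases le_total a b with h | h
  · have h1 : a * b ^ k ≤ b * b ^ k := mul_le_mul_of_nonneg_right h (by positivity)
    have h2 : 0 ≤ a ^ (k + 1) := by positivity
    have e : b ^ (k + 1) = b * b ^ k := by ring
    rw [e]
    linarith
  · have h1 : a * b ^ k ≤ a * a ^ k :=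
      mul_le_mul_of_nonneg_left (pow_le_pow_left₀ hb h k) ha
    have h2 : 0 ≤ b ^ (k + 1) := by positivity
    have e : a ^ (k + 1) = a * a ^ k := by ring
    rw [e]
    linarith

/-- the averages at a larger scale -/
theorem avg_le (hK : StmtKK) (hB : StmtBase) {σ ρ : ℝ} (hρ : 0 < ρ) (hσ : 1 ≤ σ / ρ) {h : ℂ → ℂ}
    (hh : CC h) (x : ℂ) :
    ∫ y, KK σ (x - y) * ‖iF h y‖ ^ 2 ≤ (σ / ρ) ^ 2 * ∫ y, KK ρ (x - y) * ‖iF h y‖ ^ 2 := by
  rw [← integral_const_mul]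
  obtain ⟨hc, ⟨B, hBd⟩, hi2, _, _⟩ := hB.1 h hh
  have hint : Integrable (fun y => KK ρ (x - y) * ‖iF h y‖ ^ 2) := by
    refine ((hK.1 ρ hρ).1.comp_sub_left x).mul_bdd (c := B ^ 2)
      (hc.norm.pow 2).aestronglyMeasurable (Filter.Eventually.of_forall fun y => ?_)
    rw [Real.norm_of_nonneg (by positivity)]
    exact pow_le_pow_left₀ (norm_nonneg _) (hBd y) 2
  refine integral_mono_of_nonneg (Filter.Eventually.of_forall fun y =>
    mul_nonneg (KK_nonneg _ _) (by positivity)) (hint.const_mul _)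
    (Filter.Eventually.of_forall fun y => ?_)
  have h1 := hK.2.2.2 ρ (σ / ρ) hρ hσ (x - y)
  rw [div_mul_cancel₀ _ hρ.ne'] at h1
  have h2 : 0 ≤ ‖iF h y‖ ^ 2 := by positivity
  calc KK σ (x - y) * ‖iF h y‖ ^ 2 ≤ ((σ / ρ) ^ 2 * KK ρ (x - y)) * ‖iF h y‖ ^ 2 :=
        mul_le_mul_of_nonneg_right h1 h2
    _ = (σ / ρ) ^ 2 * (KK ρ (x - y) * ‖iF h y‖ ^ 2) := by ring

end OneShAux

open OneShAux in
theorem oneSh (hG : StmtGTK) (hD : StmtDomF) (hS : StmtSqK) (hK : Four.StmtKK)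
    (hB : Four.StmtBase) (hF : Four.StmtFac) : StmtOneSh := by
  intro k hk
  obtain ⟨C₀, c, hC₀, hc, hG'⟩ := hG k
  obtain ⟨C₁, hC₁, hD'⟩ := hD
  refine ⟨C₀ * C₁ ^ k, c, by positivity, hc, ?_⟩
  intro σ g M i u j₁ hσ hσi hg hM hMi hj₁ huj₁ hu ρ j₀ S hSm hj₀ hσρ hsep
  have hucc : ∀ j ≤ k, CC (u j) := by
    intro j hj
    by_cases h : j = j₁
    · rw [h, huj₁]
      exact (hF.2.2.2.2.1 g i i hg).2.2
    · rcases hu j hj h with h | ⟨a, h⟩ | ⟨a, b, h⟩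
      · rw [h]; exact hg
      · rw [h]; exact (hF.2.2.2.2.1 g a a hg).1
      · rw [h]; exact (hF.2.2.2.2.1 g a b hg).2.1
  obtain ⟨Om, hOm0, hOmi, hOmb, hpt⟩ := hG' σ u hσ hucc
  have hshcc : CC (cut (sh i) g) := (hF.2.2.2.2.1 g i i hg).2.2
  -- the product of the averages
  have hM0 := hM.2.1
  have hρi : (0 : ℝ) < (2 : ℝ) ^ (-i) := by positivity
  have hdiv : σ / (2 : ℝ) ^ (-i) = σ * (2 : ℝ) ^ i := by
    rw [zpow_neg, div_inv_eq_mul]
  have hA1 : ∀ x, ∫ y, KK σ (x - y) * ‖iF (u j₁) y‖ ^ 2 ≤ (σ * (2 : ℝ) ^ i) ^ 2 * qa i g x := by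
    intro x
    rw [huj₁]
    have h1 := avg_le hK hB hρi (by rw [hdiv]; exact hσi) hshcc x
    rw [hdiv] at h1
    exact h1
  have hA2 : ∀ j ≤ k, j ≠ j₁ → ∀ x, ∫ y, KK σ (x - y) * ‖iF (u j) y‖ ^ 2 ≤ C₁ * M x := by
    intro j hj hne x
    obtain ⟨_, _, _, h4⟩ := hD' g M hg hM x
    obtain ⟨h5, h6, h7⟩ := h4 σ hσ
    rcases hu j hj hne with h | ⟨a, h⟩ | ⟨a, b, h⟩
    · rw [h]; exact h5
    · rw [h]; exact h6 a
    · rw [h]; exact h7 a b
  have hA0 : ∀ j x, 0 ≤ ∫ y, KK σ (x - y) * ‖iF (u j) y‖ ^ 2 := fun j x =>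
    integral_nonneg fun y => mul_nonneg (KK_nonneg _ _) (by positivity)
  have hprod : ∀ x, ∏ j ∈ Finset.range (k + 1), ∫ y, KK σ (x - y) * ‖iF (u j) y‖ ^ 2
      ≤ ((σ * (2 : ℝ) ^ i) ^ 2 * C₁ ^ k) * (qa i g x * M x ^ k) := by
    intro x
    have hmem : j₁ ∈ Finset.range (k + 1) := Finset.mem_range.2 (Nat.lt_succ_of_le hj₁)
    rw [← Finset.mul_prod_erase _ _ hmem]
    have hcard : ((Finset.range (k + 1)).erase j₁).card = k := by
      rw [Finset.card_erase_of_mem hmem, Finset.card_range]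
      rfl
    have h1 : ∏ j ∈ (Finset.range (k + 1)).erase j₁, ∫ y, KK σ (x - y) * ‖iF (u j) y‖ ^ 2
        ≤ (C₁ * M x) ^ k := by
      have h3 : ∏ j ∈ (Finset.range (k + 1)).erase j₁, ∫ y, KK σ (x - y) * ‖iF (u j) y‖ ^ 2
          ≤ ∏ _j ∈ (Finset.range (k + 1)).erase j₁, C₁ * M x := by
        refine Finset.prod_le_prod (fun j _ => hA0 j x) fun j hj => ?_
        exact hA2 j (Nat.lt_succ_iff.1 (Finset.mem_range.1 (Finset.mem_of_mem_erase hj)))
          (Finset.ne_of_mem_erase hj) x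
      rwa [Finset.prod_const, hcard] at h3
    have h2 : 0 ≤ ∏ j ∈ (Finset.range (k + 1)).erase j₁,
        ∫ y, KK σ (x - y) * ‖iF (u j) y‖ ^ 2 := Finset.prod_nonneg fun j _ => hA0 j x
    calc _ ≤ ((σ * (2 : ℝ) ^ i) ^ 2 * qa i g x) * (C₁ * M x) ^ k :=
          mul_le_mul (hA1 x) h1 h2 (mul_nonneg (by positivity) (qa_nonneg _ _ _))
      _ = _ := by rw [mul_pow]; ring
  obtain ⟨hqi, hqm⟩ := qa_int hS hk i hg
  have hint : Integrable (fun x => qa i g x * M x ^ k) := by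
    refine (hqi.add hMi).mono' (hqm.mul (hM.1.pow_const k).aestronglyMeasurable)
      (Filter.Eventually.of_forall fun x => ?_)
    rw [Real.norm_of_nonneg (mul_nonneg (qa_nonneg _ _ _) (pow_nonneg (hM0 x) _))]
    exact mul_pow_le (qa_nonneg _ _ _) (hM0 x) k
  have hOm2 : ∫ θ, Om θ ≤ C₀ * (((σ * (2 : ℝ) ^ i) ^ 2 * C₁ ^ k) * ∫ x, qa i g x * M x ^ k) := by
    refine hOmb.trans (mul_le_mul_of_nonneg_left ?_ hC₀.le)
    rw [← integral_const_mul]
    exact integral_mono_of_nonneg (Filter.Eventually.of_forall fun x =>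
      Finset.prod_nonneg fun j _ => hA0 j x) (hint.const_mul _)
      (Filter.Eventually.of_forall hprod)
  -- the estimate on `S`
  have hSint : ∫ θ in S, ‖AK k σ u θ‖ ^ 2 ≤ Real.exp (-(c * (σ ^ 2 * ρ ^ 2))) * ∫ θ, Om θ := by
    have h1 : ∫ θ in S, ‖AK k σ u θ‖ ^ 2
        ≤ ∫ θ in S, Real.exp (-(c * (σ ^ 2 * ρ ^ 2))) * Om θ := by
      refine integral_mono_of_nonneg (Filter.Eventually.of_forall fun θ => by positivity)
        (hOmi.const_mul _).integrableOn ?_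
      filter_upwards [ae_restrict_mem hSm] with θ hθ
      exact hpt θ ρ j₀ hj₀ hσρ (hsep θ hθ)
    refine h1.trans ?_
    rw [← integral_const_mul]
    exact setIntegral_le_integral (hOmi.const_mul _)
      (Filter.Eventually.of_forall fun θ => mul_nonneg (Real.exp_pos _).le (hOm0 θ))
  refine hSint.trans ?_
  refine (mul_le_mul_of_nonneg_left hOm2 (Real.exp_pos _).le).trans (le_of_eq ?_)
  ring

end Pool.Agent.Lib.MP_dd244f_an.Even
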