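import Pool.Agent.Lib.MP_dd244f_an.Even.Stmts

/-!
Full operator, even `p`: module (PSK), the phase space identity.
-/

set_option autoImplicit false

namespace Pool.Agent.Lib.MP_dd244f_an.Even

open MeasureTheory Filter Topology Finset
open Pool.Agent.Lib.MP_dd244f_an.Four

theorem psK (hC : StmtCV) (hC2 : StmtCV2) (_hB : Four.StmtBase) : StmtPSK := by
  intro k σ g ξ hg
  have h1 := ((hC k).1 (fun j => gs σ ξ (g j)) (fun j hj => gs_cc (hg j hj))).2.2
  rw [← h1]
  congr 1
  ext θ
  rw [(hC2 k).1 σ ξ g θ, norm_mul, mul_pow, Complex.norm_real, Real.norm_eq_abs, Real.abs_exp,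
    ← Real.exp_nat_mul]
  unfold wk
  congr 2
  push_cast
  ring

end Pool.Agent.Lib.MP_dd244f_an.Even
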