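import Pool.Agent.Lib.MP_dd244f_an.Even.Stmts

/-!
Module Poly: first and second differences of `u ^ p conj u ^ q`.
-/

set_option autoImplicit false

namespace Pool.Agent.Lib.MP_dd244f_an.Even

namespace PolyAux

/-- size, differences and Taylor remainders of `f`, homogeneous of degree `n`; `df b` is the
derivative in the direction `b` -/
def Gd (n : ℕ) (C : ℝ) (f : ℂ → ℂ) (df : ℂ → ℂ → ℂ) : Prop :=
  ∀ (u a b : ℂ) (Z : ℝ), ‖u‖ ≤ Z → ‖a‖ ≤ Z → ‖b‖ ≤ Z →
    ‖f u‖ ≤ C * Z ^ n ∧
    Z * ‖f (u + a) - f u‖ ≤ C * ‖a‖ * Z ^ n ∧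
    Z ^ 2 * ‖f (u + b) - f u - df b u‖ ≤ C * ‖b‖ ^ 2 * Z ^ n ∧
    Z ^ 2 * ‖(f (u + a + b) - f (u + a)) - (f (u + b) - f u)‖ ≤ C * ‖a‖ * ‖b‖ * Z ^ n ∧
    Z ^ 3 * ‖(f (u + a + b) - f (u + a)) - (f (u + b) - f u) - (df b (u + a) - df b u)‖
      ≤ C * ‖a‖ * ‖b‖ ^ 2 * Z ^ n

theorem gd_step {n : ℕ} {C : ℝ} {f : ℂ → ℂ} {df : ℂ → ℂ → ℂ} (hC : 0 ≤ C) (h : Gd n C f df)
    (l : ℂ → ℂ) (hl : ∀ u v, l (u + v) = l u + l v) (hn : ∀ u, ‖l u‖ = ‖u‖) :
    Gd (n + 1) (5 * C) (fun u => f u * l u) (fun b u => df b u * l u + f u * l b) := by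
  intro u a b Z hu ha hb
  obtain ⟨h1, h2, h3, h4, h5⟩ := h u a b Z hu ha hb
  obtain ⟨_, h2b, _, _, _⟩ := h u b b Z hu hb hb
  have hZ : 0 ≤ Z := le_trans (norm_nonneg _) hu
  have hZn : 0 ≤ Z ^ n := pow_nonneg hZ n
  have hna := norm_nonneg a
  have hnb := norm_nonneg b
  have hua : ‖l (u + a)‖ ≤ 2 * Z := by
    rw [hn]; exact (norm_add_le _ _).trans (by linarith)
  have huab : ‖l (u + a + b)‖ ≤ 3 * Z := by
    rw [hn]
    exact (norm_add_le _ _).trans (by
      have := norm_add_le u a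
      linarith)
  have hlu : ‖l u‖ ≤ Z := by rw [hn]; exact hu
  refine ⟨?_, ?_, ?_, ?_, ?_⟩
  · calc ‖f u * l u‖ = ‖f u‖ * ‖l u‖ := norm_mul _ _
      _ ≤ (C * Z ^ n) * Z := by
          apply mul_le_mul h1 hlu (norm_nonneg _) (by positivity)
      _ ≤ 5 * C * Z ^ (n + 1) := by
          have : 0 ≤ C * Z ^ (n + 1) := by positivity
          calc (C * Z ^ n) * Z = C * Z ^ (n + 1) := by ring
            _ ≤ _ := by linarith
  · have e : f (u + a) * l (u + a) - f u * l u = (f (u + a) - f u) * l (u + a) + f u * l a := by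
      rw [hl]; ring
    calc Z * ‖f (u + a) * l (u + a) - f u * l u‖
        ≤ Z * (‖f (u + a) - f u‖ * ‖l (u + a)‖ + ‖f u‖ * ‖l a‖) := by
          apply mul_le_mul_of_nonneg_left _ hZ
          rw [e]
          exact (norm_add_le _ _).trans (by rw [norm_mul, norm_mul])
      _ = (Z * ‖f (u + a) - f u‖) * ‖l (u + a)‖ + Z * (‖f u‖ * ‖a‖) := by rw [hn a]; ring
      _ ≤ (C * ‖a‖ * Z ^ n) * (2 * Z) + Z * ((C * Z ^ n) * ‖a‖) := by
          apply add_le_add
          · exact mul_le_mul h2 hua (norm_nonneg _) (by positivity)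
          · exact mul_le_mul_of_nonneg_left (mul_le_mul_of_nonneg_right h1 hna) hZ
      _ = 3 * (C * ‖a‖ * Z ^ (n + 1)) := by ring
      _ ≤ 5 * C * ‖a‖ * Z ^ (n + 1) := by
          have : 0 ≤ C * ‖a‖ * Z ^ (n + 1) := by positivity
          nlinarith [this]
  · have e : f (u + b) * l (u + b) - f u * l u - (df b u * l u + f u * l b)
        = (f (u + b) - f u - df b u) * l u + (f (u + b) - f u) * l b := by
      rw [hl]; ring
    calc Z ^ 2 * ‖f (u + b) * l (u + b) - f u * l u - (df b u * l u + f u * l b)‖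
        ≤ Z ^ 2 * (‖f (u + b) - f u - df b u‖ * ‖l u‖ + ‖f (u + b) - f u‖ * ‖l b‖) := by
          apply mul_le_mul_of_nonneg_left _ (by positivity)
          rw [e]
          exact (norm_add_le _ _).trans (by rw [norm_mul, norm_mul])
      _ = (Z ^ 2 * ‖f (u + b) - f u - df b u‖) * ‖l u‖
            + Z * ((Z * ‖f (u + b) - f u‖) * ‖b‖) := by rw [hn b]; ring
      _ ≤ (C * ‖b‖ ^ 2 * Z ^ n) * Z + Z * ((C * ‖b‖ * Z ^ n) * ‖b‖) := by
          apply add_le_add
          · exact mul_le_mul h3 hlu (norm_nonneg _) (by positivity)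
          · exact mul_le_mul_of_nonneg_left (mul_le_mul_of_nonneg_right h2b hnb) hZ
      _ = 2 * (C * ‖b‖ ^ 2 * Z ^ (n + 1)) := by ring
      _ ≤ 5 * C * ‖b‖ ^ 2 * Z ^ (n + 1) := by
          have : 0 ≤ C * ‖b‖ ^ 2 * Z ^ (n + 1) := by positivity
          nlinarith [this]
  · have e : (f (u + a + b) * l (u + a + b) - f (u + a) * l (u + a))
          - (f (u + b) * l (u + b) - f u * l u)
        = ((f (u + a + b) - f (u + a)) - (f (u + b) - f u)) * l (u + a + b)
          + (f (u + b) - f u) * l a + (f (u + a) - f u) * l b := by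
      rw [hl (u + a) b, hl u a, hl u b]; ring
    calc Z ^ 2 * ‖(f (u + a + b) * l (u + a + b) - f (u + a) * l (u + a))
          - (f (u + b) * l (u + b) - f u * l u)‖
        ≤ Z ^ 2 * (‖(f (u + a + b) - f (u + a)) - (f (u + b) - f u)‖ * ‖l (u + a + b)‖
            + ‖f (u + b) - f u‖ * ‖l a‖ + ‖f (u + a) - f u‖ * ‖l b‖) := by
          apply mul_le_mul_of_nonneg_left _ (by positivity)
          rw [e]
          refine (norm_add_le _ _).trans ?_
          rw [norm_mul (f (u + a) - f u)]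
          apply add_le_add_left
          refine (norm_add_le _ _).trans ?_
          rw [norm_mul, norm_mul]
      _ = (Z ^ 2 * ‖(f (u + a + b) - f (u + a)) - (f (u + b) - f u)‖) * ‖l (u + a + b)‖
            + Z * ((Z * ‖f (u + b) - f u‖) * ‖a‖) + Z * ((Z * ‖f (u + a) - f u‖) * ‖b‖) := by
          rw [hn a, hn b]; ring
      _ ≤ (C * ‖a‖ * ‖b‖ * Z ^ n) * (3 * Z) + Z * ((C * ‖b‖ * Z ^ n) * ‖a‖)
            + Z * ((C * ‖a‖ * Z ^ n) * ‖b‖) := by
          apply add_le_add
          · apply add_le_add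
            · exact mul_le_mul h4 huab (norm_nonneg _) (by positivity)
            · exact mul_le_mul_of_nonneg_left (mul_le_mul_of_nonneg_right h2b hna) hZ
          · exact mul_le_mul_of_nonneg_left (mul_le_mul_of_nonneg_right h2 hnb) hZ
      _ = 5 * C * ‖a‖ * ‖b‖ * Z ^ (n + 1) := by ring
  · have e : (f (u + a + b) * l (u + a + b) - f (u + a) * l (u + a))
          - (f (u + b) * l (u + b) - f u * l u)
          - ((df b (u + a) * l (u + a) + f (u + a) * l b) - (df b u * l u + f u * l b))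
        = ((f (u + a + b) - f (u + a)) - (f (u + b) - f u) - (df b (u + a) - df b u)) * l (u + a)
          + (f (u + b) - f u - df b u) * l a
          + ((f (u + a + b) - f (u + a)) - (f (u + b) - f u)) * l b := by
      rw [hl (u + a) b, hl u a, hl u b]; ring
    calc Z ^ 3 * ‖(f (u + a + b) * l (u + a + b) - f (u + a) * l (u + a))
          - (f (u + b) * l (u + b) - f u * l u)
          - ((df b (u + a) * l (u + a) + f (u + a) * l b) - (df b u * l u + f u * l b))‖
        ≤ Z ^ 3 * (‖(f (u + a + b) - f (u + a)) - (f (u + b) - f u)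
              - (df b (u + a) - df b u)‖ * ‖l (u + a)‖
            + ‖f (u + b) - f u - df b u‖ * ‖l a‖
            + ‖(f (u + a + b) - f (u + a)) - (f (u + b) - f u)‖ * ‖l b‖) := by
          apply mul_le_mul_of_nonneg_left _ (by positivity)
          rw [e]
          refine (norm_add_le _ _).trans ?_
          rw [norm_mul ((f (u + a + b) - f (u + a)) - (f (u + b) - f u))]
          apply add_le_add_left
          refine (norm_add_le _ _).trans ?_
          rw [norm_mul, norm_mul]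
      _ = (Z ^ 3 * ‖(f (u + a + b) - f (u + a)) - (f (u + b) - f u)
              - (df b (u + a) - df b u)‖) * ‖l (u + a)‖
            + Z * ((Z ^ 2 * ‖f (u + b) - f u - df b u‖) * ‖a‖)
            + Z * ((Z ^ 2 * ‖(f (u + a + b) - f (u + a)) - (f (u + b) - f u)‖) * ‖b‖) := by
          rw [hn a, hn b]; ring
      _ ≤ (C * ‖a‖ * ‖b‖ ^ 2 * Z ^ n) * (2 * Z) + Z * ((C * ‖b‖ ^ 2 * Z ^ n) * ‖a‖)
            + Z * ((C * ‖a‖ * ‖b‖ * Z ^ n) * ‖b‖) := by
          apply add_le_add
          · apply add_le_add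
            · exact mul_le_mul h5 hua (norm_nonneg _) (by positivity)
            · exact mul_le_mul_of_nonneg_left (mul_le_mul_of_nonneg_right h3 hna) hZ
          · exact mul_le_mul_of_nonneg_left (mul_le_mul_of_nonneg_right h4 hnb) hZ
      _ = 4 * (C * ‖a‖ * ‖b‖ ^ 2 * Z ^ (n + 1)) := by ring
      _ ≤ 5 * C * ‖a‖ * ‖b‖ ^ 2 * Z ^ (n + 1) := by
          have : 0 ≤ C * ‖a‖ * ‖b‖ ^ 2 * Z ^ (n + 1) := by positivity
          nlinarith [this]

/-- the monomial and its derivative in the direction `b` -/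
noncomputable def P (p q : ℕ) (u : ℂ) : ℂ := u ^ p * starRingEnd ℂ u ^ q

noncomputable def dP (p q : ℕ) (b u : ℂ) : ℂ :=
  p * (b * (u ^ (p - 1) * starRingEnd ℂ u ^ q))
    + q * (starRingEnd ℂ b * (u ^ p * starRingEnd ℂ u ^ (q - 1)))

theorem dP_succ_left (p q : ℕ) (b u : ℂ) :
    dP (p + 1) q b u = dP p q b u * u + P p q u * b := by
  unfold dP P
  rcases p with _ | p
  · push_cast
    simp
    ring
  · have : p + 1 + 1 - 1 = p + 1 := rfl
    rw [this]
    have h2 : p + 1 - 1 = p := rfl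
    rw [h2]
    push_cast
    ring

theorem dP_succ_right (p q : ℕ) (b u : ℂ) :
    dP p (q + 1) b u = dP p q b u * starRingEnd ℂ u + P p q u * starRingEnd ℂ b := by
  unfold dP P
  rcases q with _ | q
  · push_cast
    simp
    ring
  · have : q + 1 + 1 - 1 = q + 1 := rfl
    rw [this]
    have h2 : q + 1 - 1 = q := rfl
    rw [h2]
    push_cast
    ring

theorem gd_zero : Gd 0 1 (P 0 0) (dP 0 0) := by
  intro u a b Z hu ha hb
  unfold P dP
  simp
  exact ⟨by positivity, by positivity⟩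

theorem gd_left (q : ℕ) {C : ℝ} (h : Gd q C (P 0 q) (dP 0 q)) (hC : 0 ≤ C) (p : ℕ) :
    Gd (p + q) (5 ^ p * C) (P p q) (dP p q) := by
  induction p with
  | zero => simpa using h
  | succ p ih =>
    have := gd_step (by positivity) ih (fun u => u) (fun u v => rfl) (fun u => rfl)
    have e1 : (fun u => P p q u * u) = P (p + 1) q := by
      funext u; unfold P; ring
    have e2 : (fun b u => dP p q b u * u + P p q u * b) = dP (p + 1) q := by
      funext b u; rw [dP_succ_left]
    rw [e1, e2] at this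
    have e3 : p + q + 1 = p + 1 + q := by ring
    have e4 : 5 * (5 ^ p * C) = 5 ^ (p + 1) * C := by ring
    rwa [e3, e4] at this

theorem gd_right (q : ℕ) : Gd q (5 ^ q) (P 0 q) (dP 0 q) := by
  induction q with
  | zero => simpa using gd_zero
  | succ q ih =>
    have := gd_step (by positivity) ih (fun u => starRingEnd ℂ u) (fun u v => map_add _ u v)
      (fun u => by simp)
    have e1 : (fun u => P 0 q u * starRingEnd ℂ u) = P 0 (q + 1) := by
      funext u; unfold P; ring
    have e2 : (fun b u => dP 0 q b u * starRingEnd ℂ u + P 0 q u * starRingEnd ℂ b)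
        = dP 0 (q + 1) := by
      funext b u; rw [dP_succ_right]
    rw [e1, e2] at this
    have e4 : (5 : ℝ) * 5 ^ q = 5 ^ (q + 1) := by ring
    rwa [e4] at this

theorem gd_all (p q : ℕ) : Gd (p + q) (5 ^ p * 5 ^ q) (P p q) (dP p q) :=
  gd_left q (gd_right q) (by positivity) p

theorem cancel {Z x y : ℝ} {j n : ℕ} (hZ : 0 < Z) (hj : j ≤ n) (h : Z ^ j * x ≤ y * Z ^ n) :
    x ≤ y * Z ^ (n - j) := by
  have e : Z ^ n = Z ^ j * Z ^ (n - j) := by
    rw [← pow_add]; congr 1; omega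
  rw [e] at h
  have hp : 0 < Z ^ j := pow_pos hZ j
  have : Z ^ j * x ≤ Z ^ j * (y * Z ^ (n - j)) := by
    calc Z ^ j * x ≤ y * (Z ^ j * Z ^ (n - j)) := h
      _ = _ := by ring
  exact le_of_mul_le_mul_left this hp

end PolyAux

open PolyAux

theorem poly : StmtPoly := by
  intro p q
  refine ⟨5 ^ p * 5 ^ q, by positivity, ?_⟩
  intro u a b Z hu ha hb
  obtain ⟨_, h2, _, h4, h5⟩ := gd_all p q u a b Z hu ha hb
  have hZ : 0 ≤ Z := le_trans (norm_nonneg _) hu
  rcases hZ.eq_or_lt with hZ0 | hZ0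
  · have ha0 : a = 0 := by
      rw [← hZ0] at ha; exact norm_le_zero_iff.1 ha
    subst ha0
    refine ⟨?_, fun _ => ?_, fun _ => ?_⟩
    · simp
    · simp
    · simp
  · refine ⟨?_, fun hpq => ?_, fun hpq => ?_⟩
    · by_cases hpq : p + q = 0
      · have hp : p = 0 := by omega
        have hq : q = 0 := by omega
        subst hp; subst hq
        simp
      · have h2' : Z ^ 1 * ‖P p q (u + a) - P p q u‖ ≤ (5 ^ p * 5 ^ q * ‖a‖) * Z ^ (p + q) := by
          rw [pow_one]; exact h2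
        have := cancel hZ0 (by omega) h2'
        unfold P at this
        exact this
    · have := cancel hZ0 hpq h4
      unfold P at this
      exact this
    · have := cancel hZ0 hpq h5
      unfold P dP at this
      calc _ = ‖((u + a + b) ^ p * starRingEnd ℂ (u + a + b) ^ q
          - (u + a) ^ p * starRingEnd ℂ (u + a) ^ q)
          - ((u + b) ^ p * starRingEnd ℂ (u + b) ^ q - u ^ p * starRingEnd ℂ u ^ q)
          - ((p * (b * ((u + a) ^ (p - 1) * starRingEnd ℂ (u + a) ^ q))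
              + q * (starRingEnd ℂ b * ((u + a) ^ p * starRingEnd ℂ (u + a) ^ (q - 1))))
            - (p * (b * (u ^ (p - 1) * starRingEnd ℂ u ^ q))
              + q * (starRingEnd ℂ b * (u ^ p * starRingEnd ℂ u ^ (q - 1)))))‖ := by
            congr 1
            ring
        _ ≤ _ := this

end Pool.Agent.Lib.MP_dd244f_an.Even
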