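import Pool.Agent.Lib.MP_dd244f_an.Even.Stmts

/-!
Module EV-QEnd: the endpoint bound for the pairs of scales.
-/

set_option autoImplicit false

namespace Pool.Agent.Lib.MP_dd244f_an.Even

open MeasureTheory Filter Topology Finset
open Pool.Agent.Lib.MP_dd244f_an.Four

namespace QEndAux

/-- Cauchy-Schwarz for the half powers. -/
theorem half_cs {k : ℕ} {S M : ℂ → ℝ} (hS : ∀ x, 0 ≤ S x) (hM : ∀ x, 0 ≤ M x)
    (hSi : Integrable (fun x => S x ^ (k + 1))) (hMi : Integrable (fun x => M x ^ (k + 1))) :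
    Integrable (fun x => (S x * M x) ^ (((k : ℝ) + 1) / 2)) ∧
      ∫ x, (S x * M x) ^ (((k : ℝ) + 1) / 2) ≤
        Real.sqrt (∫ x, S x ^ (k + 1)) * Real.sqrt (∫ x, M x ^ (k + 1)) := by
  have e : ∀ x, (S x * M x) ^ (((k : ℝ) + 1) / 2)
      = Real.sqrt (S x ^ (k + 1)) * Real.sqrt (M x ^ (k + 1)) := by
    intro x
    have h1 : 0 ≤ S x * M x := mul_nonneg (hS x) (hM x)
    rw [← Real.sqrt_mul (pow_nonneg (hS x) _), ← mul_pow, Real.sqrt_eq_rpow,
      ← Real.rpow_natCast (S x * M x), ← Real.rpow_mul h1]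
    congr 1
    push_cast
    ring
  simp only [e]
  have s1 : AEStronglyMeasurable (fun x => Real.sqrt (S x ^ (k + 1))) volume :=
    Real.continuous_sqrt.comp_aestronglyMeasurable hSi.aestronglyMeasurable
  have s2 : AEStronglyMeasurable (fun x => Real.sqrt (M x ^ (k + 1))) volume :=
    Real.continuous_sqrt.comp_aestronglyMeasurable hMi.aestronglyMeasurable
  have q1 : ∀ x, Real.sqrt (S x ^ (k + 1)) ^ 2 = S x ^ (k + 1) := fun x =>
    Real.sq_sqrt (pow_nonneg (hS x) _)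
  have q2 : ∀ x, Real.sqrt (M x ^ (k + 1)) ^ 2 = M x ^ (k + 1) := fun x =>
    Real.sq_sqrt (pow_nonneg (hM x) _)
  have m1 : MemLp (fun x => Real.sqrt (S x ^ (k + 1))) 2 volume := by
    rw [memLp_two_iff_integrable_sq s1]
    simp only [q1]
    exact hSi
  have m2 : MemLp (fun x => Real.sqrt (M x ^ (k + 1))) 2 volume := by
    rw [memLp_two_iff_integrable_sq s2]
    simp only [q2]
    exact hMi
  refine ⟨m1.integrable_mul m2, ?_⟩
  have h := integral_mul_le_Lp_mul_Lq_of_nonneg (μ := (volume : Measure ℂ)) (p := 2) (q := 2)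
    (Real.HolderConjugate.two_two) (f := fun x => Real.sqrt (S x ^ (k + 1)))
    (g := fun x => Real.sqrt (M x ^ (k + 1)))
    (Filter.Eventually.of_forall fun x => Real.sqrt_nonneg _)
    (Filter.Eventually.of_forall fun x => Real.sqrt_nonneg _)
    (by rw [ENNReal.ofReal_ofNat]; exact m1) (by rw [ENNReal.ofReal_ofNat]; exact m2)
  simp only [Real.rpow_ofNat, q1, q2] at h
  rw [Real.sqrt_eq_rpow (∫ x, S x ^ (k + 1)), Real.sqrt_eq_rpow (∫ x, M x ^ (k + 1))]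
  exact h

theorem nk_nonneg (K : ℕ) (g : ℂ → ℂ) : 0 ≤ NK K g := integral_nonneg fun _ => by positivity

theorem sqrt_fac (a b N : ℝ) (ha : 0 ≤ a) (hb : 0 ≤ b) :
    Real.sqrt a * (b * Real.sqrt N) = Real.sqrt (a * (b ^ 2 * N)) := by
  rw [Real.sqrt_mul ha, Real.sqrt_mul (sq_nonneg b), Real.sqrt_sq hb]

end QEndAux

open QEndAux in
/-- (QEnd) -/
theorem qEnd (hA : StmtAprK) (hS : StmtShK) (hM : StmtMaxK) (hD : StmtDomF)
    (hF : Four.StmtFac) : StmtQEnd := by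
  intro k hk
  obtain ⟨B, n₀, hB1, hn₀, hApr⟩ := hA k hk
  obtain ⟨C1, hC1, hMax⟩ := hM k hk
  obtain ⟨C2, hC2, hDom⟩ := hD
  obtain ⟨C3, hC3, hSh⟩ := hS k hk
  have hB0 : 0 < B := by linarith
  refine ⟨Real.sqrt (C3 * B) * Real.sqrt (C2 ^ (k + 1) * C1 * B), n₀, by positivity, hn₀,
    fun n hn g h hg hg0 hh hh0 A a₀ d => ?_⟩
  have hn1 : 1 ≤ n := hn₀.trans hn
  have hgm := (hF.2.2.2.2.2.1 g n hn1 hg hg0).1
  have hhm := (hF.2.2.2.2.2.1 h n hn1 hh hh0).1
  obtain ⟨M, hMd, hMi, hMb⟩ := hMax (mg n h) hhm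
  obtain ⟨hSi, hSb, -⟩ := hSh A (mg n g) hgm
  have hM0 : ∀ x, 0 ≤ M x := hMd.2.1
  set S : ℂ → ℝ := fun x => ∑ a ∈ A, ‖iF (cut (sh a) (mg n g)) x‖ ^ 2 with hSdef
  have hS0 : ∀ x, 0 ≤ S x := fun x => Finset.sum_nonneg fun a _ => by positivity
  have hMi' : Integrable (fun x => (C2 * M x) ^ (k + 1)) := by
    simp only [mul_pow]
    exact hMi.const_mul _
  obtain ⟨i1, i2⟩ := half_cs (k := k) (S := S) (M := fun x => C2 * M x) hS0
    (fun x => mul_nonneg hC2.le (hM0 x)) hSi hMi'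
  have h1 : ∫ x, (∑ a ∈ A, ‖iF (cut (sh a) (mg n g)) x‖ ^ 2 *
      ‖iF (cut (bd a₀ (a - d)) (mg n h)) x‖ ^ 2) ^ (((k : ℝ) + 1) / 2)
      ≤ ∫ x, (S x * (C2 * M x)) ^ (((k : ℝ) + 1) / 2) := by
    refine integral_mono_of_nonneg (Filter.Eventually.of_forall fun x => ?_) i1
      (Filter.Eventually.of_forall fun x => ?_)
    · exact Real.rpow_nonneg (Finset.sum_nonneg fun a _ => by positivity) _
    · refine Real.rpow_le_rpow (Finset.sum_nonneg fun a _ => by positivity) ?_ (by positivity)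
      rw [hSdef, Finset.sum_mul]
      refine Finset.sum_le_sum fun a _ => ?_
      exact mul_le_mul_of_nonneg_left ((hDom (mg n h) M hhm hMd x).2.2.1 a₀ (a - d))
        (by positivity)
  refine h1.trans (i2.trans ?_)
  have hg1 := hApr n hn g hg hg0
  have hh1 := hApr n hn h hh hh0
  have b1 : Real.sqrt (∫ x, S x ^ (k + 1)) ≤
      Real.sqrt (C3 * B) * (n ^ k * Real.sqrt (NK (k + 1) g)) := by
    have e : Real.sqrt (C3 * B) * ((n : ℝ) ^ k * Real.sqrt (NK (k + 1) g))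
        = Real.sqrt (C3 * (B * n ^ (2 * k) * NK (k + 1) g)) := by
      have e1 : C3 * (B * (n : ℝ) ^ (2 * k) * NK (k + 1) g)
          = (C3 * B) * (((n : ℝ) ^ k) ^ 2 * NK (k + 1) g) := by ring
      rw [e1]
      exact sqrt_fac _ _ _ (by positivity) (by positivity)
    rw [e]
    exact Real.sqrt_le_sqrt (hSb.trans (mul_le_mul_of_nonneg_left hg1 hC3.le))
  have b2 : Real.sqrt (∫ x, (C2 * M x) ^ (k + 1)) ≤
      Real.sqrt (C2 ^ (k + 1) * C1 * B) * (n ^ k * Real.sqrt (NK (k + 1) h)) := by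
    have e : Real.sqrt (C2 ^ (k + 1) * C1 * B) * ((n : ℝ) ^ k * Real.sqrt (NK (k + 1) h))
        = Real.sqrt (C2 ^ (k + 1) * (C1 * (B * n ^ (2 * k) * NK (k + 1) h))) := by
      have e1 : C2 ^ (k + 1) * (C1 * (B * (n : ℝ) ^ (2 * k) * NK (k + 1) h))
          = (C2 ^ (k + 1) * C1 * B) * (((n : ℝ) ^ k) ^ 2 * NK (k + 1) h) := by ring
      rw [e1]
      exact sqrt_fac _ _ _ (by positivity) (by positivity)
    rw [e]
    apply Real.sqrt_le_sqrt
    have e2 : ∫ x, (C2 * M x) ^ (k + 1) = C2 ^ (k + 1) * ∫ x, M x ^ (k + 1) := by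
      simp only [mul_pow]
      exact integral_const_mul _ _
    rw [e2]
    exact mul_le_mul_of_nonneg_left (hMb.trans (mul_le_mul_of_nonneg_left hh1 hC1.le))
      (by positivity)
  calc Real.sqrt (∫ x, S x ^ (k + 1)) * Real.sqrt (∫ x, (C2 * M x) ^ (k + 1))
      ≤ (Real.sqrt (C3 * B) * (n ^ k * Real.sqrt (NK (k + 1) g))) *
        (Real.sqrt (C2 ^ (k + 1) * C1 * B) * (n ^ k * Real.sqrt (NK (k + 1) h))) :=
        mul_le_mul b1 b2 (Real.sqrt_nonneg _) (by positivity)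
    _ = _ := by
        rw [show 2 * k = k + k by ring, pow_add]
        ring

end Pool.Agent.Lib.MP_dd244f_an.Even
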