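import Pool.Agent.Lib.MP_dd244f_an.Even.Stmts

/-!
(QInt) decay of the pairs of scales in `L^{2 (k + 1)}`: interpolation and limits.
-/

set_option autoImplicit false

namespace Pool.Agent.Lib.MP_dd244f_an.Even

open MeasureTheory Filter Topology Finset
open Pool.Agent.Lib.MP_dd244f_an.Joint (st ct Mst ratio)
open Pool.Agent.Lib.MP_dd244f_an.Four
open scoped ENNReal NNReal

namespace QI

/-- cut to the frequencies between `2 ^ (-R)` and `2 ^ R` -/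
noncomputable def GR (f : ℂ → ℂ) (R : ℕ) : ℂ → ℂ := cut (bd (-(R : ℤ)) R) (fF f)

lemma bd_eq_one (hF : StmtFac) {a b : ℤ} (hab : a ≤ b) {R : ℕ} (h1 : b + 1 ≤ R)
    (h2 : 1 - a ≤ R) {ζ : ℂ} (hζ : bd a b ζ ≠ 0) : bd (-(R : ℤ)) R ζ = 1 := by
  have two : (1 : ℝ) ≤ 2 := one_le_two
  have hlow : (2 : ℝ) ^ a < ‖ζ‖ := by
    by_contra hc
    push Not at hc
    apply hζ
    unfold bd
    rw [hF.2.1 a ζ hc, hF.2.1 b ζ (hc.trans (zpow_le_zpow_right₀ two hab)), sub_self]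
  have hup : ‖ζ‖ ^ 2 < 2 * ((2 : ℝ) ^ b) ^ 2 := by
    by_contra hc
    push Not at hc
    apply hζ
    unfold bd
    have hm : (2 : ℝ) ^ a ≤ (2 : ℝ) ^ b := zpow_le_zpow_right₀ two hab
    have hm0 : (0 : ℝ) < (2 : ℝ) ^ a := by positivity
    rw [hF.2.2.1 b ζ hc, hF.2.2.1 a ζ (le_trans (by nlinarith) hc), sub_self]
  have e1 : lo (R : ℤ) ζ = 1 := by
    apply hF.2.1
    have hm : (2 : ℝ) ^ (b + 1) ≤ (2 : ℝ) ^ (R : ℤ) := zpow_le_zpow_right₀ two h1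
    have e : (2 : ℝ) ^ (b + 1) = 2 * (2 : ℝ) ^ b := by
      rw [zpow_add_one₀ (by norm_num)]; ring
    have hb0 : (0 : ℝ) < (2 : ℝ) ^ b := by positivity
    have : ‖ζ‖ ≤ 2 * (2 : ℝ) ^ b := by
      apply le_of_sq_le_sq _ (by positivity)
      nlinarith
    linarith
  have e2 : lo (-(R : ℤ)) ζ = 0 := by
    apply hF.2.2.1
    have hm : (2 : ℝ) ^ (-(R : ℤ) + 1) ≤ (2 : ℝ) ^ a := zpow_le_zpow_right₀ two (by omega)
    have e : (2 : ℝ) ^ (-(R : ℤ) + 1) = 2 * (2 : ℝ) ^ (-(R : ℤ)) := by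
      rw [zpow_add_one₀ (by norm_num)]; ring
    have hb0 : (0 : ℝ) < (2 : ℝ) ^ (-(R : ℤ)) := by positivity
    rw [e] at hm
    nlinarith
  unfold bd
  rw [e1, e2, sub_zero]

lemma cut_GR (hF : StmtFac) {a b : ℤ} (hab : a ≤ b) {R : ℕ} (h1 : b + 1 ≤ R)
    (h2 : 1 - a ≤ R) (n : ℕ) (f : ℂ → ℂ) :
    cut (bd a b) (mg n (GR f R)) = cut (bd a b) (mg n (fF f)) := by
  ext ζ
  unfold GR cut mg
  by_cases h : bd a b ζ = 0
  · rw [h]; simp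
  · have e := bd_eq_one hF hab h1 h2 h
    simp [e]

lemma z0_GR (hF : StmtFac) (f : ℂ → ℂ) (R : ℕ) : Z0 (GR f R) := by
  have h0 : (0 : ℝ) < (2 : ℝ) ^ (-(R : ℤ)) := by positivity
  have : Metric.ball (0 : ℂ) ((2 : ℝ) ^ (-(R : ℤ))) ∈ 𝓝 (0 : ℂ) := Metric.ball_mem_nhds _ h0
  filter_upwards [this] with ζ hζ
  have h1 : ‖ζ‖ ≤ (2 : ℝ) ^ (-(R : ℤ)) := by
    rw [mem_ball_zero_iff] at hζ; exact hζ.le
  unfold GR cut bd
  rw [hF.2.1 _ _ h1, hF.2.1 _ _ (h1.trans (zpow_le_zpow_right₀ one_le_two (by omega)))]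
  simp

/-- kernel of a band of `T ^ n` -/
noncomputable def kn (n : ℕ) (a b : ℤ) : ℂ → ℂ := iF (fun ζ => (bd a b ζ : ℂ) * mm n ζ)

/-- the pairs of scales -/
noncomputable def Ph (n : ℕ) (A : Finset ℤ) (a₀ : ℤ) (d : ℕ) (f h : ℂ → ℂ) (x : ℂ) : ℝ :=
  ∑ a ∈ A, ‖∫ y, kn n a (a + 1) (x - y) * f y‖ ^ 2 * ‖∫ y, kn n a₀ (a - d) (x - y) * h y‖ ^ 2

/-- the pairs of scales, Fourier side -/
noncomputable def Pg (n : ℕ) (A : Finset ℤ) (a₀ : ℤ) (d : ℕ) (g h : ℂ → ℂ) (x : ℂ) : ℝ :=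
  ∑ a ∈ A, ‖iF (cut (sh a) (mg n g)) x‖ ^ 2 * ‖iF (cut (bd a₀ (a - d)) (mg n h)) x‖ ^ 2

lemma pair_eq (hF : StmtFac) (hDe : StmtDens) (n : ℕ) (A : Finset ℤ) (a₀ : ℤ) (d : ℕ)
    (hA : ∀ a ∈ A, a₀ ≤ a - d) (f h : ℂ → ℂ) (hf : CC f) (hh : CC h) :
    ∀ᶠ R : ℕ in atTop, ∀ x, Pg n A a₀ d (GR f R) (GR h R) x = Ph n A a₀ d f h x := by
  have h1 : ∀ a ∈ A, ∀ᶠ R : ℕ in atTop, (a + 1 + 1 ≤ (R : ℤ) ∧ 1 - a ≤ (R : ℤ)) ∧
      (a - d + 1 ≤ (R : ℤ) ∧ 1 - a₀ ≤ (R : ℤ)) := by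
    intro a _
    have ht : Tendsto (fun R : ℕ => (R : ℤ)) atTop atTop := tendsto_natCast_atTop_atTop
    exact ((ht.eventually_ge_atTop _).and (ht.eventually_ge_atTop _)).and
      ((ht.eventually_ge_atTop _).and (ht.eventually_ge_atTop _))
  rw [← Filter.eventually_all_finset] at h1
  filter_upwards [h1] with R hR x
  unfold Pg Ph
  refine Finset.sum_congr rfl fun a ha => ?_
  obtain ⟨⟨r1, r2⟩, r3, r4⟩ := hR a ha
  have e0 : sh a = bd a (a + 1) := rfl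
  rw [e0, cut_GR hF (by omega) r1 r2, cut_GR hF (hA a ha) r3 r4]
  rw [(hDe.2 n a (a + 1)).2.2.2.1 f hf x, (hDe.2 n a₀ (a - d)).2.2.2.1 h hh x]
  rfl

lemma tend (hDe : StmtDens) (k : ℕ) (hk : 1 ≤ k) (f : ℂ → ℂ) (hf : CC f) :
    Tendsto (fun R : ℕ => NK (k + 1) (GR f R)) atTop (𝓝 (∫ x, ‖f x‖ ^ (2 * (k + 1)))) :=
  ((hDe.1 f hf).2 k hk).2

lemma cc_GR (hDe : StmtDens) (f : ℂ → ℂ) (hf : CC f) (R : ℕ) : CC (GR f R) :=
  ((hDe.1 f hf).2 1 le_rfl).1 R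

/-- first hypothesis of the interpolation -/
lemma hyp1 (hB : StmtBase) (hF : StmtFac) (hDe : StmtDens) {C : ℝ} (n : ℕ)
    (hD : ∀ g h, CC g → Z0 g →
      CC h → Z0 h → ∀ (A : Finset ℤ) (a₀ : ℤ) (d : ℕ), (∀ a ∈ A, a₀ ≤ a - d) →
      ∑ a ∈ A, N22 (cut (sh a) (mg n g)) (cut (bd a₀ (a - d)) (mg n h)) ≤
        C * n ^ 2 * ((2 : ℝ) ^ (-(d : ℤ)) + 1 / n) * (Real.sqrt (N4 g) * Real.sqrt (N4 h)))
    (A : Finset ℤ) (a₀ : ℤ) (d : ℕ)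
    (hA : ∀ a ∈ A, a₀ ≤ a - d) (f h : ℂ → ℂ) (hf : CC f) (hh : CC h) :
    ∫ x, Ph n A a₀ d f h x ≤ C * n ^ 2 * ((2 : ℝ) ^ (-(d : ℤ)) + 1 / n) *
      (Real.sqrt (∫ x, ‖f x‖ ^ 4) * Real.sqrt (∫ x, ‖h x‖ ^ 4)) := by
  have hlim : Tendsto (fun R : ℕ => C * n ^ 2 * ((2 : ℝ) ^ (-(d : ℤ)) + 1 / n) *
      (Real.sqrt (N4 (GR f R)) * Real.sqrt (N4 (GR h R)))) atTop
      (𝓝 (C * n ^ 2 * ((2 : ℝ) ^ (-(d : ℤ)) + 1 / n) *
      (Real.sqrt (∫ x, ‖f x‖ ^ 4) * Real.sqrt (∫ x, ‖h x‖ ^ 4)))) := by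
    apply Tendsto.const_mul
    exact ((tend hDe 1 le_rfl f hf).sqrt).mul ((tend hDe 1 le_rfl h hh).sqrt)
  refine ge_of_tendsto hlim ?_
  filter_upwards [pair_eq hF hDe n A a₀ d hA f h hf hh] with R hR
  refine le_trans (le_of_eq ?_) (hD (GR f R) (GR h R) (cc_GR hDe f hf R) (z0_GR hF f R)
    (cc_GR hDe h hh R) (z0_GR hF h R) A a₀ d hA)
  have e1 : (fun x => Ph n A a₀ d f h x) = fun x => Pg n A a₀ d (GR f R) (GR h R) x := by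
    funext x; exact (hR x).symm
  rw [e1]
  unfold Pg N22
  rw [integral_finsetSum]
  intro a ha
  have c1 : CC (cut (sh a) (mg n (GR f R))) := hF.2.2.2.2.2.2 _ n a (a + 1) (cc_GR hDe f hf R)
  have c2 : CC (cut (bd a₀ (a - d)) (mg n (GR h R))) :=
    hF.2.2.2.2.2.2 _ n _ _ (cc_GR hDe h hh R)
  obtain ⟨k1, ⟨B, hBd⟩, k3, -, -⟩ := hB.1 _ c1
  obtain ⟨l1, -, l3, -, -⟩ := hB.1 _ c2
  apply (l3.const_mul (B ^ 2)).mono' ((k1.norm.pow 2).mul (l1.norm.pow 2)).aestronglyMeasurable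
  refine ae_of_all _ fun x => ?_
  have h0 : 0 ≤ ‖iF (cut (sh a) (mg n (GR f R))) x‖ ^ 2 *
      ‖iF (cut (bd a₀ (a - d)) (mg n (GR h R))) x‖ ^ 2 := by positivity
  have h1 : ‖iF (cut (sh a) (mg n (GR f R))) x‖ ^ 2 *
      ‖iF (cut (bd a₀ (a - d)) (mg n (GR h R))) x‖ ^ 2 ≤
      B ^ 2 * ‖iF (cut (bd a₀ (a - d)) (mg n (GR h R))) x‖ ^ 2 := by
    gcongr
    exact hBd x
  calc _ = _ := Real.norm_of_nonneg h0
    _ ≤ _ := h1

/-- second hypothesis of the interpolation -/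
lemma hyp2 (hF : StmtFac) (hDe : StmtDens) {C : ℝ} (n k : ℕ) (hk : 1 ≤ k)
    (hD : ∀ g h, CC g → Z0 g → CC h → Z0 h → ∀ (A : Finset ℤ) (a₀ : ℤ) (d : ℕ),
      ∫ x, (∑ a ∈ A, ‖iF (cut (sh a) (mg n g)) x‖ ^ 2 *
          ‖iF (cut (bd a₀ (a - d)) (mg n h)) x‖ ^ 2) ^ (((k : ℝ) + 1) / 2)
        ≤ C * n ^ (2 * k) * (Real.sqrt (NK (k + 1) g) * Real.sqrt (NK (k + 1) h)))
    (A : Finset ℤ) (a₀ : ℤ) (d : ℕ)
    (hA : ∀ a ∈ A, a₀ ≤ a - d) (f h : ℂ → ℂ) (hf : CC f) (hh : CC h) :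
    ∫ x, (Ph n A a₀ d f h x) ^ (((k : ℝ) + 1) / 2) ≤ C * n ^ (2 * k) *
      (Real.sqrt (∫ x, ‖f x‖ ^ (2 * (k + 1))) * Real.sqrt (∫ x, ‖h x‖ ^ (2 * (k + 1)))) := by
  have hlim : Tendsto (fun R : ℕ => C * n ^ (2 * k) *
      (Real.sqrt (NK (k + 1) (GR f R)) * Real.sqrt (NK (k + 1) (GR h R)))) atTop
      (𝓝 (C * n ^ (2 * k) *
      (Real.sqrt (∫ x, ‖f x‖ ^ (2 * (k + 1))) * Real.sqrt (∫ x, ‖h x‖ ^ (2 * (k + 1)))))) := by
    apply Tendsto.const_mul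
    exact ((tend hDe k hk f hf).sqrt).mul ((tend hDe k hk h hh).sqrt)
  refine ge_of_tendsto hlim ?_
  filter_upwards [pair_eq hF hDe n A a₀ d hA f h hf hh] with R hR
  refine le_trans (le_of_eq ?_) (hD (GR f R) (GR h R) (cc_GR hDe f hf R) (z0_GR hF f R)
    (cc_GR hDe h hh R) (z0_GR hF h R) A a₀ d)
  refine integral_congr_ae (ae_of_all _ fun x => ?_)
  have := hR x
  simp only [← this]
  rfl

/-- the interpolated bound, `f`, `h` in `C_c` -/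
lemma interp (hRT : StmtRT) (hB : StmtBase) (hF : StmtFac) (hDe : StmtDens) {C₀ C₁ : ℝ}
    (hC₀ : 0 < C₀) (hC₁ : 0 < C₁) (n k : ℕ) (hn : 1 ≤ n) (hk : 1 ≤ k)
    (hD : ∀ g h, CC g → Z0 g →
      CC h → Z0 h → ∀ (A : Finset ℤ) (a₀ : ℤ) (d : ℕ), (∀ a ∈ A, a₀ ≤ a - d) →
      ∑ a ∈ A, N22 (cut (sh a) (mg n g)) (cut (bd a₀ (a - d)) (mg n h)) ≤
        C₀ * n ^ 2 * ((2 : ℝ) ^ (-(d : ℤ)) + 1 / n) * (Real.sqrt (N4 g) * Real.sqrt (N4 h)))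
    (hQ : ∀ g h, CC g → Z0 g → CC h → Z0 h → ∀ (A : Finset ℤ) (a₀ : ℤ) (d : ℕ),
      ∫ x, (∑ a ∈ A, ‖iF (cut (sh a) (mg n g)) x‖ ^ 2 *
          ‖iF (cut (bd a₀ (a - d)) (mg n h)) x‖ ^ 2) ^ ((((2 * k + 1 : ℕ) : ℝ) + 1) / 2)
        ≤ C₁ * n ^ (2 * (2 * k + 1)) *
          (Real.sqrt (NK (2 * k + 1 + 1) g) * Real.sqrt (NK (2 * k + 1 + 1) h)))
    (A : Finset ℤ) (a₀ : ℤ) (d : ℕ)
    (hA : ∀ a ∈ A, a₀ ≤ a - d) (f : ℂ → ℂ) (hf : CC f) :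
    Integrable (fun x => (Ph n A a₀ d f f x) ^ (((k : ℝ) + 1) / 2)) ∧
    ∫ x, (Ph n A a₀ d f f x) ^ (((k : ℝ) + 1) / 2) ≤
      C₀ ^ (((k : ℝ) + 1) / (2 * k)) * C₁ ^ (((k : ℝ) - 1) / (2 * k)) * n ^ (2 * k) *
      ((2 : ℝ) ^ (-(d : ℤ)) + 1 / n) ^ (((k : ℝ) + 1) / (2 * k)) *
      ∫ x, ‖f x‖ ^ (2 * (k + 1)) := by
  have hk0 : (0 : ℝ) < k := by exact_mod_cast hk
  have hk1 : (1 : ℝ) ≤ k := by exact_mod_cast hk
  have hn0 : (0 : ℝ) < n := by exact_mod_cast hn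
  set E : ℝ := (2 : ℝ) ^ (-(d : ℤ)) + 1 / n with hE
  have hE0 : 0 < E := by positivity
  -- the constants
  set Y₀ : ℝ := C₀ * n ^ 2 * E with hY₀
  set Y₁ : ℝ := C₁ * n ^ (2 * (2 * k + 1)) with hY₁
  have hY₀0 : 0 < Y₀ := by positivity
  have hY₁0 : 0 < Y₁ := by positivity
  set M₀ : ℝ := Y₀ ^ (1 / 2 : ℝ) with hM₀
  set M₁ : ℝ := Y₁ ^ (1 / (2 * ((k : ℝ) + 1))) with hM₁
  have hM₀0 : 0 < M₀ := Real.rpow_pos_of_pos hY₀0 _
  have hM₁0 : 0 < M₁ := Real.rpow_pos_of_pos hY₁0 _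
  have key := hRT A (fun a => kn n a (a + 1)) (fun a => kn n a₀ (a - d)) 4 (4 * ((k : ℝ) + 1))
    (2 * ((k : ℝ) + 1)) M₀ M₁ (((k : ℝ) - 1) / k)
    (fun a _ => ⟨(hDe.2 n _ _).1, (hDe.2 n _ _).2.1, (hDe.2 n _ _).2.2.1,
      (hDe.2 n _ _).1, (hDe.2 n _ _).2.1, (hDe.2 n _ _).2.2.1⟩) le_rfl (by linarith) hM₀0 hM₁0
    (div_nonneg (by linarith) hk0.le) (by rw [div_le_one hk0]; linarith)
    (by field_simp; ring) ?_ ?_ f f hf hf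
  · have e1 : (2 * ((k : ℝ) + 1)) / 4 = ((k : ℝ) + 1) / 2 := by ring
    rw [e1] at key
    refine ⟨key.1, key.2.trans (le_of_eq ?_)⟩
    have e2 : ∀ x : ℂ, ‖f x‖ ^ (2 * ((k : ℝ) + 1)) = ‖f x‖ ^ (2 * (k + 1)) := fun x => by
      rw [← Real.rpow_natCast]; push_cast; rfl
    simp only [e2]
    have e3 : ∀ I : ℝ, 0 ≤ I → I ^ (1 / 2 : ℝ) * I ^ (1 / 2 : ℝ) = I := fun I hI => by
      rw [← Real.sqrt_eq_rpow]; exact Real.mul_self_sqrt hI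
    rw [e3 _ (integral_nonneg fun x => by positivity)]
    congr 1
    have e4 : (M₀ ^ (1 - ((k : ℝ) - 1) / k) * M₁ ^ (((k : ℝ) - 1) / k)) ^ (2 * ((k : ℝ) + 1) / 2)
        = Y₀ ^ (((k : ℝ) + 1) / (2 * k)) * Y₁ ^ (((k : ℝ) - 1) / (2 * k)) := by
      rw [Real.mul_rpow (by positivity) (by positivity), hM₀, hM₁, ← Real.rpow_mul hY₀0.le,
        ← Real.rpow_mul hY₀0.le, ← Real.rpow_mul hY₁0.le, ← Real.rpow_mul hY₁0.le]
      congr 2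
      · field_simp
        ring
      · field_simp
    rw [e4, hY₀, hY₁, Real.mul_rpow (by positivity) hE0.le, Real.mul_rpow hC₀.le (by positivity),
      Real.mul_rpow hC₁.le (by positivity), ← Real.rpow_natCast, ← Real.rpow_natCast,
      ← Real.rpow_natCast, ← Real.rpow_mul hn0.le, ← Real.rpow_mul hn0.le]
    have e5 : (n : ℝ) ^ (((2 : ℕ) : ℝ) * (((k : ℝ) + 1) / (2 * k))) *
        (n : ℝ) ^ (((2 * (2 * k + 1) : ℕ) : ℝ) * (((k : ℝ) - 1) / (2 * k))) =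
        (n : ℝ) ^ ((2 * k : ℕ) : ℝ) := by
      rw [← Real.rpow_add hn0]
      congr 1
      push_cast
      field_simp
      ring
    rw [← e5]
    ring
  · intro f' h' hf' hh'
    have h1 := hyp1 hB hF hDe n hD A a₀ d hA f' h' hf' hh'
    have e1 : (4 : ℝ) / 4 = 1 := by norm_num
    have e2 : (4 : ℝ) / 2 = ((2 : ℕ) : ℝ) := by norm_num
    have e3 : M₀ ^ ((4 : ℝ) / 2) = Y₀ := by
      rw [hM₀, ← Real.rpow_mul hY₀0.le]; norm_num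
    have e4 : ∀ (φ : ℂ → ℂ) (x : ℂ), ‖φ x‖ ^ (4 : ℝ) = ‖φ x‖ ^ 4 := fun φ x => by
      rw [← Real.rpow_natCast]; norm_num
    rw [e3, ← Real.sqrt_eq_rpow]
    simp only [e1, Real.rpow_one, e4]
    rw [← Real.sqrt_eq_rpow]
    exact h1
  · intro f' h' hf' hh'
    have h1 := hyp2 hF hDe n (2 * k + 1) (by omega) hQ A a₀ d hA f' h' hf' hh'
    have e1 : (4 * ((k : ℝ) + 1)) / 4 = (((2 * k + 1 : ℕ) : ℝ) + 1) / 2 := by push_cast; ring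
    have e3 : M₁ ^ ((4 * ((k : ℝ) + 1)) / 2) = Y₁ := by
      rw [hM₁, ← Real.rpow_mul hY₁0.le]
      have : 1 / (2 * ((k : ℝ) + 1)) * ((4 * ((k : ℝ) + 1)) / 2) = 1 := by field_simp; norm_num
      rw [this, Real.rpow_one]
    have e4 : ∀ (φ : ℂ → ℂ) (x : ℂ), ‖φ x‖ ^ (4 * ((k : ℝ) + 1)) =
        ‖φ x‖ ^ (2 * (2 * k + 1 + 1)) := fun φ x => by
      rw [← Real.rpow_natCast]
      congr 1
      push_cast
      ring
    rw [e3, ← Real.sqrt_eq_rpow, ← Real.sqrt_eq_rpow, e1]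
    simp only [e4]
    exact h1

/-- a cutoff of a continuous function is in `C_c` -/
lemma cc_cut (hF : StmtFac) (a : ℤ) (F : ℂ → ℂ) (hc : Continuous F) : CC (cut (lo a) F) := by
  have h1 : Continuous (lo a) := (hF.2.2.2.1 a 0).continuous
  refine ⟨?_, ?_⟩
  · unfold cut
    exact (Complex.continuous_ofReal.comp h1).mul hc
  · apply HasCompactSupport.intro (isCompact_closedBall (0 : ℂ) (2 * (2 : ℝ) ^ a))
    intro x hx
    have h0 : (0 : ℝ) < (2 : ℝ) ^ a := by positivity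
    have hx' : 2 * (2 : ℝ) ^ a < ‖x‖ := by
      simpa [Metric.mem_closedBall, dist_zero_right] using hx
    unfold cut
    rw [hF.2.2.1 a x (by nlinarith)]
    simp

lemma cut_norm_le (hF : StmtFac) (a : ℤ) (F : ℂ → ℂ) (x : ℂ) : ‖cut (lo a) F x‖ ≤ ‖F x‖ := by
  unfold cut
  rw [norm_mul, Complex.norm_real, Real.norm_of_nonneg (hF.1 a x).1]
  exact mul_le_of_le_one_left (norm_nonneg _) (hF.1 a x).2

lemma cut_tendsto (hF : StmtFac) (F : ℂ → ℂ) (x : ℂ) :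
    Tendsto (fun j : ℕ => cut (lo (j : ℤ)) F x) atTop (𝓝 (F x)) := by
  apply tendsto_const_nhds.congr'
  have h2 : Tendsto (fun j : ℕ => (2 : ℝ) ^ j) atTop atTop :=
    tendsto_pow_atTop_atTop_of_one_lt one_lt_two
  filter_upwards [h2.eventually_ge_atTop ‖x‖] with j hj
  unfold cut
  rw [hF.2.1 (j : ℤ) x (by rw [zpow_natCast]; exact hj)]
  simp

/-- convergence of the convolutions -/
lemma conv_tendsto (hF : StmtFac) (K F : ℂ → ℂ) (hK : Continuous K) (hKi : Integrable K)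
    (hFc : Continuous F) {B : ℝ} (hB : ∀ x, ‖F x‖ ≤ B) (x : ℂ) :
    Tendsto (fun j : ℕ => ∫ y, K (x - y) * cut (lo (j : ℤ)) F y) atTop
      (𝓝 (∫ y, K (x - y) * F y)) := by
  apply tendsto_integral_of_dominated_convergence (fun y => ‖K (x - y)‖ * B)
  · intro j
    have h1 := (cc_cut hF (j : ℤ) F hFc).1
    exact ((hK.comp (continuous_const.sub continuous_id)).mul h1).aestronglyMeasurable
  · exact ((hKi.comp_sub_left x).norm).mul_const B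
  · intro j
    refine ae_of_all _ fun y => ?_
    rw [norm_mul]
    gcongr
    exact (cut_norm_le hF _ F y).trans (hB y)
  · refine ae_of_all _ fun y => ?_
    exact (cut_tendsto hF F y).const_mul _

lemma Ph_tendsto (hF : StmtFac) (hDe : StmtDens) (n : ℕ) (A : Finset ℤ) (a₀ : ℤ) (d : ℕ)
    (F : ℂ → ℂ) (hFc : Continuous F) {B : ℝ} (hB : ∀ x, ‖F x‖ ≤ B) (x : ℂ) :
    Tendsto (fun j : ℕ => Ph n A a₀ d (cut (lo (j : ℤ)) F) (cut (lo (j : ℤ)) F) x) atTop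
      (𝓝 (Ph n A a₀ d F F x)) := by
  unfold Ph
  refine tendsto_finsetSum _ fun a _ => ?_
  exact (((conv_tendsto hF _ F (hDe.2 n _ _).1 (hDe.2 n _ _).2.1 hFc hB x).norm).pow 2).mul
    (((conv_tendsto hF _ F (hDe.2 n _ _).1 (hDe.2 n _ _).2.1 hFc hB x).norm).pow 2)

lemma Ph_iF (hDe : StmtDens) (n : ℕ) (A : Finset ℤ) (a₀ : ℤ) (d : ℕ)
    (g : ℂ → ℂ) (hg : CC g) (x : ℂ) :
    Ph n A a₀ d (iF g) (iF g) x = Pg n A a₀ d g g x := by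
  unfold Ph Pg
  refine Finset.sum_congr rfl fun a _ => ?_
  have e0 : sh a = bd a (a + 1) := rfl
  rw [e0, (hDe.2 n a (a + 1)).2.2.2.2 g hg x, (hDe.2 n a₀ (a - d)).2.2.2.2 g hg x]
  rfl

/-- Fatou -/
lemma fatou (X : ℕ → ℂ → ℝ) (Y : ℂ → ℝ) {b : ℝ} (hb : 0 ≤ b) (hX : ∀ j, Integrable (X j))
    (hX0 : ∀ j x, 0 ≤ X j x) (hXb : ∀ j, ∫ x, X j x ≤ b) (hY : Continuous Y)
    (hlim : ∀ x, Tendsto (fun j => X j x) atTop (𝓝 (Y x))) :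
    Integrable Y ∧ ∫ x, Y x ≤ b := by
  have hY0 : ∀ x, 0 ≤ Y x := fun x => ge_of_tendsto' (hlim x) fun j => hX0 j x
  have h1 : ∫⁻ x, ENNReal.ofReal (Y x) ≤ ENNReal.ofReal b := by
    have e1 : ∀ x, ENNReal.ofReal (Y x) = liminf (fun j => ENNReal.ofReal (X j x)) atTop :=
      fun x => (((ENNReal.continuous_ofReal.tendsto _).comp (hlim x)).liminf_eq).symm
    simp only [e1]
    refine (lintegral_liminf_le' fun j => (hX j).1.aemeasurable.ennreal_ofReal).trans ?_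
    have h2 : ∀ j, ∫⁻ x, ENNReal.ofReal (X j x) ≤ ENNReal.ofReal b := fun j => by
      rw [← ofReal_integral_eq_lintegral_ofReal (hX j) (ae_of_all _ (hX0 j))]
      exact ENNReal.ofReal_le_ofReal (hXb j)
    calc _ ≤ liminf (fun _ : ℕ => ENNReal.ofReal b) atTop :=
          liminf_le_liminf (Eventually.of_forall h2)
      _ = _ := liminf_const _
  have hi : Integrable Y := by
    refine ⟨hY.aestronglyMeasurable, ?_⟩
    rw [hasFiniteIntegral_iff_ofReal (ae_of_all _ hY0)]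
    exact h1.trans_lt ENNReal.ofReal_lt_top
  refine ⟨hi, ?_⟩
  rw [← ofReal_integral_eq_lintegral_ofReal hi (ae_of_all _ hY0)] at h1
  exact (ENNReal.ofReal_le_ofReal_iff hb).1 h1

end QI

open QI in
theorem qInt (hRT : StmtRT) (hD : StmtDec2) (hQ : StmtQEnd) (hDe : StmtDens) (hB : StmtBase)
    (hF : StmtFac) : StmtQInt := by
  intro k hk
  obtain ⟨C₀, n₁, hC₀, hn₁, H0⟩ := hD
  obtain ⟨C₁, n₂, hC₁, hn₂, H1⟩ := hQ (2 * k + 1) (by omega)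
  have hk0 : (0 : ℝ) < k := by exact_mod_cast hk
  refine ⟨C₀ ^ (((k : ℝ) + 1) / (2 * k)) * C₁ ^ (((k : ℝ) - 1) / (2 * k)),
    ((k : ℝ) + 1) / (2 * k), max n₁ n₂, by positivity, by positivity, le_max_of_le_left hn₁, ?_⟩
  intro n hn g hg hg0 A a₀ d hA
  have hn1 : n₁ ≤ n := le_trans (le_max_left _ _) hn
  have hn2 : n₂ ≤ n := le_trans (le_max_right _ _) hn
  have hn' : 1 ≤ n := hn₁.trans hn1
  have hn0 : (0 : ℝ) < n := by exact_mod_cast hn'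
  obtain ⟨hFc, ⟨B, hBd⟩, hF2, -, -⟩ := hB.1 g hg
  have hI : ∀ f, CC f → _ := fun f hf => interp hRT hB hF hDe hC₀ hC₁ n k hn' hk (H0 n hn1)
    (H1 n hn2) A a₀ d hA f hf
  have hB0 : 0 ≤ B := (norm_nonneg _).trans (hBd 0)
  -- integrability of `|iF g| ^ (2 (k + 1))`
  have hNi : Integrable (fun x => ‖iF g x‖ ^ (2 * (k + 1))) := by
    apply (hF2.const_mul (B ^ (2 * k))).mono' (hFc.norm.pow _).aestronglyMeasurable
    refine ae_of_all _ fun x => ?_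
    have h0 : 0 ≤ ‖iF g x‖ ^ (2 * (k + 1)) := by positivity
    calc _ = ‖iF g x‖ ^ (2 * (k + 1)) := Real.norm_of_nonneg h0
      _ = ‖iF g x‖ ^ (2 * k) * ‖iF g x‖ ^ 2 := by ring
      _ ≤ _ := by gcongr; exact hBd x
  have hexp : (0 : ℝ) ≤ ((k : ℝ) + 1) / 2 := by positivity
  have hPc : Continuous fun x => (Pg n A a₀ d g g x) ^ (((k : ℝ) + 1) / 2) := by
    apply Continuous.rpow_const _ fun x => Or.inr hexp
    unfold Pg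
    refine continuous_finsetSum _ fun a _ => ?_
    have c1 : CC (cut (sh a) (mg n g)) := hF.2.2.2.2.2.2 _ n a (a + 1) hg
    have c2 : CC (cut (bd a₀ (a - d)) (mg n g)) := hF.2.2.2.2.2.2 _ n _ _ hg
    exact ((hB.1 _ c1).1.norm.pow 2).mul ((hB.1 _ c2).1.norm.pow 2)
  have hE0 : (0 : ℝ) < (2 : ℝ) ^ (-(d : ℤ)) + 1 / n := by positivity
  refine fatou (fun j x => (Ph n A a₀ d (cut (lo (j : ℤ)) (iF g)) (cut (lo (j : ℤ)) (iF g)) x) ^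
      (((k : ℝ) + 1) / 2)) (fun x => (Pg n A a₀ d g g x) ^ (((k : ℝ) + 1) / 2)) ?_ ?_ ?_ ?_ hPc ?_
  · have : 0 ≤ NK (k + 1) g := integral_nonneg fun x => by positivity
    positivity
  · intro j
    exact (hI _ (cc_cut hF _ _ hFc)).1
  · intro j x
    apply Real.rpow_nonneg
    unfold Ph
    positivity
  · intro j
    refine (hI _ (cc_cut hF _ _ hFc)).2.trans ?_
    have h1 : ∫ x, ‖cut (lo (j : ℤ)) (iF g) x‖ ^ (2 * (k + 1)) ≤ NK (k + 1) g := by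
      unfold NK
      apply integral_mono_of_nonneg (ae_of_all _ fun x => by positivity) hNi
      refine ae_of_all _ fun x => ?_
      exact pow_le_pow_left₀ (norm_nonneg _) (cut_norm_le hF _ _ x) _
    gcongr
  · intro x
    have h1 := Ph_tendsto hF hDe n A a₀ d (iF g) hFc hBd x
    rw [Ph_iF hDe n A a₀ d g hg x] at h1
    exact h1.rpow_const (Or.inr hexp)

end Pool.Agent.Lib.MP_dd244f_an.Even
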