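import Pool.Agent.Lib.MP_dd244f_an.Even.Stmts

/-!
Full operator, even `p`: the limit of the conjectured constant divided by its growth.
-/

set_option autoImplicit false

namespace Pool.Agent.Lib.MP_dd244f_an.Even

open MeasureTheory Filter Topology Finset
open Pool.Agent.Lib.MP_dd244f_an.Joint (ratio)

private theorem asc_prod (n : ℕ) (x : ℝ) :
    (ascPochhammer ℝ n).eval x = ∏ j ∈ Finset.range n, (x + j) := by
  induction n with
  | zero => simp
  | succ n ih =>
    rw [ascPochhammer_succ_eval, ih, Finset.prod_range_succ]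

theorem ratioK : StmtRatioK := by
  intro k hk
  rw [← tendsto_add_atTop_iff_nat 1]
  have hk1 : (1 : ℝ) ≤ k := by exact_mod_cast hk
  set s : ℝ := 1 / (2 * ((k : ℝ) + 1)) with hs
  have hs0 : 0 < s := by positivity
  have hs1 : s ≤ 1 / 4 := by
    rw [hs]
    apply one_div_le_one_div_of_le (by norm_num)
    linarith
  have hs2 : (0 : ℝ) < 1 - s := by linarith
  have h1 := Real.GammaSeq_tendsto_Gamma s
  have h2 := Real.GammaSeq_tendsto_Gamma (1 - s)
  have h3 : Real.Gamma (1 - s) ≠ 0 := (Real.Gamma_pos_of_pos hs2).ne'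
  have h4 := (h1.div h2 h3).pow (2 * k + 2)
  have h5 : Tendsto (fun n : ℕ => ((n : ℝ) / ((n : ℝ) + 1)) ^ (2 * k)) atTop (𝓝 1) := by
    have := (tendsto_natCast_div_add_atTop (1 : ℝ)).pow (2 * k)
    rw [one_pow] at this
    exact this
  have h6 := h4.mul h5
  rw [mul_one] at h6
  have hg : gamK k = Real.Gamma s / Real.Gamma (1 - s) := rfl
  rw [hg]
  refine h6.congr' ?_
  filter_upwards [eventually_gt_atTop 0] with n hn
  have hn0 : (0 : ℝ) < n := by exact_mod_cast hn
  have h7 : ∏ j ∈ Finset.range (n + 1), (1 - s + (j : ℝ)) ≠ 0 :=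
    Finset.prod_ne_zero_iff.mpr fun j _ => by positivity
  have h8 : ∏ j ∈ Finset.range (n + 1), (s + (j : ℝ)) ≠ 0 :=
    Finset.prod_ne_zero_iff.mpr fun j _ => by positivity
  have h9 : (n.factorial : ℝ) ≠ 0 := by exact_mod_cast n.factorial_ne_zero
  have h10 : ((n : ℝ) ^ s / (n : ℝ) ^ (1 - s)) ^ (2 * k + 2) = 1 / (n : ℝ) ^ (2 * k) := by
    rw [← Real.rpow_sub hn0, ← Real.rpow_natCast, ← Real.rpow_mul hn0.le]
    have e : (s - (1 - s)) * ((2 * k + 2 : ℕ) : ℝ) = -((2 * k : ℕ) : ℝ) := by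
      rw [hs]
      push_cast
      field_simp
      ring
    rw [e, Real.rpow_neg hn0.le, Real.rpow_natCast, one_div]
  have h11 : (n : ℝ) ^ (1 - s) ≠ 0 := (Real.rpow_pos_of_pos hn0 _).ne'
  have h12 : (n : ℝ) ≠ 0 := hn0.ne'
  have h13 : (n : ℝ) + 1 ≠ 0 := by positivity
  have h14 : Real.GammaSeq s n / Real.GammaSeq (1 - s) n =
      ((n : ℝ) ^ s / (n : ℝ) ^ (1 - s)) * ratio (n + 1) (2 * ((k : ℝ) + 1)) := by
    simp only [Real.GammaSeq, ratio]
    rw [asc_prod, asc_prod, ← hs]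
    field_simp
  simp only [Pi.div_apply]
  rw [h14, mul_pow, h10, div_pow]
  push_cast
  field_simp

end Pool.Agent.Lib.MP_dd244f_an.Even
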