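import Pool.Agent.Lib.MP_dd244f_an.Even.Stmts

/-!
Full operator, even `p`: the square function inequalities in `L^{2 (k + 1)}`.
-/

set_option autoImplicit false

namespace Pool.Agent.Lib.MP_dd244f_an.Even

open MeasureTheory Filter Topology
open Pool.Agent.Lib.MP_dd244f_an.Four
open scoped ENNReal NNReal Convolution

namespace ShKAux

theorem pow_step (s t : ℝ) (hs : 0 ≤ s) (ht : 0 ≤ t) (K : ℕ) :
    (s + t) ^ (K + 1) ≤ s ^ (K + 1) + (K + 1) * (t * (s + t) ^ K) := by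
  induction K with
  | zero => simp
  | succ K ih =>
    have h0 : 0 ≤ t * (s + t) ^ K := by positivity
    have h1 : s * (s + t) ^ (K + 1) ≤ s * (s ^ (K + 1) + (K + 1) * (t * (s + t) ^ K)) :=
      mul_le_mul_of_nonneg_left ih hs
    have h2 : 0 ≤ (K + 1 : ℝ) * (t * (t * (s + t) ^ K)) := by positivity
    have e1 : (s + t) ^ (K + 1 + 1) = s * (s + t) ^ (K + 1) + t * (s + t) ^ (K + 1) := by ring
    rw [e1]
    have e2 : (((K + 1 : ℕ) : ℝ) + 1) * (t * (s + t) ^ (K + 1))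
        = (K + 1) * (s * (t * (s + t) ^ K)) + (K + 1) * (t * (t * (s + t) ^ K))
          + t * (s + t) ^ (K + 1) := by
      push_cast
      ring
    rw [e2]
    have e3 : s ^ (K + 1 + 1) = s * s ^ (K + 1) := by ring
    rw [e3]
    linarith

theorem pow_sum_le (K : ℕ) (F : ℤ → ℝ) (h : ∀ a, 0 ≤ F a) (A : Finset ℤ) :
    (∑ a ∈ A, F a) ^ (K + 1) ≤
      (K + 1) * ∑ b ∈ A, F b * (∑ c ∈ A.filter (fun c => c ≤ b), F c) ^ K := by
  induction A using Finset.induction_on_max with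
  | empty => simp
  | insert m A hm ih =>
    have hmA : m ∉ A := fun h1 => lt_irrefl _ (hm m h1)
    have e1 : ∑ b ∈ insert m A, F b * (∑ c ∈ (insert m A).filter (fun c => c ≤ b), F c) ^ K
        = F m * (∑ a ∈ insert m A, F a) ^ K
          + ∑ b ∈ A, F b * (∑ c ∈ A.filter (fun c => c ≤ b), F c) ^ K := by
      rw [Finset.sum_insert hmA]
      congr 1
      · congr 3
        refine Finset.filter_true_of_mem fun c hc => ?_
        rcases Finset.mem_insert.1 hc with h1 | h1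
        · exact h1.le
        · exact (hm c h1).le
      · refine Finset.sum_congr rfl fun b hb => ?_
        have h1 : ¬ m ≤ b := not_le.2 (hm b hb)
        rw [Finset.filter_insert, if_neg h1]
    rw [e1, Finset.sum_insert hmA]
    have h1 := pow_step (∑ a ∈ A, F a) (F m) (Finset.sum_nonneg fun a _ => h a) (h m) K
    rw [add_comm (F m)]
    refine h1.trans ?_
    rw [mul_add]
    linarith

/-- Young's inequality for three factors -/
theorem young (K : ℕ) (u v m δ : ℝ) (hu : 0 ≤ u) (hv : 0 ≤ v) (hm : 0 ≤ m) (hδ : 0 < δ) :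
    u * v ^ K * m ≤ δ * (u ^ (K + 2) + v ^ (K + 2)) + (1 / δ) ^ (K + 1) * m ^ (K + 2) := by
  have hM0 : 0 ≤ max u v := le_max_of_le_left hu
  have h1 : u * v ^ K ≤ max u v ^ (K + 1) := by
    rw [pow_succ, mul_comm]
    exact mul_le_mul (pow_le_pow_left₀ hv (le_max_right _ _) _) (le_max_left _ _) hu
      (pow_nonneg hM0 _)
  have h2 : 0 ≤ (1 / δ) ^ (K + 1) * m ^ (K + 2) := by positivity
  have h2' : 0 ≤ δ * (u ^ (K + 2) + v ^ (K + 2)) := by positivity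
  have h3 : max u v ^ (K + 2) ≤ u ^ (K + 2) + v ^ (K + 2) := by
    rcases le_total u v with h | h
    · rw [max_eq_right h]
      linarith [pow_nonneg hu (K + 2)]
    · rw [max_eq_left h]
      linarith [pow_nonneg hv (K + 2)]
  rcases le_total m (δ * max u v) with h | h
  · calc u * v ^ K * m ≤ max u v ^ (K + 1) * (δ * max u v) :=
          mul_le_mul h1 h hm (pow_nonneg hM0 _)
      _ = δ * max u v ^ (K + 2) := by ring
      _ ≤ δ * (u ^ (K + 2) + v ^ (K + 2)) := mul_le_mul_of_nonneg_left h3 hδ.le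
      _ ≤ _ := by linarith
  · have h4 : max u v ≤ 1 / δ * m := by
      rw [one_div, inv_mul_eq_div, le_div_iff₀ hδ]
      linarith
    calc u * v ^ K * m ≤ (1 / δ * m) ^ (K + 1) * m :=
          mul_le_mul_of_nonneg_right (h1.trans (pow_le_pow_left₀ hM0 h4 _)) hm
      _ = (1 / δ) ^ (K + 1) * m ^ (K + 2) := by ring
      _ ≤ _ := by linarith

/-- nonnegative, continuous, bounded, integrable -/
def NCI (φ : ℂ → ℝ) : Prop :=
  Continuous φ ∧ (∀ x, 0 ≤ φ x) ∧ (∃ B, ∀ x, φ x ≤ B) ∧ Integrable φ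

theorem NCI.mul {φ ψ : ℂ → ℝ} (h : NCI φ) (h' : NCI ψ) : NCI (fun x => φ x * ψ x) := by
  obtain ⟨c1, n1, ⟨B1, b1⟩, i1⟩ := h
  obtain ⟨c2, n2, ⟨B2, b2⟩, i2⟩ := h'
  refine ⟨c1.mul c2, fun x => mul_nonneg (n1 x) (n2 x), ⟨B1 * B2, fun x => ?_⟩, ?_⟩
  · exact mul_le_mul (b1 x) (b2 x) (n2 x) ((n1 x).trans (b1 x))
  · refine (i1.mul_bdd (c := B2) c2.aestronglyMeasurable (Eventually.of_forall fun x => ?_))
    rw [Real.norm_of_nonneg (n2 x)]
    exact b2 x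

theorem NCI.pow {φ : ℂ → ℝ} (h : NCI φ) (n : ℕ) : NCI (fun x => φ x ^ (n + 1)) := by
  induction n with
  | zero => simpa using h
  | succ n ih =>
    have := ih.mul h
    simpa [pow_succ] using this

theorem NCI.mul_pow {φ ψ : ℂ → ℝ} (h : NCI φ) (h' : NCI ψ) (n : ℕ) :
    NCI (fun x => φ x * ψ x ^ n) := by
  cases n with
  | zero => simpa using h
  | succ n => exact h.mul (h'.pow n)

theorem NCI.sum {φ : ℤ → ℂ → ℝ} (h : ∀ a, NCI (φ a)) (A : Finset ℤ) :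
    NCI (fun x => ∑ a ∈ A, φ a x) := by
  induction A using Finset.induction_on with
  | empty =>
    refine ⟨by simpa using continuous_const, fun x => by simp, ⟨0, fun x => by simp⟩, ?_⟩
    simp
  | insert a A ha ih =>
    obtain ⟨c1, n1, ⟨B1, b1⟩, i1⟩ := h a
    obtain ⟨c2, n2, ⟨B2, b2⟩, i2⟩ := ih
    have e : (fun x => ∑ b ∈ insert a A, φ b x) = fun x => φ a x + ∑ b ∈ A, φ b x := by
      ext x
      rw [Finset.sum_insert ha]
    rw [e]
    exact ⟨c1.add c2, fun x => add_nonneg (n1 x) (n2 x), ⟨B1 + B2, fun x => add_le_add (b1 x) (b2 x)⟩,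
      i1.add i2⟩

theorem KK_cont (ρ : ℝ) (hρ : 0 < ρ) : Continuous (KK ρ) := by
  unfold KK
  refine continuous_const.div (by fun_prop) fun x => ?_
  positivity

theorem KK_nonneg (ρ : ℝ) (x : ℂ) : 0 ≤ KK ρ x := by
  unfold KK
  positivity

theorem KK_bound (ρ : ℝ) (hρ : 0 < ρ) (x : ℂ) : KK ρ x ≤ 1 / ρ ^ 2 := by
  unfold KK
  rw [div_le_div_iff₀ (by positivity) (by positivity)]
  have : ρ ^ 2 ≤ ρ ^ 2 + ‖x‖ ^ 2 := by nlinarith [norm_nonneg x]
  calc ρ ^ 2 * ρ ^ 2 = (ρ ^ 2) ^ 2 := by ring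
    _ ≤ 1 * (ρ ^ 2 + ‖x‖ ^ 2) ^ 2 := by
        rw [one_mul]
        exact pow_le_pow_left₀ (by positivity) this 2

theorem KK_symm (ρ : ℝ) (x y : ℂ) : KK ρ (x - y) = KK ρ (y - x) := by
  unfold KK
  rw [norm_sub_rev]

/-- convolution with the kernel -/
theorem conv_NCI (hK : StmtKK) (ρ : ℝ) (hρ : 0 < ρ) {φ : ℂ → ℝ} (h : NCI φ) :
    NCI (fun x => ∫ y, KK ρ (x - y) * φ y) := by
  obtain ⟨c1, n1, ⟨B1, b1⟩, i1⟩ := h
  obtain ⟨iK, hKi, -⟩ := hK.1 ρ hρ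
  have e : (fun x => ∫ y, KK ρ (x - y) * φ y) = (φ ⋆[ContinuousLinearMap.mul ℝ ℝ, volume] KK ρ) := by
    ext x
    rw [convolution]
    refine integral_congr_ae (Eventually.of_forall fun y => ?_)
    simp [mul_comm]
  refine ⟨?_, fun x => integral_nonneg fun y => mul_nonneg (KK_nonneg _ _) (n1 y), ?_, ?_⟩
  · rw [e]
    refine BddAbove.continuous_convolution_right_of_integrable _ ?_ i1 (KK_cont ρ hρ)
    refine ⟨1 / ρ ^ 2, ?_⟩
    rintro _ ⟨x, rfl⟩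
    simp only
    rw [Real.norm_of_nonneg (KK_nonneg _ _)]
    exact KK_bound ρ hρ x
  · refine ⟨1 / ρ ^ 2 * ∫ y, φ y, fun x => ?_⟩
    rw [← integral_const_mul]
    refine integral_mono_of_nonneg (Eventually.of_forall fun y => mul_nonneg (KK_nonneg _ _) (n1 y))
      (i1.const_mul _) (Eventually.of_forall fun y => ?_)
    exact mul_le_mul_of_nonneg_right (KK_bound ρ hρ _) (n1 y)
  · rw [e]
    exact Integrable.integrable_convolution _ i1 iK

/-- symmetry of the convolution -/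
theorem conv_symm (ρ : ℝ) (hρ : 0 < ρ) {φ ψ : ℂ → ℝ} (h : NCI φ) (h' : NCI ψ) :
    ∫ x, (∫ y, KK ρ (x - y) * φ y) * ψ x = ∫ y, φ y * ∫ x, KK ρ (y - x) * ψ x := by
  have h1 : Integrable (fun z : ℂ × ℂ => KK ρ (z.1 - z.2) * φ z.2 * ψ z.1) (volume.prod volume) := by
    have h2 : Integrable (fun z : ℂ × ℂ => ψ z.1 * φ z.2) (volume.prod volume) :=
      h'.2.2.2.mul_prod h.2.2.2
    have h3 := h2.bdd_mul (c := 1 / ρ ^ 2) (f := fun z : ℂ × ℂ => KK ρ (z.1 - z.2))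
      ((KK_cont ρ hρ).comp (continuous_fst.sub continuous_snd)).aestronglyMeasurable
      (Eventually.of_forall fun z => by
        rw [Real.norm_of_nonneg (KK_nonneg _ _)]
        exact KK_bound ρ hρ _)
    refine h3.congr (Eventually.of_forall fun z => ?_)
    simp only
    ring
  calc ∫ x, (∫ y, KK ρ (x - y) * φ y) * ψ x
      = ∫ x, ∫ y, KK ρ (x - y) * φ y * ψ x := by
        refine integral_congr_ae (Eventually.of_forall fun x => ?_)
        simp only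
        rw [integral_mul_const]
    _ = ∫ y, ∫ x, KK ρ (x - y) * φ y * ψ x := integral_integral_swap h1
    _ = _ := by
        refine integral_congr_ae (Eventually.of_forall fun y => ?_)
        simp only
        rw [← integral_const_mul]
        refine integral_congr_ae (Eventually.of_forall fun x => ?_)
        simp only
        rw [KK_symm]
        ring


theorem KKm_le (m : ℕ) (hm : 2 ≤ m) (ρ : ℝ) (hρ : 0 < ρ) (x : ℂ) : KKm m ρ x ≤ KK ρ x := by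
  unfold KKm KK
  have hD : 0 < ρ ^ 2 + ‖x‖ ^ 2 := by positivity
  rw [div_le_div_iff₀ (by positivity) (by positivity)]
  obtain ⟨j, rfl⟩ := Nat.exists_eq_add_of_le hm
  have e1 : 2 * (2 + j) - 2 = 2 + 2 * j := by omega
  rw [e1]
  have h1 : (ρ ^ 2) ^ j ≤ (ρ ^ 2 + ‖x‖ ^ 2) ^ j :=
    pow_le_pow_left₀ (by positivity) (by nlinarith [norm_nonneg x]) j
  calc ρ ^ (2 + 2 * j) * (ρ ^ 2 + ‖x‖ ^ 2) ^ 2
      = ρ ^ 2 * (ρ ^ 2 + ‖x‖ ^ 2) ^ 2 * (ρ ^ 2) ^ j := by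
        rw [pow_add, pow_mul]
        ring
    _ ≤ ρ ^ 2 * (ρ ^ 2 + ‖x‖ ^ 2) ^ 2 * (ρ ^ 2 + ‖x‖ ^ 2) ^ j :=
        mul_le_mul_of_nonneg_left h1 (by positivity)
    _ = ρ ^ 2 * (ρ ^ 2 + ‖x‖ ^ 2) ^ (2 + j) := by
        rw [pow_add]
        ring

theorem KKm_nonneg (m : ℕ) (ρ : ℝ) (hρ : 0 < ρ) (x : ℂ) : 0 ≤ KKm m ρ x := by
  unfold KKm
  positivity

theorem KKm_eq (j : ℕ) (ρ : ℝ) (hρ : 0 < ρ) (h : ℂ) :
    KKm (2 * j + 2) ρ h * (4 * (1 + ‖h‖ ^ 2 / ρ ^ 2) ^ 2) ^ j = 4 ^ j * KK ρ h := by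
  unfold KKm KK
  have hD : 0 < ρ ^ 2 + ‖h‖ ^ 2 := by positivity
  have e0 : 1 + ‖h‖ ^ 2 / ρ ^ 2 = (ρ ^ 2 + ‖h‖ ^ 2) / ρ ^ 2 := by
    field_simp
  have e1 : 2 * (2 * j + 2) - 2 = 4 * j + 2 := by omega
  rw [e0, e1, mul_pow, div_pow, div_pow]
  have e2 : ρ ^ (4 * j + 2) = ((ρ ^ 2) ^ 2) ^ j * ρ ^ 2 := by
    rw [← pow_mul, ← pow_mul, ← pow_add]
    congr 1
    ring
  have e3 : (ρ ^ 2 + ‖h‖ ^ 2) ^ (2 * j + 2)
      = ((ρ ^ 2 + ‖h‖ ^ 2) ^ 2) ^ j * (ρ ^ 2 + ‖h‖ ^ 2) ^ 2 := by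
    rw [← pow_mul, ← pow_add]
  rw [e2, e3]
  field_simp

/-- the averages of `F` over all scales below `a` -/
noncomputable def Sb (F : ℤ → ℂ → ℝ) (A : Finset ℤ) (a : ℤ) (x : ℂ) : ℝ :=
  ∑ c ∈ A.filter (fun c => c ≤ a), ∫ z, KK ((2 : ℝ) ^ (-c)) (x - z) * F c z

theorem two_pos (a : ℤ) : (0 : ℝ) < (2 : ℝ) ^ (-a) := by positivity

theorem Sb_NCI (hK : StmtKK) {F : ℤ → ℂ → ℝ} (hF : ∀ a, NCI (F a)) (A : Finset ℤ) (a : ℤ) :
    NCI (Sb F A a) :=
  NCI.sum (φ := fun c x => ∫ z, KK ((2 : ℝ) ^ (-c)) (x - z) * F c z)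
    (fun c => conv_NCI hK _ (two_pos c) (hF c)) _

theorem Sb_slow (hK : StmtKK) {F : ℤ → ℂ → ℝ} (hF : ∀ a, NCI (F a)) (A : Finset ℤ) (a : ℤ)
    (x y : ℂ) : Sb F A a x ≤ 4 * (1 + ‖x - y‖ ^ 2 / ((2 : ℝ) ^ (-a)) ^ 2) ^ 2 * Sb F A a y := by
  unfold Sb
  rw [Finset.mul_sum]
  refine Finset.sum_le_sum fun c hc => ?_
  have hca : c ≤ a := (Finset.mem_filter.1 hc).2
  rw [← integral_const_mul]
  have hi : Integrable (fun z => KK ((2 : ℝ) ^ (-c)) (y - z) * F c z) := by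
    refine (hF c).2.2.2.bdd_mul (c := 1 / ((2 : ℝ) ^ (-c)) ^ 2)
      ((KK_cont _ (two_pos c)).comp (continuous_const.sub continuous_id)).aestronglyMeasurable
      (Eventually.of_forall fun z => ?_)
    rw [Real.norm_of_nonneg (KK_nonneg _ _)]
    exact KK_bound _ (two_pos c) _
  refine integral_mono_of_nonneg (Eventually.of_forall fun z => mul_nonneg (KK_nonneg _ _)
    ((hF c).2.1 z)) (hi.const_mul _) (Eventually.of_forall fun z => ?_)
  simp only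
  rw [← mul_assoc]
  refine mul_le_mul_of_nonneg_right ?_ ((hF c).2.1 z)
  have h1 := hK.2.2.1 ((2 : ℝ) ^ (-c)) (two_pos c) (y - z) (x - y)
  rw [show y - z + (x - y) = x - z by ring] at h1
  refine h1.trans (mul_le_mul_of_nonneg_right ?_ (KK_nonneg _ _))
  have h2 : (2 : ℝ) ^ (-a) ≤ (2 : ℝ) ^ (-c) := zpow_le_zpow_right₀ (by norm_num) (by omega)
  have h3 : ‖x - y‖ ^ 2 / ((2 : ℝ) ^ (-c)) ^ 2 ≤ ‖x - y‖ ^ 2 / ((2 : ℝ) ^ (-a)) ^ 2 := by
    refine div_le_div_of_nonneg_left (by positivity) (by positivity) ?_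
    exact pow_le_pow_left₀ (two_pos a).le h2 2
  have h4 : 0 ≤ ‖x - y‖ ^ 2 / ((2 : ℝ) ^ (-c)) ^ 2 := by positivity
  gcongr

/-- the pointwise inequality -/
theorem pointwise (hK : StmtKK) {F : ℤ → ℂ → ℝ} (hF : ∀ a, NCI (F a)) (j : ℕ) (CP : ℝ)
    (hCP : 0 < CP) (hP : ∀ a x, F a x ≤ CP * ∫ y, KKm (2 * j + 2) ((2 : ℝ) ^ (-a)) (x - y) * F a y)
    (A : Finset ℤ) (x : ℂ) :
    (∑ a ∈ A, F a x) ^ (j + 2) ≤ ((j + 2) * CP ^ (j + 1) * (j + 1) * 4 ^ j) *
      ∑ b ∈ A, ∑ a ∈ A.filter (fun a => a ≤ b),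
        (∫ y, KK ((2 : ℝ) ^ (-a)) (x - y) * (F a y * Sb F A a y ^ j)) * F b x := by
  set qm : ℤ → ℝ := fun a => ∫ y, KKm (2 * j + 2) ((2 : ℝ) ^ (-a)) (x - y) * F a y with hqm
  have hiK : ∀ (c : ℤ) (ψ : ℂ → ℝ), NCI ψ →
      Integrable (fun z => KK ((2 : ℝ) ^ (-c)) (x - z) * ψ z) := by
    intro c ψ hψ
    refine hψ.2.2.2.bdd_mul (c := 1 / ((2 : ℝ) ^ (-c)) ^ 2)
      ((KK_cont _ (two_pos c)).comp (continuous_const.sub continuous_id)).aestronglyMeasurable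
      (Eventually.of_forall fun z => ?_)
    rw [Real.norm_of_nonneg (KK_nonneg _ _)]
    exact KK_bound _ (two_pos c) _
  have hqm0 : ∀ a, 0 ≤ qm a := fun a =>
    integral_nonneg fun y => mul_nonneg (KKm_nonneg _ _ (two_pos a) _) ((hF a).2.1 y)
  have hqmQ : ∀ a, qm a ≤ ∫ z, KK ((2 : ℝ) ^ (-a)) (x - z) * F a z := by
    intro a
    refine integral_mono_of_nonneg (Eventually.of_forall fun y =>
      mul_nonneg (KKm_nonneg _ _ (two_pos a) _) ((hF a).2.1 y)) (hiK a _ (hF a))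
      (Eventually.of_forall fun y => ?_)
    exact mul_le_mul_of_nonneg_right (KKm_le _ (by omega) _ (two_pos a) _) ((hF a).2.1 y)
  have hF0 : ∀ a, 0 ≤ F a x := fun a => (hF a).2.1 x
  have hS0 : ∀ a, 0 ≤ Sb F A a x := fun a => (Sb_NCI hK hF A a).2.1 x
  -- step (3)
  have h3 : ∀ a, qm a * (∑ c ∈ A.filter (fun c => c ≤ a), qm c) ^ j ≤
      4 ^ j * ∫ y, KK ((2 : ℝ) ^ (-a)) (x - y) * (F a y * Sb F A a y ^ j) := by
    intro a
    have h31 : (∑ c ∈ A.filter (fun c => c ≤ a), qm c) ^ j ≤ Sb F A a x ^ j :=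
      pow_le_pow_left₀ (Finset.sum_nonneg fun c _ => hqm0 c)
        (Finset.sum_le_sum fun c _ => hqmQ c) j
    refine (mul_le_mul_of_nonneg_left h31 (hqm0 a)).trans ?_
    rw [hqm]
    simp only
    rw [← integral_mul_const, ← integral_const_mul]
    refine integral_mono_of_nonneg (Eventually.of_forall fun y => ?_)
      ((hiK a _ ((hF a).mul_pow (Sb_NCI hK hF A a) j)).const_mul _)
      (Eventually.of_forall fun y => ?_)
    · exact mul_nonneg (mul_nonneg (KKm_nonneg _ _ (two_pos a) _) ((hF a).2.1 y))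
        (pow_nonneg (hS0 a) _)
    · simp only
      have h32 : Sb F A a x ^ j ≤
          (4 * (1 + ‖x - y‖ ^ 2 / ((2 : ℝ) ^ (-a)) ^ 2) ^ 2) ^ j * Sb F A a y ^ j := by
        rw [← mul_pow]
        exact pow_le_pow_left₀ (hS0 a) (Sb_slow hK hF A a x y) j
      have h33 := KKm_eq j ((2 : ℝ) ^ (-a)) (two_pos a) (x - y)
      have h34 : 0 ≤ KKm (2 * j + 2) ((2 : ℝ) ^ (-a)) (x - y) * F a y :=
        mul_nonneg (KKm_nonneg _ _ (two_pos a) _) ((hF a).2.1 y)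
      calc KKm (2 * j + 2) ((2 : ℝ) ^ (-a)) (x - y) * F a y * Sb F A a x ^ j
          ≤ KKm (2 * j + 2) ((2 : ℝ) ^ (-a)) (x - y) * F a y *
            ((4 * (1 + ‖x - y‖ ^ 2 / ((2 : ℝ) ^ (-a)) ^ 2) ^ 2) ^ j * Sb F A a y ^ j) :=
            mul_le_mul_of_nonneg_left h32 h34
        _ = (KKm (2 * j + 2) ((2 : ℝ) ^ (-a)) (x - y) *
            (4 * (1 + ‖x - y‖ ^ 2 / ((2 : ℝ) ^ (-a)) ^ 2) ^ 2) ^ j) *
              (F a y * Sb F A a y ^ j) := by ring
        _ = _ := by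
            rw [h33]
            ring
  -- step (2)
  have h2 : ∀ b, (∑ c ∈ A.filter (fun c => c ≤ b), F c x) ^ (j + 1) ≤
      CP ^ (j + 1) * ((j + 1) * (4 ^ j * ∑ a ∈ A.filter (fun a => a ≤ b),
        ∫ y, KK ((2 : ℝ) ^ (-a)) (x - y) * (F a y * Sb F A a y ^ j))) := by
    intro b
    have h21 : ∑ c ∈ A.filter (fun c => c ≤ b), F c x ≤
        CP * ∑ c ∈ A.filter (fun c => c ≤ b), qm c := by
      rw [Finset.mul_sum]
      exact Finset.sum_le_sum fun c _ => hP c x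
    have h22 : (∑ c ∈ A.filter (fun c => c ≤ b), F c x) ^ (j + 1) ≤
        CP ^ (j + 1) * (∑ c ∈ A.filter (fun c => c ≤ b), qm c) ^ (j + 1) := by
      rw [← mul_pow]
      exact pow_le_pow_left₀ (Finset.sum_nonneg fun c _ => hF0 c) h21 _
    refine h22.trans (mul_le_mul_of_nonneg_left ?_ (by positivity))
    refine (pow_sum_le j qm hqm0 _).trans (mul_le_mul_of_nonneg_left ?_ (by positivity))
    rw [Finset.mul_sum]
    refine Finset.sum_le_sum fun a ha => ?_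
    have hab : a ≤ b := (Finset.mem_filter.1 ha).2
    have e : (A.filter (fun c => c ≤ b)).filter (fun c => c ≤ a)
        = A.filter (fun c => c ≤ a) := by
      ext c
      simp only [Finset.mem_filter]
      constructor
      · rintro ⟨⟨h1, -⟩, h2⟩
        exact ⟨h1, h2⟩
      · rintro ⟨h1, h2⟩
        exact ⟨⟨h1, h2.trans hab⟩, h2⟩
    rw [e]
    exact h3 a
  -- step (1)
  have h1 := pow_sum_le (j + 1) (fun a => F a x) hF0 A
  refine h1.trans ?_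
  have e1 : ((j + 2) * CP ^ (j + 1) * (j + 1) * 4 ^ j) *
      ∑ b ∈ A, ∑ a ∈ A.filter (fun a => a ≤ b),
        (∫ y, KK ((2 : ℝ) ^ (-a)) (x - y) * (F a y * Sb F A a y ^ j)) * F b x
      = (((j + 1 : ℕ) : ℝ) + 1) * ∑ b ∈ A, F b x * (CP ^ (j + 1) * ((j + 1) * (4 ^ j *
        ∑ a ∈ A.filter (fun a => a ≤ b),
        ∫ y, KK ((2 : ℝ) ^ (-a)) (x - y) * (F a y * Sb F A a y ^ j)))) := by
    rw [Finset.mul_sum, Finset.mul_sum]
    refine Finset.sum_congr rfl fun b _ => ?_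
    rw [← Finset.sum_mul]
    push_cast
    ring
  rw [e1]
  refine mul_le_mul_of_nonneg_left ?_ (by positivity)
  exact Finset.sum_le_sum fun b _ => mul_le_mul_of_nonneg_left (h2 b) (hF0 b)

/-- the dual Doob inequality for real functions -/
theorem ddk_real (hD : StmtDDK) (hK : StmtKK) (K : ℕ) (hK1 : 1 ≤ K) : ∃ CD : ℝ, 0 ≤ CD ∧
    ∀ (A : Finset ℤ) (F : ℤ → ℂ → ℝ), (∀ a, NCI (F a)) →
    ∫ x, (∑ a ∈ A, ∫ y, KK ((2 : ℝ) ^ (-a)) (x - y) * F a y) ^ K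
      ≤ CD * ∫ x, (∑ a ∈ A, F a x) ^ K := by
  obtain ⟨CD, hCD⟩ := hD K hK1
  refine ⟨CD, CD.2, fun A F hF => ?_⟩
  obtain ⟨j, rfl⟩ := Nat.exists_eq_add_of_le' hK1
  have hS := (NCI.sum (φ := fun c x => ∫ z, KK ((2 : ℝ) ^ (-c)) (x - z) * F c z)
    (fun c => conv_NCI hK _ (two_pos c) (hF c)) A).pow j
  have hU := (NCI.sum hF A).pow j
  have h1 := hCD A (fun a x => ENNReal.ofReal (F a x))
    (fun a => ENNReal.measurable_ofReal.comp (hF a).1.measurable)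
  have e1 : ∫⁻ x, (∑ a ∈ A, ∫⁻ y, ENNReal.ofReal (KK ((2 : ℝ) ^ (-a)) (x - y)) *
      ENNReal.ofReal (F a y)) ^ (j + 1)
      = ENNReal.ofReal (∫ x, (∑ a ∈ A, ∫ y, KK ((2 : ℝ) ^ (-a)) (x - y) * F a y) ^ (j + 1)) := by
    rw [ofReal_integral_eq_lintegral_ofReal hS.2.2.2 (Eventually.of_forall hS.2.1)]
    refine lintegral_congr fun x => ?_
    rw [ENNReal.ofReal_pow (Finset.sum_nonneg fun a _ => integral_nonneg fun y =>
      mul_nonneg (KK_nonneg _ _) ((hF a).2.1 y)), ENNReal.ofReal_sum_of_nonneg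
      (fun a _ => integral_nonneg fun y => mul_nonneg (KK_nonneg _ _) ((hF a).2.1 y))]
    congr 1
    refine Finset.sum_congr rfl fun a _ => ?_
    rw [ofReal_integral_eq_lintegral_ofReal]
    · refine lintegral_congr fun y => ?_
      rw [ENNReal.ofReal_mul (KK_nonneg _ _)]
    · refine (hF a).2.2.2.bdd_mul (c := 1 / ((2 : ℝ) ^ (-a)) ^ 2)
        ((KK_cont _ (two_pos a)).comp (continuous_const.sub continuous_id)).aestronglyMeasurable
        (Eventually.of_forall fun z => ?_)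
      rw [Real.norm_of_nonneg (KK_nonneg _ _)]
      exact KK_bound _ (two_pos a) _
    · exact Eventually.of_forall fun y => mul_nonneg (KK_nonneg _ _) ((hF a).2.1 y)
  have e2 : ∫⁻ x, (∑ a ∈ A, ENNReal.ofReal (F a x)) ^ (j + 1)
      = ENNReal.ofReal (∫ x, (∑ a ∈ A, F a x) ^ (j + 1)) := by
    rw [ofReal_integral_eq_lintegral_ofReal hU.2.2.2 (Eventually.of_forall hU.2.1)]
    refine lintegral_congr fun x => ?_
    rw [ENNReal.ofReal_pow (Finset.sum_nonneg fun a _ => (hF a).2.1 x),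
      ENNReal.ofReal_sum_of_nonneg (fun a _ => (hF a).2.1 x)]
  rw [e1, e2] at h1
  have h2 : 0 ≤ ∫ x, (∑ a ∈ A, F a x) ^ (j + 1) := integral_nonneg hU.2.1
  have h3 : (CD : ℝ≥0∞) * ENNReal.ofReal (∫ x, (∑ a ∈ A, F a x) ^ (j + 1))
      = ENNReal.ofReal (CD * ∫ x, (∑ a ∈ A, F a x) ^ (j + 1)) := by
    rw [ENNReal.ofReal_mul (show (0 : ℝ) ≤ (CD : ℝ) from CD.2), ENNReal.ofReal_coe_nnreal]
  rw [h3] at h1
  exact (ENNReal.ofReal_le_ofReal_iff (mul_nonneg CD.2 h2)).1 h1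


/-- the core -/
theorem core (hL : StmtLPm) (hD : StmtDDK) (hM : StmtMaxK) (hLoc : StmtLocL2) (hK : StmtKK)
    (hB : StmtBase) (hF : StmtFac) (k : ℕ) (hk : 1 ≤ k) : ∃ C, 0 < C ∧
    ∀ (A : Finset ℤ) (g : ℂ → ℂ), CC g → (∀ a, NCI (fun x => ‖iF (cut (sh a) g) x‖ ^ 2)) ∧
      ∫ x, (∑ a ∈ A, ‖iF (cut (sh a) g) x‖ ^ 2) ^ (k + 1) ≤ C * NK (k + 1) g ∧
      ∫ x, (∑ a ∈ A, qa a g x) ^ (k + 1) ≤ C * NK (k + 1) g := by
  obtain ⟨j, rfl⟩ := Nat.exists_eq_add_of_le' hk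
  obtain ⟨CP, hCP, hP⟩ := hL (2 * j + 2) (by omega)
  obtain ⟨CD, hCD, hDD⟩ := ddk_real hD hK (j + 1 + 1) (by omega)
  obtain ⟨CM, hCM, hM⟩ := hM (j + 1) (by omega)
  obtain ⟨CL, hCL, hLoc⟩ := hLoc
  set c0 : ℝ := (j + 2) * CP ^ (j + 1) * (j + 1) * 4 ^ j with hc0
  have hc0' : 0 < c0 := by positivity
  set δ : ℝ := 1 / (2 * c0 * CL * (1 + CD)) with hδ
  have hδ0 : 0 < δ := by positivity
  set C1 : ℝ := 2 * (c0 * CL) * ((1 / δ) ^ (j + 1) * CM) with hC1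
  have hC1' : 0 < C1 := by positivity
  refine ⟨(1 + CD) * C1, by positivity, fun A g hg => ?_⟩
  have hcut : ∀ a, CC (cut (sh a) g) := fun a => (hF.2.2.2.2.1 g a a hg).2.2
  have hNCIg : ∀ g' : ℂ → ℂ, CC g' → NCI (fun x => ‖iF g' x‖ ^ 2) := by
    intro g' hg'
    obtain ⟨h1, ⟨Bd, h2⟩, h3, -⟩ := hB.1 g' hg'
    exact ⟨h1.norm.pow 2, fun x => by positivity,
      ⟨Bd ^ 2, fun x => pow_le_pow_left₀ (norm_nonneg _) (h2 x) 2⟩, h3⟩
  set F : ℤ → ℂ → ℝ := fun a x => ‖iF (cut (sh a) g) x‖ ^ 2 with hFdef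
  have hFN : ∀ a, NCI (F a) := fun a => hNCIg _ (hcut a)
  have hGN : NCI (fun x => ‖iF g x‖ ^ 2) := hNCIg g hg
  set U : ℂ → ℝ := fun x => ∑ a ∈ A, F a x with hU
  set S : ℂ → ℝ := fun x => ∑ a ∈ A, ∫ z, KK ((2 : ℝ) ^ (-a)) (x - z) * F a z with hS
  have hUN : NCI U := NCI.sum hFN A
  have hSN : NCI S := NCI.sum (φ := fun c x => ∫ z, KK ((2 : ℝ) ^ (-c)) (x - z) * F c z)
    (fun c => conv_NCI hK _ (two_pos c) (hFN c)) A
  obtain ⟨M, hMd, hMi, hMb⟩ := hM g hg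
  set w : ℤ → ℂ → ℝ := fun a y => F a y * Sb F A a y ^ j with hw
  have hwN : ∀ a, NCI (w a) := fun a => (hFN a).mul_pow (Sb_NCI hK hFN A a) j
  have hWN : ∀ a, NCI (fun x => ∫ y, KK ((2 : ℝ) ^ (-a)) (x - y) * w a y) := fun a =>
    conv_NCI hK _ (two_pos a) (hwN a)
  have hXi : Integrable (fun x => U x ^ (j + 2)) := (hUN.pow (j + 1)).2.2.2
  have hYi : Integrable (fun x => S x ^ (j + 2)) := (hSN.pow (j + 1)).2.2.2
  -- (4a)
  have s1 : ∫ x, U x ^ (j + 2) ≤ c0 * ∑ b ∈ A, ∑ a ∈ A.filter (fun a => a ≤ b),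
      ∫ x, (∫ y, KK ((2 : ℝ) ^ (-a)) (x - y) * w a y) * F b x := by
    have e1 : c0 * ∑ b ∈ A, ∑ a ∈ A.filter (fun a => a ≤ b),
        ∫ x, (∫ y, KK ((2 : ℝ) ^ (-a)) (x - y) * w a y) * F b x
        = ∫ x, c0 * ∑ b ∈ A, ∑ a ∈ A.filter (fun a => a ≤ b),
          (∫ y, KK ((2 : ℝ) ^ (-a)) (x - y) * w a y) * F b x := by
      rw [integral_const_mul, integral_finsetSum]
      · congr 1
        refine Finset.sum_congr rfl fun b _ => ?_
        rw [integral_finsetSum]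
        exact fun a _ => ((hWN a).mul (hFN b)).2.2.2
      · exact fun b _ => integrable_finsetSum _ fun a _ => ((hWN a).mul (hFN b)).2.2.2
    rw [e1]
    refine integral_mono hXi ((integrable_finsetSum _ fun b _ => integrable_finsetSum _ fun a _ =>
      ((hWN a).mul (hFN b)).2.2.2).const_mul c0) fun x => ?_
    exact pointwise hK hFN j CP hCP (fun a x => hP a g hg x) A x
  -- (4b)
  have s2 : ∑ b ∈ A, ∑ a ∈ A.filter (fun a => a ≤ b),
      ∫ x, (∫ y, KK ((2 : ℝ) ^ (-a)) (x - y) * w a y) * F b x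
      = ∑ a ∈ A, ∑ b ∈ A.filter (fun b => a ≤ b),
        ∫ x, (∫ y, KK ((2 : ℝ) ^ (-a)) (x - y) * w a y) * F b x := by
    simp only [Finset.sum_filter]
    exact Finset.sum_comm
  have hwM : ∀ a, Integrable (fun y => w a y * M y) := by
    intro a
    obtain ⟨cw, nw, ⟨Bw, bw⟩, iw⟩ := hwN a
    have hwK := ((hwN a).pow (j + 1)).2.2.2
    refine Integrable.mono' ((hwK.add hMi).add iw) (cw.aestronglyMeasurable.mul
      hMd.1.aestronglyMeasurable) (Eventually.of_forall fun y => ?_)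
    rw [Real.norm_of_nonneg (mul_nonneg (nw y) (hMd.2.1 y))]
    simp only [Pi.add_apply]
    have hm0 := hMd.2.1 y
    have hw0 := nw y
    rcases le_total (M y) 1 with h | h
    · have h2 : w a y * M y ≤ w a y := by nlinarith
      have h3 : 0 ≤ w a y ^ (j + 1 + 1) := by positivity
      have h4 : 0 ≤ M y ^ (j + 1 + 1) := by positivity
      linarith
    · have h3 : 0 ≤ w a y ^ (j + 1 + 1) := by positivity
      have h4 : 0 ≤ M y ^ (j + 1 + 1) := by positivity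
      rcases le_total (M y) (w a y) with h5 | h5
      · have h6 : w a y * M y ≤ w a y ^ (j + 1 + 1) := by
          calc w a y * M y ≤ w a y * w a y := mul_le_mul_of_nonneg_left h5 hw0
            _ = w a y ^ 2 := by ring
            _ ≤ w a y ^ (j + 1 + 1) := pow_le_pow_right₀ (h.trans h5) (by omega)
        linarith
      · have h6 : w a y * M y ≤ M y ^ (j + 1 + 1) := by
          calc w a y * M y ≤ M y * M y := mul_le_mul_of_nonneg_right h5 hm0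
            _ = M y ^ 2 := by ring
            _ ≤ M y ^ (j + 1 + 1) := pow_le_pow_right₀ h (by omega)
        linarith
  have s3 : ∀ a, ∑ b ∈ A.filter (fun b => a ≤ b),
        ∫ x, (∫ y, KK ((2 : ℝ) ^ (-a)) (x - y) * w a y) * F b x
      ≤ CL * ∫ y, w a y * M y := by
    intro a
    have h1 := hLoc a (A.filter (fun b => a ≤ b)) (fun b hb => (Finset.mem_filter.1 hb).2) g (w a)
      hg (hwN a).1 (hwN a).2.1 (hwN a).2.2.2
    refine h1.trans (mul_le_mul_of_nonneg_left ?_ hCL.le)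
    rw [conv_symm _ (two_pos a) (hwN a) hGN]
    exact integral_mono_of_nonneg (Eventually.of_forall fun y => mul_nonneg ((hwN a).2.1 y)
      (integral_nonneg fun x => mul_nonneg (KK_nonneg _ _) (hGN.2.1 x))) (hwM a)
      (Eventually.of_forall fun y => mul_le_mul_of_nonneg_left (hMd.2.2 a y) ((hwN a).2.1 y))
  -- (5)
  have hMi' : Integrable (fun x => M x ^ (j + 2)) := hMi
  have s4 : ∑ a ∈ A, ∫ y, w a y * M y ≤ δ * ((∫ x, U x ^ (j + 2)) + ∫ x, S x ^ (j + 2))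
      + (1 / δ) ^ (j + 1) * ∫ x, M x ^ (j + 2) := by
    have hXY : Integrable (fun x => U x ^ (j + 2) + S x ^ (j + 2)) := hXi.add hYi
    rw [← integral_finsetSum _ fun a _ => hwM a, ← integral_add hXi hYi, ← integral_const_mul,
      ← integral_const_mul, ← integral_add (hXY.const_mul δ) (hMi'.const_mul _)]
    refine integral_mono (integrable_finsetSum _ fun a _ => hwM a)
      ((hXY.const_mul δ).add (hMi'.const_mul _)) fun y => ?_
    simp only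
    have h1 : ∑ a ∈ A, w a y * M y ≤ U y * S y ^ j * M y := by
      rw [hU]
      simp only
      rw [← Finset.sum_mul, Finset.sum_mul A (fun a => F a y) (S y ^ j)]
      refine mul_le_mul_of_nonneg_right (Finset.sum_le_sum fun a _ => ?_) (hMd.2.1 y)
      refine mul_le_mul_of_nonneg_left ?_ ((hFN a).2.1 y)
      refine pow_le_pow_left₀ ((Sb_NCI hK hFN A a).2.1 y) ?_ j
      refine Finset.sum_le_sum_of_subset_of_nonneg (Finset.filter_subset _ _) fun c _ _ => ?_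
      exact integral_nonneg fun z => mul_nonneg (KK_nonneg _ _) ((hFN c).2.1 z)
    exact h1.trans (young j (U y) (S y) (M y) δ (hUN.2.1 y) (hSN.2.1 y) (hMd.2.1 y) hδ0)
  have s5 : ∫ x, S x ^ (j + 2) ≤ CD * ∫ x, U x ^ (j + 2) := hDD A F hFN
  have hMb' : ∫ x, M x ^ (j + 2) ≤ CM * NK (j + 1 + 1) g := hMb
  have hX0 : 0 ≤ ∫ x, U x ^ (j + 2) := integral_nonneg fun x => pow_nonneg (hUN.2.1 x) _
  have hN0 : 0 ≤ NK (j + 1 + 1) g := integral_nonneg fun x => by positivity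
  have s6 : ∫ x, U x ^ (j + 2) ≤ c0 * (CL * (δ * ((∫ x, U x ^ (j + 2))
      + CD * ∫ x, U x ^ (j + 2)) + (1 / δ) ^ (j + 1) * (CM * NK (j + 1 + 1) g))) := by
    refine s1.trans (mul_le_mul_of_nonneg_left ?_ hc0'.le)
    rw [s2]
    refine (Finset.sum_le_sum fun a _ => s3 a).trans ?_
    rw [← Finset.mul_sum]
    refine mul_le_mul_of_nonneg_left (s4.trans ?_) hCL.le
    have h1 : 0 ≤ (1 / δ) ^ (j + 1) := by positivity
    gcongr
  have e6 : c0 * (CL * (δ * ((∫ x, U x ^ (j + 2))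
      + CD * ∫ x, U x ^ (j + 2)) + (1 / δ) ^ (j + 1) * (CM * NK (j + 1 + 1) g)))
      = (∫ x, U x ^ (j + 2)) / 2 + C1 / 2 * NK (j + 1 + 1) g := by
    have h1 : c0 * CL * δ * (1 + CD) = 1 / 2 := by
      rw [hδ]
      field_simp
    rw [hC1]
    linear_combination (∫ x, U x ^ (j + 2)) * h1
  rw [e6] at s6
  have s7 : ∫ x, U x ^ (j + 2) ≤ C1 * NK (j + 1 + 1) g := by linarith
  have hC10 : 0 ≤ C1 * NK (j + 1 + 1) g := by positivity
  refine ⟨hFN, ?_, ?_⟩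
  · refine s7.trans ?_
    nlinarith [mul_nonneg hCD hC10]
  · refine (s5.trans (mul_le_mul_of_nonneg_left s7 hCD)).trans ?_
    nlinarith

end ShKAux

open ShKAux

theorem shK (hL : StmtLPm) (hD : StmtDDK) (hM : StmtMaxK) (hLoc : Four.StmtLocL2)
    (hK : Four.StmtKK) (hB : Four.StmtBase) (hF : Four.StmtFac) : StmtShK := by
  intro k hk
  obtain ⟨C, hC, h⟩ := core hL hD hM hLoc hK hB hF k hk
  refine ⟨C, hC, fun A g hg => ?_⟩
  obtain ⟨hN, h1, -⟩ := h A g hg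
  have hU := NCI.sum hN A
  have hi : Integrable (fun x => (∑ a ∈ A, ‖iF (cut (sh a) g) x‖ ^ 2) ^ (k + 1)) :=
    (hU.pow k).2.2.2
  refine ⟨hi, h1, le_trans ?_ h1⟩
  unfold NK
  have hi2 : ∀ a, Integrable (fun x => ‖iF (cut (sh a) g) x‖ ^ (2 * (k + 1))) := by
    intro a
    refine ((hN a).pow k).2.2.2.congr (Eventually.of_forall fun x => ?_)
    simp only
    rw [← pow_mul]
  rw [← integral_finsetSum _ fun a _ => hi2 a]
  refine integral_mono (integrable_finsetSum _ fun a _ => hi2 a) hi fun x => ?_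
  simp only
  have e : ∑ a ∈ A, ‖iF (cut (sh a) g) x‖ ^ (2 * (k + 1))
      = ∑ a ∈ A, (‖iF (cut (sh a) g) x‖ ^ 2) ^ (k + 1) :=
    Finset.sum_congr rfl fun a _ => by rw [← pow_mul]
  rw [e]
  rw [pow_succ' (∑ a ∈ A, _), Finset.sum_mul]
  refine Finset.sum_le_sum fun a ha => ?_
  rw [pow_succ']
  refine mul_le_mul_of_nonneg_left ?_ (by positivity)
  refine pow_le_pow_left₀ (by positivity) ?_ k
  exact Finset.single_le_sum (f := fun a => ‖iF (cut (sh a) g) x‖ ^ 2)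
    (fun a _ => by positivity) ha

theorem sqK (hL : StmtLPm) (hD : StmtDDK) (hM : StmtMaxK) (hLoc : Four.StmtLocL2)
    (hK : Four.StmtKK) (hB : Four.StmtBase) (hF : Four.StmtFac) : StmtSqK := by
  intro k hk
  obtain ⟨C, hC, h⟩ := core hL hD hM hLoc hK hB hF k hk
  refine ⟨C, hC, fun A g hg => ?_⟩
  obtain ⟨hN, -, h1⟩ := h A g hg
  refine ⟨?_, h1⟩
  have hS := NCI.sum (φ := fun c x => ∫ z, KK ((2 : ℝ) ^ (-c)) (x - z) *
    ‖iF (cut (sh c) g) z‖ ^ 2) (fun c => conv_NCI hK _ (two_pos c) (hN c)) A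
  exact (hS.pow k).2.2.2

end Pool.Agent.Lib.MP_dd244f_an.Even
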