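import Pool.Agent.Lib.MP_dd244f_an.Even.Stmts
import Pool.Agent.Lib.MP_dd244f_an.Four.TailHigh

/-!
Full operator, even `p = 2 (k + 1)`: (TailHK) the high frequencies are negligible at the block
frequencies.
-/

set_option autoImplicit false

namespace Pool.Agent.Lib.MP_dd244f_an.Even

open MeasureTheory Filter Topology Finset
open Pool.Agent.Lib.MP_dd244f_an.Four

namespace THK

/-- the functions of the telescoping sum -/
noncomputable def wf (g : ℂ → ℂ) (i : ℤ) (j l : ℕ) : ℂ → ℂ :=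
  if l < j then cut (lo i) g else if l = j then cut (sh i) g else cut (lo (i + 1)) g

theorem wf_cc (hF : Four.StmtFac) {g : ℂ → ℂ} (hg : CC g) (i : ℤ) (j l : ℕ) :
    CC (wf g i j l) := by
  unfold wf
  split_ifs
  · exact (hF.2.2.2.2.1 g i i hg).1
  · exact (hF.2.2.2.2.1 g i i hg).2.2
  · exact (hF.2.2.2.2.1 g (i + 1) i hg).1

theorem ga_cc {σ : ℝ} {g : ℂ → ℂ} (hg : CC g) (v : ℂ) : CC (fun ζ => ga σ (ζ - v) * g ζ) := by
  refine ⟨?_, hg.2.mul_left⟩
  have := hg.1
  unfold ga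
  fun_prop

/-- one step of the telescoping sum -/
theorem step (hC : StmtCV) (hF : Four.StmtFac) (k : ℕ) {σ : ℝ} {g : ℂ → ℂ} (hg : CC g) (i : ℤ)
    (θ : ℂ) :
    AK k σ (fun _ => cut (lo (i + 1)) g) θ - AK k σ (fun _ => cut (lo i) g) θ =
      ∑ j ∈ Finset.range (k + 1), AK k σ (wf g i j) θ := by
  have h4 := (hC k).2.2.2.1 (fun _ ζ => ga σ (ζ - θ / (k + 1)) * cut (lo (i + 1)) g ζ)
    (fun _ ζ => ga σ (ζ - θ / (k + 1)) * cut (lo i) g ζ)
    (fun j _ => ga_cc (hF.2.2.2.2.1 g (i + 1) i hg).1 _)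
    (fun j _ => ga_cc (hF.2.2.2.2.1 g i i hg).1 _) θ
  unfold AK MF
  rw [h4]
  refine Finset.sum_congr rfl fun j _ => ?_
  congr 1
  funext l ζ
  unfold wf
  split_ifs
  · rfl
  · rw [← mul_sub]
    congr 1
    unfold cut sh bd
    push_cast
    ring
  · rfl

theorem tele (hC : StmtCV) (hF : Four.StmtFac) (k : ℕ) {σ : ℝ} {g : ℂ → ℂ} (hg : CC g) (N : ℤ)
    (θ : ℂ) (K : ℕ) :
    AK k σ (fun _ => cut (lo (N + K)) g) θ - AK k σ (fun _ => cut (lo N) g) θ =
      ∑ i ∈ Finset.range K, ∑ j ∈ Finset.range (k + 1), AK k σ (wf g (N + i) j) θ := by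
  induction K with
  | zero => simp
  | succ K ih =>
    rw [Finset.sum_range_succ, ← ih, ← step hC hF k hg (N + K)]
    push_cast
    rw [← add_assoc]
    ring

theorem exp_bound {c t : ℝ} (hc : 0 < c) (ht : 0 < t) :
    Real.exp (-(c * (t / 2) ^ 2)) * t ^ 2 ≤ 384 / c ^ 3 / t ^ 4 := by
  have h0 : 0 ≤ c * (t / 2) ^ 2 := by positivity
  have h1 : (c * (t / 2) ^ 2) ^ 3 / 6 ≤ Real.exp (c * (t / 2) ^ 2) := by
    have := Real.pow_div_factorial_le_exp (c * (t / 2) ^ 2) h0 3
    simpa [Nat.factorial] using this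
  rw [Real.exp_neg, div_div, le_div_iff₀ (by positivity), inv_mul_eq_div, div_mul_eq_mul_div,
    div_le_iff₀ (Real.exp_pos _)]
  calc t ^ 2 * (c ^ 3 * t ^ 4) = 384 * ((c * (t / 2) ^ 2) ^ 3 / 6) := by ring
    _ ≤ _ := by gcongr

/-- `s m ^ k ≤ s ^ (k + 1) + m ^ (k + 1)` -/
theorem young {s m : ℝ} (hs : 0 ≤ s) (hm : 0 ≤ m) (k : ℕ) :
    s * m ^ k ≤ s ^ (k + 1) + m ^ (k + 1) := by
  rcases le_total s m with h | h
  · calc s * m ^ k ≤ m * m ^ k := by gcongr
      _ = m ^ (k + 1) := by ring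
      _ ≤ _ := le_add_of_nonneg_left (by positivity)
  · calc s * m ^ k ≤ s * s ^ k := by gcongr
      _ = s ^ (k + 1) := by ring
      _ ≤ _ := le_add_of_nonneg_right (by positivity)

theorem int_qm {k : ℕ} {q M : ℂ → ℝ} (hq0 : ∀ x, 0 ≤ q x) (hM0 : ∀ x, 0 ≤ M x)
    (hMm : Measurable M) (hq : Integrable (fun x => q x ^ (k + 1)))
    (hM : Integrable (fun x => M x ^ (k + 1))) : Integrable (fun x => q x * M x ^ k) := by
  have hqm : AEStronglyMeasurable q volume := by
    have h1 : q = fun x => (q x ^ (k + 1)) ^ ((1 : ℝ) / (k + 1)) := by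
      funext x
      rw [← Real.rpow_natCast, ← Real.rpow_mul (hq0 x)]
      push_cast
      rw [mul_one_div_cancel (by positivity), Real.rpow_one]
    rw [h1]
    exact (Real.continuous_rpow_const (by positivity)).comp_aestronglyMeasurable
      hq.aestronglyMeasurable
  refine (hq.add hM).mono' (hqm.mul (hMm.pow_const k).aestronglyMeasurable)
    (Eventually.of_forall fun x => ?_)
  rw [Real.norm_of_nonneg (mul_nonneg (hq0 x) (pow_nonneg (hM0 x) k))]
  exact young (hq0 x) (hM0 x) k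

end THK

open THK in
/-- (TailHK) -/
theorem tailHK (hO : StmtOneSh) (hC : StmtCV) (hC2 : StmtCV2) (hM : StmtMaxK) (hS : StmtSqK)
    (hF : Four.StmtFac) : StmtTailHK := by
  intro k Q L m ε hk hQ hm hLm hε
  obtain ⟨C, c₀, hCp, hc₀, hO⟩ := hO k hk
  obtain ⟨CM, hCM, hM⟩ := hM k hk
  obtain ⟨CS, hCS, hS⟩ := hS k hk
  have hQ0 : 0 < Q := by linarith
  set D : ℝ := 2 * ((k : ℝ) + 1) * (((k : ℝ) + 1) * (C * (384 / c₀ ^ 3))) with hD
  have hD0 : 0 < D := by rw [hD]; positivity
  obtain ⟨n₀, hn₀⟩ := exists_nat_gt (max (4 * Q ^ 2) (2 * D * (CS + CM) * Q ^ 4 / ε))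
  refine ⟨n₀, fun n hn g hg c Bs => ?_⟩
  have hn1 : max (4 * Q ^ 2) (2 * D * (CS + CM) * Q ^ 4 / ε) < (n : ℝ) :=
    hn₀.trans_le (by exact_mod_cast hn)
  have hn2 : 4 * Q ^ 2 < (n : ℝ) := (le_max_left _ _).trans_lt hn1
  have hn3 : 2 * D * (CS + CM) * Q ^ 4 / ε < (n : ℝ) := (le_max_right _ _).trans_lt hn1
  have hn4 : (1 : ℝ) ≤ n := by nlinarith
  obtain ⟨M, hDom, hMi, hMb⟩ := hM g hg
  obtain ⟨hMm, hM0, -⟩ := id hDom
  have hq : ∀ a, Integrable (fun x => qa a g x ^ (k + 1)) := by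
    intro a
    have := (hS {a} g hg).1
    simpa using this
  have hqM : ∀ a, Integrable (fun x => qa a g x * M x ^ k) := fun a =>
    int_qm (fun x => TH.qa_nonneg a g x) hM0 hMm (hq a) hMi
  have hX0 : ∀ a, 0 ≤ ∫ x, qa a g x * M x ^ k := fun a => integral_nonneg fun x =>
    mul_nonneg (TH.qa_nonneg a g x) (pow_nonneg (hM0 x) k)
  obtain ⟨T, hT⟩ := TH.lo_top hF hg
  set K : ℕ := ∑ b ∈ Bs, (T - (c + b * L + L)).toNat with hKdef
  have hK : ∀ b ∈ Bs, T ≤ c + b * L + L + K := by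
    intro b hb
    have h1 : (T - (c + b * L + L)).toNat ≤ K :=
      Finset.single_le_sum (f := fun b : ℤ => (T - (c + b * L + L)).toNat)
        (fun _ _ => Nat.zero_le _) hb
    have h2 : T - (c + b * L + L) ≤ ((T - (c + b * L + L)).toNat : ℤ) := Int.self_le_toNat _
    have h3 : (((T - (c + b * L + L)).toNat : ℕ) : ℤ) ≤ (K : ℤ) := by exact_mod_cast h1
    linarith
  have hm5 : 5 ≤ m := by
    by_contra hcon
    push Not at hcon
    have h1 : 2 ^ m ≤ 2 ^ 4 := Nat.pow_le_pow_right (by norm_num) (by omega)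
    omega
  have hsq : 2 ≤ Real.sqrt n / Q := by
    rw [le_div_iff₀ hQ0]
    apply Real.le_sqrt_of_sq_le
    nlinarith
  set U : ℝ := Real.sqrt n / Q with hU
  have hU4 : U ^ 4 = (n : ℝ) ^ 2 / Q ^ 4 := by
    have h2 : Real.sqrt (n : ℝ) ^ 4 = (n : ℝ) ^ 2 := by
      rw [show (4 : ℕ) = 2 * 2 from rfl, pow_mul, Real.sq_sqrt (by positivity)]
    rw [hU, div_pow, h2]
  have h2k : ∀ i : ℕ, (1 : ℝ) ≤ 2 ^ i := fun i => one_le_pow₀ one_le_two
  -- one block
  have hb : ∀ b ∈ Bs, ∫ θ in JK k (c + b * L) L m, ‖AK k (win n Q (c + b * L) L) (fun _ => g) θ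
      - AK k (win n Q (c + b * L) L) (fun _ => cut (lo (c + b * L + L)) g) θ‖ ^ 2
      ≤ D / U ^ 4 * ∑ i ∈ Finset.range K, (1 / 2 : ℝ) ^ i *
          ∫ x, qa (c + b * L + L + i) g x * M x ^ k := by
    intro b hb
    set N : ℤ := c + b * L + L with hN
    set σ : ℝ := win n Q (c + b * L) L with hσ
    have hwin : σ * (2 : ℝ) ^ N = U := by
      rw [hσ, hN, hU]
      unfold win
      have : (2 : ℝ) ^ (c + b * L + (L : ℤ)) ≠ 0 := by positivity
      field_simp
    have hN0 : (0 : ℝ) < (2 : ℝ) ^ N := by positivity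
    have hσ0 : 0 < σ := by
      by_contra hcon
      push Not at hcon
      have : σ * (2 : ℝ) ^ N ≤ 0 := mul_nonpos_of_nonpos_of_nonneg hcon hN0.le
      linarith
    have hJm : MeasurableSet (JK k (c + b * L) L m) := by
      unfold JK
      exact (measurableSet_le measurable_const measurable_norm).inter
        (measurableSet_le measurable_norm measurable_const)
    have hi1 : ∀ i : ℕ, (2 : ℝ) ^ (N + (i : ℤ)) = (2 : ℝ) ^ N * 2 ^ i := by
      intro i
      rw [zpow_add₀ two_ne_zero, zpow_natCast]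
    -- a single term
    have h1 : ∀ (i j : ℕ), j ≤ k → ∫ θ in JK k (c + b * L) L m, ‖AK k σ (wf g (N + i) j) θ‖ ^ 2 ≤
        C * (384 / c₀ ^ 3 / (U * 2 ^ i) ^ 4) * ∫ x, qa (N + i) g x * M x ^ k := by
      intro i j hj
      have hk2 := h2k i
      have e1 : σ * (2 : ℝ) ^ (N + (i : ℤ)) = U * 2 ^ i := by
        rw [hi1, ← hwin]; ring
      have e2 : σ * ((2 : ℝ) ^ (N + (i : ℤ)) / 2) = U * 2 ^ i / 2 := by
        rw [← e1]; ring
      have h2 := hO σ g M (N + i) (wf g (N + i) j) j hσ0 (by rw [e1]; nlinarith) hg hDom hMi hj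
        (by unfold wf; simp) ?_ ((2 : ℝ) ^ (N + (i : ℤ)) / 2) j (JK k (c + b * L) L m) hJm hj
        (by rw [e2]; nlinarith) ?_
      · refine h2.trans ?_
        have e3 : c₀ * (σ ^ 2 * ((2 : ℝ) ^ (N + (i : ℤ)) / 2) ^ 2) = c₀ * (U * 2 ^ i / 2) ^ 2 := by
          rw [← e2]; ring
        rw [e3, e1]
        have h3 := exp_bound hc₀ (show 0 < U * 2 ^ i by positivity)
        have h4 := hX0 (N + i)
        calc C * Real.exp (-(c₀ * (U * 2 ^ i / 2) ^ 2)) * (U * 2 ^ i) ^ 2 *
              ∫ x, qa (N + i) g x * M x ^ k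
            = C * (Real.exp (-(c₀ * (U * 2 ^ i / 2) ^ 2)) * (U * 2 ^ i) ^ 2) *
              ∫ x, qa (N + i) g x * M x ^ k := by ring
          _ ≤ _ := by gcongr
      · intro l _ hlj
        unfold wf
        split_ifs with h3
        · exact Or.inr (Or.inl ⟨_, rfl⟩)
        · exact Or.inr (Or.inl ⟨_, rfl⟩)
      · intro θ hθ δ hδ
        have h2 : sh (N + i) (θ / (k + 1) + δ) ≠ 0 := by
          intro h0
          apply hδ
          unfold wf
          rw [if_neg (lt_irrefl _), if_pos rfl]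
          unfold cut
          rw [h0]
          simp
        have h3 : (2 : ℝ) ^ (N + (i : ℤ)) ≤ ‖θ / (k + 1) + δ‖ := by
          by_contra hcon
          push Not at hcon
          apply h2
          unfold sh bd
          rw [hF.2.1 _ _ hcon.le, hF.2.1 _ _ (hcon.le.trans
            (zpow_le_zpow_right₀ one_le_two (by omega)))]
          simp
        have h4 : ‖θ / (k + 1) + δ‖ ≤ ‖θ‖ / (k + 1) + ‖δ‖ := by
          have e4 : ‖((k : ℂ) + 1)‖ = (k : ℝ) + 1 := by
            have : ((k : ℂ) + 1) = ((k + 1 : ℕ) : ℂ) := by push_cast; rfl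
            rw [this, Complex.norm_natCast]
            push_cast
            rfl
          calc _ ≤ ‖θ / (k + 1)‖ + ‖δ‖ := norm_add_le _ _
            _ = _ := by rw [norm_div, e4]
        have h5 : ‖θ‖ / (k + 1) ≤ (2 : ℝ) ^ N / 16 := by
          have h6 := hθ.2
          rw [div_le_iff₀ (by positivity)]
          have h7 : (2 : ℝ) ^ (c + b * L + L - m + 1) ≤ (2 : ℝ) ^ N / 16 := by
            have h8 : (2 : ℝ) ^ (c + b * L + L - m + 1) ≤ (2 : ℝ) ^ (N - 4) :=
              zpow_le_zpow_right₀ one_le_two (by omega)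
            refine h8.trans (le_of_eq ?_)
            rw [zpow_sub₀ two_ne_zero]
            norm_num
          calc ‖θ‖ ≤ (k + 1) * (2 : ℝ) ^ (c + b * L + L - m + 1) := h6
            _ ≤ (k + 1) * ((2 : ℝ) ^ N / 16) := by gcongr
            _ = _ := by ring
        rw [hi1] at h3 ⊢
        have hk2 := h2k i
        nlinarith
    -- integrability
    have hint : ∀ (i j : ℕ), Integrable (fun θ => ‖AK k σ (wf g (N + i) j) θ‖ ^ 2) := by
      intro i j
      have h2 := (hC2 k).2.1 σ (wf g (N + i) j) (fun l _ => wf_cc hF hg _ _ _)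
      refine Continuous.integrable_of_hasCompactSupport (h2.1.norm.pow 2) ?_
      exact h2.2.comp_left (g := fun z : ℂ => ‖z‖ ^ 2) (by simp)
    -- the telescoping sum
    have hpt : ∀ θ, ‖AK k σ (fun _ => g) θ - AK k σ (fun _ => cut (lo N) g) θ‖ ^ 2 ≤
        ∑ i ∈ Finset.range K, 2 * ((k : ℝ) + 1) * 2 ^ i * ∑ j ∈ Finset.range (k + 1),
          ‖AK k σ (wf g (N + i) j) θ‖ ^ 2 := by
      intro θ
      have h2 := tele hC hF k (σ := σ) hg N θ K
      rw [hT _ (hK b hb)] at h2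
      rw [h2]
      refine (TH.cs K _).trans ?_
      rw [Finset.mul_sum]
      refine Finset.sum_le_sum fun i _ => ?_
      have h3 : ‖∑ j ∈ Finset.range (k + 1), AK k σ (wf g (N + i) j) θ‖ ^ 2 ≤
          ((k : ℝ) + 1) * ∑ j ∈ Finset.range (k + 1), ‖AK k σ (wf g (N + i) j) θ‖ ^ 2 := by
        calc _ ≤ (∑ j ∈ Finset.range (k + 1), ‖AK k σ (wf g (N + i) j) θ‖) ^ 2 := by
              gcongr
              exact norm_sum_le _ _
          _ ≤ _ := by
              have := sq_sum_le_card_mul_sum_sq (s := Finset.range (k + 1))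
                (f := fun j => ‖AK k σ (wf g (N + i) j) θ‖)
              rw [Finset.card_range] at this
              push_cast at this
              exact this
      calc 2 * ((2 : ℝ) ^ i * ‖∑ j ∈ Finset.range (k + 1), AK k σ (wf g (N + i) j) θ‖ ^ 2)
          ≤ 2 * ((2 : ℝ) ^ i * (((k : ℝ) + 1) *
              ∑ j ∈ Finset.range (k + 1), ‖AK k σ (wf g (N + i) j) θ‖ ^ 2)) := by gcongr
        _ = _ := by ring
    have hint2 : Integrable (fun θ => ∑ i ∈ Finset.range K, 2 * ((k : ℝ) + 1) * 2 ^ i *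
        ∑ j ∈ Finset.range (k + 1), ‖AK k σ (wf g (N + i) j) θ‖ ^ 2) := by
      refine integrable_finsetSum _ fun i _ => ?_
      exact (integrable_finsetSum _ fun j _ => hint i j).const_mul _
    calc ∫ θ in JK k (c + b * L) L m, ‖AK k σ (fun _ => g) θ - AK k σ (fun _ => cut (lo N) g) θ‖ ^ 2
        ≤ ∫ θ in JK k (c + b * L) L m, ∑ i ∈ Finset.range K, 2 * ((k : ℝ) + 1) * 2 ^ i *
            ∑ j ∈ Finset.range (k + 1), ‖AK k σ (wf g (N + i) j) θ‖ ^ 2 :=
          integral_mono_of_nonneg (Eventually.of_forall fun θ => by positivity)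
            hint2.integrableOn (Eventually.of_forall hpt)
      _ = ∑ i ∈ Finset.range K, 2 * ((k : ℝ) + 1) * 2 ^ i * ∑ j ∈ Finset.range (k + 1),
            ∫ θ in JK k (c + b * L) L m, ‖AK k σ (wf g (N + i) j) θ‖ ^ 2 := by
          rw [integral_finsetSum _ fun i _ =>
            ((integrable_finsetSum _ fun j _ => hint i j).const_mul _).integrableOn]
          refine Finset.sum_congr rfl fun i _ => ?_
          rw [integral_const_mul, integral_finsetSum _ fun j _ => (hint i j).integrableOn]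
      _ ≤ ∑ i ∈ Finset.range K, 2 * ((k : ℝ) + 1) * 2 ^ i * ∑ j ∈ Finset.range (k + 1),
            C * (384 / c₀ ^ 3 / (U * 2 ^ i) ^ 4) * ∫ x, qa (N + i) g x * M x ^ k := by
          gcongr with i _ j hj
          exact h1 i j (by rw [Finset.mem_range] at hj; omega)
      _ ≤ _ := by
          rw [Finset.mul_sum]
          refine Finset.sum_le_sum fun i _ => ?_
          rw [Finset.sum_const, Finset.card_range, nsmul_eq_mul]
          push_cast
          have h4 := hX0 (N + i)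
          have h5 : (2 : ℝ) ^ i / 16 ^ i ≤ (1 / 2) ^ i := by
            rw [← div_pow]
            exact pow_le_pow_left₀ (by norm_num) (by norm_num) i
          calc 2 * ((k : ℝ) + 1) * 2 ^ i * (((k : ℝ) + 1) *
                (C * (384 / c₀ ^ 3 / (U * 2 ^ i) ^ 4) * ∫ x, qa (N + i) g x * M x ^ k))
              = D / U ^ 4 * (2 ^ i / 16 ^ i * ∫ x, qa (N + i) g x * M x ^ k) := by
                have e5 : (U * 2 ^ i) ^ 4 = U ^ 4 * 16 ^ i := by
                  rw [mul_pow, ← pow_mul, mul_comm i 4, pow_mul]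
                  norm_num
                rw [e5, hD]
                field_simp
            _ ≤ _ := by gcongr
  -- sum over the blocks
  have hLpos : 0 < (L : ℤ) := by
    have : 0 < L := by omega
    exact_mod_cast this
  have hNK : ∫ x, M x ^ (k + 1) ≤ CM * NK (k + 1) g := hMb
  have hsum : ∀ k' : ℤ, ∑ b ∈ Bs, (∫ x, qa (c + b * L + L + k') g x * M x ^ k) ≤
      (CS + CM) * NK (k + 1) g := by
    intro k'
    set f : ℤ → ℤ := fun b => c + b * L + L + k' with hf
    have hinj : Function.Injective f := by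
      intro a b hab
      have h1 : a * (L : ℤ) = b * L := by
        simp only [hf] at hab
        linarith
      exact mul_right_cancel₀ hLpos.ne' h1
    have h1 : ∑ b ∈ Bs, (∫ x, qa (c + b * L + L + k') g x * M x ^ k) =
        ∑ i ∈ Bs.image f, ∫ x, qa i g x * M x ^ k := by
      rw [Finset.sum_image (fun a _ b _ hab => hinj hab)]
    rw [h1, ← integral_finsetSum _ (fun i _ => hqM i)]
    obtain ⟨s1, s2⟩ := hS (Bs.image f) g hg
    calc ∫ x, ∑ i ∈ Bs.image f, qa i g x * M x ^ k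
        ≤ ∫ x, ((∑ i ∈ Bs.image f, qa i g x) ^ (k + 1) + M x ^ (k + 1)) := by
          refine integral_mono_of_nonneg (Eventually.of_forall fun x =>
            Finset.sum_nonneg fun i _ => mul_nonneg (TH.qa_nonneg i g x) (pow_nonneg (hM0 x) k))
            (s1.add hMi) (Eventually.of_forall fun x => ?_)
          beta_reduce
          rw [← Finset.sum_mul]
          exact young (Finset.sum_nonneg fun i _ => TH.qa_nonneg i g x) (hM0 x) k
      _ = (∫ x, (∑ i ∈ Bs.image f, qa i g x) ^ (k + 1)) + ∫ x, M x ^ (k + 1) :=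
          integral_add s1 hMi
      _ ≤ _ := by linarith
  have hN4 : 0 ≤ NK (k + 1) g := integral_nonneg fun x => by positivity
  calc _ ≤ ∑ b ∈ Bs, D / U ^ 4 * ∑ i ∈ Finset.range K, (1 / 2 : ℝ) ^ i *
          ∫ x, qa (c + b * L + L + i) g x * M x ^ k :=
        Finset.sum_le_sum hb
    _ = D / U ^ 4 * ∑ i ∈ Finset.range K, (1 / 2 : ℝ) ^ i *
          ∑ b ∈ Bs, ∫ x, qa (c + b * L + L + i) g x * M x ^ k := by
        rw [← Finset.mul_sum, Finset.sum_comm]
        congr 1
        refine Finset.sum_congr rfl fun i _ => ?_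
        rw [← Finset.mul_sum]
    _ ≤ D / U ^ 4 * ∑ i ∈ Finset.range K, (1 / 2 : ℝ) ^ i * ((CS + CM) * NK (k + 1) g) := by
        gcongr with i _
        exact hsum i
    _ = D / U ^ 4 * ((∑ i ∈ Finset.range K, (1 / 2 : ℝ) ^ i) * ((CS + CM) * NK (k + 1) g)) := by
        rw [← Finset.sum_mul]
    _ ≤ D / U ^ 4 * (2 * ((CS + CM) * NK (k + 1) g)) := by
        gcongr
        exact sum_geometric_two_le K
    _ = (2 * D * (CS + CM) * Q ^ 4) / n ^ 2 * NK (k + 1) g := by
        rw [hU4]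
        field_simp
    _ ≤ ε * NK (k + 1) g := by
        gcongr
        rw [div_le_iff₀ (by positivity)]
        rw [div_lt_iff₀ hε] at hn3
        nlinarith [mul_pos hε (by positivity : (0 : ℝ) < n)]

end Pool.Agent.Lib.MP_dd244f_an.Even
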