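import Pool.Agent.Lib.MP_dd244f_an.Even.OneSh
import Pool.Agent.Lib.MP_dd244f_an.Even.CV

/-!
Full operator, even `p`: (TailLK) the interactions with the frequencies below the block.
-/

set_option autoImplicit false

namespace Pool.Agent.Lib.MP_dd244f_an.Even

open MeasureTheory Filter Topology Finset
open Pool.Agent.Lib.MP_dd244f_an.Four

namespace TLK

/-! ### The multilinear form -/

/-- one factor of the multilinear Gaussian average -/
noncomputable def gf (k : ℕ) (σ : ℝ) (θ : ℂ) (g : ℂ → ℂ) (ζ : ℂ) : ℂ :=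
  ga σ (ζ - θ / (k + 1)) * g ζ

theorem AK_eq (k : ℕ) (σ : ℝ) (u : ℕ → ℂ → ℂ) (θ : ℂ) :
    AK k σ u θ = cv k (fun j => gf k σ θ (u j)) θ := rfl

theorem gf_cc {k : ℕ} {σ : ℝ} {θ : ℂ} {g : ℂ → ℂ} (hg : CC g) : CC (gf k σ θ g) := by
  refine ⟨?_, hg.2.mul_left⟩
  have := hg.1
  unfold gf ga
  fun_prop

theorem AK_congr {k : ℕ} {σ : ℝ} {u v : ℕ → ℂ → ℂ} (h : ∀ i ≤ k, u i = v i) (θ : ℂ) :
    AK k σ u θ = AK k σ v θ := by
  rw [AK_eq, AK_eq, CVaux.cv_congr (v := fun j => gf k σ θ (v j))]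
  intro i hi
  change gf k σ θ (u i) = gf k σ θ (v i)
  rw [h i hi]

theorem AK_tel (hC : StmtCV) {k : ℕ} {σ : ℝ} {u v : ℕ → ℂ → ℂ} (hu : ∀ j ≤ k, CC (u j))
    (hv : ∀ j ≤ k, CC (v j)) (θ : ℂ) :
    AK k σ u θ - AK k σ v θ = ∑ j ∈ Finset.range (k + 1),
      AK k σ (fun i => if i < j then v i else if i = j then (fun ζ => u i ζ - v i ζ) else u i)
        θ := by
  rw [AK_eq, AK_eq, (hC k).2.2.2.1 (fun j => gf k σ θ (u j)) (fun j => gf k σ θ (v j))
    (fun j hj => gf_cc (hu j hj)) (fun j hj => gf_cc (hv j hj)) θ]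
  refine Finset.sum_congr rfl fun j _ => ?_
  rw [AK_eq]
  congr 1
  ext i ζ
  split_ifs
  · rfl
  · unfold gf; ring
  · rfl

/-- a factor vanishes -/
theorem AK_zero (hC : StmtCV) {k : ℕ} {σ : ℝ} {u : ℕ → ℂ → ℂ} {j : ℕ} (hj : j ≤ k)
    (h : ∀ ζ, u j ζ = 0) (θ : ℂ) : AK k σ u θ = 0 := by
  by_contra hc
  rw [AK_eq] at hc
  obtain ⟨ζ, -, hz⟩ := (hC k).2.2.1 _ θ hc
  apply hz j hj
  change ga σ _ * u j (ζ j) = 0
  rw [h, mul_zero]

/-- splitting one factor -/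
theorem AK_sum (hC : StmtCV) {k : ℕ} {σ : ℝ} {w : ℕ → ℂ → ℂ} {j : ℕ} (hj : j ≤ k)
    (hw : ∀ i ≤ k, CC (w i)) {f : ℕ → ℂ → ℂ} (hf : ∀ l, CC (f l)) (θ : ℂ) (N : ℕ) :
    AK k σ (Function.update w j (fun ζ => ∑ l ∈ Finset.range N, f l ζ)) θ
      = ∑ l ∈ Finset.range N, AK k σ (Function.update w j (f l)) θ := by
  have hcc : ∀ N, CC (fun ζ => ∑ l ∈ Finset.range N, f l ζ) := by
    intro N
    induction N with
    | zero =>
      simp only [Finset.sum_range_zero]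
      exact ⟨continuous_const, HasCompactSupport.zero⟩
    | succ N ih =>
      simp only [Finset.sum_range_succ]
      exact CVaux.cc_add ih (hf N)
  have hup : ∀ {h : ℂ → ℂ}, CC h → ∀ i ≤ k, CC (Function.update w j h i) := by
    intro h hh i hi
    by_cases hij : i = j
    · subst hij; rw [Function.update_self]; exact hh
    · rw [Function.update_of_ne hij]; exact hw i hi
  induction N with
  | zero =>
    rw [Finset.sum_range_zero]
    refine AK_zero hC hj (fun ζ => ?_) θ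
    rw [Function.update_self, Finset.sum_range_zero]
  | succ N ih =>
    rw [Finset.sum_range_succ, ← ih, AK_eq, AK_eq, AK_eq]
    refine (hC k).2.2.2.2.1 _ _ _ j hj (fun i hi => gf_cc (hup (hcc N) i hi))
      (fun i hi => gf_cc (hup (hf N) i hi)) (fun i hi => ?_) (fun i hi => ?_) (fun ζ => ?_) θ
    · rw [Function.update_of_ne hi, Function.update_of_ne hi]
    · rw [Function.update_of_ne hi, Function.update_of_ne hi]
    · rw [Function.update_self, Function.update_self, Function.update_self]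
      unfold gf
      simp only [Finset.sum_range_succ]
      ring

/-! ### Supports -/

theorem lo_zero (hF : StmtFac) {a : ℤ} {ζ : ℂ} (h : 3 / 2 * (2 : ℝ) ^ a ≤ ‖ζ‖) :
    lo a ζ = 0 := by
  apply hF.2.2.1 a ζ
  have h2 : (0 : ℝ) < (2 : ℝ) ^ a := by positivity
  nlinarith [norm_nonneg ζ]

theorem supp_lo (hF : StmtFac) {a : ℤ} {g : ℂ → ℂ} {ζ : ℂ} (h : cut (lo a) g ζ ≠ 0) :
    ‖ζ‖ < 3 / 2 * (2 : ℝ) ^ a := by
  by_contra hc
  push Not at hc
  apply h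
  unfold cut
  rw [lo_zero hF hc]
  simp

theorem zp1 (s : ℤ) : (2 : ℝ) ^ (s + 1) = 2 * 2 ^ s := by
  rw [zpow_add₀ (by norm_num), zpow_one, mul_comm]

theorem supp_bd (hF : StmtFac) {s : ℤ} {g : ℂ → ℂ} {ζ : ℂ} (h : cut (bd s (s + 1)) g ζ ≠ 0) :
    ‖ζ‖ < 3 / 2 * (2 : ℝ) ^ (s + 1) := by
  by_contra hc
  push Not at hc
  apply h
  have h2 : (0 : ℝ) < (2 : ℝ) ^ s := by positivity
  have h3 : 3 / 2 * (2 : ℝ) ^ s ≤ ‖ζ‖ := by
    rw [zp1] at hc
    linarith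
  unfold cut bd
  rw [lo_zero hF hc, lo_zero hF h3]
  simp

theorem zp_add (s : ℤ) (m : ℕ) : (2 : ℝ) ^ (s + m) = 2 ^ s * 2 ^ m := by
  rw [zpow_add₀ (by norm_num), zpow_natCast]

/-- the slots of the terms with one low frequency in the slot `j` -/
noncomputable def Wj (s : ℤ) (L : ℕ) (g : ℂ → ℂ) (j i : ℕ) : ℂ → ℂ :=
  if i < j then cut (bd s (s + L)) g else if i = j then cut (lo s) g else cut (lo (s + L)) g

/-- the same, low frequencies only -/
noncomputable def Vj (s : ℤ) (g : ℂ → ℂ) (j i : ℕ) : ℂ → ℂ :=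
  if i < j then cut (bd s (s + 1)) g else if i = j then cut (lo s) g else cut (lo (s + 1)) g

/-- the final slots -/
noncomputable def Yj (s : ℤ) (L : ℕ) (g : ℂ → ℂ) (j j1 l i : ℕ) : ℂ → ℂ :=
  if i = j1 then cut (sh (s + 1 + l)) g else if i < j1 then Vj s g j i else Wj s L g j i

theorem Wj_cc (hF : StmtFac) {s : ℤ} {L : ℕ} {g : ℂ → ℂ} (hg : CC g) (j i : ℕ) :
    CC (Wj s L g j i) := by
  unfold Wj
  split_ifs
  · exact (hF.2.2.2.2.1 g _ _ hg).2.1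
  · exact (hF.2.2.2.2.1 g _ 0 hg).1
  · exact (hF.2.2.2.2.1 g _ 0 hg).1

theorem Vj_cc (hF : StmtFac) {s : ℤ} {g : ℂ → ℂ} (hg : CC g) (j i : ℕ) :
    CC (Vj s g j i) := by
  unfold Vj
  split_ifs
  · exact (hF.2.2.2.2.1 g _ _ hg).2.1
  · exact (hF.2.2.2.2.1 g _ 0 hg).1
  · exact (hF.2.2.2.2.1 g _ 0 hg).1

theorem Yj_cc (hF : StmtFac) {s : ℤ} {L : ℕ} {g : ℂ → ℂ} (hg : CC g) (j j1 l i : ℕ) :
    CC (Yj s L g j j1 l i) := by
  unfold Yj
  split_ifs
  · exact (hF.2.2.2.2.1 g _ 0 hg).2.2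
  · exact Vj_cc hF hg j i
  · exact Wj_cc hF hg j i

theorem Wj_form (s : ℤ) (L : ℕ) (g : ℂ → ℂ) (j i : ℕ) :
    (∃ a, Wj s L g j i = cut (lo a) g) ∨ (∃ a b, Wj s L g j i = cut (bd a b) g) := by
  unfold Wj
  split_ifs
  · exact Or.inr ⟨_, _, rfl⟩
  · exact Or.inl ⟨_, rfl⟩
  · exact Or.inl ⟨_, rfl⟩

theorem Vj_form (s : ℤ) (g : ℂ → ℂ) (j i : ℕ) :
    (∃ a, Vj s g j i = cut (lo a) g) ∨ (∃ a b, Vj s g j i = cut (bd a b) g) := by
  unfold Vj
  split_ifs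
  · exact Or.inr ⟨_, _, rfl⟩
  · exact Or.inl ⟨_, rfl⟩
  · exact Or.inl ⟨_, rfl⟩

theorem Yj_form (s : ℤ) (L : ℕ) (g : ℂ → ℂ) (j j1 l i : ℕ) (h : i ≠ j1) :
    (∃ a, Yj s L g j j1 l i = cut (lo a) g) ∨ (∃ a b, Yj s L g j j1 l i = cut (bd a b) g) := by
  unfold Yj
  rw [if_neg h]
  split_ifs
  · exact Vj_form s g j i
  · exact Wj_form s L g j i

theorem Yj_low (s : ℤ) (L : ℕ) (g : ℂ → ℂ) {j j1 : ℕ} (l : ℕ) (h : j ≠ j1) :
    Yj s L g j j1 l j = cut (lo s) g := by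
  unfold Yj Vj Wj
  rw [if_neg h]
  simp

/-- no contribution of the low frequencies -/
theorem AK_low (hC : StmtCV) (hF : StmtFac) {k L m : ℕ} (hm : 16 * (k + 1) ≤ 2 ^ m) {s : ℤ}
    {σ : ℝ} {g : ℂ → ℂ} {j : ℕ} {θ : ℂ} (hθ : θ ∈ JK k s L m) :
    AK k σ (Vj s g j) θ = 0 := by
  by_contra hc
  rw [AK_eq] at hc
  obtain ⟨ζ, hζ, hz⟩ := (hC k).2.2.1 _ θ hc
  have h2 : (0 : ℝ) < (2 : ℝ) ^ s := by positivity
  have h1 : ∀ i ∈ Finset.range (k + 1), ‖ζ i‖ ≤ 3 * (2 : ℝ) ^ s := by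
    intro i hi
    have hi' : i ≤ k := Nat.lt_succ_iff.1 (Finset.mem_range.1 hi)
    have h3 : Vj s g j i (ζ i) ≠ 0 := by
      intro h
      apply hz i hi'
      change ga σ _ * Vj s g j i (ζ i) = 0
      rw [h, mul_zero]
    unfold Vj at h3
    split_ifs at h3
    · have := supp_bd hF h3
      rw [zp1] at this
      linarith
    · have := supp_lo hF h3
      linarith
    · have := supp_lo hF h3
      rw [zp1] at this
      linarith
  have h4 : ‖θ‖ ≤ (k + 1) * (3 * (2 : ℝ) ^ s) := by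
    rw [← hζ]
    refine (norm_sum_le _ _).trans ((Finset.sum_le_sum h1).trans (le_of_eq ?_))
    rw [Finset.sum_const, Finset.card_range, nsmul_eq_mul]
    push_cast
    ring
  have h5 := hθ.1
  rw [zp_add] at h5
  have h6 : (16 * ((k : ℝ) + 1)) ≤ 2 ^ m := by exact_mod_cast hm
  have h7 : (2 : ℝ) ^ s * (16 * ((k : ℝ) + 1)) ≤ 2 ^ s * 2 ^ m :=
    mul_le_mul_of_nonneg_left h6 h2.le
  nlinarith [mul_pos h2 (by positivity : (0 : ℝ) < (k : ℝ) + 1)]

/-- separation -/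
theorem sep (hF : StmtFac) {k L m : ℕ} (hm : 16 * (k + 1) ≤ 2 ^ m) {s : ℤ}
    {g : ℂ → ℂ} {θ δ : ℂ} (hθ : θ ∈ JK k s L m) (h : cut (lo s) g (θ / (k + 1) + δ) ≠ 0) :
    (2 : ℝ) ^ (s + m) / (2 * (k + 1)) ≤ ‖δ‖ := by
  have h1 := supp_lo hF h
  have h2 : (0 : ℝ) < (2 : ℝ) ^ s := by positivity
  have hk : (0 : ℝ) < (k : ℝ) + 1 := by positivity
  have h5 := hθ.1
  have h6 : (16 * ((k : ℝ) + 1)) ≤ 2 ^ m := by exact_mod_cast hm
  have h7 : (2 : ℝ) ^ s * (16 * ((k : ℝ) + 1)) ≤ 2 ^ s * 2 ^ m :=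
    mul_le_mul_of_nonneg_left h6 h2.le
  have h8 : ‖θ / ((k : ℂ) + 1)‖ = ‖θ‖ / (k + 1) := by
    rw [norm_div]
    congr 1
    have : ((k : ℂ) + 1) = (((k : ℝ) + 1 : ℝ) : ℂ) := by push_cast; ring
    rw [this, Complex.norm_real, Real.norm_of_nonneg hk.le]
  have h9 : ‖θ / ((k : ℂ) + 1)‖ ≤ ‖θ / ((k : ℂ) + 1) + δ‖ + ‖δ‖ := by
    calc ‖θ / ((k : ℂ) + 1)‖ = ‖(θ / ((k : ℂ) + 1) + δ) - δ‖ := by congr 1; ring
      _ ≤ _ := norm_sub_le _ _
  rw [h8] at h9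
  rw [zp_add] at h5 ⊢
  have h10 : 2 * ((2 : ℝ) ^ s * 2 ^ m / (2 * (k + 1))) ≤ ‖θ‖ / (k + 1) := by
    rw [← mul_div_assoc, mul_div_mul_left _ _ (by norm_num : (2 : ℝ) ≠ 0)]
    exact div_le_div_of_nonneg_right h5 hk.le
  have h11 : 3 / 2 * (2 : ℝ) ^ s ≤ (2 : ℝ) ^ s * 2 ^ m / (2 * (k + 1)) := by
    rw [le_div_iff₀ (by positivity)]
    nlinarith [mul_pos h2 hk]
  linarith

/-- the indices -/
def PI (k L : ℕ) : Finset ((ℕ × ℕ) × ℕ) :=
  ((Finset.range (k + 1) ×ˢ Finset.range (k + 1)).filter (fun p => p.1 ≠ p.2)) ×ˢ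
    Finset.range (L - 1)

/-- the decomposition -/
theorem decomp (hC : StmtCV) (hF : StmtFac) {k L m : ℕ} (hm : 16 * (k + 1) ≤ 2 ^ m)
    (hL : 1 ≤ L) {s : ℤ} {σ : ℝ} {g : ℂ → ℂ} (hg : CC g) {θ : ℂ} (hθ : θ ∈ JK k s L m) :
    AK k σ (fun _ => cut (lo (s + L)) g) θ - AK k σ (fun _ => cut (bd s (s + L)) g) θ =
      ∑ p ∈ PI k L, AK k σ (Yj s L g p.1.1 p.1.2 p.2) θ := by
  have hlo : ∀ a, CC (cut (lo a) g) := fun a => (hF.2.2.2.2.1 g a 0 hg).1
  have hbd : ∀ a b, CC (cut (bd a b) g) := fun a b => (hF.2.2.2.2.1 g a b hg).2.1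
  have hsh : ∀ a, CC (cut (sh a) g) := fun a => (hF.2.2.2.2.1 g a 0 hg).2.2
  rw [AK_tel hC (fun _ _ => hlo _) (fun _ _ => hbd _ _)]
  unfold PI
  rw [Finset.sum_product, Finset.sum_filter, Finset.sum_product]
  refine Finset.sum_congr rfl fun j hj => ?_
  have e1 : (fun i : ℕ => if i < j then cut (bd s (s + L)) g else if i = j then
      (fun ζ => cut (lo (s + L)) g ζ - cut (bd s (s + L)) g ζ) else cut (lo (s + L)) g)
      = Wj s L g j := by
    ext i ζ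
    unfold Wj
    split_ifs
    · rfl
    · unfold cut bd; push_cast; ring
    · rfl
  rw [e1]
  have e2 : AK k σ (Wj s L g j) θ = AK k σ (Wj s L g j) θ - AK k σ (Vj s g j) θ := by
    rw [AK_low hC hF hm hθ, sub_zero]
  rw [e2, AK_tel hC (fun i _ => Wj_cc hF hg j i) (fun i _ => Vj_cc hF hg j i)]
  refine Finset.sum_congr rfl fun j1 hj1 => ?_
  have hj1' : j1 ≤ k := Nat.lt_succ_iff.1 (Finset.mem_range.1 hj1)
  by_cases h : j = j1
  · subst h
    simp only [ne_eq, not_true_eq_false, if_false]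
    refine AK_zero hC hj1' (fun ζ => ?_) θ
    simp [Wj, Vj]
  · simp only [ne_eq, h, not_false_eq_true, if_true]
    have e3 : AK k σ (fun i => if i < j1 then Vj s g j i else if i = j1 then
        (fun ζ => Wj s L g j i ζ - Vj s g j i ζ) else Wj s L g j i) θ =
        AK k σ (Function.update (fun i => if i < j1 then Vj s g j i else Wj s L g j i) j1
          (fun ζ => ∑ l ∈ Finset.range (L - 1), cut (sh (s + 1 + l)) g ζ)) θ := by
      refine AK_congr (fun i _ => ?_) θ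
      by_cases hi : i = j1
      · subst hi
        rw [Function.update_self]
        simp only [lt_self_iff_false, if_false, if_true]
        ext ζ
        have h4 := sum_sh (s + 1) (L - 1) ζ
        have h5 : s + 1 + ((L - 1 : ℕ) : ℤ) = s + L := by omega
        rw [h5] at h4
        have h6 : ∑ l ∈ Finset.range (L - 1), cut (sh (s + 1 + l)) g ζ
            = cut (bd (s + 1) (s + L)) g ζ := by
          unfold cut
          rw [← Finset.sum_mul, ← Complex.ofReal_sum, h4]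
        rw [h6]
        unfold Wj Vj
        by_cases hij : i < j
        · rw [if_pos hij, if_pos hij]
          unfold cut bd; push_cast; ring
        · have hne : i ≠ j := fun h' => h h'.symm
          rw [if_neg hij, if_neg hij, if_neg hne, if_neg hne]
          unfold cut bd; push_cast; ring
      · rw [Function.update_of_ne hi]
        split_ifs
        · rfl
        · rfl
    rw [e3, AK_sum hC hj1' (fun i _ => ?_) (fun l => hsh _)]
    · refine Finset.sum_congr rfl fun l _ => AK_congr (fun i _ => ?_) θ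
      unfold Yj
      by_cases hi : i = j1
      · subst hi
        rw [Function.update_self, if_pos rfl]
      · rw [Function.update_of_ne hi, if_neg hi]
    · split_ifs
      · exact Vj_cc hF hg j i
      · exact Wj_cc hF hg j i

/-! ### The estimate -/

/-- the decay rate -/
noncomputable def kap (k : ℕ) (Q : ℝ) (L m : ℕ) : ℝ := 2 ^ m / (2 * (k + 1) * 2 ^ L * Q)

theorem kap_pos (k : ℕ) {Q : ℝ} (hQ : 1 ≤ Q) (L m : ℕ) : 0 < kap k Q L m := by
  have : 0 < Q := by linarith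
  unfold kap; positivity

theorem win_pos {n : ℕ} (hn : 1 ≤ n) {Q : ℝ} (hQ : 1 ≤ Q) (s : ℤ) (L : ℕ) :
    0 < win n Q s L := by
  have : 0 < Q := by linarith
  have : (0 : ℝ) < n := by exact_mod_cast hn
  unfold win; positivity

theorem win_mul (k : ℕ) {n : ℕ} {Q : ℝ} (hQ : 1 ≤ Q) (s : ℤ) (L m : ℕ) :
    win n Q s L * ((2 : ℝ) ^ (s + m) / (2 * (k + 1))) = Real.sqrt n * kap k Q L m := by
  have : 0 < Q := by linarith
  unfold win kap
  rw [zp_add, zp_add]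
  field_simp

theorem win_sh {n : ℕ} {Q : ℝ} (hQ : 1 ≤ Q) (s : ℤ) (L l : ℕ) :
    win n Q s L * (2 : ℝ) ^ (s + 1 + l) = Real.sqrt n * (2 * 2 ^ l / (2 ^ L * Q)) := by
  have : 0 < Q := by linarith
  unfold win
  rw [zp_add, zp_add, zp1]
  field_simp

theorem jmeas (k : ℕ) (s : ℤ) (L m : ℕ) : MeasurableSet (JK k s L m) := by
  unfold JK
  exact (measurableSet_le measurable_const measurable_norm).inter
    (measurableSet_le measurable_norm measurable_const)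

/-- one block -/
theorem block (hC : StmtCV) (hC2 : StmtCV2) (hF : StmtFac) {k : ℕ}
    {C c : ℝ} (hC0 : 0 < C)
    (hO : ∀ (σ : ℝ) (g : ℂ → ℂ)
      (M : ℂ → ℝ) (i : ℤ) (u : ℕ → ℂ → ℂ) (j₁ : ℕ), 0 < σ → 1 ≤ σ * (2 : ℝ) ^ i → CC g →
      Dom g M →
      Integrable (fun x => M x ^ (k + 1)) → j₁ ≤ k → u j₁ = cut (sh i) g →
      (∀ j ≤ k, j ≠ j₁ → u j = g ∨ (∃ a, u j = cut (lo a) g) ∨ (∃ a b, u j = cut (bd a b) g)) →
      ∀ (ρ : ℝ) (j₀ : ℕ) (S : Set ℂ), MeasurableSet S → j₀ ≤ k → 1 ≤ σ * ρ →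
      (∀ θ ∈ S, ∀ δ, u j₀ (θ / (k + 1) + δ) ≠ 0 → ρ ≤ ‖δ‖) →
      ∫ θ in S, ‖AK k σ u θ‖ ^ 2 ≤
        C * Real.exp (-(c * (σ ^ 2 * ρ ^ 2))) * (σ * (2 : ℝ) ^ i) ^ 2 * ∫ x, qa i g x * M x ^ k)
    {Q : ℝ} {L m : ℕ} (hQ : 1 ≤ Q) (hm : 16 * (k + 1) ≤ 2 ^ m) (hL : 1 ≤ L) {n : ℕ}
    (hn : 1 ≤ n) (hn1 : 1 ≤ Real.sqrt n * kap k Q L m)
    (hn2 : 1 ≤ Real.sqrt n * (2 / (2 ^ L * Q))) {g : ℂ → ℂ} (hg : CC g) {M : ℂ → ℝ}
    (hM : Dom g M) (hMi : Integrable (fun x => M x ^ (k + 1))) (s : ℤ) :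
    ∫ θ in JK k s L m, ‖AK k (win n Q s L) (fun _ => cut (lo (s + L)) g) θ
      - AK k (win n Q s L) (fun _ => cut (bd s (s + L)) g) θ‖ ^ 2 ≤
      ((PI k L).card : ℝ) * ((k + 1) ^ 2 * (C * (n * Real.exp (-(c * (n * kap k Q L m ^ 2)))) *
        ∑ l ∈ Finset.range (L - 1), ∫ x, qa (s + 1 + l) g x * M x ^ k)) := by
  set σ := win n Q s L with hσ
  have hσ0 : 0 < σ := win_pos hn hQ s L
  have hn0 : (0 : ℝ) ≤ n := by positivity
  have hQ0 : 0 < Q := by linarith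
  have hM0 := hM.2.1
  have hsq : σ ^ 2 * ((2 : ℝ) ^ (s + m) / (2 * (k + 1))) ^ 2 = n * kap k Q L m ^ 2 := by
    rw [← mul_pow, hσ, win_mul k hQ, mul_pow, Real.sq_sqrt hn0]
  have hq0 : ∀ l : ℕ, 0 ≤ ∫ x, qa (s + 1 + l) g x * M x ^ k := fun l =>
    integral_nonneg fun x => mul_nonneg (OneShAux.qa_nonneg _ _ _) (pow_nonneg (hM0 x) _)
  have hcont : ∀ p : (ℕ × ℕ) × ℕ, Integrable
      (fun θ => ‖AK k σ (Yj s L g p.1.1 p.1.2 p.2) θ‖ ^ 2) := by
    intro p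
    have h1 := (hC2 k).2.1 σ (Yj s L g p.1.1 p.1.2 p.2) fun i _ => Yj_cc hF hg _ _ _ i
    refine Continuous.integrable_of_hasCompactSupport (h1.1.norm.pow 2) ?_
    exact h1.2.comp_left (g := fun z : ℂ => ‖z‖ ^ 2) (by simp)
  -- pointwise
  have hpt : ∀ θ ∈ JK k s L m, ‖AK k σ (fun _ => cut (lo (s + L)) g) θ
      - AK k σ (fun _ => cut (bd s (s + L)) g) θ‖ ^ 2 ≤
      ((PI k L).card : ℝ) * ∑ p ∈ PI k L, ‖AK k σ (Yj s L g p.1.1 p.1.2 p.2) θ‖ ^ 2 := by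
    intro θ hθ
    rw [decomp hC hF hm hL hg hθ]
    have h1 := pow_le_pow_left₀ (norm_nonneg _)
      (norm_sum_le (PI k L) (fun p => AK k σ (Yj s L g p.1.1 p.1.2 p.2) θ)) 2
    exact h1.trans sq_sum_le_card_mul_sum_sq
  have h1 : ∫ θ in JK k s L m, ‖AK k σ (fun _ => cut (lo (s + L)) g) θ
      - AK k σ (fun _ => cut (bd s (s + L)) g) θ‖ ^ 2 ≤
      ∫ θ in JK k s L m, ((PI k L).card : ℝ) *
        ∑ p ∈ PI k L, ‖AK k σ (Yj s L g p.1.1 p.1.2 p.2) θ‖ ^ 2 := by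
    refine integral_mono_of_nonneg (Filter.Eventually.of_forall fun θ => by positivity)
      (((integrable_finsetSum _ fun p _ => hcont p).const_mul _).integrableOn) ?_
    exact (ae_restrict_iff' (jmeas k s L m)).2 (Filter.Eventually.of_forall hpt)
  refine h1.trans ?_
  rw [integral_const_mul, integral_finsetSum _ (fun p _ => (hcont p).integrableOn)]
  refine mul_le_mul_of_nonneg_left ?_ (by positivity)
  set E := C * (n * Real.exp (-(c * (n * kap k Q L m ^ 2)))) with hE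
  have hE0 : 0 ≤ E := by positivity
  have hterm : ∀ p ∈ PI k L, ∫ θ in JK k s L m, ‖AK k σ (Yj s L g p.1.1 p.1.2 p.2) θ‖ ^ 2 ≤
      E * ∫ x, qa (s + 1 + p.2) g x * M x ^ k := by
    rintro ⟨⟨j, j1⟩, l⟩ hp
    simp only [PI, Finset.mem_product, Finset.mem_filter, Finset.mem_range] at hp
    obtain ⟨⟨⟨hj, hj1⟩, hne⟩, hl⟩ := hp
    simp only
    have hν : σ * (2 : ℝ) ^ (s + 1 + (l : ℤ)) = Real.sqrt n * (2 * 2 ^ l / (2 ^ L * Q)) :=
      win_sh hQ s L l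
    have hl1 : (1 : ℝ) ≤ 2 ^ l := one_le_pow₀ (by norm_num)
    have hν1 : 1 ≤ σ * (2 : ℝ) ^ (s + 1 + (l : ℤ)) := by
      rw [hν]
      refine hn2.trans (mul_le_mul_of_nonneg_left ?_ (Real.sqrt_nonneg _))
      exact div_le_div_of_nonneg_right (by linarith) (by positivity)
    have hν2 : (σ * (2 : ℝ) ^ (s + 1 + (l : ℤ))) ^ 2 ≤ n := by
      rw [hν, mul_pow, Real.sq_sqrt hn0]
      have hk1 : 2 * 2 ^ l / (2 ^ L * Q) ≤ 1 := by
        rw [div_le_one (by positivity)]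
        calc (2 : ℝ) * 2 ^ l = 2 ^ (l + 1) := by ring
          _ ≤ 2 ^ L := pow_le_pow_right₀ (by norm_num) (by omega)
          _ = 2 ^ L * 1 := by ring
          _ ≤ 2 ^ L * Q := by gcongr
      have hk0 : 0 ≤ 2 * 2 ^ l / (2 ^ L * Q) := by positivity
      calc (n : ℝ) * (2 * 2 ^ l / (2 ^ L * Q)) ^ 2 ≤ n * 1 := by
            gcongr
            exact pow_le_one₀ hk0 hk1
        _ = n := mul_one _
    have h2 := hO σ g M (s + 1 + l) (Yj s L g j j1 l) j1 hσ0 hν1 hg hM hMi (by omega)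
      (by unfold Yj; rw [if_pos rfl])
      (fun i _ hi => Or.inr (Yj_form s L g j j1 l i hi))
      ((2 : ℝ) ^ (s + m) / (2 * (k + 1))) j (JK k s L m) (jmeas k s L m) (by omega)
      (by rw [hσ, win_mul k hQ]; exact hn1)
      (fun θ hθ δ h => by
        rw [Yj_low s L g l hne] at h
        exact sep hF hm hθ h)
    rw [hsq] at h2
    refine h2.trans ?_
    have h3 := hq0 l
    rw [hE]
    refine mul_le_mul_of_nonneg_right ?_ h3
    calc C * Real.exp (-(c * (n * kap k Q L m ^ 2))) * (σ * (2 : ℝ) ^ (s + 1 + (l : ℤ))) ^ 2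
        ≤ C * Real.exp (-(c * (n * kap k Q L m ^ 2))) * n :=
          mul_le_mul_of_nonneg_left hν2 (by positivity)
      _ = _ := by ring
  refine (Finset.sum_le_sum hterm).trans ?_
  unfold PI
  rw [Finset.sum_product]
  simp only
  rw [Finset.sum_const, nsmul_eq_mul, ← Finset.mul_sum]
  refine mul_le_mul_of_nonneg_right ?_ (mul_nonneg hE0 (Finset.sum_nonneg fun l _ => hq0 l))
  have h5 := Finset.card_filter_le (Finset.range (k + 1) ×ˢ Finset.range (k + 1))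
    (fun p => p.1 ≠ p.2)
  rw [Finset.card_product, Finset.card_range] at h5
  have h6 : ((((Finset.range (k + 1) ×ˢ Finset.range (k + 1)).filter
      (fun p => p.1 ≠ p.2)).card : ℕ) : ℝ) ≤ (((k + 1) * (k + 1) : ℕ) : ℝ) := by
    exact_mod_cast h5
  refine h6.trans (le_of_eq ?_)
  push_cast
  ring

theorem lim {κ c A ε : ℝ} (hκ : 0 < κ) (hc : 0 < c) (hε : 0 < ε) :
    ∀ᶠ n : ℕ in atTop, A * (n * Real.exp (-(c * (n * κ ^ 2)))) ≤ ε := by
  have h1 : Tendsto (fun n : ℕ => (n : ℝ) * (c * κ ^ 2)) atTop atTop :=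
    tendsto_natCast_atTop_atTop.atTop_mul_const (by positivity)
  have h2 := (Real.tendsto_pow_mul_exp_neg_atTop_nhds_zero 1).comp h1
  have h3 : Tendsto (fun n : ℕ => A * (n * Real.exp (-(c * (n * κ ^ 2))))) atTop (𝓝 0) := by
    have h4 := h2.const_mul (A / (c * κ ^ 2))
    rw [mul_zero] at h4
    refine h4.congr fun n => ?_
    simp only [Function.comp, pow_one]
    have e : c * (n * κ ^ 2) = n * (c * κ ^ 2) := by ring
    rw [e]
    field_simp
  exact h3.eventually_le_const hε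

theorem lim2 {κ : ℝ} (hκ : 0 < κ) : ∀ᶠ n : ℕ in atTop, 1 ≤ Real.sqrt n * κ := by
  have h1 : Tendsto (fun n : ℕ => Real.sqrt n * κ) atTop atTop :=
    (Real.tendsto_sqrt_atTop.comp tendsto_natCast_atTop_atTop).atTop_mul_const hκ
  exact h1.eventually_ge_atTop 1

end TLK

open TLK in
/-- (TailLK) -/
theorem tailLK (hO : StmtOneSh) (hC : StmtCV) (hC2 : StmtCV2) (hM : StmtMaxK) (hS : StmtSqK)
    (hF : Four.StmtFac) : StmtTailLK := by
  intro k Q L m ε hk hQ hm hmL hε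
  obtain ⟨C, c, hC0, hc0, hO'⟩ := hO k hk
  obtain ⟨CM, hCM, hM'⟩ := hM k hk
  obtain ⟨CS, hCS, hS'⟩ := id hS k hk
  have hL : 1 ≤ L := by omega
  have hQ0 : 0 < Q := by linarith
  set A : ℝ := ((PI k L).card : ℝ) * ((k + 1) ^ 2 * (C * (CS + CM))) with hA
  obtain ⟨n₀, hn₀⟩ := Filter.eventually_atTop.1
    ((lim (κ := kap k Q L m) (c := c) (A := A) (kap_pos k hQ L m) hc0 hε).and
      (((lim2 (kap_pos k hQ L m)).and (lim2 (κ := 2 / (2 ^ L * Q)) (by positivity))).and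
        (eventually_ge_atTop 1)))
  refine ⟨n₀, fun n hn g hg c' Bs => ?_⟩
  obtain ⟨hn3, ⟨hn1, hn2⟩, hn0⟩ := hn₀ n hn
  obtain ⟨M, hMd, hMi, hMb⟩ := hM' g hg
  have hM0 := hMd.2.1
  have h1 := Finset.sum_le_sum (s := Bs) fun b _ =>
    block hC hC2 hF hC0 hO' hQ hm hL hn0 hn1 hn2 hg hMd hMi (c' + b * L)
  refine h1.trans ?_
  rw [← Finset.mul_sum, ← Finset.mul_sum, ← Finset.mul_sum]
  -- reindex
  have h2 : ∑ b ∈ Bs, ∑ l ∈ Finset.range (L - 1), ∫ x, qa (c' + b * L + 1 + l) g x * M x ^ k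
      = ∑ a ∈ (Bs ×ˢ Finset.range (L - 1)).image (fun p : ℤ × ℕ => c' + p.1 * L + 1 + p.2),
        ∫ x, qa a g x * M x ^ k := by
    rw [Finset.sum_image, Finset.sum_product]
    rintro ⟨b, i⟩ hbi ⟨b', i'⟩ hbi' he
    have hi := Finset.mem_range.1 (Finset.mem_product.1 hbi).2
    have hi' := Finset.mem_range.1 (Finset.mem_product.1 hbi').2
    simp only at he hi hi'
    have hL0 : (0 : ℤ) < L := by omega
    have key : ∀ (b : ℤ) (i : ℕ), i < L - 1 → (b * L + i) / L = b := by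
      intro b i hi
      rw [add_comm, Int.add_mul_ediv_right _ _ hL0.ne', Int.ediv_eq_zero_of_lt (by omega)
        (by omega), zero_add]
    have e1 : b = b' := by
      rw [← key b i hi, ← key b' i' hi']
      congr 1
      linarith
    subst e1
    have e2 : i = i' := by
      have : (i : ℤ) = i' := by linarith
      exact_mod_cast this
    rw [e2]
  set I := (Bs ×ˢ Finset.range (L - 1)).image (fun p : ℤ × ℕ => c' + p.1 * L + 1 + p.2) with hI
  have hqM : ∀ a : ℤ, Integrable (fun x => qa a g x * M x ^ k) := by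
    intro a
    obtain ⟨hqi, hqm⟩ := OneShAux.qa_int hS hk a hg
    refine (hqi.add hMi).mono' (hqm.mul (hMd.1.pow_const k).aestronglyMeasurable)
      (Filter.Eventually.of_forall fun x => ?_)
    rw [Real.norm_of_nonneg (mul_nonneg (OneShAux.qa_nonneg _ _ _) (pow_nonneg (hM0 x) _))]
    exact OneShAux.mul_pow_le (OneShAux.qa_nonneg _ _ _) (hM0 x) k
  have h3 : ∑ a ∈ I, ∫ x, qa a g x * M x ^ k ≤ (CS + CM) * NK (k + 1) g := by
    rw [← integral_finsetSum _ fun a _ => hqM a]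
    obtain ⟨hSi, hSb⟩ := hS' I g hg
    calc ∫ x, ∑ a ∈ I, qa a g x * M x ^ k
        ≤ ∫ x, ((∑ a ∈ I, qa a g x) ^ (k + 1) + M x ^ (k + 1)) := by
          refine integral_mono (integrable_finsetSum _ fun a _ => hqM a) (hSi.add hMi)
            fun x => ?_
          simp only
          rw [← Finset.sum_mul]
          exact OneShAux.mul_pow_le (Finset.sum_nonneg fun a _ => OneShAux.qa_nonneg _ _ _)
            (hM0 x) k
      _ = (∫ x, (∑ a ∈ I, qa a g x) ^ (k + 1)) + ∫ x, M x ^ (k + 1) := integral_add hSi hMi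
      _ ≤ CS * NK (k + 1) g + CM * NK (k + 1) g := add_le_add hSb hMb
      _ = _ := by ring
  rw [h2]
  have hNK : 0 ≤ NK (k + 1) g := integral_nonneg fun _ => by positivity
  calc ((PI k L).card : ℝ) * ((k + 1) ^ 2 * (C * (n * Real.exp (-(c * (n * kap k Q L m ^ 2)))) *
        ∑ a ∈ I, ∫ x, qa a g x * M x ^ k))
      ≤ ((PI k L).card : ℝ) * ((k + 1) ^ 2 * (C * (n * Real.exp (-(c * (n * kap k Q L m ^ 2)))) *
        ((CS + CM) * NK (k + 1) g))) := by gcongr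
    _ = (A * (n * Real.exp (-(c * (n * kap k Q L m ^ 2))))) * NK (k + 1) g := by
        rw [hA]; ring
    _ ≤ ε * NK (k + 1) g := mul_le_mul_of_nonneg_right hn3 hNK

end Pool.Agent.Lib.MP_dd244f_an.Even
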