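import Pool.Agent.Lib.MP_dd244f_an.Even.Stmts
import Pool.Agent.Lib.MP_dd244f_an.Four.Top

/-!
Full operator, even `p = 2 (k + 1)`: (TopK) the interaction of a shell with low frequencies.
-/

set_option autoImplicit false

namespace Pool.Agent.Lib.MP_dd244f_an.Even

open MeasureTheory Filter Topology Finset
open Pool.Agent.Lib.MP_dd244f_an.Four

namespace TopKAux

/-- reflected conjugate -/
noncomputable def cj (e : ℂ → ℂ) (ζ : ℂ) : ℂ := starRingEnd ℂ (e (-ζ))

theorem cj_cc {e : ℂ → ℂ} (he : CC e) : CC (cj e) := by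
  refine ⟨?_, ?_⟩
  · exact Complex.continuous_conj.comp (he.1.comp continuous_neg)
  · have h3 : HasCompactSupport (fun ζ => e (-ζ)) := he.2.comp_homeomorph (Homeomorph.neg ℂ)
    exact h3.comp_left (g := starRingEnd ℂ) (by simp)

/-- `u ^ (k + 1) conj u ^ k` -/
noncomputable def psi (k : ℕ) (u : ℂ) : ℂ := u ^ (k + 1) * starRingEnd ℂ u ^ k

theorem van (hB : Four.StmtBase) (hCV : StmtCV) (k : ℕ) {e h : ℂ → ℂ} (he : CC e) (hh : CC h)
    {r : ℝ} (h1 : ∀ ζ, e ζ ≠ 0 → ‖ζ‖ ≤ r) (h2 : ∀ ζ, h ζ ≠ 0 → (2 * k + 1) * r < ‖ζ‖) :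
    Integrable (fun x => (psi k (iF e x) * starRingEnd ℂ (iF h x)).re) ∧
      ∫ x, (psi k (iF e x) * starRingEnd ℂ (iF h x)).re = 0 := by
  obtain ⟨u, hu⟩ : ∃ u : ℕ → ℂ → ℂ, u = fun j => if j < k + 1 then e else cj e := ⟨_, rfl⟩
  have huC : ∀ j ≤ 2 * k, CC (u j) := by
    intro j _
    rw [hu]
    beta_reduce
    split_ifs
    · exact he
    · exact cj_cc he
  have hu1 : ∀ j ζ, u j ζ ≠ 0 → ‖ζ‖ ≤ r := by
    intro j ζ hζ
    rw [hu] at hζ
    beta_reduce at hζ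
    split_ifs at hζ
    · exact h1 ζ hζ
    · have := h1 (-ζ) (by
        intro h0
        apply hζ
        unfold cj
        simp [h0])
      simpa using this
  obtain ⟨c1, p1, -⟩ := (hCV (2 * k)).1 u huC
  have hpsi : ∀ x, iF (cv (2 * k) u) x = psi k (iF e x) := by
    intro x
    rw [p1 x, show 2 * k + 1 = (k + 1) + k by ring, Finset.prod_range_add]
    unfold psi
    congr 1
    · rw [Finset.prod_congr rfl (g := fun _ => iF e x) (by
        intro j hj
        rw [Finset.mem_range] at hj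
        rw [hu]
        simp [hj])]
      simp
    · rw [Finset.prod_congr rfl (g := fun _ => starRingEnd ℂ (iF e x)) (by
        intro j _
        rw [hu, hB.2.2.2.1 e x]
        simp only [show ¬ (k + 1 + j < k + 1) by omega, if_false]
        rfl)]
      simp
  obtain ⟨i6, v6⟩ := hB.2.2.2.2.2 _ h c1 hh
  have z : ∫ ζ, cv (2 * k) u ζ * starRingEnd ℂ (h ζ) = 0 := by
    have : (fun ζ => cv (2 * k) u ζ * starRingEnd ℂ (h ζ)) = fun _ => 0 := by
      ext ζ
      by_cases h3 : h ζ = 0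
      · simp [h3]
      by_cases h4 : cv (2 * k) u ζ = 0
      · simp [h4]
      exfalso
      obtain ⟨η, e1, e2⟩ := (hCV (2 * k)).2.2.1 u ζ h4
      have h5 : ‖ζ‖ ≤ ∑ j ∈ Finset.range (2 * k + 1), ‖η j‖ := by
        rw [← e1]
        exact norm_sum_le _ _
      have h6 : ∑ j ∈ Finset.range (2 * k + 1), ‖η j‖ ≤ ∑ j ∈ Finset.range (2 * k + 1), r := by
        refine Finset.sum_le_sum fun j hj => hu1 j _ (e2 j ?_)
        rw [Finset.mem_range] at hj
        omega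
      rw [Finset.sum_const, Finset.card_range, nsmul_eq_mul] at h6
      push_cast at h6
      have h7 := h2 ζ h3
      linarith
    rw [this]
    simp
  rw [z] at v6
  have e1 : (fun x => (psi k (iF e x) * starRingEnd ℂ (iF h x)).re) = fun x =>
      (iF (cv (2 * k) u) x * starRingEnd ℂ (iF h x)).re := by
    ext x; rw [hpsi]
  rw [e1]
  refine ⟨i6.re, ?_⟩
  have := integral_re i6
  simp only [RCLike.re_eq_complex_re] at this
  rw [this, v6]
  simp

theorem concl {D V F : ℂ → ℝ} (hD : Integrable D) (hV : Integrable V) (hF : Integrable F)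
    (h0 : ∫ x, V x = 0) (h : ∀ x, |D x - V x| ≤ F x) : |∫ x, D x| ≤ ∫ x, F x := by
  have : ∫ x, D x = ∫ x, (D x - V x) := by rw [integral_sub hD hV, h0, sub_zero]
  rw [this, ← Real.norm_eq_abs]
  exact norm_integral_le_of_norm_le hF
    (Eventually.of_forall fun x => by rw [Real.norm_eq_abs]; exact h x)

theorem int_pow (hB : Four.StmtBase) (k : ℕ) {u : ℂ → ℂ} (hu : CC u) :
    Integrable (fun x => ‖iF u x‖ ^ (2 * (k + 1))) := by
  obtain ⟨hc, ⟨B, hb⟩, h2, -⟩ := hB.1 u hu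
  refine (h2.const_mul (B ^ (2 * k))).mono' (hc.norm.pow _).aestronglyMeasurable
    (Eventually.of_forall fun x => ?_)
  rw [Real.norm_of_nonneg (by positivity)]
  calc ‖iF u x‖ ^ (2 * (k + 1)) = ‖iF u x‖ ^ (2 * k) * ‖iF u x‖ ^ 2 := by ring
    _ ≤ _ := by gcongr; exact hb x

theorem pw (w : ℂ) (m : ℕ) : w ^ m * starRingEnd ℂ w ^ m = ((‖w‖ ^ (2 * m) : ℝ) : ℂ) := by
  rw [← mul_pow, Complex.mul_conj, Complex.normSq_eq_norm_sq, ← Complex.ofReal_pow, ← pow_mul]

/-- second order expansion -/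
theorem pt3 (hPo : StmtPoly) (k : ℕ) (hk : 1 ≤ k) : ∃ C, 0 < C ∧ ∀ (A B H : ℂ) (Z : ℝ),
    ‖A‖ ≤ Z → ‖B‖ ≤ Z → ‖H‖ ≤ Z →
    |((‖B + A + H‖ ^ (2 * (k + 1)) - ‖B + A‖ ^ (2 * (k + 1)))
      - (‖B + H‖ ^ (2 * (k + 1)) - ‖B‖ ^ (2 * (k + 1))))
      - 2 * ((k : ℝ) + 1) * ((psi k (B + A) - psi k B) * starRingEnd ℂ H).re|
      ≤ C * ‖A‖ * ‖H‖ ^ 2 * Z ^ (2 * k - 1) := by
  obtain ⟨C, hC, h⟩ := hPo (k + 1) (k + 1)
  refine ⟨C, hC, fun A B H Z hA hB hH => ?_⟩
  have h3 := (h B A H Z hB hA hH).2.2 (by omega)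
  rw [pw, pw, pw, pw, show k + 1 - 1 = k by omega, show k + 1 + (k + 1) - 3 = 2 * k - 1 by omega] at h3
  refine le_trans ?_ h3
  refine le_trans (le_of_eq ?_) (Complex.abs_re_le_norm _)
  congr 1
  have e1 : (H * ((B + A) ^ k * starRingEnd ℂ (B + A) ^ (k + 1)
      - B ^ k * starRingEnd ℂ B ^ (k + 1))).re =
      ((psi k (B + A) - psi k B) * starRingEnd ℂ H).re := by
    rw [← Complex.conj_re]
    congr 1
    unfold psi
    simp only [map_mul, map_sub, map_pow, Complex.conj_conj]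
    ring
  have e2 : (starRingEnd ℂ H * ((B + A) ^ (k + 1) * starRingEnd ℂ (B + A) ^ k
      - B ^ (k + 1) * starRingEnd ℂ B ^ k)).re =
      ((psi k (B + A) - psi k B) * starRingEnd ℂ H).re := by
    congr 1
    unfold psi
    ring
  have e3 : ∀ z : ℂ, (((k + 1 : ℕ) : ℂ) * z).re = ((k : ℝ) + 1) * z.re := by
    intro z
    have : ((k + 1 : ℕ) : ℂ) = (((k : ℝ) + 1 : ℝ) : ℂ) := by push_cast; rfl
    rw [this, Complex.re_ofReal_mul]
  simp only [Complex.sub_re, Complex.add_re, Complex.ofReal_re]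
  rw [e3, e3, e1, e2]
  ring

/-- first and second differences of `psi` -/
theorem pt12 (hPo : StmtPoly) (k : ℕ) (hk : 1 ≤ k) : ∃ C, 0 < C ∧ ∀ (u a b : ℂ) (Z : ℝ),
    ‖u‖ ≤ Z → ‖a‖ ≤ Z → ‖b‖ ≤ Z →
    ‖psi k (u + a) - psi k u‖ ≤ C * ‖a‖ * Z ^ (2 * k) ∧
    ‖(psi k (u + a + b) - psi k (u + a)) - (psi k (u + b) - psi k u)‖
      ≤ C * ‖a‖ * ‖b‖ * Z ^ (2 * k - 1) := by
  obtain ⟨C, hC, h⟩ := hPo (k + 1) k
  refine ⟨C, hC, fun u a b Z hu ha hb => ?_⟩
  have h1 := (h u a b Z hu ha hb).1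
  have h2 := (h u a b Z hu ha hb).2.1 (by omega)
  rw [show k + 1 + k - 1 = 2 * k by omega] at h1
  rw [show k + 1 + k - 2 = 2 * k - 1 by omega] at h2
  exact ⟨h1, h2⟩

theorem bd_U (hB : Four.StmtBase) (hF : Four.StmtFac) {G : ℂ → ℂ} (hG : CC G) (c : ℕ) (a i j : ℤ)
    (h1 : a - c ≤ i) (h2 : i ≤ j) (h3 : j ≤ a + 1) (x : ℂ) :
    ‖iF (cut (bd i j) G) x‖ ≤ ∑ m ∈ Finset.Icc (a - c) a, ‖iF (cut (sh m) G) x‖ := by
  obtain ⟨k, rfl⟩ : ∃ k : ℕ, j = i + k := ⟨(j - i).toNat, by omega⟩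
  refine (TopAux.bd_norm hB hF hG i k x).trans ?_
  have e : ∑ m ∈ Finset.range k, ‖iF (cut (sh (i + m)) G) x‖
      = ∑ m ∈ (Finset.range k).image (fun m : ℕ => i + (m : ℤ)), ‖iF (cut (sh m) G) x‖ := by
    rw [Finset.sum_image]
    intro p _ q _ h
    simpa using h
  rw [e]
  refine Finset.sum_le_sum_of_subset_of_nonneg ?_ (fun _ _ _ => norm_nonneg _)
  intro m hm
  simp only [Finset.mem_image, Finset.mem_range, Finset.mem_Icc] at hm ⊢
  obtain ⟨p, hp, rfl⟩ := hm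
  constructor <;> omega

end TopKAux

open TopKAux in
/-- (TopK) the interaction of a shell with low frequencies -/
theorem topK (hPo : StmtPoly) (hD : StmtDomF) (hCV : StmtCV) (hB : Four.StmtBase)
    (hF : Four.StmtFac) : StmtTopK := by
  intro k hk
  obtain ⟨CD, hCD, hD⟩ := hD
  obtain ⟨C3, hC3, p3⟩ := pt3 hPo k hk
  obtain ⟨C2, hC2, p2⟩ := pt12 hPo k hk
  set s : ℝ := Real.sqrt CD with hs
  have hs0 : 0 < s := Real.sqrt_pos.2 hCD
  set c₀ : ℕ := 2 * k + 2 with hc₀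
  set E1 : ℝ := C3 + 4 * ((k : ℝ) + 1) * C2 with hE1
  have hE10 : 0 < E1 := by positivity
  refine ⟨E1 * s ^ (2 * k - 1) * s + E1 * s ^ (2 * k - 1) + E1 * s ^ (2 * k), c₀, by positivity, ?_⟩
  intro a d G M hG hDom hMi
  have hM0 := hDom.2.1
  have hMm := hDom.1
  obtain hDx := fun x => hD G M hG hDom x
  -- notation
  set Z : ℂ → ℝ := fun x => s * Real.sqrt (M x) with hZ
  have hZ0 : ∀ x, 0 ≤ Z x := fun x => by positivity
  have toZ : ∀ (v : ℂ) (x : ℂ), ‖v‖ ^ 2 ≤ CD * M x → ‖v‖ ≤ Z x := by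
    intro v x h
    simp only [hZ, hs]
    rw [← Real.sqrt_mul hCD.le]
    exact Real.le_sqrt_of_sq_le h
  have zlo : ∀ i x, ‖iF (cut (lo i) G) x‖ ≤ Z x := fun i x => toZ _ _ ((hDx x).2.1 i)
  have zbd : ∀ i j x, ‖iF (cut (bd i j) G) x‖ ≤ Z x := fun i j x => toZ _ _ ((hDx x).2.2.1 i j)
  have zsh : ∀ i x, ‖iF (cut (sh i) G) x‖ ≤ Z x := fun i x => zbd i (i + 1) x
  have hsM : ∀ x, Real.sqrt (M x) ^ (2 * k - 1) * Real.sqrt (M x) = M x ^ k := by
    intro x
    rw [← pow_succ, show 2 * k - 1 + 1 = 2 * k by omega, pow_mul, Real.sq_sqrt (hM0 x)]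
  have hsM2 : ∀ x, Real.sqrt (M x) ^ (2 * k) = M x ^ k := by
    intro x
    rw [pow_mul, Real.sq_sqrt (hM0 x)]
  have hsM1 : ∀ x, Real.sqrt (M x) * Real.sqrt (M x) = M x := fun x => Real.mul_self_sqrt (hM0 x)
  have hZZ : ∀ x, Z x * Z x = CD * M x := by
    intro x
    simp only [hZ]
    calc _ = (s * s) * (Real.sqrt (M x) * Real.sqrt (M x)) := by ring
      _ = _ := by rw [hsM1, hs, Real.mul_self_sqrt hCD.le]
  have hZk : ∀ x, Z x * Z x ^ (2 * k - 1) = Z x ^ (2 * k) := by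
    intro x
    rw [mul_comm, ← pow_succ, show 2 * k - 1 + 1 = 2 * k by omega]
  have clo : ∀ i, CC (cut (lo i) G) := fun i => (hF.2.2.2.2.1 G i i hG).1
  have cbd : ∀ i j, CC (cut (bd i j) G) := fun i j => (hF.2.2.2.2.1 G i j hG).2.1
  have csh : ∀ i, CC (cut (sh i) G) := fun i => (hF.2.2.2.2.1 G i i hG).2.2
  have nlo : ∀ i, Continuous (iF (cut (lo i) G)) := fun i => (hB.1 _ (clo i)).1
  have nsh : ∀ i, Continuous (iF (cut (sh i) G)) := fun i => (hB.1 _ (csh i)).1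
  have aM : AEStronglyMeasurable M volume := hMm.aestronglyMeasurable
  -- integrability of the bounds
  have i1 : ∀ i, Integrable (fun x => ‖iF (cut (sh a) G) x‖ * ‖iF (cut (sh i) G) x‖ * M x ^ k) := by
    intro i
    refine (hMi.const_mul CD).mono' ((((nsh a).norm.mul (nsh i).norm).aestronglyMeasurable).mul
      (aM.pow k)) (Eventually.of_forall fun x => ?_)
    have hMk : 0 ≤ M x ^ k := pow_nonneg (hM0 x) k
    rw [Real.norm_of_nonneg (by positivity)]
    calc ‖iF (cut (sh a) G) x‖ * ‖iF (cut (sh i) G) x‖ * M x ^ k ≤ Z x * Z x * M x ^ k := by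
          have h1 := zsh a x
          have h2 := zsh i x
          have h3 := hZ0 x
          gcongr
      _ = _ := by rw [hZZ]; ring
  have i2 : ∀ i, Integrable (fun x => ‖iF (cut (sh a) G) x‖ * ‖iF (cut (lo (a - d)) G) x‖ *
      ‖iF (cut (sh i) G) x‖ * Real.sqrt (M x) ^ (2 * k - 1)) := by
    intro i
    refine ((i1 i).const_mul s).mono'
      (((((nsh a).norm.mul (nlo (a - d)).norm).mul (nsh i).norm).aestronglyMeasurable).mul
      ((Real.continuous_sqrt.comp_aestronglyMeasurable aM).pow _))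
      (Eventually.of_forall fun x => ?_)
    rw [Real.norm_of_nonneg (by positivity)]
    calc _ ≤ ‖iF (cut (sh a) G) x‖ * (s * Real.sqrt (M x)) *
        ‖iF (cut (sh i) G) x‖ * Real.sqrt (M x) ^ (2 * k - 1) := by
          have h1 := zlo (a - d) x
          gcongr
      _ = s * (‖iF (cut (sh a) G) x‖ * ‖iF (cut (sh i) G) x‖ *
          (Real.sqrt (M x) ^ (2 * k - 1) * Real.sqrt (M x))) := by ring
      _ = _ := by rw [hsM]
  have b12 : ∀ i, ∫ x, ‖iF (cut (sh a) G) x‖ * ‖iF (cut (lo (a - d)) G) x‖ *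
      ‖iF (cut (sh i) G) x‖ * Real.sqrt (M x) ^ (2 * k - 1) ≤
      s * ∫ x, ‖iF (cut (sh a) G) x‖ * ‖iF (cut (sh i) G) x‖ * M x ^ k := by
    intro i
    rw [← integral_const_mul]
    refine integral_mono (i2 i) ((i1 i).const_mul s) fun x => ?_
    beta_reduce
    calc _ ≤ ‖iF (cut (sh a) G) x‖ * (s * Real.sqrt (M x)) *
        ‖iF (cut (sh i) G) x‖ * Real.sqrt (M x) ^ (2 * k - 1) := by
          have h1 := zlo (a - d) x
          gcongr
      _ = s * (‖iF (cut (sh a) G) x‖ * ‖iF (cut (sh i) G) x‖ *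
          (Real.sqrt (M x) ^ (2 * k - 1) * Real.sqrt (M x))) := by ring
      _ = _ := by rw [hsM]
  have p1 : ∀ i, 0 ≤ ∫ x, ‖iF (cut (sh a) G) x‖ * ‖iF (cut (sh i) G) x‖ * M x ^ k := fun i =>
    integral_nonneg fun x => mul_nonneg (by positivity) (pow_nonneg (hM0 x) k)
  have p2' : ∀ i, 0 ≤ ∫ x, ‖iF (cut (sh a) G) x‖ * ‖iF (cut (lo (a - d)) G) x‖ *
      ‖iF (cut (sh i) G) x‖ * Real.sqrt (M x) ^ (2 * k - 1) := fun i =>
    integral_nonneg fun x => by positivity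
  -- the integrand of `DK`
  obtain ⟨Df, hDf⟩ : ∃ Df : ℂ → ℝ, Df = fun x =>
      (‖iF (cut (lo (a + 1)) G) x‖ ^ (2 * (k + 1)) - ‖iF (cut (lo a) G) x‖ ^ (2 * (k + 1)))
      - (‖iF (cut (bd (a - d) (a + 1)) G) x‖ ^ (2 * (k + 1))
        - ‖iF (cut (bd (a - d) a) G) x‖ ^ (2 * (k + 1))) := ⟨_, rfl⟩
  have iDf : Integrable Df := by
    rw [hDf]
    exact ((int_pow hB k (clo _)).sub (int_pow hB k (clo _))).sub
      ((int_pow hB k (cbd _ _)).sub (int_pow hB k (cbd _ _)))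
  have eDf : DK k a d G = ∫ x, Df x := by
    rw [hDf]
    unfold DK NK
    rw [integral_sub, integral_sub, integral_sub]
    · exact int_pow hB k (cbd _ _)
    · exact int_pow hB k (cbd _ _)
    · exact int_pow hB k (clo _)
    · exact int_pow hB k (clo _)
    · exact (int_pow hB k (clo _)).sub (int_pow hB k (clo _))
    · exact (int_pow hB k (cbd _ _)).sub (int_pow hB k (cbd _ _))
  have q3 : ∀ x, |Df x - 2 * ((k : ℝ) + 1) * ((psi k (iF (cut (lo a) G) x)
      - psi k (iF (cut (bd (a - d) a) G) x)) * starRingEnd ℂ (iF (cut (sh a) G) x)).re|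
      ≤ C3 * ‖iF (cut (lo (a - d)) G) x‖ * ‖iF (cut (sh a) G) x‖ ^ 2 * Z x ^ (2 * k - 1) := by
    intro x
    have h := p3 (iF (cut (lo (a - d)) G) x) (iF (cut (bd (a - d) a) G) x)
      (iF (cut (sh a) G) x) (Z x) (zlo _ _) (zbd _ _ _) (zsh _ _)
    have e1 : iF (cut (bd (a - d) a) G) x + iF (cut (lo (a - d)) G) x = iF (cut (lo a) G) x := by
      rw [add_comm]
      exact TopAux.lo_bd hB hF hG (a - d) a x
    have e2 : iF (cut (lo a) G) x + iF (cut (sh a) G) x = iF (cut (lo (a + 1)) G) x :=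
      TopAux.lo_bd hB hF hG a (a + 1) x
    have e3 : iF (cut (bd (a - d) a) G) x + iF (cut (sh a) G) x
        = iF (cut (bd (a - d) (a + 1)) G) x := TopAux.bd_bd hB hF hG (a - d) a (a + 1) x
    rw [e1, e2, e3] at h
    rw [hDf]
    exact h
  -- frequency supports
  have pw : (0 : ℝ) < (2 : ℝ) ^ a := by positivity
  have s3 : ∀ ζ, cut (sh a) G ζ ≠ 0 → (2 : ℝ) ^ a < ‖ζ‖ := by
    intro ζ hζ
    by_contra hc
    push Not at hc
    apply hζ
    have l1 := hF.2.1 a ζ hc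
    have l2 := hF.2.1 (a + 1) ζ (hc.trans (zpow_le_zpow_right₀ (by norm_num) (by omega)))
    simp [cut, sh, bd, l1, l2]
  have hpow : (2 * (k : ℝ) + 1) * (2 * (2 : ℝ) ^ (a - c₀)) ≤ (2 : ℝ) ^ a := by
    have h1 : 2 * k + 1 < 2 ^ (2 * k + 1) := Nat.lt_two_pow_self
    have h2 : ((2 * (k : ℝ) + 1)) ≤ (2 : ℝ) ^ (2 * k + 1) := by exact_mod_cast h1.le
    have h3 : (2 : ℝ) ^ (a - c₀) = (2 : ℝ) ^ a / (2 ^ (2 * k + 1) * 2) := by
      rw [zpow_sub₀ two_ne_zero, zpow_natCast, hc₀, ← pow_succ]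
    rw [h3]
    have h4 : (0 : ℝ) < 2 ^ (2 * k + 1) := by positivity
    calc (2 * (k : ℝ) + 1) * (2 * ((2 : ℝ) ^ a / (2 ^ (2 * k + 1) * 2)))
        = (2 : ℝ) ^ a * ((2 * (k : ℝ) + 1) / 2 ^ (2 * k + 1)) := by field_simp
      _ ≤ (2 : ℝ) ^ a * 1 := by
          gcongr
          rw [div_le_one h4]
          exact h2
      _ = _ := mul_one _
  have slo : ∀ j, j ≤ a - c₀ → ∀ ζ, 2 * (2 : ℝ) ^ (a - c₀) < ‖ζ‖ → lo j ζ = 0 := by
    intro j hj ζ hζ
    apply hF.2.2.1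
    have h1 : (2 : ℝ) ^ j ≤ (2 : ℝ) ^ (a - c₀) := zpow_le_zpow_right₀ (by norm_num) hj
    have h3 : (0 : ℝ) < (2 : ℝ) ^ j := by positivity
    nlinarith
  have vanE : ∀ e : ℂ → ℂ, (∀ ζ, 2 * (2 : ℝ) ^ (a - c₀) < ‖ζ‖ → e ζ = 0) → CC e →
      Integrable (fun x => (psi k (iF e x) * starRingEnd ℂ (iF (cut (sh a) G) x)).re) ∧
      ∫ x, (psi k (iF e x) * starRingEnd ℂ (iF (cut (sh a) G) x)).re = 0 := by
    intro e he hC
    refine van hB hCV k hC (csh a) (r := 2 * (2 : ℝ) ^ (a - c₀)) ?_ ?_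
    · intro ζ hζ
      by_contra hc
      push Not at hc
      exact hζ (he ζ hc)
    · intro ζ hζ
      exact hpow.trans_lt (s3 ζ hζ)
  obtain ⟨vE, vE0⟩ := vanE (cut (lo (a - c₀)) G) (fun ζ h => by
    simp [cut, slo (a - c₀) le_rfl ζ h]) (clo _)
  -- the sum of the shells
  obtain ⟨S, hS⟩ : ∃ S : ℂ → ℝ, S = fun x =>
    ∑ i ∈ Finset.Icc (a - c₀) a, ‖iF (cut (sh i) G) x‖ := ⟨_, rfl⟩
  have hS0 : ∀ x, 0 ≤ S x := fun x => by
    rw [hS]
    exact Finset.sum_nonneg fun _ _ => norm_nonneg _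
  have hSb : ∀ i j, a - c₀ ≤ i → i ≤ j → j ≤ a + 1 → ∀ x, ‖iF (cut (bd i j) G) x‖ ≤ S x := by
    intro i j h1 h2 h3 x
    rw [hS]
    exact bd_U hB hF hG c₀ a i j h1 h2 h3 x
  have hSa : ∀ x, ‖iF (cut (sh a) G) x‖ ≤ S x := fun x =>
    hSb a (a + 1) (by omega) (by omega) le_rfl x
  -- case `c₀ ≤ d`
  have second : c₀ ≤ d → |DK k a d G| ≤ E1 * s ^ (2 * k - 1) * ∑ i ∈ Finset.Icc (a - c₀) a,
      ∫ x, ‖iF (cut (sh a) G) x‖ * ‖iF (cut (lo (a - d)) G) x‖ * ‖iF (cut (sh i) G) x‖ *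
        Real.sqrt (M x) ^ (2 * k - 1) := by
    intro hd
    obtain ⟨vB, vB0⟩ := vanE (cut (bd (a - d) (a - c₀)) G) (fun ζ h => by
      simp [cut, bd, slo (a - c₀) le_rfl ζ h, slo (a - d) (by omega) ζ h]) (cbd _ _)
    rw [eDf]
    have hint : Integrable (fun x => E1 * s ^ (2 * k - 1) * ∑ i ∈ Finset.Icc (a - c₀) a,
        ‖iF (cut (sh a) G) x‖ * ‖iF (cut (lo (a - d)) G) x‖ * ‖iF (cut (sh i) G) x‖ *
        Real.sqrt (M x) ^ (2 * k - 1)) := (integrable_finsetSum _ fun i _ => i2 i).const_mul _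
    have h := concl iDf ((vE.sub vB).const_mul (2 * ((k : ℝ) + 1))) hint (by
      simp only [Pi.sub_apply]
      rw [integral_const_mul, integral_sub vE vB, vE0, vB0]
      simp) (fun x => ?_)
    · refine h.trans (le_of_eq ?_)
      rw [integral_const_mul, integral_finsetSum _ fun i _ => i2 i]
    · simp only [Pi.sub_apply]
      have h1 := q3 x
      have h2 := (p2 (iF (cut (bd (a - d) (a - c₀)) G) x) (iF (cut (lo (a - d)) G) x)
        (iF (cut (bd (a - c₀) a) G) x) (Z x) (zbd _ _ _) (zlo _ _) (zbd _ _ _)).2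
      have e1 : iF (cut (bd (a - d) (a - c₀)) G) x + iF (cut (lo (a - d)) G) x
          = iF (cut (lo (a - c₀)) G) x := by
        rw [add_comm]
        exact TopAux.lo_bd hB hF hG _ _ x
      have e2 : iF (cut (lo (a - c₀)) G) x + iF (cut (bd (a - c₀) a) G) x
          = iF (cut (lo a) G) x := TopAux.lo_bd hB hF hG _ _ x
      have e3 : iF (cut (bd (a - d) (a - c₀)) G) x + iF (cut (bd (a - c₀) a) G) x
          = iF (cut (bd (a - d) a) G) x := TopAux.bd_bd hB hF hG _ _ _ x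
      rw [e1, e2, e3] at h2
      have hH := norm_nonneg (iF (cut (sh a) G) x)
      have hA := norm_nonneg (iF (cut (lo (a - d)) G) x)
      have hSa' := hSa x
      have hSh := hSb (a - c₀) a le_rfl (by omega) (by omega) x
      have hZx := hZ0 x
      have eS : E1 * s ^ (2 * k - 1) * ∑ i ∈ Finset.Icc (a - c₀) a,
          ‖iF (cut (sh a) G) x‖ * ‖iF (cut (lo (a - d)) G) x‖ * ‖iF (cut (sh i) G) x‖ *
          Real.sqrt (M x) ^ (2 * k - 1) = E1 * (‖iF (cut (lo (a - d)) G) x‖ *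
            ‖iF (cut (sh a) G) x‖ * S x * Z x ^ (2 * k - 1)) := by
        rw [← Finset.sum_mul, ← Finset.mul_sum, hS]
        simp only [hZ]
        rw [mul_pow]
        ring
      rw [eS]
      generalize iF (cut (sh a) G) x = H at *
      generalize iF (cut (lo (a - d)) G) x = A at *
      generalize iF (cut (lo a) G) x = W at *
      generalize iF (cut (bd (a - d) a) G) x = B at *
      generalize iF (cut (lo (a - c₀)) G) x = Wl at *
      generalize iF (cut (bd (a - d) (a - c₀)) G) x = Bl at *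
      generalize iF (cut (bd (a - c₀) a) G) x = Wh at *
      have h3 : |2 * ((k : ℝ) + 1) * ((psi k W - psi k B) * starRingEnd ℂ H).re -
          2 * ((k : ℝ) + 1) * ((psi k Wl * starRingEnd ℂ H).re - (psi k Bl * starRingEnd ℂ H).re)|
          ≤ 2 * ((k : ℝ) + 1) * (C2 * ‖A‖ * ‖Wh‖ * Z x ^ (2 * k - 1) * ‖H‖) := by
        have e4 : 2 * ((k : ℝ) + 1) * ((psi k W - psi k B) * starRingEnd ℂ H).re -
          2 * ((k : ℝ) + 1) * ((psi k Wl * starRingEnd ℂ H).re - (psi k Bl * starRingEnd ℂ H).re)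
          = 2 * ((k : ℝ) + 1) * ((psi k W - psi k Wl - (psi k B - psi k Bl))
            * starRingEnd ℂ H).re := by
          rw [← Complex.sub_re, ← mul_sub, ← Complex.sub_re]
          congr 2
          ring
        rw [e4, abs_mul, abs_of_pos (by positivity : (0 : ℝ) < 2 * ((k : ℝ) + 1))]
        gcongr
        refine (Complex.abs_re_le_norm _).trans ?_
        rw [norm_mul, RCLike.norm_conj]
        gcongr
      have h4 : |Df x - 2 * ((k : ℝ) + 1) * ((psi k Wl * starRingEnd ℂ H).re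
          - (psi k Bl * starRingEnd ℂ H).re)| ≤ C3 * ‖A‖ * ‖H‖ ^ 2 * Z x ^ (2 * k - 1)
            + 2 * ((k : ℝ) + 1) * (C2 * ‖A‖ * ‖Wh‖ * Z x ^ (2 * k - 1) * ‖H‖) := by
        have := abs_add_le (Df x - 2 * ((k : ℝ) + 1) * ((psi k W - psi k B) * starRingEnd ℂ H).re)
          (2 * ((k : ℝ) + 1) * ((psi k W - psi k B) * starRingEnd ℂ H).re -
          2 * ((k : ℝ) + 1) * ((psi k Wl * starRingEnd ℂ H).re - (psi k Bl * starRingEnd ℂ H).re))
        rw [sub_add_sub_cancel] at this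
        linarith
      refine h4.trans ?_
      calc C3 * ‖A‖ * ‖H‖ ^ 2 * Z x ^ (2 * k - 1)
            + 2 * ((k : ℝ) + 1) * (C2 * ‖A‖ * ‖Wh‖ * Z x ^ (2 * k - 1) * ‖H‖)
          = ‖A‖ * ‖H‖ * Z x ^ (2 * k - 1) * (C3 * ‖H‖ + 2 * ((k : ℝ) + 1) * C2 * ‖Wh‖) := by ring
        _ ≤ ‖A‖ * ‖H‖ * Z x ^ (2 * k - 1) * (C3 * S x + 4 * ((k : ℝ) + 1) * C2 * S x) := by
            have hh : 2 * ((k : ℝ) + 1) * C2 ≤ 4 * ((k : ℝ) + 1) * C2 := by nlinarith
            gcongr
        _ = _ := by rw [hE1]; ring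
  refine ⟨?_, ?_⟩
  · rcases le_or_gt c₀ d with hd | hd
    · refine (second hd).trans ?_
      calc _ ≤ E1 * s ^ (2 * k - 1) * ∑ i ∈ Finset.Icc (a - c₀) a,
            s * ∫ x, ‖iF (cut (sh a) G) x‖ * ‖iF (cut (sh i) G) x‖ * M x ^ k := by
            gcongr with i _
            exact b12 i
        _ = (E1 * s ^ (2 * k - 1) * s) * ∑ i ∈ Finset.Icc (a - c₀) a,
            ∫ x, ‖iF (cut (sh a) G) x‖ * ‖iF (cut (sh i) G) x‖ * M x ^ k := by
            rw [← Finset.mul_sum]; ring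
        _ ≤ _ := by
            gcongr
            · exact Finset.sum_nonneg fun i _ => p1 i
            · have h1 : 0 ≤ E1 * s ^ (2 * k - 1) := by positivity
              have h2 : 0 ≤ E1 * s ^ (2 * k) := by positivity
              linarith
    · -- case `d < c₀`
      rw [eDf]
      have hint : Integrable (fun x => E1 * s ^ (2 * k) * ∑ i ∈ Finset.Icc (a - c₀) a,
          ‖iF (cut (sh a) G) x‖ * ‖iF (cut (sh i) G) x‖ * M x ^ k) :=
        (integrable_finsetSum _ fun i _ => i1 i).const_mul _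
      have h := concl iDf (vE.const_mul (2 * ((k : ℝ) + 1))) hint (by
        rw [integral_const_mul, vE0]
        simp) (fun x => ?_)
      · refine h.trans ?_
        rw [integral_const_mul, integral_finsetSum _ fun i _ => i1 i]
        gcongr
        · exact Finset.sum_nonneg fun i _ => p1 i
        · have h1 : 0 ≤ E1 * s ^ (2 * k - 1) := by positivity
          have h2 : 0 ≤ E1 * s ^ (2 * k - 1) * s := by positivity
          linarith
      · have h1 := q3 x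
        have h2 := (p2 (iF (cut (lo (a - c₀)) G) x) (iF (cut (bd (a - c₀) a) G) x)
          0 (Z x) (zlo _ _) (zbd _ _ _) (by simpa using hZ0 x)).1
        have h3 := (p2 0 (iF (cut (bd (a - d) a) G) x)
          0 (Z x) (by simpa using hZ0 x) (zbd _ _ _) (by simpa using hZ0 x)).1
        have e2 : iF (cut (lo (a - c₀)) G) x + iF (cut (bd (a - c₀) a) G) x
            = iF (cut (lo a) G) x := TopAux.lo_bd hB hF hG _ _ x
        rw [e2] at h2
        have e3 : psi k 0 = 0 := by unfold psi; simp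
        rw [zero_add, e3, sub_zero] at h3
        have hH := norm_nonneg (iF (cut (sh a) G) x)
        have hA := norm_nonneg (iF (cut (lo (a - d)) G) x)
        have hAZ := zlo (a - d) x
        have hSa' := hSa x
        have hSh := hSb (a - c₀) a le_rfl (by omega) (by omega) x
        have hSB := hSb (a - d) a (by omega) (by omega) (by omega) x
        have hZx := hZ0 x
        have hSx := hS0 x
        have eS : E1 * s ^ (2 * k) * ∑ i ∈ Finset.Icc (a - c₀) a,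
            ‖iF (cut (sh a) G) x‖ * ‖iF (cut (sh i) G) x‖ * M x ^ k = E1 * (
              ‖iF (cut (sh a) G) x‖ * S x * Z x ^ (2 * k)) := by
          rw [← Finset.sum_mul, ← Finset.mul_sum, hS]
          simp only [hZ]
          rw [mul_pow, hsM2]
          ring
        rw [eS]
        have hZk' := hZk x
        generalize iF (cut (sh a) G) x = H at *
        generalize iF (cut (lo (a - d)) G) x = A at *
        generalize iF (cut (lo a) G) x = W at *
        generalize iF (cut (bd (a - d) a) G) x = B at *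
        generalize iF (cut (lo (a - c₀)) G) x = Wl at *
        generalize iF (cut (bd (a - c₀) a) G) x = Wh at *
        have h5 : |2 * ((k : ℝ) + 1) * ((psi k W - psi k B) * starRingEnd ℂ H).re -
            2 * ((k : ℝ) + 1) * (psi k Wl * starRingEnd ℂ H).re|
            ≤ 2 * ((k : ℝ) + 1) * ((C2 * ‖Wh‖ * Z x ^ (2 * k) + C2 * ‖B‖ * Z x ^ (2 * k)) * ‖H‖) := by
          have e4 : 2 * ((k : ℝ) + 1) * ((psi k W - psi k B) * starRingEnd ℂ H).re -
            2 * ((k : ℝ) + 1) * (psi k Wl * starRingEnd ℂ H).re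
            = 2 * ((k : ℝ) + 1) * ((psi k W - psi k Wl - psi k B) * starRingEnd ℂ H).re := by
            rw [← mul_sub, ← Complex.sub_re]
            congr 2
            ring
          rw [e4, abs_mul, abs_of_pos (by positivity : (0 : ℝ) < 2 * ((k : ℝ) + 1))]
          gcongr
          refine (Complex.abs_re_le_norm _).trans ?_
          rw [norm_mul, RCLike.norm_conj]
          gcongr
          refine (norm_sub_le _ _).trans ?_
          linarith
        have h4 : |Df x - 2 * ((k : ℝ) + 1) * (psi k Wl * starRingEnd ℂ H).re| ≤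
            C3 * ‖A‖ * ‖H‖ ^ 2 * Z x ^ (2 * k - 1)
              + 2 * ((k : ℝ) + 1) * ((C2 * ‖Wh‖ * Z x ^ (2 * k) + C2 * ‖B‖ * Z x ^ (2 * k)) * ‖H‖) := by
          have := abs_add_le (Df x - 2 * ((k : ℝ) + 1) * ((psi k W - psi k B) * starRingEnd ℂ H).re)
            (2 * ((k : ℝ) + 1) * ((psi k W - psi k B) * starRingEnd ℂ H).re -
            2 * ((k : ℝ) + 1) * (psi k Wl * starRingEnd ℂ H).re)
          rw [sub_add_sub_cancel] at this
          linarith
        refine h4.trans ?_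
        calc C3 * ‖A‖ * ‖H‖ ^ 2 * Z x ^ (2 * k - 1)
              + 2 * ((k : ℝ) + 1) * ((C2 * ‖Wh‖ * Z x ^ (2 * k) + C2 * ‖B‖ * Z x ^ (2 * k)) * ‖H‖)
            ≤ C3 * Z x * (‖H‖ * S x) * Z x ^ (2 * k - 1)
              + 2 * ((k : ℝ) + 1) * ((C2 * S x * Z x ^ (2 * k) + C2 * S x * Z x ^ (2 * k)) * ‖H‖) := by
              have hh : ‖H‖ ^ 2 ≤ ‖H‖ * S x := by
                rw [sq]
                gcongr
              gcongr
          _ = C3 * (Z x * Z x ^ (2 * k - 1)) * (‖H‖ * S x)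
              + 4 * ((k : ℝ) + 1) * C2 * (‖H‖ * S x) * Z x ^ (2 * k) := by ring
          _ = _ := by rw [hZk', hE1]; ring
  · intro hd
    refine (second hd).trans (mul_le_mul_of_nonneg_right ?_
      (Finset.sum_nonneg fun i _ => p2' i))
    have h1 : 0 ≤ E1 * s ^ (2 * k - 1) * s := by positivity
    have h2 : 0 ≤ E1 * s ^ (2 * k) := by positivity
    linarith

end Pool.Agent.Lib.MP_dd244f_an.Even
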