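import Pool.Agent.Lib.MP_dd244f_an.Joint.All
import Pool.Agent.Lib.MP_dd244f_an.Four.All
import Pool.Agent.Lib.MP_dd244f_an.Even.HL
import Pool.Agent.Lib.MP_dd244f_an.Even.DDK
import Pool.Agent.Lib.MP_dd244f_an.Even.MaxK
import Pool.Agent.Lib.MP_dd244f_an.Even.DomF
import Pool.Agent.Lib.MP_dd244f_an.Even.LPm
import Pool.Agent.Lib.MP_dd244f_an.Even.ShK
import Pool.Agent.Lib.MP_dd244f_an.Even.KKP
import Pool.Agent.Lib.MP_dd244f_an.Even.AprK
import Pool.Agent.Lib.MP_dd244f_an.Even.Dec2
import Pool.Agent.Lib.MP_dd244f_an.Even.RT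
import Pool.Agent.Lib.MP_dd244f_an.Even.Dens
import Pool.Agent.Lib.MP_dd244f_an.Even.QEnd
import Pool.Agent.Lib.MP_dd244f_an.Even.QInt
import Pool.Agent.Lib.MP_dd244f_an.Even.Poly
import Pool.Agent.Lib.MP_dd244f_an.Even.TopK
import Pool.Agent.Lib.MP_dd244f_an.Even.AvgK
import Pool.Agent.Lib.MP_dd244f_an.Even.BdryK
import Pool.Agent.Lib.MP_dd244f_an.Even.HLPK
import Pool.Agent.Lib.MP_dd244f_an.Even.CV
import Pool.Agent.Lib.MP_dd244f_an.Even.CV2
import Pool.Agent.Lib.MP_dd244f_an.Even.PSK
import Pool.Agent.Lib.MP_dd244f_an.Even.SynK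
import Pool.Agent.Lib.MP_dd244f_an.Even.HoldK
import Pool.Agent.Lib.MP_dd244f_an.Even.CGK
import Pool.Agent.Lib.MP_dd244f_an.Even.ChirpK
import Pool.Agent.Lib.MP_dd244f_an.Even.EIK
import Pool.Agent.Lib.MP_dd244f_an.Even.EIJK
import Pool.Agent.Lib.MP_dd244f_an.Even.MPt
import Pool.Agent.Lib.MP_dd244f_an.Even.GTK
import Pool.Agent.Lib.MP_dd244f_an.Even.OneSh
import Pool.Agent.Lib.MP_dd244f_an.Even.TailHK
import Pool.Agent.Lib.MP_dd244f_an.Even.TailLK
import Pool.Agent.Lib.MP_dd244f_an.Even.TailK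
import Pool.Agent.Lib.MP_dd244f_an.Even.ErrK
import Pool.Agent.Lib.MP_dd244f_an.Even.ErrLK
import Pool.Agent.Lib.MP_dd244f_an.Even.Blk1K
import Pool.Agent.Lib.MP_dd244f_an.Even.BlkAvgK
import Pool.Agent.Lib.MP_dd244f_an.Even.BlockK
import Pool.Agent.Lib.MP_dd244f_an.Even.MainK
import Pool.Agent.Lib.MP_dd244f_an.Even.RatioK
import Pool.Agent.Lib.MP_dd244f_an.Even.FinalK
import Pool.Agent.Lib.MP_dd244f_an.Even.FinalE

/-!
Full operator, even `p`, `n → ∞`: the modules put together.
-/

set_option autoImplicit false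

namespace Pool.Agent.Lib.MP_dd244f_an.Even

open Pool.Agent.Lib.MP_dd244f_an

theorem all_ddk : StmtDDK := ddk hl
theorem all_maxK : StmtMaxK := maxK hl Four.kk Four.base
theorem all_domF : StmtDomF := domF Four.kk Four.all_lpk Four.base Four.fac
theorem all_lpm : StmtLPm := lpm Four.fac Four.base
theorem all_shK : StmtShK := shK all_lpm all_ddk all_maxK Four.all_locL2 Four.kk Four.base Four.fac
theorem all_sqK : StmtSqK := sqK all_lpm all_ddk all_maxK Four.all_locL2 Four.kk Four.base Four.fac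
theorem all_kkp : StmtKKP := kkp Four.kk Four.base
theorem all_aprK : StmtAprK := aprK ratioK Four.fac
theorem all_dec2 : StmtDec2 :=
  dec2 Four.all_r Four.all_pp Four.all_apr Four.all_max Four.base Four.fac
theorem all_dens : StmtDens := dens Four.base Four.l2 Four.fac
theorem all_qEnd : StmtQEnd := qEnd all_aprK all_shK all_maxK all_domF Four.fac
theorem all_cv : StmtCV := cvc Four.base
theorem all_cv2 : StmtCV2 := cv2 all_cv Four.base
theorem all_topK : StmtTopK := topK poly all_domF all_cv Four.base Four.fac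
theorem all_bdryK : StmtBdryK := bdryK Four.base Four.fac
theorem all_hlpK : StmtHLPK := hlpK Four.l2
theorem all_psK : StmtPSK := psK all_cv all_cv2 Four.base
theorem all_synK : StmtSynK := synK all_hlpK all_psK all_cv2 Four.base
theorem all_holdK : StmtHoldK := holdK all_psK Four.base
theorem all_chirpK : StmtChirpK := chirpK cgK all_holdK all_cv all_cv2
theorem all_eiK : StmtEIK := eiK all_chirpK all_cv all_cv2 all_psK Four.base
theorem all_eijK : StmtEIJK := eijK all_eiK all_cv2
theorem all_mPt : StmtMPt := mPt all_cv all_cv2 Four.base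
theorem all_gtK : StmtGTK := gtK all_mPt Four.lapc
theorem all_oneSh : StmtOneSh := oneSh all_gtK all_domF all_sqK Four.kk Four.base Four.fac
theorem all_tailHK : StmtTailHK := tailHK all_oneSh all_cv all_cv2 all_maxK all_sqK Four.fac
theorem all_tailLK : StmtTailLK := tailLK all_oneSh all_cv all_cv2 all_maxK all_sqK Four.fac
theorem all_tailK : StmtTailK := tailK all_tailHK all_tailLK all_cv2 Four.fac
theorem all_errK : StmtErrK := errK Four.lapc Four.all_mm Four.all_mm2 Four.fac
theorem all_errLK : StmtErrLK := errLK Four.lapc Four.all_mm Four.fac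
theorem all_blk1K : StmtBlk1K :=
  blk1K all_errK all_errLK all_mPt all_kkp all_cv all_cv2 Four.fac Four.base

theorem all_qInt : StmtQInt := qInt rt all_dec2 all_qEnd all_dens Four.base Four.fac
theorem all_avgK : StmtAvgK := avgK all_topK all_qInt all_shK all_maxK all_aprK Four.fac
theorem all_blkAvgK : StmtBlkAvgK := blkAvgK all_chirpK all_eiK all_cv all_cv2 Four.fac Four.base
theorem all_blockK : StmtBlockK := blockK all_synK all_blk1K all_blkAvgK all_cv2 Four.fac
theorem all_mainK : StmtMainK :=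
  mainK all_avgK all_aprK all_shK all_blockK all_eijK all_tailK all_bdryK Four.shift
    all_cv2 Four.fac Four.base
theorem all_finalK : StmtFinalK := finalK all_mainK ratioK Four.base Four.fac Four.l2
theorem all_finalE : StmtFinalE := finalE all_finalK Joint.all_final1

end Pool.Agent.Lib.MP_dd244f_an.Even
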