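import Pool.Agent.Lib.MP_dd244f_an.Even.Stmts

/-!
Full operator, even `p`: common lemmas on the averages `av` (used by MaxK, DomF, KKP).
-/

set_option autoImplicit false

namespace Pool.Agent.Lib.MP_dd244f_an.Even.AvAux

open MeasureTheory Filter Topology
open Pool.Agent.Lib.MP_dd244f_an.Four
open scoped ENNReal NNReal

theorem kk_nonneg (ρ : ℝ) (x : ℂ) : 0 ≤ KK ρ x := by unfold KK; positivity

theorem kk_cont {ρ : ℝ} (hρ : 0 < ρ) : Continuous (KK ρ) := by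
  unfold KK
  refine Continuous.div (by fun_prop) (by fun_prop) (fun x => ?_)
  positivity

theorem kk_neg (ρ : ℝ) (x : ℂ) : KK ρ (-x) = KK ρ x := by
  unfold KK; rw [norm_neg]

theorem kk_lint (hK : StmtKK) {ρ : ℝ} (hρ : 0 < ρ) (x : ℂ) :
    ∫⁻ y, ENNReal.ofReal (KK ρ (x - y)) = ENNReal.ofReal Real.pi := by
  rw [lintegral_sub_left_eq_self (fun y => ENNReal.ofReal (KK ρ y)) x,
    ← ofReal_integral_eq_lintegral_ofReal (hK.1 ρ hρ).1
      (Eventually.of_forall fun y => kk_nonneg ρ y), (hK.1 ρ hρ).2.1]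

theorem kk_lint' (hK : StmtKK) {ρ : ℝ} (hρ : 0 < ρ) (y : ℂ) :
    ∫⁻ x, ENNReal.ofReal (KK ρ (x - y)) = ENNReal.ofReal Real.pi := by
  rw [lintegral_sub_right_eq_self (fun y => ENNReal.ofReal (KK ρ y)) y,
    ← ofReal_integral_eq_lintegral_ofReal (hK.1 ρ hρ).1
      (Eventually.of_forall fun y => kk_nonneg ρ y), (hK.1 ρ hρ).2.1]

theorem kk_mul_int (hK : StmtKK) {ρ : ℝ} (hρ : 0 < ρ) {φ : ℂ → ℝ} (hi : Integrable φ) (x : ℂ) :
    Integrable (fun y => KK ρ (x - y) * φ y) := by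
  refine hi.bdd_mul (c := 1 / ρ ^ 2) ?_ (Eventually.of_forall fun y => ?_)
  · exact ((kk_cont hρ).comp (by fun_prop : Continuous fun y : ℂ => x - y)).aestronglyMeasurable
  · rw [Real.norm_eq_abs, abs_of_nonneg (kk_nonneg _ _)]
    exact ((hK.1 ρ hρ).2.2 _).2

theorem of_av (hK : StmtKK) {ρ : ℝ} (hρ : 0 < ρ) {φ : ℂ → ℝ} (hi : Integrable φ)
    (h0 : ∀ y, 0 ≤ φ y) (x : ℂ) :
    ENNReal.ofReal (∫ y, KK ρ (x - y) * φ y)
      = ∫⁻ y, ENNReal.ofReal (KK ρ (x - y)) * ENNReal.ofReal (φ y) := by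
  rw [ofReal_integral_eq_lintegral_ofReal (kk_mul_int hK hρ hi x)
    (Eventually.of_forall fun y => mul_nonneg (kk_nonneg _ _) (h0 y))]
  exact lintegral_congr fun y => ENNReal.ofReal_mul (kk_nonneg _ _)

theorem sq_int (hB : StmtBase) {g : ℂ → ℂ} (hg : CC g) : Integrable (fun x => ‖iF g x‖ ^ 2) :=
  (hB.1 g hg).2.2.1

theorem pow_int (hB : StmtBase) {g : ℂ → ℂ} (hg : CC g) (k : ℕ) :
    Integrable (fun x => ‖iF g x‖ ^ (2 * (k + 1))) := by
  obtain ⟨hc, ⟨B, hb⟩, hi, -, -⟩ := hB.1 g hg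
  have h1 : Integrable (fun x => ‖iF g x‖ ^ (2 * k) * ‖iF g x‖ ^ 2) := by
    refine hi.bdd_mul (c := B ^ (2 * k)) ?_ (Eventually.of_forall fun y => ?_)
    · exact (hc.norm.pow _).aestronglyMeasurable
    · rw [Real.norm_eq_abs, abs_of_nonneg (by positivity)]
      exact pow_le_pow_left₀ (norm_nonneg _) (hb y) _
  refine h1.congr (Eventually.of_forall fun x => ?_)
  simp only
  rw [← pow_add]
  congr 1

theorem of_NK (hB : StmtBase) {g : ℂ → ℂ} (hg : CC g) (k : ℕ) :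
    ENNReal.ofReal (NK (k + 1) g) = ∫⁻ x, ENNReal.ofReal (‖iF g x‖ ^ 2) ^ (k + 1) := by
  unfold NK
  rw [ofReal_integral_eq_lintegral_ofReal (pow_int hB hg k)
    (Eventually.of_forall fun y => by positivity)]
  refine lintegral_congr fun x => ?_
  rw [← ENNReal.ofReal_pow (by positivity), ← pow_mul]

theorem NK_nonneg (k : ℕ) (g : ℂ → ℂ) : 0 ≤ NK k g := integral_nonneg fun _ => by positivity

theorem kk_meas2 {ρ : ℝ} (hρ : 0 < ρ) :
    Measurable (fun z : ℂ × ℂ => ENNReal.ofReal (KK ρ (z.1 - z.2))) :=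
  (ENNReal.continuous_ofReal.comp ((kk_cont hρ).comp
    (by fun_prop : Continuous fun z : ℂ × ℂ => z.1 - z.2))).measurable

theorem kk_meas {ρ : ℝ} (hρ : 0 < ρ) (x : ℂ) :
    Measurable (fun y : ℂ => ENNReal.ofReal (KK ρ (x - y))) :=
  (ENNReal.continuous_ofReal.comp ((kk_cont hρ).comp
    (by fun_prop : Continuous fun y : ℂ => x - y))).measurable

theorem kk_meas' {ρ : ℝ} (hρ : 0 < ρ) (y : ℂ) :
    Measurable (fun x : ℂ => ENNReal.ofReal (KK ρ (x - y))) :=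
  (ENNReal.continuous_ofReal.comp ((kk_cont hρ).comp
    (by fun_prop : Continuous fun x : ℂ => x - y))).measurable

theorem av_meas {ρ : ℝ} (hρ : 0 < ρ) {φ : ℂ → ℝ≥0∞} (hφ : Measurable φ) :
    Measurable (fun x => ∫⁻ y, ENNReal.ofReal (KK ρ (x - y)) * φ y) :=
  Measurable.lintegral_prod_right' (f := fun z : ℂ × ℂ =>
    ENNReal.ofReal (KK ρ (z.1 - z.2)) * φ z.2) ((kk_meas2 hρ).mul (hφ.comp measurable_snd))

/-- Tonelli for the averages -/
theorem av_lint (hK : StmtKK) {ρ : ℝ} (hρ : 0 < ρ) {φ : ℂ → ℝ≥0∞} (hφ : Measurable φ) :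
    ∫⁻ x, ∫⁻ y, ENNReal.ofReal (KK ρ (x - y)) * φ y = ENNReal.ofReal Real.pi * ∫⁻ y, φ y := by
  rw [lintegral_lintegral_swap]
  · rw [← lintegral_const_mul _ hφ]
    refine lintegral_congr fun y => ?_
    rw [lintegral_mul_const _ (kk_meas' hρ y), kk_lint' hK hρ]
  · exact ((kk_meas2 hρ).mul (hφ.comp measurable_snd)).aemeasurable

end Pool.Agent.Lib.MP_dd244f_an.Even.AvAux
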