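import Pool.Agent.Lib.MP_dd244f_an.Four.Basic

/-!
Full operator, even `p = 2 (k + 1)`, `n → ∞`: definitions.
See the blueprint `dd244f_even_blueprint.md` in the team store.
-/

set_option autoImplicit false

namespace Pool.Agent.Lib.MP_dd244f_an.Even

open MeasureTheory Filter Topology
open Pool.Agent.Lib.MP_dd244f_an.Joint (st ct Mst ratio)
open Pool.Agent.Lib.MP_dd244f_an.Four

/-- the `2 K`-th power of the `L^{2 K}` norm of `iF g` -/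
noncomputable def NK (K : ℕ) (g : ℂ → ℂ) : ℝ := ∫ x, ‖iF g x‖ ^ (2 * K)

/-- convolution of the `k + 1` functions `u 0, …, u k` -/
noncomputable def cv : ℕ → (ℕ → ℂ → ℂ) → ℂ → ℂ
  | 0, u => u 0
  | k + 1, u => bil (fun _ => 1) (u (k + 1)) (cv k u)

/-- multilinear form with the product symbol `∏ a_j (ζ_j - θ / (k + 1))` -/
noncomputable def MF (k : ℕ) (a g : ℕ → ℂ → ℂ) (θ : ℂ) : ℂ :=
  cv k (fun j ζ => a j (ζ - θ / (k + 1)) * g j ζ) θ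

/-- Gaussian -/
noncomputable def ga (σ : ℝ) (δ : ℂ) : ℂ := (Real.exp (-(Real.pi * σ ^ 2 * ‖δ‖ ^ 2)) : ℂ)

/-- multilinear Gaussian averages -/
noncomputable def AK (k : ℕ) (σ : ℝ) (g : ℕ → ℂ → ℂ) (θ : ℂ) : ℂ := MF k (fun _ => ga σ) g θ

/-- the weight of the phase space identity -/
noncomputable def wk (k : ℕ) (σ : ℝ) (ξ θ : ℂ) : ℝ :=
  Real.exp (-(2 * Real.pi * σ ^ 2 * (k + 1) * ‖θ / (k + 1) - ξ‖ ^ 2))

/-- average of a function at scale `2 ^ (-a)` -/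
noncomputable def av (a : ℤ) (φ : ℂ → ℝ) (x : ℂ) : ℝ := ∫ y, KK ((2 : ℝ) ^ (-a)) (x - y) * φ y

/-- `M` dominates all dyadic averages of `|iF g| ^ 2` -/
def Dom (g : ℂ → ℂ) (M : ℂ → ℝ) : Prop :=
  Measurable M ∧ (∀ x, 0 ≤ M x) ∧ ∀ (a : ℤ) (x : ℂ), av a (fun y => ‖iF g y‖ ^ 2) x ≤ M x

/-- kernel with faster decay -/
noncomputable def KKm (m : ℕ) (ρ : ℝ) (x : ℂ) : ℝ := ρ ^ (2 * m - 2) / (ρ ^ 2 + ‖x‖ ^ 2) ^ m

/-- `Γ(1/p)/Γ(1-1/p)`, `p = 2 (k + 1)` -/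
noncomputable def gamK (k : ℕ) : ℝ :=
  Real.Gamma (1 / (2 * ((k : ℝ) + 1))) / Real.Gamma (1 - 1 / (2 * ((k : ℝ) + 1)))

/-- the sharp constant of the Hardy-Littlewood-Paley inequality -/
noncomputable def CH (k : ℕ) : ℝ := Real.pi ^ (2 * k) * gamK k ^ (2 * k + 2)

/-- the frequencies of the block `[s, s + L)` -/
def JK (k : ℕ) (s : ℤ) (L m : ℕ) : Set ℂ :=
  {θ | (2 : ℝ) ^ (s + m) ≤ ‖θ‖ ∧ ‖θ‖ ≤ (k + 1) * (2 : ℝ) ^ (s + L - m + 1)}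

/-- the interaction of the shell `a` with everything below `a - d` -/
noncomputable def DK (k : ℕ) (a : ℤ) (d : ℕ) (G : ℂ → ℂ) : ℝ :=
  (NK (k + 1) (cut (lo (a + 1)) G) - NK (k + 1) (cut (lo a) G))
    - (NK (k + 1) (cut (bd (a - d) (a + 1)) G) - NK (k + 1) (cut (bd (a - d) a) G))

/-- the chirped Gaussian (one factor) -/
noncomputable def csK (k n : ℕ) (r : ℝ) (q δ : ℂ) : ℂ :=
  Complex.exp ((-(Real.pi * r ^ 2 * ‖δ‖ ^ 2) : ℝ)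
    + Complex.I * (n * ((k : ℝ) + 1) ^ 2 / ‖q‖ ^ 2 * (δ ^ 2 * (‖q‖ / q) ^ 2).im : ℝ))

/-- the actual symbol (one factor), without its linear phase -/
noncomputable def smK (k n : ℕ) (r : ℝ) (s : ℤ) (L m : ℕ) (θ δ : ℂ) : ℂ :=
  ((Real.exp (-(Real.pi * r ^ 2 * ‖δ‖ ^ 2)) * bd (s + m) (s + L - m) (θ / (k + 1) + δ) : ℝ) : ℂ)
    * (mm n (θ / (k + 1) + δ) / mm n (θ / (k + 1)))
    * Complex.exp (Complex.I * (2 * n * ((k + 1) * δ / θ).im : ℝ))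

/-- the model symbol (one factor) -/
noncomputable def scK (k n : ℕ) (r : ℝ) (s : ℤ) (L m : ℕ) (θ q δ : ℂ) : ℂ :=
  ((bd (s - 1) (s + L + 1) (θ / (k + 1) + δ) * bd (s + m) (s + L - m) (q / (k + 1)) : ℝ) : ℂ)
    * csK k n r q δ

/-- the symbol at low total frequency (one factor) -/
noncomputable def slK (k n : ℕ) (r : ℝ) (s : ℤ) (L m : ℕ) (θ δ : ℂ) : ℂ :=
  ((Real.exp (-(Real.pi * r ^ 2 * ‖δ‖ ^ 2)) * bd (s + m) (s + L - m) (θ / (k + 1) + δ) : ℝ) : ℂ)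
    * mm n (θ / (k + 1) + δ)

/-- size of a symbol and its Laplacian -/
def SyB (r B : ℝ) (a : ℂ → ℂ) : Prop := ContDiff ℝ 2 a ∧ HasCompactSupport a ∧
  ∀ δ, ‖a δ‖ ≤ B * Real.exp (-(r ^ 2 * ‖δ‖ ^ 2)) ∧
    ‖lap a δ‖ ≤ B * r ^ 2 * Real.exp (-(r ^ 2 * ‖δ‖ ^ 2))

end Pool.Agent.Lib.MP_dd244f_an.Even
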