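import Pool.Agent.Lib.MP_dd244f_an.Even.Stmts
import Pool.Agent.Lib.MP_dd244f_an.Four.Err

/-!
(ErrK) the one-variable symbols: phases and jets.
-/

set_option autoImplicit false

namespace Pool.Agent.Lib.MP_dd244f_an.Even

open MeasureTheory Filter Topology
open Pool.Agent.Lib.MP_dd244f_an.Four
open Pool.Agent.Lib.MP_dd244f_an.Four.ErrM

namespace ErrKM

lemma mm_mul (n : ℕ) (a b : ℂ) : mm n (a * b) = mm n a * mm n b := by
  unfold mm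
  rw [map_mul, mul_div_mul_comm, mul_pow]

lemma mm_norm (n : ℕ) {a : ℂ} (ha : a ≠ 0) : ‖mm n a‖ = 1 := by
  unfold mm
  rw [norm_pow, norm_div, RCLike.norm_conj, div_self (norm_ne_zero_iff.2 ha), one_pow]

lemma mm_ne (n : ℕ) {a : ℂ} (ha : a ≠ 0) : mm n a ≠ 0 := by
  rw [← norm_ne_zero_iff, mm_norm n ha]
  exact one_ne_zero

lemma mm_exp (n : ℕ) {w : ℂ} (hw : w ≠ 0) :
    mm n w = Complex.exp (Complex.I * (((-(2 * n) * Complex.log w : ℂ)).im : ℂ)) := by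
  have h1 : ((-(2 * n) * Complex.log w : ℂ)).im = -(2 * n) * w.arg := by
    have : (-(2 * n) * Complex.log w : ℂ) = ((-(2 * n) : ℝ) : ℂ) * Complex.log w := by
      push_cast
      ring
    rw [this, Complex.im_ofReal_mul, Complex.log_im]
  rw [h1]
  have h2 : starRingEnd ℂ w / w = Complex.exp (Complex.I * ((-2 * w.arg : ℝ) : ℂ)) := by
    have hn : (‖w‖ : ℂ) ≠ 0 := by exact_mod_cast (norm_ne_zero_iff.2 hw)
    have h3 := Complex.norm_mul_exp_arg_mul_I w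
    have h4 : starRingEnd ℂ w = ‖w‖ * Complex.exp (-(w.arg * Complex.I)) := by
      conv_lhs => rw [← h3]
      rw [map_mul, Complex.conj_ofReal, ← Complex.exp_conj, map_mul, Complex.conj_ofReal,
        Complex.conj_I, mul_neg]
    rw [div_eq_iff hw, h4]
    have h5 : Complex.exp (Complex.I * ((-2 * w.arg : ℝ) : ℂ)) *
        (‖w‖ * Complex.exp (w.arg * Complex.I)) = ‖w‖ * Complex.exp (-(w.arg * Complex.I)) := by
      rw [mul_left_comm, ← Complex.exp_add]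
      congr 2
      push_cast
      ring
    rw [h3] at h5
    exact h5.symm
  unfold mm
  rw [h2, ← Complex.exp_nat_mul]
  congr 1
  push_cast
  ring

/-- the normalised symbol without its linear phase -/
noncomputable def Pk (n : ℕ) (φ z : ℂ) : ℂ :=
  (mm n (φ + z) / mm n φ) * Complex.exp (Complex.I * ((2 * n * (z / φ).im : ℝ) : ℂ))

/-- the chirp -/
noncomputable def Gk (n : ℕ) (ψ z : ℂ) : ℂ :=
  Complex.exp (Complex.I * (((n * z ^ 2 / ψ ^ 2 : ℂ)).im : ℂ))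

/-- the Gaussian -/
noncomputable def Gs1 (r : ℝ) (z : ℂ) : ℂ :=
  ((Real.exp (-(Real.pi * r ^ 2 * ‖z‖ ^ 2)) : ℝ) : ℂ)

lemma kc_ne (k : ℕ) : ((k : ℂ) + 1) ≠ 0 := by
  have : ((k + 1 : ℕ) : ℂ) ≠ 0 := Nat.cast_ne_zero.2 (Nat.succ_ne_zero k)
  simpa using this

lemma csK_eq (k n : ℕ) (r : ℝ) {q : ℂ} (hq : q ≠ 0) (z : ℂ) :
    csK k n r q z = Gs1 r z * Gk n (q / (k + 1)) z := by
  unfold csK Gk Gs1
  rw [Complex.exp_add, Complex.ofReal_exp]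
  congr 3
  have hq' : (‖q‖ : ℂ) ≠ 0 := by
    exact_mod_cast (norm_ne_zero_iff.2 hq)
  have hk := kc_ne k
  have h1 : (n * z ^ 2 / (q / (k + 1)) ^ 2 : ℂ) =
      ((n * ((k : ℝ) + 1) ^ 2 / ‖q‖ ^ 2 : ℝ) : ℂ) * (z ^ 2 * (‖q‖ / q) ^ 2) := by
    push_cast
    field_simp
  rw [h1, Complex.im_ofReal_mul]

lemma smK_eq (k n : ℕ) (r : ℝ) (s : ℤ) (L m : ℕ) (θ : ℂ) :
    smK k n r s L m θ = fun z => Gs1 r z * ((bd (s + m) (s + L - m) (θ / (k + 1) + z) : ℂ) *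
      Pk n (θ / (k + 1)) z) := by
  funext z
  unfold smK Gs1 Pk
  have h1 : ((k : ℂ) + 1) * z / θ = z / (θ / (k + 1)) := by
    rw [div_div_eq_mul_div, mul_comm z]
  rw [h1]
  push_cast
  ring

lemma scK_eq (k n : ℕ) (r : ℝ) (s : ℤ) (L m : ℕ) (θ : ℂ) {q : ℂ} (hq : q ≠ 0) :
    scK k n r s L m θ q = fun z => Gs1 r z * ((bd (s - 1) (s + L + 1) (θ / (k + 1) + z) : ℂ) *
      ((bd (s + m) (s + L - m) (q / (k + 1)) : ℂ) * Gk n (q / (k + 1)) z)) := by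
  funext z
  unfold scK
  rw [csK_eq k n r hq]
  push_cast
  ring

variable {Λ τ r S : ℝ} {n : ℕ}

/-- the Gaussian -/
lemma JB_G1 (hL : StmtLap) (r0 : 0 < r) (δ : ℂ) :
    JB r (Gs1 r) δ (256 * (1 + (r * ‖δ‖) ^ 2) * Real.exp (-(Real.pi * (r * ‖δ‖) ^ 2))) := by
  have hpi := Real.pi_pos
  have hpi4 := Real.pi_le_four
  have h1 := J_gauss hL (r := Real.pi * r ^ 2) (by positivity) δ
  have he : Real.exp (-(Real.pi * r ^ 2 * ‖δ‖ ^ 2)) =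
      Real.exp (-(Real.pi * (r * ‖δ‖) ^ 2)) := by
    congr 1
    ring
  rw [he] at h1
  have hx0 : 0 ≤ r * ‖δ‖ := by positivity
  have e0 := (Real.exp_pos (-(Real.pi * (r * ‖δ‖) ^ 2))).le
  have e1 : 2 * (Real.pi * r ^ 2) * ‖δ‖ * Real.exp (-(Real.pi * (r * ‖δ‖) ^ 2)) =
      (2 * Real.pi * (r * ‖δ‖)) * Real.exp (-(Real.pi * (r * ‖δ‖) ^ 2)) * r := by
    ring
  have e2 : (4 * (Real.pi * r ^ 2) ^ 2 * ‖δ‖ ^ 2 + 4 * (Real.pi * r ^ 2)) *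
      Real.exp (-(Real.pi * (r * ‖δ‖) ^ 2)) =
      (4 * Real.pi ^ 2 * (r * ‖δ‖) ^ 2 + 4 * Real.pi) *
        Real.exp (-(Real.pi * (r * ‖δ‖) ^ 2)) * r ^ 2 := by
    ring
  rw [e1, e2] at h1
  generalize Real.exp (-(Real.pi * (r * ‖δ‖) ^ 2)) = e at h1 e0 ⊢
  generalize r * ‖δ‖ = x at h1 hx0 ⊢
  refine J.mono h1 ?_ ?_ ?_
  · nlinarith [mul_nonneg (sq_nonneg x) e0]
  · refine mul_le_mul_of_nonneg_right (mul_le_mul_of_nonneg_right ?_ e0) r0.le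
    nlinarith [sq_nonneg (x - 1), mul_le_mul_of_nonneg_right hpi4 hx0]
  · refine mul_le_mul_of_nonneg_right (mul_le_mul_of_nonneg_right ?_ e0) (sq_nonneg r)
    have h2 : Real.pi ^ 2 ≤ 16 := by nlinarith
    nlinarith [mul_le_mul_of_nonneg_right h2 (sq_nonneg x)]

lemma hasDeriv_H2 (n : ℕ) (ψ δ : ℂ) :
    HasDerivAt (fun z : ℂ => (n * z ^ 2 / ψ ^ 2 : ℂ)) (2 * n * δ / ψ ^ 2) δ := by
  have h := (((hasDerivAt_id δ).pow 2).const_mul (n : ℂ)).div_const (ψ ^ 2)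
  refine (h.congr_deriv ?_)
  simp
  ring

lemma an_H2 (n : ℕ) (ψ δ : ℂ) : AnalyticAt ℂ (fun z : ℂ => (n * z ^ 2 / ψ ^ 2 : ℂ)) δ := by
  have h : Differentiable ℂ (fun z : ℂ => (n * z ^ 2 / ψ ^ 2 : ℂ)) := fun z =>
    (hasDeriv_H2 n ψ z).differentiableAt
  exact h.analyticAt δ

lemma aux_le (Λ x : ℝ) (_ : 0 < Λ) (_ : 0 ≤ x) (r : ℝ) (hr : 0 ≤ r) :
    1 ≤ 256 * (1 + Λ ^ 2) * (1 + x ^ 2) ∧
    2 * Λ * x * r ≤ 256 * (1 + Λ ^ 2) * (1 + x ^ 2) * r ∧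
    (2 * Λ * x * r) ^ 2 ≤ 256 * (1 + Λ ^ 2) * (1 + x ^ 2) * r ^ 2 := by
  refine ⟨?_, ?_, ?_⟩
  · nlinarith [sq_nonneg x, sq_nonneg Λ, mul_nonneg (sq_nonneg x) (sq_nonneg Λ)]
  · refine mul_le_mul_of_nonneg_right ?_ hr
    nlinarith [sq_nonneg (Λ - x), sq_nonneg x, sq_nonneg Λ, mul_nonneg (sq_nonneg x) (sq_nonneg Λ)]
  · rw [mul_pow]
    refine mul_le_mul_of_nonneg_right ?_ (sq_nonneg r)
    nlinarith [sq_nonneg x, sq_nonneg Λ, mul_nonneg (sq_nonneg x) (sq_nonneg Λ)]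

/-- the chirp -/
lemma JB_Gk (hL : StmtLap) (h : P0 Λ τ r S n) {ψ : ℂ} (hψ : S ≤ ‖ψ‖) (δ : ℂ) :
    JB r (Gk n ψ) δ (256 * (1 + Λ ^ 2) * (1 + (r * ‖δ‖) ^ 2)) := by
  obtain ⟨r0, S0, Λ0, τ0, hn, hτ⟩ := h
  have h1 : J (Gk n ψ) δ 1 (2 * Λ * (r * ‖δ‖) * r) ((2 * Λ * (r * ‖δ‖) * r) ^ 2) := by
    refine J_exp hL (an_H2 n ψ δ) ?_
    rw [(hasDeriv_H2 n ψ δ).deriv, norm_div, norm_mul, norm_mul, norm_pow]
    have h1 : ‖(2 : ℂ)‖ = 2 := by simp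
    have h2 : ‖(n : ℂ)‖ = n := by simp
    rw [h1, h2, div_le_iff₀ (by nlinarith : (0 : ℝ) < ‖ψ‖ ^ 2), hn]
    have h3 : S ^ 2 ≤ ‖ψ‖ ^ 2 := pow_le_pow_left₀ S0.le hψ 2
    have h4 : 0 ≤ 2 * Λ * (r * ‖δ‖) * r := by positivity
    nlinarith [mul_le_mul_of_nonneg_left h3 h4]
  obtain ⟨a1, a2, a3⟩ := aux_le Λ (r * ‖δ‖) Λ0 (by positivity) r r0.le
  exact J.mono h1 a1 a2 a3

/-- the symbol -/
lemma JB_Pk (hL : StmtLap) (h : P0 Λ τ r S n) {φ δ : ℂ} (h1 : S ≤ ‖φ‖) (h2 : S ≤ ‖φ + δ‖) :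
    JB r (Pk n φ) δ (256 * (1 + Λ ^ 2) * (1 + (r * ‖δ‖) ^ 2)) := by
  obtain ⟨r0, S0, Λ0, τ0, hn, hτ⟩ := h
  have n1 : φ ≠ 0 := norm_pos_iff.1 (S0.trans_le h1)
  have n2 : φ + δ ≠ 0 := norm_pos_iff.1 (S0.trans_le h2)
  let H : ℂ → ℂ := fun z => -(2 * n) * Complex.log ((φ + z) / (φ + δ)) + 2 * n * (z / φ)
  have hone : (φ + δ) / (φ + δ) = 1 := div_self n2
  have hslit : (φ + δ) / (φ + δ) ∈ Complex.slitPlane := by
    rw [hone]
    exact Complex.one_mem_slitPlane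
  have hd0 : HasDerivAt (fun z : ℂ => (φ + z) / (φ + δ)) (1 / (φ + δ)) δ :=
    ((hasDerivAt_id δ).const_add φ).div_const _
  have hd : HasDerivAt H (-(2 * n) * (1 / (φ + δ) / ((φ + δ) / (φ + δ))) + 2 * n * (1 / φ)) δ :=
    ((hd0.clog hslit).const_mul _).add (((hasDerivAt_id δ).div_const φ).const_mul _)
  have ha : AnalyticAt ℂ H δ := by
    have a1 : AnalyticAt ℂ (fun z : ℂ => (φ + z) / (φ + δ)) δ := by
      have : Differentiable ℂ (fun z : ℂ => (φ + z) / (φ + δ)) := by fun_prop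
      exact this.analyticAt δ
    have a2 : AnalyticAt ℂ (fun z : ℂ => 2 * n * (z / φ)) δ := by
      have : Differentiable ℂ (fun z : ℂ => (2 * n : ℂ) * (z / φ)) := by fun_prop
      exact this.analyticAt δ
    exact (analyticAt_const.mul (a1.clog hslit)).add a2
  have hb : ‖deriv H δ‖ ≤ 2 * Λ * (r * ‖δ‖) * r := by
    rw [hd.deriv, hone, div_one]
    have e1 : -(2 * n : ℂ) * (1 / (φ + δ)) + 2 * n * (1 / φ) = 2 * n * δ / (φ * (φ + δ)) := by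
      field_simp
      ring
    rw [e1, norm_div, norm_mul, norm_mul, norm_mul]
    have e2 : ‖(2 : ℂ)‖ = 2 := by simp
    have e3 : ‖(n : ℂ)‖ = n := by simp
    have hp : S ^ 2 ≤ ‖φ‖ * ‖φ + δ‖ := by nlinarith
    have hS2 : 0 < S ^ 2 := by positivity
    rw [e2, e3, div_le_iff₀ (by linarith), hn]
    have h4 : 0 ≤ 2 * Λ * (r * ‖δ‖) * r := by positivity
    nlinarith [mul_le_mul_of_nonneg_left hp h4]
  have hJ := J_exp hL ha hb
  have hc : ‖mm n (φ + δ) / mm n φ‖ ≤ 1 := by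
    rw [norm_div, mm_norm n n1, mm_norm n n2]
    norm_num
  obtain ⟨a1, a2, a3⟩ := aux_le Λ (r * ‖δ‖) Λ0 (by positivity) r r0.le
  have hJ' : JB r (fun z => Complex.exp (Complex.I * ((H z).im : ℂ))) δ
      (256 * (1 + Λ ^ 2) * (1 + (r * ‖δ‖) ^ 2)) := J.mono hJ a1 a2 a3
  refine J.congr (JB.cmul r0.le hJ' hc) ?_
  have hev : ∀ᶠ z in 𝓝 δ, φ + z ≠ 0 :=
    (continuous_const.add continuous_id).continuousAt.eventually_ne n2
  filter_upwards [hev] with z hz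
  unfold Pk
  have e1 : mm n (φ + z) = mm n (φ + δ) * mm n ((φ + z) / (φ + δ)) := by
    rw [← mm_mul]
    congr 1
    field_simp
  rw [e1, mm_exp n (div_ne_zero hz n2)]
  have e2 : (H z).im = ((-(2 * n) * Complex.log ((φ + z) / (φ + δ)) : ℂ)).im +
      2 * n * (z / φ).im := by
    show (_ + _ : ℂ).im = _
    rw [Complex.add_im]
    congr 1
    have : (2 * n * (z / φ) : ℂ) = ((2 * n : ℝ) : ℂ) * (z / φ) := by push_cast; ring
    rw [this, Complex.im_ofReal_mul]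
  rw [e2]
  push_cast
  rw [mul_add, Complex.exp_add]
  ring

/-- the holomorphic phase of `Pk` -/
noncomputable def H1 (n : ℕ) (φ z : ℂ) : ℂ := -(2 * n) * (Complex.log (1 + z / φ) - z / φ)

lemma slit_of {h : ℂ} (hu : ‖h‖ ≤ 1 / 2) : 1 + h ∈ Complex.slitPlane := by
  rw [Complex.mem_slitPlane_iff]
  left
  have h1 := (Complex.abs_re_le_norm h).trans hu
  rw [abs_le] at h1
  rw [Complex.add_re, Complex.one_re]
  linarith [h1.1]

lemma hasDeriv_H1 (n : ℕ) {φ δ : ℂ} (hφ : φ ≠ 0) (hu : ‖δ / φ‖ ≤ 1 / 2) :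
    HasDerivAt (H1 n φ) (2 * n * δ / (φ ^ 2 * (1 + δ / φ))) δ := by
  have h0 : HasDerivAt (fun z : ℂ => 1 + z / φ) (1 / φ) δ :=
    ((hasDerivAt_id δ).div_const φ).const_add 1
  have hs := slit_of hu
  have h1 := ((h0.clog hs).sub ((hasDerivAt_id δ).div_const φ)).const_mul (-(2 * n) : ℂ)
  refine h1.congr_deriv ?_
  have hne := Complex.slitPlane_ne_zero hs
  have hne' : φ + δ ≠ 0 := by
    intro h2
    apply hne
    field_simp
    rw [h2, mul_zero]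
  field_simp
  ring

lemma an_H1 (n : ℕ) (φ : ℂ) {δ : ℂ} (hu : ‖δ / φ‖ ≤ 1 / 2) : AnalyticAt ℂ (H1 n φ) δ := by
  have h0 : AnalyticAt ℂ (fun z : ℂ => 1 + z / φ) δ := by
    have : Differentiable ℂ (fun z : ℂ => 1 + z / φ) := by fun_prop
    exact this.analyticAt δ
  have h1 : AnalyticAt ℂ (fun z : ℂ => z / φ) δ := by
    have : Differentiable ℂ (fun z : ℂ => z / φ) := by fun_prop
    exact this.analyticAt δ
  exact analyticAt_const.mul ((h0.clog (slit_of hu)).sub h1)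

/-- second order expansion of the logarithm -/
lemma log_bound {h : ℂ} (hu : ‖h‖ ≤ 1 / 2) : ‖Complex.log (1 + h) - h + h ^ 2 / 2‖ ≤ ‖h‖ ^ 3 := by
  have h1 := Complex.norm_log_sub_logTaylor_le 2 (z := h) (by linarith)
  have h2 : Complex.logTaylor (2 + 1) h = h - h ^ 2 / 2 := by
    simp [Complex.logTaylor_succ, Complex.logTaylor_zero]
    ring
  rw [h2] at h1
  have h3 : Complex.log (1 + h) - (h - h ^ 2 / 2) = Complex.log (1 + h) - h + h ^ 2 / 2 := by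
    ring
  rw [h3] at h1
  refine h1.trans ?_
  have h4 : (1 - ‖h‖)⁻¹ ≤ 2 := by
    rw [inv_le_comm₀ (by linarith) two_pos]
    linarith
  have h5 : 0 ≤ ‖h‖ ^ 3 := by positivity
  have h6 := mul_le_mul_of_nonneg_left h4 h5
  norm_num
  linarith

/-- the difference of the phases -/
lemma phase (h : P0 Λ τ r S n) {φ ψ δ : ℂ} {η X0 : ℝ} (hφ : 16 * S ≤ ‖φ‖) (hη : 0 < η)
    (hη1 : η < 1) (hψ : ‖ψ - φ‖ ≤ η * S) (hX : 1 ≤ X0) (hx : r * ‖δ‖ ≤ X0) (hτ1 : X0 * τ ≤ 1) :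
    ‖δ / φ‖ ≤ 1 / 2 ∧
    ‖H1 n φ δ - n * δ ^ 2 / ψ ^ 2‖ ≤ 32 * Λ * X0 ^ 4 * (τ + η) ∧
    ‖2 * n * δ / (φ ^ 2 * (1 + δ / φ)) - 2 * n * δ / ψ ^ 2‖
      ≤ 32 * Λ * X0 ^ 4 * (τ + η) * r := by
  obtain ⟨r0, S0, Λ0, τ0, hn, hτ⟩ := h
  obtain ⟨x, hxd⟩ : ∃ x, x = r * ‖δ‖ := ⟨_, rfl⟩
  rw [← hxd] at hx
  have hx0 : 0 ≤ x := by rw [hxd]; positivity
  have hφ0 : φ ≠ 0 := norm_pos_iff.1 (lt_of_lt_of_le (by positivity) hφ)
  have hψS : 15 * S ≤ ‖ψ‖ := by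
    have h1 := norm_sub_norm_le φ ψ
    rw [norm_sub_rev] at h1
    nlinarith
  have hψ0 : ψ ≠ 0 := norm_pos_iff.1 (lt_of_lt_of_le (by positivity) hψS)
  have hnn : (0 : ℝ) ≤ n := Nat.cast_nonneg n
  have hδ : ‖δ‖ = x * τ * S := by
    rw [hxd]
    linear_combination (-‖δ‖) * hτ
  have hτ' : τ ≤ 1 := by nlinarith
  have hxτ : x * τ ≤ 1 := le_trans (mul_le_mul_of_nonneg_right hx τ0.le) hτ1
  have hxτ0 : 0 ≤ x * τ := by positivity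
  have hh : ‖δ / φ‖ ≤ x * τ / 16 := by
    rw [norm_div, div_le_iff₀ (by positivity), hδ]
    have := mul_le_mul_of_nonneg_left hφ hxτ0
    linarith
  have hh2 : ‖δ / φ‖ ≤ 1 / 2 := by linarith
  have hinv : ‖1 / φ ^ 2 - 1 / ψ ^ 2‖ ≤ 2 * η / S ^ 2 := by
    have h1 : 1 / φ ^ 2 - 1 / ψ ^ 2 = (ψ - φ) * (1 / (φ ^ 2 * ψ) + 1 / (φ * ψ ^ 2)) := by
      field_simp
      ring
    rw [h1, norm_mul]
    have h2 : ‖1 / (φ ^ 2 * ψ)‖ ≤ 1 / S ^ 3 := by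
      rw [norm_div, norm_one, norm_mul, norm_pow]
      apply one_div_le_one_div_of_le (by positivity)
      have : S ^ 2 ≤ ‖φ‖ ^ 2 := pow_le_pow_left₀ S0.le (by linarith) 2
      calc S ^ 3 = S ^ 2 * S := by ring
        _ ≤ ‖φ‖ ^ 2 * ‖ψ‖ := mul_le_mul this (by linarith) S0.le (by positivity)
    have h3 : ‖1 / (φ * ψ ^ 2)‖ ≤ 1 / S ^ 3 := by
      rw [norm_div, norm_one, norm_mul, norm_pow]
      apply one_div_le_one_div_of_le (by positivity)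
      have : S ^ 2 ≤ ‖ψ‖ ^ 2 := pow_le_pow_left₀ S0.le (by linarith) 2
      calc S ^ 3 = S * S ^ 2 := by ring
        _ ≤ ‖φ‖ * ‖ψ‖ ^ 2 := mul_le_mul (by linarith) this (by positivity) (by positivity)
    calc ‖ψ - φ‖ * ‖1 / (φ ^ 2 * ψ) + 1 / (φ * ψ ^ 2)‖
        ≤ (η * S) * (1 / S ^ 3 + 1 / S ^ 3) :=
          mul_le_mul hψ ((norm_add_le _ _).trans (add_le_add h2 h3)) (norm_nonneg _)
            (by positivity)
      _ = 2 * η / S ^ 2 := by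
          field_simp
          ring
  have hX2 : x ^ 2 ≤ X0 ^ 2 := pow_le_pow_left₀ hx0 hx 2
  have hX3 : x ^ 3 ≤ X0 ^ 3 := pow_le_pow_left₀ hx0 hx 3
  have hXm : X0 ^ 2 ≤ X0 ^ 4 := pow_le_pow_right₀ hX (by norm_num)
  have hXm3 : X0 ^ 3 ≤ X0 ^ 4 := pow_le_pow_right₀ hX (by norm_num)
  have hXm1 : X0 ≤ X0 ^ 4 := by
    calc X0 = X0 ^ 1 := (pow_one _).symm
      _ ≤ _ := pow_le_pow_right₀ hX (by norm_num)
  refine ⟨hh2, ?_, ?_⟩
  · have h1 : H1 n φ δ - n * δ ^ 2 / ψ ^ 2 =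
        -(2 * n) * (Complex.log (1 + δ / φ) - δ / φ + (δ / φ) ^ 2 / 2) +
          n * δ ^ 2 * (1 / φ ^ 2 - 1 / ψ ^ 2) := by
      unfold H1
      ring
    rw [h1]
    have h2 := log_bound hh2
    have h2' : ‖δ / φ‖ ^ 3 ≤ (x * τ) ^ 3 :=
      pow_le_pow_left₀ (norm_nonneg _) (hh.trans (by linarith)) 3
    have h5 : ‖-(2 * n : ℂ)‖ = 2 * n := by simp
    have h6 : ‖(n * δ ^ 2 : ℂ)‖ = n * ‖δ‖ ^ 2 := by simp
    refine (norm_add_le _ _).trans ?_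
    rw [norm_mul, norm_mul, h5, h6]
    have h7 : 2 * n * ‖Complex.log (1 + δ / φ) - δ / φ + (δ / φ) ^ 2 / 2‖ ≤
        2 * Λ * x ^ 3 * τ := by
      calc 2 * n * ‖Complex.log (1 + δ / φ) - δ / φ + (δ / φ) ^ 2 / 2‖
          ≤ 2 * n * (x * τ) ^ 3 := mul_le_mul_of_nonneg_left (h2.trans h2') (by positivity)
        _ = 2 * Λ * x ^ 3 * τ * (τ * r * S) ^ 2 := by rw [hn]; ring
        _ = _ := by rw [hτ]; ring
    have h8 : n * ‖δ‖ ^ 2 * ‖1 / φ ^ 2 - 1 / ψ ^ 2‖ ≤ 2 * Λ * x ^ 2 * η := by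
      calc n * ‖δ‖ ^ 2 * ‖1 / φ ^ 2 - 1 / ψ ^ 2‖
          ≤ n * ‖δ‖ ^ 2 * (2 * η / S ^ 2) := mul_le_mul_of_nonneg_left hinv (by positivity)
        _ = 2 * Λ * x ^ 2 * η := by
            rw [hn, hxd]
            field_simp
    have h9 : x ^ 3 * τ ≤ X0 ^ 4 * τ := mul_le_mul_of_nonneg_right (hX3.trans hXm3) τ0.le
    have h10 : x ^ 2 * η ≤ X0 ^ 4 * η := mul_le_mul_of_nonneg_right (hX2.trans hXm) hη.le
    have h11 : 0 ≤ Λ * (X0 ^ 4 * τ) := by positivity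
    have h12 : 0 ≤ Λ * (X0 ^ 4 * η) := by positivity
    nlinarith [mul_le_mul_of_nonneg_left h9 Λ0.le, mul_le_mul_of_nonneg_left h10 Λ0.le]
  · have hs := Complex.slitPlane_ne_zero (slit_of hh2)
    obtain ⟨u, hud⟩ : ∃ u, u = δ / φ := ⟨_, rfl⟩
    rw [← hud] at hh hh2 hs ⊢
    have h1 : 2 * n * δ / (φ ^ 2 * (1 + u)) - 2 * n * δ / ψ ^ 2 =
        2 * n * δ * (1 / φ ^ 2 * (-u / (1 + u)) + (1 / φ ^ 2 - 1 / ψ ^ 2)) := by
      have hd1 : -u / (1 + u) = 1 / (1 + u) - 1 := by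
        field_simp
        ring
      rw [hd1]
      field_simp
      ring
    have h2 : ‖-u / (1 + u)‖ ≤ x * τ := by
      rw [norm_div, norm_neg]
      have h3 : 1 / 2 ≤ ‖1 + u‖ := by
        have := norm_sub_norm_le (1 : ℂ) (-u)
        rw [norm_one, norm_neg, sub_neg_eq_add] at this
        linarith
      rw [div_le_iff₀ (by linarith)]
      nlinarith
    have h3 : ‖1 / φ ^ 2‖ ≤ 1 / S ^ 2 := by
      rw [norm_div, norm_one, norm_pow]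
      apply one_div_le_one_div_of_le (by positivity)
      exact pow_le_pow_left₀ S0.le (by linarith) 2
    have h6 : ‖(2 * n * δ : ℂ)‖ = 2 * n * ‖δ‖ := by simp
    rw [h1, norm_mul, h6]
    calc 2 * n * ‖δ‖ * ‖1 / φ ^ 2 * (-u / (1 + u)) + (1 / φ ^ 2 - 1 / ψ ^ 2)‖
        ≤ 2 * n * ‖δ‖ * (1 / S ^ 2 * (x * τ) + 2 * η / S ^ 2) := by
          refine mul_le_mul_of_nonneg_left ?_ (by positivity)
          refine (norm_add_le _ _).trans (add_le_add ?_ hinv)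
          rw [norm_mul]
          exact mul_le_mul h3 h2 (norm_nonneg _) (by positivity)
      _ = 2 * Λ * (x ^ 2 * τ + 2 * x * η) * r := by
          rw [hn, hxd]
          field_simp
      _ ≤ 32 * Λ * X0 ^ 4 * (τ + η) * r := by
          refine mul_le_mul_of_nonneg_right ?_ r0.le
          have h9 : x ^ 2 * τ ≤ X0 ^ 4 * τ := mul_le_mul_of_nonneg_right (hX2.trans hXm) τ0.le
          have h10 : x * η ≤ X0 ^ 4 * η := mul_le_mul_of_nonneg_right (hx.trans hXm1) hη.le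
          have h11 : 0 ≤ Λ * (X0 ^ 4 * τ) := by positivity
          have h12 : 0 ≤ Λ * (X0 ^ 4 * η) := by positivity
          nlinarith [mul_le_mul_of_nonneg_left h9 Λ0.le, mul_le_mul_of_nonneg_left h10 Λ0.le]

end ErrKM

end Pool.Agent.Lib.MP_dd244f_an.Even
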