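import Mathlib
import Pool.Agent.Lib.MP_dd244f_an.OtherModes.RT

/-!
Bilinear Riesz-Thorin interpolation with values in a finite dimensional Hilbert space.
-/

set_option autoImplicit false

namespace Pool.Agent.Lib.MP_dd244f_an.Even.RTA

open MeasureTheory Filter Topology Finset

/-! ### regularised powers -/

lemma log_pos_arg {ρ ε : ℝ} (hε : 0 < ε) : 0 < ρ ^ 2 + ε ^ 2 := by positivity

lemma reg_le {ρ ε t q : ℝ} (hρ : 0 ≤ ρ) (hε : 0 < ε) (ht : 0 < t) (htq : t ≤ q) :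
    Real.exp ((t - q) / 2 * Real.log (ρ ^ 2 + ε ^ 2)) * ρ ^ q ≤ ρ ^ t := by
  rcases hρ.eq_or_lt with h | h
  · rw [← h, Real.zero_rpow (by linarith), Real.zero_rpow ht.ne', mul_zero]
  · have h1 : Real.log (ρ ^ 2) ≤ Real.log (ρ ^ 2 + ε ^ 2) :=
      Real.log_le_log (by positivity) (by have := sq_nonneg ε; linarith)
    have h2 : (t - q) / 2 * Real.log (ρ ^ 2 + ε ^ 2) ≤ (t - q) / 2 * Real.log (ρ ^ 2) :=
      mul_le_mul_of_nonpos_left h1 (by linarith)
    calc Real.exp ((t - q) / 2 * Real.log (ρ ^ 2 + ε ^ 2)) * ρ ^ q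
        ≤ Real.exp ((t - q) / 2 * Real.log (ρ ^ 2)) * ρ ^ q := by
          gcongr
      _ = ρ ^ t := by
          rw [Real.log_pow, show (t - q) / 2 * (((2 : ℕ) : ℝ) * Real.log ρ) =
            Real.log ρ * (t - q) by push_cast; ring, ← Real.rpow_def_of_pos h,
            ← Real.rpow_add h]
          congr 1; ring

lemma reg_lim {ρ : ℂ → ℝ} (hc : Continuous ρ) (hs : HasCompactSupport ρ) (h0 : ∀ x, 0 ≤ ρ x)
    {t q : ℝ} (hq : 0 < q) (hqt : q ≤ t) :
    Tendsto (fun k : ℕ => ∫ x, Real.exp ((t - q) / 2 *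
      Real.log (ρ x ^ 2 + (1 / ((k : ℝ) + 1)) ^ 2)) * ρ x ^ q) atTop (𝓝 (∫ x, ρ x ^ t)) := by
  have hpos : ∀ (k : ℕ) (x : ℂ), 0 < ρ x ^ 2 + (1 / ((k:ℝ) + 1)) ^ 2 := by
    intro k x; positivity
  have hcont : ∀ ε : ℝ, 0 < ε → Continuous fun x => Real.exp ((t - q) / 2 *
      Real.log (ρ x ^ 2 + ε)) * ρ x ^ q := by
    intro ε hε
    have h1 : Continuous fun x => Real.log (ρ x ^ 2 + ε) := by
      apply Continuous.log (by fun_prop)
      intro x
      have := sq_nonneg (ρ x)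
      linarith
    have h2 : Continuous fun x => ρ x ^ q := hc.rpow_const (fun x => Or.inr hq.le)
    fun_prop
  have hsupp : ∀ ε : ℝ, HasCompactSupport fun x => Real.exp ((t - q) / 2 *
      Real.log (ρ x ^ 2 + ε)) * ρ x ^ q := by
    intro ε
    apply HasCompactSupport.mul_left
    exact hs.comp_left (g := fun z : ℝ => z ^ q) (by simp [Real.zero_rpow hq.ne'])
  apply tendsto_integral_of_dominated_convergence
    (fun x => Real.exp ((t - q) / 2 * Real.log (ρ x ^ 2 + 1)) * ρ x ^ q)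
  · intro k
    exact (hcont _ (by positivity)).aestronglyMeasurable
  · exact (hcont 1 one_pos).integrable_of_hasCompactSupport (hsupp 1)
  · intro k
    filter_upwards with x
    have hr : 0 ≤ ρ x ^ q := Real.rpow_nonneg (h0 x) _
    rw [Real.norm_eq_abs, abs_mul, abs_of_pos (Real.exp_pos _), abs_of_nonneg hr]
    refine mul_le_mul_of_nonneg_right ?_ hr
    rw [Real.exp_le_exp]
    refine mul_le_mul_of_nonneg_left ?_ (by linarith)
    apply Real.log_le_log (hpos k x)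
    have : (1 / ((k:ℝ) + 1)) ^ 2 ≤ 1 := by
      rw [sq_le_one_iff_abs_le_one, abs_of_pos (by positivity), div_le_one (by positivity)]
      have : (0:ℝ) ≤ k := Nat.cast_nonneg k
      linarith
    linarith
  · filter_upwards with x
    rcases (h0 x).eq_or_lt with hx | hx
    · have e : ρ x ^ t = 0 := by
        rw [← hx, Real.zero_rpow (by linarith)]
      rw [e, ← hx]
      simp [Real.zero_rpow hq.ne']
    · have e : ρ x ^ t = Real.exp ((t - q) / 2 * Real.log (ρ x ^ 2 + 0 ^ 2)) * ρ x ^ q := by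
        rw [show ρ x ^ 2 + (0 : ℝ) ^ 2 = ρ x ^ 2 by ring, Real.log_pow,
          show (t - q) / 2 * (((2 : ℕ) : ℝ) * Real.log (ρ x)) =
            Real.log (ρ x) * (t - q) by push_cast; ring, ← Real.rpow_def_of_pos hx,
            ← Real.rpow_add hx]
        congr 1; ring
      rw [e]
      have h1 : Tendsto (fun k : ℕ => 1 / ((k:ℝ) + 1)) atTop (𝓝 0) :=
        tendsto_one_div_add_atTop_nhds_zero_nat
      have h2 : ContinuousAt (fun ε : ℝ => Real.exp ((t - q) / 2 *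
          Real.log (ρ x ^ 2 + ε ^ 2)) * ρ x ^ q) 0 := by
        have h3 : ContinuousAt (fun ε : ℝ => Real.log (ρ x ^ 2 + ε ^ 2)) 0 := by
          apply ContinuousAt.log (by fun_prop)
          positivity
        fun_prop
      exact h2.tendsto.comp h1

/-! ### convolutions -/

/-- convolution -/
noncomputable def cf (u f : ℂ → ℂ) (x : ℂ) : ℂ := ∫ y, u (x - y) * f y

/-- continuous, integrable and bounded kernels -/
def Ker (u : ℂ → ℂ) : Prop := Continuous u ∧ Integrable u ∧ ∃ B, ∀ x, ‖u x‖ ≤ B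

/-- continuous with compact support -/
def CCs (g : ℂ → ℂ) : Prop := Continuous g ∧ HasCompactSupport g

lemma CCs.int {g : ℂ → ℂ} (hg : CCs g) : Integrable g :=
  hg.1.integrable_of_hasCompactSupport hg.2

lemma cf_cont {u f : ℂ → ℂ} (hu : Continuous u) (hf : CCs f) : Continuous (cf u f) := by
  have h := continuousOn_integral_of_compact_support (μ := (volume : Measure ℂ))
    (f := fun x y : ℂ => u (x - y) * f y) (s := Set.univ) (k := tsupport f) hf.2.isCompact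
    (by
      have : Continuous (Function.uncurry fun x y : ℂ => u (x - y) * f y) := by
        have := hf.1
        fun_prop
      exact this.continuousOn)
    (fun p x _ hx => by rw [image_eq_zero_of_notMem_tsupport hx, mul_zero])
  exact continuousOn_univ.mp h

lemma cf_int {u f : ℂ → ℂ} (hu : Ker u) (hf : CCs f) : Integrable (cf u f) := by
  have h := hf.int.integrable_convolution (ContinuousLinearMap.mul ℂ ℂ) hu.2.1
  refine h.congr (Filter.Eventually.of_forall fun x => ?_)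
  rw [convolution_def]
  unfold cf
  congr 1
  ext y
  simp [mul_comm]

lemma cf_bd {u f : ℂ → ℂ} (hu : Ker u) (hf : CCs f) : ∃ B, 0 ≤ B ∧ ∀ x, ‖cf u f x‖ ≤ B := by
  obtain ⟨B, hB⟩ := hu.2.2
  have hB0 : 0 ≤ B := (norm_nonneg _).trans (hB 0)
  refine ⟨∫ y, B * ‖f y‖, integral_nonneg fun y => by positivity, fun x => ?_⟩
  apply norm_integral_le_of_norm_le (hf.int.norm.const_mul _)
  filter_upwards with y
  rw [norm_mul]
  gcongr
  exact hB _

section form

variable (I : Finset ℤ) (u v : ℤ → ℂ → ℂ)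

/-- squared size of the bilinear expression -/
noncomputable def Qn (f h : ℂ → ℂ) (x : ℂ) : ℝ :=
  ∑ a ∈ I, ‖cf (u a) f x‖ ^ 2 * ‖cf (v a) h x‖ ^ 2

/-- squared size of the dual family -/
noncomputable def Wn (w : ℤ → ℂ → ℂ) (x : ℂ) : ℝ := ∑ a ∈ I, ‖w a x‖ ^ 2

/-- the trilinear form -/
noncomputable def T (f h : ℂ → ℂ) (w : ℤ → ℂ → ℂ) : ℂ :=
  ∑ a ∈ I, ∫ x, cf (u a) f x * cf (v a) h x * w a x

variable {I u v}

lemma Qn_nonneg (f h : ℂ → ℂ) (x : ℂ) : 0 ≤ Qn I u v f h x :=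
  Finset.sum_nonneg fun a _ => by positivity

lemma Wn_nonneg (w : ℤ → ℂ → ℂ) (x : ℂ) : 0 ≤ Wn I w x :=
  Finset.sum_nonneg fun a _ => by positivity

variable (huv : ∀ a ∈ I, Ker (u a) ∧ Ker (v a))

include huv

lemma Qn_cont {f h : ℂ → ℂ} (hf : CCs f) (hh : CCs h) : Continuous (Qn I u v f h) := by
  unfold Qn
  refine continuous_finsetSum _ fun a ha => ?_
  have h1 := cf_cont (huv a ha).1.1 hf
  have h2 := cf_cont (huv a ha).2.1 hh
  fun_prop

lemma Qn_bd {f h : ℂ → ℂ} (hf : CCs f) (hh : CCs h) : ∃ B, 0 ≤ B ∧ ∀ x, Qn I u v f h x ≤ B := by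
  have : ∀ a ∈ I, ∃ B, 0 ≤ B ∧ ∀ x, ‖cf (u a) f x‖ ^ 2 * ‖cf (v a) h x‖ ^ 2 ≤ B := by
    intro a ha
    obtain ⟨B1, h1, h1'⟩ := cf_bd (huv a ha).1 hf
    obtain ⟨B2, h2, h2'⟩ := cf_bd (huv a ha).2 hh
    refine ⟨B1 ^ 2 * B2 ^ 2, by positivity, fun x => ?_⟩
    gcongr
    · exact h1' x
    · exact h2' x
  choose! B hB0 hB using this
  exact ⟨∑ a ∈ I, B a, Finset.sum_nonneg hB0, fun x => Finset.sum_le_sum fun a ha => hB a ha x⟩

lemma Qn_int {f h : ℂ → ℂ} (hf : CCs f) (hh : CCs h) : Integrable (Qn I u v f h) := by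
  unfold Qn
  refine integrable_finsetSum _ fun a ha => ?_
  obtain ⟨B1, h1, h1'⟩ := cf_bd (huv a ha).1 hf
  obtain ⟨B2, h2, h2'⟩ := cf_bd (huv a ha).2 hh
  have hc1 := cf_cont (huv a ha).1.1 hf
  have hc2 := cf_cont (huv a ha).2.1 hh
  refine Integrable.mono' (g := fun x => B1 * B2 ^ 2 * ‖cf (u a) f x‖)
    ((cf_int (huv a ha).1 hf).norm.const_mul _) (by fun_prop) ?_
  filter_upwards with x
  rw [Real.norm_eq_abs, abs_of_nonneg (by positivity)]
  calc ‖cf (u a) f x‖ ^ 2 * ‖cf (v a) h x‖ ^ 2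
      = ‖cf (u a) f x‖ * ‖cf (v a) h x‖ ^ 2 * ‖cf (u a) f x‖ := by ring
    _ ≤ B1 * B2 ^ 2 * ‖cf (u a) f x‖ := by
        gcongr
        · exact h1' x
        · exact h2' x

lemma Qn_rpow_int {f h : ℂ → ℂ} (hf : CCs f) (hh : CCs h) {s : ℝ} (hs : 1 ≤ s) :
    Integrable (fun x => Qn I u v f h x ^ s) := by
  obtain ⟨B, hB0, hB⟩ := Qn_bd huv hf hh
  have hc := Qn_cont huv hf hh
  refine Integrable.mono' (g := fun x => B ^ (s - 1) * Qn I u v f h x)
    ((Qn_int huv hf hh).const_mul _)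
    (hc.rpow_const fun x => Or.inr (by linarith)).aestronglyMeasurable ?_
  filter_upwards with x
  have h0 := Qn_nonneg (I := I) (u := u) (v := v) f h x
  rw [Real.norm_eq_abs, abs_of_nonneg (Real.rpow_nonneg h0 _)]
  rcases h0.eq_or_lt with hx | hx
  · rw [← hx, Real.zero_rpow (by linarith), mul_zero]
  · calc Qn I u v f h x ^ s = Qn I u v f h x ^ (s - 1) * Qn I u v f h x := by
          rw [← Real.rpow_add_one hx.ne']; congr 1; ring
      _ ≤ B ^ (s - 1) * Qn I u v f h x := by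
          gcongr
          exact hB x

omit huv in
lemma Wn_cont {w : ℤ → ℂ → ℂ} (hw : ∀ a ∈ I, CCs (w a)) : Continuous (Wn I w) := by
  unfold Wn
  refine continuous_finsetSum _ fun a ha => ?_
  have h1 := (hw a ha).1
  fun_prop

omit huv in
lemma Wn_supp {w : ℤ → ℂ → ℂ} (hw : ∀ a ∈ I, CCs (w a)) : HasCompactSupport (Wn I w) := by
  have hK : IsCompact (⋃ a ∈ I, tsupport (w a)) :=
    I.isCompact_biUnion fun a ha => (hw a ha).2.isCompact
  refine HasCompactSupport.intro hK fun x hx => ?_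
  unfold Wn
  refine Finset.sum_eq_zero fun a ha => ?_
  have : x ∉ tsupport (w a) := fun h => hx (Set.mem_biUnion ha h)
  rw [image_eq_zero_of_notMem_tsupport this]
  simp

/-- Hölder's inequality -/
lemma hold {f h : ℂ → ℂ} {w : ℤ → ℂ → ℂ} (hf : CCs f) (hh : CCs h) (hw : ∀ a ∈ I, CCs (w a))
    {p₀ M₀ s₀ : ℝ} (hp : 4 ≤ p₀) (hM : 0 < M₀) (hs : s₀ = p₀ / (p₀ - 2))
    (hb : ∫ x, Qn I u v f h x ^ (p₀ / 4) ≤ M₀ ^ (p₀ / 2) *
      ((∫ x, ‖f x‖ ^ p₀) ^ (1 / 2 : ℝ) * (∫ x, ‖h x‖ ^ p₀) ^ (1 / 2 : ℝ))) :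
    ‖T I u v f h w‖ ≤ M₀ * ((∫ x, ‖f x‖ ^ p₀) ^ (1 / p₀) * (∫ x, ‖h x‖ ^ p₀) ^ (1 / p₀)) *
      (∫ x, Wn I w x ^ (s₀ / 2)) ^ (1 / s₀) := by
  have hs0 : 0 < s₀ := by rw [hs]; exact div_pos (by linarith) (by linarith)
  have hs1 : 1 < s₀ := by rw [hs, one_lt_div (by linarith)]; linarith
  have hcQ := Qn_cont huv hf hh
  have hcW := Wn_cont hw
  have hIf : 0 ≤ ∫ x, ‖f x‖ ^ p₀ := integral_nonneg fun x => Real.rpow_nonneg (norm_nonneg _) _
  have hIh : 0 ≤ ∫ x, ‖h x‖ ^ p₀ := integral_nonneg fun x => Real.rpow_nonneg (norm_nonneg _) _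
  -- the pointwise bound
  have hpt : ∀ x, ‖∑ a ∈ I, cf (u a) f x * cf (v a) h x * w a x‖ ≤
      Real.sqrt (Qn I u v f h x) * Real.sqrt (Wn I w x) := by
    intro x
    calc ‖∑ a ∈ I, cf (u a) f x * cf (v a) h x * w a x‖
        ≤ ∑ a ∈ I, ‖cf (u a) f x * cf (v a) h x * w a x‖ := norm_sum_le _ _
      _ = ∑ a ∈ I, (‖cf (u a) f x‖ * ‖cf (v a) h x‖) * ‖w a x‖ := by
          refine Finset.sum_congr rfl fun a _ => ?_
          rw [norm_mul, norm_mul]
      _ ≤ Real.sqrt (∑ a ∈ I, (‖cf (u a) f x‖ * ‖cf (v a) h x‖) ^ 2) *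
            Real.sqrt (∑ a ∈ I, ‖w a x‖ ^ 2) := Real.sum_mul_le_sqrt_mul_sqrt _ _ _
      _ = _ := by
          unfold Qn Wn
          congr 2
          refine Finset.sum_congr rfl fun a _ => ?_
          rw [mul_pow]
  have hint : ∀ a ∈ I, Integrable fun x => cf (u a) f x * cf (v a) h x * w a x := by
    intro a ha
    have h1 := cf_cont (huv a ha).1.1 hf
    have h2 := cf_cont (huv a ha).2.1 hh
    have h3 := (hw a ha).1
    have hc : Continuous fun x => cf (u a) f x * cf (v a) h x * w a x := by fun_prop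
    exact hc.integrable_of_hasCompactSupport (hw a ha).2.mul_left
  have hT : T I u v f h w = ∫ x, ∑ a ∈ I, cf (u a) f x * cf (v a) h x * w a x := by
    unfold T
    rw [integral_finsetSum _ hint]
  have hprod_int : Integrable fun x => Real.sqrt (Qn I u v f h x) * Real.sqrt (Wn I w x) := by
    have hc : Continuous fun x => Real.sqrt (Qn I u v f h x) * Real.sqrt (Wn I w x) := by
      fun_prop
    refine hc.integrable_of_hasCompactSupport ?_
    apply HasCompactSupport.mul_left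
    exact (Wn_supp hw).comp_left (g := fun z : ℝ => Real.sqrt z) Real.sqrt_zero
  have h1 : ‖T I u v f h w‖ ≤ ∫ x, Real.sqrt (Qn I u v f h x) * Real.sqrt (Wn I w x) := by
    rw [hT]
    exact norm_integral_le_of_norm_le hprod_int (Filter.Eventually.of_forall hpt)
  have hconj : (p₀ / 2).HolderConjugate s₀ := by
    rw [Real.holderConjugate_iff]
    refine ⟨by linarith, ?_⟩
    rw [hs]
    have h2 : p₀ ≠ 0 := by linarith
    have h3 : p₀ - 2 ≠ 0 := by linarith
    field_simp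
    ring
  have hmQ : MemLp (fun x => Real.sqrt (Qn I u v f h x)) (ENNReal.ofReal (p₀ / 2)) := by
    rw [← integrable_norm_rpow_iff (by fun_prop) (by simp; linarith) ENNReal.ofReal_ne_top,
      ENNReal.toReal_ofReal (by linarith)]
    refine (Qn_rpow_int huv hf hh (s := p₀ / 4) (by linarith)).congr
      (Filter.Eventually.of_forall fun x => ?_)
    have h0 := Qn_nonneg (I := I) (u := u) (v := v) f h x
    simp only
    rw [Real.norm_eq_abs, abs_of_nonneg (Real.sqrt_nonneg _), Real.sqrt_eq_rpow,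
      ← Real.rpow_mul h0]
    congr 1; ring
  have hmW : MemLp (fun x => Real.sqrt (Wn I w x)) (ENNReal.ofReal s₀) := by
    have hc : Continuous fun x => Real.sqrt (Wn I w x) := by fun_prop
    exact hc.memLp_of_hasCompactSupport
      ((Wn_supp hw).comp_left (g := fun z : ℝ => Real.sqrt z) Real.sqrt_zero)
  have h2 := integral_mul_le_Lp_mul_Lq_of_nonneg hconj
    (Filter.Eventually.of_forall fun x => Real.sqrt_nonneg (Qn I u v f h x))
    (Filter.Eventually.of_forall fun x => Real.sqrt_nonneg (Wn I w x)) hmQ hmW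
  have e1 : ∫ x, Real.sqrt (Qn I u v f h x) ^ (p₀ / 2) = ∫ x, Qn I u v f h x ^ (p₀ / 4) := by
    congr 1
    ext x
    rw [Real.sqrt_eq_rpow, ← Real.rpow_mul (Qn_nonneg f h x)]
    congr 1; ring
  have e2 : ∫ x, Real.sqrt (Wn I w x) ^ s₀ = ∫ x, Wn I w x ^ (s₀ / 2) := by
    congr 1
    ext x
    rw [Real.sqrt_eq_rpow, ← Real.rpow_mul (Wn_nonneg w x)]
    congr 1; ring
  rw [e1, e2] at h2
  refine h1.trans (h2.trans ?_)
  have h3 : 0 ≤ ∫ x, Qn I u v f h x ^ (p₀ / 4) :=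
    integral_nonneg fun x => Real.rpow_nonneg (Qn_nonneg f h x) _
  have h4 : 0 ≤ (∫ x, Wn I w x ^ (s₀ / 2)) ^ (1 / s₀) :=
    Real.rpow_nonneg (integral_nonneg fun x => Real.rpow_nonneg (Wn_nonneg w x) _) _
  refine mul_le_mul_of_nonneg_right ?_ h4
  calc (∫ x, Qn I u v f h x ^ (p₀ / 4)) ^ (1 / (p₀ / 2))
      ≤ (M₀ ^ (p₀ / 2) * ((∫ x, ‖f x‖ ^ p₀) ^ (1 / 2 : ℝ) *
          (∫ x, ‖h x‖ ^ p₀) ^ (1 / 2 : ℝ))) ^ (1 / (p₀ / 2)) := by
        apply Real.rpow_le_rpow h3 hb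
        positivity
    _ = M₀ * ((∫ x, ‖f x‖ ^ p₀) ^ (1 / p₀) * (∫ x, ‖h x‖ ^ p₀) ^ (1 / p₀)) := by
        rw [Real.mul_rpow (by positivity) (by positivity), Real.mul_rpow (by positivity)
          (by positivity), ← Real.rpow_mul hM.le, ← Real.rpow_mul hIf, ← Real.rpow_mul hIh]
        have e3 : p₀ / 2 * (1 / (p₀ / 2)) = 1 := by field_simp
        have e4 : (1 / 2 : ℝ) * (1 / (p₀ / 2)) = 1 / p₀ := by field_simp
        rw [e3, e4, Real.rpow_one]

omit huv in
/-- the trilinear form as an integral over the product -/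
lemma T_term {u v f h w : ℂ → ℂ} (hu : Continuous u) (hv : Continuous v) (hf : CCs f)
    (hh : CCs h) (hw : CCs w) :
    ∫ x, cf u f x * cf v h x * w x = ∫ q : ℂ × ℂ × ℂ,
      (u (q.1 - q.2.1) * f q.2.1) * (v (q.1 - q.2.2) * h q.2.2) * w q.1 := by
  have hc : Continuous fun q : ℂ × ℂ × ℂ =>
      (u (q.1 - q.2.1) * f q.2.1) * (v (q.1 - q.2.2) * h q.2.2) * w q.1 := by
    have h1 := hf.1
    have h2 := hh.1
    have h3 := hw.1
    fun_prop
  have hK : IsCompact ((tsupport w) ×ˢ ((tsupport f) ×ˢ (tsupport h))) :=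
    hw.2.isCompact.prod (hf.2.isCompact.prod hh.2.isCompact)
  have hsupp : HasCompactSupport fun q : ℂ × ℂ × ℂ =>
      (u (q.1 - q.2.1) * f q.2.1) * (v (q.1 - q.2.2) * h q.2.2) * w q.1 := by
    refine HasCompactSupport.intro hK fun q hq => ?_
    by_cases h1 : q.1 ∈ tsupport w
    · by_cases h2 : q.2.1 ∈ tsupport f
      · by_cases h3 : q.2.2 ∈ tsupport h
        · exact absurd ⟨h1, h2, h3⟩ hq
        · rw [image_eq_zero_of_notMem_tsupport h3]; ring
      · rw [image_eq_zero_of_notMem_tsupport h2]; ring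
    · rw [image_eq_zero_of_notMem_tsupport h1]; ring
  have hint := hc.integrable_of_hasCompactSupport (μ := (volume : Measure (ℂ × ℂ × ℂ))) hsupp
  rw [Measure.volume_eq_prod] at hint ⊢
  rw [integral_prod _ hint]
  congr 1
  ext x
  simp only
  rw [Measure.volume_eq_prod, integral_mul_const,
    integral_prod_mul (fun y => u (x - y) * f y) (fun y => v (x - y) * h y)]
  rfl

end form

end Pool.Agent.Lib.MP_dd244f_an.Even.RTA
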