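import Mathlib
import Pool.Agent.Lib.MP_dd244f_an.Even.RTCore

/-!
Bilinear Riesz-Thorin interpolation, trilinear form version.
-/

set_option autoImplicit false

namespace Pool.Agent.Lib.MP_dd244f_an.Even.RTA

open MeasureTheory Filter Topology Finset

/-- multiplication by an exponential -/
noncomputable def ex (φ : ℂ → ℝ) (z : ℂ) (f : ℂ → ℂ) (x : ℂ) : ℂ := Complex.exp (z * φ x) * f x

lemma ex_cc {φ : ℂ → ℝ} (hφ : Continuous φ) (z : ℂ) {f : ℂ → ℂ} (hf : CCs f) : CCs (ex φ z f) := by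
  constructor
  · have := hf.1
    unfold ex
    fun_prop
  · exact hf.2.mul_left

lemma ex_norm (φ : ℂ → ℝ) (z : ℂ) (f : ℂ → ℂ) (x : ℂ) :
    ‖ex φ z f x‖ = Real.exp (z.re * φ x) * ‖f x‖ := by
  unfold ex
  rw [norm_mul, Complex.norm_exp]
  congr 2
  simp

/-- the analytic family of trilinear forms -/
lemma T_entire {I : Finset ℤ} {u v : ℤ → ℂ → ℂ} (huv : ∀ a ∈ I, Ker (u a) ∧ Ker (v a))
    {f h : ℂ → ℂ} {w : ℤ → ℂ → ℂ} (hf : CCs f) (hh : CCs h) (hw : ∀ a ∈ I, CCs (w a))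
    {φ₁ φ₂ φ₃ : ℂ → ℝ} (h₁ : Continuous φ₁) (h₂ : Continuous φ₂) (h₃ : Continuous φ₃) :
    Differentiable ℂ (fun z => T I u v (ex φ₁ z f) (ex φ₂ z h) (fun a => ex φ₃ z (w a))) ∧
    ∃ C, ∀ z : ℂ, 0 ≤ z.re → z.re ≤ 1 →
      ‖T I u v (ex φ₁ z f) (ex φ₂ z h) (fun a => ex φ₃ z (w a))‖ ≤ C := by
  set U : ℂ × ℂ × ℂ → ℝ := fun q => φ₁ q.2.1 + φ₂ q.2.2 + φ₃ q.1 with hU
  set Ψ : ℤ → ℂ × ℂ × ℂ → ℂ := fun a q =>
    (u a (q.1 - q.2.1) * f q.2.1) * (v a (q.1 - q.2.2) * h q.2.2) * w a q.1 with hΨ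
  have cU : Continuous U := by rw [hU]; fun_prop
  have cΨ : ∀ a ∈ I, Continuous (Ψ a) := by
    intro a ha
    have k1 := (huv a ha).1.1
    have k2 := (huv a ha).2.1
    have k3 := hf.1
    have k4 := hh.1
    have k5 := (hw a ha).1
    rw [hΨ]
    fun_prop
  have sΨ : ∀ a ∈ I, HasCompactSupport (Ψ a) := by
    intro a ha
    have hK : IsCompact ((tsupport (w a)) ×ˢ ((tsupport f) ×ˢ (tsupport h))) :=
      (hw a ha).2.isCompact.prod (hf.2.isCompact.prod hh.2.isCompact)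
    refine HasCompactSupport.intro hK fun q hq => ?_
    rw [hΨ]
    simp only
    by_cases h1 : q.1 ∈ tsupport (w a)
    · by_cases h2 : q.2.1 ∈ tsupport f
      · by_cases h3 : q.2.2 ∈ tsupport h
        · exact absurd ⟨h1, h2, h3⟩ hq
        · rw [image_eq_zero_of_notMem_tsupport h3]; ring
      · rw [image_eq_zero_of_notMem_tsupport h2]; ring
    · rw [image_eq_zero_of_notMem_tsupport h1]; ring
  have eT : (fun z => T I u v (ex φ₁ z f) (ex φ₂ z h) (fun a => ex φ₃ z (w a))) =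
      fun z : ℂ => ∑ a ∈ I, ∫ q, Complex.exp (z * U q) * Ψ a q := by
    ext z
    unfold T
    refine Finset.sum_congr rfl fun a ha => ?_
    rw [T_term (huv a ha).1.1 (huv a ha).2.1 (ex_cc h₁ z hf) (ex_cc h₂ z hh)
      (ex_cc h₃ z (hw a ha))]
    congr 1
    ext q
    rw [hU, hΨ]
    simp only [ex]
    push_cast
    rw [mul_add, mul_add, Complex.exp_add, Complex.exp_add]
    ring
  have hE : ∀ a ∈ I, Differentiable ℂ (fun z : ℂ => ∫ q, Complex.exp (z * U q) * Ψ a q) ∧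
      ∃ C, ∀ z : ℂ, 0 ≤ z.re → z.re ≤ 1 → ‖∫ q, Complex.exp (z * U q) * Ψ a q‖ ≤ C :=
    fun a ha => OtherModes.entire_cc cU (cΨ a ha) (sΨ a ha)
  constructor
  · rw [eT]
    apply Differentiable.fun_sum
    exact fun a ha => (hE a ha).1
  · have := fun a ha => (hE a ha).2
    choose! C hC using this
    refine ⟨∑ a ∈ I, C a, fun z hz0 hz1 => ?_⟩
    have e := congrFun eT z
    rw [e]
    exact (norm_sum_le _ _).trans (Finset.sum_le_sum fun a ha => hC a ha z hz0 hz1)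

lemma ex_rpow (φ ψ : ℂ → ℝ) (z : ℂ) (f : ℂ → ℂ) (x : ℂ) (q : ℝ) :
    ‖ex φ z (ex ψ 1 f) x‖ ^ q = Real.exp ((z.re * φ x + ψ x) * q) * ‖f x‖ ^ q := by
  rw [ex_norm, ex_norm, ← mul_assoc, ← Real.exp_add, Complex.one_re, one_mul,
    Real.mul_rpow (Real.exp_pos _).le (norm_nonneg _), ← Real.exp_mul]

lemma ex_Wn (I : Finset ℤ) (φ ψ : ℂ → ℝ) (z : ℂ) (w : ℤ → ℂ → ℂ) (x : ℂ) (q : ℝ) :
    Wn I (fun a => ex φ z (ex ψ 1 (w a))) x ^ (q / 2) =
      Real.exp ((z.re * φ x + ψ x) * q) * Real.sqrt (Wn I w x) ^ q := by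
  have e1 : Wn I (fun a => ex φ z (ex ψ 1 (w a))) x =
      Real.exp (2 * (z.re * φ x + ψ x)) * Wn I w x := by
    unfold Wn
    rw [Finset.mul_sum]
    refine Finset.sum_congr rfl fun a _ => ?_
    rw [ex_norm, ex_norm, ← mul_assoc, ← Real.exp_add, Complex.one_re, one_mul, mul_pow,
      ← Real.exp_nat_mul]
    push_cast
    ring_nf
  rw [e1, Real.mul_rpow (Real.exp_pos _).le (Wn_nonneg w x), ← Real.exp_mul, Real.sqrt_eq_rpow,
    ← Real.rpow_mul (Wn_nonneg w x)]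
  congr 2 <;> ring

/-- the regularised estimate -/
lemma interp_eps {I : Finset ℤ} {u v : ℤ → ℂ → ℂ} (huv : ∀ a ∈ I, Ker (u a) ∧ Ker (v a))
    {f h : ℂ → ℂ} {w : ℤ → ℂ → ℂ} (hf : CCs f) (hh : CCs h) (hw : ∀ a ∈ I, CCs (w a))
    {p₀ p₁ p M₀ M₁ τ s₀ s₁ s : ℝ} (hp0 : 4 ≤ p₀) (hp0p : p₀ ≤ p) (hpp1 : p ≤ p₁)
    (hM0 : 0 < M₀) (hM1 : 0 < M₁) (hτ0 : 0 ≤ τ) (hτ1 : τ ≤ 1)
    (hp : 1 / p = (1 - τ) / p₀ + τ / p₁) (hs0 : s₀ = p₀ / (p₀ - 2)) (hs1 : s₁ = p₁ / (p₁ - 2))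
    (hs : s = p / (p - 2))
    (hb0 : ∀ f h, CCs f → CCs h → ∫ x, Qn I u v f h x ^ (p₀ / 4) ≤ M₀ ^ (p₀ / 2) *
      ((∫ x, ‖f x‖ ^ p₀) ^ (1 / 2 : ℝ) * (∫ x, ‖h x‖ ^ p₀) ^ (1 / 2 : ℝ)))
    (hb1 : ∀ f h, CCs f → CCs h → ∫ x, Qn I u v f h x ^ (p₁ / 4) ≤ M₁ ^ (p₁ / 2) *
      ((∫ x, ‖f x‖ ^ p₁) ^ (1 / 2 : ℝ) * (∫ x, ‖h x‖ ^ p₁) ^ (1 / 2 : ℝ)))
    {ε : ℝ} (hε : 0 < ε) :
    ‖T I u v f h w‖ ≤
      (M₀ * ((∫ x, Real.exp ((p - p₀) / 2 * Real.log (‖f x‖ ^ 2 + ε ^ 2)) * ‖f x‖ ^ p₀) ^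
          (1 / p₀) *
        (∫ x, Real.exp ((p - p₀) / 2 * Real.log (‖h x‖ ^ 2 + ε ^ 2)) * ‖h x‖ ^ p₀) ^
          (1 / p₀)) * (∫ x, Real.sqrt (Wn I w x) ^ s) ^ (1 / s₀)) ^ (1 - τ) *
      (M₁ * ((∫ x, ‖f x‖ ^ p) ^ (1 / p₁) * (∫ x, ‖h x‖ ^ p) ^ (1 / p₁)) *
        (∫ x, Real.exp ((s - s₁) / 2 * Real.log (Real.sqrt (Wn I w x) ^ 2 + ε ^ 2)) *
          Real.sqrt (Wn I w x) ^ s₁) ^ (1 / s₁)) ^ τ := by
  have hp0' : 0 < p₀ := by linarith
  have hp' : 0 < p := by linarith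
  have hp1' : 0 < p₁ := by linarith
  have hs0' : 0 < s₀ := by rw [hs0]; exact div_pos (by linarith) (by linarith)
  have hs1' : 0 < s₁ := by rw [hs1]; exact div_pos (by linarith) (by linarith)
  have hs' : 0 < s := by rw [hs]; exact div_pos (by linarith) (by linarith)
  have hss0 : s ≤ s₀ := by
    rw [hs, hs0, div_le_div_iff₀ (by linarith) (by linarith)]
    nlinarith
  have hss1 : s₁ ≤ s := by
    rw [hs, hs1, div_le_div_iff₀ (by linarith) (by linarith)]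
    nlinarith
  have hsτ : 1 / s = (1 - τ) / s₀ + τ / s₁ := by
    have e1 : 1 / s = 1 - 2 * (1 / p) := by
      rw [hs]
      have : p - 2 ≠ 0 := by linarith
      field_simp
    have e2 : 1 / s₀ = 1 - 2 * (1 / p₀) := by
      rw [hs0]
      have : p₀ - 2 ≠ 0 := by linarith
      field_simp
    have e3 : 1 / s₁ = 1 - 2 * (1 / p₁) := by
      rw [hs1]
      have : p₁ - 2 ≠ 0 := by linarith
      field_simp
    rw [e1, hp, div_eq_mul_one_div (1 - τ) s₀, div_eq_mul_one_div τ s₁, e2, e3]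
    ring
  have cW := Wn_cont hw
  have sW := Wn_supp hw
  -- the logarithms
  set Lf : ℂ → ℝ := fun x => Real.log (‖f x‖ ^ 2 + ε ^ 2) with hLf
  set Lh : ℂ → ℝ := fun x => Real.log (‖h x‖ ^ 2 + ε ^ 2) with hLh
  set Lw : ℂ → ℝ := fun x => Real.log (Real.sqrt (Wn I w x) ^ 2 + ε ^ 2) with hLw
  have cLf : Continuous Lf := by
    have := hf.1
    apply Continuous.log (by fun_prop)
    intro x
    positivity
  have cLh : Continuous Lh := by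
    have := hh.1
    apply Continuous.log (by fun_prop)
    intro x
    positivity
  have cLw : Continuous Lw := by
    apply Continuous.log (by fun_prop)
    intro x
    positivity
  -- the exponents
  set α₀ : ℝ := (p / p₀ - 1) / 2 with hα₀
  set α₁ : ℝ := (p / p₁ - 1) / 2 with hα₁
  set γ₀ : ℝ := (s / s₀ - 1) / 2 with hγ₀
  set γ₁ : ℝ := (s / s₁ - 1) / 2 with hγ₁
  have hατ : α₀ + τ * (α₁ - α₀) = 0 := by
    have : p * (1 / p) = 1 := by field_simp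
    rw [hp] at this
    rw [hα₀, hα₁]
    have e1 : p / p₀ = p * (1 / p₀) := by ring
    have e2 : p / p₁ = p * (1 / p₁) := by ring
    have e3 : p * ((1 - τ) / p₀ + τ / p₁) = (1 - τ) * (p * (1 / p₀)) + τ * (p * (1 / p₁)) := by
      ring
    rw [e3] at this
    rw [e1, e2]
    linarith
  have hγτ : γ₀ + τ * (γ₁ - γ₀) = 0 := by
    have : s * (1 / s) = 1 := by field_simp
    rw [hsτ] at this
    rw [hγ₀, hγ₁]
    have e1 : s / s₀ = s * (1 / s₀) := by ring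
    have e2 : s / s₁ = s * (1 / s₁) := by ring
    have e3 : s * ((1 - τ) / s₀ + τ / s₁) = (1 - τ) * (s * (1 / s₀)) + τ * (s * (1 / s₁)) := by
      ring
    rw [e3] at this
    rw [e1, e2]
    linarith
  have hα₀p : α₀ * p₀ = (p - p₀) / 2 := by rw [hα₀]; field_simp
  have hα₁p : α₁ * p₁ = (p - p₁) / 2 := by rw [hα₁]; field_simp
  have hγ₀s : γ₀ * s₀ = (s - s₀) / 2 := by rw [hγ₀]; field_simp
  have hγ₁s : γ₁ * s₁ = (s - s₁) / 2 := by rw [hγ₁]; field_simp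
  -- the family
  have ch1 : Continuous fun x => (α₁ - α₀) * Lf x := by fun_prop
  have ch2 : Continuous fun x => (α₁ - α₀) * Lh x := by fun_prop
  have ch3 : Continuous fun x => (γ₁ - γ₀) * Lw x := by fun_prop
  have ch4 : Continuous fun x => α₀ * Lf x := by fun_prop
  have ch5 : Continuous fun x => α₀ * Lh x := by fun_prop
  have ch6 : Continuous fun x => γ₀ * Lw x := by fun_prop
  obtain ⟨hd, C, hC⟩ := T_entire huv (ex_cc ch4 1 hf) (ex_cc ch5 1 hh)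
    (fun a ha => ex_cc ch6 1 (hw a ha)) ch1 ch2 ch3
  set F : ℂ → ℂ := fun z => T I u v
    (ex (fun x => (α₁ - α₀) * Lf x) z (ex (fun x => α₀ * Lf x) 1 f))
    (ex (fun x => (α₁ - α₀) * Lh x) z (ex (fun x => α₀ * Lh x) 1 h))
    (fun a => ex (fun x => (γ₁ - γ₀) * Lw x) z (ex (fun x => γ₀ * Lw x) 1 (w a))) with hF
  have b0 : ∀ z ∈ Complex.re ⁻¹' {0}, ‖F z‖ ≤
      M₀ * ((∫ x, Real.exp ((p - p₀) / 2 * Lf x) * ‖f x‖ ^ p₀) ^ (1 / p₀) *
        (∫ x, Real.exp ((p - p₀) / 2 * Lh x) * ‖h x‖ ^ p₀) ^ (1 / p₀)) *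
        (∫ x, Real.sqrt (Wn I w x) ^ s) ^ (1 / s₀) := by
    intro z hz
    have hz' : z.re = 0 := hz
    have k := hold huv (ex_cc ch1 z (ex_cc ch4 1 hf)) (ex_cc ch2 z (ex_cc ch5 1 hh))
      (fun a ha => ex_cc ch3 z (ex_cc ch6 1 (hw a ha))) hp0 hM0 hs0
      (hb0 _ _ (ex_cc ch1 z (ex_cc ch4 1 hf)) (ex_cc ch2 z (ex_cc ch5 1 hh)))
    refine k.trans ?_
    have e1 : ∫ x, ‖ex (fun x => (α₁ - α₀) * Lf x) z (ex (fun x => α₀ * Lf x) 1 f) x‖ ^ p₀ =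
        ∫ x, Real.exp ((p - p₀) / 2 * Lf x) * ‖f x‖ ^ p₀ := by
      congr 1
      ext x
      rw [ex_rpow, hz', ← hα₀p]
      ring_nf
    have e2 : ∫ x, ‖ex (fun x => (α₁ - α₀) * Lh x) z (ex (fun x => α₀ * Lh x) 1 h) x‖ ^ p₀ =
        ∫ x, Real.exp ((p - p₀) / 2 * Lh x) * ‖h x‖ ^ p₀ := by
      congr 1
      ext x
      rw [ex_rpow, hz', ← hα₀p]
      ring_nf
    rw [e1, e2]
    refine mul_le_mul_of_nonneg_left ?_ ?_
    · refine Real.rpow_le_rpow (integral_nonneg fun x => Real.rpow_nonneg (Wn_nonneg _ x) _) ?_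
        (by positivity)
      refine integral_mono_of_nonneg
        (Filter.Eventually.of_forall fun x => Real.rpow_nonneg (Wn_nonneg _ x) _) ?_
        (Filter.Eventually.of_forall fun x => ?_)
      · have hc : Continuous fun x => Real.sqrt (Wn I w x) ^ s :=
          (Real.continuous_sqrt.comp cW).rpow_const fun x => Or.inr hs'.le
        refine hc.integrable_of_hasCompactSupport ?_
        exact sW.comp_left (g := fun y : ℝ => Real.sqrt y ^ s)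
          (by simp [Real.zero_rpow hs'.ne'])
      · simp only
        rw [ex_Wn, hz', show (0 * ((γ₁ - γ₀) * Lw x) + γ₀ * Lw x) * s₀ = γ₀ * s₀ * Lw x by ring,
          hγ₀s]
        exact reg_le (Real.sqrt_nonneg _) hε hs' hss0
    · have i1 : 0 ≤ ∫ x, Real.exp ((p - p₀) / 2 * Lf x) * ‖f x‖ ^ p₀ :=
        integral_nonneg fun x => by positivity
      have i2 : 0 ≤ ∫ x, Real.exp ((p - p₀) / 2 * Lh x) * ‖h x‖ ^ p₀ :=
        integral_nonneg fun x => by positivity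
      positivity
  have b1 : ∀ z ∈ Complex.re ⁻¹' {1}, ‖F z‖ ≤
      M₁ * ((∫ x, ‖f x‖ ^ p) ^ (1 / p₁) * (∫ x, ‖h x‖ ^ p) ^ (1 / p₁)) *
        (∫ x, Real.exp ((s - s₁) / 2 * Lw x) * Real.sqrt (Wn I w x) ^ s₁) ^ (1 / s₁) := by
    intro z hz
    have hz' : z.re = 1 := hz
    have k := hold huv (ex_cc ch1 z (ex_cc ch4 1 hf)) (ex_cc ch2 z (ex_cc ch5 1 hh))
      (fun a ha => ex_cc ch3 z (ex_cc ch6 1 (hw a ha))) (by linarith : 4 ≤ p₁) hM1 hs1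
      (hb1 _ _ (ex_cc ch1 z (ex_cc ch4 1 hf)) (ex_cc ch2 z (ex_cc ch5 1 hh)))
    refine k.trans ?_
    have e3 : ∫ x, Wn I (fun a => ex (fun x => (γ₁ - γ₀) * Lw x) z
        (ex (fun x => γ₀ * Lw x) 1 (w a))) x ^ (s₁ / 2) =
        ∫ x, Real.exp ((s - s₁) / 2 * Lw x) * Real.sqrt (Wn I w x) ^ s₁ := by
      congr 1
      ext x
      rw [ex_Wn, hz', ← hγ₁s]
      ring_nf
    rw [e3]
    have i3 : 0 ≤ ∫ x, Real.exp ((s - s₁) / 2 * Lw x) * Real.sqrt (Wn I w x) ^ s₁ :=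
      integral_nonneg fun x => by positivity
    refine mul_le_mul_of_nonneg_right ?_ (Real.rpow_nonneg i3 _)
    refine mul_le_mul_of_nonneg_left ?_ hM1.le
    have key : ∀ g : ℂ → ℂ, CCs g → (∫ x, ‖ex (fun x => (α₁ - α₀) *
        Real.log (‖g x‖ ^ 2 + ε ^ 2)) z (ex (fun x => α₀ * Real.log (‖g x‖ ^ 2 + ε ^ 2)) 1 g) x‖
          ^ p₁) ≤ ∫ x, ‖g x‖ ^ p := by
      intro g hg
      have hc : Continuous fun x => ‖g x‖ ^ p := hg.1.norm.rpow_const fun x => Or.inr hp'.le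
      refine integral_mono_of_nonneg
        (Filter.Eventually.of_forall fun x => Real.rpow_nonneg (norm_nonneg _) _)
        (hc.integrable_of_hasCompactSupport
          (hg.2.comp_left (g := fun y : ℂ => ‖y‖ ^ p) (by simp [Real.zero_rpow hp'.ne'])))
        (Filter.Eventually.of_forall fun x => ?_)
      simp only
      rw [ex_rpow, hz', show (1 * ((α₁ - α₀) * Real.log (‖g x‖ ^ 2 + ε ^ 2)) +
        α₀ * Real.log (‖g x‖ ^ 2 + ε ^ 2)) * p₁ = α₁ * p₁ * Real.log (‖g x‖ ^ 2 + ε ^ 2) by ring,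
        hα₁p]
      exact reg_le (norm_nonneg _) hε hp' hpp1
    have n1 : ∀ g : ℂ → ℂ, 0 ≤ ∫ x, ‖g x‖ ^ p₁ := fun g =>
      integral_nonneg fun x => Real.rpow_nonneg (norm_nonneg _) _
    have n2 : ∀ g : ℂ → ℂ, 0 ≤ ∫ x, ‖g x‖ ^ p := fun g =>
      integral_nonneg fun x => Real.rpow_nonneg (norm_nonneg _) _
    refine mul_le_mul (Real.rpow_le_rpow (n1 _) (key f hf) (by positivity))
      (Real.rpow_le_rpow (n1 _) (key h hh) (by positivity)) (Real.rpow_nonneg (n1 _) _)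
      (Real.rpow_nonneg (n2 _) _)
  have hθ : ((τ : ℝ) : ℂ) ∈ Complex.HadamardThreeLines.verticalClosedStrip 0 1 := by
    constructor
    · simpa only [Complex.ofReal_re] using hτ0
    · simpa only [Complex.ofReal_re] using hτ1
  have h3l := Complex.HadamardThreeLines.norm_le_interp_of_mem_verticalClosedStrip₀₁' F hθ
    (hd.diffContOnCl) (by
      refine ⟨C, ?_⟩
      rintro y ⟨ζ, hζ, rfl⟩
      exact hC ζ hζ.1 hζ.2) b0 b1
  rw [Complex.ofReal_re] at h3l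
  have back : ∀ (g : ℂ → ℂ) (L : ℂ → ℝ) (β₀ β₁ : ℝ), β₀ + τ * (β₁ - β₀) = 0 →
      ex (fun x => (β₁ - β₀) * L x) (τ : ℂ) (ex (fun x => β₀ * L x) 1 g) = g := by
    intro g L β₀ β₁ hβ
    ext x
    unfold ex
    rw [← mul_assoc, ← Complex.exp_add]
    have e : (τ : ℂ) * (((β₁ - β₀) * L x : ℝ) : ℂ) + 1 * ((β₀ * L x : ℝ) : ℂ) = 0 := by
      have : (((β₀ + τ * (β₁ - β₀)) * L x : ℝ) : ℂ) = 0 := by rw [hβ]; simp
      rw [← this]
      push_cast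
      ring
    rw [e, Complex.exp_zero, one_mul]
  have hFθ : F (τ : ℂ) = T I u v f h w := by
    rw [hF]
    simp only
    rw [back f Lf α₀ α₁ hατ, back h Lh α₀ α₁ hατ]
    congr 1
    ext a x
    rw [back (w a) Lw γ₀ γ₁ hγτ]
  rw [hFθ] at h3l
  exact h3l

/-- the exponents are monotone -/
lemma exps {p₀ p₁ p τ : ℝ} (hp0 : 4 ≤ p₀) (hp01 : p₀ ≤ p₁) (hτ0 : 0 ≤ τ) (hτ1 : τ ≤ 1)
    (hp : 1 / p = (1 - τ) / p₀ + τ / p₁) : p₀ ≤ p ∧ p ≤ p₁ := by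
  have h0 : 0 < 1 / p₀ := by positivity
  have h1 : 0 < 1 / p₁ := by
    have : 0 < p₁ := by linarith
    positivity
  have h01 : 1 / p₁ ≤ 1 / p₀ := one_div_le_one_div_of_le (by linarith) hp01
  have e : 1 / p = (1 - τ) * (1 / p₀) + τ * (1 / p₁) := by rw [hp]; ring
  have hl : 1 / p₁ ≤ 1 / p := by rw [e]; nlinarith
  have hu : 1 / p ≤ 1 / p₀ := by rw [e]; nlinarith
  have hpp : 0 < p := by
    have : 0 < 1 / p := lt_of_lt_of_le h1 hl
    exact one_div_pos.1 this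
  constructor
  · rwa [one_div_le_one_div hpp (by linarith)] at hu
  · rwa [one_div_le_one_div (by linarith) hpp] at hl

/-- interpolation for the trilinear form -/
lemma interp {I : Finset ℤ} {u v : ℤ → ℂ → ℂ} (huv : ∀ a ∈ I, Ker (u a) ∧ Ker (v a))
    {f h : ℂ → ℂ} {w : ℤ → ℂ → ℂ} (hf : CCs f) (hh : CCs h) (hw : ∀ a ∈ I, CCs (w a))
    {p₀ p₁ p M₀ M₁ τ s : ℝ} (hp0 : 4 ≤ p₀) (hp01 : p₀ ≤ p₁)
    (hM0 : 0 < M₀) (hM1 : 0 < M₁) (hτ0 : 0 ≤ τ) (hτ1 : τ ≤ 1)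
    (hp : 1 / p = (1 - τ) / p₀ + τ / p₁) (hs : s = p / (p - 2))
    (hb0 : ∀ f h, CCs f → CCs h → ∫ x, Qn I u v f h x ^ (p₀ / 4) ≤ M₀ ^ (p₀ / 2) *
      ((∫ x, ‖f x‖ ^ p₀) ^ (1 / 2 : ℝ) * (∫ x, ‖h x‖ ^ p₀) ^ (1 / 2 : ℝ)))
    (hb1 : ∀ f h, CCs f → CCs h → ∫ x, Qn I u v f h x ^ (p₁ / 4) ≤ M₁ ^ (p₁ / 2) *
      ((∫ x, ‖f x‖ ^ p₁) ^ (1 / 2 : ℝ) * (∫ x, ‖h x‖ ^ p₁) ^ (1 / 2 : ℝ))) :
    ‖T I u v f h w‖ ≤ M₀ ^ (1 - τ) * M₁ ^ τ *
      ((∫ x, ‖f x‖ ^ p) ^ (1 / p) * (∫ x, ‖h x‖ ^ p) ^ (1 / p)) *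
      (∫ x, Real.sqrt (Wn I w x) ^ s) ^ (1 / s) := by
  obtain ⟨hp0p, hpp1⟩ := exps hp0 hp01 hτ0 hτ1 hp
  set s₀ : ℝ := p₀ / (p₀ - 2) with hs0
  set s₁ : ℝ := p₁ / (p₁ - 2) with hs1
  have hp0' : 0 < p₀ := by linarith
  have hp' : 0 < p := by linarith
  have hp1' : 0 < p₁ := by linarith
  have hs0' : 0 < s₀ := by rw [hs0]; exact div_pos (by linarith) (by linarith)
  have hs1' : 0 < s₁ := by rw [hs1]; exact div_pos (by linarith) (by linarith)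
  have hs' : 0 < s := by rw [hs]; exact div_pos (by linarith) (by linarith)
  have hss1 : s₁ ≤ s := by
    rw [hs, hs1, div_le_div_iff₀ (by linarith) (by linarith)]
    nlinarith
  have hsτ : 1 / s = (1 - τ) / s₀ + τ / s₁ := by
    have e1 : 1 / s = 1 - 2 * (1 / p) := by
      rw [hs]
      have : p - 2 ≠ 0 := by linarith
      field_simp
    have e2 : 1 / s₀ = 1 - 2 * (1 / p₀) := by
      rw [hs0]
      have : p₀ - 2 ≠ 0 := by linarith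
      field_simp
    have e3 : 1 / s₁ = 1 - 2 * (1 / p₁) := by
      rw [hs1]
      have : p₁ - 2 ≠ 0 := by linarith
      field_simp
    rw [e1, hp, div_eq_mul_one_div (1 - τ) s₀, div_eq_mul_one_div τ s₁, e2, e3]
    ring
  have cW := Wn_cont hw
  have sW := Wn_supp hw
  have lim1 := reg_lim (ρ := fun x => ‖f x‖) hf.1.norm hf.2.norm (fun x => norm_nonneg _)
    hp0' hp0p
  have lim2 := reg_lim (ρ := fun x => ‖h x‖) hh.1.norm hh.2.norm (fun x => norm_nonneg _)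
    hp0' hp0p
  have lim3 := reg_lim (ρ := fun x => Real.sqrt (Wn I w x)) (Real.continuous_sqrt.comp cW)
    (sW.comp_left (g := fun y : ℝ => Real.sqrt y) Real.sqrt_zero)
    (fun x => Real.sqrt_nonneg _) hs1' hss1
  have key := fun k : ℕ => interp_eps huv hf hh hw hp0 hp0p hpp1 hM0 hM1 hτ0 hτ1 hp hs0 hs1 hs
    hb0 hb1 (ε := 1 / ((k:ℝ) + 1)) (by positivity)
  have hlim := ((((lim1.rpow_const (p := 1 / p₀) (Or.inr (by positivity))).mul
    (lim2.rpow_const (p := 1 / p₀) (Or.inr (by positivity)))).const_mul M₀).mul_const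
      ((∫ x, Real.sqrt (Wn I w x) ^ s) ^ (1 / s₀))).rpow_const (p := 1 - τ)
      (Or.inr (by linarith))
  have hlim2 := ((lim3.rpow_const (p := 1 / s₁) (Or.inr (by positivity))).const_mul
    (M₁ * ((∫ x, ‖f x‖ ^ p) ^ (1 / p₁) * (∫ x, ‖h x‖ ^ p) ^ (1 / p₁)))).rpow_const (p := τ)
      (Or.inr hτ0)
  have hfin := ge_of_tendsto' (hlim.mul hlim2) key
  refine hfin.trans (le_of_eq ?_)
  have iA : 0 ≤ ∫ x, ‖f x‖ ^ p := integral_nonneg fun x => Real.rpow_nonneg (norm_nonneg _) _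
  have iB : 0 ≤ ∫ x, ‖h x‖ ^ p := integral_nonneg fun x => Real.rpow_nonneg (norm_nonneg _) _
  have iW : 0 ≤ ∫ x, Real.sqrt (Wn I w x) ^ s :=
    integral_nonneg fun x => Real.rpow_nonneg (Real.sqrt_nonneg _) _
  generalize (∫ x, ‖f x‖ ^ p) = A at iA ⊢
  generalize (∫ x, ‖h x‖ ^ p) = B at iB ⊢
  generalize (∫ x, Real.sqrt (Wn I w x) ^ s) = W at iW ⊢
  have comb : ∀ y : ℝ, 0 ≤ y → ∀ a b c : ℝ, 0 < a → 0 < b → 1 / c = (1 - τ) / a + τ / b →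
      (y ^ (1 / a)) ^ (1 - τ) * (y ^ (1 / b)) ^ τ = y ^ (1 / c) := by
    intro y hy a b c ha hb hc
    rw [← Real.rpow_mul hy, ← Real.rpow_mul hy, hc, ← Real.rpow_add_of_nonneg hy]
    · congr 1; ring
    · exact mul_nonneg (by positivity) (by linarith)
    · exact mul_nonneg (by positivity) (by linarith)
  rw [← comb A iA p₀ p₁ p hp0' hp1' hp, ← comb B iB p₀ p₁ p hp0' hp1' hp,
    ← comb W iW s₀ s₁ s hs0' hs1' hsτ]
  rw [Real.mul_rpow (by positivity) (by positivity), Real.mul_rpow (by positivity)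
    (by positivity), Real.mul_rpow (by positivity) (by positivity),
    Real.mul_rpow (by positivity) (by positivity), Real.mul_rpow (by positivity)
    (by positivity), Real.mul_rpow (by positivity) (by positivity)]
  ring

end Pool.Agent.Lib.MP_dd244f_an.Even.RTA
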