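import Mathlib
import Pool.Agent.Lib.MP_dd244f_an.Even.RTInterp

/-!
Bilinear Riesz-Thorin interpolation, from the trilinear form back to the norms.
-/

set_option autoImplicit false

namespace Pool.Agent.Lib.MP_dd244f_an.Even.RTA

open MeasureTheory Filter Topology Finset

/-- continuous cut-off -/
noncomputable def chi (k : ℕ) (x : ℂ) : ℝ := max 0 (min 1 ((k : ℝ) + 1 - ‖x‖))

lemma chi_cont (k : ℕ) : Continuous (chi k) := by unfold chi; fun_prop

lemma chi_nonneg (k : ℕ) (x : ℂ) : 0 ≤ chi k x := le_max_left _ _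

lemma chi_le_one (k : ℕ) (x : ℂ) : chi k x ≤ 1 := max_le zero_le_one (min_le_left _ _)

lemma chi_supp (k : ℕ) : HasCompactSupport (chi k) := by
  refine HasCompactSupport.intro (isCompact_closedBall (0 : ℂ) ((k : ℝ) + 1)) fun x hx => ?_
  rw [Metric.mem_closedBall, dist_zero_right, not_le] at hx
  unfold chi
  exact max_eq_left ((min_le_right _ _).trans (by linarith))

lemma chi_eq {k : ℕ} {x : ℂ} (h : ‖x‖ ≤ k) : chi k x = 1 := by
  unfold chi
  rw [min_eq_left (by linarith)]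
  exact max_eq_right zero_le_one

/-- duality -/
lemma dual {I : Finset ℤ} {u v : ℤ → ℂ → ℂ} (huv : ∀ a ∈ I, Ker (u a) ∧ Ker (v a))
    {f h : ℂ → ℂ} (hf : CCs f) (hh : CCs h)
    {p₀ p₁ p M₀ M₁ τ : ℝ} (hp0 : 4 ≤ p₀) (hp01 : p₀ ≤ p₁)
    (hM0 : 0 < M₀) (hM1 : 0 < M₁) (hτ0 : 0 ≤ τ) (hτ1 : τ ≤ 1)
    (hp : 1 / p = (1 - τ) / p₀ + τ / p₁)
    (hb0 : ∀ f h, CCs f → CCs h → ∫ x, Qn I u v f h x ^ (p₀ / 4) ≤ M₀ ^ (p₀ / 2) *
      ((∫ x, ‖f x‖ ^ p₀) ^ (1 / 2 : ℝ) * (∫ x, ‖h x‖ ^ p₀) ^ (1 / 2 : ℝ)))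
    (hb1 : ∀ f h, CCs f → CCs h → ∫ x, Qn I u v f h x ^ (p₁ / 4) ≤ M₁ ^ (p₁ / 2) *
      ((∫ x, ‖f x‖ ^ p₁) ^ (1 / 2 : ℝ) * (∫ x, ‖h x‖ ^ p₁) ^ (1 / 2 : ℝ))) (k : ℕ) :
    ∫ x, chi k x * Qn I u v f h x ^ (p / 4) ≤ (M₀ ^ (1 - τ) * M₁ ^ τ) ^ (p / 2) *
      ((∫ x, ‖f x‖ ^ p) ^ (1 / 2 : ℝ) * (∫ x, ‖h x‖ ^ p) ^ (1 / 2 : ℝ)) := by
  obtain ⟨hp0p, hpp1⟩ := exps hp0 hp01 hτ0 hτ1 hp
  have hp4 : 4 ≤ p := by linarith
  set s : ℝ := p / (p - 2) with hs
  have hs' : 1 ≤ s := by rw [hs, one_le_div (by linarith)]; linarith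
  have cQ := Qn_cont huv hf hh
  have nQ := Qn_nonneg (I := I) (u := u) (v := v) f h
  set w : ℤ → ℂ → ℂ := fun a x => ((chi k x * Qn I u v f h x ^ ((p - 4) / 4) : ℝ) : ℂ) *
    (starRingEnd ℂ) (cf (u a) f x * cf (v a) h x) with hw
  have cQ1 : Continuous fun x => Qn I u v f h x ^ ((p - 4) / 4) :=
    cQ.rpow_const fun x => Or.inr (by linarith)
  have hwc : ∀ a ∈ I, CCs (w a) := by
    intro a ha
    have c1 := cf_cont (huv a ha).1.1 hf
    have c2 := cf_cont (huv a ha).2.1 hh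
    have c3 := chi_cont k
    constructor
    · rw [hw]
      have : Continuous fun x => (starRingEnd ℂ) (cf (u a) f x * cf (v a) h x) :=
        Complex.continuous_conj.comp (c1.mul c2)
      fun_prop
    · refine HasCompactSupport.intro (chi_supp k).isCompact fun x hx => ?_
      rw [hw]
      simp only
      rw [image_eq_zero_of_notMem_tsupport hx]
      simp
  -- the trilinear form
  have eQ : ∀ x, Qn I u v f h x ^ ((p - 4) / 4) * Qn I u v f h x = Qn I u v f h x ^ (p / 4) := by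
    intro x
    rw [← Real.rpow_add_one' (nQ x) (by linarith)]
    congr 1
    ring
  have eT : T I u v f h w = ((∫ x, chi k x * Qn I u v f h x ^ (p / 4) : ℝ) : ℂ) := by
    unfold T
    rw [← integral_finsetSum, ← integral_complex_ofReal]
    · congr 1
      ext x
      rw [← eQ x]
      nth_rewrite 2 [Qn]
      rw [hw]
      simp only
      push_cast
      rw [Finset.mul_sum, Finset.mul_sum]
      refine Finset.sum_congr rfl fun a _ => ?_
      have e1 : (cf (u a) f x * cf (v a) h x) *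
          (starRingEnd ℂ) (cf (u a) f x * cf (v a) h x) =
          ((‖cf (u a) f x‖ : ℝ) : ℂ) ^ 2 * ((‖cf (v a) h x‖ : ℝ) : ℂ) ^ 2 := by
        rw [Complex.mul_conj, Complex.normSq_eq_norm_sq, norm_mul]
        push_cast
        ring
      rw [← e1]
      ring
    · intro a ha
      have c1 := cf_cont (huv a ha).1.1 hf
      have c2 := cf_cont (huv a ha).2.1 hh
      have c3 := (hwc a ha).1
      have hc : Continuous fun x => cf (u a) f x * cf (v a) h x * w a x := by fun_prop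
      exact hc.integrable_of_hasCompactSupport (hwc a ha).2.mul_left
  have eW : ∀ x, Real.sqrt (Wn I w x) ^ s = chi k x ^ s * Qn I u v f h x ^ (p / 4) := by
    intro x
    have e1 : Wn I w x = (chi k x) ^ 2 * (Qn I u v f h x ^ ((p - 4) / 4)) ^ 2 *
        Qn I u v f h x := by
      unfold Wn
      nth_rewrite 2 [Qn]
      rw [Finset.mul_sum]
      refine Finset.sum_congr rfl fun a _ => ?_
      rw [hw]
      simp only
      rw [norm_mul, Complex.norm_real, RCLike.norm_conj, mul_pow, Real.norm_eq_abs, sq_abs,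
        norm_mul]
      ring
    have e2 : Real.sqrt (Wn I w x) = chi k x * Qn I u v f h x ^ ((p - 2) / 4) := by
      rw [e1]
      have e3 : (chi k x) ^ 2 * (Qn I u v f h x ^ ((p - 4) / 4)) ^ 2 * Qn I u v f h x =
          (chi k x * Qn I u v f h x ^ ((p - 2) / 4)) ^ 2 := by
        rw [mul_pow, mul_assoc]
        congr 1
        rw [← Real.rpow_natCast, ← Real.rpow_natCast, ← Real.rpow_mul (nQ x),
          ← Real.rpow_mul (nQ x), ← Real.rpow_add_one' (nQ x)]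
        · congr 1
          push_cast
          ring
        · push_cast
          linarith
      rw [e3, Real.sqrt_sq]
      exact mul_nonneg (chi_nonneg k x) (Real.rpow_nonneg (nQ x) _)
    rw [e2, Real.mul_rpow (chi_nonneg k x) (Real.rpow_nonneg (nQ x) _), ← Real.rpow_mul (nQ x)]
    congr 2
    rw [hs]
    have : p - 2 ≠ 0 := by linarith
    field_simp
  set X : ℝ := ∫ x, chi k x * Qn I u v f h x ^ (p / 4) with hX
  have hXint : Integrable fun x => chi k x * Qn I u v f h x ^ (p / 4) := by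
    have c3 := chi_cont k
    have c4 : Continuous fun x => Qn I u v f h x ^ (p / 4) :=
      cQ.rpow_const fun x => Or.inr (by linarith)
    exact (c3.mul c4).integrable_of_hasCompactSupport (chi_supp k).mul_right
  have hX0 : 0 ≤ X := integral_nonneg fun x =>
    mul_nonneg (chi_nonneg k x) (Real.rpow_nonneg (nQ x) _)
  have hWX : ∫ x, Real.sqrt (Wn I w x) ^ s ≤ X := by
    refine integral_mono_of_nonneg
      (Filter.Eventually.of_forall fun x => Real.rpow_nonneg (Real.sqrt_nonneg _) _) hXint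
      (Filter.Eventually.of_forall fun x => ?_)
    simp only
    rw [eW x]
    refine mul_le_mul_of_nonneg_right ?_ (Real.rpow_nonneg (nQ x) _)
    calc chi k x ^ s ≤ chi k x ^ (1 : ℝ) := by
          rcases (chi_nonneg k x).eq_or_lt with h0 | h0
          · rw [← h0, Real.zero_rpow (by linarith), Real.zero_rpow one_ne_zero]
          · exact Real.rpow_le_rpow_of_exponent_ge h0 (chi_le_one k x) hs'
      _ = chi k x := Real.rpow_one _
  have main := interp huv hf hh hwc hp0 hp01 hM0 hM1 hτ0 hτ1 hp hs hb0 hb1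
  rw [eT, Complex.norm_real, Real.norm_eq_abs, abs_of_nonneg hX0] at main
  have iA : 0 ≤ ∫ x, ‖f x‖ ^ p := integral_nonneg fun x => Real.rpow_nonneg (norm_nonneg _) _
  have iB : 0 ≤ ∫ x, ‖h x‖ ^ p := integral_nonneg fun x => Real.rpow_nonneg (norm_nonneg _) _
  have iW : 0 ≤ ∫ x, Real.sqrt (Wn I w x) ^ s :=
    integral_nonneg fun x => Real.rpow_nonneg (Real.sqrt_nonneg _) _
  have hWX' : (∫ x, Real.sqrt (Wn I w x) ^ s) ^ (1 / s) ≤ X ^ (1 / s) :=
    Real.rpow_le_rpow iW hWX (by positivity)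
  generalize (∫ x, ‖f x‖ ^ p) = A at iA main ⊢
  generalize (∫ x, ‖h x‖ ^ p) = B at iB main ⊢
  have main2 : X ≤ M₀ ^ (1 - τ) * M₁ ^ τ * (A ^ (1 / p) * B ^ (1 / p)) * X ^ (1 / s) :=
    main.trans (mul_le_mul_of_nonneg_left hWX' (by positivity))
  rcases hX0.eq_or_lt with h0 | h0
  · rw [← h0]
    positivity
  · have h1 : X ^ (2 / p) ≤ M₀ ^ (1 - τ) * M₁ ^ τ * (A ^ (1 / p) * B ^ (1 / p)) := by
      have h2 : X = X ^ (2 / p) * X ^ (1 / s) := by
        rw [← Real.rpow_add h0]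
        have e1 : 2 / p + 1 / s = 1 := by
          rw [hs]
          have : p - 2 ≠ 0 := by linarith
          field_simp
          ring
        rw [e1, Real.rpow_one]
      have h3 : 0 < X ^ (1 / s) := Real.rpow_pos_of_pos h0 _
      nth_rewrite 1 [h2] at main2
      exact le_of_mul_le_mul_right main2 h3
    have h4 : X = (X ^ (2 / p)) ^ (p / 2) := by
      rw [← Real.rpow_mul h0.le]
      have : 2 / p * (p / 2) = 1 := by field_simp
      rw [this, Real.rpow_one]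
    rw [h4]
    calc (X ^ (2 / p)) ^ (p / 2)
        ≤ (M₀ ^ (1 - τ) * M₁ ^ τ * (A ^ (1 / p) * B ^ (1 / p))) ^ (p / 2) :=
          Real.rpow_le_rpow (Real.rpow_nonneg h0.le _) h1 (by linarith)
      _ = _ := by
          rw [Real.mul_rpow (by positivity) (by positivity), Real.mul_rpow
            (Real.rpow_nonneg iA _) (Real.rpow_nonneg iB _),
            ← Real.rpow_mul iA, ← Real.rpow_mul iB]
          have : 1 / p * (p / 2) = 1 / 2 := by field_simp
          rw [this]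

/-- the interpolation theorem -/
theorem rt_core {I : Finset ℤ} {u v : ℤ → ℂ → ℂ} (huv : ∀ a ∈ I, Ker (u a) ∧ Ker (v a))
    {f h : ℂ → ℂ} (hf : CCs f) (hh : CCs h)
    {p₀ p₁ p M₀ M₁ τ : ℝ} (hp0 : 4 ≤ p₀) (hp01 : p₀ ≤ p₁)
    (hM0 : 0 < M₀) (hM1 : 0 < M₁) (hτ0 : 0 ≤ τ) (hτ1 : τ ≤ 1)
    (hp : 1 / p = (1 - τ) / p₀ + τ / p₁)
    (hb0 : ∀ f h, CCs f → CCs h → ∫ x, Qn I u v f h x ^ (p₀ / 4) ≤ M₀ ^ (p₀ / 2) *
      ((∫ x, ‖f x‖ ^ p₀) ^ (1 / 2 : ℝ) * (∫ x, ‖h x‖ ^ p₀) ^ (1 / 2 : ℝ)))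
    (hb1 : ∀ f h, CCs f → CCs h → ∫ x, Qn I u v f h x ^ (p₁ / 4) ≤ M₁ ^ (p₁ / 2) *
      ((∫ x, ‖f x‖ ^ p₁) ^ (1 / 2 : ℝ) * (∫ x, ‖h x‖ ^ p₁) ^ (1 / 2 : ℝ))) :
    Integrable (fun x => Qn I u v f h x ^ (p / 4)) ∧
    ∫ x, Qn I u v f h x ^ (p / 4) ≤ (M₀ ^ (1 - τ) * M₁ ^ τ) ^ (p / 2) *
      ((∫ x, ‖f x‖ ^ p) ^ (1 / 2 : ℝ) * (∫ x, ‖h x‖ ^ p) ^ (1 / 2 : ℝ)) := by
  obtain ⟨hp0p, hpp1⟩ := exps hp0 hp01 hτ0 hτ1 hp
  have hi := Qn_rpow_int huv hf hh (s := p / 4) (by linarith)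
  refine ⟨hi, ?_⟩
  have nQ := Qn_nonneg (I := I) (u := u) (v := v) f h
  have hlim : Tendsto (fun k : ℕ => ∫ x, chi k x * Qn I u v f h x ^ (p / 4)) atTop
      (𝓝 (∫ x, Qn I u v f h x ^ (p / 4))) := by
    apply tendsto_integral_of_dominated_convergence (fun x => Qn I u v f h x ^ (p / 4))
    · intro k
      exact (chi_cont k).aestronglyMeasurable.mul hi.aestronglyMeasurable
    · exact hi
    · intro k
      filter_upwards with x
      have h1 := Real.rpow_nonneg (nQ x) (p / 4)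
      rw [Real.norm_eq_abs, abs_of_nonneg (mul_nonneg (chi_nonneg k x) h1)]
      exact mul_le_of_le_one_left h1 (chi_le_one k x)
    · filter_upwards with x
      obtain ⟨k0, hk0⟩ := exists_nat_ge ‖x‖
      refine tendsto_const_nhds.congr' ?_
      filter_upwards [eventually_ge_atTop k0] with k hk
      rw [chi_eq (hk0.trans (by exact_mod_cast hk)), one_mul]
  exact le_of_tendsto' hlim fun k => dual huv hf hh hp0 hp01 hM0 hM1 hτ0 hτ1 hp hb0 hb1 k

end Pool.Agent.Lib.MP_dd244f_an.Even.RTA
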