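import Pool.Agent.Lib.MP_dd244f_an.Even.Stmts
import Pool.Agent.Lib.MP_dd244f_an.Even.RTDual

/-!
(RT) bilinear interpolation with values in a finite dimensional Hilbert space.
-/

set_option autoImplicit false

namespace Pool.Agent.Lib.MP_dd244f_an.Even

open MeasureTheory Filter Topology Finset
open Pool.Agent.Lib.MP_dd244f_an.Four

/-- module RT -/
theorem rt : StmtRT := by
  intro I u v p₀ p₁ p M₀ M₁ τ huv hp0 hp01 hM0 hM1 hτ0 hτ1 hp hb0 hb1 f h hf hh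
  have huv' : ∀ a ∈ I, RTA.Ker (u a) ∧ RTA.Ker (v a) := by
    intro a ha
    obtain ⟨a1, a2, a3, a4, a5, a6⟩ := huv a ha
    exact ⟨⟨a1, a2, a3⟩, ⟨a4, a5, a6⟩⟩
  exact RTA.rt_core huv' hf hh hp0 hp01 hM0 hM1 hτ0 hτ1 hp hb0 hb1

end Pool.Agent.Lib.MP_dd244f_an.Even
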