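import Pool.Agent.Lib.MP_dd244f_an.Even.Stmts
import Pool.Agent.Lib.MP_dd244f_an.Four.Syn

/-!
(SynK): the windowed form of the sharp inequality, even exponents.
-/

set_option autoImplicit false

namespace Pool.Agent.Lib.MP_dd244f_an.Even

open MeasureTheory Filter Topology Finset
open Pool.Agent.Lib.MP_dd244f_an.Four
open scoped ENNReal

namespace SynKAux

/-- `(a + b) ^ m ≤ (1 + ε) a ^ m + C b ^ m` -/
lemma pow_add_le (m : ℕ) {ε : ℝ} (hε : 0 < ε) : ∃ C : ℝ, 0 ≤ C ∧ ∀ a b : ℝ, 0 ≤ a → 0 ≤ b →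
    (a + b) ^ m ≤ (1 + ε) * a ^ m + C * b ^ m := by
  have h1 : Tendsto (fun δ : ℝ => (1 + δ) ^ m) (𝓝 0) (𝓝 ((1 + 0) ^ m)) := by
    have : Continuous (fun δ : ℝ => (1 + δ) ^ m) := by fun_prop
    exact this.tendsto 0
  have h2 : ∀ᶠ δ : ℝ in 𝓝 0, (1 + δ) ^ m < 1 + ε := by
    apply h1.eventually_lt_const
    rw [add_zero, one_pow]
    linarith
  have h3 : ∀ᶠ δ : ℝ in 𝓝[>] 0, (1 + δ) ^ m < 1 + ε ∧ 0 < δ :=
    (h2.filter_mono nhdsWithin_le_nhds).and self_mem_nhdsWithin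
  obtain ⟨δ, hδ1, hδ0⟩ := h3.exists
  refine ⟨(1 / δ + 1) ^ m, by positivity, fun a b ha hb => ?_⟩
  rcases le_total b (δ * a) with h | h
  · have h4 : (a + b) ^ m ≤ ((1 + δ) * a) ^ m :=
      pow_le_pow_left₀ (by positivity) (by linarith) m
    rw [mul_pow] at h4
    have h5 : (1 + δ) ^ m * a ^ m ≤ (1 + ε) * a ^ m :=
      mul_le_mul_of_nonneg_right hδ1.le (by positivity)
    have h6 : 0 ≤ (1 / δ + 1) ^ m * b ^ m := by positivity
    linarith
  · have h4 : a + b ≤ (1 / δ + 1) * b := by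
      have : a ≤ 1 / δ * b := by
        rw [one_div, ← div_eq_inv_mul, le_div_iff₀ hδ0]
        linarith
      linarith
    have h5 : (a + b) ^ m ≤ ((1 / δ + 1) * b) ^ m :=
      pow_le_pow_left₀ (by positivity) h4 m
    rw [mul_pow] at h5
    have h6 : 0 ≤ (1 + ε) * a ^ m := by positivity
    linarith

/-- the integral of a Gaussian -/
lemma gauss {c : ℝ} (hc : 0 < c) (v : ℂ) :
    Integrable (fun ξ : ℂ => Real.exp (-(c * ‖ξ - v‖ ^ 2))) ∧
      ∫ ξ : ℂ, Real.exp (-(c * ‖ξ - v‖ ^ 2)) = Real.pi / c := by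
  have hpi := Real.pi_pos
  set ρ : ℝ := Real.sqrt (c / Real.pi) with hρ
  have hρ0 : 0 < ρ := Real.sqrt_pos.mpr (by positivity)
  have hρ2 : ρ ^ 2 = c / Real.pi := Real.sq_sqrt (by positivity)
  have e : ∀ ξ : ℂ, Real.exp (-(c * ‖ξ - v‖ ^ 2)) = SynM.ga ρ (ξ - v) := by
    intro ξ
    unfold SynM.ga
    rw [hρ2]
    congr 2
    field_simp
  simp only [e]
  refine ⟨(SynM.ga_integrable hρ0).comp_sub_right v, ?_⟩
  rw [integral_sub_right_eq_self (fun y => SynM.ga ρ y), SynM.ga_int_val hρ0, hρ2]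
  field_simp

/-- moments of a Gaussian -/
lemma moment (k : ℕ) {ε : ℝ} (hε : 0 < ε) : ∃ C : ℝ, 0 ≤ C ∧ ∀ (r : ℝ) (v : ℂ), 0 < r →
    ∫⁻ ξ : ℂ, ENNReal.ofReal (‖ξ‖ ^ (4 * k) *
      Real.exp (-(2 * Real.pi * r ^ 2 * (k + 1) * ‖ξ - v‖ ^ 2))) ≤
      ENNReal.ofReal (1 / (2 * (k + 1) * r ^ 2) *
        ((1 + ε) * ‖v‖ ^ (4 * k) + C * (r⁻¹) ^ (4 * k))) := by
  obtain ⟨C₁, hC₁, h₁⟩ := pow_add_le (4 * k) hε
  have hpi := Real.pi_pos
  refine ⟨2 * (C₁ * (2 * k).factorial), by positivity, fun r v hr => ?_⟩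
  set c : ℝ := 2 * Real.pi * r ^ 2 * (k + 1) with hc
  have hc0 : 0 < c := by positivity
  obtain ⟨i1, v1⟩ := gauss hc0 v
  obtain ⟨i2, v2⟩ := gauss (half_pos hc0) v
  have hpt : ∀ ξ : ℂ, ‖ξ‖ ^ (4 * k) * Real.exp (-(c * ‖ξ - v‖ ^ 2)) ≤
      (1 + ε) * ‖v‖ ^ (4 * k) * Real.exp (-(c * ‖ξ - v‖ ^ 2)) +
        C₁ * (2 * k).factorial * (r⁻¹) ^ (4 * k) * Real.exp (-(c / 2 * ‖ξ - v‖ ^ 2)) := by
    intro ξ
    have a1 : ‖ξ‖ ≤ ‖v‖ + ‖ξ - v‖ := by
      have := norm_add_le v (ξ - v)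
      rwa [add_sub_cancel] at this
    have a2 : ‖ξ‖ ^ (4 * k) ≤ (1 + ε) * ‖v‖ ^ (4 * k) + C₁ * ‖ξ - v‖ ^ (4 * k) :=
      (pow_le_pow_left₀ (norm_nonneg _) a1 _).trans (h₁ _ _ (norm_nonneg _) (norm_nonneg _))
    have a3 : ‖ξ - v‖ ^ (4 * k) * Real.exp (-(c * ‖ξ - v‖ ^ 2)) ≤
        (2 * k).factorial * (r⁻¹) ^ (4 * k) * Real.exp (-(c / 2 * ‖ξ - v‖ ^ 2)) := by
      set t : ℝ := ‖ξ - v‖ with ht
      have ht0 : 0 ≤ t := norm_nonneg _
      set y : ℝ := c / 2 * t ^ 2 with hy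
      have hy0 : 0 ≤ y := by positivity
      have b1 : y ^ (2 * k) / (2 * k).factorial ≤ Real.exp y :=
        Real.pow_div_factorial_le_exp y hy0 (2 * k)
      have b2 : (r * t) ^ 2 ≤ y := by
        rw [hy, hc]
        have b3 : 1 ≤ Real.pi * ((k : ℝ) + 1) := by
          have : (1 : ℝ) ≤ Real.pi := by linarith [Real.pi_gt_three]
          have h0 : (0 : ℝ) ≤ k := Nat.cast_nonneg k
          nlinarith
        have b4 : 0 ≤ (r * t) ^ 2 := by positivity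
        nlinarith
      have b3 : (r * t) ^ (4 * k) ≤ y ^ (2 * k) := by
        have : (r * t) ^ (4 * k) = ((r * t) ^ 2) ^ (2 * k) := by
          rw [← pow_mul]
          congr 1
          ring
        rw [this]
        exact pow_le_pow_left₀ (by positivity) b2 _
      have b4 : (r * t) ^ (4 * k) ≤ (2 * k).factorial * Real.exp y := by
        rw [div_le_iff₀ (by positivity)] at b1
        linarith
      have b5 : t ^ (4 * k) = (r⁻¹) ^ (4 * k) * (r * t) ^ (4 * k) := by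
        rw [← mul_pow]
        congr 1
        field_simp
      have b6 : Real.exp (-(c * t ^ 2)) = Real.exp (-y) * Real.exp (-y) := by
        rw [← Real.exp_add]
        congr 1
        rw [hy]
        ring
      have b7 : Real.exp y * Real.exp (-y) = 1 := by
        rw [← Real.exp_add, add_neg_cancel, Real.exp_zero]
      rw [b5, b6]
      calc (r⁻¹) ^ (4 * k) * (r * t) ^ (4 * k) * (Real.exp (-y) * Real.exp (-y))
          ≤ (r⁻¹) ^ (4 * k) * ((2 * k).factorial * Real.exp y) *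
            (Real.exp (-y) * Real.exp (-y)) := by gcongr
        _ = (2 * k).factorial * (r⁻¹) ^ (4 * k) * Real.exp (-y) *
            (Real.exp y * Real.exp (-y)) := by ring
        _ = (2 * k).factorial * (r⁻¹) ^ (4 * k) * Real.exp (-y) := by rw [b7, mul_one]
    have a4 : 0 ≤ Real.exp (-(c * ‖ξ - v‖ ^ 2)) := (Real.exp_pos _).le
    calc ‖ξ‖ ^ (4 * k) * Real.exp (-(c * ‖ξ - v‖ ^ 2))
        ≤ ((1 + ε) * ‖v‖ ^ (4 * k) + C₁ * ‖ξ - v‖ ^ (4 * k)) *
          Real.exp (-(c * ‖ξ - v‖ ^ 2)) := mul_le_mul_of_nonneg_right a2 a4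
      _ = (1 + ε) * ‖v‖ ^ (4 * k) * Real.exp (-(c * ‖ξ - v‖ ^ 2)) +
          C₁ * (‖ξ - v‖ ^ (4 * k) * Real.exp (-(c * ‖ξ - v‖ ^ 2))) := by ring
      _ ≤ (1 + ε) * ‖v‖ ^ (4 * k) * Real.exp (-(c * ‖ξ - v‖ ^ 2)) +
          C₁ * ((2 * k).factorial * (r⁻¹) ^ (4 * k) *
            Real.exp (-(c / 2 * ‖ξ - v‖ ^ 2))) := by gcongr
      _ = _ := by ring
  have j1 := i1.const_mul ((1 + ε) * ‖v‖ ^ (4 * k))
  have j2 := i2.const_mul (C₁ * (2 * k).factorial * (r⁻¹) ^ (4 * k))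
  calc ∫⁻ ξ : ℂ, ENNReal.ofReal (‖ξ‖ ^ (4 * k) * Real.exp (-(c * ‖ξ - v‖ ^ 2)))
      ≤ ∫⁻ ξ : ℂ, ENNReal.ofReal ((1 + ε) * ‖v‖ ^ (4 * k) * Real.exp (-(c * ‖ξ - v‖ ^ 2)) +
        C₁ * (2 * k).factorial * (r⁻¹) ^ (4 * k) * Real.exp (-(c / 2 * ‖ξ - v‖ ^ 2))) :=
        lintegral_mono fun ξ => ENNReal.ofReal_le_ofReal (hpt ξ)
    _ = ENNReal.ofReal (∫ ξ : ℂ, ((1 + ε) * ‖v‖ ^ (4 * k) * Real.exp (-(c * ‖ξ - v‖ ^ 2)) +
        C₁ * (2 * k).factorial * (r⁻¹) ^ (4 * k) * Real.exp (-(c / 2 * ‖ξ - v‖ ^ 2)))) := by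
        have j3 : Integrable (fun ξ : ℂ =>
            (1 + ε) * ‖v‖ ^ (4 * k) * Real.exp (-(c * ‖ξ - v‖ ^ 2)) +
            C₁ * (2 * k).factorial * (r⁻¹) ^ (4 * k) *
              Real.exp (-(c / 2 * ‖ξ - v‖ ^ 2))) := j1.add j2
        rw [ofReal_integral_eq_lintegral_ofReal j3
          (Eventually.of_forall fun ξ => by positivity)]
    _ = _ := by
        congr 1
        rw [integral_add j1 j2, integral_const_mul, integral_const_mul, v1, v2, hc]
        field_simp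

lemma enorm_pow (w : ℂ) (m : ℕ) : ‖w‖ₑ ^ m = ENNReal.ofReal (‖w‖ ^ m) := by
  rw [← ofReal_norm, ENNReal.ofReal_pow (norm_nonneg _)]

/-- higher powers of `iF g` are integrable -/
lemma int_pow (hB : StmtBase) {g : ℂ → ℂ} (hg : CC g) (k : ℕ) :
    Integrable (fun x => ‖iF g x‖ ^ (2 * k + 2)) := by
  obtain ⟨h1, ⟨B, h2⟩, h3, -⟩ := hB.1 g hg
  have h4 := h3.bdd_mul (c := B ^ (2 * k)) (f := fun x => ‖iF g x‖ ^ (2 * k))
    ((h1.norm.pow _).aestronglyMeasurable) (Eventually.of_forall fun x => by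
      rw [Real.norm_eq_abs, abs_of_nonneg (by positivity)]
      exact pow_le_pow_left₀ (norm_nonneg _) (h2 x) _)
  refine h4.congr (Eventually.of_forall fun x => ?_)
  simp only
  rw [← pow_add]

end SynKAux

open SynKAux SynM in
/-- windowed form of the sharp inequality -/
theorem synK (hH : StmtHLPK) (hP : StmtPSK) (hC2 : StmtCV2) (hB : Four.StmtBase) :
    StmtSynK := by
  intro k ε hk hε
  obtain ⟨C, hC, hmom⟩ := moment k hε
  refine ⟨C, hC, fun r g hr hg => ?_⟩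
  have hpi := Real.pi_pos
  have hFc : Continuous (iF g) := (hB.1 g hg).1
  have hF : Integrable (fun x => ‖iF g x‖ ^ (2 * k + 2)) := int_pow hB hg k
  have hA : CC (AK k r (fun _ => g)) := (hC2 k).2.1 r (fun _ => g) (fun _ _ => hg)
  have hCH : 0 ≤ CH k := by
    unfold CH
    have h1 : 0 ≤ gamK k ^ (2 * k + 2) := Even.pow_nonneg ⟨k + 1, by ring⟩ _
    positivity
  have hNK : NK (k + 1) g = ∫ x, ‖iF g x‖ ^ (2 * k + 2) := by
    unfold NK
    rfl
  set ρ : ℝ := Real.sqrt (2 * k + 2) / r with hρ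
  have hρ0 : 0 < ρ := by positivity
  have hρ2 : ρ ^ 2 = (2 * k + 2) / r ^ 2 := by
    rw [hρ, div_pow, Real.sq_sqrt (by positivity)]
  -- the left-hand side
  have hL : ∫⁻ z, ∫⁻ x, ‖iF (hz r g z) x‖ₑ ^ (2 * k + 2) =
      ENNReal.ofReal (r ^ 2 / (2 * k + 2) * NK (k + 1) g) := by
    have e : ∀ z x, ‖iF (hz r g z) x‖ₑ ^ (2 * k + 2) =
        ENNReal.ofReal (SynM.ga ρ (x - z) * ‖iF g x‖ ^ (2 * k + 2)) := by
      intro z x
      rw [SynKAux.enorm_pow, iF_hz hr hg, norm_mul, mul_pow, Complex.norm_real, Real.norm_eq_abs,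
        Real.abs_exp]
      congr 2
      unfold SynM.ga
      rw [← Real.exp_nat_mul, hρ2]
      congr 1
      push_cast
      field_simp
    simp only [e]
    rw [lintegral_lintegral_swap]
    · have h1 : ∀ x, ∫⁻ z, ENNReal.ofReal (SynM.ga ρ (x - z) * ‖iF g x‖ ^ (2 * k + 2)) =
          ENNReal.ofReal (r ^ 2 / (2 * k + 2) * ‖iF g x‖ ^ (2 * k + 2)) := by
        intro x
        have i1 : Integrable (fun z => SynM.ga ρ (x - z) * ‖iF g x‖ ^ (2 * k + 2)) :=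
          ((ga_integrable hρ0).comp_sub_left x).mul_const _
        rw [← ofReal_integral_eq_lintegral_ofReal i1
          (Eventually.of_forall fun z => by have := ga_pos ρ (x - z); positivity)]
        congr 1
        rw [integral_mul_const, integral_sub_left_eq_self (fun y => SynM.ga ρ y),
          ga_int_val hρ0, hρ2]
        field_simp
      simp only [h1]
      rw [← ofReal_integral_eq_lintegral_ofReal (hF.const_mul _)
        (Eventually.of_forall fun x => by positivity), integral_const_mul, hNK]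
    · have hcont : Continuous
          (fun p : ℂ × ℂ => SynM.ga ρ (p.2 - p.1) * ‖iF g p.2‖ ^ (2 * k + 2)) := by
        have := continuous_ga ρ
        fun_prop
      exact hcont.measurable.ennreal_ofReal.aemeasurable
  -- the integrals over `z`
  have hu : ∀ ξ, Integrable (fun z => ‖iF (gs r ξ g) z‖ ^ (2 * k + 2)) ∧
      ∫ z, ‖iF (gs r ξ g) z‖ ^ (2 * k + 2) =
        ∫ θ, wk k r ξ θ * ‖AK k r (fun _ => g) θ‖ ^ 2 := by
    intro ξ
    refine ⟨int_pow hB (gs_cc hg) k, ?_⟩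
    rw [← hP k r (fun _ => g) ξ (fun _ _ => hg)]
    congr 1
    ext z
    rw [Finset.prod_const, Finset.card_range, ← pow_mul]
    congr 1
  set c : ℝ := 2 * Real.pi * r ^ 2 * (k + 1) with hc
  have hc0 : 0 < c := by positivity
  have hexp : ∀ θ ξ : ℂ, wk k r ξ θ = Real.exp (-(c * ‖ξ - θ / (k + 1)‖ ^ 2)) := by
    intro θ ξ
    unfold wk
    rw [norm_sub_rev]
  -- the right-hand side
  have hR : ∫⁻ z, ∫⁻ ξ, ‖hz r g z ξ‖ₑ ^ (2 * k + 2) * ‖ξ‖ₑ ^ (4 * k) ≤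
      ENNReal.ofReal (∫ θ, r ^ (4 * k + 4) * ‖AK k r (fun _ => g) θ‖ ^ 2 *
        (1 / (2 * (k + 1) * r ^ 2) * ((1 + ε) * ‖θ / (k + 1)‖ ^ (4 * k) +
          C * (r⁻¹) ^ (4 * k)))) := by
    have e : ∀ z ξ, ‖hz r g z ξ‖ₑ ^ (2 * k + 2) * ‖ξ‖ₑ ^ (4 * k) =
        ENNReal.ofReal (r ^ (4 * k + 4) * ‖ξ‖ ^ (4 * k) * ‖iF (gs r ξ g) z‖ ^ (2 * k + 2)) := by
      intro z ξ
      rw [SynKAux.enorm_pow, SynKAux.enorm_pow, ← ENNReal.ofReal_mul (by positivity)]
      congr 1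
      unfold hz
      rw [norm_mul, norm_mul, norm_ch, Complex.norm_real, Real.norm_eq_abs,
        abs_of_nonneg (by positivity), one_mul, mul_pow, ← pow_mul]
      ring
    simp only [e]
    rw [lintegral_lintegral_swap]
    · have h1 : ∀ ξ, ∫⁻ z, ENNReal.ofReal
          (r ^ (4 * k + 4) * ‖ξ‖ ^ (4 * k) * ‖iF (gs r ξ g) z‖ ^ (2 * k + 2)) =
          ∫⁻ θ, ENNReal.ofReal (r ^ (4 * k + 4) * ‖AK k r (fun _ => g) θ‖ ^ 2) *
            ENNReal.ofReal (‖ξ‖ ^ (4 * k) * Real.exp (-(c * ‖ξ - θ / (k + 1)‖ ^ 2))) := by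
        intro ξ
        rw [← ofReal_integral_eq_lintegral_ofReal ((hu ξ).1.const_mul _)
          (Eventually.of_forall fun x => by positivity), integral_const_mul, (hu ξ).2,
          ← integral_const_mul]
        have i2 : Integrable (fun θ => r ^ (4 * k + 4) * ‖ξ‖ ^ (4 * k) *
            (wk k r ξ θ * ‖AK k r (fun _ => g) θ‖ ^ 2)) := by
          refine Continuous.integrable_of_hasCompactSupport ?_ ?_
          · have := hA.1
            unfold wk
            fun_prop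
          · refine HasCompactSupport.mul_left ?_
            refine HasCompactSupport.mul_left ?_
            exact (hA.2.norm).comp_left (g := fun t : ℝ => t ^ 2) (by norm_num)
        rw [ofReal_integral_eq_lintegral_ofReal i2
          (Eventually.of_forall fun x => by unfold wk; positivity)]
        congr 1
        ext θ
        rw [← ENNReal.ofReal_mul (by positivity), hexp]
        congr 1
        ring
      simp only [h1]
      rw [lintegral_lintegral_swap]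
      · have h2 : ∀ θ, ∫⁻ ξ, ENNReal.ofReal (r ^ (4 * k + 4) * ‖AK k r (fun _ => g) θ‖ ^ 2) *
            ENNReal.ofReal (‖ξ‖ ^ (4 * k) * Real.exp (-(c * ‖ξ - θ / (k + 1)‖ ^ 2))) ≤
            ENNReal.ofReal (r ^ (4 * k + 4) * ‖AK k r (fun _ => g) θ‖ ^ 2 *
              (1 / (2 * (k + 1) * r ^ 2) * ((1 + ε) * ‖θ / (k + 1)‖ ^ (4 * k) +
                C * (r⁻¹) ^ (4 * k)))) := by
          intro θ
          rw [lintegral_const_mul' _ _ ENNReal.ofReal_ne_top,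
            ENNReal.ofReal_mul (p := r ^ (4 * k + 4) * ‖AK k r (fun _ => g) θ‖ ^ 2)
              (by positivity)]
          exact mul_le_mul_right (hmom r (θ / (k + 1)) hr) _
        refine (lintegral_mono h2).trans (le_of_eq ?_)
        rw [← ofReal_integral_eq_lintegral_ofReal]
        · refine Continuous.integrable_of_hasCompactSupport ?_ ?_
          · have := hA.1
            fun_prop
          · refine HasCompactSupport.mul_right ?_
            refine HasCompactSupport.mul_left ?_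
            exact (hA.2.norm).comp_left (g := fun t : ℝ => t ^ 2) (by norm_num)
        · exact Eventually.of_forall fun x => by positivity
      · have hcont : Continuous (fun p : ℂ × ℂ => ‖p.1‖ ^ (4 * k) *
            Real.exp (-(c * ‖p.1 - p.2 / (k + 1)‖ ^ 2))) := by
          fun_prop
        have hcont2 : Continuous (fun p : ℂ × ℂ => r ^ (4 * k + 4) *
            ‖AK k r (fun _ => g) p.2‖ ^ 2) := by
          have := hA.1
          fun_prop
        exact (hcont2.measurable.ennreal_ofReal.mul hcont.measurable.ennreal_ofReal).aemeasurable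
    · have h3 := cont_u (r := r) hg
      have hcont : Continuous (fun p : ℂ × ℂ => r ^ (4 * k + 4) * ‖p.2‖ ^ (4 * k) *
          ‖iF (gs r p.2 g) p.1‖ ^ (2 * k + 2)) :=
        (by fun_prop : Continuous (fun p : ℂ × ℂ => r ^ (4 * k + 4) * ‖p.2‖ ^ (4 * k))).mul
          ((h3.norm).pow (2 * k + 2))
      exact hcont.measurable.ennreal_ofReal.aemeasurable
  -- the inequality
  have hmain : ENNReal.ofReal (r ^ 2 / (2 * k + 2) * NK (k + 1) g) ≤ ENNReal.ofReal (CH k) *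
      ENNReal.ofReal (∫ θ, r ^ (4 * k + 4) * ‖AK k r (fun _ => g) θ‖ ^ 2 *
        (1 / (2 * (k + 1) * r ^ 2) * ((1 + ε) * ‖θ / (k + 1)‖ ^ (4 * k) +
          C * (r⁻¹) ^ (4 * k)))) := by
    rw [← hL]
    refine le_trans ?_ (mul_le_mul_right hR _)
    rw [← lintegral_const_mul']
    · exact lintegral_mono fun z => hH k hk _ (hz_integrable hr hg z)
    · exact ENNReal.ofReal_ne_top
  have hI0 : 0 ≤ ∫ θ, r ^ (4 * k + 4) * ‖AK k r (fun _ => g) θ‖ ^ 2 *
        (1 / (2 * (k + 1) * r ^ 2) * ((1 + ε) * ‖θ / (k + 1)‖ ^ (4 * k) +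
          C * (r⁻¹) ^ (4 * k))) :=
    integral_nonneg fun θ => by positivity
  rw [← ENNReal.ofReal_mul hCH, ENNReal.ofReal_le_ofReal_iff (by positivity)] at hmain
  have hval : ∫ θ, r ^ (4 * k + 4) * ‖AK k r (fun _ => g) θ‖ ^ 2 *
        (1 / (2 * (k + 1) * r ^ 2) * ((1 + ε) * ‖θ / (k + 1)‖ ^ (4 * k) +
          C * (r⁻¹) ^ (4 * k))) = r ^ 2 / (2 * k + 2) *
      ∫ θ, ((1 + ε) * (r * ‖θ‖ / (k + 1)) ^ (4 * k) + C) * ‖AK k r (fun _ => g) θ‖ ^ 2 := by
    rw [← integral_const_mul]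
    congr 1
    ext θ
    have h1 : ‖θ / ((k : ℂ) + 1)‖ = ‖θ‖ / (k + 1) := by
      rw [norm_div]
      congr 1
      have : ((k : ℂ) + 1) = ((k + 1 : ℕ) : ℂ) := by push_cast; rfl
      rw [this, Complex.norm_natCast]
      push_cast
      rfl
    have h2 : (r⁻¹) ^ (4 * k) * r ^ (4 * k) = 1 := by
      rw [← mul_pow, inv_mul_cancel₀ hr.ne', one_pow]
    have h3 : (r * ‖θ‖ / (k + 1)) ^ (4 * k) = r ^ (4 * k) * (‖θ‖ / (k + 1)) ^ (4 * k) := by
      rw [← mul_pow, mul_div_assoc]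
    rw [h1, h3, show r ^ (4 * k + 4) = r ^ (4 * k) * r ^ 4 from pow_add _ _ _]
    calc r ^ (4 * k) * r ^ 4 * ‖AK k r (fun _ => g) θ‖ ^ 2 * (1 / (2 * (k + 1) * r ^ 2) *
          ((1 + ε) * (‖θ‖ / (k + 1)) ^ (4 * k) + C * (r⁻¹) ^ (4 * k)))
        = r ^ 4 * (1 / (2 * (k + 1) * r ^ 2)) * ((1 + ε) * (r ^ (4 * k) *
          (‖θ‖ / (k + 1)) ^ (4 * k)) + C * ((r⁻¹) ^ (4 * k) * r ^ (4 * k))) *
          ‖AK k r (fun _ => g) θ‖ ^ 2 := by ring
      _ = _ := by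
        rw [h2, mul_one]
        have : r ^ 4 * (1 / (2 * (k + 1) * r ^ 2)) = r ^ 2 / (2 * k + 2) := by
          field_simp
        rw [this]
        ring
  rw [hval] at hmain
  have hr2 : 0 < r ^ 2 / (2 * k + 2) := by positivity
  have h5 : r ^ 2 / (2 * k + 2) * NK (k + 1) g ≤ r ^ 2 / (2 * k + 2) * (CH k *
      ∫ θ, ((1 + ε) * (r * ‖θ‖ / (k + 1)) ^ (4 * k) + C) * ‖AK k r (fun _ => g) θ‖ ^ 2) := by
    refine hmain.trans (le_of_eq ?_)
    ring
  exact le_of_mul_le_mul_left h5 hr2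

end Pool.Agent.Lib.MP_dd244f_an.Even
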