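import Pool.Agent.Lib.MP_dd244f_an.Even.Stmts

/-!
Full operator, even `p`: (TailK) only the frequencies of the block matter.
-/

set_option autoImplicit false

namespace Pool.Agent.Lib.MP_dd244f_an.Even

open MeasureTheory Filter Topology Finset
open Pool.Agent.Lib.MP_dd244f_an.Four

/-- (TailK) -/
theorem tailK (h1 : StmtTailHK) (h2 : StmtTailLK) (hC2 : StmtCV2) (hF : Four.StmtFac) :
    StmtTailK := by
  intro k Q L m ε hk hQ hm hmL hε
  obtain ⟨n₁, hn₁⟩ := h1 k Q L m (ε / 4) hk hQ hm hmL (by linarith)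
  obtain ⟨n₂, hn₂⟩ := h2 k Q L m (ε / 4) hk hQ hm hmL (by linarith)
  refine ⟨max n₁ n₂, fun n hn g hg c Bs => ?_⟩
  have e1 := hn₁ n (le_trans (le_max_left _ _) hn) g hg c Bs
  have e2 := hn₂ n (le_trans (le_max_right _ _) hn) g hg c Bs
  have hcc : ∀ (σ : ℝ) (h : ℂ → ℂ), CC h → CC (AK k σ (fun _ => h)) := fun σ h hh =>
    (hC2 k).2.1 σ (fun _ => h) fun _ _ => hh
  have hint : ∀ (σ : ℝ) (u v : ℂ → ℂ), CC u → CC v → Integrable
      (fun θ => ‖AK k σ (fun _ => u) θ - AK k σ (fun _ => v) θ‖ ^ 2) := by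
    intro σ u v hu hv
    have a1 := hcc σ u hu
    have a2 := hcc σ v hv
    refine Continuous.integrable_of_hasCompactSupport ((a1.1.sub a2.1).norm.pow 2) ?_
    exact (a1.2.sub a2.2).comp_left (g := fun z : ℂ => ‖z‖ ^ 2) (by simp)
  have hb : ∀ b ∈ Bs, ∫ θ in JK k (c + b * L) L m, ‖AK k (win n Q (c + b * L) L) (fun _ => g) θ
      - AK k (win n Q (c + b * L) L) (fun _ => cut (bd (c + b * L) (c + b * L + L)) g) θ‖ ^ 2
      ≤ 2 * (∫ θ in JK k (c + b * L) L m, ‖AK k (win n Q (c + b * L) L) (fun _ => g) θ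
      - AK k (win n Q (c + b * L) L) (fun _ => cut (lo (c + b * L + L)) g) θ‖ ^ 2) +
      2 * (∫ θ in JK k (c + b * L) L m,
      ‖AK k (win n Q (c + b * L) L) (fun _ => cut (lo (c + b * L + L)) g) θ
      - AK k (win n Q (c + b * L) L) (fun _ => cut (bd (c + b * L) (c + b * L + L)) g) θ‖
        ^ 2) := by
    intro b _
    have hlo := (hF.2.2.2.2.1 g (c + b * L + L) 0 hg).1
    have hbd := (hF.2.2.2.2.1 g (c + b * L) (c + b * L + L) hg).2.1
    have i1 := (hint (win n Q (c + b * L) L) _ _ hg hlo).integrableOn (s := JK k (c + b * L) L m)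
    have i2 := (hint (win n Q (c + b * L) L) _ _ hlo hbd).integrableOn
      (s := JK k (c + b * L) L m)
    have i3 := (hint (win n Q (c + b * L) L) _ _ hg hbd).integrableOn (s := JK k (c + b * L) L m)
    rw [← integral_const_mul, ← integral_const_mul, ← integral_add (i1.const_mul 2)
      (i2.const_mul 2)]
    refine integral_mono i3 ((i1.const_mul 2).add (i2.const_mul 2)) fun θ => ?_
    simp only
    set x := AK k (win n Q (c + b * L) L) (fun _ => g) θ
    set y := AK k (win n Q (c + b * L) L) (fun _ => cut (lo (c + b * L + L)) g) θ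
    set z := AK k (win n Q (c + b * L) L) (fun _ => cut (bd (c + b * L) (c + b * L + L)) g) θ
    have h3 : ‖x - z‖ ≤ ‖x - y‖ + ‖y - z‖ := norm_sub_le_norm_sub_add_norm_sub x y z
    have h4 := pow_le_pow_left₀ (norm_nonneg _) h3 2
    nlinarith [sq_nonneg (‖x - y‖ - ‖y - z‖)]
  refine (Finset.sum_le_sum hb).trans ?_
  rw [Finset.sum_add_distrib, ← Finset.mul_sum, ← Finset.mul_sum]
  have hNK : 0 ≤ NK (k + 1) g := integral_nonneg fun _ => by positivity
  linarith

end Pool.Agent.Lib.MP_dd244f_an.Even
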